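import Pool.Agent.DQ1.Step

/-! # Keisler's theorem: countable weak models extend to standard models -/

namespace Pool.Agent.DQ1

open Function Cardinal Set

universe u v w

namespace WM

/-- transport of a weak model -/
def map {D : Type v} {D' : Type w} (e : D ≃ D') (W : WM D) : WM D' where
  T φ v := W.T φ (e.symm ∘ v)
  eq x y v := by
    rw [W.eq]
    exact e.symm.injective.eq_iff
  neg φ v := W.neg φ _
  and φ ψ v := W.and φ ψ _
  all φ v := by
    rw [W.all]
    constructor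
    · intro h a
      rw [comp_push]
      exact h _
    · intro h a
      have := h (e a)
      rwa [comp_push, e.symm_apply_apply] at this
  ren φ f v := W.ren φ f _
  q1 x v := W.q1 x _
  q2 φ ψ v := W.q2 φ ψ _
  q3 φ ψ v := W.q3 φ ψ _
  q4 φ v := W.q4 φ _
  le φ v := W.le φ _
  univ v := W.univ _
  tri x y v := by
    rcases W.tri x y (e.symm ∘ v) with h | h | h
    · exact Or.inl h
    · exact Or.inr (Or.inl (e.symm.injective h))
    · exact Or.inr (Or.inr h)

end WM

/-- countable weak models on subsets of a fixed type -/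
structure Stage (Ω : Type w) where
  S : Set Ω
  cnt : S.Countable
  ne : S.Nonempty
  W : WM S

namespace Stage

variable {Ω : Type w}

/-- elementary extension in which small sets do not grow -/
structure Le (s t : Stage Ω) : Prop where
  sub : s.S ⊆ t.S
  iff : ∀ φ v, s.W.T φ v ↔ t.W.T φ (inclusion sub ∘ v)
  small : ∀ φ v, ¬ s.W.T (.q φ) v → ∀ a : t.S, t.W.T φ (push a (inclusion sub ∘ v)) → a.1 ∈ s.S

/-- extension in which all big sets grow -/
structure Lt (s t : Stage Ω) : Prop extends Le s t where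
  grow : ∀ φ v, s.W.T (.q φ) v → ∃ a : t.S, t.W.T φ (push a (inclusion sub ∘ v)) ∧ a.1 ∉ s.S

theorem Le.refl (s : Stage Ω) : Le s s := ⟨subset_rfl, fun φ v => Iff.rfl, fun _ _ _ a _ => a.2⟩

theorem Le.trans {s t r : Stage Ω} (h : Le s t) (h' : Le t r) : Le s r where
  sub := h.sub.trans h'.sub
  iff φ v := (h.iff φ v).trans (h'.iff φ _)
  small φ v hs a ha := by
    have h1 : a.1 ∈ t.S := by
      refine h'.small φ (inclusion h.sub ∘ v) ?_ a ha
      rw [← h.iff]; exact hs
    refine h.small φ v hs ⟨a.1, h1⟩ ?_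
    rw [h'.iff, comp_push]
    exact ha

theorem Lt.trans_le {s t r : Stage Ω} (h : Lt s t) (h' : Le t r) : Lt s r where
  toLe := h.toLe.trans h'
  grow φ v hs := by
    obtain ⟨a, ha, ha'⟩ := h.grow φ v hs
    refine ⟨⟨a.1, h'.sub a.2⟩, ?_, ha'⟩
    have := (h'.iff _ _).1 ha
    rw [comp_push] at this
    exact this

theorem Le.trans_lt {s t r : Stage Ω} (h : Le s t) (h' : Lt t r) : Lt s r where
  toLe := h.trans h'.toLe
  grow φ v hs := by
    obtain ⟨a, ha, ha'⟩ := h'.grow φ (inclusion h.sub ∘ v) ((h.iff _ _).1 hs)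
    exact ⟨a, ha, fun h2 => ha' (h.sub h2)⟩

theorem Lt.irrefl (s : Stage Ω) : ¬ Lt s s := by
  intro h
  obtain ⟨x, hx⟩ := s.ne
  obtain ⟨a, -, ha⟩ := h.grow (.eq 0 0) (fun _ => ⟨x, hx⟩) (s.W.univ _)
  exact ha a.2

/-- one step for one big set -/
theorem exists_step (hΩ : Uncountable Ω) (s : Stage Ω) (φ0 : KF) (v0 : ℕ → s.S)
    (h : s.W.T (.q φ0) v0) : ∃ t, ∃ hl : Le s t, ∃ a : t.S,
      t.W.T φ0 (push a (inclusion hl.sub ∘ v0)) ∧ a.1 ∉ s.S := by
  classical
  have hc : Countable s.S := s.cnt.to_subtype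
  have hne : Nonempty s.S := s.ne.to_subtype
  obtain ⟨D', W', j, hc', hj, hiff, hsmall, b, hb, hb'⟩ := s.W.step φ0 v0 h
  -- room for the new elements
  have h1 : ¬ (s.Sᶜ).Countable := by
    intro hcc
    have : (Set.univ : Set Ω).Countable := by
      rw [← Set.union_compl_self s.S]; exact s.cnt.union hcc
    exact Set.not_countable_univ this
  have h2 : #{x : D' // x ∉ Set.range j} ≤ #(s.Sᶜ : Set Ω) := by
    have h3 : #{x : D' // x ∉ Set.range j} ≤ ℵ₀ := mk_le_aleph0
    refine h3.trans ?_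
    by_contra hcon
    push Not at hcon
    exact h1 (le_aleph0_iff_set_countable.1 hcon.le)
  obtain ⟨g⟩ := h2
  let f : D' → Ω := fun x => if hx : x ∈ Set.range j then (hx.choose : s.S).1 else (g ⟨x, hx⟩).1
  have hfj : ∀ a : s.S, f (j a) = a.1 := by
    intro a
    have hx : j a ∈ Set.range j := ⟨a, rfl⟩
    show (if hx : j a ∈ Set.range j then (hx.choose : s.S).1 else (g ⟨j a, hx⟩).1) = _
    rw [dif_pos hx]
    have := hj hx.choose_spec
    rw [this]
  have hfn : ∀ x (hx : x ∉ Set.range j), f x = (g ⟨x, hx⟩).1 := fun x hx => dif_neg hx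
  have hfi : Injective f := by
    intro x y hxy
    by_cases hx : x ∈ Set.range j <;> by_cases hy : y ∈ Set.range j
    · obtain ⟨a, rfl⟩ := hx
      obtain ⟨c, rfl⟩ := hy
      rw [hfj, hfj] at hxy
      rw [Subtype.ext hxy]
    · obtain ⟨a, rfl⟩ := hx
      rw [hfj, hfn y hy] at hxy
      exact absurd (hxy ▸ a.2 : (g ⟨y, hy⟩).1 ∈ s.S) (g ⟨y, hy⟩).2
    · obtain ⟨a, rfl⟩ := hy
      rw [hfj, hfn x hx] at hxy
      exact absurd (hxy ▸ a.2 : (g ⟨x, hx⟩).1 ∈ s.S) (g ⟨x, hx⟩).2
    · rw [hfn x hx, hfn y hy] at hxy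
      have := g.injective (Subtype.ext hxy)
      exact congrArg Subtype.val this
  let e : D' ≃ Set.range f := Equiv.ofInjective f hfi
  have he : ∀ x, (e x).1 = f x := fun x => rfl
  have hsub : s.S ⊆ Set.range f := fun x hx => ⟨j ⟨x, hx⟩, hfj _⟩
  let t : Stage Ω := ⟨Set.range f, Set.countable_range f, s.ne.mono hsub, W'.map e⟩
  have hincl : ∀ v : ℕ → s.S, e.symm ∘ (inclusion hsub ∘ v) = j ∘ v := by
    intro v
    funext n
    show e.symm (inclusion hsub (v n)) = j (v n)
    rw [Equiv.symm_apply_eq]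
    exact Subtype.ext (hfj _).symm
  have hmem : ∀ x : D', f x ∈ s.S → x ∈ Set.range j := by
    intro x hx
    by_contra hc
    rw [hfn x hc] at hx
    exact (g ⟨x, hc⟩).2 hx
  have hle : Le s t := by
    refine ⟨hsub, fun φ v => ?_, fun φ v hs a ha => ?_⟩
    · show _ ↔ W'.T φ (e.symm ∘ (inclusion hsub ∘ v))
      rw [hincl, hiff]
    · have ha' : W'.T φ (e.symm ∘ push a (inclusion hsub ∘ v)) := ha
      rw [comp_push, hincl] at ha'
      obtain ⟨c, hcc⟩ := hsmall φ v hs _ ha'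
      have h3 : a = e (j c) := by rw [hcc, e.apply_symm_apply]
      rw [h3]
      show f (j c) ∈ s.S
      rw [hfj]
      exact c.2
  refine ⟨t, hle, e b, ?_, fun h3 => hb' (hmem b h3)⟩
  show W'.T φ0 (e.symm ∘ push (e b) (inclusion hsub ∘ v0))
  rw [comp_push, hincl, e.symm_apply_apply]
  exact hb

/-! ### unions of chains -/

section Union

variable (𝒟 : Set (Stage Ω))

/-- the domain of the union -/
def dom : Set Ω := {x | ∃ s ∈ 𝒟, x ∈ s.S}

/-- truth in the union -/
def UT (φ : KF) (v : ℕ → dom 𝒟) : Prop :=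
  ∃ s ∈ 𝒟, ∃ v' : ℕ → s.S, (∀ i < φ.bd, (v' i).1 = (v i).1) ∧ s.W.T φ v'

variable {𝒟}

theorem ut_iff (hch : ∀ s ∈ 𝒟, ∀ t ∈ 𝒟, Le s t ∨ Le t s) {φ : KF} {v : ℕ → dom 𝒟} {s : Stage Ω}
    (hs : s ∈ 𝒟) {v' : ℕ → s.S} (h : ∀ i < φ.bd, (v' i).1 = (v i).1) :
    UT 𝒟 φ v ↔ s.W.T φ v' := by
  constructor
  · rintro ⟨t, ht, w, hw, hT⟩
    rcases hch s hs t ht with hl | hl
    · rw [hl.iff]
      exact (t.W.congr_bd fun i hi => Subtype.ext ((hw i hi).trans (h i hi).symm)).1 hT
    · rw [hl.iff] at hT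
      exact (s.W.congr_bd fun i hi => Subtype.ext ((hw i hi).trans (h i hi).symm)).1 hT
  · intro hT
    exact ⟨s, hs, v', h, hT⟩

theorem exists_common (hch : ∀ s ∈ 𝒟, ∀ t ∈ 𝒟, Le s t ∨ Le t s) (hne : 𝒟.Nonempty)
    (v : ℕ → dom 𝒟) (n : ℕ) : ∃ s ∈ 𝒟, ∃ v' : ℕ → s.S, ∀ i < n, (v' i).1 = (v i).1 := by
  have h : ∃ s ∈ 𝒟, ∀ i < n, (v i).1 ∈ s.S := by
    induction n with
    | zero =>
      obtain ⟨s, hs⟩ := hne
      exact ⟨s, hs, fun i hi => absurd hi (by omega)⟩
    | succ n ih =>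
      obtain ⟨s, hs, h⟩ := ih
      obtain ⟨t, ht, h'⟩ := (v n).2
      rcases hch s hs t ht with hl | hl
      · refine ⟨t, ht, fun i hi => ?_⟩
        rcases Nat.lt_succ_iff_lt_or_eq.1 hi with h2 | h2
        · exact hl.sub (h i h2)
        · subst h2; exact h'
      · refine ⟨s, hs, fun i hi => ?_⟩
        rcases Nat.lt_succ_iff_lt_or_eq.1 hi with h2 | h2
        · exact h i h2
        · subst h2; exact hl.sub h'
  obtain ⟨s, hs, h⟩ := h
  classical
  obtain ⟨x, hx⟩ := s.ne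
  exact ⟨s, hs, fun i => if hi : i < n then ⟨(v i).1, h i hi⟩ else ⟨x, hx⟩,
    fun i hi => by simp only [dif_pos hi]⟩

/-- transfer of a finite number of formulas to a common stage -/
theorem transfer (hch : ∀ s ∈ 𝒟, ∀ t ∈ 𝒟, Le s t ∨ Le t s) (hne : 𝒟.Nonempty)
    (v : ℕ → dom 𝒟) (n : ℕ) : ∃ s ∈ 𝒟, ∃ v' : ℕ → s.S, (∀ i < n, (v' i).1 = (v i).1) ∧
      ∀ ψ : KF, ψ.bd ≤ n → (UT 𝒟 ψ v ↔ s.W.T ψ v') := by
  obtain ⟨s, hs, v', h⟩ := exists_common hch hne v n
  exact ⟨s, hs, v', h, fun ψ hψ => ut_iff hch hs fun i hi => h i (by omega)⟩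

/-- the weak model on the union of a chain -/
def union (hch : ∀ s ∈ 𝒟, ∀ t ∈ 𝒟, Le s t ∨ Le t s) (hne : 𝒟.Nonempty) : WM (dom 𝒟) where
  T := UT 𝒟
  eq x y v := by
    obtain ⟨s, hs, v', h, hT⟩ := transfer hch hne v (max x y + 1)
    rw [hT _ (by simp [KF.bd]), s.W.eq, Subtype.ext_iff, Subtype.ext_iff, h x (by omega),
      h y (by omega)]
  neg φ v := by
    obtain ⟨s, hs, v', h, hT⟩ := transfer hch hne v φ.bd
    rw [hT _ (by simp [KF.bd]), hT _ le_rfl, s.W.neg]
  and φ ψ v := by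
    obtain ⟨s, hs, v', h, hT⟩ := transfer hch hne v (max φ.bd ψ.bd)
    rw [hT _ (by simp [KF.bd]), hT _ (le_max_left _ _), hT _ (le_max_right _ _), s.W.and]
  all φ v := by
    obtain ⟨s, hs, v', h, hT⟩ := transfer hch hne v φ.bd
    rw [hT _ (by simp [KF.bd]), s.W.all]
    constructor
    · intro H a
      obtain ⟨t, ht, ha⟩ := a.2
      rcases hch s hs t ht with hl | hl
      · have h1 := (hl.iff (.all φ) v').1 ((s.W.all _ _).2 H)
        rw [t.W.all] at h1
        refine (ut_iff hch ht (v' := push ⟨a.1, ha⟩ (inclusion hl.sub ∘ v')) ?_).2 (h1 _)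
        intro i hi
        cases i with
        | zero => rfl
        | succ i => exact h i (by omega)
      · refine (ut_iff hch hs (v' := push ⟨a.1, hl.sub ha⟩ v') ?_).2 (H _)
        intro i hi
        cases i with
        | zero => rfl
        | succ i => exact h i (by omega)
    · intro H a
      have h1 := H ⟨a.1, s, hs, a.2⟩
      refine (ut_iff hch hs (v' := push a v') ?_).1 h1
      intro i hi
      cases i with
      | zero => rfl
      | succ i => exact h i (by omega)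
  ren φ f v := by
    obtain ⟨s, hs, v', h, hT⟩ := transfer hch hne v
      (max (φ.ren f).bd ((Finset.range φ.bd).sup fun i => f i + 1))
    rw [hT _ (le_max_left _ _), s.W.ren]
    symm
    refine ut_iff hch hs fun i hi => h (f i) ?_
    have h1 : f i + 1 ≤ (Finset.range φ.bd).sup fun i => f i + 1 :=
      Finset.le_sup (f := fun i => f i + 1) (Finset.mem_range.2 hi)
    have h2 := le_max_right (φ.ren f).bd ((Finset.range φ.bd).sup fun i => f i + 1)
    omega
  q1 x v := by
    obtain ⟨s, hs, v', h, hT⟩ := transfer hch hne v (KF.q (.eq 0 (x+1))).bd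
    rw [hT _ le_rfl]
    exact s.W.q1 _ _
  q2 φ ψ v := by
    obtain ⟨s, hs, v', h, hT⟩ := transfer hch hne v (max φ.bd ψ.bd)
    rw [hT _ (by simp only [KF.bd]; omega), hT _ (by simp only [KF.bd]; omega),
      hT _ (by simp only [KF.bd]; omega)]
    exact s.W.q2 _ _ _
  q3 φ ψ v := by
    obtain ⟨s, hs, v', h, hT⟩ := transfer hch hne v (max φ.bd ψ.bd)
    rw [hT _ (by simp only [KF.bd]; omega), hT _ (by simp only [KF.bd]; omega),
      hT _ (by simp only [KF.bd]; omega)]
    exact s.W.q3 _ _ _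
  q4 φ v := by
    obtain ⟨s, hs, v', h, hT⟩ := transfer hch hne v (max φ.bd (φ.ren KF.swp).bd)
    rw [hT _ (by simp only [KF.bd]; omega), hT _ (by simp only [KF.bd]; omega),
      hT _ (by simp only [KF.bd]; omega)]
    exact s.W.q4 _ _
  le φ v := by
    obtain ⟨s, hs, v', h, hT⟩ := transfer hch hne v (max (max φ.bd (φ.ren KF.ins).bd) 2)
    rw [hT _ (by simp only [KF.bd]; omega), hT _ (by simp [KF.bd]; omega)]
    exact s.W.le _ _
  univ v := by
    obtain ⟨s, hs, v', h, hT⟩ := transfer hch hne v 2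
    rw [hT _ (by simp [KF.bd])]
    exact s.W.univ _
  tri x y v := by
    obtain ⟨s, hs, v', h, hT⟩ := transfer hch hne v (max x y + 1)
    rw [hT (.rel 0 [x, y]) (by simp only [KF.bd, List.foldr]; omega),
      hT (.rel 0 [y, x]) (by simp only [KF.bd, List.foldr]; omega),
      Subtype.ext_iff, ← h x (by omega), ← h y (by omega), ← Subtype.ext_iff]
    exact s.W.tri _ _ _

theorem dom_sub {s : Stage Ω} (hs : s ∈ 𝒟) : s.S ⊆ dom 𝒟 := fun _ hx => ⟨s, hs, hx⟩

theorem union_iff (hch : ∀ s ∈ 𝒟, ∀ t ∈ 𝒟, Le s t ∨ Le t s) (hne : 𝒟.Nonempty) {s : Stage Ω}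
    (hs : s ∈ 𝒟) (φ : KF) (v : ℕ → s.S) :
    s.W.T φ v ↔ (union hch hne).T φ (inclusion (dom_sub hs) ∘ v) :=
  (ut_iff hch hs fun _ _ => rfl).symm

theorem union_small (hch : ∀ s ∈ 𝒟, ∀ t ∈ 𝒟, Le s t ∨ Le t s) (hne : 𝒟.Nonempty) {s : Stage Ω}
    (hs : s ∈ 𝒟) (φ : KF) (v : ℕ → s.S) (h : ¬ s.W.T (.q φ) v) (a : dom 𝒟)
    (ha : (union hch hne).T φ (push a (inclusion (dom_sub hs) ∘ v))) : a.1 ∈ s.S := by
  obtain ⟨t, ht, hat⟩ := a.2
  rcases hch s hs t ht with hl | hl
  · refine hl.small φ v h ⟨a.1, hat⟩ ?_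
    refine (ut_iff hch ht (v' := push ⟨a.1, hat⟩ (inclusion hl.sub ∘ v)) ?_).1 ha
    intro i _
    cases i <;> rfl
  · exact hl.sub hat

/-- countable unions are stages -/
def unionStage (hch : ∀ s ∈ 𝒟, ∀ t ∈ 𝒟, Le s t ∨ Le t s) (hne : 𝒟.Nonempty)
    (hc : 𝒟.Countable) : Stage Ω where
  S := dom 𝒟
  cnt := by
    have : dom 𝒟 = ⋃ s ∈ 𝒟, s.S := by
      ext x; simp [dom]
    rw [this]
    exact hc.biUnion fun s _ => s.cnt
  ne := by
    obtain ⟨s, hs⟩ := hne
    exact s.ne.mono (dom_sub hs)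
  W := union hch hne

theorem le_union (hch : ∀ s ∈ 𝒟, ∀ t ∈ 𝒟, Le s t ∨ Le t s) (hne : 𝒟.Nonempty)
    (hc : 𝒟.Countable) {s : Stage Ω} (hs : s ∈ 𝒟) : Le s (unionStage hch hne hc) :=
  ⟨dom_sub hs, union_iff hch hne hs, fun φ v h a ha => union_small hch hne hs φ v h a ha⟩

end Union

/-- **Full step**: all big sets grow. -/
theorem exists_lt (hΩ : Uncountable Ω) (s : Stage Ω) : ∃ t, Lt s t := by
  classical
  have hc : Countable s.S := s.cnt.to_subtype
  have hne : Nonempty s.S := s.ne.to_subtype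
  have : Nonempty (KF × List s.S) := ⟨(.eq 0 0, [])⟩
  obtain ⟨e, he⟩ := exists_surjective_nat (KF × List s.S)
  -- one step for a stage above `s`
  have h1 : ∀ t : {t : Stage Ω // Le s t}, ∀ n : ℕ, ∃ r : {t : Stage Ω // Le s t}, Le t.1 r.1 ∧
      (s.W.T (.q (e n).1) (WM.lst (e n).2) →
        ∃ a : r.1.S, r.1.W.T (e n).1 (push a (inclusion r.2.sub ∘ WM.lst (e n).2)) ∧
          a.1 ∉ s.S) := by
    intro t n
    by_cases h : s.W.T (.q (e n).1) (WM.lst (e n).2)
    · obtain ⟨r, hr, a, ha, ha'⟩ := exists_step hΩ t.1 (e n).1 (inclusion t.2.sub ∘ WM.lst (e n).2)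
        ((t.2.iff _ _).1 h)
      exact ⟨⟨r, t.2.trans hr⟩, hr, fun _ => ⟨a, ha, fun h2 => ha' (t.2.sub h2)⟩⟩
    · exact ⟨t, Le.refl _, fun h' => absurd h' h⟩
  choose nx hnx1 hnx2 using h1
  let q : ℕ → {t : Stage Ω // Le s t} := fun n => Nat.rec ⟨s, Le.refl s⟩ (fun n t => nx t n) n
  have hq : ∀ n, q (n+1) = nx (q n) n := fun n => rfl
  have hstep : ∀ n, Le (q n).1 (q (n+1)).1 := fun n => by rw [hq]; exact hnx1 _ _
  have hmono : ∀ m n, m ≤ n → Le (q m).1 (q n).1 := by
    intro m n hmn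
    induction n, hmn using Nat.le_induction with
    | base => exact Le.refl _
    | succ n _ ih => exact ih.trans (hstep n)
  let 𝒟 : Set (Stage Ω) := Set.range fun n => (q n).1
  have hch : ∀ s ∈ 𝒟, ∀ t ∈ 𝒟, Le s t ∨ Le t s := by
    rintro _ ⟨m, rfl⟩ _ ⟨n, rfl⟩
    rcases le_total m n with h | h
    · exact Or.inl (hmono m n h)
    · exact Or.inr (hmono n m h)
  have hn : 𝒟.Nonempty := ⟨_, 0, rfl⟩
  have hcn : 𝒟.Countable := Set.countable_range _
  have hs : s ∈ 𝒟 := ⟨0, rfl⟩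
  refine ⟨unionStage hch hn hcn, le_union hch hn hcn hs, fun φ v hv => ?_⟩
  obtain ⟨l, hl⟩ := WM.exists_lst v φ.bd
  have hv' : s.W.T (.q φ) (WM.lst l) := by
    refine (s.W.congr_bd fun i hi => ?_).1 hv
    exact (hl i (lt_of_lt_of_le hi (Nat.sub_le _ _))).symm
  obtain ⟨n, hn'⟩ := he (φ, l)
  have h2 := hnx2 (q n) n
  rw [hn'] at h2
  obtain ⟨a, ha, ha'⟩ := h2 hv'
  have hr : (q (n+1)).1 ∈ 𝒟 := ⟨n+1, rfl⟩
  refine ⟨⟨a.1, dom_sub hr a.2⟩, ?_, ha'⟩
  refine (ut_iff hch hr (v' := push a (inclusion (nx (q n) n).2.sub ∘ WM.lst l)) ?_).2 ha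
  intro i hi
  cases i with
  | zero => rfl
  | succ i => exact congrArg Subtype.val (hl i (by omega))

/-- **Keisler's theorem** -/
theorem exists_big (hΩ : Uncountable Ω) (s0 : Stage Ω) : ∃ (S : Set Ω) (W : WM S)
    (hsub : s0.S ⊆ S), (∀ φ v, s0.W.T φ v ↔ W.T φ (inclusion hsub ∘ v)) ∧
      ∀ φ v, W.T (.q φ) v ↔ ¬ {a | W.T φ (push a v)}.Countable := by
  classical
  let r : Stage Ω → Stage Ω → Prop := fun s t => s = t ∨ Lt s t
  obtain ⟨𝒞, h𝒞, h0⟩ : ∃ 𝒞, IsMaxChain r 𝒞 ∧ {s0} ⊆ 𝒞 := by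
    obtain ⟨𝒞, h1, h2⟩ := (IsChain.exists_maxChain (r := r) (c := {s0}) (by
      intro a ha b hb hab
      rw [Set.mem_singleton_iff] at ha hb
      exact absurd (ha.trans hb.symm) hab))
    exact ⟨𝒞, h1, h2⟩
  have hs0 : s0 ∈ 𝒞 := h0 rfl
  have rle : ∀ {s t}, r s t → Le s t := by
    rintro s t (rfl | h)
    · exact Le.refl _
    · exact h.toLe
  have hch : ∀ s ∈ 𝒞, ∀ t ∈ 𝒞, Le s t ∨ Le t s := by
    intro s hs t ht
    by_cases hst : s = t
    · exact Or.inl (hst ▸ Le.refl _)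
    · rcases h𝒞.1 hs ht hst with h | h
      · exact Or.inl (rle h)
      · exact Or.inr (rle h)
  have hne : 𝒞.Nonempty := ⟨s0, hs0⟩
  -- countable subsets of `𝒞` have strict upper bounds in `𝒞`
  have hub : ∀ E : Set (Stage Ω), E ⊆ 𝒞 → E.Countable → ∃ t ∈ 𝒞, ∀ s ∈ E, Lt s t := by
    intro E hE hEc
    by_contra hcon
    push Not at hcon
    -- then `E` is cofinal
    let E' : Set (Stage Ω) := insert s0 E
    have hE' : E' ⊆ 𝒞 := Set.insert_subset hs0 hE
    have hchE : ∀ s ∈ E', ∀ t ∈ E', Le s t ∨ Le t s := fun s hs t ht => hch s (hE' hs) t (hE' ht)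
    have hEn : E'.Nonempty := ⟨s0, Set.mem_insert _ _⟩
    have hEc' : E'.Countable := hEc.insert _
    obtain ⟨t, ht⟩ := exists_lt hΩ (unionStage hchE hEn hEc')
    have hall : ∀ c ∈ 𝒞, Lt c t := by
      intro c hc
      obtain ⟨s, hs, hcs⟩ := hcon c hc
      have h1 : Le c s := by
        by_cases h2 : c = s
        · exact h2 ▸ Le.refl _
        · rcases h𝒞.1 hc (hE hs) h2 with h | h
          · exact rle h
          · rcases h with h | h
            · exact h ▸ Le.refl _
            · exact absurd h hcs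
      exact (h1.trans (le_union hchE hEn hEc' (Set.mem_insert_of_mem _ hs))).trans_lt ht
    have hins : IsChain r (insert t 𝒞) := by
      refine h𝒞.1.insert fun b hb _ => Or.inr (Or.inr (hall b hb))
    have h3 := h𝒞.2 hins (Set.subset_insert _ _)
    have h4 : t ∈ 𝒞 := by rw [h3]; exact Set.mem_insert _ _
    exact Lt.irrefl t (hall t h4)
  refine ⟨dom 𝒞, union hch hne, dom_sub hs0, union_iff hch hne hs0, fun φ v => ?_⟩
  obtain ⟨s, hs, v', hv, hT⟩ := transfer hch hne v φ.bd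
  have hT' : ∀ {t : Stage Ω} (ht : t ∈ 𝒞) (hl : Le s t) (a : t.S),
      (union hch hne).T φ (push ⟨a.1, dom_sub ht a.2⟩ v) ↔
        t.W.T φ (push a (inclusion hl.sub ∘ v')) := by
    intro t ht hl a
    refine ut_iff hch ht fun i hi => ?_
    cases i with
    | zero => rfl
    | succ i => exact hv i (by omega)
  have hq : (union hch hne).T (.q φ) v ↔ s.W.T (.q φ) v' := hT _ (by simp [KF.bd])
  rw [hq]
  constructor
  · intro hbig hc
    -- a stage containing all elements
    have h1 : ∀ a : {a | (union hch hne).T φ (push a v)}, ∃ t ∈ 𝒞, a.1.1 ∈ t.S := fun a => a.1.2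
    choose f hf1 hf2 using h1
    have : Countable {a | (union hch hne).T φ (push a v)} := hc.to_subtype
    obtain ⟨t, ht, ht'⟩ := hub (insert s (Set.range f)) (Set.insert_subset hs (by
      rintro _ ⟨a, rfl⟩; exact hf1 a)) ((Set.countable_range f).insert _)
    have hst : Lt s t := ht' s (Set.mem_insert _ _)
    obtain ⟨t', htt, htt'⟩ := hub {t} (by rintro _ rfl; exact ht) (Set.countable_singleton _)
    have htt2 : Lt t t' := htt' t rfl
    obtain ⟨a, ha, ha'⟩ := htt2.grow φ (inclusion hst.sub ∘ v') ((hst.iff _ _).1 hbig)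
    have h2 : (union hch hne).T φ (push ⟨a.1, dom_sub htt a.2⟩ v) :=
      (hT' htt (hst.toLe.trans htt2.toLe) a).2 ha
    have h3 := hf2 ⟨_, h2⟩
    exact ha' ((ht' _ (Set.mem_insert_of_mem _ ⟨_, rfl⟩)).sub h3)
  · intro hunc
    by_contra hsm
    apply hunc
    have h1 : {a | (union hch hne).T φ (push a v)} ⊆
        Set.range (inclusion (dom_sub hs)) := by
      intro a ha
      have h2 : a.1 ∈ s.S := by
        refine union_small hch hne hs φ v' hsm a ?_
        refine ((union hch hne).congr_bd fun i hi => ?_).1 ha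
        cases i with
        | zero => rfl
        | succ i => exact Subtype.ext (hv i (by omega)).symm
      exact ⟨⟨a.1, h2⟩, rfl⟩
    have : Countable s.S := s.cnt.to_subtype
    exact (Set.countable_range _).mono h1

end Stage

/-- the relations of a weak model -/
def WM.R {D : Type w} [Nonempty D] (W : WM D) (i : ℕ) (l : List D) : Prop :=
  W.T (.rel i (List.range l.length)) (WM.lst l)

theorem WM.r_iff {D : Type w} [Nonempty D] (W : WM D) (i : ℕ) (xs : List ℕ) (v : ℕ → D) :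
    W.R i (xs.map v) ↔ W.T (.rel i xs) v := by
  unfold WM.R
  have h := W.ren (.rel i (List.range xs.length)) (fun k => xs.getD k 0) v
  have h1 : (KF.rel i (List.range xs.length)).ren (fun k => xs.getD k 0) = .rel i xs := by
    show KF.rel i _ = _
    congr 1
    apply List.ext_getElem (by simp)
    intro k h1 h2
    rw [List.getElem_map, List.getElem_range]
    exact List.getD_eq_getElem _ _ h2
  rw [h1] at h
  rw [h, List.length_map]
  refine W.congr_bd fun k hk => ?_
  have hk' : k < xs.length := by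
    have : ∀ n, (List.range n).foldr (fun x n => max (x+1) n) 0 ≤ n := by
      intro n
      induction n with
      | zero => simp
      | succ n ih =>
        rw [List.range_succ, List.foldr_append]
        have : ∀ (l : List ℕ) (m : ℕ), l.foldr (fun x n => max (x+1) n) m ≤
            max (l.foldr (fun x n => max (x+1) n) 0) m := by
          intro l m
          induction l with
          | nil => simp
          | cons a l ih' => simp only [List.foldr_cons]; omega
        have h5 := this (List.range n) (List.foldr (fun x n => max (x+1) n) 0 [n])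
        simp only [List.foldr_cons, List.foldr_nil] at h5 ⊢
        omega
    exact lt_of_lt_of_le hk (this _)
  unfold WM.lst
  rw [List.getD_eq_getElem _ _ (by simpa using hk'), List.getElem_map]
  show _ = v (xs.getD k 0)
  rw [List.getD_eq_getElem _ _ hk']

/-- **Keisler's theorem**: a countable weak model has an elementary extension which is a standard
model, with `q` interpreted as there are uncountably many. -/
theorem keisler {D : Type w} [Countable D] [Nonempty D] (W : WM D) :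
    ∃ (D' : Type) (R : ℕ → List D' → Prop) (j : D → D'), Injective j ∧
      ∀ φ v, W.T φ v ↔ φ.Sat R (j ∘ v) := by
  classical
  let Ω : Type := Set ℕ
  have hΩ : Uncountable Ω := by
    rw [← not_countable_iff]
    intro h
    obtain ⟨g, hg⟩ := exists_injective_nat (Set ℕ)
    exact cantor_injective g hg
  have hc : #D ≤ ℵ₀ := mk_le_aleph0
  obtain ⟨f, hf⟩ : ∃ f : D → Ω, Injective f := by
    obtain ⟨g, hg⟩ := exists_injective_nat D
    exact ⟨fun d => ({g d} : Set ℕ), fun a b hab => hg (Set.singleton_injective hab)⟩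
  let s0 : Stage Ω := ⟨Set.range f, Set.countable_range f, Set.range_nonempty f,
    W.map (Equiv.ofInjective f hf)⟩
  obtain ⟨S, W', hsub, h1, h2⟩ := Stage.exists_big hΩ s0
  have hS : Nonempty S := (s0.ne.mono hsub).to_subtype
  refine ⟨S, W'.R, fun d => ⟨f d, hsub ⟨d, rfl⟩⟩, fun a b hab => hf (congrArg Subtype.val hab),
    fun φ v => ?_⟩
  have h3 : ∀ φ v, W'.T φ v ↔ φ.Sat W'.R v := by
    intro φ
    induction φ with
    | rel i xs => intro v; exact (W'.r_iff i xs v).symm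
    | eq x y => intro v; exact W'.eq x y v
    | neg φ ih => intro v; rw [W'.neg, ih]; exact Iff.rfl
    | and φ ψ ih1 ih2 => intro v; rw [W'.and, ih1, ih2]; exact Iff.rfl
    | all φ ih =>
      intro v
      rw [W'.all]
      exact forall_congr' fun a => ih _
    | q φ ih =>
      intro v
      rw [h2]
      have : {a | W'.T φ (push a v)} = {a | φ.Sat W'.R (push a v)} := by
        ext a; exact ih _
      rw [this]
      exact Iff.rfl
  rw [← h3]
  have h4 := h1 φ (fun n => Equiv.ofInjective f hf (v n))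
  have h5 : s0.W.T φ (fun n => Equiv.ofInjective f hf (v n)) ↔ W.T φ v := by
    show W.T φ ((Equiv.ofInjective f hf).symm ∘ fun n => Equiv.ofInjective f hf (v n)) ↔ _
    have : (Equiv.ofInjective f hf).symm ∘ (fun n => Equiv.ofInjective f hf (v n)) = v := by
      funext n; simp
    rw [this]
  rw [← h5, h4]
  exact Iff.rfl

end Pool.Agent.DQ1
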