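import Pool.Agent.DQ1.KBase

/-! # Abstract condensation -/

namespace Pool.Agent.DQ1

open Cardinal Ordinal

universe u v w

/-- `ρ` is an isomorphism of `(O, lt)` with an initial segment of the ordinals -/
structure Rk {O : Type*} (lt : O → O → Prop) (ρ : O → Ordinal.{u}) : Prop where
  lt_iff : ∀ a b, lt a b ↔ ρ a < ρ b
  init : ∀ a, ∀ α < ρ a, ∃ b, ρ b = α

namespace Collapse

variable {U : Type v} [Small.{u} U] {e : U → U → Prop} (hwf : WellFounded e)

/-- the Mostowski collapse -/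
noncomputable def col : U → ZFSet.{u} :=
  hwf.fix fun x ih => ZFSet.range fun y : {y : Shrink.{u} U // e ((equivShrink U).symm y) x} =>
    ih ((equivShrink U).symm y.1) y.2

theorem mem_col {x : U} {z : ZFSet.{u}} : z ∈ col hwf x ↔ ∃ y, e y x ∧ col hwf y = z := by
  conv_lhs => rw [col, WellFounded.fix_eq]
  rw [ZFSet.mem_range]
  constructor
  · rintro ⟨y, hy⟩
    exact ⟨_, y.2, hy⟩
  · rintro ⟨y, hy, hz⟩
    refine ⟨⟨equivShrink U y, by rw [Equiv.symm_apply_apply]; exact hy⟩, ?_⟩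
    show col hwf ((equivShrink U).symm (equivShrink U y)) = z
    rw [Equiv.symm_apply_apply]; exact hz

variable (hext : ∀ x y, (∀ z, e z x ↔ e z y) → x = y)
include hext

theorem col_inj : Function.Injective (col.{u, v} hwf) := by
  intro x
  refine hwf.induction (C := fun x => ∀ y, col.{u, v} hwf x = col hwf y → x = y) x ?_ 
  intro x ih y h
  apply hext
  intro z
  constructor
  · intro hz
    have h1 : col.{u, v} hwf z ∈ col hwf y := by rw [← h, mem_col]; exact ⟨z, hz, rfl⟩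
    obtain ⟨w, hw, hwz⟩ := (mem_col hwf).1 h1
    rw [ih z hz _ hwz.symm]; exact hw
  · intro hz
    have h1 : col.{u, v} hwf z ∈ col hwf x := by rw [h, mem_col]; exact ⟨z, hz, rfl⟩
    obtain ⟨w, hw, hwz⟩ := (mem_col hwf).1 h1
    rw [← ih w hw z hwz]; exact hw

theorem mem_col_iff {x y : U} : col.{u, v} hwf x ∈ col hwf y ↔ e x y := by
  rw [mem_col]
  constructor
  · rintro ⟨z, hz, h⟩
    rw [← col_inj hwf hext h]; exact hz
  · intro h; exact ⟨x, h, rfl⟩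

theorem col_up {c a b : U} : IsUp e c a b ↔ col.{u, v} hwf c = {col hwf a, col hwf b} := by
  constructor
  · intro h
    ext z
    rw [mem_col, ZFSet.mem_pair]
    constructor
    · rintro ⟨y, hy, rfl⟩
      rcases (h y).1 hy with rfl | rfl
      · exact Or.inl rfl
      · exact Or.inr rfl
    · rintro (rfl | rfl)
      · exact ⟨a, (h a).2 (Or.inl rfl), rfl⟩
      · exact ⟨b, (h b).2 (Or.inr rfl), rfl⟩
  · intro h w
    rw [← mem_col_iff hwf hext, h, ZFSet.mem_pair]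
    exact or_congr (col_inj hwf hext).eq_iff (col_inj hwf hext).eq_iff

variable (h3 : ∀ i < 10, ∀ a b, ∃ c, IsG e i c a b)
include h3

theorem exists_up (a b : U) : ∃ c, col.{u, v} hwf c = {col hwf a, col hwf b} := by
  obtain ⟨c, hc⟩ := h3 0 (by norm_num) a b
  exact ⟨c, (col_up hwf hext).1 hc⟩

theorem exists_pr (a b : U) : ∃ c, col.{u, v} hwf c = ZFSet.pair (col hwf a) (col hwf b) := by
  obtain ⟨s, hs⟩ := exists_up hwf hext h3 a a
  obtain ⟨t, ht⟩ := exists_up hwf hext h3 a b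
  obtain ⟨c, hc⟩ := exists_up hwf hext h3 s t
  refine ⟨c, ?_⟩
  rw [hc, hs, ht, ZFSet.pair, ZFSet.pair_eq_singleton]

theorem col_op {p a b : U} : IsOp e p a b ↔ col.{u, v} hwf p = ZFSet.pair (col hwf a) (col hwf b) := by
  constructor
  · rintro ⟨s, t, hs, ht, hp⟩
    rw [(col_up hwf hext).1 hp, (col_up hwf hext).1 hs, (col_up hwf hext).1 ht, ZFSet.pair,
      ZFSet.pair_eq_singleton]
  · intro h
    obtain ⟨s, hs⟩ := exists_up hwf hext h3 a a
    obtain ⟨t, ht⟩ := exists_up hwf hext h3 a b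
    refine ⟨s, t, (col_up hwf hext).2 hs, (col_up hwf hext).2 ht, (col_up hwf hext).2 ?_⟩
    rw [h, hs, ht, ZFSet.pair, ZFSet.pair_eq_singleton]

theorem col_tr {p a b c : U} : IsTr e p a b c ↔
    col.{u, v} hwf p = ZFSet.pair (col hwf a) (ZFSet.pair (col hwf b) (col hwf c)) := by
  unfold IsTr
  simp only [col_op hwf hext h3]
  constructor
  · rintro ⟨q, hq, hp⟩
    rw [hp, hq]
  · intro h
    obtain ⟨q, hq⟩ := exists_pr hwf hext h3 b c
    exact ⟨q, hq, by rw [h, hq]⟩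

/-- the components of a pair in the range of the collapse are in the range -/
theorem pr_parts {p : U} {x y : ZFSet.{u}} (h : col hwf p = ZFSet.pair x y) :
    (∃ a, col hwf a = x) ∧ ∃ b, col hwf b = y := by
  have h1 : ({x, y} : ZFSet.{u}) ∈ col hwf p := by
    rw [h, ZFSet.pair, ZFSet.mem_pair]; exact Or.inr rfl
  obtain ⟨q, _, hq⟩ := (mem_col hwf).1 h1
  have h2 : x ∈ col hwf q := by rw [hq]; exact ZFSet.mem_pair.2 (Or.inl rfl)
  have h4 : y ∈ col hwf q := by rw [hq]; exact ZFSet.mem_pair.2 (Or.inr rfl)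
  obtain ⟨a, _, ha⟩ := (mem_col hwf).1 h2
  obtain ⟨b, _, hb⟩ := (mem_col hwf).1 h4
  exact ⟨⟨a, ha⟩, ⟨b, hb⟩⟩

theorem col_th {i : ℕ} {w a b : U} :
    Th e i w a b ↔ Th (· ∈ ·) i (col.{u, v} hwf w) (col hwf a) (col hwf b) := by
  have hm : ∀ {x y : U}, e x y ↔ col.{u, v} hwf x ∈ col hwf y := fun {x y} =>
    (mem_col_iff hwf hext).symm
  have hel : ∀ {x : U} {z : ZFSet.{u}}, z ∈ col hwf x → ∃ y, col hwf y = z := fun h => by
    obtain ⟨y, _, hy⟩ := (mem_col hwf).1 h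
    exact ⟨y, hy⟩
  have hinj := col_inj.{u, v} hwf hext
  match i with
  | 0 => exact or_congr hinj.eq_iff.symm hinj.eq_iff.symm
  | 1 =>
    simp only [Th, col_op hwf hext h3, isOp_iff, hm]
    constructor
    · rintro ⟨x, y, hx, hy, h⟩; exact ⟨_, _, hx, hy, h⟩
    · rintro ⟨x, y, hx, hy, h⟩
      obtain ⟨x, rfl⟩ := hel hx
      obtain ⟨y, rfl⟩ := hel hy
      exact ⟨x, y, hx, hy, h⟩
  | 2 => exact and_congr hm (not_congr hm)
  | 3 =>
    simp only [Th, col_op hwf hext h3, isOp_iff, hm]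
    constructor
    · rintro ⟨x, p, hp, h⟩; exact ⟨_, _, hp, h⟩
    · rintro ⟨x, p, hp, h⟩
      obtain ⟨p, rfl⟩ := hel hp
      obtain ⟨⟨x, rfl⟩, _⟩ := pr_parts hwf hext h3 h
      exact ⟨x, p, hp, h⟩
  | 4 =>
    simp only [Th, col_op hwf hext h3, isOp_iff, hm]
    constructor
    · rintro ⟨x, y, hx, hy, hxy, h⟩; exact ⟨_, _, hx, hy, hxy, h⟩
    · rintro ⟨x, y, hx, hy, hxy, h⟩
      obtain ⟨x, rfl⟩ := hel hx
      obtain ⟨y, rfl⟩ := hel hy
      exact ⟨x, y, hx, hy, hxy, h⟩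
  | 5 =>
    simp only [Th, col_op hwf hext h3, isOp_iff, hm]
    constructor
    · rintro ⟨x, y, hx, hy, hxy, h⟩; exact ⟨_, _, hx, hy, hxy, h⟩
    · rintro ⟨x, y, hx, hy, hxy, h⟩
      obtain ⟨x, rfl⟩ := hel hx
      obtain ⟨y, rfl⟩ := hel hy
      exact ⟨x, y, hx, hy, hxy, h⟩
  | 6 =>
    simp only [Th, col_op hwf hext h3, isOp_iff, hm]
    constructor
    · rintro ⟨x, hx, h⟩; exact ⟨_, hx, h⟩
    · rintro ⟨x, hx, h⟩
      obtain ⟨x, rfl⟩ := hel hx
      exact ⟨x, hx, h⟩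
  | 7 =>
    simp only [Th, col_op hwf hext h3, col_tr hwf hext h3, isOp_iff, isTr_iff, hm]
    constructor
    · rintro ⟨x, y, z, p, q, hp, h1, h2, h⟩; exact ⟨_, _, _, _, _, hp, h1, h2, h⟩
    · rintro ⟨x, y, z, p, q, hp, h1, h2, h⟩
      obtain ⟨p, rfl⟩ := hel hp
      obtain ⟨⟨q, rfl⟩, ⟨z, rfl⟩⟩ := pr_parts hwf hext h3 h1
      obtain ⟨⟨x, rfl⟩, ⟨y, rfl⟩⟩ := pr_parts hwf hext h3 h2
      exact ⟨x, y, z, p, q, hp, h1, h2, h⟩
  | 8 =>
    simp only [Th, col_op hwf hext h3, col_tr hwf hext h3, isOp_iff, isTr_iff, hm]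
    constructor
    · rintro ⟨x, y, z, p, hp, h1, h⟩; exact ⟨_, _, _, _, hp, h1, h⟩
    · rintro ⟨x, y, z, p, hp, h1, h⟩
      obtain ⟨p, rfl⟩ := hel hp
      obtain ⟨⟨y, rfl⟩, ⟨q, hq⟩⟩ := pr_parts hwf hext h3 h1
      obtain ⟨⟨x, rfl⟩, ⟨z, rfl⟩⟩ := pr_parts hwf hext h3 hq
      exact ⟨x, y, z, p, hp, h1, h⟩
  | 9 =>
    simp only [Th, col_op hwf hext h3, isOp_iff, hm]
    constructor
    · rintro ⟨p, hp, h⟩; exact ⟨_, hp, h⟩
    · rintro ⟨p, hp, h⟩
      obtain ⟨p, rfl⟩ := hel hp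
      exact ⟨p, hp, h⟩
  | n+10 => exact Iff.rfl

theorem col_G {i : ℕ} (hi : i < 10) {c a b : U} :
    IsG e i c a b ↔ col.{u, v} hwf c = G i (col hwf a) (col hwf b) := by
  obtain ⟨c', hc'⟩ := h3 i hi a b
  have hsub : ∀ {c : U}, IsG e i c a b → ∀ z, z ∈ col.{u, v} hwf c → z ∈ G i (col hwf a) (col hwf b) := by
    intro c hc z hz
    obtain ⟨y, hy, rfl⟩ := (mem_col hwf).1 hz
    exact mem_G.2 ((col_th hwf hext h3).1 ((hc y).1 hy))
  -- every member of the value is in the range of the collapse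
  have hrange : ∀ z, z ∈ G i (col.{u, v} hwf a) (col hwf b) → ∃ y, col hwf y = z := by
    intro z hz
    exact Th_closed (H := Set.range (col.{u, v} hwf)) (by
      rintro _ ⟨x, rfl⟩ y hy
      obtain ⟨y', _, rfl⟩ := (mem_col hwf).1 hy
      exact ⟨y', rfl⟩) (by
      rintro _ ⟨x, rfl⟩ _ ⟨y, rfl⟩
      exact exists_up hwf hext h3 x y) ⟨a, rfl⟩ ⟨b, rfl⟩ (mem_G.1 hz)
  have hval : ∀ {c : U}, IsG e i c a b → col.{u, v} hwf c = G i (col hwf a) (col hwf b) := by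
    intro c hc
    ext z
    refine ⟨hsub hc z, fun hz => ?_⟩
    obtain ⟨y, rfl⟩ := hrange z hz
    exact (mem_col_iff hwf hext).2 ((hc y).2 ((col_th hwf hext h3).2 (mem_G.1 hz)))
  refine ⟨hval, fun h => ?_⟩
  have : c = c' := col_inj.{u, v} hwf hext (by rw [h, hval hc'])
  rw [this]; exact hc'

end Collapse

open Collapse in
/-- **Abstract condensation.** -/
theorem collapse {U : Type v} [Small.{u} U] {e : U → U → Prop} (hwf : WellFounded e)
    (hext : ∀ x y, (∀ z, e z x ↔ e z y) → x = y) {O : Type w} {lt : O → O → Prop}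
    {ρ : O → Ordinal.{u}} (hρ : Rk lt ρ) (kk : O → U) (h1 : ∀ x, ∃ ξ, e x (kk ξ))
    (h2 : ∀ x ξ, e x (kk ξ) ↔ ∃ ζ, lt ζ ξ ∧ StepMem e x (kk ζ))
    (h3 : ∀ i < 10, ∀ a b, ∃ c, IsG e i c a b) :
    ∃ π : U → ZFSet.{u}, Function.Injective π ∧ (∀ x z, z ∈ π x ↔ ∃ y, e y x ∧ π y = z) ∧
      ∀ ξ, π (kk ξ) = K (ρ ξ) := by
  refine ⟨col hwf, col_inj hwf hext, fun x z => mem_col hwf, fun ξ => ?_⟩
  have hm : ∀ {x y : U}, e x y ↔ col.{u, v} hwf x ∈ col hwf y := fun {x y} =>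
    (mem_col_iff hwf hext).symm
  have hstep : ∀ x k : U, StepMem e x k ↔ StepMem (· ∈ ·) (col.{u, v} hwf x) (col hwf k) := by
    intro x k
    unfold StepMem
    refine or_congr hm (or_congr (col_inj hwf hext).eq_iff.symm
      (exists_congr fun i => and_congr_right fun hi => ?_))
    simp only [isG_iff]
    constructor
    · rintro ⟨a, b, ha, hb, h⟩
      exact ⟨col hwf a, col hwf b, ha.imp hm.1 (congrArg _), hb.imp hm.1 (congrArg _),
        (col_G hwf hext h3 hi).1 h⟩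
    · rintro ⟨a, b, ha, hb, h⟩
      obtain ⟨a, rfl⟩ : ∃ a', col hwf a' = a := by
        rcases ha with ha | ha
        · obtain ⟨a', _, h'⟩ := (mem_col hwf).1 ha
          exact ⟨a', h'⟩
        · exact ⟨k, ha.symm⟩
      obtain ⟨b, rfl⟩ : ∃ b', col hwf b' = b := by
        rcases hb with hb | hb
        · obtain ⟨b', _, h'⟩ := (mem_col hwf).1 hb
          exact ⟨b', h'⟩
        · exact ⟨k, hb.symm⟩
      exact ⟨a, b, ha.imp hm.2 fun h => col_inj hwf hext h, hb.imp hm.2 fun h => col_inj hwf hext h,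
        (col_G hwf hext h3 hi).2 h⟩
  -- induction on the rank
  have key : ∀ α : Ordinal.{u}, ∀ ξ, ρ ξ = α → col hwf (kk ξ) = K α := by
    intro α
    induction α using WellFoundedLT.induction with
    | ind α ih =>
    intro ξ hξ
    ext z
    rw [mem_col, mem_K]
    constructor
    · rintro ⟨y, hy, rfl⟩
      obtain ⟨ζ, hζ, hs⟩ := (h2 y ξ).1 hy
      have hlt : ρ ζ < α := by rw [← hξ]; exact (hρ.lt_iff _ _).1 hζ
      refine ⟨ρ ζ, hlt, mem_stp.2 ?_⟩
      rw [← ih _ hlt ζ rfl]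
      exact (hstep _ _).1 hs
    · rintro ⟨β, hβ, hz⟩
      obtain ⟨ζ, hζ⟩ := hρ.init ξ β (by rw [hξ]; exact hβ)
      have hlt : lt ζ ξ := (hρ.lt_iff _ _).2 (by rw [hζ, hξ]; exact hβ)
      rw [← ih β hβ ζ hζ] at hz
      -- the element is in the range of the collapse
      have hzr : ∃ y, col hwf y = z := by
        rcases mem_stp.1 hz with h | h | ⟨i, hi, a, b, ha, hb, hg⟩
        · obtain ⟨y, _, hy⟩ := (mem_col hwf).1 h
          exact ⟨y, hy⟩
        · exact ⟨kk ζ, h.symm⟩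
        · obtain ⟨a, rfl⟩ : ∃ a', col hwf a' = a := by
            rcases ha with ha | ha
            · obtain ⟨a', _, h'⟩ := (mem_col hwf).1 ha
              exact ⟨a', h'⟩
            · exact ⟨kk ζ, ha.symm⟩
          obtain ⟨b, rfl⟩ : ∃ b', col hwf b' = b := by
            rcases hb with hb | hb
            · obtain ⟨b', _, h'⟩ := (mem_col hwf).1 hb
              exact ⟨b', h'⟩
            · exact ⟨kk ζ, hb.symm⟩
          obtain ⟨c, hc⟩ := h3 i hi a b
          exact ⟨c, by rw [isG_iff.1 hg]; exact (col_G hwf hext h3 hi).1 hc⟩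
      obtain ⟨y, rfl⟩ := hzr
      exact ⟨y, (h2 y ξ).2 ⟨ζ, hlt, (hstep _ _).2 (mem_stp.1 hz)⟩, rfl⟩
  exact key _ ξ rfl

end Pool.Agent.DQ1
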