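import Pool.Agent.DQ1.KF

/-! # Definitions: the constructible hierarchy, the coding function, the forcing, the logics -/

namespace Pool.Agent.DQ1

open Cardinal Ordinal

universe u v w

/-! ## Gödel operations in a structure `(U, e)` -/

section

variable {U : Type*} (e : U → U → Prop)

/-- `c = {a, b}` -/
def IsUp (c a b : U) : Prop := ∀ w, e w c ↔ w = a ∨ w = b

/-- `p = (a, b)` (Kuratowski) -/
def IsOp (p a b : U) : Prop := ∃ s t, IsUp e s a a ∧ IsUp e t a b ∧ IsUp e p s t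

/-- `p = (a, (b, c))` -/
def IsTr (p a b c : U) : Prop := ∃ q, IsOp e q b c ∧ IsOp e p a q

/-- the membership condition of the `i`-th Gödel operation: `w ∈ G_i(a, b)` -/
def Th : ℕ → U → U → U → Prop
  | 0, w, a, b => w = a ∨ w = b
  | 1, w, a, b => ∃ x y, e x a ∧ e y b ∧ IsOp e w x y
  | 2, w, a, b => e w a ∧ ¬ e w b
  | 3, w, a, _ => ∃ x p, e p a ∧ IsOp e p x w
  | 4, w, a, _ => ∃ x y, e x a ∧ e y a ∧ e x y ∧ IsOp e w x y
  | 5, w, a, _ => ∃ x y, e x a ∧ e y a ∧ e y x ∧ IsOp e w x y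
  | 6, w, a, _ => ∃ x, e x a ∧ IsOp e w x x
  | 7, w, a, _ => ∃ x y z p q, e p a ∧ IsOp e p q z ∧ IsOp e q x y ∧ IsTr e w x y z
  | 8, w, a, _ => ∃ x y z p, e p a ∧ IsTr e p y x z ∧ IsTr e w x y z
  | 9, w, a, b => ∃ p, e p a ∧ IsOp e p w b
  | _, _, _, _ => False

/-- `c = G_i(a, b)` -/
def IsG (i : ℕ) (c a b : U) : Prop := ∀ w, e w c ↔ Th e i w a b

/-- `x` is in the set obtained from `k` in one step: `x ∈ k ∪ {k}` or `x = G_i(a, b)` with
`a, b ∈ k ∪ {k}` -/
def StepMem (x k : U) : Prop :=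
  e x k ∨ x = k ∨ ∃ i < 10, ∃ a b, (e a k ∨ a = k) ∧ (e b k ∨ b = k) ∧ IsG e i x a b

end

/-! ## The constructible hierarchy -/

/-- a bound for the Gödel operations -/
noncomputable def bnd (a b : ZFSet.{u}) : ZFSet.{u} :=
  let s := {a, b} ∪ (a ∪ b)
  let t := ZFSet.sUnion (ZFSet.sUnion s)
  let r := s ∪ t ∪ ZFSet.sUnion (ZFSet.sUnion t)
  r ∪ ZFSet.prod r r ∪ ZFSet.prod r (ZFSet.prod r r)

/-- the Gödel operation `G_i(a, b)` -/
noncomputable def G (i : ℕ) (a b : ZFSet.{u}) : ZFSet.{u} :=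
  ZFSet.sep (fun w => Th (· ∈ ·) i w a b) (bnd a b)

/-- one step of the constructible hierarchy -/
noncomputable def stp (k : ZFSet.{u}) : ZFSet.{u} :=
  let s := insert k k
  s ∪ ZFSet.range fun t : Shrink.{u} (Fin 10 × {x // x ∈ s} × {x // x ∈ s}) =>
    let q := (equivShrink _).symm t
    G q.1 q.2.1.1 q.2.2.1

/-- the constructible hierarchy -/
noncomputable def K (α : Ordinal.{u}) : ZFSet.{u} :=
  ZFSet.sUnion (ZFSet.range fun β : Set.Iio α => stp (K β.1))
termination_by α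
decreasing_by exact β.2

/-- constructible sets -/
def IsL (x : ZFSet.{u}) : Prop := ∃ α, x ∈ K α

/-! ## The coding function -/

/-- the ordinals in the set `c` -/
def ords (c : ZFSet.{u}) : Set Ordinal.{u} := {α | α.toZFSet ∈ c}

/-- the first uncountable ordinal -/
noncomputable def om : Ordinal.{u} := (ℵ₁ : Cardinal.{u}).ord

/-- `γ` is a limit ordinal -/
def Lim (γ : Ordinal.{u}) : Prop := 0 < γ ∧ ∀ α < γ, Order.succ α < γ

/-- `S` is closed and unbounded in `δ` -/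
def ClubIn (S : Set Ordinal.{u}) (δ : Ordinal.{u}) : Prop :=
  (∀ α < δ, ∃ β ∈ S, α < β ∧ β < δ) ∧
    ∀ l < δ, 0 < l → (∀ α < l, ∃ β ∈ S, α < β ∧ β < l) → l ∈ S

/-- `η < δ` and some set in `K ζ` is closed and unbounded in `δ` and omits the value `η` of `f` -/
def Gd (f : Ordinal.{u} → Ordinal.{u}) (δ ζ η : Ordinal.{u}) : Prop :=
  η < δ ∧ ∃ c ∈ K ζ, ClubIn (ords c) δ ∧ ∀ ξ ∈ ords c, ξ < δ → f ξ ≠ η

open Classical in
/-- the recursive definition of the coding function -/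
noncomputable def nxt (f : Ordinal.{u} → Ordinal.{u}) (δ : Ordinal.{u}) : Ordinal.{u} :=
  if ∃ ζ < om, ∃ η, Gd f δ ζ η then sInf {η | Gd f δ (sInf {ζ | ∃ η, Gd f δ ζ η}) η} else 0

open Classical in
/-- the coding function: `fn δ` is the least `η` such that some club of `δ` in `K ζ` omits the value
`η`, with `ζ` least possible; `fn δ = 0` if there is no such `ζ < ω₁`. -/
noncomputable def fn (δ : Ordinal.{u}) : Ordinal.{u} :=
  nxt (fun ξ => if _h : ξ < δ then fn ξ else 0) δ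
termination_by δ

/-! ## The forcing -/

/-- conditions: constructible sets of countable ordinals, with a greatest element, closed, and such
that for `δ` in the set and a limit `γ < δ`: if `fn δ = γ` then `γ` is not in the set, and if
`fn δ = γ + 1` then `γ` is in the set. -/
structure Cond (c : ZFSet.{u}) : Prop where
  constr : IsL c
  ord : ∀ x ∈ c, ∃ α < om, x = α.toZFSet
  max : ∃ m ∈ ords c, ∀ α ∈ ords c, α ≤ m
  closed : ∀ l, 0 < l → (∃ m ∈ ords c, l < m) → (∀ α < l, ∃ β ∈ ords c, α < β ∧ β < l) → l ∈ ords c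
  code : ∀ δ ∈ ords c, ∀ γ < δ, Lim γ →
    (fn δ = γ → γ ∉ ords c) ∧ (fn δ = Order.succ γ → γ ∈ ords c)

/-- `c` is an end extension of `d` -/
def EndExt (c d : ZFSet.{u}) : Prop :=
  d ⊆ c ∧ ∀ α ∈ ords c, α ∉ ords d → ∀ β ∈ ords d, β < α

open Classical in
/-- the set `C ∩ (β + 1)` -/
noncomputable def seg (C : Set Ordinal.{u}) (β : Ordinal.{u}) : ZFSet.{u} :=
  ZFSet.sep (fun x => ∃ α ∈ C, x = α.toZFSet) (Order.succ β).toZFSet

/-- `C` is generic over the constructible universe for the forcing, and `V = L[C]`: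
all proper initial segments of `C` are conditions, they meet every constructible dense set, and every
subset of a constructible set has a constructible name. -/
structure Generic (C : Set Ordinal.{u}) : Prop where
  lt : ∀ β ∈ C, β < om
  cond : ∀ β ∈ C, Cond (seg C β)
  meets : ∀ D : ZFSet.{u}, IsL D → (∀ c, Cond c → ∃ d ∈ D, Cond d ∧ EndExt d c) →
    ∃ β ∈ C, seg C β ∈ D
  names : ∀ a : ZFSet.{u}, IsL a → ∀ X : ZFSet.{u}, X ⊆ a → ∃ r : ZFSet.{u}, IsL r ∧
    ∀ x ∈ a, x ∈ X ↔ ∃ β ∈ C, ZFSet.pair (seg C β) x ∈ r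

/-- there are no new countable sets of constructible sets -/
def NoNewSeq : Prop := ∀ x : ZFSet.{u}, (∀ y ∈ x, IsL y) → (SetLike.coe x).Countable → IsL x

/-! ## Many-sorted logic with the quantifiers `Q₁` and `W` -/

/-- formulas of many-sorted `L(Q₁, W)`, de Bruijn indices: `all k`, `q k` and `wf k` bind variables of
the sort `k`; `rel i xs` is an atomic formula with the relation symbol `i`. -/
inductive QFm : Type
  | rel (i : ℕ) (xs : List ℕ) : QFm
  | eq (x y : ℕ) : QFm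
  | neg (φ : QFm) : QFm
  | and (φ ψ : QFm) : QFm
  | all (k : ℕ) (φ : QFm) : QFm
  | q (k : ℕ) (φ : QFm) : QFm
  | wf (k : ℕ) (φ : QFm) : QFm

/-- many-sorted structures, all sorts being subsets of the set `D` -/
structure Str (D : Type v) where
  sort : ℕ → Set D
  rel : ℕ → List D → Prop

/-- satisfaction -/
def QFm.Sat {D : Type v} (M : Str D) : QFm → (ℕ → D) → Prop
  | .rel i xs, v => M.rel i (xs.map v)
  | .eq x y, v => v x = v y
  | .neg φ, v => ¬ φ.Sat M v
  | .and φ ψ, v => φ.Sat M v ∧ ψ.Sat M v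
  | .all k φ, v => ∀ a ∈ M.sort k, φ.Sat M (push a v)
  | .q k φ, v => ℵ₁ ≤ #{a // a ∈ M.sort k ∧ φ.Sat M (push a v)}
  | .wf k φ, v => WellFounded fun a b : {a // a ∈ M.sort k} => φ.Sat M (push a.1 (push b.1 v))

/-- `L(Q₁)`: formulas without the quantifier `W` -/
def QFm.NoW : QFm → Prop
  | .rel _ _ => True
  | .eq _ _ => True
  | .neg φ => φ.NoW
  | .and φ ψ => φ.NoW ∧ ψ.NoW
  | .all _ φ => φ.NoW
  | .q _ φ => φ.NoW
  | .wf _ _ => False

/-- the structure `(A, E, c)` is a reduct of a model of `φ`: there is a many-sorted structure whose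
sort `0` with the relation symbol `0` is a copy of `(A, E)` such that `φ` is true when the first `n`
variables denote the elements `c`; the other free variables are additional constants. -/
def Exp {A : Type w} {n : ℕ} (φ : QFm) (E : A → A → Prop) (c : Fin n → A) : Prop :=
  ∃ (D : Type u) (M : Str D) (i : A → D) (v : ℕ → D), Function.Injective i ∧
    M.sort 0 = Set.range i ∧ (∀ a b, M.rel 0 [i a, i b] ↔ E a b) ∧ (∀ k : Fin n, v k = i (c k)) ∧
    φ.Sat M v

/-- `(φ, ψ)` is a sentence of the `Δ`-extension with `n` constants: every structure is a reduct of a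
model of `φ` if and only if it is not a reduct of a model of `ψ`. -/
def IsDelta (n : ℕ) (φ ψ : QFm) : Prop :=
  ∀ (A : Type u) (E : A → A → Prop) (c : Fin n → A), Exp.{u} φ E c ↔ ¬ Exp.{u} ψ E c

/-- `y` is a subset of `x` definable over `(x, ∈)`, with parameters from `x`, in the `Δ`-extension of
the logic whose formulas satisfy `𝓛` -/
def DeltaDef (𝓛 : QFm → Prop) (x y : ZFSet.{u}) : Prop :=
  y ⊆ x ∧ ∃ (n : ℕ) (φ ψ : QFm), 𝓛 φ ∧ 𝓛 ψ ∧ IsDelta.{u} (n+1) φ ψ ∧
    ∃ p : Fin n → {z : ZFSet.{u} // z ∈ x}, ∀ z : {z : ZFSet.{u} // z ∈ x},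
      z.1 ∈ y ↔ Exp.{u} φ (fun a b : {z : ZFSet.{u} // z ∈ x} => a.1 ∈ b.1) (Fin.cons z p : Fin (n+1) → _)

/-- the hierarchy of the inner model `C(Δ(𝓛))` -/
noncomputable def level (𝓛 : QFm → Prop) (α : Ordinal.{u}) : ZFSet.{u} :=
  Ordinal.limitRecOn α ∅ (fun _ x => ZFSet.sep (DeltaDef 𝓛 x) (ZFSet.powerset x))
    (fun a _ f => ZFSet.sUnion (ZFSet.range fun β : Set.Iio a => f β.1 β.2))

/-- the inner model `C(Δ(𝓛))` -/
def CD (𝓛 : QFm → Prop) : Set ZFSet.{u} := {x | ∃ α, x ∈ level 𝓛 α}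

/-- `M₁ = C(Δ(L(Q₁)))` -/
def M1 : Set ZFSet.{u} := CD QFm.NoW

/-- `M₂ = C(Δ(L(Q₁, W)))` -/
def M2 : Set ZFSet.{u} := CD fun _ => True

end Pool.Agent.DQ1
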