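import Pool.Agent.DQ1.Chain

/-! # Forcing for formulas with the quantifier there are uncountably many -/

namespace Pool.Agent.DQ1

open Function Cardinal Set

universe u v w

/-- countable sets closed under countably many finitary functions -/
theorem exists_closed {X : Type v} {ι : Type w} [Countable ι] (F : ι → List X → X) (S0 : Set X)
    (h0 : S0.Countable) : ∃ S : Set X, S.Countable ∧ S0 ⊆ S ∧
      ∀ i l, (∀ x ∈ l, x ∈ S) → F i l ∈ S := by
  classical
  let st : Set X → Set X := fun S => S ∪ ⋃ i, Set.range fun l : List S => F i (l.map Subtype.val)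
  let q : ℕ → Set X := fun n => st^[n] S0
  have hq : ∀ n, q (n+1) = st (q n) := fun n => Function.iterate_succ_apply' st n S0
  have hc : ∀ n, (q n).Countable := by
    intro n
    induction n with
    | zero => exact h0
    | succ n ih =>
      rw [hq]
      have : Countable (q n) := ih.to_subtype
      exact ih.union (Set.countable_iUnion fun i => Set.countable_range _)
  have hm : ∀ m n, m ≤ n → q m ⊆ q n := by
    intro m n h
    induction n, h using Nat.le_induction with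
    | base => exact subset_rfl
    | succ n _ ih => rw [hq]; exact ih.trans Set.subset_union_left
  refine ⟨⋃ n, q n, Set.countable_iUnion hc, fun x hx => Set.mem_iUnion.2 ⟨0, hx⟩, fun i l hl => ?_⟩
  have h1 : ∃ n, ∀ x ∈ l, x ∈ q n := by
    induction l with
    | nil => exact ⟨0, fun x hx => by simp at hx⟩
    | cons a l ih =>
      obtain ⟨n, hn⟩ := ih fun x hx => hl x (List.mem_cons_of_mem _ hx)
      obtain ⟨m, hm'⟩ := Set.mem_iUnion.1 (hl a List.mem_cons_self)
      refine ⟨max m n, fun x hx => ?_⟩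
      rcases List.mem_cons.1 hx with h | h
      · subst h; exact hm _ _ (le_max_left _ _) hm'
      · exact hm _ _ (le_max_right _ _) (hn x h)
  obtain ⟨n, hn⟩ := h1
  refine Set.mem_iUnion.2 ⟨n+1, ?_⟩
  rw [hq]
  refine Or.inr (Set.mem_iUnion.2 ⟨i, ⟨l.attach.map fun x => ⟨x.1, hn x.1 x.2⟩, ?_⟩⟩)
  simp [List.map_map]

section

variable {P : Type v} [Preorder P]

/-- dense below `p` -/
def dens (B : Set P) (p : P) : Prop := ∀ q ≤ p, ∃ r ≤ q, ∃ s ∈ B, r ≤ s

/-- countably distributive -/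
def Distr (P : Type v) [Preorder P] : Prop :=
  ∀ (𝒟 : ℕ → Set P) (p : P), (∀ n, ∀ q ≤ p, ∃ r ≤ q, r ∈ 𝒟 n) →
    (∀ n p q, q ≤ p → p ∈ 𝒟 n → q ∈ 𝒟 n) → ∃ q ≤ p, ∀ n, q ∈ 𝒟 n

variable {D : Type w} (N : ℕ → List D → Set P)

/-- the forcing relation -/
def Fo : KF → (ℕ → D) → P → Prop
  | .rel i xs, v, p => dens (N i (xs.map v)) p
  | .eq x y, v, _ => v x = v y
  | .neg φ, v, p => ∀ q ≤ p, ¬ Fo φ v q
  | .and φ ψ, v, p => Fo φ v p ∧ Fo ψ v p
  | .all φ, v, p => ∀ a, Fo φ (push a v) p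
  | .q φ, v, p => ∀ q ≤ p, ∀ c : Set D, c.Countable → ∃ r ≤ q, ∃ a, a ∉ c ∧ Fo φ (push a v) r

variable {N}

theorem fo_mono (φ : KF) : ∀ {v : ℕ → D} {p q : P}, q ≤ p → Fo N φ v p → Fo N φ v q := by
  induction φ with
  | rel i xs => intro v p q hq h r hr; exact h r (hr.trans hq)
  | eq x y => intro v p q _ h; exact h
  | neg φ _ => intro v p q hq h r hr; exact h r (hr.trans hq)
  | and φ ψ ih1 ih2 => intro v p q hq h; exact ⟨ih1 hq h.1, ih2 hq h.2⟩
  | all φ ih => intro v p q hq h a; exact ih hq (h a)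
  | q φ _ => intro v p q hq h r hr; exact h r (hr.trans hq)

theorem fo_dense (φ : KF) : ∀ {v : ℕ → D} {p : P}, (∀ q ≤ p, ∃ r ≤ q, Fo N φ v r) → Fo N φ v p := by
  induction φ with
  | rel i xs =>
    intro v p h q hq
    obtain ⟨r, hr, h1⟩ := h q hq
    obtain ⟨s, hs, h2⟩ := h1 r le_rfl
    exact ⟨s, hs.trans hr, h2⟩
  | eq x y =>
    intro v p h
    obtain ⟨r, _, h1⟩ := h p le_rfl
    exact h1
  | neg φ _ =>
    intro v p h q hq hf
    obtain ⟨r, hr, h1⟩ := h q hq
    exact h1 r le_rfl (fo_mono φ hr hf)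
  | and φ ψ ih1 ih2 =>
    intro v p h
    refine ⟨ih1 fun q hq => ?_, ih2 fun q hq => ?_⟩
    · obtain ⟨r, hr, h1⟩ := h q hq
      exact ⟨r, hr, h1.1⟩
    · obtain ⟨r, hr, h1⟩ := h q hq
      exact ⟨r, hr, h1.2⟩
  | all φ ih =>
    intro v p h a
    refine ih fun q hq => ?_
    obtain ⟨r, hr, h1⟩ := h q hq
    exact ⟨r, hr, h1 a⟩
  | q φ _ =>
    intro v p h q hq c hc
    obtain ⟨r, hr, h1⟩ := h q hq
    obtain ⟨s, hs, a, ha, h2⟩ := h1 r le_rfl c hc
    exact ⟨s, hs.trans hr, a, ha, h2⟩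

theorem fo_decide (φ : KF) (v : ℕ → D) (p : P) : ∃ q ≤ p, Fo N φ v q ∨ Fo N (.neg φ) v q := by
  by_cases h : ∃ q ≤ p, Fo N φ v q
  · obtain ⟨q, hq, h⟩ := h
    exact ⟨q, hq, Or.inl h⟩
  · push Not at h
    exact ⟨p, le_rfl, Or.inr h⟩

theorem fo_not_both {φ : KF} {v : ℕ → D} {p : P} (h : Fo N φ v p) (h' : Fo N (.neg φ) v p) :
    False := h' p le_rfl h

theorem fo_nn {φ : KF} {v : ℕ → D} {p : P} : Fo N (.neg (.neg φ)) v p ↔ Fo N φ v p := by
  constructor
  · intro h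
    refine fo_dense φ fun q hq => ?_
    have h1 : ¬ Fo N (.neg φ) v q := h q hq
    have h2 : ¬ ∀ r ≤ q, ¬ Fo N φ v r := h1
    push Not at h2
    exact h2
  · intro h q hq h1
    exact h1 q le_rfl (fo_mono φ hq h)

theorem fo_or {φ ψ : KF} {v : ℕ → D} {p : P} (h : Fo N (.or φ ψ) v p) :
    ∃ q ≤ p, Fo N φ v q ∨ Fo N ψ v q := by
  by_contra hc
  push Not at hc
  refine h p le_rfl ⟨fun q hq => (hc q hq).1, fun q hq => (hc q hq).2⟩

theorem fo_imp {φ ψ : KF} {v : ℕ → D} {p : P} : Fo N (.imp φ ψ) v p ↔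
    ∀ q ≤ p, Fo N φ v q → Fo N ψ v q := by
  constructor
  · intro h q hq h1
    refine fo_dense ψ fun r hr => ?_
    by_contra hc
    push Not at hc
    exact h r (hr.trans hq) ⟨fo_mono φ hr h1, hc⟩
  · intro h q hq h1
    exact h1.2 q le_rfl (h q hq h1.1)

theorem fo_ex {φ : KF} {v : ℕ → D} {p : P} : Fo N (.ex φ) v p ↔
    ∀ q ≤ p, ∃ r ≤ q, ∃ a, Fo N φ (push a v) r := by
  constructor
  · intro h q hq
    have h1 : ¬ ∀ a, Fo N (.neg φ) (push a v) q := h q hq
    push Not at h1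
    obtain ⟨a, ha⟩ := h1
    have h2 : ¬ ∀ r ≤ q, ¬ Fo N φ (push a v) r := ha
    push Not at h2
    obtain ⟨r, hr, h3⟩ := h2
    exact ⟨r, hr, a, h3⟩
  · intro h q hq h1
    obtain ⟨r, hr, a, ha⟩ := h q hq
    exact h1 a r hr ha

theorem fo_congr (φ : KF) : ∀ {v v' : ℕ → D} {p : P}, (∀ i < φ.bd, v i = v' i) →
    (Fo N φ v p ↔ Fo N φ v' p) := by
  induction φ with
  | rel i xs =>
    intro v v' p h
    have : xs.map v = xs.map v' := List.map_congr_left fun x hx => h x (KF.lt_bd_rel hx)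
    show dens _ _ ↔ dens _ _
    rw [this]
  | eq x y =>
    intro v v' p h
    show v x = v y ↔ v' x = v' y
    rw [h x (by simp only [KF.bd]; omega), h y (by simp only [KF.bd]; omega)]
  | neg φ ih => intro v v' p h; exact forall₂_congr fun q _ => not_congr (ih h)
  | and φ ψ ih1 ih2 =>
    intro v v' p h
    exact and_congr (ih1 fun i hi => h i (by simp only [KF.bd]; omega))
      (ih2 fun i hi => h i (by simp only [KF.bd]; omega))
  | all φ ih =>
    intro v v' p h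
    refine forall_congr' fun a => ih fun i hi => ?_
    cases i with
    | zero => rfl
    | succ i => exact h i (by simp only [KF.bd]; omega)
  | q φ ih =>
    intro v v' p h
    have h1 : ∀ a r, Fo N φ (push a v) r ↔ Fo N φ (push a v') r := fun a r => ih fun i hi => by
      cases i with
      | zero => rfl
      | succ i => exact h i (by simp only [KF.bd]; omega)
    show (∀ q ≤ p, ∀ c : Set D, c.Countable → ∃ r ≤ q, ∃ a, a ∉ c ∧ Fo N φ (push a v) r) ↔
      (∀ q ≤ p, ∀ c : Set D, c.Countable → ∃ r ≤ q, ∃ a, a ∉ c ∧ Fo N φ (push a v') r)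
    simp only [h1]

theorem fo_ren (φ : KF) : ∀ (f : ℕ → ℕ) (v : ℕ → D) (p : P),
    Fo N (φ.ren f) v p ↔ Fo N φ (v ∘ f) p := by
  induction φ with
  | rel i xs =>
    intro f v p
    show dens (N i ((xs.map f).map v)) p ↔ dens (N i (xs.map (v ∘ f))) p
    rw [List.map_map]
  | eq x y => intro f v p; exact Iff.rfl
  | neg φ ih => intro f v p; exact forall₂_congr fun q _ => not_congr (ih f v q)
  | and φ ψ ih1 ih2 => intro f v p; exact and_congr (ih1 f v p) (ih2 f v p)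
  | all φ ih =>
    intro f v p
    refine forall_congr' fun a => ?_
    rw [ih, push_comp_lift]
  | q φ ih =>
    intro f v p
    show (∀ q ≤ p, ∀ c : Set D, c.Countable → ∃ r ≤ q, ∃ a, a ∉ c ∧
      Fo N (φ.ren (lift f)) (push a v) r) ↔
      (∀ q ≤ p, ∀ c : Set D, c.Countable → ∃ r ≤ q, ∃ a, a ∉ c ∧ Fo N φ (push a (v ∘ f)) r)
    simp only [ih, push_comp_lift]

/-! ### Keisler's axioms are forced -/

theorem fo_q1 {x : ℕ} {v : ℕ → D} {p : P} (h : Fo N (.q (.eq 0 (x+1))) v p) : False := by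
  obtain ⟨r, _, a, ha, h1⟩ := h p le_rfl {v x} (Set.countable_singleton _)
  exact ha h1

theorem fo_q2 {φ ψ : KF} {v : ℕ → D} {p : P} (h : Fo N (.all (.imp φ ψ)) v p)
    (h' : Fo N (.q φ) v p) : Fo N (.q ψ) v p := by
  intro q hq c hc
  obtain ⟨r, hr, a, ha, h1⟩ := h' q hq c hc
  exact ⟨r, hr, a, ha, fo_imp.1 (h a) r (hr.trans hq) h1⟩

theorem not_q {φ : KF} {v : ℕ → D} {p : P} (h : Fo N (.neg (.q φ)) v p) :
    ∃ q ≤ p, ∃ c : Set D, c.Countable ∧ ∀ r ≤ q, ∀ a, a ∉ c → ¬ Fo N φ (push a v) r := by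
  have h1 : ¬ Fo N (.q φ) v p := h p le_rfl
  have h2 : ¬ ∀ q ≤ p, ∀ c : Set D, c.Countable → ∃ r ≤ q, ∃ a, a ∉ c ∧ Fo N φ (push a v) r := h1
  push Not at h2
  obtain ⟨q, hq, c, hc, h3⟩ := h2
  exact ⟨q, hq, c, hc, h3⟩

theorem fo_q3 {φ ψ : KF} {v : ℕ → D} {p : P} (h : Fo N (.q (.or φ ψ)) v p)
    (h1 : Fo N (.neg (.q φ)) v p) (h2 : Fo N (.neg (.q ψ)) v p) : False := by
  obtain ⟨q, hq, c, hc, h3⟩ := not_q h1
  obtain ⟨q', hq', c', hc', h4⟩ := not_q (fo_mono (.neg (.q ψ)) hq h2)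
  obtain ⟨r, hr, a, ha, h5⟩ := h q' (hq'.trans hq) (c ∪ c') (hc.union hc')
  obtain ⟨s, hs, h6⟩ := fo_or h5
  rcases h6 with h6 | h6
  · exact h3 s ((hs.trans hr).trans hq') a (fun h => ha (Or.inl h)) h6
  · exact h4 s (hs.trans hr) a (fun h => ha (Or.inr h)) h6

theorem fo_q4 (hP : Distr P) {φ : KF} {v : ℕ → D} {p : P} (h : Fo N (.q (.ex φ)) v p)
    (h1 : Fo N (.neg (.ex (.q (φ.ren KF.swp)))) v p)
    (h2 : Fo N (.neg (.q (.ex (φ.ren KF.swp)))) v p) : False := by
  obtain ⟨q, hq, c, hc, h3⟩ := not_q h2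
  have h4 : ∀ x, Fo N (.neg (.q (φ.ren KF.swp))) (push x v) p := fo_nn.1 h1
  have hsw : ∀ x y r, Fo N (φ.ren KF.swp) (push y (push x v)) r ↔
      Fo N φ (push x (push y v)) r := by
    intro x y r
    rw [fo_ren]
    have e : push y (push x v) ∘ KF.swp = push x (push y v) := by
      funext i
      match i with
      | 0 => rfl
      | 1 => rfl
      | i+2 => rfl
    rw [e]
  -- bounds for all `x ∈ c`
  obtain ⟨r, hr, d, hd, hd'⟩ : ∃ r ≤ q, ∃ d : Set D, d.Countable ∧ ∀ x ∈ c, ∀ s ≤ r, ∀ y, y ∉ d →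
      ¬ Fo N (φ.ren KF.swp) (push y (push x v)) s := by
    by_cases hcn : c.Nonempty
    · obtain ⟨e, he⟩ := hc.exists_eq_range hcn
      let 𝒟 : ℕ → Set P := fun n => {r | ∃ d : Set D, d.Countable ∧ ∀ s ≤ r, ∀ y, y ∉ d →
        ¬ Fo N (φ.ren KF.swp) (push y (push (e n) v)) s}
      obtain ⟨r, hr, h5⟩ := hP 𝒟 q (fun n q' hq' => by
        obtain ⟨r, hr, d, hd, h6⟩ := not_q (fo_mono (.neg (.q (φ.ren KF.swp))) (hq'.trans hq)
          (h4 (e n)))
        exact ⟨r, hr, d, hd, h6⟩) (fun n p' q' hq' ⟨d, hd, h6⟩ =>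
          ⟨d, hd, fun s hs => h6 s (hs.trans hq')⟩)
      choose d hd h6 using h5
      refine ⟨r, hr, ⋃ n, d n, Set.countable_iUnion hd, fun x hx s hs y hy => ?_⟩
      rw [he] at hx
      obtain ⟨n, rfl⟩ := hx
      exact h6 n s hs y (fun h => hy (Set.mem_iUnion.2 ⟨n, h⟩))
    · rw [Set.not_nonempty_iff_eq_empty] at hcn
      refine ⟨q, le_rfl, ∅, Set.countable_empty, fun x hx => ?_⟩
      rw [hcn] at hx
      exact absurd hx (Set.notMem_empty _)
  obtain ⟨s, hs, y, hy, h5⟩ := h r (hr.trans hq) d hd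
  obtain ⟨t, ht, x, h6⟩ := fo_ex.1 h5 s le_rfl
  have h7 := (hsw x y t).2 h6
  by_cases hx : x ∈ c
  · exact hd' x hx t (ht.trans hs) y hy h7
  · refine h3 t ((ht.trans hs).trans hr) x hx (fo_ex.2 fun q' hq' => ⟨q', le_rfl, y, ?_⟩)
    exact fo_mono _ hq' h7

theorem fo_le {lt : D → D → Prop} (hlt : WellFounded lt)
    (hN : ∀ a b, N 0 [a, b] = {p | lt a b}) {φ : KF} {v : ℕ → D} {p : P}
    (h : Fo N (.ex φ) v p) :
    Fo N (.ex (.and φ (.all (.imp (.rel 0 [0, 1]) (.neg (φ.ren KF.ins)))))) v p := by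
  refine fo_ex.2 fun q hq => ?_
  obtain ⟨r0, hr0, a0, ha0⟩ := fo_ex.1 h q hq
  obtain ⟨a, ⟨r, hr, ha⟩, hmin⟩ := hlt.has_min {a | ∃ r ≤ q, Fo N φ (push a v) r}
    ⟨a0, r0, hr0, ha0⟩
  refine ⟨r, hr, a, ha, fun b => fo_imp.2 fun s hs h1 t ht h2 => ?_⟩
  have h3 : lt b a := by
    obtain ⟨_, _, s', hs', _⟩ := h1 s le_rfl
    have h4 : s' ∈ N 0 [b, a] := hs'
    rw [hN] at h4
    exact h4
  rw [fo_ren] at h2
  have e : push b (push a v) ∘ KF.ins = push b v := by
    funext i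
    match i with
    | 0 => rfl
    | i+1 => rfl
  rw [e] at h2
  exact hmin b ⟨t, (ht.trans hs).trans hr, h2⟩ h3

/-- **The generic countable weak model.** -/
theorem exists_generic (hP : Distr P) (hD : Uncountable D) {lt : D → D → Prop}
    (hlt : IsWellOrder D lt) (hN : ∀ a b, N 0 [a, b] = {p | lt a b}) (p0 : P) (S0 : Set D)
    (hS0 : S0.Countable) : ∃ (S : Set D) (_ : S0 ⊆ S) (_ : S.Countable) (_ : S.Nonempty) (W : WM S),
      ∀ φ (v : ℕ → S), Fo N φ (fun n => (v n).1) p0 → W.T φ v := by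
  classical
  obtain ⟨d0⟩ : Nonempty D := by
    by_contra hne
    rw [not_nonempty_iff] at hne
    exact not_countable (α := D) inferInstance
  -- the choice function
  have hg : ∀ (φ : KF) (v : ℕ → D) (p : P), ∃ (a : D) (q : P), q ≤ p ∧
      (Fo N φ v q ∨ Fo N (.neg φ) v q) ∧
      ∀ ψ, φ = .all ψ → Fo N (.neg (.all ψ)) v q → Fo N (.neg ψ) (push a v) q := by
    intro φ v p
    obtain ⟨q, hq, h⟩ := fo_decide (N := N) φ v p
    by_cases h1 : ∃ ψ, φ = .all ψ ∧ Fo N (.neg (.all ψ)) v q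
    · obtain ⟨ψ, rfl, h2⟩ := h1
      have h3 : ¬ ∀ a, Fo N ψ (push a v) q := h2 q le_rfl
      push Not at h3
      obtain ⟨a, ha⟩ := h3
      have h4 : ∃ r ≤ q, Fo N (.neg ψ) (push a v) r := by
        by_contra hc
        push Not at hc
        refine ha (fo_dense ψ fun r hr => ?_)
        have h5 : ¬ ∀ s ≤ r, ¬ Fo N ψ (push a v) s := hc r hr
        push Not at h5
        exact h5
      obtain ⟨r, hr, h5⟩ := h4
      refine ⟨a, r, hr.trans hq, Or.inr (fo_mono (.neg (.all ψ)) hr h2), fun ψ' hψ' _ => ?_⟩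
      have : ψ = ψ' := by injection hψ'
      rw [← this]; exact h5
    · refine ⟨d0, q, hq, h, fun ψ hψ h2 => absurd ⟨ψ, hψ, h2⟩ h1⟩
  choose ga gp hgp hgd hga using hg
  let vl : List D → ℕ → D := fun l i => l.getD i d0
  -- closure
  let X := D ⊕ P
  let dl : List X → List D := fun l => l.filterMap Sum.getLeft?
  let pl : List X → P := fun l => (l.filterMap Sum.getRight?).headD p0
  let F : (KF × Bool) → List X → X := fun i l =>
    if i.2 then .inl (ga i.1 (vl (dl l)) (pl l)) else .inr (gp i.1 (vl (dl l)) (pl l))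
  obtain ⟨Z, hZc, hZ0, hZ⟩ := exists_closed F ((Sum.inl '' (insert d0 S0)) ∪ {Sum.inr p0})
    (((hS0.insert d0).image _).union (Set.countable_singleton _))
  let S : Set D := {d | Sum.inl d ∈ Z}
  let Q : Set P := {p | Sum.inr p ∈ Z}
  have hSc : S.Countable := hZc.preimage Sum.inl_injective
  have hd0 : d0 ∈ S := hZ0 (Or.inl ⟨d0, Set.mem_insert _ _, rfl⟩)
  have hS0' : S0 ⊆ S := fun x hx => hZ0 (Or.inl ⟨x, Set.mem_insert_of_mem _ hx, rfl⟩)
  have hp0 : p0 ∈ Q := hZ0 (Or.inr rfl)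
  have hcl : ∀ φ (l : List D) p, (∀ x ∈ l, x ∈ S) → p ∈ Q → ga φ (vl l) p ∈ S ∧
      gp φ (vl l) p ∈ Q := by
    intro φ l p hl hp
    let l' : List X := .inr p :: l.map .inl
    have hl' : ∀ x ∈ l', x ∈ Z := by
      intro x hx
      rcases List.mem_cons.1 hx with h | h
      · rw [h]; exact hp
      · obtain ⟨d, hd, rfl⟩ := List.mem_map.1 h
        exact hl d hd
    have e1 : dl l' = l := by
      show List.filterMap Sum.getLeft? (.inr p :: l.map .inl) = l
      rw [List.filterMap_cons_none rfl, List.filterMap_map]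
      rw [show ((Sum.getLeft? : X → Option D) ∘ Sum.inl) = some from rfl, List.filterMap_some]
    have e2 : pl l' = p := by
      show (List.filterMap Sum.getRight? (.inr p :: l.map .inl)).headD p0 = p
      rw [show List.filterMap Sum.getRight? ((Sum.inr p : X) :: l.map .inl) =
        p :: List.filterMap Sum.getRight? (l.map (.inl : D → X)) from rfl]
      rfl
    constructor
    · have := hZ (φ, true) l' hl'
      have h2 : F (φ, true) l' = .inl (ga φ (vl l) p) := by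
        show (if (true : Bool) then (Sum.inl (ga φ (vl (dl l')) (pl l')) : X) else _) = _
        rw [e1, e2]; rfl
      rw [h2] at this
      exact this
    · have := hZ (φ, false) l' hl'
      have h2 : F (φ, false) l' = .inr (gp φ (vl l) p) := by
        show (if (false : Bool) = true then (_ : X) else Sum.inr (gp φ (vl (dl l')) (pl l'))) = _
        rw [e1, e2]; rfl
      rw [h2] at this
      exact this
  -- the sequence of conditions
  have hSct : Countable S := hSc.to_subtype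
  have : Nonempty (KF × List S) := ⟨(.eq 0 0, [])⟩
  obtain ⟨e, he⟩ := exists_surjective_nat (KF × List S)
  let pn : ℕ → P := fun n => Nat.rec p0
    (fun n p => gp (e n).1 (vl ((e n).2.map Subtype.val)) p) n
  have hpn : ∀ n, pn (n+1) = gp (e n).1 (vl ((e n).2.map Subtype.val)) (pn n) := fun n => rfl
  have hQ : ∀ n, pn n ∈ Q := by
    intro n
    induction n with
    | zero => exact hp0
    | succ n ih =>
      rw [hpn]
      refine (hcl _ _ _ ?_ ih).2
      intro x hx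
      obtain ⟨y, _, rfl⟩ := List.mem_map.1 hx
      exact y.2
  have hdec : ∀ m n, m ≤ n → pn n ≤ pn m := by
    intro m n h
    induction n, h using Nat.le_induction with
    | base => exact le_rfl
    | succ n _ ih => rw [hpn]; exact (hgp _ _ _).trans ih
  -- representation of assignments
  have hrep : ∀ (n : ℕ) (v : ℕ → S), ∃ l : List S, ∀ i < n,
      vl (l.map Subtype.val) i = (v i).1 := by
    intro n v
    refine ⟨(List.range n).map v, fun i hi => ?_⟩
    show ((((List.range n).map v).map Subtype.val).getD i d0) = _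
    rw [List.getD_eq_getElem _ _ (by simpa using hi)]
    simp
  let T : KF → (ℕ → S) → Prop := fun φ v => ∃ n, Fo N φ (fun i => (v i).1) (pn n)
  have hTd : ∀ φ (v : ℕ → S), T φ v ∨ T (.neg φ) v := by
    intro φ v
    obtain ⟨l, hl⟩ := hrep φ.bd v
    obtain ⟨n, hn⟩ := he (φ, l)
    have h1 := hgd (e n).1 (vl ((e n).2.map Subtype.val)) (pn n)
    rw [← hpn, hn] at h1
    rcases h1 with h | h
    · exact Or.inl ⟨n+1, (fo_congr φ fun i hi => hl i hi).1 h⟩
    · exact Or.inr ⟨n+1, (fo_congr (.neg φ) fun i hi => hl i hi).1 h⟩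
  have hTn : ∀ φ (v : ℕ → S), T φ v → T (.neg φ) v → False := by
    rintro φ v ⟨m, hm⟩ ⟨n, hn⟩
    exact fo_not_both (fo_mono φ (hdec m (max m n) (le_max_left _ _)) hm)
      (fo_mono (.neg φ) (hdec n (max m n) (le_max_right _ _)) hn)
  have hneg : ∀ φ v, T (.neg φ) v ↔ ¬ T φ v := fun φ v =>
    ⟨fun h h' => hTn φ v h' h, fun h => (hTd φ v).resolve_left h⟩
  have hpv : ∀ (a : S) (v : ℕ → S), (fun i => (push a v i).1) = push a.1 (fun i => (v i).1) := by
    intro a v; funext i; cases i <;> rfl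
  have hall : ∀ φ v, T (.all φ) v ↔ ∀ a, T φ (push a v) := by
    intro φ v
    constructor
    · rintro ⟨n, hn⟩ a
      refine ⟨n, ?_⟩
      rw [hpv]
      exact hn a.1
    · intro h
      by_contra hc
      have hc' : ¬ T (.all φ) v := hc
      obtain ⟨l, hl⟩ := hrep φ.bd v
      obtain ⟨n, hn⟩ := he (.all φ, l)
      have h1 := hgd (e n).1 (vl ((e n).2.map Subtype.val)) (pn n)
      have h2 := hga (e n).1 (vl ((e n).2.map Subtype.val)) (pn n) φ (by rw [hn])
      have h3 := (hcl (e n).1 ((e n).2.map Subtype.val) (pn n) (by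
        intro x hx
        obtain ⟨y, _, rfl⟩ := List.mem_map.1 hx
        exact y.2) (hQ n)).1
      rw [← hpn, hn] at h1
      rw [← hpn, hn] at h2
      rw [hn] at h3
      rcases h1 with h4 | h4
      · exact hc' ⟨n+1, (fo_congr (.all φ) fun i hi => hl i (lt_of_lt_of_le hi (Nat.sub_le _ _))).1 h4⟩
      · have h5 := h2 h4
        set a := ga (KF.all φ) (vl (l.map Subtype.val)) (pn n) with ha
        refine hTn φ (push ⟨a, h3⟩ v) (h _) ⟨n+1, ?_⟩
        rw [hpv]
        refine (fo_congr (.neg φ) fun i hi => ?_).1 h5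
        cases i with
        | zero => rfl
        | succ i =>
          have hi' : i + 1 < φ.bd := hi
          exact hl i (by omega)
  have hcommon : ∀ {φ ψ : KF} {v w : ℕ → S}, T φ v → T ψ w → ∃ n,
      Fo N φ (fun i => (v i).1) (pn n) ∧ Fo N ψ (fun i => (w i).1) (pn n) := by
    rintro φ ψ v w ⟨m, hm⟩ ⟨n, hn⟩
    exact ⟨max m n, fo_mono φ (hdec m _ (le_max_left _ _)) hm,
      fo_mono ψ (hdec n _ (le_max_right _ _)) hn⟩
  refine ⟨S, hS0', hSc, ⟨d0, hd0⟩, ⟨T, ?_, hneg, ?_, hall, ?_, ?_, ?_, ?_, ?_, ?_, ?_, ?_⟩,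
    fun φ v h => ⟨0, h⟩⟩
  · intro x y v
    constructor
    · rintro ⟨n, hn⟩
      exact Subtype.ext hn
    · intro h
      exact ⟨0, congrArg Subtype.val h⟩
  · intro φ ψ v
    constructor
    · rintro ⟨n, hn⟩
      exact ⟨⟨n, hn.1⟩, ⟨n, hn.2⟩⟩
    · rintro ⟨h1, h2⟩
      obtain ⟨n, h3, h4⟩ := hcommon h1 h2
      exact ⟨n, h3, h4⟩
  · intro φ f v
    exact exists_congr fun n => fo_ren φ f _ _
  · rintro x v ⟨n, hn⟩
    exact fo_q1 hn
  · intro φ ψ v h1 h2
    obtain ⟨n, h3, h4⟩ := hcommon h1 h2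
    exact ⟨n, fo_q2 h3 h4⟩
  · intro φ ψ v h
    by_contra hc
    push Not at hc
    obtain ⟨h1, h2⟩ := hc
    obtain ⟨n, h3, h4⟩ := hcommon ((hneg _ _).2 h1) ((hneg _ _).2 h2)
    obtain ⟨m, hm⟩ := h
    exact fo_q3 (fo_mono _ (hdec m (max m n) (le_max_left _ _)) hm)
      (fo_mono _ (hdec n (max m n) (le_max_right _ _)) h3)
      (fo_mono _ (hdec n (max m n) (le_max_right _ _)) h4)
  · intro φ v h
    by_contra hc
    push Not at hc
    obtain ⟨h1, h2⟩ := hc
    obtain ⟨n, h3, h4⟩ := hcommon ((hneg _ _).2 h1) ((hneg _ _).2 h2)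
    obtain ⟨m, hm⟩ := h
    exact fo_q4 hP (fo_mono _ (hdec m (max m n) (le_max_left _ _)) hm)
      (fo_mono _ (hdec n (max m n) (le_max_right _ _)) h3)
      (fo_mono _ (hdec n (max m n) (le_max_right _ _)) h4)
  · rintro φ v ⟨n, hn⟩
    exact ⟨n, fo_le hlt.wf hN hn⟩
  · intro v
    refine ⟨0, fun q _ c hc => ?_⟩
    have : ∃ a, a ∉ c := by
      by_contra hcon
      push Not at hcon
      have h1 : c = Set.univ := Set.eq_univ_of_forall hcon
      rw [h1] at hc
      exact Set.not_countable_univ hc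
    obtain ⟨a, ha⟩ := this
    exact ⟨q, le_rfl, a, ha, rfl⟩
  · intro x y v
    have h1 : ∀ a b, lt (v a).1 (v b).1 → T (.rel 0 [a, b]) v := by
      intro a b hab
      refine ⟨0, fun q _ => ⟨q, le_rfl, q, ?_, le_rfl⟩⟩
      show q ∈ N 0 [(v a).1, (v b).1]
      rw [hN]
      exact hab
    rcases trichotomous_of lt (v x).1 (v y).1 with h | h | h
    · exact Or.inl (h1 _ _ h)
    · exact Or.inr (Or.inl (Subtype.ext h))
    · exact Or.inr (Or.inr (h1 _ _ h))

end

end Pool.Agent.DQ1
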