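import Pool.Agent.DQ1.Forc
import Pool.Agent.DQ1.Force

/-! # Further definitions: translation, names, truth -/

namespace Pool.Agent.DQ1

open Cardinal Ordinal
open ZFM (Fm Sat Dfn DT IsZF)

universe u v w

/-- translation into one-sorted logic: the sort `k` becomes the unary relation symbol `2k`, the
relation symbol `i` becomes `2i+1` -/
def QFm.tr : QFm → KF
  | .rel i xs => .rel (2*i+1) xs
  | .eq x y => .eq x y
  | .neg φ => .neg φ.tr
  | .and φ ψ => .and φ.tr ψ.tr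
  | .all k φ => .all (.imp (.rel (2*k) [0]) φ.tr)
  | .q k φ => .q (.and (.rel (2*k) [0]) φ.tr)
  | .wf _ _ => .eq 0 0

/-- the many-sorted structure coded by a one-sorted one -/
def strOf {D : Type v} (R : ℕ → List D → Prop) : Str D where
  sort k := {x | R (2*k) [x]}
  rel i l := R (2*i+1) l

/-- a name of an expansion of `(A, E)` with domain `D` -/
structure NStr (P : Type v) {A : Type w} (E : A → A → Prop) {D : Type w} (i : A → D)
    (N : ℕ → List D → Set P) : Prop where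
  inj : Function.Injective i
  sort0 : ∀ a, N 0 [i a] = Set.univ
  sort0' : ∀ x, x ∉ Set.range i → N 0 [x] = ∅
  rel0 : ∀ a b, N 1 [i a, i b] = {_p | E a b}

/-- code of a list -/
noncomputable def lcd : List LL.{u} → LL.{u}
  | [] => lo 0
  | a :: l => lpair a (lcd l)

/-- `c` is countable in `L` -/
def CtL (c : LL.{u}) : Prop :=
  ∃ g : LL.{u}, ∀ x, x ∈ c → ∃ n, n ∈ lo.{u} ω ∧ lpair n x ∈ g ∧ ∀ y, y ∈ c → lpair n y ∈ g → y = x

/-- the forcing relation of the name `r` with the domain `d`, inside `L` -/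
def FoL (r d : LL.{u}) : KF → (ℕ → LL.{u}) → LL.{u} → Prop
  | .rel i xs, v, p => ∀ q, q ∈ PP → EE q p → ∃ q', q' ∈ PP ∧ EE q' q ∧ ∃ s, s ∈ PP ∧
      lpair s (lpair (lo i) (lcd (xs.map v))) ∈ r ∧ EE q' s
  | .eq x y, v, _ => v x = v y
  | .neg φ, v, p => ∀ q, q ∈ PP → EE q p → ¬ FoL r d φ v q
  | .and φ ψ, v, p => FoL r d φ v p ∧ FoL r d ψ v p
  | .all φ, v, p => ∀ a, a ∈ d → FoL r d φ (push a v) p
  | .q φ, v, p => ∀ q, q ∈ PP → EE q p → ∀ c, CtL c → ∃ q', q' ∈ PP ∧ EE q' q ∧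
      ∃ a, a ∈ d ∧ a ∉ c ∧ FoL r d φ (push a v) q'

/-- the relations of the name `r` -/
def Nm (r d : LL.{u}) (i : ℕ) (l : List {z : LL.{u} // z ∈ d}) : Set Pc.{u} :=
  {p | lpair p.1 (lpair (lo i) (lcd (l.map Subtype.val))) ∈ r}

/-- the condition `seg C β` -/
noncomputable def sg {C : Set Ordinal.{u}} (hC : Generic C) {β : Ordinal.{u}} (hβ : β ∈ C) : Pc.{u} :=
  ⟨⟨seg C β, (hC.cond β hβ).constr⟩, hC.cond β hβ⟩

/-- the structure defined by the name `r` and the generic -/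
def Gm {C : Set Ordinal.{u}} (hC : Generic C) (r d : LL.{u}) (i : ℕ)
    (l : List {z : LL.{u} // z ∈ d}) : Prop := ∃ (β : Ordinal.{u}) (hβ : β ∈ C), sg hC hβ ∈ Nm r d i l

/-- the predecessors of `c` are a wellorder of type `γ` -/
def PredType {A : Type w} (E : A → A → Prop) (c : A) (γ : Ordinal.{u}) : Prop :=
  Nonempty ((fun a b : {a // E a c} => E a.1 b.1) ≃r (fun a b : Set.Iio γ => a.1 < b.1))

/-- `S` is not stationary in `ω₁` -/
def NonStat (S : Set Ordinal.{u}) : Prop :=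
  ∃ Cl : Set Ordinal.{u}, ClubIn Cl om ∧ ∀ δ ∈ Cl, δ < om → δ ∉ S

end Pool.Agent.DQ1
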