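import Pool.Agent.DQ1.Defs

/-! # Definitions: the forcing with countable conditions -/

namespace Pool.Agent.DQ1

open Cardinal Ordinal

universe u

/-- `x` is countable in `L` -/
def CtInL (x : ZFSet.{u}) : Prop :=
  ∃ g : ZFSet.{u}, IsL g ∧ ∀ y ∈ x, ∃ n ∈ (ω : Ordinal.{u}).toZFSet, ZFSet.pair n y ∈ g ∧
    ∀ z ∈ x, ZFSet.pair n z ∈ g → z = y

/-- conditions of the forcing: closed sets `c` as in `Cond`, countable in `L` -/
def CondC (c : ZFSet.{u}) : Prop := Cond c ∧ CtInL c

/-- `V = L[C]` for a set `C` which is generic over `L` for the forcing of all conditions ordered by end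
extension: all proper initial segments of `C` are conditions, they meet every constructible dense
set, and every subset of a constructible set has a constructible name. -/
structure GenericC (C : Set Ordinal.{u}) : Prop where
  lt : ∀ β ∈ C, β < om
  cond : ∀ β ∈ C, CondC (seg C β)
  meets : ∀ D : ZFSet.{u}, IsL D → (∀ c, CondC c → ∃ d ∈ D, CondC d ∧ EndExt d c) →
    ∃ β ∈ C, seg C β ∈ D
  names : ∀ a : ZFSet.{u}, IsL a → ∀ X : ZFSet.{u}, X ⊆ a → ∃ r : ZFSet.{u}, IsL r ∧
    ∀ x ∈ a, x ∈ X ↔ ∃ β ∈ C, ZFSet.pair (seg C β) x ∈ r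

end Pool.Agent.DQ1
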