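import Pool.Agent.DQ1.NoOm

/-! # If all sets are constructible, countably many dense open sets of conditions can be met -/

namespace Pool.Agent.DQ1

open Cardinal Ordinal
open ZFM (Fm Sat Dfn DT IsZF)

universe u v w

namespace DI

/-- if all sets are constructible, countable sets are countable in `L` -/
theorem omL (hL : ∀ x : ZFSet.{u}, IsL x) : OmL.{u} := by
  intro x hx
  have hct : Countable (SetLike.coe x.1) := hx.to_subtype
  obtain ⟨e, he⟩ := exists_injective_nat (SetLike.coe x.1 : Set ZFSet.{u})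
  obtain ⟨g, hg⟩ : ∃ g : ZFSet.{u}, ∀ p, p ∈ g ↔ ∃ y : (SetLike.coe x.1 : Set ZFSet.{u}),
      p = ZFSet.pair ((e y : Ordinal.{u}).toZFSet) y.1 := by
    refine ⟨ZFSet.sep (fun p => ∃ y : (SetLike.coe x.1 : Set ZFSet.{u}),
      p = ZFSet.pair ((e y : Ordinal.{u}).toZFSet) y.1)
      (ZFSet.prod (ω : Ordinal.{u}).toZFSet x.1), fun p => ?_⟩
    rw [ZFSet.mem_sep]
    constructor
    · exact fun h => h.2
    · rintro ⟨y, rfl⟩
      refine ⟨?_, y, rfl⟩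
      rw [ZFSet.pair_mem_prod]
      exact ⟨toZFSet_mem_toZFSet_iff.2 (natCast_lt_omega0 _), y.2⟩
  refine ⟨⟨g, hL g⟩, fun y hy => ?_⟩
  obtain ⟨y', hy'⟩ : ∃ y' : (SetLike.coe x.1 : Set ZFSet.{u}), y'.1 = y.1 := ⟨⟨y.1, hy⟩, rfl⟩
  refine ⟨lo (e y'), lo_mem_lo.2 (natCast_lt_omega0 _), (hg _).2 ⟨y', ?_⟩, fun z hz h => ?_⟩
  · rw [hy']; rfl
  · obtain ⟨y'', h1⟩ := (hg _).1 h
    obtain ⟨h2, h3⟩ := ZFSet.pair_injective (show ZFSet.pair (lo (e y')).1 z.1 = _ from h1)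
    have h4 : ((e y' : ℕ) : Ordinal.{u}) = e y'' := toZFSet_injective h2
    have h5 : e y' = e y'' := by exact_mod_cast h4
    have h6 := he h5
    refine LL.ext ?_
    rw [h3, ← h6, hy']

theorem condC_of (hω : OmL.{u}) {c : ZFSet.{u}} (hc : Cond c) : CondC c := by
  have hom : CtL (⟨c, hc.constr⟩ : LL.{u}) → CtInL c := fun h => NO.ctIn_iff.1 h
  refine ⟨hc, hom (hω _ ?_)⟩
  obtain ⟨m, hm, hmx⟩ := hc.max
  have hm' : m < om := NN.max_lt_om hc hm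
  have := NN.countable_Iio (om_succ hm')
  have h1 : (Set.range fun a : Set.Iio (Order.succ m) => a.1.toZFSet).Countable :=
    Set.countable_range _
  refine h1.mono ?_
  intro y hy
  obtain ⟨α, hα, rfl⟩ := hc.ord y hy
  exact ⟨⟨α, Order.lt_succ_iff.2 (hmx α hy)⟩, rfl⟩

end DI

open NO DI in
/-- If all sets are constructible, then countably many dense open sets of conditions can be met by one
condition, below any condition. -/
theorem distr (hL : ∀ x : ZFSet.{u}, IsL x) {p : ZFSet.{u}} (hp : CondC p)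
    (D : ℕ → Set ZFSet.{u})
    (hopen : ∀ n, ∀ c ∈ D n, ∀ d, CondC d → EndExt d c → d ∈ D n)
    (hdense : ∀ n, ∀ c, CondC c → ∃ d ∈ D n, CondC d ∧ EndExt d c) :
    ∃ q, CondC q ∧ EndExt q p ∧ ∀ n, q ∈ D n := by
  have hω := omL hL
  obtain ⟨r, hr⟩ : ∃ r : ZFSet.{u}, ∀ z q, ZFSet.pair z q ∈ r ↔
      ∃ n : ℕ, z = (n : Ordinal.{u}).toZFSet ∧ q ∈ D n ∧ Cond q := by
    refine ⟨ZFSet.sep (fun s => ∃ (n : ℕ) (q : ZFSet.{u}), q ∈ D n ∧
      s = ZFSet.pair (n : Ordinal.{u}).toZFSet q) (ZFSet.prod (ω : Ordinal.{u}).toZFSet PP.1),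
      fun z q => ?_⟩
    rw [ZFSet.mem_sep]
    constructor
    · rintro ⟨h1, n, q', h2, h3⟩
      obtain ⟨rfl, rfl⟩ := ZFSet.pair_injective h3
      rw [ZFSet.pair_mem_prod] at h1
      exact ⟨n, rfl, h2, mem_PP.1 (show (⟨q, hL q⟩ : LL.{u}) ∈ PP from h1.2)⟩
    · rintro ⟨n, rfl, h2, h3⟩
      refine ⟨?_, n, q, h2, rfl⟩
      rw [ZFSet.pair_mem_prod]
      exact ⟨toZFSet_mem_toZFSet_iff.2 (natCast_lt_omega0 _),
        (mem_PP.2 h3 : (⟨q, h3.constr⟩ : LL.{u}) ∈ PP)⟩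
  have hU : ∀ z q : LL.{u}, Rl ⟨r, hL r⟩ z q ↔
      ∃ n : ℕ, z = lo n ∧ q.1 ∈ D n ∧ Cond q.1 := by
    intro z q
    rw [rl_iff]
    refine (hr z.1 q.1).trans ?_
    constructor
    · rintro ⟨n, h1, h2⟩
      exact ⟨n, LL.ext h1, h2⟩
    · rintro ⟨n, h1, h2⟩
      exact ⟨n, congrArg LL.val h1, h2⟩
  obtain ⟨q, h1, h2, h3⟩ := NN.fuse hω (U := fun z q => Rl ⟨r, hL r⟩ z q) (by
      apply_rules (maxDepth := 1000) [dl_rl, DT.var, DL.c])
    (fun z q q' hq hq' hqq h => by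
      obtain ⟨n, h1, h2, h3⟩ := (hU z q).1 h
      exact (hU z q').2 ⟨n, h1, hopen n _ h2 _ (condC_of hω hq') hqq, hq'⟩)
    (p := ⟨p, hp.1.constr⟩) hp.1 (fun n q hq hqp => by
      obtain ⟨d, h1, h2, h3⟩ := hdense n q.1 (condC_of hω hq)
      exact ⟨⟨d, h2.1.constr⟩, h2.1, h3, (hU _ _).2 ⟨n, rfl, h1, h2.1⟩⟩)
  refine ⟨q.1, condC_of hω h1, h2, fun n => ?_⟩
  obtain ⟨m, h4, h5, _⟩ := (hU _ _).1 (h3 n)
  have h6 : n = m := by
    have := lo_inj.1 h4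
    exact_mod_cast this
  rw [h6]; exact h5

end Pool.Agent.DQ1
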