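import Pool.Agent.DQ1.Defs

/-! # Countable hulls in the constructible universe: the definition -/

namespace Pool.Agent.DQ1

open Cardinal Ordinal

universe u v w

/-- `X` is a countable set of constructible sets, closed enough for condensation; `π` is its
transitive collapse, which maps `K ξ` to `K (ρ ξ)`, and `δ = X ∩ ω₁`. -/
structure Hull (X : Set ZFSet.{u}) (π : ZFSet.{u} → ZFSet.{u}) (ρ : Ordinal.{u} → Ordinal.{u})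
    (δ : Ordinal.{u}) : Prop where
  countable : X.Countable
  constr : ∀ x ∈ X, IsL x
  /-- countable elements are subsets -/
  sub : ∀ x ∈ X, (SetLike.coe x).Countable → ∀ y ∈ x, y ∈ X
  /-- the least level containing `x` is in `X` -/
  level : ∀ x ∈ X, K (sInf {ξ | x ∈ K ξ}) ∈ X
  /-- Gödel operations -/
  gop : ∀ i < 10, ∀ a ∈ X, ∀ b ∈ X, G i a b ∈ X
  inj : ∀ x ∈ X, ∀ y ∈ X, π x = π y → x = y
  mem : ∀ x ∈ X, ∀ z, z ∈ π x ↔ ∃ y ∈ X, y ∈ x ∧ π y = z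
  /-- `π` is the identity on transitive subsets of `X` -/
  ident : ∀ t : Set ZFSet.{u}, t ⊆ X → (∀ x ∈ t, ∀ y ∈ x, y ∈ t) → ∀ x ∈ t, π x = x
  pi_K : ∀ ξ, K ξ ∈ X → π (K ξ) = K (ρ ξ)
  rho_lt : ∀ ξ, K ξ ∈ X → ρ ξ < om
  rho_iff : ∀ ξ ζ, K ξ ∈ X → K ζ ∈ X → (ρ ξ < ρ ζ ↔ ξ < ζ)
  rho_init : ∀ ξ, K ξ ∈ X → ∀ α < ρ ξ, ∃ ζ < ξ, K ζ ∈ X ∧ ρ ζ = α
  del_lt : δ < om
  del : ∀ α < om, (α.toZFSet ∈ X ↔ α < δ)
  pi_ord : ∀ α < δ, π α.toZFSet = α.toZFSet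
  ords_pi : ∀ c ∈ X, ∀ α < δ, (α ∈ ords (π c) ↔ α ∈ ords c)

end Pool.Agent.DQ1
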