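import Pool.Agent.DQ1.Defs

/-! # The constructible hierarchy: basic facts -/

namespace Pool.Agent.DQ1

open Cardinal Ordinal

universe u v w

/-! ### Pairs in `ZFSet` -/

theorem isUp_iff {c a b : ZFSet.{u}} : IsUp (· ∈ ·) c a b ↔ c = {a, b} := by
  constructor
  · intro h
    ext w
    rw [ZFSet.mem_pair]
    exact h w
  · rintro rfl w
    exact ZFSet.mem_pair

theorem isOp_iff {p a b : ZFSet.{u}} : IsOp (· ∈ ·) p a b ↔ p = ZFSet.pair a b := by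
  unfold IsOp
  simp only [isUp_iff]
  constructor
  · rintro ⟨s, t, rfl, rfl, rfl⟩
    rw [ZFSet.pair, ZFSet.pair_eq_singleton]
  · rintro rfl
    exact ⟨{a, a}, {a, b}, rfl, rfl, by rw [ZFSet.pair, ZFSet.pair_eq_singleton]⟩

theorem isTr_iff {p a b c : ZFSet.{u}} :
    IsTr (· ∈ ·) p a b c ↔ p = ZFSet.pair a (ZFSet.pair b c) := by
  unfold IsTr
  simp only [isOp_iff]
  simp

theorem pair_parts {p x y : ZFSet.{u}} (h : ZFSet.pair x y ∈ p) :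
    x ∈ ZFSet.sUnion (ZFSet.sUnion p) ∧ y ∈ ZFSet.sUnion (ZFSet.sUnion p) := by
  have h1 : ({x, y} : ZFSet.{u}) ∈ ZFSet.sUnion p :=
    ZFSet.mem_sUnion.2 ⟨_, h, by rw [ZFSet.pair, ZFSet.mem_pair]; exact Or.inr rfl⟩
  exact ⟨ZFSet.mem_sUnion.2 ⟨_, h1, ZFSet.mem_pair.2 (Or.inl rfl)⟩,
    ZFSet.mem_sUnion.2 ⟨_, h1, ZFSet.mem_pair.2 (Or.inr rfl)⟩⟩

theorem mem_bnd {i : ℕ} {w a b : ZFSet.{u}} (h : Th (· ∈ ·) i w a b) : w ∈ bnd a b := by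
  unfold bnd
  dsimp only
  set s : ZFSet.{u} := {a, b} ∪ (a ∪ b) with hs
  set t : ZFSet.{u} := ZFSet.sUnion (ZFSet.sUnion s) with ht
  set t' : ZFSet.{u} := ZFSet.sUnion (ZFSet.sUnion t) with ht'
  set r : ZFSet.{u} := s ∪ t ∪ t' with hr
  have ha : ∀ x, x ∈ a → x ∈ s := fun x hx => by
    rw [hs, ZFSet.mem_union, ZFSet.mem_union]; exact Or.inr (Or.inl hx)
  have hb : ∀ x, x ∈ b → x ∈ s := fun x hx => by
    rw [hs, ZFSet.mem_union, ZFSet.mem_union]; exact Or.inr (Or.inr hx)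
  have h1 : ∀ x, x ∈ s → x ∈ r := fun x hx => by
    rw [hr, ZFSet.mem_union, ZFSet.mem_union]; exact Or.inl (Or.inl hx)
  have h2 : ∀ x, x ∈ t → x ∈ r := fun x hx => by
    rw [hr, ZFSet.mem_union, ZFSet.mem_union]; exact Or.inl (Or.inr hx)
  have h3 : ∀ x, x ∈ t' → x ∈ r := fun x hx => by
    rw [hr, ZFSet.mem_union]; exact Or.inr hx
  have g1 : ∀ x, x ∈ r → x ∈ r ∪ ZFSet.prod r r ∪ ZFSet.prod r (ZFSet.prod r r) := fun x hx => by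
    rw [ZFSet.mem_union, ZFSet.mem_union]; exact Or.inl (Or.inl hx)
  have g2 : ∀ x y, x ∈ r → y ∈ r →
      ZFSet.pair x y ∈ r ∪ ZFSet.prod r r ∪ ZFSet.prod r (ZFSet.prod r r) := fun x y hx hy => by
    rw [ZFSet.mem_union, ZFSet.mem_union]
    exact Or.inl (Or.inr (ZFSet.pair_mem_prod.2 ⟨hx, hy⟩))
  have g3 : ∀ x y z, x ∈ r → y ∈ r → z ∈ r →
      ZFSet.pair x (ZFSet.pair y z) ∈ r ∪ ZFSet.prod r r ∪ ZFSet.prod r (ZFSet.prod r r) :=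
    fun x y z hx hy hz => by
    rw [ZFSet.mem_union]
    exact Or.inr (ZFSet.pair_mem_prod.2 ⟨hx, ZFSet.pair_mem_prod.2 ⟨hy, hz⟩⟩)
  have pt : ∀ {x y}, ZFSet.pair x y ∈ s → x ∈ t ∧ y ∈ t := fun h => pair_parts h
  have pt' : ∀ {x y}, ZFSet.pair x y ∈ t → x ∈ t' ∧ y ∈ t' := fun h => pair_parts h
  match i, h with
  | 0, h =>
    apply g1; apply h1
    rw [hs, ZFSet.mem_union]
    exact Or.inl (ZFSet.mem_pair.2 h)
  | 1, h =>
    obtain ⟨x, y, hx, hy, hw⟩ := h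
    rw [isOp_iff.1 hw]
    exact g2 x y (h1 _ (ha _ hx)) (h1 _ (hb _ hy))
  | 2, h => exact g1 _ (h1 _ (ha _ h.1))
  | 3, h =>
    obtain ⟨x, p, hp, hw⟩ := h
    rw [isOp_iff.1 hw] at hp
    exact g1 _ (h2 _ (pt (ha _ hp)).2)
  | 4, h =>
    obtain ⟨x, y, hx, hy, _, hw⟩ := h
    rw [isOp_iff.1 hw]
    exact g2 x y (h1 _ (ha _ hx)) (h1 _ (ha _ hy))
  | 5, h =>
    obtain ⟨x, y, hx, hy, _, hw⟩ := h
    rw [isOp_iff.1 hw]
    exact g2 x y (h1 _ (ha _ hx)) (h1 _ (ha _ hy))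
  | 6, h =>
    obtain ⟨x, hx, hw⟩ := h
    rw [isOp_iff.1 hw]
    exact g2 x x (h1 _ (ha _ hx)) (h1 _ (ha _ hx))
  | 7, h =>
    obtain ⟨x, y, z, p, q, hp, hpq, hq, hw⟩ := h
    rw [isOp_iff.1 hpq] at hp
    obtain ⟨hq', hz⟩ := pt (ha _ hp)
    rw [isOp_iff.1 hq] at hq'
    obtain ⟨hx, hy⟩ := pt' hq'
    rw [isTr_iff.1 hw]
    exact g3 x y z (h3 _ hx) (h3 _ hy) (h2 _ hz)
  | 8, h =>
    obtain ⟨x, y, z, p, hp, hpq, hw⟩ := h
    rw [isTr_iff.1 hpq] at hp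
    obtain ⟨hy, hxz⟩ := pt (ha _ hp)
    obtain ⟨hx, hz⟩ := pt' hxz
    rw [isTr_iff.1 hw]
    exact g3 x y z (h3 _ hx) (h2 _ hy) (h3 _ hz)
  | 9, h =>
    obtain ⟨p, hp, hpw⟩ := h
    rw [isOp_iff.1 hpw] at hp
    exact g1 _ (h2 _ (pt (ha _ hp)).1)
  | n+10, h => exact h.elim

theorem mem_G {i : ℕ} {w a b : ZFSet.{u}} : w ∈ G i a b ↔ Th (· ∈ ·) i w a b := by
  unfold G
  rw [ZFSet.mem_sep]
  exact ⟨fun h => h.2, fun h => ⟨mem_bnd h, h⟩⟩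

theorem G_spec (i : ℕ) (a b : ZFSet.{u}) : IsG (· ∈ ·) i (G i a b) a b := fun _ => mem_G

theorem isG_iff {i : ℕ} {c a b : ZFSet.{u}} : IsG (· ∈ ·) i c a b ↔ c = G i a b := by
  constructor
  · intro h
    ext w
    rw [mem_G]
    exact h w
  · rintro rfl
    exact G_spec i a b

theorem mem_stp {x k : ZFSet.{u}} : x ∈ stp k ↔ StepMem (· ∈ ·) x k := by
  unfold stp StepMem
  dsimp only
  rw [ZFSet.mem_union, ZFSet.mem_insert_iff, ZFSet.mem_range]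
  constructor
  · rintro ((h | h) | ⟨t, ht⟩)
    · exact Or.inr (Or.inl h)
    · exact Or.inl h
    · refine Or.inr (Or.inr ?_)
      set q := (equivShrink.{u} (Fin 10 × {x // x ∈ insert k k} × {x // x ∈ insert k k})).symm t
      refine ⟨q.1, q.1.2, q.2.1.1, q.2.2.1, ?_, ?_, isG_iff.2 ht.symm⟩
      · have := q.2.1.2
        rw [ZFSet.mem_insert_iff] at this
        exact this.symm
      · have := q.2.2.2
        rw [ZFSet.mem_insert_iff] at this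
        exact this.symm
  · rintro (h | h | ⟨i, hi, a, b, ha, hb, hg⟩)
    · exact Or.inl (Or.inr h)
    · exact Or.inl (Or.inl h)
    · refine Or.inr ⟨equivShrink.{u} (Fin 10 × {x // x ∈ insert k k} × {x // x ∈ insert k k})
        (⟨i, hi⟩, ⟨a, ZFSet.mem_insert_iff.2 ha.symm⟩, ⟨b, ZFSet.mem_insert_iff.2 hb.symm⟩), ?_⟩
      rw [Equiv.symm_apply_apply]
      exact (isG_iff.1 hg).symm

theorem mem_K {x : ZFSet.{u}} {α : Ordinal.{u}} : x ∈ K α ↔ ∃ β < α, x ∈ stp (K β) := by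
  rw [K, ZFSet.mem_sUnion]
  constructor
  · rintro ⟨z, hz, hx⟩
    obtain ⟨β, rfl⟩ := ZFSet.mem_range.1 hz
    exact ⟨β.1, β.2, hx⟩
  · rintro ⟨β, hβ, hx⟩
    exact ⟨_, ZFSet.mem_range.2 ⟨⟨β, hβ⟩, rfl⟩, hx⟩

theorem K_sub {α β : Ordinal.{u}} (h : α ≤ β) : K α ⊆ K β := by
  intro x hx
  obtain ⟨γ, hγ, hx⟩ := mem_K.1 hx
  exact mem_K.2 ⟨γ, hγ.trans_le h, hx⟩

theorem mem_stp_self (k : ZFSet.{u}) : k ∈ stp k := mem_stp.2 (Or.inr (Or.inl rfl))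

theorem sub_stp (k : ZFSet.{u}) : k ⊆ stp k := fun _ hx => mem_stp.2 (Or.inl hx)

theorem K_mem {α β : Ordinal.{u}} (h : α < β) : K α ∈ K β := mem_K.2 ⟨α, h, mem_stp_self _⟩

theorem K_succ (α : Ordinal.{u}) : K (Order.succ α) = stp (K α) := by
  ext x
  rw [mem_K]
  constructor
  · rintro ⟨β, hβ, hx⟩
    rcases (Order.lt_succ_iff.1 hβ).lt_or_eq with h | h
    · refine sub_stp _ (mem_K.2 ⟨β, h, hx⟩)
    · rw [← h]; exact hx
  · intro hx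
    exact ⟨α, Order.lt_succ α, hx⟩

theorem K_lim {γ : Ordinal.{u}} (h : Lim γ) {x : ZFSet.{u}} : x ∈ K γ ↔ ∃ β < γ, x ∈ K β := by
  constructor
  · intro hx
    obtain ⟨β, hβ, hx⟩ := mem_K.1 hx
    exact ⟨Order.succ β, h.2 β hβ, by rw [K_succ]; exact hx⟩
  · rintro ⟨β, hβ, hx⟩
    exact K_sub hβ.le hx

theorem G_mem {i : ℕ} (hi : i < 10) {α : Ordinal.{u}} {a b : ZFSet.{u}} (ha : a ∈ K α)
    (hb : b ∈ K α) : G i a b ∈ K (Order.succ α) := by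
  rw [K_succ]
  exact mem_stp.2 (Or.inr (Or.inr ⟨i, hi, a, b, Or.inl ha, Or.inl hb, isG_iff.2 rfl⟩))

theorem G_mem_lim {i : ℕ} (hi : i < 10) {γ : Ordinal.{u}} (hγ : Lim γ) {a b : ZFSet.{u}}
    (ha : a ∈ K γ) (hb : b ∈ K γ) : G i a b ∈ K γ := by
  obtain ⟨β, hβ, ha⟩ := (K_lim hγ).1 ha
  obtain ⟨β', hβ', hb⟩ := (K_lim hγ).1 hb
  refine (K_lim hγ).2 ⟨Order.succ (max β β'), hγ.2 _ (max_lt hβ hβ'), ?_⟩
  exact G_mem hi (K_sub (le_max_left _ _) ha) (K_sub (le_max_right _ _) hb)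

theorem G_zero (a b : ZFSet.{u}) : G 0 a b = {a, b} := by
  ext w
  rw [mem_G, ZFSet.mem_pair]
  exact Iff.rfl

theorem upair_mem_lim {γ : Ordinal.{u}} (hγ : Lim γ) {a b : ZFSet.{u}} (ha : a ∈ K γ)
    (hb : b ∈ K γ) : ({a, b} : ZFSet.{u}) ∈ K γ := by
  rw [← G_zero]; exact G_mem_lim (by norm_num) hγ ha hb

theorem pair_mem_lim {γ : Ordinal.{u}} (hγ : Lim γ) {a b : ZFSet.{u}} (ha : a ∈ K γ)
    (hb : b ∈ K γ) : ZFSet.pair a b ∈ K γ := by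
  rw [ZFSet.pair]
  refine upair_mem_lim hγ ?_ (upair_mem_lim hγ ha hb)
  rw [← ZFSet.pair_eq_singleton]
  exact upair_mem_lim hγ ha ha

/-- a class which is transitive and closed under unordered pairs contains the members of the values of
the Gödel operations -/
theorem Th_closed {H : Set ZFSet.{u}} (ht : ∀ x ∈ H, ∀ y ∈ x, y ∈ H)
    (hp : ∀ x ∈ H, ∀ y ∈ H, ({x, y} : ZFSet.{u}) ∈ H) {i : ℕ} {w a b : ZFSet.{u}}
    (ha : a ∈ H) (hb : b ∈ H) (h : Th (· ∈ ·) i w a b) : w ∈ H := by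
  have hpr : ∀ x ∈ H, ∀ y ∈ H, ZFSet.pair x y ∈ H := fun x hx y hy => by
    rw [ZFSet.pair, ← ZFSet.pair_eq_singleton]
    exact hp _ (hp _ hx _ hx) _ (hp _ hx _ hy)
  have hpt : ∀ {x y}, ZFSet.pair x y ∈ H → x ∈ H ∧ y ∈ H := by
    intro x y hxy
    have h1 : ({x, y} : ZFSet.{u}) ∈ H := ht _ hxy _ (by rw [ZFSet.pair, ZFSet.mem_pair]; exact Or.inr rfl)
    exact ⟨ht _ h1 _ (ZFSet.mem_pair.2 (Or.inl rfl)), ht _ h1 _ (ZFSet.mem_pair.2 (Or.inr rfl))⟩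
  match i, h with
  | 0, h =>
    rcases h with h | h
    · rw [h]; exact ha
    · rw [h]; exact hb
  | 1, h =>
    obtain ⟨x, y, hx, hy, hw⟩ := h
    rw [isOp_iff.1 hw]
    exact hpr x (ht _ ha _ hx) y (ht _ hb _ hy)
  | 2, h => exact ht _ ha _ h.1
  | 3, h =>
    obtain ⟨x, p, hpa, hw⟩ := h
    rw [isOp_iff.1 hw] at hpa
    exact (hpt (ht _ ha _ hpa)).2
  | 4, h =>
    obtain ⟨x, y, hx, hy, _, hw⟩ := h
    rw [isOp_iff.1 hw]
    exact hpr x (ht _ ha _ hx) y (ht _ ha _ hy)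
  | 5, h =>
    obtain ⟨x, y, hx, hy, _, hw⟩ := h
    rw [isOp_iff.1 hw]
    exact hpr x (ht _ ha _ hx) y (ht _ ha _ hy)
  | 6, h =>
    obtain ⟨x, hx, hw⟩ := h
    rw [isOp_iff.1 hw]
    exact hpr x (ht _ ha _ hx) x (ht _ ha _ hx)
  | 7, h =>
    obtain ⟨x, y, z, p, q, hpa, hpq, hq, hw⟩ := h
    rw [isOp_iff.1 hpq] at hpa
    obtain ⟨hq', hz⟩ := hpt (ht _ ha _ hpa)
    rw [isOp_iff.1 hq] at hq'
    obtain ⟨hx, hy⟩ := hpt hq'
    rw [isTr_iff.1 hw]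
    exact hpr x hx _ (hpr y hy z hz)
  | 8, h =>
    obtain ⟨x, y, z, p, hpa, hpq, hw⟩ := h
    rw [isTr_iff.1 hpq] at hpa
    obtain ⟨hy, hxz⟩ := hpt (ht _ ha _ hpa)
    obtain ⟨hx, hz⟩ := hpt hxz
    rw [isTr_iff.1 hw]
    exact hpr x hx _ (hpr y hy z hz)
  | 9, h =>
    obtain ⟨p, hpa, hpw⟩ := h
    rw [isOp_iff.1 hpw] at hpa
    exact (hpt (ht _ ha _ hpa)).1
  | n+10, h => exact h.elim

/-- limit levels are transitive -/
theorem K_trans {γ : Ordinal.{u}} (hγ : Lim γ) {x y : ZFSet.{u}} (hx : x ∈ K γ) (hy : y ∈ x) :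
    y ∈ K γ := by
  let H : Set ZFSet.{u} := {x | ∃ t : ZFSet.{u}, (∀ x ∈ t, ∀ y ∈ x, y ∈ t) ∧ t ⊆ K γ ∧ x ∈ t}
  have hHK : ∀ x ∈ H, x ∈ K γ := fun x ⟨t, _, h2, h3⟩ => h2 h3
  have ht : ∀ x ∈ H, ∀ y ∈ x, y ∈ H := fun x ⟨t, h1, h2, h3⟩ y hy => ⟨t, h1, h2, h1 x h3 y hy⟩
  have hins : ∀ x ∈ K γ, (∀ y ∈ x, y ∈ H) → x ∈ H := by
    intro x hx hxH
    refine ⟨insert x (ZFSet.sep (· ∈ H) (K γ)), ?_, ?_, ZFSet.mem_insert_iff.2 (Or.inl rfl)⟩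
    · intro z hz y hy
      rw [ZFSet.mem_insert_iff] at hz ⊢
      refine Or.inr (ZFSet.mem_sep.2 ?_)
      rcases hz with rfl | hz
      · exact ⟨hHK _ (hxH y hy), hxH y hy⟩
      · have := ht z (ZFSet.mem_sep.1 hz).2 y hy
        exact ⟨hHK _ this, this⟩
    · intro z hz
      rw [ZFSet.mem_insert_iff] at hz
      rcases hz with rfl | hz
      · exact hx
      · exact (ZFSet.mem_sep.1 hz).1
  have hp : ∀ x ∈ H, ∀ y ∈ H, ({x, y} : ZFSet.{u}) ∈ H := by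
    intro x hx y hy
    refine hins _ (upair_mem_lim hγ (hHK _ hx) (hHK _ hy)) fun z hz => ?_
    rcases ZFSet.mem_pair.1 hz with rfl | rfl
    · exact hx
    · exact hy
  have key : ∀ β, β < γ → ∀ x ∈ K β, x ∈ H := by
    intro β
    induction β using WellFoundedLT.induction with
    | ind β ih =>
    intro hβ x hx
    have hxγ : x ∈ K γ := K_sub hβ.le hx
    obtain ⟨β', hβ', hx⟩ := mem_K.1 hx
    have hK : ∀ y ∈ K β', y ∈ H := ih β' hβ' (hβ'.trans hβ)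
    have hK' : K β' ∈ H := hins _ (K_mem (hβ'.trans hβ)) hK
    rcases mem_stp.1 hx with h | h | ⟨i, hi, a, b, ha, hb, hg⟩
    · exact hK x h
    · rw [h]; exact hK'
    · have ha' : a ∈ H := by
        rcases ha with h | h
        · exact hK a h
        · rw [h]; exact hK'
      have hb' : b ∈ H := by
        rcases hb with h | h
        · exact hK b h
        · rw [h]; exact hK'
      exact hins x hxγ fun w hw => Th_closed ht hp ha' hb' ((hg w).1 hw)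
  obtain ⟨β, hβ, hx⟩ := (K_lim hγ).1 hx
  exact hHK _ (ht x (key β hβ x hx) y hy)

/-- a limit ordinal above -/
theorem exists_lim (α : Ordinal.{u}) : ∃ γ, α < γ ∧ Lim γ := by
  refine ⟨α + ω, lt_add_of_pos_right α omega0_pos, ?_, ?_⟩
  · exact lt_of_lt_of_le omega0_pos le_add_self
  · intro β hβ
    exact (isSuccLimit_add α isSuccLimit_omega0).succ_lt hβ

theorem IsL.trans {x y : ZFSet.{u}} (hx : IsL x) (hy : y ∈ x) : IsL y := by
  obtain ⟨α, hα⟩ := hx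
  obtain ⟨γ, hγ, hl⟩ := exists_lim α
  exact ⟨γ, K_trans hl (K_sub hγ.le hα) hy⟩

theorem isL_K (α : Ordinal.{u}) : IsL (K α) := ⟨Order.succ α, K_mem (Order.lt_succ α)⟩

theorem isL_G {i : ℕ} (hi : i < 10) {a b : ZFSet.{u}} (ha : IsL a) (hb : IsL b) :
    IsL (G i a b) := by
  obtain ⟨α, hα⟩ := ha
  obtain ⟨β, hβ⟩ := hb
  exact ⟨_, G_mem hi (K_sub (le_max_left α β) hα) (K_sub (le_max_right α β) hβ)⟩

theorem isL_upair {a b : ZFSet.{u}} (ha : IsL a) (hb : IsL b) : IsL ({a, b} : ZFSet.{u}) := by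
  rw [← G_zero]; exact isL_G (by norm_num) ha hb

theorem isL_pair {a b : ZFSet.{u}} (ha : IsL a) (hb : IsL b) : IsL (ZFSet.pair a b) := by
  rw [ZFSet.pair, ← ZFSet.pair_eq_singleton]
  exact isL_upair (isL_upair ha ha) (isL_upair ha hb)

/-- a family of constructible sets indexed by a set is contained in one level -/
theorem exists_level {I : Type v} [Small.{u} I] (f : I → ZFSet.{u}) (hf : ∀ i, IsL (f i)) :
    ∃ α, Lim α ∧ ∀ i, f i ∈ K α := by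
  choose g hg using hf
  let s : Shrink.{u} I → Ordinal.{u} := fun i => g ((equivShrink I).symm i)
  obtain ⟨γ, hγ, hl⟩ := exists_lim (⨆ i, s i)
  refine ⟨γ, hl, fun i => ?_⟩
  refine K_sub ?_ (hg i)
  have : s (equivShrink I i) ≤ ⨆ i, s i := Ordinal.le_iSup s _
  refine le_trans ?_ (this.trans hγ.le)
  show g i ≤ g ((equivShrink I).symm (equivShrink I i))
  rw [Equiv.symm_apply_apply]

end Pool.Agent.DQ1
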