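import Pool.Agent.DQ1.Coll
import Pool.Agent.DQ1.KBase
import Pool.Agent.DQ1.HullDefs
import Pool.Agent.DQ1.Force

/-! # Countable hulls in the constructible universe -/

namespace Pool.Agent.DQ1

open Cardinal Ordinal

universe u v w

/-! ## Countable levels -/

theorem countable_Iio_of_lt_om {ξ : Ordinal.{u}} (h : ξ < om) : (Set.Iio ξ).Countable := by
  have h1 : ξ.card ≤ ℵ₀ := Cardinal.lt_aleph_one_iff.1 (Cardinal.lt_ord.1 h)
  rw [← Cardinal.le_aleph0_iff_set_countable, Cardinal.mk_Iio_ordinal, ← lift_aleph0.{u + 1, u},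
    Cardinal.lift_le]
  exact h1

theorem lt_om_of_countable {ξ : Ordinal.{u}} (h : (Set.Iio ξ).Countable) : ξ < om := by
  have h1 : ξ.card ≤ ℵ₀ := by
    rw [← Cardinal.le_aleph0_iff_set_countable, Cardinal.mk_Iio_ordinal, ← lift_aleph0.{u + 1, u},
      Cardinal.lift_le] at h
    exact h
  exact Cardinal.lt_ord.2 (Cardinal.lt_aleph_one_iff.2 h1)

theorem mem_stp' {x k : ZFSet.{u}} : x ∈ stp k ↔ x ∈ k ∨ x = k ∨ ∃ i < 10, ∃ a b,
    (a ∈ k ∨ a = k) ∧ (b ∈ k ∨ b = k) ∧ x = G i a b := by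
  rw [mem_stp]
  simp only [StepMem, isG_iff]

theorem countable_stp {k : ZFSet.{u}} (h : (SetLike.coe k).Countable) :
    (SetLike.coe (stp k)).Countable := by
  have h1 : (insert k (SetLike.coe k)).Countable := h.insert k
  have h2 : SetLike.coe (stp k) ⊆ insert k (SetLike.coe k) ∪
      ⋃ i : ℕ, Set.image2 (G i) (insert k (SetLike.coe k)) (insert k (SetLike.coe k)) := by
    intro x hx
    rcases mem_stp'.1 hx with h | h | ⟨i, _, a, b, ha, hb, h⟩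
    · exact Or.inl (Or.inr h)
    · exact Or.inl (Or.inl h)
    · refine Or.inr (Set.mem_iUnion.2 ⟨i, a, ?_, b, ?_, h.symm⟩)
      · rcases ha with h | h
        · exact Or.inr h
        · exact Or.inl h
      · rcases hb with h | h
        · exact Or.inr h
        · exact Or.inl h
  exact (h1.union (Set.countable_iUnion fun i => h1.image2 h1 _)).mono h2

theorem countable_K {ξ : Ordinal.{u}} (hξ : ξ < om) : (SetLike.coe (K ξ)).Countable := by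
  induction ξ using WellFoundedLT.induction with
  | ind ξ ih =>
    have h1 : SetLike.coe (K ξ) ⊆ ⋃ β ∈ Set.Iio ξ, SetLike.coe (stp (K β)) := by
      intro x hx
      obtain ⟨b, hb, h⟩ := mem_K.1 hx
      exact Set.mem_iUnion₂.2 ⟨b, hb, h⟩
    refine Set.Countable.mono h1 ((countable_Iio_of_lt_om hξ).biUnion fun β hβ => ?_)
    exact countable_stp (ih β hβ (lt_trans hβ hξ))

/-! ## Skolem hulls -/

theorem exists_skolem {ι : Type w} [Countable ι] (R : ι → List ZFSet.{u} → ZFSet.{u} → Prop)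
    (S0 : Set ZFSet.{u}) (h0 : S0.Countable) (hL : ∀ x ∈ S0, IsL x) :
    ∃ X : Set ZFSet.{u}, X.Countable ∧ S0 ⊆ X ∧ (∀ x ∈ X, IsL x) ∧
      ∀ i l, (∀ x ∈ l, x ∈ X) → (∃ z, IsL z ∧ R i l z) → ∃ z ∈ X, R i l z := by
  classical
  let F : ι → List ZFSet.{u} → ZFSet.{u} := fun i l =>
    if h : ∃ z, IsL z ∧ R i l z then h.choose else ∅
  obtain ⟨S, hSc, hS0, hS⟩ := exists_closed F S0 h0
  refine ⟨{x | x ∈ S ∧ IsL x}, hSc.mono fun x hx => hx.1, fun x hx => ⟨hS0 hx, hL x hx⟩,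
    fun x hx => hx.2, fun i l hl h => ?_⟩
  refine ⟨h.choose, ⟨?_, h.choose_spec.1⟩, h.choose_spec.2⟩
  have := hS i l fun x hx => (hl x hx).1
  simp only [F, dif_pos h] at this
  exact this

open Classical in
/-- an enumeration of a countable set -/
noncomputable def enm (x : ZFSet.{u}) : ℕ → ZFSet.{u} :=
  if h : ∃ f : ℕ → ZFSet.{u}, SetLike.coe x ⊆ Set.range f then h.choose else fun _ => ∅

theorem enm_spec {x y : ZFSet.{u}} (h : (SetLike.coe x).Countable) (hy : y ∈ x) :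
    ∃ n, enm x n = y := by
  have hne : (SetLike.coe x).Nonempty := ⟨y, hy⟩
  obtain ⟨f, hf⟩ := h.exists_eq_range hne
  have h1 : ∃ f : ℕ → ZFSet.{u}, SetLike.coe x ⊆ Set.range f := ⟨f, hf.subset⟩
  have h2 := h1.choose_spec
  have h3 : y ∈ Set.range h1.choose := h2 hy
  obtain ⟨n, hn⟩ := h3
  refine ⟨n, ?_⟩
  simp only [enm, dif_pos h1]
  exact hn

/-- the relations for which the hull contains witnesses -/
def HRel : ℕ ⊕ ℕ → List ZFSet.{u} → ZFSet.{u} → Prop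
  | .inl 0, [x], z => z = K (sInf {ξ | x ∈ K ξ})
  | .inl 1, [x], z => z = K (sInf {ζ | x ∈ stp (K ζ)})
  | .inl 2, [x, k], z => ∃ i < 10, ∃ b, (z ∈ k ∨ z = k) ∧ (b ∈ k ∨ b = k) ∧ x = G i z b
  | .inl 3, [x, k, a], z => ∃ i < 10, (z ∈ k ∨ z = k) ∧ x = G i a z
  | .inl 4, [x, y], z => ¬ (z ∈ x ↔ z ∈ y)
  | .inl 5, [x], z => ∃ b, x = ZFSet.pair z b
  | .inl 6, [x], z => ∃ a, x = ZFSet.pair a z
  | .inl 7, [a, w], z => z ∈ a ∧ ∃ x, z = ZFSet.pair x w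
  | .inl (n+8), [a, b], z => z = G n a b
  | .inr n, [x], z => z = enm x n
  | _, _, _ => False

/-- the closure properties of the hull -/
structure Cl (X : Set ZFSet.{u}) : Prop where
  constr : ∀ x ∈ X, IsL x
  c0 : ∀ x ∈ X, K (sInf {ξ | x ∈ K ξ}) ∈ X
  c1 : ∀ x ∈ X, K (sInf {ζ | x ∈ stp (K ζ)}) ∈ X
  c2 : ∀ x ∈ X, ∀ k ∈ X, (∃ i < 10, ∃ a b, (a ∈ k ∨ a = k) ∧ (b ∈ k ∨ b = k) ∧ x = G i a b) →
    ∃ i < 10, ∃ a ∈ X, ∃ b ∈ X, (a ∈ k ∨ a = k) ∧ (b ∈ k ∨ b = k) ∧ x = G i a b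
  c4 : ∀ x ∈ X, ∀ y ∈ X, (∀ z ∈ X, z ∈ x ↔ z ∈ y) → x = y
  c5 : ∀ a b, ZFSet.pair a b ∈ X → a ∈ X ∧ b ∈ X
  c7 : ∀ a ∈ X, ∀ w ∈ X, (∃ x, ZFSet.pair x w ∈ a) → ∃ x ∈ X, ZFSet.pair x w ∈ a
  c8 : ∀ i < 10, ∀ a ∈ X, ∀ b ∈ X, G i a b ∈ X
  c9 : ∀ x ∈ X, (SetLike.coe x).Countable → ∀ y ∈ x, y ∈ X

theorem IsL.left {a b : ZFSet.{u}} (h : IsL (ZFSet.pair a b)) : IsL a ∧ IsL b := by
  have h1 : IsL ({a, b} : ZFSet.{u}) :=
    h.trans (by rw [ZFSet.pair, ZFSet.mem_pair]; exact Or.inr rfl)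
  exact ⟨h1.trans (ZFSet.mem_pair.2 (Or.inl rfl)), h1.trans (ZFSet.mem_pair.2 (Or.inr rfl))⟩

theorem cl_of_skolem {X : Set ZFSet.{u}} (hL : ∀ x ∈ X, IsL x)
    (h : ∀ i l, (∀ x ∈ l, x ∈ X) → (∃ z, IsL z ∧ HRel i l z) → ∃ z ∈ X, HRel i l z) : Cl X := by
  have l1 : ∀ {x}, x ∈ X → ∀ y ∈ [x], y ∈ X := fun {x} hx y hy => by
    rw [List.mem_singleton] at hy; rw [hy]; exact hx
  have l2 : ∀ {x y}, x ∈ X → y ∈ X → ∀ z ∈ [x, y], z ∈ X := fun {x y} hx hy z hz => by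
    rcases List.mem_cons.1 hz with h | h
    · rw [h]; exact hx
    · rw [List.mem_singleton] at h; rw [h]; exact hy
  have l3 : ∀ {x y z}, x ∈ X → y ∈ X → z ∈ X → ∀ t ∈ [x, y, z], t ∈ X :=
    fun {x y z} hx hy hz t ht => by
    rcases List.mem_cons.1 ht with h | h
    · rw [h]; exact hx
    · exact l2 hy hz t h
  refine ⟨hL, ?_, ?_, ?_, ?_, ?_, ?_, ?_, ?_⟩
  · intro x hx
    obtain ⟨z, hz, h1⟩ := h (.inl 0) [x] (l1 hx) ⟨_, isL_K _, rfl⟩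
    rw [show z = K (sInf {ξ | x ∈ K ξ}) from h1] at hz
    exact hz
  · intro x hx
    obtain ⟨z, hz, h1⟩ := h (.inl 1) [x] (l1 hx) ⟨_, isL_K _, rfl⟩
    rw [show z = K (sInf {ζ | x ∈ stp (K ζ)}) from h1] at hz
    exact hz
  · rintro x hx k hk ⟨i, hi, a, b, ha, hb, e⟩
    have hkL := hL k hk
    have hL' : ∀ y, (y ∈ k ∨ y = k) → IsL y := fun y hy => by
      rcases hy with h | h
      · exact hkL.trans h
      · rw [h]; exact hkL
    obtain ⟨a', ha', i', hi', b', h2, h3, h4⟩ :=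
      h (.inl 2) [x, k] (l2 hx hk) ⟨a, hL' a ha, i, hi, b, ha, hb, e⟩
    obtain ⟨b'', hb'', i'', hi'', h5, h6⟩ :=
      h (.inl 3) [x, k, a'] (l3 hx hk ha') ⟨b', hL' b' h3, i', hi', h3, h4⟩
    exact ⟨i'', hi'', a', ha', b'', hb'', h2, h5, h6⟩
  · intro x hx y hy hxy
    by_contra hne
    have h1 : ∃ z, ¬ (z ∈ x ↔ z ∈ y) := by
      by_contra h2
      push Not at h2
      exact hne (ZFSet.ext fun z => h2 z)
    obtain ⟨z, hz⟩ := h1
    have hzL : IsL z := by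
      by_cases h2 : z ∈ x
      · exact (hL x hx).trans h2
      · by_cases h3 : z ∈ y
        · exact (hL y hy).trans h3
        · exact absurd (iff_of_false h2 h3) hz
    obtain ⟨z', hz', h4⟩ := h (.inl 4) [x, y] (l2 hx hy) ⟨z, hzL, hz⟩
    exact h4 (hxy z' hz')
  · intro a b hab
    have hl := (hL _ hab).left
    obtain ⟨z, hz, b', h1⟩ := h (.inl 5) [ZFSet.pair a b] (l1 hab) ⟨a, hl.1, b, rfl⟩
    obtain ⟨z', hz', a', h2⟩ := h (.inl 6) [ZFSet.pair a b] (l1 hab) ⟨b, hl.2, a, rfl⟩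
    rw [ZFSet.pair_inj] at h1 h2
    rw [h1.1, h2.2]
    exact ⟨hz, hz'⟩
  · rintro a ha w hw ⟨x, hx⟩
    obtain ⟨z, hz, h1, x', h2⟩ := h (.inl 7) [a, w] (l2 ha hw) ⟨ZFSet.pair x w,
      (hL a ha).trans hx, hx, x, rfl⟩
    have hz' : ZFSet.pair x' w ∈ X := h2 ▸ hz
    have hl := (hL _ hz').left
    obtain ⟨t, ht, b', h3⟩ := h (.inl 5) [ZFSet.pair x' w] (l1 hz') ⟨x', hl.1, w, rfl⟩
    rw [ZFSet.pair_inj] at h3
    exact ⟨x', by rw [h3.1]; exact ht, h2 ▸ h1⟩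
  · intro i hi a ha b hb
    obtain ⟨z, hz, h1⟩ := h (.inl (i+8)) [a, b] (l2 ha hb)
      ⟨_, isL_G hi (hL a ha) (hL b hb), by simp only [HRel]⟩
    simp only [HRel] at h1
    rw [← h1]; exact hz
  · intro x hx hc y hy
    obtain ⟨n, hn⟩ := enm_spec hc hy
    obtain ⟨z, hz, h1⟩ := h (.inr n) [x] (l1 hx) ⟨y, (hL x hx).trans hy, hn.symm⟩
    rw [← hn, ← show z = enm x n from h1]; exact hz

/-! ## The structure `(X, ∈)` -/

section

variable {X : Set ZFSet.{u}} (hX : Cl X)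

/-- membership on `X` -/
def em (X : Set ZFSet.{u}) (a b : X) : Prop := a.1 ∈ b.1

include hX

theorem rel_isUp {c a b : X} : IsUp (em X) c a b ↔ c.1 = {a.1, b.1} := by
  constructor
  · intro h
    rw [← G_zero]
    refine hX.c4 _ c.2 _ (hX.c8 0 (by norm_num) _ a.2 _ b.2) fun z hz => ?_
    rw [G_zero, ZFSet.mem_pair]
    have := h ⟨z, hz⟩
    simp only [em, Subtype.ext_iff] at this
    exact this
  · intro h w
    simp only [em, Subtype.ext_iff]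
    rw [h, ZFSet.mem_pair]

theorem pair_mem {a b : ZFSet.{u}} (ha : a ∈ X) (hb : b ∈ X) : ZFSet.pair a b ∈ X := by
  have h1 : ∀ {a b : ZFSet.{u}}, a ∈ X → b ∈ X → ({a, b} : ZFSet.{u}) ∈ X := fun ha hb => by
    rw [← G_zero]; exact hX.c8 0 (by norm_num) _ ha _ hb
  rw [ZFSet.pair, ← ZFSet.pair_eq_singleton]
  exact h1 (h1 ha ha) (h1 ha hb)

theorem rel_isOp {p a b : X} : IsOp (em X) p a b ↔ p.1 = ZFSet.pair a.1 b.1 := by
  have h1 : ∀ {a b : ZFSet.{u}}, a ∈ X → b ∈ X → ({a, b} : ZFSet.{u}) ∈ X := fun ha hb => by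
    rw [← G_zero]; exact hX.c8 0 (by norm_num) _ ha _ hb
  unfold IsOp
  simp only [rel_isUp hX]
  constructor
  · rintro ⟨s, t, hs, ht, hp⟩
    rw [hp, hs, ht, ZFSet.pair, ZFSet.pair_eq_singleton]
  · intro h
    refine ⟨⟨{a.1, a.1}, h1 a.2 a.2⟩, ⟨{a.1, b.1}, h1 a.2 b.2⟩, rfl, rfl, ?_⟩
    show p.1 = {{a.1, a.1}, {a.1, b.1}}
    rw [h, ZFSet.pair, ZFSet.pair_eq_singleton]

theorem rel_isTr {p a b c : X} :
    IsTr (em X) p a b c ↔ p.1 = ZFSet.pair a.1 (ZFSet.pair b.1 c.1) := by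
  unfold IsTr
  simp only [rel_isOp hX]
  constructor
  · rintro ⟨q, hq, hp⟩
    rw [hp, hq]
  · intro h
    exact ⟨⟨_, pair_mem hX b.2 c.2⟩, rfl, h⟩

theorem rel_th {i : ℕ} (hi : i < 10) {w a b : X} :
    Th (em X) i w a b ↔ Th (· ∈ ·) i w.1 a.1 b.1 := by
  have hw : ∀ {x y : ZFSet.{u}}, w.1 = ZFSet.pair x y → x ∈ X ∧ y ∈ X := fun {x y} h =>
    hX.c5 x y (h ▸ w.2)
  interval_cases i
  · simp only [Th, Subtype.ext_iff]
  · simp only [Th, rel_isOp hX, isOp_iff, em]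
    constructor
    · rintro ⟨x, y, h1, h2, h3⟩
      exact ⟨x.1, y.1, h1, h2, h3⟩
    · rintro ⟨x, y, h1, h2, h3⟩
      exact ⟨⟨x, (hw h3).1⟩, ⟨y, (hw h3).2⟩, h1, h2, h3⟩
  · simp only [Th, em]
  · simp only [Th, rel_isOp hX, isOp_iff, em]
    constructor
    · rintro ⟨x, p, h1, h2⟩
      exact ⟨x.1, p.1, h1, h2⟩
    · rintro ⟨x, p, h1, h2⟩
      obtain ⟨x', hx', h3⟩ := hX.c7 _ a.2 _ w.2 ⟨x, h2 ▸ h1⟩
      exact ⟨⟨x', hx'⟩, ⟨_, pair_mem hX hx' w.2⟩, h3, rfl⟩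
  · simp only [Th, rel_isOp hX, isOp_iff, em]
    constructor
    · rintro ⟨x, y, h1, h2, h3, h4⟩
      exact ⟨x.1, y.1, h1, h2, h3, h4⟩
    · rintro ⟨x, y, h1, h2, h3, h4⟩
      exact ⟨⟨x, (hw h4).1⟩, ⟨y, (hw h4).2⟩, h1, h2, h3, h4⟩
  · simp only [Th, rel_isOp hX, isOp_iff, em]
    constructor
    · rintro ⟨x, y, h1, h2, h3, h4⟩
      exact ⟨x.1, y.1, h1, h2, h3, h4⟩
    · rintro ⟨x, y, h1, h2, h3, h4⟩
      exact ⟨⟨x, (hw h4).1⟩, ⟨y, (hw h4).2⟩, h1, h2, h3, h4⟩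
  · simp only [Th, rel_isOp hX, isOp_iff, em]
    constructor
    · rintro ⟨x, h1, h2⟩
      exact ⟨x.1, h1, h2⟩
    · rintro ⟨x, h1, h2⟩
      exact ⟨⟨x, (hw h2).1⟩, h1, h2⟩
  · simp only [Th, rel_isOp hX, isOp_iff, rel_isTr hX, isTr_iff, em]
    constructor
    · rintro ⟨x, y, z, p, q, h1, h2, h3, h4⟩
      exact ⟨x.1, y.1, z.1, p.1, q.1, h1, h2, h3, h4⟩
    · rintro ⟨x, y, z, p, q, h1, h2, h3, h4⟩
      obtain ⟨g1, g2⟩ := hw h4
      obtain ⟨g3, g4⟩ := hX.c5 _ _ g2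
      have g5 : q ∈ X := h3 ▸ pair_mem hX g1 g3
      have g6 : p ∈ X := h2 ▸ pair_mem hX g5 g4
      exact ⟨⟨x, g1⟩, ⟨y, g3⟩, ⟨z, g4⟩, ⟨p, g6⟩, ⟨q, g5⟩, h1, h2, h3, h4⟩
  · simp only [Th, rel_isTr hX, isTr_iff, em]
    constructor
    · rintro ⟨x, y, z, p, h1, h2, h3⟩
      exact ⟨x.1, y.1, z.1, p.1, h1, h2, h3⟩
    · rintro ⟨x, y, z, p, h1, h2, h3⟩
      obtain ⟨g1, g2⟩ := hw h3
      obtain ⟨g3, g4⟩ := hX.c5 _ _ g2
      have g6 : p ∈ X := h2 ▸ pair_mem hX g3 (pair_mem hX g1 g4)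
      exact ⟨⟨x, g1⟩, ⟨y, g3⟩, ⟨z, g4⟩, ⟨p, g6⟩, h1, h2, h3⟩
  · simp only [Th, rel_isOp hX, isOp_iff, em]
    constructor
    · rintro ⟨p, h1, h2⟩
      exact ⟨p.1, h1, h2⟩
    · rintro ⟨p, h1, h2⟩
      exact ⟨⟨p, h2 ▸ pair_mem hX w.2 b.2⟩, h1, h2⟩

theorem rel_isG {i : ℕ} (hi : i < 10) {c a b : X} : IsG (em X) i c a b ↔ c.1 = G i a.1 b.1 := by
  constructor
  · intro h
    refine hX.c4 _ c.2 _ (hX.c8 i hi _ a.2 _ b.2) fun z hz => ?_
    rw [mem_G]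
    have := h ⟨z, hz⟩
    rw [rel_th hX hi] at this
    exact this
  · intro h w
    rw [rel_th hX hi, ← mem_G, ← h]
    rfl

theorem rel_step {x k : X} : StepMem (em X) x k ↔ x.1 ∈ stp k.1 := by
  rw [mem_stp']
  unfold StepMem
  constructor
  · rintro (h | h | ⟨i, hi, a, b, ha, hb, h⟩)
    · exact Or.inl h
    · exact Or.inr (Or.inl (congrArg _ h))
    · exact Or.inr (Or.inr ⟨i, hi, a.1, b.1, ha.imp id (congrArg _), hb.imp id (congrArg _),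
        (rel_isG hX hi).1 h⟩)
  · rintro (h | h | h)
    · exact Or.inl h
    · exact Or.inr (Or.inl (Subtype.ext h))
    · obtain ⟨i, hi, a, ha', b, hb', ha, hb, h⟩ := hX.c2 _ x.2 _ k.2 h
      exact Or.inr (Or.inr ⟨i, hi, ⟨a, ha'⟩, ⟨b, hb'⟩, ha.imp id Subtype.ext,
        hb.imp id Subtype.ext, (rel_isG hX hi).2 h⟩)

end

/-! ## The collapse of a countable hull -/

theorem K_inj {ξ ζ : Ordinal.{u}} (h : K ξ = K ζ) : ξ = ζ := by
  rcases lt_trichotomy ξ ζ with h1 | h1 | h1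
  · exact absurd (h ▸ K_mem h1) (ZFSet.mem_irrefl _)
  · exact h1
  · exact absurd (h ▸ K_mem h1) (ZFSet.mem_irrefl _)

theorem mem_toZFSet_imp {α : Ordinal.{u}} {x : ZFSet.{u}} (h : x ∈ α.toZFSet) :
    ∃ β < α, x = β.toZFSet := by
  obtain ⟨β, hβ, rfl⟩ := Ordinal.mem_toZFSet_iff.1 h
  exact ⟨β, hβ, rfl⟩

theorem countable_toZFSet {α : Ordinal.{u}} (h : α < om) :
    (SetLike.coe α.toZFSet).Countable := by
  rw [Ordinal.coe_toZFSet]
  exact (countable_Iio_of_lt_om h).image _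

/-- the rank function of a countable set of ordinals -/
theorem exists_rk {O : Set Ordinal.{u}} (hO : O.Countable) :
    ∃ ρ : O → Ordinal.{u}, Rk (fun a b : O => a.1 < b.1) ρ ∧ ∀ a, ρ a < om := by
  have hc : Countable O := hO.to_subtype
  let eq := equivShrink.{u} O
  let lt' : Shrink.{u} O → Shrink.{u} O → Prop := fun a b => (eq.symm a).1 < (eq.symm b).1
  have hwo : IsWellOrder (Shrink.{u} O) lt' :=
    RelEmbedding.isWellOrder (⟨⟨fun a => (eq.symm a).1, fun a b h =>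
      eq.symm.injective (Subtype.ext h)⟩, Iff.rfl⟩ :
        lt' ↪r ((· < ·) : Ordinal.{u} → Ordinal.{u} → Prop))
  refine ⟨fun a => Ordinal.typein lt' (eq a), ⟨fun a b => ?_, fun a α hα => ?_⟩, fun a => ?_⟩
  · rw [Ordinal.typein_lt_typein]
    show a.1 < b.1 ↔ (eq.symm (eq a)).1 < (eq.symm (eq b)).1
    rw [Equiv.symm_apply_apply, Equiv.symm_apply_apply]
  · obtain ⟨s, hs⟩ := Ordinal.typein_surj lt' (hα.trans (Ordinal.typein_lt_type lt' (eq a)))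
    exact ⟨eq.symm s, by rw [Equiv.apply_symm_apply]; exact hs⟩
  · refine (Ordinal.typein_lt_type lt' (eq a)).trans_le ?_
    have h1 : Ordinal.type lt' < om := by
      refine Cardinal.lt_ord.2 (Cardinal.lt_aleph_one_iff.2 ?_)
      rw [Ordinal.card_type]
      have : Countable (Shrink.{u} O) := Countable.of_equiv _ eq
      exact Cardinal.mk_le_aleph0
    exact h1.le

theorem hull_of_cl {X : Set ZFSet.{u}} (hX : Cl X) (hc : X.Countable) :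
    ∃ π ρ δ, Hull X π ρ δ := by
  classical
  have hcX : Countable X := hc.to_subtype
  -- the ordinals
  let O : Set Ordinal.{u} := {ξ | K ξ ∈ X}
  have hO : O.Countable := by
    exact hc.preimage_of_injOn (f := K) (fun a _ b _ h => K_inj h)
  obtain ⟨ρ0, hρ, hρom⟩ := exists_rk hO
  have hwf : WellFounded (em X) := InvImage.wf Subtype.val ZFSet.mem_wf
  have hext : ∀ x y : X, (∀ z, em X z x ↔ em X z y) → x = y := fun x y h =>
    Subtype.ext (hX.c4 _ x.2 _ y.2 fun z hz => h ⟨z, hz⟩)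
  let kk : O → X := fun ξ => ⟨K ξ.1, ξ.2⟩
  have h1 : ∀ x, ∃ ξ, em X x (kk ξ) := by
    intro x
    have hne : {ξ | x.1 ∈ K ξ}.Nonempty := hX.constr _ x.2
    exact ⟨⟨_, hX.c0 _ x.2⟩, csInf_mem hne⟩
  have h2 : ∀ x ξ, em X x (kk ξ) ↔ ∃ ζ : O, ζ.1 < ξ.1 ∧ StepMem (em X) x (kk ζ) := by
    intro x ξ
    simp only [rel_step hX]
    constructor
    · intro h
      obtain ⟨β, hβ, h3⟩ := mem_K.1 h
      have hne : {ζ | x.1 ∈ stp (K ζ)}.Nonempty := ⟨β, h3⟩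
      exact ⟨⟨_, hX.c1 _ x.2⟩, (csInf_le' (show β ∈ {ζ | x.1 ∈ stp (K ζ)} from h3)).trans_lt hβ,
        csInf_mem hne⟩
    · rintro ⟨ζ, hζ, h3⟩
      exact mem_K.2 ⟨ζ.1, hζ, h3⟩
  have h3 : ∀ i < 10, ∀ a b, ∃ c, IsG (em X) i c a b := fun i hi a b =>
    ⟨⟨_, hX.c8 i hi _ a.2 _ b.2⟩, (rel_isG hX hi).2 rfl⟩
  obtain ⟨π0, hinj, hmem, hK⟩ := collapse hwf hext hρ kk h1 h2 h3
  let π : ZFSet.{u} → ZFSet.{u} := fun x => if h : x ∈ X then π0 ⟨x, h⟩ else ∅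
  let ρ : Ordinal.{u} → Ordinal.{u} := fun ξ => if h : K ξ ∈ X then ρ0 ⟨ξ, h⟩ else 0
  have eπ : ∀ x (h : x ∈ X), π x = π0 ⟨x, h⟩ := fun x h => dif_pos h
  have eρ : ∀ ξ (h : K ξ ∈ X), ρ ξ = ρ0 ⟨ξ, h⟩ := fun ξ h => dif_pos h
  let δ : Ordinal.{u} := sInf {α | α.toZFSet ∉ X}
  have pinj : ∀ x ∈ X, ∀ y ∈ X, π x = π y → x = y := by
    intro x hx y hy h
    rw [eπ x hx, eπ y hy] at h
    exact congrArg Subtype.val (hinj h)
  have pmem : ∀ x ∈ X, ∀ z, z ∈ π x ↔ ∃ y ∈ X, y ∈ x ∧ π y = z := by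
    intro x hx z
    rw [eπ x hx, hmem]
    constructor
    · rintro ⟨y, hy, rfl⟩
      exact ⟨y.1, y.2, hy, eπ _ y.2⟩
    · rintro ⟨y, hy, hyx, rfl⟩
      exact ⟨⟨y, hy⟩, hyx, (eπ y hy).symm⟩
  have pid : ∀ t : Set ZFSet.{u}, t ⊆ X → (∀ x ∈ t, ∀ y ∈ x, y ∈ t) → ∀ x ∈ t, π x = x := by
    intro t htX ht x
    induction x using ZFSet.inductionOn with
    | _ x ih =>
    intro hx
    ext z
    rw [pmem x (htX hx)]
    constructor
    · rintro ⟨y, _, hyx, rfl⟩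
      rw [ih y hyx (ht x hx y hyx)]
      exact hyx
    · intro hz
      exact ⟨z, htX (ht x hx z hz), hz, ih z hz (ht x hx z hz)⟩
  have hδ : δ < om := by
    by_contra h
    rw [not_lt] at h
    have h4 : Set.Iio om ⊆ {α : Ordinal.{u} | α.toZFSet ∈ X} := by
      intro α hα
      by_contra h5
      exact absurd ((csInf_le' h5).trans_lt hα) (not_lt.2 h)
    have h5 : {α : Ordinal.{u} | α.toZFSet ∈ X}.Countable :=
      hc.preimage_of_injOn (f := Ordinal.toZFSet) Ordinal.toZFSet_injective.injOn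
    exact lt_irrefl _ (lt_om_of_countable (h5.mono h4))
  have hne : {α : Ordinal.{u} | α.toZFSet ∉ X}.Nonempty := by
    by_contra h
    rw [Set.not_nonempty_iff_eq_empty] at h
    have h4 : ∀ α : Ordinal.{u}, α.toZFSet ∈ X := fun α => by
      by_contra h5
      have : α ∈ {α : Ordinal.{u} | α.toZFSet ∉ X} := h5
      rw [h] at this
      exact this
    have h5 : (Set.Iio (om : Ordinal.{u})).Countable :=
      (hc.preimage_of_injOn (f := Ordinal.toZFSet) Ordinal.toZFSet_injective.injOn).mono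
        fun α _ => h4 α
    exact lt_irrefl _ (lt_om_of_countable h5)
  have hδn : δ.toZFSet ∉ X := csInf_mem hne
  have hdel : ∀ α < om, (α.toZFSet ∈ X ↔ α < δ) := by
    intro α hα
    constructor
    · intro h
      by_contra h4
      rw [not_lt] at h4
      rcases h4.eq_or_lt with h5 | h5
      · exact hδn (h5 ▸ h)
      · exact hδn (hX.c9 _ h (countable_toZFSet hα) _ (Ordinal.toZFSet_mem_toZFSet_iff.2 h5))
    · intro h
      by_contra h4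
      exact absurd h (not_lt.2 (csInf_le' h4))
  have pord : ∀ α < δ, π α.toZFSet = α.toZFSet := by
    intro α hα
    refine pid {x | ∃ β < δ, x = β.toZFSet} ?_ ?_ _ ⟨α, hα, rfl⟩
    · rintro x ⟨β, hβ, rfl⟩
      exact (hdel β (hβ.trans hδ)).2 hβ
    · rintro x ⟨β, hβ, rfl⟩ y hy
      obtain ⟨γ, hγ, rfl⟩ := mem_toZFSet_imp hy
      exact ⟨γ, hγ.trans hβ, rfl⟩
  refine ⟨π, ρ, δ, hc, hX.constr, hX.c9, hX.c0, hX.c8, pinj, pmem, pid, ?_, ?_, ?_, ?_, hδ, hdel,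
    pord, ?_⟩
  · intro ξ hξ
    rw [eπ _ hξ, eρ _ hξ]
    exact hK ⟨ξ, hξ⟩
  · intro ξ hξ
    rw [eρ _ hξ]
    exact hρom _
  · intro ξ ζ hξ hζ
    rw [eρ _ hξ, eρ _ hζ]
    exact (hρ.lt_iff ⟨ξ, hξ⟩ ⟨ζ, hζ⟩).symm
  · intro ξ hξ α hα
    rw [eρ _ hξ] at hα
    obtain ⟨ζ, hζ⟩ := hρ.init _ α hα
    refine ⟨ζ.1, ?_, ζ.2, by rw [eρ _ ζ.2]; exact hζ⟩
    have := (hρ.lt_iff ζ ⟨ξ, hξ⟩).2 (by rw [hζ]; exact hα)
    exact this
  · intro c hc' α hα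
    show α.toZFSet ∈ π c ↔ α.toZFSet ∈ c
    have hαX : α.toZFSet ∈ X := (hdel α (hα.trans hδ)).2 hα
    rw [pmem c hc']
    constructor
    · rintro ⟨y, hy, hyc, h4⟩
      rw [← pord α hα] at h4
      rw [← pinj y hy _ hαX h4]
      exact hyc
    · intro h
      exact ⟨_, hαX, h, pord α hα⟩

/-- the hull lemma -/
theorem exists_hull {ι : Type w} [Countable ι] (F : ι → List ZFSet.{u} → ZFSet.{u})
    (hF : ∀ i l, (∀ x ∈ l, IsL x) → IsL (F i l)) (S0 : Set ZFSet.{u}) (h0 : S0.Countable)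
    (hL : ∀ x ∈ S0, IsL x) :
    ∃ X π ρ δ, Hull X π ρ δ ∧ S0 ⊆ X ∧ ∀ i l, (∀ x ∈ l, x ∈ X) → F i l ∈ X := by
  let R : (ℕ ⊕ ℕ) ⊕ ι → List ZFSet.{u} → ZFSet.{u} → Prop := fun i l z =>
    match i with
    | .inl i => HRel i l z
    | .inr i => z = F i l
  obtain ⟨X, hc, hS, hXL, hR⟩ := exists_skolem R S0 h0 hL
  have hX : Cl X := cl_of_skolem hXL fun i l hl h => hR (.inl i) l hl h
  obtain ⟨π, ρ, δ, h⟩ := hull_of_cl hX hc
  refine ⟨X, π, ρ, δ, h, hS, fun i l hl => ?_⟩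
  obtain ⟨z, hz, h1⟩ := hR (.inr i) l hl ⟨_, hF i l fun x hx => hXL x (hl x hx), rfl⟩
  rw [← show z = F i l from h1]
  exact hz

theorem exists_lim_om {ξ : Ordinal.{u}} (h : ξ < om) : ∃ γ, ξ < γ ∧ γ < om ∧ Lim γ := by
  refine ⟨ξ + ω, lt_add_of_pos_right ξ omega0_pos, ?_, ?_, ?_⟩
  · apply lt_om_of_countable
    have h1 : Set.Iio (ξ + ω) ⊆ Set.Iio ξ ∪ Set.range fun n : ℕ => ξ + (n : Ordinal.{u}) := by
      intro α hα
      rcases lt_or_ge α ξ with h2 | h2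
      · exact Or.inl h2
      · obtain ⟨β, rfl⟩ := exists_add_of_le h2
        have : β < ω := (add_lt_add_iff_left ξ).1 hα
        obtain ⟨n, rfl⟩ := Ordinal.lt_omega0.1 this
        exact Or.inr ⟨n, rfl⟩
    exact ((countable_Iio_of_lt_om h).union (Set.countable_range _)).mono h1
  · exact lt_of_lt_of_le omega0_pos le_add_self
  · intro β hβ
    exact (isSuccLimit_add ξ isSuccLimit_omega0).succ_lt hβ

/-- constructible subsets of countable levels appear at countable levels -/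
theorem countable_mem_K {z : ZFSet.{u}} (hz : IsL z) {ξ : Ordinal.{u}} (hξ : ξ < om)
    (h : z ⊆ K ξ) : z ∈ K om := by
  obtain ⟨γ, h1, h2, h3⟩ := exists_lim_om hξ
  obtain ⟨X, π, ρ, δ, H, hS, -⟩ := exists_hull (ι := Empty) (fun i _ => i.elim)
    (fun i => i.elim) (insert z (SetLike.coe (K γ))) ((countable_K h2).insert z) (by
      intro x hx
      rcases hx with rfl | hx
      · exact hz
      · exact ⟨γ, hx⟩)
  have hzX : z ∈ X := hS (Or.inl rfl)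
  have h4 : π z = z := by
    refine H.ident (insert z (SetLike.coe (K γ))) hS ?_ z (Or.inl rfl)
    rintro x hx y hy
    rcases hx with rfl | hx
    · exact Or.inr (K_sub h1.le (h hy))
    · exact Or.inr (K_trans h3 hx hy)
  have h5 := H.level z hzX
  have h6 : z ∈ K (sInf {ξ | z ∈ K ξ}) := csInf_mem (s := {ξ | z ∈ K ξ}) hz
  have h7 : π z ∈ π (K (sInf {ξ | z ∈ K ξ})) := (H.mem _ h5 _).2 ⟨z, hzX, h6, rfl⟩
  rw [h4, H.pi_K _ h5] at h7
  exact K_sub (H.rho_lt _ h5).le h7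

end Pool.Agent.DQ1
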