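import Pool.Agent.DQ1.Gen1
import Pool.Agent.DQ1.Hull

/-! # The generic club: stationary sets and distributivity -/

namespace Pool.Agent.DQ1

open Cardinal Ordinal
open ZFM (Fm Sat Dfn DT IsZF)

universe u v w

/-! ### Countable ordinals -/

theorem bdd_om {ι : Type v} [Countable ι] (f : ι → Ordinal.{u}) (h : ∀ i, f i < om) :
    ∃ β < om, ∀ i, f i ≤ β := by
  by_contra hc
  push Not at hc
  have h1 : Set.Iio (om : Ordinal.{u}) ⊆ ⋃ i, Set.Iio (f i) := by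
    intro β hβ
    obtain ⟨i, hi⟩ := hc β hβ
    exact Set.mem_iUnion.2 ⟨i, hi⟩
  have h2 : (Set.Iio (om : Ordinal.{u})).Countable :=
    (Set.countable_iUnion fun i => countable_Iio_of_lt_om (h i)).mono h1
  exact lt_irrefl _ (lt_om_of_countable h2)

theorem bdd_om_set {S : Set Ordinal.{u}} (hS : S.Countable) (h : ∀ α ∈ S, α < om) :
    ∃ β < om, ∀ α ∈ S, α ≤ β := by
  have := hS.to_subtype
  obtain ⟨β, hβ, h1⟩ := bdd_om (fun a : S => a.1) fun a => h a.1 a.2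
  exact ⟨β, hβ, fun α hα => h1 ⟨α, hα⟩⟩

theorem countable_of_subset_om {S : Set Ordinal.{u}} {β : Ordinal.{u}} (hβ : β < om)
    (h : ∀ α ∈ S, α < β) : S.Countable := (countable_Iio_of_lt_om hβ).mono h

theorem lim_om : Lim (om : Ordinal.{u}) := by
  refine ⟨?_, fun α hα => ?_⟩
  · apply lt_om_of_countable
    have : Set.Iio (0 : Ordinal.{u}) = ∅ := by
      ext x
      simp
    rw [this]; exact Set.countable_empty
  · apply lt_om_of_countable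
    have : Set.Iio (Order.succ α) = insert α (Set.Iio α) := by
      ext x
      simp only [Set.mem_Iio, Set.mem_insert_iff, Order.lt_succ_iff]
      exact le_iff_eq_or_lt
    rw [this]
    exact (countable_Iio_of_lt_om hα).insert α

/-- closure points of a relation on countable ordinals -/
theorem club_closure (R : Ordinal.{u} → Ordinal.{u} → Prop)
    (hR : ∀ α < om, ∃ β < om, ∀ γ, β ≤ γ → R α γ) :
    ClubIn {δ | Lim δ ∧ ∀ α < δ, ∃ β < δ, ∀ γ, β ≤ γ → R α γ} om := by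
  constructor
  · intro α0 hα0
    have h1 : ∀ x : Set.Iio (om : Ordinal.{u}), ∃ y : Set.Iio (om : Ordinal.{u}), x.1 < y.1 ∧
        ∀ α ≤ x.1, ∃ β < y.1, ∀ γ, β ≤ γ → R α γ := by
      intro x
      have hc : Countable (Set.Iio (Order.succ x.1)) :=
        (countable_Iio_of_lt_om (lim_om.2 _ x.2)).to_subtype
      have h2 : ∀ a : Set.Iio (Order.succ x.1), ∃ β < om, ∀ γ, β ≤ γ → R a.1 γ := fun a =>
        hR a.1 (lt_of_lt_of_le a.2 (Order.succ_le_of_lt x.2))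
      choose g hg1 hg2 using h2
      obtain ⟨β, hβ, h3⟩ := bdd_om g hg1
      refine ⟨⟨Order.succ (max x.1 β), lim_om.2 _ (max_lt x.2 hβ)⟩, ?_, ?_⟩
      · exact Order.lt_succ_iff.2 (le_max_left _ _)
      · intro α hα
        refine ⟨g ⟨α, Order.lt_succ_iff.2 hα⟩, Order.lt_succ_iff.2 ((h3 _).trans (le_max_right _ _)),
          hg2 _⟩
    choose s hs1 hs2 using h1
    let f : ℕ → Set.Iio (om : Ordinal.{u}) := fun n => s^[n] ⟨Order.succ α0, lim_om.2 _ hα0⟩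
    have hf : ∀ n, f (n+1) = s (f n) := fun n => Function.iterate_succ_apply' s n _
    obtain ⟨β, hβ, hfβ⟩ := bdd_om (fun n => (f n).1) fun n => (f n).2
    let δ : Ordinal.{u} := sInf {δ | ∀ n, (f n).1 ≤ δ}
    have hδ : ∀ n, (f n).1 ≤ δ := csInf_mem (s := {δ | ∀ n, (f n).1 ≤ δ}) ⟨β, hfβ⟩
    have hδom : δ < om :=
      (csInf_le' (show β ∈ {δ | ∀ n, (f n).1 ≤ δ} from hfβ)).trans_lt hβ
    have hδlt : ∀ α < δ, ∃ n, α < (f n).1 := by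
      intro α hα
      by_contra hc
      push Not at hc
      exact absurd (csInf_le' (show α ∈ {δ | ∀ n, (f n).1 ≤ δ} from hc)) (not_le.2 hα)
    have hlt : ∀ n, (f n).1 < δ := fun n => by
      have := hδ (n+1)
      rw [hf] at this
      exact (hs1 (f n)).trans_le this
    refine ⟨δ, ⟨⟨bot_le.trans_lt (hlt 0), fun α hα => ?_⟩, fun α hα => ?_⟩, ?_, hδom⟩
    · obtain ⟨n, hn⟩ := hδlt α hα
      exact (Order.succ_le_of_lt hn).trans_lt (hlt n)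
    · obtain ⟨n, hn⟩ := hδlt α hα
      obtain ⟨β', hβ', h2⟩ := hs2 (f n) α hn.le
      refine ⟨β', hβ'.trans_le ?_, h2⟩
      have := hδ (n+1)
      rw [hf] at this
      exact this
    · exact (Order.lt_succ α0).trans_le (hδ 0)
  · intro l hl hl0 h
    refine ⟨⟨hl0, fun α hα => ?_⟩, fun α hα => ?_⟩
    · obtain ⟨β, _, h1, h2⟩ := h α hα
      exact (Order.succ_le_of_lt h1).trans_lt h2
    · obtain ⟨β, hβ, h1, h2⟩ := h α hα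
      obtain ⟨β', hβ', h3⟩ := hβ.2 α h1
      exact ⟨β', hβ'.trans h2, h3⟩

/-! ### Conditions at countable levels -/

theorem toZFSet_mem_K {α : Ordinal.{u}} (hα : α < om) : α.toZFSet ∈ K om := by
  induction α using WellFoundedLT.induction with
  | ind α ih =>
    have h1 : ∀ β : Set.Iio α, ∃ ξ < om, β.1.toZFSet ∈ K ξ := fun β =>
      (K_lim lim_om).1 (ih β.1 β.2 (lt_trans β.2 hα))
    choose g hg1 hg2 using h1
    have := (countable_Iio_of_lt_om hα).to_subtype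
    obtain ⟨ξ, hξ, h2⟩ := bdd_om g hg1
    refine countable_mem_K (isL_toZFSet α) hξ fun x hx => ?_
    obtain ⟨β, hβ, rfl⟩ := mem_toZFSet_imp hx
    exact K_sub (h2 ⟨β, hβ⟩) (hg2 _)

/-- `q` is small for `δ` -/
def Sm (δ : Ordinal.{u}) (q : Pc.{u}) : Prop := q.1.1 ∈ K δ ∧ ∀ α ∈ ords q.1.1, α < δ

theorem Sm.mono {δ δ' : Ordinal.{u}} (h : δ ≤ δ') {q : Pc.{u}} (hq : Sm δ q) : Sm δ' q :=
  ⟨K_sub h hq.1, fun α hα => (hq.2 α hα).trans_le h⟩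

theorem Pc.lt_om (q : Pc.{u}) : ∀ α ∈ ords q.1.1, α < om := by
  intro α hα
  obtain ⟨β, hβ, h⟩ := q.2.ord α.toZFSet hα
  rw [Ordinal.toZFSet_injective h]
  exact hβ

theorem exists_sm (q : Pc.{u}) : ∃ δ < om, Sm δ q := by
  obtain ⟨m, hm, hmax⟩ := q.2.max
  have hmo : m < om := q.lt_om m hm
  have h1 : ∃ ξ < om, q.1.1 ⊆ K ξ := by
    have h2 : ∀ β : Set.Iio (Order.succ m), ∃ ξ < om, β.1.toZFSet ∈ K ξ := fun β =>
      (K_lim lim_om).1 (toZFSet_mem_K (lt_trans β.2 (lim_om.2 _ hmo)))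
    choose g hg1 hg2 using h2
    have := (countable_Iio_of_lt_om (lim_om.2 _ hmo)).to_subtype
    obtain ⟨ξ, hξ, h2⟩ := bdd_om g hg1
    refine ⟨ξ, hξ, fun x hx => ?_⟩
    obtain ⟨α, _, rfl⟩ := q.2.ord x hx
    exact K_sub (h2 ⟨α, Order.lt_succ_iff.2 (hmax α hx)⟩) (hg2 _)
  obtain ⟨ξ, hξ, h1⟩ := h1
  obtain ⟨δ, hδ, h2⟩ := (K_lim lim_om).1 (countable_mem_K q.1.2 hξ h1)
  exact ⟨max δ (Order.succ m), max_lt hδ (lim_om.2 _ hmo), K_sub (le_max_left _ _) h2,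
    fun α hα => (Order.lt_succ_iff.2 (hmax α hα)).trans_le (le_max_right _ _)⟩

theorem countable_sm {δ : Ordinal.{u}} (hδ : δ < om) : {q : Pc.{u} | Sm δ q}.Countable := by
  have h1 : Set.InjOn (fun q : Pc.{u} => q.1.1) {q : Pc.{u} | Sm δ q} := fun a _ b _ h =>
    Subtype.ext (LL.ext h)
  refine Set.MapsTo.countable_of_injOn (t := SetLike.coe (K δ)) ?_ h1 (countable_K hδ)
  intro q hq
  exact hq.1

theorem Sm.lim {δ : Ordinal.{u}} (hl : Lim δ) {q : Pc.{u}} (h : Sm δ q) :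
    ∃ δ' < δ, Sm δ' q := by
  obtain ⟨m, hm, hmax⟩ := q.2.max
  obtain ⟨β, hβ, h1⟩ := (K_lim hl).1 h.1
  exact ⟨max β (Order.succ m), max_lt hβ (hl.2 _ (h.2 m hm)), K_sub (le_max_left _ _) h1,
    fun α hα => (Order.lt_succ_iff.2 (hmax α hα)).trans_le (le_max_right _ _)⟩

/-! ### Building conditions -/

theorem Pc.le_of {q p : Pc.{u}} (h1 : ∀ α ∈ ords p.1.1, α ∈ ords q.1.1)
    (h2 : ∀ α ∈ ords q.1.1, α ∉ ords p.1.1 → ∀ β ∈ ords p.1.1, β < α) : q ≤ p := by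
  refine ⟨fun x hx => ?_, h2⟩
  obtain ⟨α, _, rfl⟩ := p.2.ord x hx
  exact h1 α hx

theorem Pc.sub {q p : Pc.{u}} (h : q ≤ p) {α : Ordinal.{u}} (hα : α ∈ ords p.1.1) :
    α ∈ ords q.1.1 := h.1 (show α.toZFSet ∈ p.1.1 from hα)

theorem Pc.new {q p : Pc.{u}} (h : q ≤ p) {α β : Ordinal.{u}} (hα : α ∈ ords q.1.1)
    (hβ : β ∈ ords p.1.1) (hle : α ≤ β) : α ∈ ords p.1.1 := by
  by_contra hc
  exact absurd (h.2 α hα hc β hβ) (not_lt.2 hle)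

/-- a countable closed set with a new greatest element -/
theorem mk_cond (hN : NoNewSeq.{u}) {S : Set Ordinal.{u}} {δ : Ordinal.{u}} (hδ : δ < om)
    (hS : ∀ α ∈ S, α < δ)
    (hcl : ∀ l < δ, 0 < l → (∀ α < l, ∃ β ∈ S, α < β ∧ β < l) → l ∈ S)
    (hco : ∀ d ∈ S, ∀ γ < d, Lim γ → (fn d = γ → γ ∉ S) ∧ (fn d = Order.succ γ → γ ∈ S))
    (hcd : ∀ γ, Lim γ → (fn δ = γ → γ ∉ S) ∧ (fn δ = Order.succ γ → γ ∈ S)) :
    ∃ q : Pc.{u}, ords q.1.1 = insert δ S := by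
  let Q : ZFSet.{u} := ZFSet.sep (fun x => (∃ α ∈ S, x = α.toZFSet) ∨ x = δ.toZFSet)
    (Order.succ δ).toZFSet
  have hQo : ords Q = insert δ S := by
    ext α
    show α.toZFSet ∈ Q ↔ _
    rw [ZFSet.mem_sep]
    constructor
    · rintro ⟨_, ⟨β, hβ, h⟩ | h⟩
      · rw [Ordinal.toZFSet_injective h]; exact Or.inr hβ
      · rw [Ordinal.toZFSet_injective h]; exact Or.inl rfl
    · rintro (rfl | h)
      · exact ⟨Ordinal.toZFSet_mem_toZFSet_iff.2 (Order.lt_succ _), Or.inr rfl⟩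
      · exact ⟨Ordinal.toZFSet_mem_toZFSet_iff.2 ((hS α h).trans (Order.lt_succ _)),
          Or.inl ⟨α, h, rfl⟩⟩
  have hQs : ∀ x ∈ Q, ∃ α < Order.succ δ, x = α.toZFSet := fun x hx =>
    mem_toZFSet_imp (ZFSet.mem_sep.1 hx).1
  have hsδ : Order.succ δ < om := lim_om.2 _ hδ
  have hQL : IsL Q := by
    refine hN Q (fun y hy => ?_) ((countable_toZFSet hsδ).mono fun x hx => (ZFSet.mem_sep.1 hx).1)
    obtain ⟨α, _, rfl⟩ := hQs y hy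
    exact isL_toZFSet α
  have hmem : ∀ α, α ∈ ords Q ↔ α = δ ∨ α ∈ S := fun α => by rw [hQo]; rfl
  refine ⟨⟨⟨Q, hQL⟩, hQL, ?_, ⟨δ, (hmem δ).2 (Or.inl rfl), ?_⟩, ?_, ?_⟩, hQo⟩
  · intro x hx
    obtain ⟨α, hα, h⟩ := hQs x hx
    exact ⟨α, hα.trans hsδ, h⟩
  · intro α hα
    rcases (hmem α).1 hα with h | h
    · exact h.le
    · exact (hS α h).le
  · rintro l hl ⟨m, hm, hlm⟩ h
    have hlδ : l < δ := by
      rcases (hmem m).1 hm with h | h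
      · rw [← h]; exact hlm
      · exact hlm.trans (hS m h)
    refine (hmem l).2 (Or.inr (hcl l hlδ hl fun α hα => ?_))
    obtain ⟨β, hβ, h1, h2⟩ := h α hα
    rcases (hmem β).1 hβ with h3 | h3
    · exact absurd (h2.trans hlδ) (by rw [h3]; exact lt_irrefl _)
    · exact ⟨β, h3, h1, h2⟩
  · intro d hd γ hγ hlγ
    have hdδ : d ≤ δ := by
      rcases (hmem d).1 hd with h | h
      · exact h.le
      · exact (hS d h).le
    have hγδ : γ ≠ δ := (hγ.trans_le hdδ).ne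
    have key : γ ∈ ords Q ↔ γ ∈ S := by
      rw [hmem]
      exact ⟨fun h => h.resolve_left hγδ, Or.inr⟩
    rw [key]
    rcases (hmem d).1 hd with rfl | h
    · exact hcd γ hlγ
    · exact hco d h γ hγ hlγ

theorem lim_cond (hN : NoNewSeq.{u}) (c : ℕ → Pc.{u}) (hc : ∀ n, c (n+1) ≤ c n)
    {δ : Ordinal.{u}} (hδ : δ < om) (hlt : ∀ n, ∀ α ∈ ords (c n).1.1, α < δ)
    (hunb : ∀ α < δ, ∃ n, ∃ β ∈ ords (c n).1.1, α < β)
    (hcode : ∀ γ, Lim γ → (fn δ = γ → γ ∉ ords (c 0).1.1) ∧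
      (fn δ = Order.succ γ → γ ∈ ords (c 0).1.1))
    (hη : ∃ m ∈ ords (c 0).1.1, fn δ ≤ m) :
    ∃ q : Pc.{u}, (∀ n, q ≤ c n) ∧ δ ∈ ords q.1.1 := by
  have anti : ∀ m n, m ≤ n → c n ≤ c m := fun m n h => by
    induction n, h using Nat.le_induction with
    | base => exact le_rfl
    | succ n _ ih => exact (hc n).trans ih
  have stab : ∀ n n' α μ, α ∈ ords (c n').1.1 → μ ∈ ords (c n).1.1 → α ≤ μ →
      α ∈ ords (c n).1.1 := by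
    intro n n' α μ hα hμ h
    rcases le_total n n' with h1 | h1
    · exact Pc.new (anti n n' h1) hα hμ h
    · exact Pc.sub (anti n' n h1) hα
  obtain ⟨q, hq⟩ := mk_cond hN (S := {α | ∃ n, α ∈ ords (c n).1.1}) hδ
    (by rintro α ⟨n, hn⟩; exact hlt n α hn)
    (by
      intro l hl hl0 h
      obtain ⟨n, β, hβ, hlβ⟩ := hunb l hl
      refine ⟨n, (c n).2.closed l hl0 ⟨β, hβ, hlβ⟩ fun α hα => ?_⟩
      obtain ⟨β', ⟨n', hβ'⟩, h1, h2⟩ := h α hα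
      exact ⟨β', stab n n' β' β hβ' hβ (h2.trans hlβ).le, h1, h2⟩)
    (by
      rintro d ⟨n, hn⟩ γ hγ hl
      obtain ⟨h1, h2⟩ := (c n).2.code d hn γ hγ hl
      refine ⟨fun h => ?_, fun h => ⟨n, h2 h⟩⟩
      rintro ⟨n', hn'⟩
      exact h1 h (stab n n' γ d hn' hn hγ.le))
    (by
      intro γ hl
      obtain ⟨h1, h2⟩ := hcode γ hl
      refine ⟨fun h => ?_, fun h => ⟨0, h2 h⟩⟩
      rintro ⟨n', hn'⟩
      obtain ⟨m, hm, hle⟩ := hη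
      exact h1 h (stab 0 n' γ m hn' hm (h ▸ hle)))
  have hmem : ∀ α, α ∈ ords q.1.1 ↔ α = δ ∨ ∃ n, α ∈ ords (c n).1.1 := fun α => by
    rw [hq]; rfl
  refine ⟨q, fun n => Pc.le_of (fun α hα => (hmem α).2 (Or.inr ⟨n, hα⟩)) ?_,
    (hmem δ).2 (Or.inl rfl)⟩
  intro α hα hαn β hβ
  rcases (hmem α).1 hα with h | ⟨n', hn'⟩
  · rw [h]; exact hlt n β hβ
  · by_contra h
    exact hαn (stab n n' α β hn' hβ (not_lt.1 h))

theorem ext_point (hN : NoNewSeq.{u}) (q : Pc.{u}) {δ : Ordinal.{u}} (hδ : δ < om)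
    (h0 : fn δ = 0) (hlt : ∀ α ∈ ords q.1.1, α < δ) : ∃ q' ≤ q, δ ∈ ords q'.1.1 := by
  obtain ⟨m, hm, hmax⟩ := q.2.max
  obtain ⟨q', hq'⟩ := mk_cond hN (S := ords q.1.1) hδ hlt
    (by
      intro l hl hl0 h
      rcases lt_trichotomy l m with h1 | h1 | h1
      · exact q.2.closed l hl0 ⟨m, hm, h1⟩ h
      · rw [h1]; exact hm
      · obtain ⟨β, hβ, h2, _⟩ := h m h1
        exact absurd (hmax β hβ) (not_le.2 h2))
    (fun d hd γ hγ hl => q.2.code d hd γ hγ hl)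
    (by
      intro γ hl
      refine ⟨fun h => ?_, fun h => ?_⟩
      · rw [h0] at h
        exact absurd hl.1 (by rw [← h]; exact lt_irrefl _)
      · rw [h0] at h
        exact absurd (bot_le.trans_lt (Order.lt_succ γ)) (by rw [← h]; exact lt_irrefl _))
  have hmem : ∀ α, α ∈ ords q'.1.1 ↔ α = δ ∨ α ∈ ords q.1.1 := fun α => by
    rw [hq']; rfl
  refine ⟨q', Pc.le_of (fun α hα => (hmem α).2 (Or.inr hα)) ?_, (hmem δ).2 (Or.inl rfl)⟩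
  intro α hα hαn β hβ
  rcases (hmem α).1 hα with h | h
  · rw [h]; exact hlt β hβ
  · exact absurd h hαn

theorem exists_fn0 {α : Ordinal.{u}} (hα : α < om) : ∃ δ < om, α < δ ∧ fn δ = 0 := by
  obtain ⟨y, hy⟩ := LL_sep' (P := fun z => lo α ∈ z)
    (by apply_rules (maxDepth := 1000) [Dfn.mem, DT.var, DL.c]) (lo om)
  have hm : ∀ δ, δ ∈ ords y.1 ↔ δ < om ∧ α < δ := by
    intro δ
    have := hy (lo δ)
    rw [lo_mem_lo, lo_mem_lo] at this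
    exact this
  have hcl : ClubIn (ords y.1) om := by
    refine ⟨fun β hβ => ⟨Order.succ (max β α), (hm _).2 ⟨?_, ?_⟩, ?_, ?_⟩, ?_⟩
    · exact lim_om.2 _ (max_lt hβ hα)
    · exact Order.lt_succ_iff.2 (le_max_right _ _)
    · exact Order.lt_succ_iff.2 (le_max_left _ _)
    · exact lim_om.2 _ (max_lt hβ hα)
    · intro l hl hl0 h
      obtain ⟨β, hβ, _, h2⟩ := h 0 hl0
      exact (hm l).2 ⟨hl, ((hm β).1 hβ).2.trans h2⟩
  obtain ⟨δ, h1, h2, h3⟩ := fn_stat y.2 hcl (η := 0) lim_om.1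
  exact ⟨δ, h2, ((hm δ).1 h1).2, h3⟩

theorem exists_ext (hN : NoNewSeq.{u}) (q : Pc.{u}) {α : Ordinal.{u}} (hα : α < om) :
    ∃ q' ≤ q, ∃ m ∈ ords q'.1.1, α < m := by
  obtain ⟨m, hm, hmax⟩ := q.2.max
  obtain ⟨δ, h1, h2, h3⟩ := exists_fn0 (max_lt hα (q.lt_om m hm))
  obtain ⟨q', h4, h5⟩ := ext_point hN q h1 h3 fun β hβ =>
    (hmax β hβ).trans_lt ((le_max_right _ _).trans_lt h2)
  exact ⟨q', h4, δ, h5, (le_max_left _ _).trans_lt h2⟩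

/-! ### Games of countable length -/

theorem club_game {T : Type v} (Sml : Ordinal.{u} → T → Prop)
    (hmono : ∀ δ δ', δ ≤ δ' → ∀ t, Sml δ t → Sml δ' t)
    (hc : ∀ δ < om, {t | Sml δ t}.Countable) (hex : ∀ t, ∃ δ < om, Sml δ t)
    (hlim : ∀ δ, Lim δ → ∀ t, Sml δ t → ∃ δ' < δ, Sml δ' t) (t0 : T) (D : T → Prop)
    (M : ℕ → T → Ordinal.{u} → T → Prop)
    (hM : ∀ n t α, D t → α < om → ∃ t', M n t α t') :
    ClubIn {δ | Lim δ ∧ Sml δ t0 ∧ ∀ n t, D t → Sml δ t → ∀ α < δ, ∃ t', Sml δ t' ∧ M n t α t'}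
      om := by
  constructor
  · intro α0 hα0
    obtain ⟨δ0, hδ0, hs0⟩ := hex t0
    have hcl := club_closure (fun α γ => ∀ n t, D t → Sml α t → ∀ α' < α, ∃ t', Sml γ t' ∧
      M n t α' t') (by
        intro α hα
        have hc1 : Countable {t | Sml α t} := (hc α hα).to_subtype
        have hc2 : Countable (Set.Iio α) := (countable_Iio_of_lt_om hα).to_subtype
        have h1 : ∀ i : ℕ × {t | Sml α t} × Set.Iio α, ∃ δ < om, D i.2.1.1 →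
            ∃ t', Sml δ t' ∧ M i.1 i.2.1.1 i.2.2.1 t' := by
          intro i
          by_cases hD : D i.2.1.1
          · obtain ⟨t', ht'⟩ := hM i.1 i.2.1.1 i.2.2.1 hD (lt_trans i.2.2.2 hα)
            obtain ⟨δ, hδ, h2⟩ := hex t'
            exact ⟨δ, hδ, fun _ => ⟨t', h2, ht'⟩⟩
          · exact ⟨0, lim_om.1, fun h => absurd h hD⟩
        choose g hg1 hg2 using h1
        obtain ⟨β, hβ, h3⟩ := bdd_om g hg1
        refine ⟨β, hβ, fun γ hγ n t hD ht α' hα' => ?_⟩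
        obtain ⟨t', h4, h5⟩ := hg2 ⟨n, ⟨t, ht⟩, ⟨α', hα'⟩⟩ hD
        exact ⟨t', hmono _ _ ((h3 _).trans hγ) _ h4, h5⟩)
    obtain ⟨δ, ⟨hl, h1⟩, h2, h3⟩ := hcl.1 (max α0 δ0) (max_lt hα0 hδ0)
    refine ⟨δ, ⟨hl, hmono _ _ ((le_max_right _ _).trans h2.le) _ hs0, ?_⟩,
      (le_max_left _ _).trans_lt h2, h3⟩
    intro n t hD ht α hα
    obtain ⟨δ', hδ', h4⟩ := hlim δ hl t ht
    have h5 : max (Order.succ α) δ' < δ := max_lt (hl.2 α hα) hδ'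
    obtain ⟨β, hβ, h6⟩ := h1 _ h5
    exact h6 δ hβ.le n t hD (hmono _ _ (le_max_right _ _) _ h4) α
      ((Order.lt_succ α).trans_le (le_max_left _ _))
  · intro l hl hl0 h
    have hliml : Lim l := by
      refine ⟨hl0, fun α hα => ?_⟩
      obtain ⟨β, _, h1, h2⟩ := h α hα
      exact (Order.succ_le_of_lt h1).trans_lt h2
    refine ⟨hliml, ?_, ?_⟩
    · obtain ⟨β, hβ, _, h2⟩ := h 0 hl0
      exact hmono _ _ h2.le _ hβ.2.1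
    · intro n t hD ht α hα
      obtain ⟨δ', hδ', h4⟩ := hlim l hliml t ht
      obtain ⟨β, hβ, h1, h2⟩ := h (max α δ') (max_lt hα hδ')
      obtain ⟨t', h5, h6⟩ := hβ.2.2 n t hD (hmono _ _ ((le_max_right _ _).trans h1.le) _ h4) α
        ((le_max_left _ _).trans_lt h1)
      exact ⟨t', hmono _ _ h2.le _ h5, h6⟩

theorem game_seq {T : Type v} {Sml : T → Prop} {t0 : T} {D : T → Prop}
    {M : ℕ → T → Ordinal.{u} → T → Prop} {δ : Ordinal.{u}} (hδ : δ < om) (h0 : 0 < δ)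
    (ht0 : Sml t0) (hD0 : D t0) (hD : ∀ n t α t', D t → M n t α t' → D t')
    (h : ∀ n t, D t → Sml t → ∀ α < δ, ∃ t', Sml t' ∧ M n t α t') :
    ∃ c : ℕ → T, c 0 = t0 ∧ (∀ i, D (c i) ∧ Sml (c i)) ∧
      (∀ i, ∃ n, ∃ α < δ, M n (c i) α (c (i+1))) ∧
      ∀ n, ∀ α < δ, ∃ i, M n (c i) α (c (i+1)) := by
  have hc : Countable (Set.Iio δ) := (countable_Iio_of_lt_om hδ).to_subtype
  have hne : Nonempty (ℕ × Set.Iio δ) := ⟨(0, ⟨0, h0⟩)⟩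
  obtain ⟨e, he⟩ := exists_surjective_nat (ℕ × Set.Iio δ)
  have h1 : ∀ i : ℕ, ∀ t : {t // D t ∧ Sml t}, ∃ t' : {t // D t ∧ Sml t},
      M (e i).1 t.1 (e i).2.1 t'.1 := by
    intro i t
    obtain ⟨t', h2, h3⟩ := h (e i).1 t.1 t.2.1 t.2.2 (e i).2.1 (e i).2.2
    exact ⟨⟨t', hD _ _ _ _ t.2.1 h3, h2⟩, h3⟩
  choose s hs using h1
  let c : ℕ → {t // D t ∧ Sml t} := fun n => Nat.rec ⟨t0, hD0, ht0⟩ (fun i t => s i t) n
  have hcs : ∀ i, M (e i).1 (c i).1 (e i).2.1 (c (i+1)).1 := fun i => hs i (c i)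
  refine ⟨fun i => (c i).1, rfl, fun i => (c i).2, fun i => ⟨_, _, (e i).2.2, hcs i⟩, ?_⟩
  intro n α hα
  obtain ⟨i, hi⟩ := he (n, ⟨α, hα⟩)
  refine ⟨i, ?_⟩
  have := hcs i
  rw [hi] at this
  exact this

/-! ### Distributivity above a stationary set -/

/-- `ξ` is put into the set named by `r` by the condition `p` -/
def Ev (r p ξ : LL.{u}) : Prop := ∃ s, s ∈ PP ∧ EE p s ∧ ∃ x, x ∈ r ∧ IsOp (· ∈ ·) x s ξ

theorem DL.ev {x y z : (ℕ → LL.{u}) → LL.{u}} (hx : DT Set.univ x) (hy : DT Set.univ y)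
    (hz : DT Set.univ z) : DL (fun v => Ev (x v) (y v) (z v)) := by
  refine DL.sub3 (R := fun x y z => Ev x y z) ?_ hx hy hz
  unfold Ev
  apply_rules (maxDepth := 1000) [DL.EE, DL.isOp, Dfn.ex, Dfn.and, Dfn.mem, DT.var, DL.c]

theorem Pc.le_iff {q p : Pc.{u}} : q ≤ p ↔ EE q.1 p.1 := (EE_iff q.2 p.2).symm

theorem Ev.mono {r ξ : LL.{u}} {q p : Pc.{u}} (h : q ≤ p) (he : Ev r p.1 ξ) : Ev r q.1 ξ := by
  obtain ⟨s, hs, h1, h2⟩ := he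
  have h3 : p ≤ ⟨s, mem_PP.1 hs⟩ := Pc.le_iff.2 h1
  exact ⟨s, hs, Pc.le_iff.1 (h.trans h3), h2⟩

/-- `q` is small for `d`, inside `L` -/
def SmL (d q : LL.{u}) : Prop := KR d q ∧ ∀ x, x ∈ q → x ∈ d

theorem smL_iff {δ : Ordinal.{u}} {q : Pc.{u}} : SmL (lo δ) q.1 ↔ Sm δ q := by
  unfold SmL Sm
  rw [KR_lo]
  refine and_congr_right fun _ => ⟨fun h α hα => lo_mem_lo.1 (h (lo α) hα), fun h x hx => ?_⟩
  obtain ⟨α, _, h1⟩ := q.2.ord x.1 hx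
  rw [show x = lo α from LL.ext h1]
  refine lo_mem_lo.2 (h α ?_)
  rw [show x = lo α from LL.ext h1] at hx
  exact hx

theorem DL.smL {x y : (ℕ → LL.{u}) → LL.{u}} (hx : DT Set.univ x) (hy : DT Set.univ y) :
    DL (fun v => SmL (x v) (y v)) := by
  refine DL.sub2 (R := fun x y => SmL x y) ?_ hx hy
  unfold SmL
  apply_rules (maxDepth := 1000) [DL.KR, Dfn.all, Dfn.and, Dfn.imp, Dfn.mem, DT.var]

/-- closure points of the game for `Ev`, inside `L` -/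
def PhiL (r q0 d : LL.{u}) : Prop :=
  LimL d ∧ SmL d q0 ∧ ∀ q, q ∈ PP → EE q q0 → SmL d q → ∀ a, a ∈ d → ∃ q', q' ∈ PP ∧ EE q' q ∧
    SmL d q' ∧ (∃ m, m ∈ q' ∧ a ∈ m) ∧ ∃ ξ, ξ ∈ d ∧ a ∈ ξ ∧ Ev r q' ξ

theorem dl_phiL (r q0 : LL.{u}) : DL (fun v : ℕ → LL.{u} => PhiL r q0 (v 0)) := by
  unfold PhiL
  apply_rules (maxDepth := 1000) [DL.limL, DL.smL, DL.ev, DL.EE, Dfn.all, Dfn.ex, Dfn.and,
    Dfn.imp, Dfn.mem, DT.var, DL.c]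

/-- the game: smallness -/
def SmT (δ : Ordinal.{u}) (t : Pc.{u} × Set.Iio (om : Ordinal.{u})) : Prop :=
  Sm δ t.1 ∧ t.2.1 < δ

/-- the game: moves -/
def MvT (r : LL.{u}) (t : Pc.{u} × Set.Iio (om : Ordinal.{u})) (α : Ordinal.{u})
    (t' : Pc.{u} × Set.Iio (om : Ordinal.{u})) : Prop :=
  t'.1 ≤ t.1 ∧ (∃ m ∈ ords t'.1.1.1, α < m) ∧ α < t'.2.1 ∧ Ev r t'.1.1 (lo t'.2.1)

theorem phiL_iff {r : LL.{u}} {q0 : Pc.{u}} {δ : Ordinal.{u}} (hδ : δ < om) :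
    PhiL r q0.1 (lo δ) ↔ Lim δ ∧ SmT δ (q0, ⟨0, lim_om.1⟩) ∧
      ∀ (_ : ℕ) (t : Pc.{u} × Set.Iio (om : Ordinal.{u})), t.1 ≤ q0 → SmT δ t → ∀ α < δ,
        ∃ t', SmT δ t' ∧ MvT r t α t' := by
  unfold PhiL
  rw [limL_iff, smL_iff]
  constructor
  · rintro ⟨hl, hs, h⟩
    refine ⟨hl, ⟨hs, hl.1⟩, ?_⟩
    rintro _ t ht hst α hα
    obtain ⟨q', hq', h1, h2, ⟨m, hm, ham⟩, ξ, hξ, haξ, he⟩ := h t.1.1 (mem_PP.2 t.1.2)
      (Pc.le_iff.1 ht) (smL_iff.2 hst.1) (lo α) (lo_mem_lo.2 hα)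
    obtain ⟨ξ', hξ', rfl⟩ := mem_lo.1 hξ
    have hs' : Sm δ ⟨q', mem_PP.1 hq'⟩ := smL_iff.1 h2
    refine ⟨(⟨q', mem_PP.1 hq'⟩, ⟨ξ', hξ'.trans hδ⟩), ⟨hs', hξ'⟩, Pc.le_iff.2 h1, ?_,
      lo_mem_lo.1 haξ, he⟩
    obtain ⟨μ, hμ, rfl⟩ := mem_lo.1 (h2.2 m hm)
    exact ⟨μ, hm, lo_mem_lo.1 ham⟩
  · rintro ⟨hl, hs, h⟩
    refine ⟨hl, hs.1, ?_⟩
    intro q hq hqq hsq a ha
    obtain ⟨α, hα, rfl⟩ := mem_lo.1 ha
    obtain ⟨t', ⟨h1, h2⟩, h3, ⟨m, hm, ham⟩, h4, h5⟩ := h 0 (⟨q, mem_PP.1 hq⟩, ⟨0, lim_om.1⟩)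
      (Pc.le_iff.2 hqq) ⟨smL_iff.1 hsq, hl.1⟩ α hα
    exact ⟨t'.1.1, mem_PP.2 t'.1.2, Pc.le_iff.1 h3, smL_iff.2 h1, ⟨lo m, hm, lo_mem_lo.2 ham⟩,
      lo t'.2.1, lo_mem_lo.2 h2, lo_mem_lo.2 h4, h5⟩

theorem dense_lim (hN : NoNewSeq.{u}) (r : LL.{u}) (q0 : Pc.{u})
    (h : ∀ q : Pc.{u}, q ≤ q0 → ∀ α < om, ∃ q' ≤ q, ∃ ξ < om, α < ξ ∧ Ev r q'.1 (lo ξ))
    {η : Ordinal.{u}} (hη : η < om)
    (hcode : ∀ γ, Lim γ → (η = γ → γ ∉ ords q0.1.1) ∧ (η = Order.succ γ → γ ∈ ords q0.1.1))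
    (hm : ∃ m ∈ ords q0.1.1, η ≤ m) :
    ∃ q ≤ q0, ∃ δ ∈ ords q.1.1, 0 < δ ∧ fn δ = η ∧
      ∀ α < δ, ∃ ξ < δ, α < ξ ∧ Ev r q.1 (lo ξ) := by
  obtain ⟨y, hy⟩ := LL_sep' (P := fun z => PhiL r q0.1 z) (dl_phiL r q0.1) (lo om)
  have hyo : ∀ δ, δ ∈ ords y.1 ↔ δ < om ∧ PhiL r q0.1 (lo δ) := by
    intro δ
    have := hy (lo δ)
    rw [lo_mem_lo] at this
    exact this
  have hcl0 := club_game SmT
    (fun δ δ' hle t ht => ⟨ht.1.mono hle, ht.2.trans_le hle⟩)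
    (fun δ hδ => by
      have h1 : {t | SmT δ t} ⊆ {q : Pc.{u} | Sm δ q} ×ˢ {x : Set.Iio (om : Ordinal.{u}) |
        x.1 < δ} := fun t ht => ⟨ht.1, ht.2⟩
      have h2 : {x : Set.Iio (om : Ordinal.{u}) | x.1 < δ}.Countable :=
        (countable_Iio_of_lt_om hδ).preimage Subtype.val_injective
      exact ((countable_sm hδ).prod h2).mono h1)
    (fun t => by
      obtain ⟨δ, hδ, h1⟩ := exists_sm t.1
      exact ⟨max δ (Order.succ t.2.1), max_lt hδ (lim_om.2 _ t.2.2), h1.mono (le_max_left _ _),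
        (Order.lt_succ _).trans_le (le_max_right _ _)⟩)
    (fun δ hl t ht => by
      obtain ⟨δ', h1, h2⟩ := Sm.lim hl ht.1
      exact ⟨max δ' (Order.succ t.2.1), max_lt h1 (hl.2 _ ht.2), h2.mono (le_max_left _ _),
        (Order.lt_succ _).trans_le (le_max_right _ _)⟩)
    (q0, ⟨0, lim_om.1⟩) (fun t => t.1 ≤ q0) (fun _ t α t' => MvT r t α t')
    (fun _ t α ht hα => by
      obtain ⟨q', h1, ξ, h2, h3, h4⟩ := h t.1 ht α hα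
      obtain ⟨q'', h5, m, h6, h7⟩ := exists_ext hN q' hα
      exact ⟨(q'', ⟨ξ, h2⟩), h5.trans h1, ⟨m, h6, h7⟩, h3, h4.mono h5⟩)
  have hcl : ClubIn (ords y.1) om := by
    constructor
    · intro α hα
      obtain ⟨β, hβ, h1, h2⟩ := hcl0.1 α hα
      exact ⟨β, (hyo β).2 ⟨h2, (phiL_iff h2).2 hβ⟩, h1, h2⟩
    · intro l hl hl0 h1
      refine (hyo l).2 ⟨hl, (phiL_iff hl).2 (hcl0.2 l hl hl0 fun α hα => ?_)⟩
      obtain ⟨β, hβ, h2, h3⟩ := h1 α hα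
      exact ⟨β, (phiL_iff (h3.trans hl)).1 ((hyo β).1 hβ).2, h2, h3⟩
  obtain ⟨δ, hδy, hδ, hfn⟩ := fn_stat y.2 hcl hη
  obtain ⟨hl, hs0, hg⟩ := (phiL_iff hδ).1 ((hyo δ).1 hδy).2
  obtain ⟨c, hc0, hc1, hc2, hc3⟩ := game_seq (Sml := SmT δ) (D := fun t => t.1 ≤ q0)
    (M := fun _ t α t' => MvT r t α t') hδ hl.1 hs0 le_rfl
    (fun _ t α t' h1 h2 => h2.1.trans h1) hg
  have hc0' : (c 0).1 = q0 := by rw [hc0]
  obtain ⟨q, hq1, hq2⟩ := lim_cond hN (fun i => (c i).1)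
    (fun i => by
      obtain ⟨_, _, _, h1⟩ := hc2 i
      exact h1.1)
    hδ (fun i α hα => (hc1 i).2.1.2 α hα)
    (fun α hα => by
      obtain ⟨i, h1⟩ := hc3 0 α hα
      exact ⟨i+1, h1.2.1⟩)
    (by rw [hc0', hfn]; exact hcode) (by rw [hc0', hfn]; exact hm)
  refine ⟨q, hc0' ▸ hq1 0, δ, hq2, hl.1, hfn, fun α hα => ?_⟩
  obtain ⟨i, h1⟩ := hc3 0 α hα
  exact ⟨(c (i+1)).2.1, (hc1 (i+1)).2.2, h1.2.2.1, h1.2.2.2.mono (hq1 (i+1))⟩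

/-! ### Stationary sets in the extension -/

/-- conditions extended by a segment of `C` are segments of `C` -/
theorem eq_seg {C : Set Ordinal.{u}} (hC : Generic C) {β : Ordinal.{u}} (hβ : β ∈ C) {s : Pc.{u}}
    (h : sg hC hβ ≤ s) : ∃ m ∈ C, s.1.1 = seg C m := by
  obtain ⟨m, hm, hmax⟩ := s.2.max
  have hmC := mem_ords_seg.1 (Pc.sub h hm)
  refine ⟨m, hmC.1, ?_⟩
  ext x
  constructor
  · intro hx
    obtain ⟨α, _, rfl⟩ := s.2.ord x hx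
    exact mem_ords_seg.2 ⟨(mem_ords_seg.1 (Pc.sub h hx)).1, hmax α hx⟩
  · intro hx
    obtain ⟨α, hα, rfl⟩ := mem_toZFSet_imp (ZFSet.mem_sep.1 hx).1
    have h1 := mem_ords_seg.1 hx
    exact Pc.new h (mem_ords_seg.2 ⟨h1.1, h1.2.trans hmC.2⟩) hm h1.2

theorem statv {C : Set Ordinal.{u}} (hC : Generic C) (hN : NoNewSeq.{u}) {β0 : Ordinal.{u}}
    (hβ0 : β0 ∈ C) {η : Ordinal.{u}} (hη : η ≤ β0)
    (hcode : ∀ γ, Lim γ → (η = γ → γ ∉ C) ∧ (η = Order.succ γ → γ ∈ C))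
    {Cl : Set Ordinal.{u}} (hCl : ClubIn Cl om) : ∃ δ ∈ Cl, δ < om ∧ fn δ = η := by
  have hηo : η < om := hη.trans_lt (hC.lt β0 hβ0)
  obtain ⟨r0, hr0, hr⟩ := hC.names (om : Ordinal.{u}).toZFSet (isL_toZFSet om)
    (ZFSet.sep (fun x => ∃ α ∈ Cl, x = α.toZFSet) (om : Ordinal.{u}).toZFSet)
    (fun x hx => (ZFSet.mem_sep.1 hx).1)
  have hr' : ∀ α < om, α ∈ Cl ↔ ∃ β ∈ C, ZFSet.pair (seg C β) α.toZFSet ∈ r0 := by
    intro α hα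
    rw [← hr _ (Ordinal.toZFSet_mem_toZFSet_iff.2 hα), ZFSet.mem_sep]
    constructor
    · intro h
      exact ⟨Ordinal.toZFSet_mem_toZFSet_iff.2 hα, α, h, rfl⟩
    · rintro ⟨_, β, hβ, h⟩
      rw [Ordinal.toZFSet_injective h]; exact hβ
  let r : LL.{u} := ⟨r0, hr0⟩
  have sound : ∀ {β ξ : Ordinal.{u}} (hβ : β ∈ C), ξ < om → Ev r (sg hC hβ).1 (lo ξ) → ξ ∈ Cl := by
    rintro β ξ hβ hξ ⟨s, hs, h1, x, hx, h2⟩
    obtain ⟨m, hm, h3⟩ := eq_seg hC hβ (s := ⟨s, mem_PP.1 hs⟩) (Pc.le_iff.2 h1)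
    refine (hr' ξ hξ).2 ⟨m, hm, ?_⟩
    rw [LL.isOp_iff'] at h2
    rw [h2] at hx
    rw [← h3]
    exact hx
  have compl : ∀ {ξ : Ordinal.{u}}, ξ < om → ξ ∈ Cl → ∃ (β : Ordinal.{u}) (hβ : β ∈ C),
      Ev r (sg hC hβ).1 (lo ξ) := by
    intro ξ hξ h
    obtain ⟨β, hβ, h1⟩ := (hr' ξ hξ).1 h
    exact ⟨β, hβ, (sg hC hβ).1, mem_PP.2 (sg hC hβ).2, Pc.le_iff.1 le_rfl,
      lpair (sg hC hβ).1 (lo ξ), h1, LL.isOp_iff'.2 rfl⟩
  -- the set forces unboundedness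
  obtain ⟨B, hB⟩ := LL_sep' (P := fun p => ∃ a, a ∈ lo om ∧ ∀ q, q ∈ PP → EE q p →
      ∀ ξ, ξ ∈ lo om → a ∈ ξ → ¬ Ev r q ξ) (by
    apply_rules (maxDepth := 1000) [DL.ev, DL.EE, Dfn.all, Dfn.ex, Dfn.and, Dfn.not, Dfn.fls,
      Dfn.imp, Dfn.mem, DT.var, DL.c]) PP
  obtain ⟨β1, hβ1, h1 | h1⟩ := gen_dec hC B
  · exfalso
    obtain ⟨_, a, ha, h2⟩ := (hB _).1 h1
    obtain ⟨α, hα, rfl⟩ := mem_lo.1 ha
    obtain ⟨ξ, hξ, h3, h4⟩ := hCl.1 α hα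
    obtain ⟨β2, hβ2, h5⟩ := compl h4 hξ
    have hβ3 : max β1 β2 ∈ C := by
      rcases max_choice β1 β2 with h | h <;> rw [h] <;> assumption
    exact h2 (sg hC hβ3).1 (mem_PP.2 (sg hC hβ3).2)
      (Pc.le_iff.1 (sg_le hC hβ1 hβ3 (le_max_left _ _))) (lo ξ) (lo_mem_lo.2 h4)
      (lo_mem_lo.2 h3) (h5.mono (sg_le hC hβ2 hβ3 (le_max_right _ _)))
  have hden : ∀ q : Pc.{u}, q ≤ sg hC hβ1 → ∀ α < om, ∃ q' ≤ q, ∃ ξ < om, α < ξ ∧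
      Ev r q'.1 (lo ξ) := by
    intro q hq α hα
    have h2 := h1 q hq
    rw [hB] at h2
    push Not at h2
    obtain ⟨q', hq', h3, ξ, hξ, h4, h5⟩ := h2 (mem_PP.2 q.2) (lo α) (lo_mem_lo.2 hα)
    obtain ⟨ξ', hξ', rfl⟩ := mem_lo.1 hξ
    exact ⟨⟨q', mem_PP.1 hq'⟩, Pc.le_iff.2 h3, ξ', hξ', lo_mem_lo.1 h4, h5⟩
  -- the dense set
  obtain ⟨E, hE⟩ := LL_sep' (P := fun c => ∃ d, d ∈ c ∧ (∃ a, a ∈ d) ∧ FnR d (lo η) ∧
      ∀ a, a ∈ d → ∃ ξ, ξ ∈ d ∧ a ∈ ξ ∧ Ev r c ξ) (by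
    apply_rules (maxDepth := 1000) [DL.ev, DL.FnR, Dfn.all, Dfn.ex, Dfn.and,
      Dfn.imp, Dfn.mem, DT.var, DL.c]) PP
  obtain ⟨β2, hβ2, h2 | h2⟩ := gen_dec hC E
  · obtain ⟨_, d, hd, ⟨a, ha⟩, h3, h4⟩ := (hE _).1 h2
    obtain ⟨δ, hδo, hdδ⟩ := (sg hC hβ2).2.ord d.1 hd
    obtain rfl : d = lo δ := LL.ext hdδ
    obtain ⟨α, hα, _⟩ := mem_lo.1 ha
    refine ⟨δ, hCl.2 δ hδo (bot_le.trans_lt hα) fun α' hα' => ?_, hδo, FnR_lo.1 h3⟩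
    obtain ⟨ξ, hξ, h5, h6⟩ := h4 (lo α') (lo_mem_lo.2 hα')
    obtain ⟨ξ', hξ', rfl⟩ := mem_lo.1 hξ
    exact ⟨ξ', sound hβ2 (hξ'.trans hδo) h6, lo_mem_lo.1 h5, hξ'⟩
  · exfalso
    have hβ3 : max β0 (max β1 β2) ∈ C := by
      rcases max_choice β0 (max β1 β2) with h | h
      · rw [h]; exact hβ0
      · rw [h]
        rcases max_choice β1 β2 with h | h <;> rw [h] <;> assumption
    have hle1 : sg hC hβ3 ≤ sg hC hβ1 := sg_le hC hβ1 hβ3 ((le_max_left _ _).trans (le_max_right _ _))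
    have hle2 : sg hC hβ3 ≤ sg hC hβ2 := sg_le hC hβ2 hβ3 ((le_max_right _ _).trans (le_max_right _ _))
    have hseg : ∀ γ, γ ∈ ords (sg hC hβ3).1.1 ↔ γ ∈ C ∧ γ ≤ max β0 (max β1 β2) :=
      fun γ => mem_ords_seg
    obtain ⟨q, hq, δ, hδ, h0, h3, h4⟩ := dense_lim hN r (sg hC hβ3)
      (fun q hq => hden q (hq.trans hle1)) hηo
      (by
        intro γ hl
        obtain ⟨h5, h6⟩ := hcode γ hl
        refine ⟨fun h hγ => h5 h ((hseg γ).1 hγ).1, fun h => (hseg γ).2 ⟨h6 h, ?_⟩⟩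
        rw [h] at hη
        exact ((Order.le_succ γ).trans hη).trans (le_max_left _ _))
      ⟨max β0 (max β1 β2), (hseg _).2 ⟨hβ3, le_rfl⟩, hη.trans (le_max_left _ _)⟩
    refine h2 q (hq.trans hle2) ((hE _).2 ⟨mem_PP.2 q.2, lo δ, hδ, ⟨lo 0, lo_mem_lo.2 h0⟩,
      FnR_lo.2 h3, fun a ha => ?_⟩)
    obtain ⟨α, hα, rfl⟩ := mem_lo.1 ha
    obtain ⟨ξ, h5, h6, h7⟩ := h4 α hα
    exact ⟨lo ξ, lo_mem_lo.2 h5, lo_mem_lo.2 h6, h7⟩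

theorem mem_C_iff {C : Set Ordinal.{u}} (hC : Generic C) (hN : NoNewSeq.{u}) {γ : Ordinal.{u}}
    (hγ : γ < om) (hl : Lim γ) : (γ ∈ C ↔ NonStat {δ | fn δ = γ}) ∧
      (γ ∉ C ↔ NonStat {δ | fn δ = Order.succ γ}) := by
  obtain ⟨β0, hβ0, h1, _⟩ := (club_C hC).1 _ (lim_om.2 _ hγ)
  have hγβ : γ < β0 := (Order.lt_succ γ).trans h1
  refine ⟨⟨nonstat_mem hC hγ hl, ?_⟩, ⟨nonstat_not_mem hC hγ hl, ?_⟩⟩
  · rintro ⟨Cl, hCl, h2⟩
    by_contra hc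
    obtain ⟨δ, h3, h4, h5⟩ := statv hC hN hβ0 hγβ.le (η := γ) (by
      intro γ' hl'
      refine ⟨fun h => h ▸ hc, fun h => ?_⟩
      have := hl.2 γ' (h ▸ Order.lt_succ γ')
      exact absurd this (by rw [h]; exact lt_irrefl _)) hCl
    exact h2 δ h3 h4 h5
  · rintro ⟨Cl, hCl, h2⟩ hc
    obtain ⟨δ, h3, h4, h5⟩ := statv hC hN hβ0 h1.le (η := Order.succ γ) (by
      intro γ' hl'
      refine ⟨fun h => ?_, fun h => ?_⟩
      · have := hl'.2 γ (h ▸ Order.lt_succ γ)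
        exact absurd this (by rw [h]; exact lt_irrefl _)
      · rw [← Order.succ_injective h]; exact hc) hCl
    exact h2 δ h3 h4 h5

theorem distr_Pc {C : Set Ordinal.{u}} (hC : Generic C) (hN : NoNewSeq.{u}) :
    Distr (Pc.{u} × Pc.{u}) := by
  intro 𝒟 p hden hopen
  have hcl := club_game (T := Pc.{u} × Pc.{u}) (fun δ t => Sm δ t.1 ∧ Sm δ t.2)
    (fun δ δ' hle t ht => ⟨ht.1.mono hle, ht.2.mono hle⟩)
    (fun δ hδ => by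
      have h1 : {t : Pc.{u} × Pc.{u} | Sm δ t.1 ∧ Sm δ t.2} ⊆
        {q : Pc.{u} | Sm δ q} ×ˢ {q : Pc.{u} | Sm δ q} := fun t ht => ⟨ht.1, ht.2⟩
      exact ((countable_sm hδ).prod (countable_sm hδ)).mono h1)
    (fun t => by
      obtain ⟨δ, hδ, h1⟩ := exists_sm t.1
      obtain ⟨δ', hδ', h2⟩ := exists_sm t.2
      exact ⟨max δ δ', max_lt hδ hδ', h1.mono (le_max_left _ _), h2.mono (le_max_right _ _)⟩)
    (fun δ hl t ht => by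
      obtain ⟨δ1, h1, h2⟩ := Sm.lim hl ht.1
      obtain ⟨δ2, h3, h4⟩ := Sm.lim hl ht.2
      exact ⟨max δ1 δ2, max_lt h1 h3, h2.mono (le_max_left _ _), h4.mono (le_max_right _ _)⟩)
    p (fun t => t ≤ p)
    (fun n t α t' => t' ≤ t ∧ t' ∈ 𝒟 n ∧ (∃ m ∈ ords t'.1.1.1, α < m) ∧
      ∃ m ∈ ords t'.2.1.1, α < m)
    (fun n t α ht hα => by
      obtain ⟨q1, h1, m1, h2, h3⟩ := exists_ext hN t.1 hα
      obtain ⟨q2, h4, m2, h5, h6⟩ := exists_ext hN t.2 hα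
      have h7 : (q1, q2) ≤ t := ⟨h1, h4⟩
      obtain ⟨t', h8, h9⟩ := hden n (q1, q2) (h7.trans ht)
      exact ⟨t', h8.trans h7, h9, ⟨m1, Pc.sub h8.1 h2, h3⟩, ⟨m2, Pc.sub h8.2 h5, h6⟩⟩)
  obtain ⟨β0, hβ0, _, _⟩ := (club_C hC).1 0 lim_om.1
  obtain ⟨δ, ⟨hl, hs, hg⟩, hδ, hfn⟩ := statv hC hN hβ0 (η := 0) bot_le (by
    intro γ hl'
    refine ⟨fun h => ?_, fun h => ?_⟩
    · exact absurd hl'.1 (by rw [← h]; exact lt_irrefl _)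
    · exact absurd (bot_le.trans_lt (Order.lt_succ γ)) (by rw [← h]; exact lt_irrefl _)) hcl
  obtain ⟨c, hc0, hc1, hc2, hc3⟩ := game_seq (T := Pc.{u} × Pc.{u})
    (Sml := fun t => Sm δ t.1 ∧ Sm δ t.2) (t0 := p) (D := fun t => t ≤ p)
    (M := fun n t α t' => t' ≤ t ∧ t' ∈ 𝒟 n ∧ (∃ m ∈ ords t'.1.1.1, α < m) ∧
      ∃ m ∈ ords t'.2.1.1, α < m) hδ hl.1 hs (le_refl p)
    (fun n t α t' h1 h2 => h2.1.trans h1) hg
  have hcode : ∀ (q : Pc.{u}) (γ : Ordinal.{u}), Lim γ → (fn δ = γ → γ ∉ ords q.1.1) ∧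
      (fn δ = Order.succ γ → γ ∈ ords q.1.1) := by
    intro q γ hl'
    rw [hfn]
    refine ⟨fun h => ?_, fun h => ?_⟩
    · exact absurd hl'.1 (by rw [← h]; exact lt_irrefl _)
    · exact absurd (bot_le.trans_lt (Order.lt_succ γ)) (by rw [← h]; exact lt_irrefl _)
  have hηm : ∀ q : Pc.{u}, ∃ m ∈ ords q.1.1, fn δ ≤ m := fun q => by
    obtain ⟨m, hm, _⟩ := q.2.max
    exact ⟨m, hm, by rw [hfn]; exact bot_le⟩
  obtain ⟨q1, hq1, _⟩ := lim_cond hN (fun i => (c i).1)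
    (fun i => by
      obtain ⟨_, _, _, h1⟩ := hc2 i
      exact h1.1.1)
    hδ (fun i α hα => (hc1 i).2.1.2 α hα)
    (fun α hα => by
      obtain ⟨i, h1⟩ := hc3 0 α hα
      exact ⟨i+1, h1.2.2.1⟩) (hcode _) (hηm _)
  obtain ⟨q2, hq2, _⟩ := lim_cond hN (fun i => (c i).2)
    (fun i => by
      obtain ⟨_, _, _, h1⟩ := hc2 i
      exact h1.1.2)
    hδ (fun i α hα => (hc1 i).2.2.2 α hα)
    (fun α hα => by
      obtain ⟨i, h1⟩ := hc3 0 α hα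
      exact ⟨i+1, h1.2.2.2⟩) (hcode _) (hηm _)
  refine ⟨(q1, q2), ?_, fun n => ?_⟩
  · rw [← hc0]
    exact ⟨hq1 0, hq2 0⟩
  · obtain ⟨i, h1⟩ := hc3 n 0 hl.1
    exact hopen n _ _ ⟨hq1 (i+1), hq2 (i+1)⟩ h1.2.1

end Pool.Agent.DQ1
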