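import Pool.Agent.DQ1.Tr

/-! # The product forcing cannot decide a pair of the Δ-extension of `L(Q₁)` in two ways -/

namespace Pool.Agent.DQ1

open Cardinal Ordinal

universe u v w

section Transfer

variable {P Q : Type*} [Preorder P] [Preorder Q] {f : Q → P} {D0 D : Type*} {j : D0 → D}
  {g : ℕ → ℕ} {N : ℕ → List D → Set Q} {N0 : ℕ → List D0 → Set P}

/-- forcing over a factor -/
theorem fo_transfer (hf : Monotone f) (hdown : ∀ q p', p' ≤ f q → ∃ q' ≤ q, f q' = p')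
    (hup : ∀ q s, f q ≤ s → ∃ s', q ≤ s' ∧ f s' = s) (hj : Function.Injective j)
    (hN : ∀ n l, N (g n) (l.map j) = {q | f q ∈ N0 n l})
    (hN' : ∀ n a, a ∉ Set.range j → N (g n) [a] = ∅) {φ : QFm} (h : φ.NoW) :
    ∀ (v : ℕ → D0) (q : Q), Fo N (φ.tr.sym g) (j ∘ v) q ↔ Fo N0 φ.tr v (f q) := by
  have hd : ∀ (B : Set P) (q : Q), dens {s | f s ∈ B} q ↔ dens B (f q) := by
    intro B q
    constructor
    · intro h1 p hp
      obtain ⟨q', hq', rfl⟩ := hdown q p hp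
      obtain ⟨r, hr, s, hs, hrs⟩ := h1 q' hq'
      exact ⟨f r, hf hr, f s, hs, hf hrs⟩
    · intro h1 q' hq'
      obtain ⟨r, hr, s, hs, hrs⟩ := h1 (f q') (hf hq')
      obtain ⟨r', hr', rfl⟩ := hdown q' r hr
      obtain ⟨s', hs', rfl⟩ := hup r' s hrs
      exact ⟨r', hr', s', hs, hs'⟩
  have hr0 : ∀ (n : ℕ) (a : D) (v : ℕ → D) (q : Q), Fo N (.rel (g n) [0]) (push a v) q →
      a ∈ Set.range j := by
    intro n a v q h1
    by_contra hc
    have h2 : dens (N (g n) [a]) q := h1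
    rw [hN' n a hc] at h2
    obtain ⟨r, hr, s, hs, _⟩ := h2 q le_rfl
    exact hs
  have hr1 : ∀ (n : ℕ) (a : D0) (v : ℕ → D0) (q : Q),
      Fo N (.rel (g n) [0]) (push (j a) (j ∘ v)) q ↔ Fo N0 (.rel n [0]) (push a v) (f q) := by
    intro n a v q
    show dens (N (g n) ([a].map j)) q ↔ dens (N0 n [a]) (f q)
    rw [hN n [a], hd]
  induction φ with
  | rel i xs =>
    intro v q
    show dens (N (g (2*i+1)) (xs.map (j ∘ v))) q ↔ dens (N0 (2*i+1) (xs.map v)) (f q)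
    rw [← List.map_map, hN, hd]
  | eq x y =>
    intro v q
    exact hj.eq_iff
  | neg φ ih =>
    intro v q
    constructor
    · intro h1 p hp h2
      obtain ⟨q', hq', rfl⟩ := hdown q p hp
      exact h1 q' hq' ((ih h v q').2 h2)
    · intro h1 q' hq' h2
      exact h1 (f q') (hf hq') ((ih h v q').1 h2)
  | and φ ψ ih1 ih2 =>
    intro v q
    exact and_congr (ih1 h.1 v q) (ih2 h.2 v q)
  | all k φ ih =>
    intro v q
    constructor
    · intro h1 a
      have h2 : Fo N (.imp (.rel (g (2*k)) [0]) (φ.tr.sym g)) (push (j a) (j ∘ v)) q := h1 (j a)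
      rw [fo_imp] at h2
      show Fo N0 (.imp (.rel (2*k) [0]) φ.tr) (push a v) (f q)
      rw [fo_imp]
      intro p hp h3
      obtain ⟨q', hq', rfl⟩ := hdown q p hp
      have h4 := h2 q' hq' ((hr1 (2*k) a v q').2 h3)
      rw [← comp_push] at h4
      exact (ih h _ q').1 h4
    · intro h1 a
      show Fo N (.imp (.rel (g (2*k)) [0]) (φ.tr.sym g)) (push a (j ∘ v)) q
      rw [fo_imp]
      intro q' hq' h3
      obtain ⟨a, rfl⟩ := hr0 _ _ _ _ h3
      have h2 : Fo N0 (.imp (.rel (2*k) [0]) φ.tr) (push a v) (f q) := h1 a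
      rw [fo_imp] at h2
      have h4 := h2 (f q') (hf hq') ((hr1 (2*k) a v q').1 h3)
      rw [← comp_push]
      exact (ih h _ q').2 h4
  | q k φ ih =>
    intro v q
    constructor
    · intro h1 p hp c hc
      obtain ⟨q', hq', rfl⟩ := hdown q p hp
      obtain ⟨r, hr, a, ha, h2⟩ := h1 q' hq' (j '' c) (hc.image j)
      obtain ⟨a, rfl⟩ := hr0 (2*k) a _ r h2.1
      refine ⟨f r, hf hr, a, fun h3 => ha ⟨a, h3, rfl⟩, (hr1 (2*k) a v r).1 h2.1, ?_⟩
      have h4 : Fo N (φ.tr.sym g) (push (j a) (j ∘ v)) r := h2.2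
      rw [← comp_push] at h4
      exact (ih h _ r).1 h4
    · intro h1 q' hq' c hc
      obtain ⟨p, hp, a, ha, h2⟩ := h1 (f q') (hf hq') (j ⁻¹' c) (hc.preimage hj)
      obtain ⟨r, hr, rfl⟩ := hdown q' p hp
      refine ⟨r, hr, j a, ha, (hr1 (2*k) a v r).2 h2.1, ?_⟩
      show Fo N (φ.tr.sym g) (push (j a) (j ∘ v)) r
      rw [← comp_push]
      exact (ih h _ r).2 h2.2
  | wf k φ ih => exact h.elim

end Transfer

/-- an expansion from a standard model -/
theorem exp_of {D' : Type} {R : ℕ → List D' → Prop} {φ : QFm} (hφ : φ.NoW) {m : ℕ}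
    {g : ℕ → ℕ} {v : ℕ → D'} (h : (φ.tr.sym g).Sat R v)
    (hc : ∀ k : Fin m, R 1 [v k]) (h1 : ∀ x, R 1 [x] ↔ R (g 0) [x])
    (h2 : ∀ x y, R 1 [x] → R 1 [y] → (R 3 [x, y] ↔ R (g 1) [x, y])) :
    Exp.{u} φ (fun a b : ULift.{u} {x : D' // R 1 [x]} => R 3 [a.down.1, b.down.1])
      (fun k : Fin m => ULift.up ⟨v k, hc k⟩) := by
  refine ⟨ULift.{u} D', strOf (fun n l => R (g n) (l.map Equiv.ulift)),
    fun a => ULift.up a.down.1, fun n => ULift.up (v n), ?_, ?_, ?_, ?_, ?_⟩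
  · intro a b hab
    have h3 : a.down.1 = b.down.1 := congrArg ULift.down hab
    have h4 : a.down = b.down := Subtype.ext h3
    exact ULift.down_injective h4
  · ext x
    show R (g 0) [x.down] ↔ _
    rw [← h1]
    constructor
    · intro h3
      exact ⟨ULift.up ⟨x.down, h3⟩, rfl⟩
    · rintro ⟨a, rfl⟩
      exact a.down.2
  · intro a b
    exact (h2 _ _ a.down.2 b.down.2).symm
  · intro k
    rfl
  · rw [← sat_tr _ hφ, sat_equiv Equiv.ulift (fun n => R (g n)), ← KF.sat_sym]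
    exact h

/-- products of two names of expansions: the domain -/
theorem exists_amalgam {A D0 D1 : Type w} {i0 : A → D0} {i1 : A → D1}
    (h0 : Function.Injective i0) (h1 : Function.Injective i1) :
    ∃ (D : Type w) (j : A → D) (j0 : D0 → D) (j1 : D1 → D), Uncountable D ∧
      Function.Injective j ∧ Function.Injective j0 ∧ Function.Injective j1 ∧
      (∀ a, j0 (i0 a) = j a) ∧ (∀ a, j1 (i1 a) = j a) := by
  classical
  let D := A ⊕ ({x : D0 // x ∉ Set.range i0} ⊕ {x : D1 // x ∉ Set.range i1}) ⊕ ULift.{w} (Set ℕ)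
  let j0 : D0 → D := fun x => if h : x ∈ Set.range i0 then .inl h.choose else
    .inr (.inl (.inl ⟨x, h⟩))
  let j1 : D1 → D := fun x => if h : x ∈ Set.range i1 then .inl h.choose else
    .inr (.inl (.inr ⟨x, h⟩))
  have e0 : ∀ a, j0 (i0 a) = .inl a := by
    intro a
    have h : i0 a ∈ Set.range i0 := ⟨a, rfl⟩
    simp only [j0, dif_pos h]
    rw [h0 h.choose_spec]
  have e1 : ∀ a, j1 (i1 a) = .inl a := by
    intro a
    have h : i1 a ∈ Set.range i1 := ⟨a, rfl⟩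
    simp only [j1, dif_pos h]
    rw [h1 h.choose_spec]
  refine ⟨D, .inl, j0, j1, ?_, Sum.inl_injective, ?_, ?_, e0, e1⟩
  · have hU : Uncountable (Set ℕ) := by
      rw [← not_countable_iff]
      intro h
      obtain ⟨g, hg⟩ := exists_injective_nat (Set ℕ)
      exact Function.cantor_injective g hg
    rw [← not_countable_iff] at hU ⊢
    intro h
    refine hU ?_
    have : Function.Injective (fun s : Set ℕ => (.inr (.inr (ULift.up s)) : D)) := by
      intro s t hst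
      simpa using hst
    exact this.countable
  · intro x y hxy
    by_cases hx : x ∈ Set.range i0
    · by_cases hy : y ∈ Set.range i0
      · obtain ⟨a, rfl⟩ := hx
        obtain ⟨b, rfl⟩ := hy
        rw [e0, e0] at hxy
        rw [Sum.inl_injective hxy]
      · obtain ⟨a, rfl⟩ := hx
        rw [e0] at hxy
        simp only [j0, dif_neg hy] at hxy
        exact absurd hxy (by simp)
    · by_cases hy : y ∈ Set.range i0
      · obtain ⟨b, rfl⟩ := hy
        rw [e0] at hxy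
        simp only [j0, dif_neg hx] at hxy
        exact absurd hxy (by simp)
      · simp only [j0, dif_neg hx, dif_neg hy] at hxy
        exact congrArg Subtype.val (Sum.inl_injective (Sum.inl_injective (Sum.inr_injective hxy)))
  · intro x y hxy
    by_cases hx : x ∈ Set.range i1
    · by_cases hy : y ∈ Set.range i1
      · obtain ⟨a, rfl⟩ := hx
        obtain ⟨b, rfl⟩ := hy
        rw [e1, e1] at hxy
        rw [Sum.inl_injective hxy]
      · obtain ⟨a, rfl⟩ := hx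
        rw [e1] at hxy
        simp only [j1, dif_neg hy] at hxy
        exact absurd hxy (by simp)
    · by_cases hy : y ∈ Set.range i1
      · obtain ⟨b, rfl⟩ := hy
        rw [e1] at hxy
        simp only [j1, dif_neg hx] at hxy
        exact absurd hxy (by simp)
      · simp only [j1, dif_neg hx, dif_neg hy] at hxy
        exact congrArg Subtype.val (Sum.inr_injective (Sum.inl_injective (Sum.inr_injective hxy)))

theorem prod_delta {P : Type v} [Preorder P] (hP : Distr (P × P)) {m : ℕ} {φ ψ : QFm}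
    (hφ : φ.NoW) (hψ : ψ.NoW) (hδ : IsDelta.{u} m φ ψ) {A : Type w} {E : A → A → Prop}
    (c : Fin m → A) {D0 D1 : Type w} {i0 : A → D0} {i1 : A → D1} {N0 : ℕ → List D0 → Set P}
    {N1 : ℕ → List D1 → Set P} (h0 : NStr P E i0 N0) (h1 : NStr P E i1 N1)
    {v0 : ℕ → D0} {v1 : ℕ → D1} (hv0 : ∀ k : Fin m, v0 k = i0 (c k))
    (hv1 : ∀ k : Fin m, v1 k = i1 (c k)) {q0 q1 : P} (hq0 : Fo N0 φ.tr v0 q0)
    (hq1 : Fo N1 ψ.tr v1 q1) : False := by
  classical
  obtain ⟨D, j, j0, j1, hD, hj, hj0, hj1, e0, e1⟩ := exists_amalgam h0.inj h1.inj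
  obtain ⟨lt, hlt⟩ : ∃ lt : D → D → Prop, IsWellOrder D lt :=
    ⟨WellOrderingRel, WellOrderingRel.isWellOrder⟩
  let N : ℕ → List D → Set (P × P) := fun n l =>
    if n = 0 then {_p | ∃ a b, l = [a, b] ∧ lt a b}
    else if n % 2 = 1 then {p | ∃ l0, l = l0.map j0 ∧ p.1 ∈ N0 (n / 2) l0}
    else {p | ∃ l1, l = l1.map j1 ∧ p.2 ∈ N1 (n / 2 - 1) l1}
  have hN0 : ∀ a b, N 0 [a, b] = {_p | lt a b} := by
    intro a b
    simp only [N, if_true]
    ext p
    constructor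
    · rintro ⟨a', b', h, h'⟩
      simp only [List.cons.injEq, and_true] at h
      rw [h.1, h.2]
      exact h'
    · intro h
      exact ⟨a, b, rfl, h⟩
  have hN1 : ∀ n l, N (2*n+1) l = {p | ∃ l0, l = l0.map j0 ∧ p.1 ∈ N0 n l0} := by
    intro n l
    simp only [N]
    rw [if_neg (by omega), if_pos (by omega), show (2*n+1)/2 = n by omega]
  have hN2 : ∀ n l, N (2*n+2) l = {p | ∃ l1, l = l1.map j1 ∧ p.2 ∈ N1 n l1} := by
    intro n l
    simp only [N]
    rw [if_neg (by omega), if_neg (by omega), show (2*n+2)/2 - 1 = n by omega]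
  have hN1' : ∀ n l, N (2*n+1) (l.map j0) = {p | p.1 ∈ N0 n l} := by
    intro n l
    rw [hN1]
    ext p
    constructor
    · rintro ⟨l0, h, h'⟩
      rw [List.map_injective_iff.2 hj0 h]
      exact h'
    · intro h
      exact ⟨l, rfl, h⟩
  have hN2' : ∀ n l, N (2*n+2) (l.map j1) = {p | p.2 ∈ N1 n l} := by
    intro n l
    rw [hN2]
    ext p
    constructor
    · rintro ⟨l0, h, h'⟩
      rw [List.map_injective_iff.2 hj1 h]
      exact h'
    · intro h
      exact ⟨l, rfl, h⟩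
  have hN1'' : ∀ n a, a ∉ Set.range j0 → N (2*n+1) [a] = ∅ := by
    intro n a ha
    rw [hN1, Set.eq_empty_iff_forall_notMem]
    rintro p ⟨l0, h, _⟩
    match l0, h with
    | [b], h =>
      simp only [List.map_cons, List.map_nil, List.cons.injEq, and_true] at h
      exact ha ⟨b, h.symm⟩
  have hN2'' : ∀ n a, a ∉ Set.range j1 → N (2*n+2) [a] = ∅ := by
    intro n a ha
    rw [hN2, Set.eq_empty_iff_forall_notMem]
    rintro p ⟨l0, h, _⟩
    match l0, h with
    | [b], h =>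
      simp only [List.map_cons, List.map_nil, List.cons.injEq, and_true] at h
      exact ha ⟨b, h.symm⟩
  have t0 : ∀ (v : ℕ → D0) (q : P × P), Fo N (φ.tr.sym fun n => 2*n+1) (j0 ∘ v) q ↔
      Fo N0 φ.tr v q.1 :=
    fo_transfer (f := Prod.fst) (g := fun n => 2*n+1) (fun a b h => (Prod.le_def.1 h).1)
      (fun q p' h => ⟨(p', q.2), (Prod.le_def (x := (p', q.2)) (y := q)).2 ⟨h, le_refl q.2⟩, rfl⟩)
      (fun q s h => ⟨(s, q.2), (Prod.le_def (x := q) (y := (s, q.2))).2 ⟨h, le_refl q.2⟩, rfl⟩)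
      hj0 hN1' hN1'' hφ
  have t1 : ∀ (v : ℕ → D1) (q : P × P), Fo N (ψ.tr.sym fun n => 2*n+2) (j1 ∘ v) q ↔
      Fo N1 ψ.tr v q.2 :=
    fo_transfer (f := Prod.snd) (g := fun n => 2*n+2) (fun a b h => (Prod.le_def.1 h).2)
      (fun q p' h => ⟨(q.1, p'), (Prod.le_def (x := (q.1, p')) (y := q)).2 ⟨le_refl q.1, h⟩, rfl⟩)
      (fun q s h => ⟨(q.1, s), (Prod.le_def (x := q) (y := (q.1, s))).2 ⟨le_refl q.1, h⟩, rfl⟩)
      hj1 hN2' hN2'' hψ
  -- the sorts `A`
  have s1 : ∀ a, N 1 [j a] = Set.univ := by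
    intro a
    have := hN1' 0 [i0 a]
    simp only [List.map_cons, List.map_nil, e0, h0.sort0] at this
    rw [show 2 * 0 + 1 = 1 from rfl] at this
    rw [this]
    rfl
  have s2 : ∀ a, N 2 [j a] = Set.univ := by
    intro a
    have := hN2' 0 [i1 a]
    simp only [List.map_cons, List.map_nil, e1, h1.sort0] at this
    rw [show 2 * 0 + 2 = 2 from rfl] at this
    rw [this]
    rfl
  have s1' : ∀ x, x ∉ Set.range j → N 1 [x] = ∅ := by
    intro x hx
    by_cases h : x ∈ Set.range j0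
    · obtain ⟨y, rfl⟩ := h
      have := hN1' 0 [y]
      rw [h0.sort0' y (by
        rintro ⟨a, rfl⟩
        exact hx ⟨a, (e0 a).symm⟩)] at this
      exact this
    · exact hN1'' 0 x h
  have s2' : ∀ x, x ∉ Set.range j → N 2 [x] = ∅ := by
    intro x hx
    by_cases h : x ∈ Set.range j1
    · obtain ⟨y, rfl⟩ := h
      have := hN2' 0 [y]
      rw [h1.sort0' y (by
        rintro ⟨a, rfl⟩
        exact hx ⟨a, (e1 a).symm⟩)] at this
      exact this
    · exact hN2'' 0 x h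
  have s3 : ∀ a b, N 3 [j a, j b] = {_p | E a b} := by
    intro a b
    have := hN1' 1 [i0 a, i0 b]
    simp only [List.map_cons, List.map_nil, e0, h0.rel0] at this
    exact this
  have s4 : ∀ a b, N 4 [j a, j b] = {_p | E a b} := by
    intro a b
    have := hN2' 1 [i1 a, i1 b]
    simp only [List.map_cons, List.map_nil, e1, h1.rel0] at this
    exact this
  have du : ∀ p : P × P, dens Set.univ p := fun p q hq => ⟨q, le_rfl, q, trivial, le_rfl⟩
  have de : ∀ p : P × P, ¬ dens ∅ p := fun p h => by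
    obtain ⟨r, _, s, hs, _⟩ := h p le_rfl
    exact hs
  have dr1 : ∀ (x : D) (q : P × P), dens (N 1 [x]) q → ∃ a, x = j a := by
    intro x q h
    by_contra hc
    rw [s1' x (fun ⟨a, ha⟩ => hc ⟨a, ha.symm⟩)] at h
    exact de _ h
  have dr2 : ∀ (x : D) (q : P × P), dens (N 2 [x]) q → ∃ a, x = j a := by
    intro x q h
    by_contra hc
    rw [s2' x (fun ⟨a, ha⟩ => hc ⟨a, ha.symm⟩)] at h
    exact de _ h
  let S1 : KF := .all (.and (.imp (.rel 1 [0]) (.rel 2 [0])) (.imp (.rel 2 [0]) (.rel 1 [0])))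
  let S2 : KF := .all (.all (.imp (.rel 1 [0]) (.imp (.rel 1 [1])
    (.and (.imp (.rel 3 [0, 1]) (.rel 4 [0, 1])) (.imp (.rel 4 [0, 1]) (.rel 3 [0, 1]))))))
  have f1 : ∀ (v : ℕ → D) (p : P × P), Fo N S1 v p := by
    intro v p a
    refine ⟨fo_imp.2 fun q hq h => ?_, fo_imp.2 fun q hq h => ?_⟩
    · obtain ⟨b, rfl⟩ := dr1 a q h
      show dens (N 2 [j b]) q
      rw [s2]; exact du q
    · obtain ⟨b, rfl⟩ := dr2 a q h
      show dens (N 1 [j b]) q
      rw [s1]; exact du q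
  have f2 : ∀ (v : ℕ → D) (p : P × P), Fo N S2 v p := by
    intro v p a b
    refine fo_imp.2 fun q hq h => fo_imp.2 fun q' hq' h' => ?_
    obtain ⟨b, rfl⟩ := dr1 b q h
    obtain ⟨a, rfl⟩ := dr1 a q' h'
    refine ⟨fo_imp.2 fun q hq h => ?_, fo_imp.2 fun q hq h => ?_⟩
    · have h2 : dens (N 3 [j b, j a]) q := h
      show dens (N 4 [j b, j a]) q
      rw [s4, ← s3]; exact h2
    · have h2 : dens (N 4 [j b, j a]) q := h
      show dens (N 3 [j b, j a]) q
      rw [s3, ← s4]; exact h2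
  obtain ⟨S, hS, hSc, hSn, W, hW⟩ := exists_generic hP hD hlt hN0 (q0, q1)
    (Set.range (j0 ∘ v0) ∪ Set.range (j1 ∘ v1))
    ((Set.countable_range _).union (Set.countable_range _))
  have hc1 : Countable S := hSc.to_subtype
  have hc2 : Nonempty S := hSn.to_subtype
  let w0 : ℕ → S := fun n => ⟨j0 (v0 n), hS (Or.inl ⟨n, rfl⟩)⟩
  let w1 : ℕ → S := fun n => ⟨j1 (v1 n), hS (Or.inr ⟨n, rfl⟩)⟩
  obtain ⟨D', R, e, he, hR⟩ := keisler W
  have g0 : (φ.tr.sym fun n => 2*n+1).Sat R (e ∘ w0) :=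
    (hR _ _).1 (hW _ w0 ((t0 v0 (q0, q1)).2 hq0))
  have g1 : (ψ.tr.sym fun n => 2*n+2).Sat R (e ∘ w1) :=
    (hR _ _).1 (hW _ w1 ((t1 v1 (q0, q1)).2 hq1))
  have g2 : S1.Sat R (e ∘ w0) := (hR _ _).1 (hW _ w0 (f1 _ _))
  have g3 : S2.Sat R (e ∘ w0) := (hR _ _).1 (hW _ w0 (f2 _ _))
  have g2' : ∀ x, R 1 [x] ↔ R 2 [x] := by
    intro x
    have h : ¬ (R 1 [x] ∧ ¬ R 2 [x]) ∧ ¬ (R 2 [x] ∧ ¬ R 1 [x]) := g2 x
    tauto
  have g3' : ∀ x y, R 1 [x] → R 1 [y] → (R 3 [x, y] ↔ R 4 [x, y]) := by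
    intro x y hx hy
    have h : ¬ (R 1 [x] ∧ ¬ ¬ (R 1 [y] ∧ ¬ (¬ (R 3 [x, y] ∧ ¬ R 4 [x, y]) ∧
      ¬ (R 4 [x, y] ∧ ¬ R 3 [x, y])))) := g3 y x
    tauto
  have hwk : ∀ k : Fin m, w0 k = w1 k := by
    intro k
    apply Subtype.ext
    show j0 (v0 k) = j1 (v1 k)
    rw [hv0, hv1, e0, e1]
  have g4 : ∀ k : Fin m, R 1 [e (w0 k)] := by
    intro k
    have h : (KF.rel 1 [(k : ℕ)]).Sat R (e ∘ w0) := (hR _ _).1 (hW _ w0 (by
      show dens (N 1 [j0 (v0 k)]) _
      rw [hv0, e0, s1]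
      exact du _))
    exact h
  have g4' : ∀ k : Fin m, R 1 [e (w1 k)] := by
    intro k
    rw [← hwk]
    exact g4 k
  have x0 := exp_of.{u} hφ g0 g4 (fun x => Iff.rfl) (fun x y _ _ => Iff.rfl)
  have x1 := exp_of.{u} hψ g1 g4' g2' g3'
  have hcc : (fun k : Fin m => (ULift.up ⟨(e ∘ w0) k, g4 k⟩ : ULift.{u} {x : D' // R 1 [x]})) =
      fun k : Fin m => (ULift.up ⟨(e ∘ w1) k, g4' k⟩ : ULift.{u} {x : D' // R 1 [x]}) := by
    funext k
    have : (e ∘ w0) k = (e ∘ w1) k := congrArg e (hwk k)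
    simp only [this]
  rw [← hcc] at x1
  exact (hδ _ _ _).1 x0 x1

end Pool.Agent.DQ1
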