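import Pool.Agent.DQ1.TruthGen
import Pool.Agent.DQ1.Gen2
import Pool.Agent.DQ1.Prod

/-! # Names of expansions: truth of `Δ(L(Q₁))` sentences in constructible structures -/

namespace Pool.Agent.DQ1

open Cardinal Ordinal
open ZFM (Fm Sat Dfn DT IsZF)

universe u v w

/-! ### Invariance of satisfaction -/

theorem comp_push' {X Y : Type*} (g : X → Y) (x : X) (v : ℕ → X) :
    (fun i => g (push x v i)) = push (g x) (fun i => g (v i)) := by
  funext n; cases n <;> rfl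

theorem aleph_one_le_iff {X : Type v} : ℵ₁ ≤ #X ↔ Uncountable X := by
  rw [← Cardinal.aleph0_lt_mk_iff, ← Cardinal.succ_aleph0, Order.succ_le_iff]

/-- the isomorphic copy of a structure -/
def Str.copy {D : Type v} {D' : Type w} (M : Str D) (e : D ≃ D') : Str D' where
  sort k := {x | e.symm x ∈ M.sort k}
  rel i l := M.rel i (l.map e.symm)

theorem sat_copy {D : Type v} {D' : Type w} (M : Str D) (e : D ≃ D') (φ : QFm) :
    ∀ v : ℕ → D, φ.Sat M v ↔ φ.Sat (M.copy e) (fun i => e (v i)) := by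
  induction φ with
  | rel i xs =>
    intro v
    show M.rel i (xs.map v) ↔ M.rel i ((xs.map fun i => e (v i)).map e.symm)
    rw [List.map_map]
    have : (e.symm ∘ fun i => e (v i)) = v := by funext i; simp
    rw [this]
  | eq x y => intro v; exact e.injective.eq_iff.symm
  | neg φ ih => intro v; exact not_congr (ih v)
  | and φ ψ ih1 ih2 => intro v; exact and_congr (ih1 v) (ih2 v)
  | all k φ ih =>
    intro v
    constructor
    · intro h a ha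
      have h1 := (ih (push (e.symm a) v)).1 (h (e.symm a) ha)
      rw [comp_push', e.apply_symm_apply] at h1
      exact h1
    · intro h a ha
      rw [ih, comp_push']
      exact h (e a) (show e.symm (e a) ∈ M.sort k by rw [e.symm_apply_apply]; exact ha)
  | q k φ ih =>
    intro v
    show ℵ₁ ≤ #{a // a ∈ M.sort k ∧ φ.Sat M (push a v)} ↔
      ℵ₁ ≤ #{a // a ∈ (M.copy e).sort k ∧ φ.Sat (M.copy e) (push a fun i => e (v i))}
    rw [aleph_one_le_iff, aleph_one_le_iff]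
    have e' : {a // a ∈ M.sort k ∧ φ.Sat M (push a v)} ≃
        {a // a ∈ (M.copy e).sort k ∧ φ.Sat (M.copy e) (push a fun i => e (v i))} := by
      refine e.subtypeEquiv fun a => ?_
      rw [ih, comp_push']
      show a ∈ M.sort k ∧ _ ↔ e.symm (e a) ∈ M.sort k ∧ _
      rw [e.symm_apply_apply]
    rw [← not_countable_iff, ← not_countable_iff, e'.countable_iff]
  | wf k φ ih =>
    intro v
    have hiff : ∀ a b : {a // a ∈ M.sort k}, φ.Sat M (push a.1 (push b.1 v)) ↔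
        φ.Sat (M.copy e) (push (e a.1) (push (e b.1) fun i => e (v i))) := by
      intro a b
      rw [ih, comp_push', comp_push']
    let f : {a // a ∈ M.sort k} → {a // a ∈ (M.copy e).sort k} := fun a =>
      ⟨e a.1, show e.symm (e a.1) ∈ M.sort k by rw [e.symm_apply_apply]; exact a.2⟩
    let g : {a // a ∈ (M.copy e).sort k} → {a // a ∈ M.sort k} := fun a => ⟨e.symm a.1, a.2⟩
    constructor
    · intro h
      refine (InvImage.wf g h).mono fun a b hab => ?_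
      show φ.Sat M (push (e.symm a.1) (push (e.symm b.1) v))
      rw [ih, comp_push', comp_push', e.apply_symm_apply, e.apply_symm_apply]
      exact hab
    · intro h
      refine (InvImage.wf f h).mono fun a b hab => ?_
      exact (hiff a b).1 hab

/-- invariance of `Exp` -/
theorem exp_equiv {A : Type v} {B : Type w} (e : A ≃ B) {n : ℕ} {φ : QFm} {E : A → A → Prop}
    {c : Fin n → A} : Exp.{u} φ E c ↔
      Exp.{u} φ (fun a b : B => E (e.symm a) (e.symm b)) (fun k => e (c k)) := by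
  constructor
  · rintro ⟨D, M, i, v, hi, h0, h1, h2, h3⟩
    refine ⟨D, M, fun b => i (e.symm b), v, hi.comp e.symm.injective, ?_, fun a b => h1 _ _, ?_, h3⟩
    · rw [h0]
      ext x
      constructor
      · rintro ⟨a, rfl⟩; exact ⟨e a, by simp⟩
      · rintro ⟨b, rfl⟩; exact ⟨_, rfl⟩
    · intro k
      rw [h2 k]
      simp
  · rintro ⟨D, M, i, v, hi, h0, h1, h2, h3⟩
    refine ⟨D, M, fun a => i (e a), v, hi.comp e.injective, ?_, fun a b => ?_, h2, h3⟩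
    · rw [h0]
      ext x
      constructor
      · rintro ⟨b, rfl⟩; exact ⟨e.symm b, by simp⟩
      · rintro ⟨a, rfl⟩; exact ⟨_, rfl⟩
    · rw [h1]
      simp

/-- the defining property of `Δ` sentences for small structures of any universe -/
theorem delta_small {n : ℕ} {φ ψ : QFm} (h : IsDelta.{u} n φ ψ) {A : Type v} [Small.{u} A]
    (E : A → A → Prop) (c : Fin n → A) : Exp.{u} φ E c ↔ ¬ Exp.{u} ψ E c := by
  rw [exp_equiv (equivShrink.{u} A), exp_equiv (φ := ψ) (equivShrink.{u} A)]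
  exact h _ _ _

/-! ### Names -/

/-- `r` is a name of an expansion of `(x, ∈)` with the domain `d` -/
def Good (x d r : LL.{u}) : Prop :=
  (∀ a, a ∈ x → a ∈ d) ∧
  (∀ p, p ∈ PP → ∀ a, a ∈ d → (lpair p (lpair (lo (0 : ℕ)) (lcd [a])) ∈ r ↔ a ∈ x)) ∧
  ∀ p, p ∈ PP → ∀ a b, a ∈ x → b ∈ x →
    (lpair p (lpair (lo (1 : ℕ)) (lcd [a, b])) ∈ r ↔ a ∈ b)

/-- some condition forces that `(x, c)` has an expansion satisfying `φ` -/
def ZL (φ : QFm) (m : ℕ) (x : LL.{u}) (c : ℕ → LL.{u}) : Prop :=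
  ∃ q, q ∈ PP ∧ ∃ d r, Good x d r ∧ ∃ v : ℕ → LL.{u}, (∀ i, v i ∈ d) ∧ (∀ k < m, v k = c k) ∧
    FoL r d φ.tr v q

theorem natCast_ord (n : ℕ) : (lo (n : Ordinal.{u})) = lo n := rfl

theorem good_nstr {x d r : LL.{u}} (h : Good x d r) :
    NStr Pc.{u} (fun a b : {z : LL.{u} // z ∈ x} => a.1 ∈ b.1)
      (fun a : {z : LL.{u} // z ∈ x} => (⟨a.1, h.1 a.1 a.2⟩ : {z : LL.{u} // z ∈ d})) (Nm r d) where
  inj a b hab := Subtype.ext (congrArg (fun t : {z : LL.{u} // z ∈ d} => t.1) hab)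
  sort0 a := by
    ext p
    refine ⟨fun _ => Set.mem_univ _, fun _ => ?_⟩
    exact (h.2.1 p.1 (mem_PP.2 p.2) a.1 (h.1 a.1 a.2)).2 a.2
  sort0' y hy := by
    ext p
    refine ⟨fun hp => hy ?_, fun hp => absurd hp (Set.notMem_empty _)⟩
    have := (h.2.1 p.1 (mem_PP.2 p.2) y.1 y.2).1 hp
    exact ⟨⟨y.1, this⟩, rfl⟩
  rel0 a b := by
    ext p
    exact h.2.2 p.1 (mem_PP.2 p.2) a.1 b.1 a.2 b.2

/-- Two `Δ`-contradictory sentences cannot both be forced. -/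
theorem ZL_not_both {C : Set Ordinal.{u}} (hC : Generic C) (hN : NoNewSeq.{u}) {m : ℕ} {φ ψ : QFm}
    (hφ : φ.NoW) (hψ : ψ.NoW) (hδ : IsDelta.{u} m φ ψ) {x : LL.{u}} {c : ℕ → LL.{u}}
    (hc : ∀ k < m, c k ∈ x) (h0 : ZL φ m x c) (h1 : ZL ψ m x c) : False := by
  obtain ⟨q0, hq0, d0, r0, g0, v0, hv0, hc0, f0⟩ := h0
  obtain ⟨q1, hq1, d1, r1, g1, v1, hv1, hc1, f1⟩ := h1
  let q0' : Pc.{u} := ⟨q0, mem_PP.1 hq0⟩
  let q1' : Pc.{u} := ⟨q1, mem_PP.1 hq1⟩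
  let w0 : ℕ → {z : LL.{u} // z ∈ d0} := fun i => ⟨v0 i, hv0 i⟩
  let w1 : ℕ → {z : LL.{u} // z ∈ d1} := fun i => ⟨v1 i, hv1 i⟩
  have f0' : Fo (Nm r0 d0) φ.tr w0 q0' := (fo_iff hN r0 d0 φ.tr w0 q0').2 f0
  have f1' : Fo (Nm r1 d1) ψ.tr w1 q1' := (fo_iff hN r1 d1 ψ.tr w1 q1').2 f1
  exact prod_delta (distr_Pc hC hN) hφ hψ hδ (A := {z : LL.{u} // z ∈ x})
    (c := fun k => ⟨c k, hc k k.2⟩) (good_nstr g0) (good_nstr g1)
    (v0 := w0) (v1 := w1) (fun k => Subtype.ext (hc0 k k.2)) (fun k => Subtype.ext (hc1 k k.2))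
    f0' f1'

theorem lcd_inj : ∀ l l' : List LL.{u}, lcd l = lcd l' → l = l' := by
  have h0 : ∀ a b : LL.{u}, lo 0 ≠ lpair a b := by
    intro a b h
    have h1 : ({a.1} : ZFSet.{u}) ∈ (lpair a b).1 := by
      show ({a.1} : ZFSet.{u}) ∈ ZFSet.pair a.1 b.1
      rw [ZFSet.pair, ZFSet.mem_pair]; exact Or.inl rfl
    rw [← h] at h1
    have : (lo (0 : Ordinal.{u})).1 = ∅ := toZFSet_zero
    rw [this] at h1
    exact ZFSet.notMem_empty _ h1
  intro l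
  induction l with
  | nil =>
    intro l' h
    cases l' with
    | nil => rfl
    | cons b l' => exact absurd h (h0 _ _)
  | cons a l ih =>
    intro l' h
    cases l' with
    | nil => exact absurd h.symm (h0 _ _)
    | cons b l' =>
      obtain ⟨h1, h2⟩ := lpair_inj.1 h
      rw [h1, ih l' h2]

theorem pair_notMem {x y : ZFSet.{u}} : ZFSet.pair x y ∉ x := by
  intro h
  have h1 : x.rank < ({x} : ZFSet.{u}).rank := ZFSet.rank_lt_of_mem (ZFSet.mem_singleton.2 rfl)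
  have h2 : ({x} : ZFSet.{u}).rank < (ZFSet.pair x y).rank :=
    ZFSet.rank_lt_of_mem (by rw [ZFSet.pair, ZFSet.mem_pair]; exact Or.inl rfl)
  have h3 := ZFSet.rank_lt_of_mem h
  exact absurd (h1.trans (h2.trans h3)) (lt_irrefl _)

instance small_LL (x : LL.{u}) : Small.{u} {z : LL.{u} // z ∈ x} :=
  small_of_injective (β := {z : ZFSet.{u} // z ∈ x.1}) (f := fun z => ⟨z.1.1, z.2⟩)
    fun _ _ hab => Subtype.ext (LL.ext (congrArg (fun t : {z : ZFSet.{u} // z ∈ x.1} => t.1) hab))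

/-- the set `x ∪ {(x, ξ) : ξ < μ}` -/
theorem exists_dom (x : LL.{u}) (μ : Ordinal.{u}) : ∃ d : LL.{u}, ∀ z, z ∈ d ↔
    z ∈ x ∨ ∃ ξ < μ, z = lpair x (lo ξ) := by
  obtain ⟨γ, hγ, h⟩ := exists_El_mem (I := Bool) (fun b => if b then x else lo μ)
  have hx : x.1 ∈ K γ := h true
  have hμ : (lo μ).1 ∈ K γ := h false
  obtain ⟨d, hd⟩ := LL_sep' (P := fun z => z ∈ x ∨ ∃ o, o ∈ lo μ ∧ IsOp (· ∈ ·) z x o) (by
    apply_rules (maxDepth := 1000) [DL.isOp, Dfn.or, Dfn.ex, Dfn.and, Dfn.mem, DT.var, DL.c])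
    ⟨K γ, isL_K γ⟩
  refine ⟨d, fun z => ?_⟩
  rw [hd]
  constructor
  · rintro ⟨_, h1 | ⟨o, ho, h1⟩⟩
    · exact Or.inl h1
    · obtain ⟨ξ, hξ, rfl⟩ := mem_lo.1 ho
      exact Or.inr ⟨ξ, hξ, LL.isOp_iff'.1 h1⟩
  · rintro (h1 | ⟨ξ, hξ, rfl⟩)
    · exact ⟨K_trans hγ.1 hx h1, Or.inl h1⟩
    · exact ⟨pair_mem_lim hγ.1 hx (K_trans hγ.1 hμ (lo_mem_lo.2 hξ)),
        Or.inr ⟨lo ξ, lo_mem_lo.2 hξ, LL.isOp_iff'.2 rfl⟩⟩

/-- every relation in `V` on a constructible set has a good name -/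
theorem exists_name {C : Set Ordinal.{u}} (hC : Generic C) {x d : LL.{u}}
    (hxd : ∀ a, a ∈ x → a ∈ d) (R : ℕ → List {z : LL.{u} // z ∈ d} → Prop)
    (h0 : ∀ a : {z : LL.{u} // z ∈ d}, R 0 [a] ↔ a.1 ∈ x)
    (h1 : ∀ a b : {z : LL.{u} // z ∈ d}, a.1 ∈ x → b.1 ∈ x → (R 1 [a, b] ↔ a.1 ∈ b.1)) :
    ∃ r, Good x d r ∧ ∀ n l, Gm hC r d n l ↔ R n l := by
  classical
  obtain ⟨γ, hγ, hK⟩ := exists_El_mem (I := ℕ × List {z : LL.{u} // z ∈ d})
    (fun t => lpair (lo t.1) (lcd (t.2.map Subtype.val)))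
  let X : ZFSet.{u} := ZFSet.sep (fun t => ∃ n l, R n l ∧
    t = (lpair (lo n) (lcd (l.map Subtype.val))).1) (K γ)
  obtain ⟨r0, hr0, hX⟩ := hC.names (K γ) (isL_K γ) X ZFSet.sep_subset
  have hX' : ∀ (n : ℕ) (l : List {z : LL.{u} // z ∈ d}), (lpair (lo n) (lcd (l.map Subtype.val))).1 ∈ X ↔ R n l := by
    intro n l
    rw [ZFSet.mem_sep]
    constructor
    · rintro ⟨_, n', l', h, h'⟩
      have h2 : lpair (lo n) (lcd (l.map Subtype.val)) = lpair (lo n') (lcd (l'.map Subtype.val)) :=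
        LL.ext h'
      obtain ⟨h3, h4⟩ := lpair_inj.1 h2
      rw [lo_inj, Nat.cast_inj] at h3
      have h5 := lcd_inj _ _ h4
      have h6 : l = l' := List.map_injective_iff.2 Subtype.val_injective h5
      rw [h3, h6]; exact h
    · intro h
      exact ⟨hK (n, l), n, l, h, rfl⟩
  let r0' : LL.{u} := ⟨r0, hr0⟩
  let kγ : LL.{u} := ⟨K γ, isL_K γ⟩
  obtain ⟨γ', hγ', hK'⟩ := exists_El_mem (I := Bool) (fun b => if b then PP else kγ)
  have hPP : PP.1 ∈ K γ' := hK' true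
  have hkγ : K γ ∈ K γ' := hK' false
  let T0 : LL.{u} → LL.{u} → Prop := fun t a => ∃ w, IsOp (· ∈ ·) w a (lo 0) ∧
    IsOp (· ∈ ·) t (lo (0 : ℕ)) w
  let T1 : LL.{u} → LL.{u} → LL.{u} → Prop := fun t a b => ∃ w, IsOp (· ∈ ·) w b (lo 0) ∧
    ∃ w', IsOp (· ∈ ·) w' a w ∧ IsOp (· ∈ ·) t (lo (1 : ℕ)) w'
  have hT0 : ∀ t a, T0 t a ↔ t = lpair (lo (0 : ℕ)) (lcd [a]) := by
    intro t a
    show (∃ w, IsOp (· ∈ ·) w a (lo 0) ∧ IsOp (· ∈ ·) t (lo (0 : ℕ)) w) ↔ _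
    simp only [LL.isOp_iff', exists_eq_left]
    rfl
  have hT1 : ∀ t a b, T1 t a b ↔ t = lpair (lo (1 : ℕ)) (lcd [a, b]) := by
    intro t a b
    show (∃ w, IsOp (· ∈ ·) w b (lo 0) ∧ ∃ w', IsOp (· ∈ ·) w' a w ∧
      IsOp (· ∈ ·) t (lo (1 : ℕ)) w') ↔ _
    simp only [LL.isOp_iff', exists_eq_left]
    rfl
  have dT0 : ∀ {s t : (ℕ → LL.{u}) → LL.{u}}, DT Set.univ s → DT Set.univ t →
      DL (fun v => T0 (s v) (t v)) := by
    intro s t hs ht
    refine DL.sub2 (R := T0) ?_ hs ht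
    show DL fun v : ℕ → LL.{u} => ∃ w, IsOp (· ∈ ·) w (v 1) (lo 0) ∧
      IsOp (· ∈ ·) (v 0) (lo (0 : ℕ)) w
    apply_rules (maxDepth := 1000) [DL.isOp, Dfn.ex, Dfn.and, DT.var, DL.c]
  have dT1 : ∀ {s t r : (ℕ → LL.{u}) → LL.{u}}, DT Set.univ s → DT Set.univ t → DT Set.univ r →
      DL (fun v => T1 (s v) (t v) (r v)) := by
    intro s t r hs ht hr
    refine DL.sub3 (R := T1) ?_ hs ht hr
    show DL fun v : ℕ → LL.{u} => ∃ w, IsOp (· ∈ ·) w (v 2) (lo 0) ∧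
      ∃ w', IsOp (· ∈ ·) w' (v 1) w ∧ IsOp (· ∈ ·) (v 0) (lo (1 : ℕ)) w'
    apply_rules (maxDepth := 1000) [DL.isOp, Dfn.ex, Dfn.and, DT.var, DL.c]
  obtain ⟨r, hr⟩ := LL_sep' (P := fun s => ∃ p, p ∈ PP ∧ ∃ t, t ∈ kγ ∧ IsOp (· ∈ ·) s p t ∧
      ((∃ a, a ∈ x ∧ T0 t a) ∨ (∃ a, a ∈ x ∧ ∃ b, b ∈ x ∧ T1 t a b ∧ a ∈ b) ∨
        ((¬ ∃ a, a ∈ d ∧ T0 t a) ∧ (¬ ∃ a, a ∈ x ∧ ∃ b, b ∈ x ∧ T1 t a b) ∧ s ∈ r0'))) (by
      apply_rules (maxDepth := 1000) [dT0, dT1, DL.isOp, Dfn.ex, Dfn.and, Dfn.or, Dfn.not, Dfn.mem,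
        DT.var, DL.c]) ⟨K γ', isL_K γ'⟩
  -- membership in `r`
  have hmem : ∀ (p : Pc.{u}) (n : ℕ) (l : List {z : LL.{u} // z ∈ d}),
      lpair p.1 (lpair (lo n) (lcd (l.map Subtype.val))) ∈ r ↔
      ((∃ a, a ∈ x ∧ T0 (lpair (lo n) (lcd (l.map Subtype.val))) a) ∨
        (∃ a, a ∈ x ∧ ∃ b, b ∈ x ∧ T1 (lpair (lo n) (lcd (l.map Subtype.val))) a b ∧ a ∈ b) ∨
        ((¬ ∃ a, a ∈ d ∧ T0 (lpair (lo n) (lcd (l.map Subtype.val))) a) ∧
          (¬ ∃ a, a ∈ x ∧ ∃ b, b ∈ x ∧ T1 (lpair (lo n) (lcd (l.map Subtype.val))) a b) ∧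
          lpair p.1 (lpair (lo n) (lcd (l.map Subtype.val))) ∈ r0')) := by
    intro p n l
    rw [hr]
    constructor
    · rintro ⟨_, p', _, t, _, hs, h⟩
      rw [LL.isOp_iff', lpair_inj] at hs
      rw [← hs.2] at h
      exact h
    · intro h
      refine ⟨?_, p.1, mem_PP.2 p.2, _, hK (n, l), LL.isOp_iff'.2 rfl, h⟩
      exact pair_mem_lim hγ'.1 (K_trans hγ'.1 hPP (mem_PP.2 p.2)) (K_trans hγ'.1 hkγ (hK (n, l)))
  have e0 : ∀ (n : ℕ) (l : List {z : LL.{u} // z ∈ d}) a, T0 (lpair (lo n) (lcd (l.map Subtype.val))) a ↔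
      n = 0 ∧ l.map Subtype.val = [a] := by
    intro n l a
    rw [hT0, lpair_inj, lo_inj, Nat.cast_inj]
    exact and_congr_right fun _ => ⟨fun h => lcd_inj _ _ h, fun h => by rw [h]⟩
  have e1 : ∀ (n : ℕ) (l : List {z : LL.{u} // z ∈ d}) a b,
      T1 (lpair (lo n) (lcd (l.map Subtype.val))) a b ↔ n = 1 ∧ l.map Subtype.val = [a, b] := by
    intro n l a b
    rw [hT1, lpair_inj, lo_inj, Nat.cast_inj]
    exact and_congr_right fun _ => ⟨fun h => lcd_inj _ _ h, fun h => by rw [h]⟩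
  have g0 : ∀ (p : Pc.{u}) (a : {z : LL.{u} // z ∈ d}),
      lpair p.1 (lpair (lo (0 : ℕ)) (lcd [a.1])) ∈ r ↔ a.1 ∈ x := by
    intro p a
    rw [show [a.1] = [a].map Subtype.val from rfl, hmem p 0 [a]]
    simp only [e0, e1]
    constructor
    · rintro (⟨b, hb, _, h⟩ | ⟨_, _, _, _, h, _⟩ | ⟨h, _⟩)
      · have : a.1 = b := by simpa using h
        rw [this]; exact hb
      · exact absurd h.1 (by norm_num)
      · exact absurd ⟨a.1, a.2, trivial, rfl⟩ h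
    · intro h
      exact Or.inl ⟨a.1, h, trivial, rfl⟩
  have g1 : ∀ (p : Pc.{u}) (a b : {z : LL.{u} // z ∈ d}), a.1 ∈ x → b.1 ∈ x →
      (lpair p.1 (lpair (lo (1 : ℕ)) (lcd [a.1, b.1])) ∈ r ↔ a.1 ∈ b.1) := by
    intro p a b ha hb
    rw [show [a.1, b.1] = [a, b].map Subtype.val from rfl, hmem p 1 [a, b]]
    simp only [e0, e1]
    constructor
    · rintro (⟨_, _, h, _⟩ | ⟨a', _, b', _, h, h'⟩ | ⟨_, h, _⟩)
      · exact absurd h (by norm_num)
      · have h3 : a.1 = a' ∧ b.1 = b' := by simpa using h.2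
        rw [h3.1, h3.2]; exact h'
      · exact absurd ⟨a.1, ha, b.1, hb, trivial, rfl⟩ h
    · intro h
      exact Or.inr (Or.inl ⟨a.1, ha, b.1, hb, ⟨trivial, rfl⟩, h⟩)
  refine ⟨r, ⟨hxd, ?_, ?_⟩, ?_⟩
  · intro p hp a ha
    exact g0 ⟨p, mem_PP.1 hp⟩ ⟨a, ha⟩
  · intro p hp a b ha hb
    exact g1 ⟨p, mem_PP.1 hp⟩ ⟨a, hxd a ha⟩ ⟨b, hxd b hb⟩ ha hb
  · intro n l
    obtain ⟨β0, hβ0⟩ : ∃ β, β ∈ C := by
      obtain ⟨β, hβ, _⟩ := gen_dec hC (lo 0)
      exact ⟨β, hβ⟩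
    show (∃ (β : Ordinal.{u}) (hβ : β ∈ C),
      lpair (sg hC hβ).1 (lpair (lo n) (lcd (l.map Subtype.val))) ∈ r) ↔ _
    by_cases c0 : ∃ a, a ∈ d ∧ T0 (lpair (lo n) (lcd (l.map Subtype.val))) a
    · obtain ⟨a, ha, h⟩ := c0
      obtain ⟨rfl, hl⟩ := (e0 n l a).1 h
      obtain ⟨b, rfl⟩ : ∃ b : {z : LL.{u} // z ∈ d}, l = [b] := by
        cases l with
        | nil => simp at hl
        | cons b l =>
          cases l with
          | nil => exact ⟨b, rfl⟩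
          | cons _ _ => simp at hl
      rw [h0]
      constructor
      · rintro ⟨β, hβ, h'⟩
        exact (g0 _ b).1 h'
      · intro h'
        exact ⟨β0, hβ0, (g0 _ b).2 h'⟩
    · by_cases c1 : ∃ a, a ∈ x ∧ ∃ b, b ∈ x ∧ T1 (lpair (lo n) (lcd (l.map Subtype.val))) a b
      · obtain ⟨a, ha, b, hb, h⟩ := c1
        obtain ⟨rfl, hl⟩ := (e1 n l a b).1 h
        obtain ⟨a', b', rfl⟩ : ∃ a' b' : {z : LL.{u} // z ∈ d}, l = [a', b'] := by
          match l, hl with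
          | [a', b'], _ => exact ⟨a', b', rfl⟩
        have h3 : a'.1 = a ∧ b'.1 = b := by simpa using hl
        have ha' : a'.1 ∈ x := by rw [h3.1]; exact ha
        have hb' : b'.1 ∈ x := by rw [h3.2]; exact hb
        rw [h1 a' b' ha' hb']
        constructor
        · rintro ⟨β, hβ, h'⟩
          exact (g1 _ a' b' ha' hb').1 h'
        · intro h'
          exact ⟨β0, hβ0, (g1 _ a' b' ha' hb').2 h'⟩
      · rw [← hX', hX _ (hK (n, l))]
        refine exists_congr fun β => ?_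
        constructor
        · rintro ⟨hβ, h'⟩
          refine ⟨hβ, ?_⟩
          rcases (hmem _ n l).1 h' with h | h | h
          · obtain ⟨a, ha, h⟩ := h
            exact absurd ⟨a, hxd a ha, h⟩ c0
          · obtain ⟨a, ha, b, hb, h, _⟩ := h
            exact absurd ⟨a, ha, b, hb, h⟩ c1
          · exact h.2.2
        · rintro ⟨hβ, h'⟩
          exact ⟨hβ, (hmem _ n l).2 (Or.inr (Or.inr ⟨c0, c1, h'⟩))⟩

/-- **Truth implies forcing**: if `(x, c)` has an expansion satisfying `φ`, this is forced. -/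
theorem exp_ZL {C : Set Ordinal.{u}} (hC : Generic C) (hN : NoNewSeq.{u}) {m : ℕ} {φ : QFm}
    (hφ : φ.NoW) {x : LL.{u}} {c : ℕ → LL.{u}} (hc : ∀ k < m, c k ∈ x)
    (h : Exp.{u} φ (fun a b : {z : LL.{u} // z ∈ x} => a.1 ∈ b.1)
      (fun k : Fin m => ⟨c k, hc k k.2⟩)) : ZL φ m x c := by
  classical
  obtain ⟨D, M, i, v, hi, h0, h1, h2, h3⟩ := h
  -- the domain
  let B : Type u := {y : D // y ∉ Set.range i}
  obtain ⟨μ, ⟨eB⟩⟩ : ∃ μ : Ordinal.{u}, Nonempty (B ≃ Set.Iio μ) := by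
    refine ⟨(#B).ord, Cardinal.lift_mk_eq'.1 ?_⟩
    rw [Cardinal.mk_Iio_ordinal, Cardinal.card_ord, Cardinal.lift_lift]
  obtain ⟨d, hd⟩ := exists_dom x μ
  have hxd : ∀ a, a ∈ x → a ∈ d := fun a ha => (hd a).2 (Or.inl ha)
  let F : D → {z : LL.{u} // z ∈ d} := fun y =>
    if hy : y ∈ Set.range i then ⟨hy.choose.1, hxd _ hy.choose.2⟩
    else ⟨lpair x (lo (eB ⟨y, hy⟩).1), (hd _).2 (Or.inr ⟨_, (eB ⟨y, hy⟩).2, rfl⟩)⟩
  have hF1 : ∀ a : {z : LL.{u} // z ∈ x}, F (i a) = ⟨a.1, hxd _ a.2⟩ := by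
    intro a
    have hy : i a ∈ Set.range i := ⟨a, rfl⟩
    show (if hy : i a ∈ Set.range i then _ else _) = _
    rw [dif_pos hy]
    have : hy.choose = a := hi hy.choose_spec
    simp only [this]
  have hF2 : ∀ y (hy : y ∉ Set.range i), (F y).1 = lpair x (lo (eB ⟨y, hy⟩).1) := by
    intro y hy
    show (if hy : y ∈ Set.range i then _ else _ : {z : LL.{u} // z ∈ d}).1 = _
    rw [dif_neg hy]
  have hnx : ∀ ξ : Ordinal.{u}, lpair x (lo ξ) ∉ x := fun ξ h => pair_notMem h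
  have hFb : Function.Bijective F := by
    constructor
    · intro y y' hyy
      by_cases hy : y ∈ Set.range i
      · obtain ⟨a, rfl⟩ := hy
        by_cases hy' : y' ∈ Set.range i
        · obtain ⟨a', rfl⟩ := hy'
          rw [hF1, hF1] at hyy
          have : a = a' := Subtype.ext (congrArg (fun t : {z : LL.{u} // z ∈ d} => t.1) hyy)
          rw [this]
        · have h5 := hF2 y' hy'
          rw [← hyy, hF1] at h5
          exact absurd (h5 ▸ a.2) (hnx _)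
      · by_cases hy' : y' ∈ Set.range i
        · obtain ⟨a', rfl⟩ := hy'
          have h5 := hF2 y hy
          rw [hyy, hF1] at h5
          exact absurd (h5 ▸ a'.2) (hnx _)
        · have h5 := hF2 y hy
          have h6 := hF2 y' hy'
          rw [hyy, h6, lpair_inj, lo_inj] at h5
          have h7 := eB.injective (Subtype.ext h5.2)
          exact (congrArg (fun t : B => t.1) h7).symm
    · rintro ⟨z, hz⟩
      rcases (hd z).1 hz with h5 | ⟨ξ, hξ, rfl⟩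
      · exact ⟨i ⟨z, h5⟩, hF1 _⟩
      · refine ⟨(eB.symm ⟨ξ, hξ⟩).1, Subtype.ext ?_⟩
        rw [hF2 _ (eB.symm ⟨ξ, hξ⟩).2]
        simp
  let e : D ≃ {z : LL.{u} // z ∈ d} := Equiv.ofBijective F hFb
  have he : ∀ y, e y = F y := fun y => rfl
  let R : ℕ → List {z : LL.{u} // z ∈ d} → Prop := fun n l =>
    if n % 2 = 0 then ∃ z, l = [z] ∧ e.symm z ∈ M.sort (n/2) else M.rel (n/2) (l.map e.symm)
  have hR0 : ∀ k z, R (2*k) [z] ↔ e.symm z ∈ M.sort k := by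
    intro k z
    show (if (2*k) % 2 = 0 then _ else _) ↔ _
    rw [if_pos (by omega), show 2*k/2 = k by omega]
    constructor
    · rintro ⟨z', h5, h6⟩
      rw [List.cons.injEq] at h5
      rw [h5.1]; exact h6
    · intro h5; exact ⟨z, rfl, h5⟩
  have hR1 : ∀ k l, R (2*k+1) l ↔ M.rel k (l.map e.symm) := by
    intro k l
    show (if (2*k+1) % 2 = 0 then _ else _) ↔ _
    rw [if_neg (by omega), show (2*k+1)/2 = k by omega]
  have hes : ∀ a : {z : LL.{u} // z ∈ d}, ∀ ha : a.1 ∈ x, e.symm a = i ⟨a.1, ha⟩ := by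
    intro a ha
    rw [Equiv.symm_apply_eq, he, hF1]
  obtain ⟨r, hg, hGm⟩ := exists_name hC hxd R (fun a => by
    rw [show (0 : ℕ) = 2*0 from rfl, hR0, h0]
    constructor
    · rintro ⟨b, hb⟩
      have : a = e (i b) := by rw [hb, e.apply_symm_apply]
      rw [this, he, hF1]; exact b.2
    · intro ha
      exact ⟨⟨a.1, ha⟩, (hes a ha).symm⟩) (fun a b ha hb => by
    rw [show (1 : ℕ) = 2*0+1 from rfl, hR1]
    show M.rel 0 [e.symm a, e.symm b] ↔ _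
    rw [hes a ha, hes b hb, h1])
  have hstr : strOf (Gm hC r d) = M.copy e := by
    have e1 : Gm hC r d = R := by
      funext n l
      exact propext (hGm n l)
    rw [e1]
    unfold strOf Str.copy
    congr 1
    · funext k
      ext z
      exact hR0 k z
    · funext k l
      exact propext (hR1 k l)
  have h5 : φ.Sat (strOf (Gm hC r d)) (fun j => e (v j)) := by
    rw [hstr]; exact (sat_copy M e φ v).1 h3
  obtain ⟨β, hβ, h6⟩ := (truth hC hN r d φ.tr _).1 ((sat_tr _ hφ _).2 h5)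
  refine ⟨(sg hC hβ).1, mem_PP.2 (sg hC hβ).2, d, r, hg, fun j => (e (v j)).1, fun j => (e (v j)).2,
    fun k hk => ?_, (fo_iff hN r d φ.tr _ _).1 h6⟩
  have := h2 ⟨k, hk⟩
  show (e (v k)).1 = c k
  rw [show v k = i ⟨c k, hc k hk⟩ from this, he, hF1]

end Pool.Agent.DQ1
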