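import Pool.Agent.DQ1.Rec
import Pool.Agent.DQ1.Nam

/-! # The enumeration of a wellordered constructible set is constructible -/

namespace Pool.Agent.DQ1

open Cardinal Ordinal
open ZFM (Fm Sat Dfn DT IsZF)

universe u

/-- `E` is the graph of the order preserving bijection of `θ` and `(S, W)` -/
structure IsEnum (W : LL.{u} → LL.{u} → Prop) (S : LL.{u}) (θ : Ordinal.{u}) (E : LL.{u}) : Prop where
  sub : ∀ p, p ∈ E → ∃ ξ < θ, ∃ y, y ∈ S ∧ p = lpair (lo ξ) y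
  tot : ∀ ξ < θ, ∃ y, lpair (lo ξ) y ∈ E
  fn : ∀ ξ y y', lpair (lo ξ) y ∈ E → lpair (lo ξ) y' ∈ E → y = y'
  surj : ∀ y, y ∈ S → ∃ ξ < θ, lpair (lo ξ) y ∈ E
  mono : ∀ ξ ξ' y y', lpair (lo ξ) y ∈ E → lpair (lo ξ') y' ∈ E → ξ < ξ' → W y y'

namespace Enum

/-- a small wellordered type is isomorphic to an ordinal -/
theorem exists_iso {A : Type (u+1)} [Small.{u} A] (r : A → A → Prop) (hwo : IsWellOrder A r) :
    ∃ (θ : Ordinal.{u}) (e : Set.Iio θ → A), Function.Surjective e ∧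
      ∀ a b, r (e a) (e b) ↔ a < b := by
  let e0 : Shrink.{u} A ≃ A := (equivShrink A).symm
  let r' : Shrink.{u} A → Shrink.{u} A → Prop := fun x y => r (e0 x) (e0 y)
  haveI : IsWellOrder A r := hwo
  haveI : IsWellOrder (Shrink.{u} A) r' :=
    (RelIso.preimage e0 r).toRelEmbedding.isWellOrder
  refine ⟨Ordinal.type r', fun a => e0 (Ordinal.enum r' a), ?_, ?_⟩
  · intro y
    obtain ⟨a, ha⟩ := (Ordinal.enum r').surjective (e0.symm y)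
    exact ⟨a, by simp only [ha, Equiv.apply_symm_apply]⟩
  · intro a b
    exact (Ordinal.enum r').map_rel_iff

end Enum

theorem exists_enum {W : LL.{u} → LL.{u} → Prop} (hW : DL (fun v => W (v 0) (v 1))) (S : LL.{u})
    (hwo : IsWellOrder {z : LL.{u} // z ∈ S} (fun a b => W a.1 b.1)) : ∃ θ E, IsEnum W S θ E := by
  obtain ⟨θ, e, hsurj, hmono⟩ := Enum.exists_iso (fun a b : {z : LL.{u} // z ∈ S} => W a.1 b.1) hwo
  have hinj : Function.Injective e := by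
    intro a b hab
    by_contra hne
    rcases lt_or_gt_of_ne hne with h | h
    · have h1 := (hmono a b).2 h
      rw [hab] at h1
      exact absurd ((hmono b b).1 h1) (lt_irrefl _)
    · have h1 := (hmono b a).2 h
      rw [hab] at h1
      exact absurd ((hmono b b).1 h1) (lt_irrefl _)
  let H : Ordinal.{u} → LL.{u} → Prop := fun ξ y => ∃ h : ξ < θ, y = (e ⟨ξ, h⟩).1
  have hW' : ∀ {s t : (ℕ → LL.{u}) → LL.{u}}, DT Set.univ s → DT Set.univ t →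
      DL (fun v => W (s v) (t v)) := fun h1 h2 => DL.sub2 hW h1 h2
  have hΦ : DL (fun v : ℕ → LL.{u} => v 2 ∈ S ∧ ¬ (∃ p, p ∈ v 0 ∧ ∃ o, IsOp (· ∈ ·) p o (v 2)) ∧
      ∀ y', y' ∈ S → ¬ (∃ p, p ∈ v 0 ∧ ∃ o, IsOp (· ∈ ·) p o y') → W (v 2) y' ∨ v 2 = y') := by
    apply_rules (maxDepth := 1000) [hW', DL.isOp, Dfn.ex, Dfn.and, Dfn.or, Dfn.not, Dfn.all,
      Dfn.imp, Dfn.mem, Dfn.eq, DT.var, DL.c]
  obtain ⟨E, hE⟩ := exists_stg (H := H) (Φ := fun s _ y => y ∈ S ∧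
      ¬ (∃ p, p ∈ s ∧ ∃ o, IsOp (· ∈ ·) p o y) ∧
      ∀ y', y' ∈ S → ¬ (∃ p, p ∈ s ∧ ∃ o, IsOp (· ∈ ·) p o y') → W y y' ∨ y = y') hΦ
    (fun β => ⟨S, fun x hx => by
      obtain ⟨h, rfl⟩ := hx
      exact (e ⟨β, h⟩).2⟩) (fun β s hs x => by
      have hval : ∀ y : LL.{u}, (∃ p, p ∈ s ∧ ∃ o, IsOp (· ∈ ·) p o y) ↔
          ∃ γ < β, ∃ h : γ < θ, y = (e ⟨γ, h⟩).1 := by
        intro y
        constructor
        · rintro ⟨p, hp, o, ho⟩
          obtain ⟨γ, hγ, y', hy', h'⟩ := (hs p).1 hp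
          rw [LL.isOp_iff', h', lpair_inj] at ho
          rw [← ho.2]
          exact ⟨γ, hγ, hy'⟩
        · rintro ⟨γ, hγ, hy⟩
          exact ⟨lpair (lo γ) y, (hs _).2 ⟨γ, hγ, y, hy, rfl⟩, lo γ, LL.isOp_iff'.2 rfl⟩
      simp only [hval]
      constructor
      · rintro ⟨hβ, rfl⟩
        refine ⟨(e ⟨β, hβ⟩).2, ?_, ?_⟩
        · rintro ⟨γ, hγ, h, h1⟩
          have h2 := hinj (Subtype.ext h1)
          rw [Subtype.mk.injEq] at h2
          exact absurd h2 (ne_of_gt hγ)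
        · intro y' hy' hn
          obtain ⟨⟨γ, hγ⟩, hγ'⟩ := hsurj ⟨y', hy'⟩
          have h3 : β ≤ γ := by
            by_contra hc
            push Not at hc
            exact hn ⟨γ, hc, hγ, by rw [hγ']⟩
          rcases h3.lt_or_eq with h3 | h3
          · left
            have h4 := (hmono ⟨β, hβ⟩ ⟨γ, hγ⟩).2 h3
            rw [hγ'] at h4
            exact h4
          · right
            subst h3
            rw [hγ']
      · rintro ⟨hx, hn, hmin⟩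
        obtain ⟨⟨γ, hγ⟩, hγ'⟩ := hsurj ⟨x, hx⟩
        have h3 : β ≤ γ := by
          by_contra hc
          push Not at hc
          exact hn ⟨γ, hc, hγ, by rw [hγ']⟩
        have hβ : β < θ := lt_of_le_of_lt h3 hγ
        refine ⟨hβ, ?_⟩
        have h5 := hmin (e ⟨β, hβ⟩).1 (e ⟨β, hβ⟩).2 (by
          rintro ⟨γ', hγ'', h, h1⟩
          have h2 := hinj (Subtype.ext h1)
          rw [Subtype.mk.injEq] at h2
          exact absurd h2 (ne_of_gt hγ''))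
        rcases h5 with h5 | h5
        · have h6 : W (e ⟨γ, hγ⟩).1 (e ⟨β, hβ⟩).1 := by rw [hγ']; exact h5
          have h7 := (hmono ⟨γ, hγ⟩ ⟨β, hβ⟩).1 h6
          exact absurd h7 (not_lt.2 h3)
        · exact h5) θ
  have hmem : ∀ ξ y, lpair (lo ξ) y ∈ E ↔ ∃ h : ξ < θ, y = (e ⟨ξ, h⟩).1 := by
    intro ξ y
    rw [hE]
    constructor
    · rintro ⟨γ, hγ, y', hy', h⟩
      rw [lpair_inj, lo_inj] at h
      obtain ⟨rfl, rfl⟩ := h
      exact hy'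
    · intro h
      exact ⟨ξ, h.1, y, h, rfl⟩
  refine ⟨θ, E, ?_, ?_, ?_, ?_, ?_⟩
  · intro p hp
    obtain ⟨γ, hγ, y, hy, rfl⟩ := (hE p).1 hp
    obtain ⟨h, rfl⟩ := hy
    exact ⟨γ, hγ, _, (e ⟨γ, h⟩).2, rfl⟩
  · intro ξ hξ
    exact ⟨(e ⟨ξ, hξ⟩).1, (hmem _ _).2 ⟨hξ, rfl⟩⟩
  · intro ξ y y' h h'
    obtain ⟨h1, rfl⟩ := (hmem _ _).1 h
    obtain ⟨h2, rfl⟩ := (hmem _ _).1 h'
    rfl
  · intro y hy
    obtain ⟨⟨γ, hγ⟩, hγ'⟩ := hsurj ⟨y, hy⟩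
    exact ⟨γ, hγ, (hmem _ _).2 ⟨hγ, by rw [hγ']⟩⟩
  · intro ξ ξ' y y' h h' hlt
    obtain ⟨h1, rfl⟩ := (hmem _ _).1 h
    obtain ⟨h2, rfl⟩ := (hmem _ _).1 h'
    exact (hmono ⟨ξ, h1⟩ ⟨ξ', h2⟩).2 hlt

end Pool.Agent.DQ1
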