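import Pool.Agent.DQ1.Gen1
import Pool.Agent.DQ1.Hull

/-! # Generic sets add no countable sets of constructible sets -/

namespace Pool.Agent.DQ1

open Cardinal Ordinal
open ZFM (Fm Sat Dfn DT IsZF)

universe u v w

/-- every countable constructible set is countable in the constructible universe -/
def OmL : Prop := ∀ x : LL.{u}, (SetLike.coe x.1).Countable → CtL x

namespace NN

theorem ee_mem {c d : ZFSet.{u}} (h : EndExt c d) {α : Ordinal.{u}} (hα : α ∈ ords d) :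
    α ∈ ords c := by
  have h1 : α.toZFSet ∈ d := hα
  exact h.1 h1

/-! ### Countable bounds -/

theorem bd {S : Type v} [Countable S] (f : S → Ordinal.{u}) (hf : ∀ s, f s < om) :
    ∃ β < om.{u}, ∀ s, f s ≤ β := by
  classical
  obtain ⟨e, he⟩ := exists_injective_nat S
  let g : ℕ → Ordinal.{u} := fun n => if h : ∃ s, e s = n then f h.choose else 0
  have hg : ∀ n, g n < om := fun n => by
    by_cases h : ∃ s, e s = n
    · simp only [g, dif_pos h]; exact hf _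
    · simp only [g, dif_neg h]; exact om_pos
  refine ⟨⨆ n, g n, ?_, fun s => ?_⟩
  · refine lift_iSup_lt_of_lt_cof ?_ hg
    show _ < (Ordinal.lift.{0, u} om).cof
    rw [Ordinal.lift_uzero, show om.{u} = (ℵ₁ : Cardinal.{u}).ord from rfl,
      isRegular_aleph_one.cof_ord, mk_nat, lift_aleph0]
    exact aleph0_lt_aleph_one
  · have h : ∃ s', e s' = e s := ⟨s, rfl⟩
    have h1 : g (e s) = f s := by
      simp only [g, dif_pos h]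
      rw [he h.choose_spec]
    rw [← h1]
    exact Ordinal.le_iSup g (e s)

theorem lim_om : Lim om.{u} := ⟨om_pos, fun _ h => om_succ h⟩

theorem countable_Iio {α : Ordinal.{u}} (h : α < om) : Countable (Set.Iio α) := by
  rw [← mk_le_aleph0_iff, Cardinal.mk_Iio_ordinal]
  have h1 : α.card < ℵ₁ := lt_ord.1 h
  rw [lift_le_aleph0]
  exact lt_aleph_one_iff.1 h1

theorem ord_mem_K {α : Ordinal.{u}} (h : α < om) : α.toZFSet ∈ K om := by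
  induction α using WellFoundedLT.induction with
  | ind α ih =>
  have h1 : ∀ β : Set.Iio α, ∃ ξ < om, β.1.toZFSet ∈ K ξ := fun β =>
    (K_lim lim_om).1 (ih β.1 β.2 (lt_trans β.2 h))
  choose ξ hξ hξK using h1
  have := countable_Iio h
  obtain ⟨ζ, hζ, hb⟩ := bd ξ hξ
  refine countable_mem_K (isL_toZFSet α) hζ fun x hx => ?_
  obtain ⟨β, hβ, rfl⟩ := mem_toZFSet_iff.1 hx
  exact K_sub (hb ⟨β, hβ⟩) (hξK ⟨β, hβ⟩)

theorem max_lt_om {c : ZFSet.{u}} (hc : Cond c) {m : Ordinal.{u}} (hm : m ∈ ords c) : m < om := by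
  obtain ⟨μ, hμ, h1⟩ := hc.ord m.toZFSet hm
  rw [toZFSet_injective h1]; exact hμ

theorem cond_mem_K {c : ZFSet.{u}} (hc : Cond c) : c ∈ K om := by
  obtain ⟨m, hm, hmx⟩ := hc.max
  obtain ⟨ξ, hξ, h1⟩ := (K_lim lim_om).1 (ord_mem_K (om_succ (max_lt_om hc hm)))
  obtain ⟨ξ', h2, h3, h4⟩ := om_lim hξ
  refine countable_mem_K hc.constr h3 fun x hx => ?_
  obtain ⟨α, _, rfl⟩ := hc.ord x hx
  exact K_trans h4 (K_sub h2.le h1) (toZFSet_mem_toZFSet_iff.2 (Order.lt_succ_iff.2 (hmx α hx)))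

/-! ### Dependent choice in `L` -/

/-- the element `x` of `k` has the number `n` in the enumeration `g` -/
def Num (g k x n : LL.{u}) : Prop :=
  n ∈ lo.{u} ω ∧ (∃ p, p ∈ g ∧ IsOp (· ∈ ·) p n x) ∧
    ∀ y, y ∈ k → (∃ p, p ∈ g ∧ IsOp (· ∈ ·) p n y) → y = x

theorem dl_num {s t r q : (ℕ → LL.{u}) → LL.{u}} (hs : DT Set.univ s) (ht : DT Set.univ t)
    (hr : DT Set.univ r) (hq : DT Set.univ q) : DL (fun v => Num (s v) (t v) (r v) (q v)) := by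
  refine DL.sub4 (R := fun s t r q => Num s t r q) ?_ hs ht hr hq
  unfold Num
  apply_rules (maxDepth := 1000) [DL.isOp, Dfn.ex, Dfn.and, Dfn.all, Dfn.imp, Dfn.mem, Dfn.eq,
    DT.var, DL.c]

theorem ctL_num {k : LL.{u}} (h : CtL k) : ∃ g, ∀ x, x ∈ k → ∃ n, Num g k x n := by
  obtain ⟨g, hg⟩ := h
  refine ⟨g, fun x hx => ?_⟩
  obtain ⟨n, h1, h2, h3⟩ := hg x hx
  refine ⟨n, h1, ⟨_, h2, LL.isOp_iff'.2 rfl⟩, fun y hy hp => ?_⟩
  obtain ⟨p, hp, h4⟩ := hp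
  rw [LL.isOp_iff'] at h4
  rw [h4] at hp
  exact h3 y hy hp

/-- the selected successor -/
def Sel (g k : LL.{u}) (R : LL.{u} → LL.{u} → LL.{u} → Prop) (z c c' : LL.{u}) : Prop :=
  c' ∈ k ∧ R z c c' ∧ ∃ n, Num g k c' n ∧ ∀ m, m ∈ n → ∀ y, y ∈ k → R z c y → ¬ Num g k y m

theorem sel_unique {g k : LL.{u}} {R : LL.{u} → LL.{u} → LL.{u} → Prop} {z c a b : LL.{u}}
    (ha : Sel g k R z c a) (hb : Sel g k R z c b) : a = b := by
  obtain ⟨ha1, ha2, n, hn, hn'⟩ := ha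
  obtain ⟨hb1, hb2, m, hm, hm'⟩ := hb
  obtain ⟨ν, _, rfl⟩ := mem_lo.1 hn.1
  obtain ⟨μ, _, rfl⟩ := mem_lo.1 hm.1
  rcases lt_trichotomy ν μ with h | h | h
  · exact absurd hn (hm' _ (lo_mem_lo.2 h) a ha1 ha2)
  · subst h
    exact hm.2.2 a ha1 hn.2.1
  · exact absurd hm (hn' _ (lo_mem_lo.2 h) b hb1 hb2)

theorem sel_exists {g k : LL.{u}} (hg : ∀ x, x ∈ k → ∃ n, Num g k x n)
    {R : LL.{u} → LL.{u} → LL.{u} → Prop} {z c : LL.{u}} (h : ∃ c', c' ∈ k ∧ R z c c') :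
    ∃ c', Sel g k R z c c' := by
  have h1 : {ν : Ordinal.{u} | ∃ c', c' ∈ k ∧ R z c c' ∧ Num g k c' (lo ν)}.Nonempty := by
    obtain ⟨c', h2, h3⟩ := h
    obtain ⟨n, hn⟩ := hg c' h2
    obtain ⟨ν, _, rfl⟩ := mem_lo.1 hn.1
    exact ⟨ν, c', h2, h3, hn⟩
  obtain ⟨c', h2, h3, h4⟩ := csInf_mem h1
  refine ⟨c', h2, h3, _, h4, fun m hm y hy hR hN => ?_⟩
  obtain ⟨μ, hμ, rfl⟩ := mem_lo.1 hm
  exact absurd (csInf_le' (show μ ∈ {ν : Ordinal.{u} | ∃ c', c' ∈ k ∧ R z c c' ∧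
    Num g k c' (lo ν)} from ⟨y, hy, hR, hN⟩)) (not_le.2 hμ)

theorem dc {g k : LL.{u}} (hg : ∀ x, x ∈ k → ∃ n, Num g k x n)
    {R : LL.{u} → LL.{u} → LL.{u} → Prop} (hR : DL (fun v => R (v 0) (v 1) (v 2)))
    {c0 : LL.{u}} (h0 : c0 ∈ k) (hst : ∀ n : ℕ, ∀ c, c ∈ k → ∃ c', c' ∈ k ∧ R (lo n) c c') :
    ∃ (f : ℕ → LL.{u}) (s : LL.{u}), f 0 = c0 ∧ (∀ n, f n ∈ k) ∧
      (∀ n : ℕ, R (lo n) (f n) (f (n+1))) ∧ ∀ p, p ∈ s ↔ ∃ n : ℕ, p = lpair (lo n) (f n) := by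
  have hs : ∀ n : ℕ, ∀ c : {c : LL.{u} // c ∈ k}, ∃ c' : {c : LL.{u} // c ∈ k},
      Sel g k R (lo n) c.1 c'.1 := fun n c => by
    obtain ⟨c', h⟩ := sel_exists hg (hst n c.1 c.2)
    exact ⟨⟨c', h.1⟩, h⟩
  choose F hF using hs
  let f' : ℕ → {c : LL.{u} // c ∈ k} := fun n => Nat.rec ⟨c0, h0⟩ (fun n c => F n c) n
  let f : ℕ → LL.{u} := fun n => (f' n).1
  have hf0 : f 0 = c0 := rfl
  have hfs : ∀ n : ℕ, Sel g k R (lo n) (f n) (f (n+1)) := fun n => hF n (f' n)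
  have hR' : ∀ {s t r : (ℕ → LL.{u}) → LL.{u}}, DT Set.univ s → DT Set.univ t → DT Set.univ r →
      DL (fun v => R (s v) (t v) (r v)) := fun h1 h2 h3 => DL.sub3 hR h1 h2 h3
  obtain ⟨s, hs⟩ := exists_stg (H := fun β x => ∃ n : ℕ, β = n ∧ x = f n)
    (Φ := fun s o x => (o = lo 0 ∧ x = c0) ∨ ∃ o', (SucL o' o ∧ o ∈ lo.{u} ω) ∧ ∃ c',
      (∃ p, p ∈ s ∧ IsOp (· ∈ ·) p o' c') ∧ Sel g k R o' c' x) (by
      unfold Sel
      apply_rules (maxDepth := 1000) [hR', dl_num, DL.sucL, DL.isOp, Dfn.ex, Dfn.and, Dfn.all,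
        Dfn.imp, Dfn.or, Dfn.not, Dfn.fls, Dfn.mem, Dfn.eq, DT.var, DL.c])
    (fun β => ⟨k, fun x => by
      rintro ⟨n, _, rfl⟩
      exact (f' n).2⟩)
    (fun β s hs x => by
      constructor
      · rintro ⟨n, rfl, rfl⟩
        cases n with
        | zero => left; exact ⟨by rw [Nat.cast_zero], rfl⟩
        | succ m =>
          right
          refine ⟨lo m, ⟨sucL_iff.2 ?_, lo_mem_lo.2 (natCast_lt_omega0 _)⟩, f m,
            ⟨lpair (lo m) (f m), ?_, LL.isOp_iff'.2 rfl⟩, hfs m⟩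
          · rw [Nat.cast_succ, Order.succ_eq_add_one]
          · exact (hs _).2 ⟨m, by exact_mod_cast Nat.lt_succ_self m, f m, ⟨m, rfl, rfl⟩, rfl⟩
      · rintro (⟨h1, rfl⟩ | ⟨o', ⟨h1, h2⟩, c', ⟨p, hp, h3⟩, h4⟩)
        · rw [lo_inj] at h1
          exact ⟨0, by rw [h1, Nat.cast_zero], hf0.symm⟩
        · obtain ⟨γ, hγ, y, ⟨m, rfl, rfl⟩, h5⟩ := (hs p).1 hp
          rw [LL.isOp_iff', h5, lpair_inj] at h3
          rw [← h3.1] at h1 h4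
          rw [← h3.2] at h4
          rw [sucL_iff, lo_inj] at h1
          exact ⟨m+1, by rw [h1, Nat.cast_succ, Order.succ_eq_add_one], sel_unique h4 (hfs m)⟩)
    ω
  refine ⟨f, s, hf0, fun n => (f' n).2, fun n => (hfs n).2.1, fun p => ?_⟩
  rw [hs]
  constructor
  · rintro ⟨γ, _, y, ⟨n, rfl, rfl⟩, rfl⟩
    exact ⟨n, rfl⟩
  · rintro ⟨n, rfl⟩
    exact ⟨n, natCast_lt_omega0 n, f n, ⟨n, rfl, rfl⟩, rfl⟩

/-! ### Initial segments -/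

theorem eq_sg {C : Set Ordinal.{u}} (hC : Generic C) {β : Ordinal.{u}} (hβ : β ∈ C) {s : Pc.{u}}
    (h : sg hC hβ ≤ s) : ∃ (m : Ordinal.{u}) (hm : m ∈ C), m ≤ β ∧ s = sg hC hm := by
  obtain ⟨m, hm, hmx⟩ := s.2.max
  have h1 : EndExt (seg C β) s.1.1 := h
  have hm' := mem_ords_seg.1 (ee_mem h1 hm)
  refine ⟨m, hm'.1, hm'.2, Subtype.ext (LL.ext ?_)⟩
  show s.1.1 = seg C m
  ext x
  rw [mem_seg]
  constructor
  · intro hx
    obtain ⟨α, _, rfl⟩ := s.2.ord x hx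
    exact ⟨α, (mem_ords_seg.1 (ee_mem h1 hx)).1, hmx α hx, rfl⟩
  · rintro ⟨α, h2, h3, rfl⟩
    by_contra hc
    exact absurd (h1.2 α (mem_ords_seg.2 ⟨h2, h3.trans hm'.2⟩) hc m hm) (not_lt.2 h3)

/-! ### Fusion below a condition, inside `L` -/

/-- The key lemma: a sequence of dense sets of `L` (below `p`) can be met by one condition. -/
theorem fuse (hω : OmL.{u}) {U : LL.{u} → LL.{u} → Prop} (hU : DL (fun v => U (v 0) (v 1)))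
    (hmono : ∀ z q q', Cond q.1 → Cond q'.1 → EndExt q'.1 q.1 → U z q → U z q')
    {p : LL.{u}} (hp : Cond p.1)
    (hd : ∀ n : ℕ, ∀ q : LL.{u}, Cond q.1 → EndExt q.1 p.1 →
      ∃ q' : LL.{u}, Cond q'.1 ∧ EndExt q'.1 q.1 ∧ U (lo n) q') :
    ∃ q : LL.{u}, Cond q.1 ∧ EndExt q.1 p.1 ∧ ∀ n : ℕ, U (lo n) q := by
  have hU' : ∀ {s t : (ℕ → LL.{u}) → LL.{u}}, DT Set.univ s → DT Set.univ t →
      DL (fun v => U (s v) (t v)) := fun h1 h2 => DL.sub2 hU h1 h2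
  -- one step
  have hd1 : ∀ n : ℕ, ∀ q : LL.{u}, Cond q.1 → EndExt q.1 p.1 → ∀ α < om, ∃ q' : LL.{u},
      Cond q'.1 ∧ EndExt q'.1 q.1 ∧ U (lo n) q' ∧ ∃ b ∈ ords q'.1, α < b := by
    intro n q hq hqp α hα
    obtain ⟨m, hm, hmx⟩ := hq.max
    obtain ⟨δ, h1, h2, _, h3⟩ := exists_above (max_lt hα (max_lt_om hq hm))
    obtain ⟨d, h4, h5, h6⟩ := cond_ins hq
      (fun α hα => (hmx α hα).trans_lt ((le_max_right _ _).trans_lt h1)) h2 h3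
    obtain ⟨q', h7, h8, h9⟩ := hd n d h4 (h5.trans hqp)
    exact ⟨q', h7, h8.trans h5, h9, δ, ee_mem h8 ((h6 δ).2 (Or.inr rfl)), (le_max_left _ _).trans_lt h1⟩
  -- the club
  let Cl0 : LL.{u} → LL.{u} → Prop := fun kd d => ∀ z, z ∈ lo.{u} ω → ∀ q, KR d q → q ∈ PP →
    EE q p → ∀ a, a ∈ d → ∃ q', KR d q' ∧ (q' ∈ PP ∧ EE q' q) ∧ U z q' ∧ (∃ b, b ∈ q' ∧ a ∈ b) ∧
      ∀ b, b ∈ q' → b ∈ d
  obtain ⟨cs, hcs⟩ := LL_sep' (P := fun d => (LimL d ∧ KR d p) ∧ ∀ z, z ∈ lo.{u} ω → ∀ q,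
    KR d q → q ∈ PP → EE q p → ∀ a, a ∈ d → ∃ q', KR d q' ∧ (q' ∈ PP ∧ EE q' q) ∧ U z q' ∧
      (∃ b, b ∈ q' ∧ a ∈ b) ∧ ∀ b, b ∈ q' → b ∈ d) (by
    apply_rules (maxDepth := 1000) [hU', DL.limL, DL.KR, DL.EE, Dfn.ex, Dfn.and, Dfn.all,
      Dfn.imp, Dfn.mem, DT.var, DL.c]) (lo om)
  have hcs' : ∀ δ, δ ∈ ords cs.1 ↔ δ < om ∧ (Lim δ ∧ p.1 ∈ K δ) ∧ ∀ n : ℕ, ∀ q : LL.{u},
      q.1 ∈ K δ → Cond q.1 → EndExt q.1 p.1 → ∀ α < δ, ∃ q' : LL.{u}, q'.1 ∈ K δ ∧ Cond q'.1 ∧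
        EndExt q'.1 q.1 ∧ U (lo n) q' ∧ (∃ b ∈ ords q'.1, α < b) ∧ ∀ b ∈ ords q'.1, b < δ := by
    intro δ
    refine (hcs (lo δ)).trans ?_
    rw [lo_mem_lo, limL_iff, KR_lo]
    refine and_congr_right fun _ => and_congr_right fun _ => ?_
    constructor
    · intro h n q hq hq' hqp α hα
      obtain ⟨q', h1, ⟨h2, h3⟩, h4, ⟨b, hb, hab⟩, h5⟩ := h (lo n) (lo_mem_lo.2 (natCast_lt_omega0 n)) q
        (KR_lo.2 hq) (mem_PP.2 hq') ((EE_iff hq' hp).2 hqp) (lo α) (lo_mem_lo.2 hα)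
      rw [mem_PP] at h2
      obtain ⟨β, _, rfl⟩ := mem_lo.1 (h5 b hb)
      exact ⟨q', KR_lo.1 h1, h2, (EE_iff h2 hq').1 h3, h4, ⟨β, hb, lo_mem_lo.1 hab⟩,
        fun b hb => lo_mem_lo.1 (h5 (lo b) hb)⟩
    · intro h z hz q hq hq' hqp a ha
      obtain ⟨ν, hν, rfl⟩ := mem_lo.1 hz
      obtain ⟨n, rfl⟩ := lt_omega0.1 hν
      obtain ⟨α, hα, rfl⟩ := mem_lo.1 ha
      rw [mem_PP] at hq'
      obtain ⟨q', h1, h2, h3, h4, ⟨b, hb, hab⟩, h5⟩ := h n q (KR_lo.1 hq) hq'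
        ((EE_iff hq' hp).1 hqp) α hα
      refine ⟨q', KR_lo.2 h1, ⟨mem_PP.2 h2, (EE_iff h2 hq').2 h3⟩, h4, ⟨lo b, hb, lo_mem_lo.2 hab⟩,
        fun b hb => ?_⟩
      obtain ⟨β, _, h6⟩ := h2.ord b.1 hb
      have e : b = lo β := LL.ext h6
      subst e
      exact lo_mem_lo.2 (h5 β hb)
  have hclub : ClubIn (ords cs.1) om := by
    refine ⟨fun α hα => ?_, fun l hl hl0 h => ?_⟩
    · -- unbounded
      have hstep : ∀ δ : {δ : Ordinal.{u} // δ < om}, ∃ δ' : {δ : Ordinal.{u} // δ < om},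
          δ.1 < δ'.1 ∧ ∀ n : ℕ, ∀ q : LL.{u}, q.1 ∈ K δ.1 → Cond q.1 → EndExt q.1 p.1 →
            ∀ α < δ.1, ∃ q' : LL.{u}, q'.1 ∈ K δ'.1 ∧ Cond q'.1 ∧ EndExt q'.1 q.1 ∧
              U (lo n) q' ∧ (∃ b ∈ ords q'.1, α < b) ∧ ∀ b ∈ ords q'.1, b < δ'.1 := by
        rintro ⟨δ, hδ⟩
        have h1 : ∀ t : ℕ × {q : ZFSet.{u} // q ∈ K δ} × Set.Iio δ, ∃ ξ < om,
            Cond t.2.1.1 → EndExt t.2.1.1 p.1 → ∃ q' : LL.{u}, q'.1 ∈ K ξ ∧ Cond q'.1 ∧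
              EndExt q'.1 t.2.1.1 ∧ U (lo t.1) q' ∧ (∃ b ∈ ords q'.1, t.2.2.1 < b) ∧
                ∀ b ∈ ords q'.1, b < ξ := by
          rintro ⟨n, ⟨q, hq⟩, ⟨α, hα⟩⟩
          by_cases hc : Cond q ∧ EndExt q p.1
          · obtain ⟨q', h2, h3, h4, h5⟩ := hd1 n ⟨q, hc.1.constr⟩ hc.1 hc.2 α (lt_trans hα hδ)
            obtain ⟨m, hm, hmx⟩ := h2.max
            obtain ⟨ξ, hξ, h6⟩ := (K_lim lim_om).1 (cond_mem_K h2)
            refine ⟨max ξ (Order.succ m), max_lt hξ (om_succ (max_lt_om h2 hm)), fun _ _ =>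
              ⟨q', K_sub (le_max_left _ _) h6, h2, h3, h4, h5, fun b hb => ?_⟩⟩
            exact (Order.lt_succ_iff.2 (hmx b hb)).trans_le (le_max_right _ _)
          · exact ⟨0, om_pos, fun h2 h3 => absurd ⟨h2, h3⟩ hc⟩
        choose ξ hξ hξ' using h1
        have hc1 : Countable {q : ZFSet.{u} // q ∈ K δ} := (countable_K hδ).to_subtype
        have hc2 : Countable (Set.Iio δ) := countable_Iio hδ
        obtain ⟨β, hβ, hb⟩ := bd ξ hξ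
        refine ⟨⟨max β (Order.succ δ), max_lt hβ (om_succ hδ)⟩,
          (Order.lt_succ δ).trans_le (le_max_right _ _), fun n q hq hq' hqp α hα => ?_⟩
        obtain ⟨q', h2, h3, h4, h5, h6, h7⟩ := hξ' (n, ⟨q.1, hq⟩, ⟨α, hα⟩) hq' hqp
        refine ⟨q', K_sub ((hb _).trans (le_max_left _ _)) h2, h3, h4, h5, h6, fun b hb' => ?_⟩
        exact (h7 b hb').trans_le ((hb _).trans (le_max_left _ _))
      choose F hF1 hF2 using hstep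
      obtain ⟨ξp, hξp, hpK⟩ := (K_lim lim_om).1 (cond_mem_K hp)
      let s : ℕ → {δ : Ordinal.{u} // δ < om} := fun n => F^[n+1] ⟨max α ξp, max_lt hα hξp⟩
      have hs : ∀ n, s (n+1) = F (s n) := fun n => Function.iterate_succ_apply' F (n+1) _
      have hmono' : StrictMono fun n => (s n).1 := strictMono_nat_of_lt_succ fun n => by
        show (s n).1 < (s (n+1)).1
        rw [hs]; exact hF1 _
      have hs0 : max α ξp < (s 0).1 := hF1 _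
      let δ : Ordinal.{u} := ⨆ n, (s n).1
      have hδ : δ < om := by
        obtain ⟨β, hβ, hb⟩ := bd (fun n => (s n).1) fun n => (s n).2
        exact (Ordinal.iSup_le hb).trans_lt hβ
      have hle : ∀ n, (s n).1 ≤ δ := fun n => Ordinal.le_iSup (fun n => (s n).1) n
      have hlt : ∀ n, (s n).1 < δ := fun n => (hmono' (Nat.lt_succ_self n)).trans_le (hle _)
      have hex : ∀ β < δ, ∃ n, β < (s n).1 := fun β hβ => by
        obtain ⟨n, hn⟩ := (Ordinal.lt_iSup_iff).1 hβ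
        exact ⟨n, hn⟩
      have hlim : Lim δ := by
        refine ⟨bot_le.trans_lt (hlt 0), fun β hβ => ?_⟩
        obtain ⟨n, hn⟩ := hex β hβ
        exact (Order.succ_le_iff.2 hn).trans_lt (hlt n)
      have hK : ∀ x : ZFSet.{u}, x ∈ K δ → ∃ n, x ∈ K (s n).1 := by
        intro x hx
        obtain ⟨β, hβ, hx⟩ := mem_K.1 hx
        obtain ⟨n, hn⟩ := hex β hβ
        exact ⟨n, mem_K.2 ⟨β, hn, hx⟩⟩
      refine ⟨δ, (hcs' δ).2 ⟨hδ, ⟨hlim, K_sub (((le_max_right _ _).trans hs0.le).trans (hle 0)) hpK⟩,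
        fun n q hq hq' hqp β hβ => ?_⟩, ((le_max_left _ _).trans_lt hs0).trans (hlt 0), hδ⟩
      obtain ⟨n1, hn1⟩ := hK q.1 hq
      obtain ⟨n2, hn2⟩ := hex β hβ
      obtain ⟨q', h2, h3, h4, h5, h6, h7⟩ := hF2 (s (max n1 n2)) n q
        (K_sub (hmono'.monotone (le_max_left n1 n2)) hn1) hq' hqp β
        (hn2.trans_le (hmono'.monotone (le_max_right n1 n2)))
      rw [← hs] at h2 h7
      exact ⟨q', K_sub (hle _) h2, h3, h4, h5, h6, fun b hb => (h7 b hb).trans (hlt _)⟩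
    · -- closed
      have hl' : Lim l := ⟨hl0, fun α hα => by
        obtain ⟨β, _, h1, h2⟩ := h α hα
        exact (Order.succ_le_iff.2 h1).trans_lt h2⟩
      refine (hcs' l).2 ⟨hl, ⟨hl', ?_⟩, fun n q hq hq' hqp α hα => ?_⟩
      · obtain ⟨β, h1, _, h2⟩ := h 0 hl0
        exact K_sub h2.le ((hcs' β).1 h1).2.1.2
      · obtain ⟨ξ, hξ, h1⟩ := (K_lim hl').1 hq
        obtain ⟨β, h2, h3, h4⟩ := h _ (max_lt hξ hα)
        obtain ⟨q', h5, h6, h7, h8, h9, h10⟩ := ((hcs' β).1 h2).2.2 n q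
          (K_sub ((le_max_left _ _).trans h3.le) h1) hq' hqp α ((le_max_right _ _).trans_lt h3)
        exact ⟨q', K_sub h4.le h5, h6, h7, h8, h9, fun b hb => (h10 b hb).trans h4⟩
  obtain ⟨δ, hδ, hδom, hfn⟩ := fn_stat cs.2 hclub om_pos
  obtain ⟨_, ⟨hδl, hpδ⟩, hcl⟩ := (hcs' δ).1 hδ
  -- enumerations
  obtain ⟨k, hk⟩ := LL_sep' (P := fun q => KR (lo δ) q ∧ EE q p) (by
    apply_rules (maxDepth := 1000) [DL.KR, DL.EE, Dfn.and, Dfn.mem, DT.var, DL.c]) PP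
  have hk' : ∀ q, q ∈ k ↔ Cond q.1 ∧ q.1 ∈ K δ ∧ EndExt q.1 p.1 := by
    intro q
    rw [hk, mem_PP, KR_lo]
    refine and_congr_right fun h1 => and_congr_right fun _ => EE_iff h1 hp
  obtain ⟨g, hg⟩ := ctL_num (hω k ((countable_K hδom).mono fun x hx => by
    exact ((hk' ⟨x, k.2.trans hx⟩).1 hx).2.1))
  obtain ⟨h', hh'⟩ := ctL_num (hω (lo δ) (by
    have := countable_Iio hδom
    refine (Set.countable_range fun β : Set.Iio δ => β.1.toZFSet).mono fun x hx => ?_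
    obtain ⟨β, hβ, rfl⟩ := mem_toZFSet_iff.1 hx
    exact ⟨⟨β, hβ⟩, rfl⟩))
  obtain ⟨f, s, hf0, hfk, hfR, hs⟩ := dc hg (R := fun z c c' => EE c' c ∧ U z c' ∧
      (∀ b, b ∈ c' → b ∈ lo δ) ∧ ∀ a, a ∈ lo δ → Num h' (lo δ) a z → ∃ b, b ∈ c' ∧ a ∈ b) (by
    apply_rules (maxDepth := 1000) [hU', dl_num, DL.EE, Dfn.ex, Dfn.and, Dfn.all, Dfn.imp,
      Dfn.mem, DT.var, DL.c]) (c0 := p) ((hk' p).2 ⟨hp, hpδ, EndExt.refl _⟩) (fun n c hc => by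
    obtain ⟨h1, h2, h3⟩ := (hk' c).1 hc
    by_cases ha : ∃ a, a ∈ lo δ ∧ Num h' (lo δ) a (lo n)
    · obtain ⟨a, ha, hN⟩ := ha
      obtain ⟨α, hα, rfl⟩ := mem_lo.1 ha
      obtain ⟨q', h4, h5, h6, h7, ⟨b, hb, hab⟩, h8⟩ := hcl n c h2 h1 h3 α hα
      refine ⟨q', (hk' q').2 ⟨h5, h4, h6.trans h3⟩, (EE_iff h5 h1).2 h6, h7, fun b hb => ?_,
        fun a' ha' hN' => ?_⟩
      · obtain ⟨β, _, h9⟩ := h5.ord b.1 hb
        have e : b = lo β := LL.ext h9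
        subst e
        exact lo_mem_lo.2 (h8 β hb)
      · have e : a' = lo α := hN.2.2 a' ha' hN'.2.1
        subst e
        exact ⟨lo b, hb, lo_mem_lo.2 hab⟩
    · obtain ⟨q', h4, h5, h6, h7, _, h8⟩ := hcl n c h2 h1 h3 0 hδl.1
      refine ⟨q', (hk' q').2 ⟨h5, h4, h6.trans h3⟩, (EE_iff h5 h1).2 h6, h7, fun b hb => ?_,
        fun a' ha' hN' => absurd ⟨a', ha', hN'⟩ ha⟩
      obtain ⟨β, _, h9⟩ := h5.ord b.1 hb
      have e : b = lo β := LL.ext h9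
      subst e
      exact lo_mem_lo.2 (h8 β hb))
  have hfc : ∀ n, Cond (f n).1 := fun n => ((hk' _).1 (hfk n)).1
  have hfe : ∀ n, EndExt (f (n+1)).1 (f n).1 := fun n => (EE_iff (hfc _) (hfc _)).1 (hfR n).1
  have hfe' : ∀ n m, n ≤ m → EndExt (f m).1 (f n).1 := by
    intro n m hnm
    induction m, hnm using Nat.le_induction with
    | base => exact EndExt.refl _
    | succ m _ ih => exact (hfe m).trans ih
  have hunb : ∀ α < δ, ∃ n, ∃ b ∈ ords (f n).1, α < b := by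
    intro α hα
    obtain ⟨z, hz⟩ := hh' (lo α) (lo_mem_lo.2 hα)
    obtain ⟨ν, hν, rfl⟩ := mem_lo.1 hz.1
    obtain ⟨n, rfl⟩ := lt_omega0.1 hν
    obtain ⟨b, hb, hab⟩ := (hfR n).2.2.2 (lo α) (lo_mem_lo.2 hα) hz
    obtain ⟨β, _, h1⟩ := (hfc (n+1)).ord b.1 hb
    have e : b = lo β := LL.ext h1
    subst e
    exact ⟨n+1, β, hb, lo_mem_lo.1 hab⟩
  have hflt : ∀ n, ∀ b ∈ ords (f n).1, b < δ := by
    intro n b hb
    have h1 : b ∈ ords (f (n+1)).1 := ee_mem (hfe n) hb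
    exact lo_mem_lo.1 ((hfR n).2.2.1 (lo b) h1)
  -- the limit condition
  obtain ⟨q, hq⟩ := LL_sep' (P := fun x => (∃ c, (∃ t, t ∈ s ∧ ∃ z, IsOp (· ∈ ·) t z c) ∧ x ∈ c) ∨
      x = lo δ) (by
    apply_rules (maxDepth := 1000) [DL.isOp, Dfn.ex, Dfn.and, Dfn.or, Dfn.mem, Dfn.eq, DT.var,
      DL.c]) (lo om)
  have hqo : ∀ α, α ∈ ords q.1 ↔ (∃ n, α ∈ ords (f n).1) ∨ α = δ := by
    intro α
    refine (hq (lo α)).trans ?_
    rw [lo_inj]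
    constructor
    · rintro ⟨_, ⟨c, ⟨t, ht, z, h1⟩, h2⟩ | h1⟩
      · obtain ⟨n, rfl⟩ := (hs t).1 ht
        rw [LL.isOp_iff', lpair_inj] at h1
        rw [← h1.2] at h2
        exact Or.inl ⟨n, h2⟩
      · exact Or.inr h1
    · rintro (⟨n, hn⟩ | rfl)
      · refine ⟨lo_mem_lo.2 (max_lt_om (hfc n) hn), Or.inl ⟨f n, ⟨lpair (lo n) (f n), (hs _).2
          ⟨n, rfl⟩, lo n, LL.isOp_iff'.2 rfl⟩, hn⟩⟩
      · exact ⟨lo_mem_lo.2 hδom, Or.inr rfl⟩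
  have hqn : ∀ n, ∀ α ∈ ords q.1, ∀ b ∈ ords (f n).1, α < b → α ∈ ords (f n).1 := by
    intro n α hα b hb hαb
    rcases (hqo α).1 hα with ⟨m, hm⟩ | rfl
    · by_contra hc
      rcases le_total m n with h1 | h1
      · exact hc (ee_mem (hfe' m n h1) hm)
      · exact absurd ((hfe' n m h1).2 α hm hc b hb) (not_lt.2 hαb.le)
    · exact absurd (hflt n b hb) (not_lt.2 hαb.le)
  have hqc : Cond q.1 := by
    refine ⟨q.2, ?_, ?_, ?_, ?_⟩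
    · intro x hx
      have h1 := ((hq ⟨x, q.2.trans hx⟩).1 hx).1
      obtain ⟨α, hα, h2⟩ := mem_lo.1 h1
      exact ⟨α, hα, congrArg LL.val h2⟩
    · refine ⟨δ, (hqo δ).2 (Or.inr rfl), fun α hα => ?_⟩
      rcases (hqo α).1 hα with ⟨n, hn⟩ | rfl
      · exact (hflt n α hn).le
      · exact le_rfl
    · rintro l hl ⟨m, hm, hlm⟩ h
      have hlδ : l < δ := by
        rcases (hqo m).1 hm with ⟨n, hn⟩ | rfl
        · exact hlm.trans (hflt n m hn)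
        · exact hlm
      obtain ⟨n, b, hb, hlb⟩ := hunb l hlδ
      refine (hqo l).2 (Or.inl ⟨n, (hfc n).closed l hl ⟨b, hb, hlb⟩ fun α hα => ?_⟩)
      obtain ⟨β, h1, h2, h3⟩ := h α hα
      exact ⟨β, hqn n β h1 b hb (h3.trans hlb), h2, h3⟩
    · intro d hd γ hγ hl
      rcases (hqo d).1 hd with ⟨n, hn⟩ | rfl
      · obtain ⟨h1, h2⟩ := (hfc n).code d hn γ hγ hl
        exact ⟨fun h3 h4 => h1 h3 (hqn n γ h4 d hn hγ), fun h3 => (hqo γ).2 (Or.inl ⟨n, h2 h3⟩)⟩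
      · rw [hfn]
        refine ⟨fun h3 => absurd hl.1 (by rw [← h3]; exact lt_irrefl _), fun h3 =>
          absurd (bot_le.trans_lt (Order.lt_succ γ)) (by rw [← h3]; exact lt_irrefl _)⟩
  have hqe : ∀ n, EndExt q.1 (f n).1 := by
    intro n
    refine ⟨fun x hx => ?_, fun α hα hα' b hb => ?_⟩
    · obtain ⟨α, _, rfl⟩ := (hfc n).ord x hx
      exact (hqo α).2 (Or.inl ⟨n, hx⟩)
    · by_contra hc
      push Not at hc
      rcases hc.lt_or_eq with h1 | h1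
      · exact hα' (hqn n α hα b hb h1)
      · rw [h1] at hα'; exact hα' hb
  refine ⟨q, hqc, hf0 ▸ hqe 0, fun n => ?_⟩
  exact hmono _ _ _ (hfc (n+1)) hqc (hqe (n+1)) (hfR n).2.1

end NN

open NN

/-- **A generic set adds no countable sets of constructible sets.** -/
theorem noNewSeq {C : Set Ordinal.{u}} (hC : Generic C) (hω : OmL.{u}) : NoNewSeq.{u} := by
  intro x hx hct
  by_cases hne : ∃ y, y ∈ x
  swap
  · have : x = ∅ := by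
      ext y
      exact ⟨fun h => absurd ⟨y, h⟩ hne, fun h => absurd h (ZFSet.notMem_empty _)⟩
    rw [this]; exact isL_empty
  obtain ⟨y0, hy0⟩ := hne
  have hne' : (SetLike.coe x).Nonempty := ⟨y0, hy0⟩
  obtain ⟨y, hy⟩ := hct.exists_eq_range hne'
  have hyx : ∀ n, y n ∈ x := fun n => by
    have : y n ∈ (SetLike.coe x) := by rw [hy]; exact ⟨n, rfl⟩
    exact this
  have hyx' : ∀ z ∈ x, ∃ n, y n = z := fun z hz => by
    have : z ∈ (SetLike.coe x) := hz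
    rw [hy] at this
    exact this
  obtain ⟨γ, _, hγ⟩ := exists_level y fun n => hx _ (hyx n)
  let yL : ℕ → LL.{u} := fun n => ⟨y n, γ, hγ n⟩
  let a : LL.{u} := ⟨G 1 (lo.{u} ω).1 (K γ), isL_G (by norm_num) (lo ω).2 (isL_K γ)⟩
  have ha : ∀ (n : ℕ) (z : LL.{u}), z.1 ∈ K γ → (lpair (lo n) z).1 ∈ a.1 := fun n z hz =>
    mem_G1.2 ⟨lo_mem_lo.2 (natCast_lt_omega0 n), hz⟩
  obtain ⟨r, hr, hr'⟩ := hC.names a.1 a.2
    (ZFSet.sep (fun t => ∃ n : ℕ, t = (lpair (lo n) (yL n)).1) a.1)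
    (fun t ht => (ZFSet.mem_sep.1 ht).1)
  let rL : LL.{u} := ⟨r, hr⟩
  let kL : LL.{u} := ⟨K γ, isL_K γ⟩
  let U : LL.{u} → LL.{u} → Prop := fun z q => ∃ y, y ∈ kL ∧ ∃ s, (s ∈ PP ∧ EE q s) ∧
    ∃ t, IsOp (· ∈ ·) t z y ∧ ∃ w, IsOp (· ∈ ·) w s t ∧ w ∈ rL
  have hUd : DL (fun v => U (v 0) (v 1)) := by
    apply_rules (maxDepth := 1000) [DL.isOp, DL.EE, Dfn.ex, Dfn.and, Dfn.mem, DT.var, DL.c]
  have hU' : ∀ {s t : (ℕ → LL.{u}) → LL.{u}}, DT Set.univ s → DT Set.univ t →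
      DL (fun v => U (s v) (t v)) := fun h1 h2 => DL.sub2 hUd h1 h2
  have hmono : ∀ z q q', Cond q.1 → Cond q'.1 → EndExt q'.1 q.1 → U z q → U z q' := by
    rintro z q q' hq hq' hqq ⟨y, hy, s, ⟨hs, hqs⟩, h⟩
    have hs' := mem_PP.1 hs
    exact ⟨y, hy, s, ⟨hs, (EE_iff hq' hs').2 (hqq.trans ((EE_iff hq hs').1 hqs))⟩, h⟩
  -- the meaning of `U` for the members of the generic
  have hUC : ∀ (β : Ordinal.{u}) (hβ : β ∈ C) (n : ℕ) (z : LL.{u}), z.1 ∈ K γ →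
      (∃ s, (s ∈ PP ∧ EE (sg hC hβ).1 s) ∧ lpair s (lpair (lo n) z) ∈ rL) → z = yL n := by
    rintro β hβ n z hz ⟨s, ⟨hs, hqs⟩, h⟩
    have hs' := mem_PP.1 hs
    obtain ⟨m, hm, _, h1⟩ := eq_sg hC hβ (s := ⟨s, hs'⟩) ((EE_iff (hC.cond β hβ) hs').1 hqs)
    have h2 : s.1 = seg C m := congrArg (fun t : Pc.{u} => t.1.1) h1
    have h3 : ZFSet.pair (seg C m) (lpair (lo n) z).1 ∈ r := by
      rw [← h2]; exact h
    have h4 := (hr' _ (ha n z hz)).2 ⟨m, hm, h3⟩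
    obtain ⟨n', h5⟩ := (ZFSet.mem_sep.1 h4).2
    have h6 : lpair (lo n) z = lpair (lo n') (yL n') := LL.ext h5
    rw [lpair_inj, lo_inj] at h6
    have h7 : n = n' := by exact_mod_cast h6.1
    rw [h7]; exact h6.2
  have hUe : ∀ n : ℕ, ∃ (β : Ordinal.{u}) (hβ : β ∈ C), U (lo n) (sg hC hβ).1 := by
    intro n
    have h1 : (lpair (lo n) (yL n)).1 ∈ ZFSet.sep (fun t => ∃ n : ℕ, t = (lpair (lo n) (yL n)).1)
      a.1 := ZFSet.mem_sep.2 ⟨ha n _ (hγ n), n, rfl⟩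
    obtain ⟨β, hβ, h2⟩ := (hr' _ (ha n (yL n) (hγ n))).1 h1
    refine ⟨β, hβ, yL n, hγ n, (sg hC hβ).1, ⟨mem_PP.2 (sg hC hβ).2,
      (EE_iff (sg hC hβ).2 (sg hC hβ).2).2 (EndExt.refl _)⟩, _, LL.isOp_iff'.2 rfl, _,
      LL.isOp_iff'.2 rfl, h2⟩
  -- all the sets are dense below some member of the generic
  obtain ⟨B, hB⟩ := LL_sep' (P := fun c => ∃ z, z ∈ lo.{u} ω ∧ ∀ q, q ∈ PP → EE q c → ¬ U z q) (by
    apply_rules (maxDepth := 1000) [hU', DL.EE, Dfn.ex, Dfn.and, Dfn.all, Dfn.imp, Dfn.not,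
      Dfn.fls, Dfn.mem, DT.var, DL.c]) PP
  obtain ⟨β0, hβ0, h0⟩ := gen_dec hC B
  have hdense : ∀ n : ℕ, ∀ q : LL.{u}, Cond q.1 → EndExt q.1 (sg hC hβ0).1.1 →
      ∃ q' : LL.{u}, Cond q'.1 ∧ EndExt q'.1 q.1 ∧ U (lo n) q' := by
    rcases h0 with h0 | h0
    · exfalso
      obtain ⟨_, z, hz, h1⟩ := (hB _).1 h0
      obtain ⟨ν, hν, rfl⟩ := mem_lo.1 hz
      obtain ⟨n, rfl⟩ := lt_omega0.1 hν
      obtain ⟨β, hβ, h2⟩ := hUe n
      rcases le_total β β0 with h3 | h3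
      · refine h1 (sg hC hβ0).1 (mem_PP.2 (sg hC hβ0).2)
          ((EE_iff (sg hC hβ0).2 (sg hC hβ0).2).2 (EndExt.refl _)) ?_
        exact hmono _ _ _ (sg hC hβ).2 (sg hC hβ0).2 (sg_le hC hβ hβ0 h3) h2
      · exact h1 (sg hC hβ).1 (mem_PP.2 (sg hC hβ).2)
          ((EE_iff (sg hC hβ).2 (sg hC hβ0).2).2 (sg_le hC hβ0 hβ h3)) h2
    · intro n q hq hqp
      have h1 := h0 ⟨q, hq⟩ hqp
      by_contra hc
      apply h1
      refine (hB q).2 ⟨mem_PP.2 hq, lo n, lo_mem_lo.2 (natCast_lt_omega0 n), fun q' hq' hqq h2 => hc ?_⟩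
      rw [mem_PP] at hq'
      exact ⟨q', hq', (EE_iff hq' hq).1 hqq, h2⟩
  -- a member of the generic in all of them
  obtain ⟨E, hE⟩ := LL_sep' (P := fun c => ∀ z, z ∈ lo.{u} ω → U z c) (by
    apply_rules (maxDepth := 1000) [hU', Dfn.all, Dfn.imp, Dfn.mem, DT.var, DL.c]) PP
  obtain ⟨β1, hβ1, h1⟩ := gen_dec hC E
  have hall : ∀ n : ℕ, U (lo n) (sg hC hβ1).1 := by
    rcases h1 with h1 | h1
    · intro n
      exact ((hE _).1 h1).2 (lo n) (lo_mem_lo.2 (natCast_lt_omega0 n))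
    · exfalso
      obtain ⟨β2, hβ2, h2, h3⟩ : ∃ (β2 : Ordinal.{u}) (hβ2 : β2 ∈ C), β0 ≤ β2 ∧ β1 ≤ β2 := by
        rcases le_total β0 β1 with h | h
        · exact ⟨β1, hβ1, h, le_rfl⟩
        · exact ⟨β0, hβ0, le_rfl, h⟩
      obtain ⟨q, hq, hqp, hqU⟩ := fuse hω hUd hmono (p := (sg hC hβ2).1) (sg hC hβ2).2
        (fun n q hq hqp => hdense n q hq (EndExt.trans hqp (sg_le hC hβ0 hβ2 h2)))
      refine h1 ⟨q, hq⟩ (EndExt.trans hqp (sg_le hC hβ1 hβ2 h3)) ((hE q).2 ⟨mem_PP.2 hq, fun z hz => ?_⟩)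
      obtain ⟨ν, hν, rfl⟩ := mem_lo.1 hz
      obtain ⟨n, rfl⟩ := lt_omega0.1 hν
      exact hqU n
  -- the set is constructible
  obtain ⟨S, hS⟩ := LL_sep' (P := fun y => ∃ z, z ∈ lo.{u} ω ∧ ∃ s,
      (s ∈ PP ∧ EE (sg hC hβ1).1 s) ∧ ∃ t, IsOp (· ∈ ·) t z y ∧ ∃ w, IsOp (· ∈ ·) w s t ∧ w ∈ rL) (by
    apply_rules (maxDepth := 1000) [DL.isOp, DL.EE, Dfn.ex, Dfn.and, Dfn.mem, DT.var, DL.c]) kL
  have hSx : x = S.1 := by
    ext z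
    constructor
    · intro hz
      obtain ⟨n, rfl⟩ := hyx' z hz
      obtain ⟨w, hw, s, hs, t, ht, e, he, her⟩ := hall n
      have h2 : w = yL n := by
        refine hUC β1 hβ1 n w hw ⟨s, hs, ?_⟩
        rw [LL.isOp_iff'] at ht he
        rw [← ht, ← he]; exact her
      subst h2
      exact (hS (yL n)).2 ⟨hγ n, lo n, lo_mem_lo.2 (natCast_lt_omega0 n), s, hs, t, ht, e, he, her⟩
    · intro hz
      obtain ⟨h2, ν', hν', s, hs, t, ht, e, he, her⟩ := (hS ⟨z, S.2.trans hz⟩).1 hz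
      obtain ⟨ν, hν, rfl⟩ := mem_lo.1 hν'
      obtain ⟨n, rfl⟩ := lt_omega0.1 hν
      rw [LL.isOp_iff'] at ht he
      have h3 := hUC β1 hβ1 n ⟨z, S.2.trans hz⟩ h2 ⟨s, hs, by rw [← ht, ← he]; exact her⟩
      have h4 : z = y n := congrArg LL.val h3
      rw [h4]; exact hyx n
  rw [hSx]; exact S.2

end Pool.Agent.DQ1
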