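import Pool.Agent.DQ1.Forc

/-! # A definable wellorder of the constructible universe -/

namespace Pool.Agent.DQ1

open Cardinal Ordinal
open ZFM (Fm Sat Dfn DT IsZF)

universe u v w

/-! ### Wellordered sets -/

namespace WO

/-- `R` is a wellorder of the set `A` -/
structure WOn {α : Type*} (R : α → α → Prop) (A : Set α) : Prop where
  asym : ∀ x ∈ A, ∀ y ∈ A, R x y → ¬ R y x
  least : ∀ B ⊆ A, B.Nonempty → ∃ m ∈ B, ∀ b ∈ B, b ≠ m → R m b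

theorem isWellOrder_of {α : Type*} {R : α → α → Prop} (h : WOn R Set.univ) : IsWellOrder α R := by
  have hwf : WellFounded R := by
    rw [WellFounded.wellFounded_iff_has_min]
    intro B hB
    obtain ⟨m, hm, h1⟩ := h.least B (Set.subset_univ _) hB
    refine ⟨m, hm, fun x hx hxm => ?_⟩
    by_cases he : x = m
    · rw [he] at hxm
      exact h.asym m (Set.mem_univ _) m (Set.mem_univ _) hxm hxm
    · exact h.asym _ (Set.mem_univ _) _ (Set.mem_univ _) hxm (h1 x hx he)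
  refine { wf := hwf, trichotomous := fun a b h1 h2 => ?_ }
  by_contra hne
  obtain ⟨m, hm, h3⟩ := h.least {a, b} (Set.subset_univ _) ⟨a, Or.inl rfl⟩
  rcases hm with rfl | hm
  · exact h1 (h3 b (Or.inr rfl) (Ne.symm hne))
  · obtain rfl : m = b := hm
    exact h2 (h3 a (Or.inl rfl) hne)

/-- lexicographic product of relations -/
def Lex {α β : Type*} (R : α → α → Prop) (S : β → β → Prop) (x y : α × β) : Prop :=
  R x.1 y.1 ∨ (x.1 = y.1 ∧ S x.2 y.2)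

theorem WOn.lex {α β : Type*} {R : α → α → Prop} {S : β → β → Prop} {A : Set α} {B : Set β}
    (hR : WOn R A) (hS : WOn S B) : WOn (Lex R S) (A ×ˢ B) := by
  constructor
  · rintro x hx y hy (h | ⟨h, h'⟩) (g | ⟨g, g'⟩)
    · exact hR.asym _ hx.1 _ hy.1 h g
    · rw [g] at h
      exact hR.asym _ hx.1 _ hx.1 h h
    · rw [h] at g
      exact hR.asym _ hy.1 _ hy.1 g g
    · exact hS.asym _ hx.2 _ hy.2 h' g'
  · intro T hT hne
    obtain ⟨t0, ht0⟩ := hne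
    obtain ⟨m, ⟨t1, ht1, hm1⟩, h1⟩ := hR.least (Prod.fst '' T)
      (by rintro _ ⟨t, ht, rfl⟩; exact (hT ht).1) ⟨_, t0, ht0, rfl⟩
    obtain ⟨m', ⟨t2, ⟨ht2, h2⟩, hm2⟩, h3⟩ := hS.least (Prod.snd '' {t | t ∈ T ∧ t.1 = m})
      (by rintro _ ⟨t, ⟨ht, _⟩, rfl⟩; exact (hT ht).2) ⟨_, t1, ⟨ht1, hm1⟩, rfl⟩
    refine ⟨t2, ht2, fun b hb hne => ?_⟩
    by_cases hb1 : b.1 = m
    · refine Or.inr ⟨h2.trans hb1.symm, ?_⟩
      rw [hm2]
      refine h3 b.2 ⟨b, ⟨hb, hb1⟩, rfl⟩ fun h4 => hne ?_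
      exact Prod.ext (hb1.trans h2.symm) (h4.trans hm2.symm)
    · refine Or.inl ?_
      rw [h2]
      exact h1 b.1 ⟨b, hb, rfl⟩ hb1

theorem wOn_nat (A : Set ℕ) : WOn (fun i j : ℕ => i < j) A := by
  constructor
  · intro x _ y _ h
    exact not_lt.2 h.le
  · intro B _ hB
    refine ⟨sInf B, Nat.sInf_mem hB, fun b hb hne => ?_⟩
    exact lt_of_le_of_ne (Nat.sInf_le hb) (Ne.symm hne)

end WO

open WO

/-! ### The order -/

/-- `K γ` as an element of `LL` -/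
noncomputable def klv (γ : Ordinal.{u}) : LL.{u} := ⟨K γ, isL_K γ⟩

theorem mem_kl {γ : Ordinal.{u}} {x : LL.{u}} : x ∈ klv γ ↔ x.1 ∈ K γ := Iff.rfl

/-- the birthday of a constructible set -/
noncomputable def bi (x : LL.{u}) : Ordinal.{u} := sInf {β | x.1 ∈ stp (K β)}

theorem bi_spec (x : LL.{u}) : x.1 ∈ stp (K (bi x)) := by
  obtain ⟨α, hα⟩ := x.2
  obtain ⟨β, _, h⟩ := mem_K.1 hα
  exact csInf_mem (s := {β | x.1 ∈ stp (K β)}) ⟨β, h⟩

theorem mem_kl_iff {γ : Ordinal.{u}} {x : LL.{u}} : x ∈ klv γ ↔ bi x < γ := by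
  rw [mem_kl, mem_K]
  constructor
  · rintro ⟨β, hβ, h⟩
    exact (csInf_le' (show β ∈ {β | x.1 ∈ stp (K β)} from h)).trans_lt hβ
  · intro h
    exact ⟨_, h, bi_spec x⟩

theorem bi_eq_iff {γ : Ordinal.{u}} {x : LL.{u}} : bi x = γ ↔ x.1 ∈ stp (K γ) ∧ x ∉ klv γ := by
  rw [mem_kl_iff]
  constructor
  · rintro rfl
    exact ⟨bi_spec x, lt_irrefl _⟩
  · rintro ⟨h1, h2⟩
    exact le_antisymm (csInf_le' (show γ ∈ {β | x.1 ∈ stp (K β)} from h1)) (not_lt.1 h2)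

/-- comparison of the least codes -/
def Shape (P : LL.{u} → LL.{u} → Prop) (k x y : LL.{u}) : Prop :=
  ∃ i < 10, ∃ a b : LL.{u}, (a ∈ k ∨ a = k) ∧ (b ∈ k ∨ b = k) ∧ IsG (· ∈ ·) i x a b ∧
    ∀ i' < 10, ∀ a' b' : LL.{u}, (a' ∈ k ∨ a' = k) → (b' ∈ k ∨ b' = k) →
      IsG (· ∈ ·) i' y a' b' → (i < i' ∨ (i = i' ∧ (P a a' ∨ (a = a' ∧ P b b'))))

/-- the order of the sets with birthday `γ` -/
noncomputable def Wn (γ : Ordinal.{u}) : LL.{u} → LL.{u} → Prop :=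
  Shape (fun a a' => a ∈ klv γ ∧ (a' = klv γ ∨ (a' ∈ klv γ ∧ (bi a < bi a' ∨
    (bi a = bi a' ∧ if _h : bi a < γ then Wn (bi a) a a' else False))))) (klv γ)
termination_by γ
decreasing_by exact _h

/-- the order of `L` -/
def WL (x y : LL.{u}) : Prop := bi x < bi y ∨ (bi x = bi y ∧ Wn (bi x) x y)

/-- the order of `K γ` with `K γ` as the greatest element -/
def PW (γ : Ordinal.{u}) (a a' : LL.{u}) : Prop :=
  a ∈ klv γ ∧ (a' = klv γ ∨ (a' ∈ klv γ ∧ WL a a'))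

theorem Wn_eq (γ : Ordinal.{u}) (x y : LL.{u}) : Wn γ x y ↔ Shape (PW γ) (klv γ) x y := by
  rw [Wn]
  have h : (fun a a' => a ∈ klv γ ∧ (a' = klv γ ∨ (a' ∈ klv γ ∧ (bi a < bi a' ∨
      (bi a = bi a' ∧ if _h : bi a < γ then Wn (bi a) a a' else False))))) = PW γ := by
    funext a a'
    apply propext
    unfold PW WL
    refine and_congr_right fun ha => ?_
    rw [dif_pos (mem_kl_iff.1 ha)]
  rw [h]

/-- codes -/
def Cod (γ : Ordinal.{u}) (x : LL.{u}) : Set (ℕ × LL.{u} × LL.{u}) :=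
  {c | c.1 < 10 ∧ (c.2.1 ∈ klv γ ∨ c.2.1 = klv γ) ∧ (c.2.2 ∈ klv γ ∨ c.2.2 = klv γ) ∧
    x.1 = G c.1 c.2.1.1 c.2.2.1}

theorem shape_iff {P : LL.{u} → LL.{u} → Prop} {γ : Ordinal.{u}} {x y : LL.{u}} :
    Shape P (klv γ) x y ↔ ∃ c ∈ Cod γ x, ∀ d ∈ Cod γ y, Lex (· < ·) (Lex P P) c d := by
  unfold Shape
  simp only [LL.isG_iff]
  constructor
  · rintro ⟨i, hi, a, b, ha, hb, hx, h⟩
    exact ⟨(i, a, b), ⟨hi, ha, hb, hx⟩, fun d hd => h d.1 hd.1 d.2.1 d.2.2 hd.2.1 hd.2.2.1 hd.2.2.2⟩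
  · rintro ⟨c, ⟨hi, ha, hb, hx⟩, h⟩
    exact ⟨c.1, hi, c.2.1, c.2.2, ha, hb, hx, fun i' hi' a' b' ha' hb' hy =>
      h (i', a', b') ⟨hi', ha', hb', hy⟩⟩

theorem cod_inj {γ : Ordinal.{u}} {x y : LL.{u}} {c : ℕ × LL.{u} × LL.{u}} (hx : c ∈ Cod γ x)
    (hy : c ∈ Cod γ y) : x = y := LL.ext (hx.2.2.2.trans hy.2.2.2.symm)

theorem K_zero : K (0 : Ordinal.{u}) = ∅ := by
  ext x
  rw [mem_K]
  constructor
  · rintro ⟨β, hβ, _⟩
    exact absurd hβ (not_lt.2 bot_le)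
  · intro h
    exact absurd h (ZFSet.notMem_empty x)

theorem empty_mem (γ : Ordinal.{u}) : (∅ : ZFSet.{u}) ∈ K γ ∨ (∅ : ZFSet.{u}) = K γ := by
  rcases eq_or_ne γ 0 with h | h
  · rw [h, K_zero]; exact Or.inr rfl
  · left
    have := K_mem (lt_of_le_of_ne (show (0 : Ordinal.{u}) ≤ γ from bot_le) (Ne.symm h))
    rwa [K_zero] at this

theorem cod_nonempty {γ : Ordinal.{u}} {x : LL.{u}} (h : bi x = γ) : (Cod γ x).Nonempty := by
  obtain ⟨h1, h2⟩ := bi_eq_iff.1 h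
  rcases mem_stp.1 h1 with h3 | h3 | ⟨i, hi, a, b, ha, hb, hg⟩
  · exact absurd h3 h2
  · refine ⟨(2, klv γ, ⟨∅, isL_empty⟩), by norm_num, Or.inr rfl, ?_, ?_⟩
    · exact (empty_mem γ).imp id fun h => LL.ext h
    · show x.1 = G 2 (K γ) ∅
      rw [h3]
      ext z
      rw [mem_G2]
      exact ⟨fun h => ⟨h, ZFSet.notMem_empty z⟩, fun h => h.1⟩
  · have hL : ∀ c, (c ∈ K γ ∨ c = K γ) → IsL c := fun c hc => by
      rcases hc with h | h
      · exact ⟨γ, h⟩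
      · rw [h]; exact isL_K γ
    exact ⟨(i, ⟨a, hL a ha⟩, ⟨b, hL b hb⟩), hi, ha.imp id fun h => LL.ext h,
      hb.imp id fun h => LL.ext h, isG_iff.1 hg⟩

theorem wOn_WL_of {S : Set Ordinal.{u}} (h : ∀ γ ∈ S, WOn (Wn γ) {x | bi x = γ}) :
    WOn WL {x : LL.{u} | bi x ∈ S} := by
  constructor
  · rintro x hx y hy (h1 | ⟨h1, h2⟩) (g1 | ⟨g1, g2⟩)
    · exact lt_asymm h1 g1
    · rw [g1] at h1; exact lt_irrefl _ h1
    · rw [h1] at g1; exact lt_irrefl _ g1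
    · rw [h1] at h2
      exact (h _ hy).asym x h1 y rfl h2 g2
  · intro B hB hne
    obtain ⟨b0, hb0⟩ := hne
    have hI : sInf (bi '' B) ∈ bi '' B := csInf_mem ⟨_, b0, hb0, rfl⟩
    obtain ⟨b1, hb1, h1⟩ := hI
    obtain ⟨m, ⟨hm, hm1⟩, h2⟩ := (h (bi b1) (hB hb1)).least {b | b ∈ B ∧ bi b = bi b1}
      (fun b hb => hb.2) ⟨b1, hb1, rfl⟩
    refine ⟨m, hm, fun b hb hne => ?_⟩
    have h3 : bi b1 ≤ bi b := by
      rw [h1]; exact csInf_le' ⟨b, hb, rfl⟩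
    rcases h3.lt_or_eq with h4 | h4
    · exact Or.inl (by rw [hm1]; exact h4)
    · refine Or.inr ⟨hm1.trans h4, ?_⟩
      rw [hm1]
      exact h2 b ⟨hb, h4.symm⟩ hne

theorem wOn_PW {γ : Ordinal.{u}} (h : WOn WL {x : LL.{u} | x ∈ klv γ}) :
    WOn (PW γ) {x : LL.{u} | x ∈ klv γ ∨ x = klv γ} := by
  have hk : klv γ ∉ klv γ := ZFSet.mem_irrefl _
  constructor
  · rintro x _ y _ ⟨h1, h2⟩ ⟨g1, g2⟩
    rcases h2 with h2 | ⟨h2, h3⟩
    · rw [h2] at g1; exact hk g1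
    · rcases g2 with g2 | ⟨g2, g3⟩
      · rw [g2] at h1; exact hk h1
      · exact h.asym x h1 y h2 h3 g3
  · intro B hB hne
    by_cases hne' : (B ∩ {x : LL.{u} | x ∈ klv γ}).Nonempty
    · obtain ⟨m, ⟨hm, hmk⟩, h1⟩ := h.least _ Set.inter_subset_right hne'
      refine ⟨m, hm, fun b hb hbm => ⟨hmk, ?_⟩⟩
      rcases hB hb with h2 | h2
      · exact Or.inr ⟨h2, h1 b ⟨hb, h2⟩ hbm⟩
      · exact Or.inl h2
    · obtain ⟨b0, hb0⟩ := hne
      have h1 : ∀ b ∈ B, b = klv γ := fun b hb => by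
        rcases hB hb with h2 | h2
        · exact absurd ⟨b, hb, h2⟩ hne'
        · exact h2
      exact ⟨b0, hb0, fun b hb hbm => absurd ((h1 b hb).trans (h1 b0 hb0).symm) hbm⟩

theorem wOn_Wn (γ : Ordinal.{u}) : WOn (Wn γ) {x | bi x = γ} := by
  induction γ using WellFoundedLT.induction with
  | ind γ ih =>
    have h1 : WOn WL {x : LL.{u} | x ∈ klv γ} := by
      have := wOn_WL_of (S := Set.Iio γ) ih
      have e : {x : LL.{u} | x ∈ klv γ} = {x : LL.{u} | bi x ∈ Set.Iio γ} := by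
        ext x
        exact mem_kl_iff
      rw [e]; exact this
    have h2 := (wOn_nat {i | i < 10}).lex ((wOn_PW h1).lex (wOn_PW h1))
    have hC : ∀ x, Cod γ x ⊆ {i : ℕ | i < 10} ×ˢ ({x : LL.{u} | x ∈ klv γ ∨ x = klv γ} ×ˢ
        {x : LL.{u} | x ∈ klv γ ∨ x = klv γ}) := fun x c hc => ⟨hc.1, hc.2.1, hc.2.2.1⟩
    constructor
    · intro x hx y hy h3 h4
      rw [Wn_eq, shape_iff] at h3 h4
      obtain ⟨c, hc, h5⟩ := h3
      obtain ⟨d, hd, h6⟩ := h4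
      exact h2.asym c (hC x hc) d (hC y hd) (h5 d hd) (h6 c hc)
    · intro B hB hne
      obtain ⟨b0, hb0⟩ := hne
      obtain ⟨c0, hc0⟩ := cod_nonempty (hB hb0)
      obtain ⟨c, ⟨m, hm, hcm⟩, h3⟩ := h2.least {c | ∃ b ∈ B, c ∈ Cod γ b}
        (by rintro c ⟨b, _, hc⟩; exact hC b hc) ⟨c0, b0, hb0, hc0⟩
      refine ⟨m, hm, fun b hb hbm => ?_⟩
      rw [Wn_eq, shape_iff]
      refine ⟨c, hcm, fun d hd => h3 d ⟨b, hb, hd⟩ fun h => hbm ?_⟩
      rw [h] at hd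
      exact cod_inj hd hcm

theorem isWellOrder_WL : IsWellOrder LL.{u} WL := by
  have h := wOn_WL_of (S := Set.univ) fun γ _ => wOn_Wn γ
  exact isWellOrder_of (by
    have e : {x : LL.{u} | bi x ∈ Set.univ} = Set.univ := by
      ext x; simp
    rw [← e]; exact h)

/-! ### Definability -/

/-- `k = K g` for an ordinal `g` -/
def KS (g k : LL.{u}) : Prop := IsOrd g ∧ ∀ z, z ∈ k ↔ KR g z

theorem KS_lo {γ : Ordinal.{u}} {k : LL.{u}} : KS (lo γ) k ↔ k = klv γ := by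
  unfold KS
  simp only [KR_lo]
  constructor
  · rintro ⟨_, h⟩
    exact isZF_LL.ext fun z => (h z).trans Iff.rfl
  · rintro rfl
    exact ⟨isOrd_iff_lo.2 ⟨γ, rfl⟩, fun z => Iff.rfl⟩

theorem DL.kS {x y : (ℕ → LL.{u}) → LL.{u}} (hx : DT Set.univ x) (hy : DT Set.univ y) :
    DL (fun v => KS (x v) (y v)) := by
  refine DL.sub2 (R := fun x y => KS x y) ?_ hx hy
  unfold KS
  apply_rules (maxDepth := 1000) [DL.KR, DL.isOrd, Dfn.and, Dfn.all, Dfn.iff, Dfn.mem, DT.var]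

/-- `x` is new at the level `g`, `k = K g` -/
def NewL (g k x : LL.{u}) : Prop := KS g k ∧ StepMem (· ∈ ·) x k ∧ x ∉ k

theorem newL_lo {γ : Ordinal.{u}} {k x : LL.{u}} : NewL (lo γ) k x ↔ k = klv γ ∧ bi x = γ := by
  unfold NewL
  rw [KS_lo]
  refine and_congr_right fun h => ?_
  rw [bi_eq_iff, LL.stepMem_iff, h]
  rfl

theorem DL.newL {x y z : (ℕ → LL.{u}) → LL.{u}} (hx : DT Set.univ x) (hy : DT Set.univ y)
    (hz : DT Set.univ z) : DL (fun v => NewL (x v) (y v) (z v)) := by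
  refine DL.sub3 (R := fun x y z => NewL x y z) ?_ hx hy hz
  unfold NewL
  apply_rules (maxDepth := 1000) [DL.kS, DL.stepMem, Dfn.and, Dfn.not, Dfn.fls, Dfn.mem, DT.var]

/-- the order of the earlier stages -/
def PS (s g k a a' : LL.{u}) : Prop :=
  a ∈ k ∧ (a' = k ∨ (a' ∈ k ∧ ∃ q r, IsOp (· ∈ ·) r a a' ∧ IsOp (· ∈ ·) q g r ∧ q ∈ s))

theorem DL.sub5 {R : LL.{u} → LL.{u} → LL.{u} → LL.{u} → LL.{u} → Prop}
    (hR : DL (fun v => R (v 0) (v 1) (v 2) (v 3) (v 4)))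
    {s t r q p : (ℕ → LL.{u}) → LL.{u}} (hs : DT Set.univ s) (ht : DT Set.univ t)
    (hr : DT Set.univ r) (hq : DT Set.univ q) (hp : DT Set.univ p) :
    DL (fun v => R (s v) (t v) (r v) (q v) (p v)) :=
  Dfn.subst (t := fun i v => match i with
    | 0 => s v
    | 1 => t v
    | 2 => r v
    | 3 => q v
    | _ => p v) hR (fun i => by
      match i with
      | 0 => exact hs
      | 1 => exact ht
      | 2 => exact hr
      | 3 => exact hq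
      | _+4 => exact hp)

theorem DL.pS {x y z t r : (ℕ → LL.{u}) → LL.{u}} (hx : DT Set.univ x) (hy : DT Set.univ y)
    (hz : DT Set.univ z) (ht : DT Set.univ t) (hr : DT Set.univ r) :
    DL (fun v => PS (x v) (y v) (z v) (t v) (r v)) := by
  refine DL.sub5 (R := fun x y z t r => PS x y z t r) ?_ hx hy hz ht hr
  unfold PS
  apply_rules (maxDepth := 1000) [DL.isOp, Dfn.ex, Dfn.and, Dfn.or, Dfn.mem, Dfn.eq, DT.var]

theorem DL.alllw {P : ℕ → (ℕ → LL.{u}) → Prop} (h : ∀ i, DL (P i)) (n : ℕ) :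
    DL (fun v => ∀ i < n, P i v) :=
  (DL.exlt (fun i => (h i).not) n).not.congr fun v => by
    constructor
    · intro h i hi
      by_contra hc
      exact h ⟨i, hi, hc⟩
    · rintro h ⟨i, hi, hc⟩
      exact hc (h i hi)

theorem DL.shape {x y z t r : (ℕ → LL.{u}) → LL.{u}} (hx : DT Set.univ x) (hy : DT Set.univ y)
    (hz : DT Set.univ z) (ht : DT Set.univ t) (hr : DT Set.univ r) :
    DL (fun v => Shape (PS (x v) (y v) (z v)) (z v) (t v) (r v)) := by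
  refine DL.sub5 (R := fun x y z t r => Shape (PS x y z) z t r) ?_ hx hy hz ht hr
  unfold Shape
  refine DL.exlt (fun i => ?_) 10
  refine Dfn.ex (Dfn.ex (Dfn.and ?_ (Dfn.and ?_ (Dfn.and ?_ (DL.alllw (fun i' => ?_) 10)))))
  · apply_rules (maxDepth := 1000) [Dfn.or, Dfn.mem, Dfn.eq, DT.var]
  · apply_rules (maxDepth := 1000) [Dfn.or, Dfn.mem, Dfn.eq, DT.var]
  · apply_rules (maxDepth := 1000) [DL.isG, DT.var]
  · refine Dfn.all (Dfn.all (Dfn.imp ?_ (Dfn.imp ?_ (Dfn.imp ?_ (Dfn.or (Dfn.prop _)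
      (Dfn.and (Dfn.prop _) (Dfn.or ?_ (Dfn.and ?_ ?_))))))))
    · apply_rules (maxDepth := 1000) [Dfn.or, Dfn.mem, Dfn.eq, DT.var]
    · apply_rules (maxDepth := 1000) [Dfn.or, Dfn.mem, Dfn.eq, DT.var]
    · apply_rules (maxDepth := 1000) [DL.isG, DT.var]
    · apply_rules (maxDepth := 1000) [DL.pS, DT.var]
    · apply_rules (maxDepth := 1000) [Dfn.eq, DT.var]
    · apply_rules (maxDepth := 1000) [DL.pS, DT.var]

/-- the stages -/
def HW (β : Ordinal.{u}) (p : LL.{u}) : Prop :=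
  ∃ x y, p = lpair x y ∧ bi x < β ∧ bi y < β ∧ WL x y

/-- the recursion -/
def PhiW (s o p : LL.{u}) : Prop :=
  ∃ x y, IsOp (· ∈ ·) p x y ∧ ∃ g, g ∈ o ∧ ∃ k, NewL g k x ∧ ∃ g', g' ∈ o ∧ ∃ k', NewL g' k' y ∧
    (g ∈ g' ∨ (g = g' ∧ Shape (PS s g k) k x y))

theorem dl_phiW : DL (fun v : ℕ → LL.{u} => PhiW (v 0) (v 1) (v 2)) := by
  unfold PhiW
  apply_rules (maxDepth := 1000) [DL.shape, DL.newL, DL.isOp, Dfn.ex, Dfn.and, Dfn.or, Dfn.mem,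
    Dfn.eq, DT.var]

theorem hW_step {β : Ordinal.{u}} {s : LL.{u}} (hs : Stg HW s β) (p : LL.{u}) :
    HW β p ↔ PhiW s (lo β) p := by
  have key : ∀ γ < β, PS s (lo γ) (klv γ) = PW γ := by
    intro γ hγ
    funext a a'
    apply propext
    unfold PS PW
    refine and_congr_right fun ha => or_congr Iff.rfl (and_congr_right fun ha' => ?_)
    constructor
    · rintro ⟨q, r, hr, hq, hqs⟩
      rw [LL.isOp_iff'] at hr hq
      obtain ⟨γ', _, z, ⟨x, y, hz, _, _, hxy⟩, h⟩ := (hs q).1 hqs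
      rw [hq, lpair_inj] at h
      rw [← h.2, hr, lpair_inj] at hz
      rw [hz.1, hz.2]
      exact hxy
    · intro h
      exact ⟨lpair (lo γ) (lpair a a'), lpair a a', LL.isOp_iff'.2 rfl, LL.isOp_iff'.2 rfl,
        (hs _).2 ⟨γ, hγ, _, ⟨a, a', rfl, mem_kl_iff.1 ha, mem_kl_iff.1 ha', h⟩, rfl⟩⟩
  constructor
  · rintro ⟨x, y, rfl, hx, hy, h⟩
    refine ⟨x, y, LL.isOp_iff'.2 rfl, lo (bi x), lo_mem_lo.2 hx, klv (bi x), newL_lo.2 ⟨rfl, rfl⟩,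
      lo (bi y), lo_mem_lo.2 hy, klv (bi y), newL_lo.2 ⟨rfl, rfl⟩, ?_⟩
    rcases h with h | ⟨h1, h2⟩
    · exact Or.inl (lo_mem_lo.2 h)
    · refine Or.inr ⟨by rw [h1], ?_⟩
      rw [key _ hx, ← Wn_eq]
      exact h2
  · rintro ⟨x, y, hp, g, hg, k, hk, g', hg', k', hk', h⟩
    obtain ⟨γ, hγ, rfl⟩ := mem_lo.1 hg
    obtain ⟨γ', hγ', rfl⟩ := mem_lo.1 hg'
    obtain ⟨rfl, h1⟩ := newL_lo.1 hk
    obtain ⟨rfl, h2⟩ := newL_lo.1 hk'
    refine ⟨x, y, LL.isOp_iff'.1 hp, by rw [h1]; exact hγ, by rw [h2]; exact hγ', ?_⟩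
    rcases h with h | ⟨h3, h4⟩
    · exact Or.inl (by rw [h1, h2]; exact lo_mem_lo.1 h)
    · rw [lo_inj] at h3
      rw [key γ hγ, ← Wn_eq] at h4
      exact Or.inr ⟨by rw [h1, h2, h3], by rw [h1]; exact h4⟩

theorem hW_bdd (β : Ordinal.{u}) : ∃ k : LL.{u}, ∀ x, HW β x → x ∈ k := by
  obtain ⟨γ, hγ, hl⟩ := exists_lim β
  refine ⟨klv γ, ?_⟩
  rintro _ ⟨x, y, rfl, hx, hy, _⟩
  exact pair_mem_lim hl (mem_kl_iff.2 (hx.trans hγ)) (mem_kl_iff.2 (hy.trans hγ))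

theorem dl_WL : DL (fun v : ℕ → LL.{u} => WL (v 0) (v 1)) := by
  have h := dl_rec (H := HW) (Φ := PhiW) dl_phiW hW_bdd fun β s hs x => hW_step hs x
  have h' : ∀ {s t : (ℕ → LL.{u}) → LL.{u}}, DT Set.univ s → DT Set.univ t →
      DL (fun v => (fun a b => ∃ β, a = lo β ∧ HW β b) (s v) (t v)) := fun h1 h2 =>
    DL.sub2 (R := fun a b => ∃ β, a = lo β ∧ HW β b) h h1 h2
  have h1 : DL (fun v : ℕ → LL.{u} => ∃ p, IsOp (· ∈ ·) p (v 0) (v 1) ∧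
      ∃ o, (fun a b => ∃ β, a = lo β ∧ HW β b) o p) := by
    refine Dfn.ex (Dfn.and ?_ (Dfn.ex ?_))
    · apply_rules (maxDepth := 1000) [DL.isOp, DT.var]
    · exact h' (DT.var 0) (DT.var 1)
  refine h1.congr fun v => ?_
  constructor
  · rintro ⟨p, hp, o, β, _, x, y, h2, _, _, h3⟩
    rw [LL.isOp_iff'] at hp
    rw [hp, lpair_inj] at h2
    rw [h2.1, h2.2]; exact h3
  · intro h2
    exact ⟨lpair (v 0) (v 1), LL.isOp_iff'.2 rfl, lo (Order.succ (max (bi (v 0)) (bi (v 1)))), _, rfl,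
      v 0, v 1, rfl, Order.lt_succ_iff.2 (le_max_left _ _), Order.lt_succ_iff.2 (le_max_right _ _), h2⟩

/-- a definable wellorder of the constructible universe -/
theorem exists_WL : ∃ W : LL.{u} → LL.{u} → Prop, DL (fun v => W (v 0) (v 1)) ∧
    IsWellOrder LL.{u} W := ⟨WL, dl_WL, isWellOrder_WL⟩

end Pool.Agent.DQ1
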