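import Pool.Agent.DQ1.NoNew
import Pool.Agent.DQ1.Defs3
import Pool.Agent.DQ1.WOL
import Pool.Agent.DQ1.Enum

/-! # Generic sets exist only if countable ordinals are countable in `L` -/

namespace Pool.Agent.DQ1

open Cardinal Ordinal
open ZFM (Fm Sat Dfn DT IsZF)

universe u v w

namespace NO

theorem ctIn_iff {x : LL.{u}} : CtL x ↔ CtInL x.1 := by
  constructor
  · rintro ⟨g, hg⟩
    refine ⟨g.1, g.2, fun y hy => ?_⟩
    obtain ⟨n, h1, h2, h3⟩ := hg ⟨y, x.2.trans hy⟩ hy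
    exact ⟨n.1, h1, h2, fun z hz h4 => congrArg LL.val (h3 ⟨z, x.2.trans hz⟩ hz h4)⟩
  · rintro ⟨g, hgL, hg⟩
    refine ⟨⟨g, hgL⟩, fun y hy => ?_⟩
    obtain ⟨n, h1, h2, h3⟩ := hg y.1 hy
    exact ⟨⟨n, (lo.{u} ω).2.trans h1⟩, h1, h2, fun z hz h4 => LL.ext (h3 z.1 hz h4)⟩

/-- the pair is in the relation -/
def Rl (g a b : LL.{u}) : Prop := ∃ p, p ∈ g ∧ IsOp (· ∈ ·) p a b

theorem rl_iff {g a b : LL.{u}} : Rl g a b ↔ lpair a b ∈ g := by
  constructor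
  · rintro ⟨p, hp, h⟩
    rw [LL.isOp_iff'] at h
    rw [← h]; exact hp
  · intro h
    exact ⟨_, h, LL.isOp_iff'.2 rfl⟩

theorem dl_rl {g a b : (ℕ → LL.{u}) → LL.{u}} (hg : DT Set.univ g) (ha : DT Set.univ a)
    (hb : DT Set.univ b) : DL (fun v => Rl (g v) (a v) (b v)) := by
  refine DL.sub3 (R := fun g a b => Rl g a b) ?_ hg ha hb
  unfold Rl
  apply_rules (maxDepth := 1000) [DL.isOp, Dfn.ex, Dfn.and, Dfn.all, Dfn.imp, Dfn.mem, Dfn.eq,
    DT.var, DL.c]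

theorem exists_graph (X Y : LL.{u}) {R : LL.{u} → LL.{u} → Prop}
    (hR : DL (fun v => R (v 0) (v 1))) :
    ∃ g : LL.{u}, ∀ a b, lpair a b ∈ g ↔ a ∈ X ∧ b ∈ Y ∧ R a b := by
  obtain ⟨γ, hγ, h⟩ := exists_El_mem (I := Bool) (fun b => if b then X else Y)
  have hX : X.1 ∈ K γ := h true
  have hY : Y.1 ∈ K γ := h false
  obtain ⟨k, hk⟩ := LL_lev γ
  have hR' : ∀ {s t : (ℕ → LL.{u}) → LL.{u}}, DT Set.univ s → DT Set.univ t →
      DL (fun v => R (s v) (t v)) := fun h1 h2 => DL.sub2 hR h1 h2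
  obtain ⟨g, hg⟩ := LL_sep' (P := fun p => ∃ a, ∃ b, IsOp (· ∈ ·) p a b ∧ a ∈ X ∧ b ∈ Y ∧ R a b)
    (by
      apply_rules (maxDepth := 1000) [DL.isOp, Dfn.ex, Dfn.and, Dfn.all, Dfn.imp, Dfn.mem, Dfn.eq,
        DT.var, DL.c, hR']) k
  refine ⟨g, fun a b => ?_⟩
  rw [hg]
  constructor
  · rintro ⟨-, a', b', h1, h2, h3, h4⟩
    rw [LL.isOp_iff', lpair_inj] at h1
    obtain ⟨rfl, rfl⟩ := h1
    exact ⟨h2, h3, h4⟩
  · rintro ⟨h2, h3, h4⟩
    refine ⟨?_, a, b, LL.isOp_iff'.2 rfl, h2, h3, h4⟩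
    show (lpair a b).1 ∈ k.1
    rw [hk]
    exact pair_mem_lim hγ.1 (K_trans hγ.1 hX h2) (K_trans hγ.1 hY h3)

theorem ctL_sub {c c' : LL.{u}} (hc : CtL c) (h : ∀ x, x ∈ c' → x ∈ c) : CtL c' := by
  obtain ⟨g, hg⟩ := hc
  refine ⟨g, fun x hx => ?_⟩
  obtain ⟨n, h1, h2, h3⟩ := hg x (h x hx)
  exact ⟨n, h1, h2, fun y hy h4 => h3 y (h y hy) h4⟩

theorem ctL_image {c c' E : LL.{u}} (hc : CtL c)
    (h1 : ∀ y, y ∈ c' → ∃ x, x ∈ c ∧ lpair x y ∈ E)
    (h2 : ∀ x y y', x ∈ c → lpair x y ∈ E → lpair x y' ∈ E → y ∈ c' → y' ∈ c' → y = y') :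
    CtL c' := by
  obtain ⟨g, hg⟩ := hc
  obtain ⟨g', hg'⟩ := exists_graph (lo.{u} ω) c' (R := fun n y => ∃ x, x ∈ c ∧ Rl g n x ∧
    (∀ z, z ∈ c → Rl g n z → z = x) ∧ Rl E x y) (by
      apply_rules (maxDepth := 1000) [dl_rl, Dfn.ex, Dfn.and, Dfn.all, Dfn.imp, Dfn.mem, Dfn.eq,
        DT.var, DL.c])
  refine ⟨g', fun y hy => ?_⟩
  obtain ⟨x, hx, hxy⟩ := h1 y hy
  obtain ⟨n, hn, h3, h4⟩ := hg x hx
  refine ⟨n, hn, (hg' n y).2 ⟨hn, hy, x, hx, rl_iff.2 h3, fun z hz h => h4 z hz (rl_iff.1 h),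
    rl_iff.2 hxy⟩, fun y' hy' h5 => ?_⟩
  obtain ⟨-, -, x', hx', h6, h7, h8⟩ := (hg' n y').1 h5
  have h9 : x = x' := h7 x hx (rl_iff.2 h3)
  subst h9
  exact (h2 x y' y hx (rl_iff.1 h8) hxy hy' hy)

theorem ctL_insert {c d a : LL.{u}} (hc : CtL c) (hd : ∀ x, x ∈ d ↔ x ∈ c ∨ x = a) : CtL d := by
  obtain ⟨g, hg⟩ := hc
  obtain ⟨g', hg'⟩ := exists_graph (lo.{u} ω) d (R := fun n x => (n = lo 0 ∧ x = a) ∨
    ∃ n', SucL n' n ∧ x ∈ c ∧ Rl g n' x) (by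
      apply_rules (maxDepth := 1000) [dl_rl, DL.sucL, Dfn.or, Dfn.ex, Dfn.and, Dfn.all, Dfn.imp,
        Dfn.mem, Dfn.eq, DT.var, DL.c])
  refine ⟨g', fun y hy => ?_⟩
  by_cases hyc : y ∈ c
  · obtain ⟨n, hn, h3, h4⟩ := hg y hyc
    obtain ⟨ν, hν, rfl⟩ := mem_lo.1 hn
    have hν' : Order.succ ν < ω := isSuccLimit_omega0.succ_lt hν
    refine ⟨lo (Order.succ ν), lo_mem_lo.2 hν', (hg' _ y).2 ⟨lo_mem_lo.2 hν', hy, Or.inr
      ⟨lo ν, sucL_iff.2 rfl, hyc, rl_iff.2 h3⟩⟩, fun z hz h5 => ?_⟩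
    obtain ⟨-, -, h6⟩ := (hg' _ z).1 h5
    rcases h6 with ⟨h6, -⟩ | ⟨n', h6, h7, h8⟩
    · rw [lo_inj] at h6
      exact absurd h6 (Order.succ_ne_bot ν)
    · have h9 : n' ∈ lo (Order.succ ν) := (h6 n').2 (Or.inr rfl)
      obtain ⟨μ, hμ, rfl⟩ := mem_lo.1 h9
      have h10 := lo_inj.1 (sucL_iff.1 h6)
      have h11 : ν = μ := Order.succ_injective h10
      subst h11
      exact h4 z h7 (rl_iff.1 h8)
  · have hya : y = a := ((hd y).1 hy).resolve_left hyc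
    subst hya
    refine ⟨lo 0, lo_mem_lo.2 omega0_pos, (hg' _ y).2 ⟨lo_mem_lo.2 omega0_pos, hy, Or.inl
      ⟨rfl, rfl⟩⟩, fun z hz h5 => ?_⟩
    obtain ⟨-, -, h6⟩ := (hg' _ z).1 h5
    rcases h6 with ⟨-, h6⟩ | ⟨n', h6, h7, h8⟩
    · exact h6
    · have h9 : n' ∈ lo (0 : Ordinal.{u}) := (h6 n').2 (Or.inr rfl)
      obtain ⟨μ, hμ, -⟩ := mem_lo.1 h9
      exact absurd hμ not_lt_zero

/-! ### The generic set is unbounded -/

theorem unb {C : Set Ordinal.{u}} (hC : GenericC C) : ∀ α < om, ∃ β ∈ C, α < β := by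
  intro α hα
  obtain ⟨D, hD⟩ := LL_sep' (P := fun c => ∃ b, b ∈ c ∧ lo α ∈ b) (by
    apply_rules (maxDepth := 1000) [Dfn.ex, Dfn.and, Dfn.mem, DT.var, DL.c]) PP
  obtain ⟨β, hβ, h⟩ := hC.meets D.1 D.2 (fun c hc => by
    obtain ⟨m, hm, hmx⟩ := hc.1.max
    have hm' : m < om := NN.max_lt_om hc.1 hm
    obtain ⟨δ, h2, h3, _, h4⟩ := exists_above (max_lt hα hm')
    obtain ⟨d, h5, h6, h7⟩ := cond_ins (c := ⟨c, hc.1.constr⟩) hc.1
      (fun α hα => (hmx α hα).trans_lt ((le_max_right _ _).trans_lt h2)) h3 h4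
    refine ⟨d.1, (hD d).2 ⟨mem_PP.2 h5, lo δ, (h7 δ).2 (Or.inr rfl),
      lo_mem_lo.2 ((le_max_left _ _).trans_lt h2)⟩, ⟨h5, ?_⟩, h6⟩
    refine ctIn_iff.1 (ctL_insert (c := ⟨c, hc.1.constr⟩) (a := lo δ) (ctIn_iff.2 hc.2) ?_)
    intro x
    constructor
    · intro hx
      obtain ⟨μ, _, h8⟩ := h5.ord x.1 hx
      have e : x = lo μ := LL.ext h8
      subst e
      exact ((h7 μ).1 hx).imp id fun h9 => by rw [h9]
    · rintro (hx | rfl)
      · exact h6.1 hx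
      · exact (h7 δ).2 (Or.inr rfl))
  have hs : (⟨seg C β, (hC.cond β hβ).1.constr⟩ : LL.{u}) ∈ D := h
  obtain ⟨_, b, hb, hb'⟩ := (hD _).1 hs
  obtain ⟨β', h1, h2, h3⟩ := mem_seg.1 hb
  have e : b = lo β' := LL.ext h3
  rw [e] at hb'
  exact ⟨β', h1, lo_mem_lo.1 hb'⟩

/-- the rank in `C` -/
noncomputable def rk (C : Set Ordinal.{u}) (α : Ordinal.{u}) : Ordinal.{u} :=
  ⨆ x : {a : Set.Iio α // a.1 ∈ C}, Order.succ (rk C x.1.1)
termination_by α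
decreasing_by exact x.1.2

theorem rk_lt {C : Set Ordinal.{u}} {α β : Ordinal.{u}} (hα : α ∈ C) (h : α < β) :
    rk C α < rk C β := by
  rw [rk.eq_1 C β]
  refine lt_of_lt_of_le (Order.lt_succ _) ?_
  exact Ordinal.le_iSup (fun x : {a : Set.Iio β // a.1 ∈ C} => Order.succ (rk C x.1.1))
    ⟨⟨α, h⟩, hα⟩

theorem rk_le {C : Set Ordinal.{u}} {α ξ : Ordinal.{u}}
    (h : ∀ a < α, a ∈ C → rk C a < ξ) : rk C α ≤ ξ := by
  rw [rk.eq_1 C α]
  refine ciSup_le' fun x => ?_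
  exact Order.succ_le_of_lt (h x.1.1 x.1.2 x.2)

/-- countable ordinals are countable in `L` -/
theorem ord_ct {C : Set Ordinal.{u}} (hC : GenericC C) {κ : Ordinal.{u}} (hκ : κ < om) :
    CtL (lo κ) := by
  by_contra hcon
  -- the rank of the elements of `C` is less than `κ`
  have hrk : ∀ β ∈ C, rk C β < κ := by
    intro β hβ
    obtain ⟨S, hS⟩ : ∃ S : LL.{u}, S = ⟨seg C β, (hC.cond β hβ).1.constr⟩ := ⟨_, rfl⟩
    have hSm : ∀ x, x ∈ S ↔ ∃ α ∈ C, α ≤ β ∧ x = lo α := by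
      intro x
      rw [hS]
      refine (mem_seg (C := C) (β := β) (x := x.1)).trans ?_
      constructor
      · rintro ⟨α, h1, h2, h3⟩; exact ⟨α, h1, h2, LL.ext h3⟩
      · rintro ⟨α, h1, h2, h3⟩; exact ⟨α, h1, h2, congrArg LL.val h3⟩
    have hSct : CtL S := by
      rw [hS]; exact ctIn_iff.2 (hC.cond β hβ).2
    obtain ⟨θ, E, hE⟩ := exists_enum (W := fun a b => a ∈ b)
      (by apply_rules (maxDepth := 1000) [Dfn.mem, DT.var, DL.c]) S (by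
        have i1 : Std.Trichotomous (fun a b : {z : LL.{u} // z ∈ S} => a.1 ∈ b.1) := ⟨by
          intro a b h1 h2
          obtain ⟨α, _, _, h3⟩ := (hSm a.1).1 a.2
          obtain ⟨α', _, _, h4⟩ := (hSm b.1).1 b.2
          rw [h3, h4] at h1 h2
          rw [lo_mem_lo] at h1 h2
          refine Subtype.ext ?_
          rw [h3, h4, lo_inj]
          exact le_antisymm (not_lt.1 h2) (not_lt.1 h1)⟩
        have i2 : IsTrans _ (fun a b : {z : LL.{u} // z ∈ S} => a.1 ∈ b.1) := ⟨by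
          intro a b c h1 h2
          obtain ⟨α, _, _, h3⟩ := (hSm a.1).1 a.2
          obtain ⟨α', _, _, h4⟩ := (hSm b.1).1 b.2
          obtain ⟨α'', _, _, h5⟩ := (hSm c.1).1 c.2
          rw [h3, h4] at h1
          rw [h4, h5] at h2
          rw [h3, h5]
          rw [lo_mem_lo] at h1 h2 ⊢
          exact h1.trans h2⟩
        have i3 : IsWellFounded _ (fun a b : {z : LL.{u} // z ∈ S} => a.1 ∈ b.1) :=
          ⟨InvImage.wf (fun a : {z : LL.{u} // z ∈ S} => a.1.1) ZFSet.mem_wf⟩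
        exact {})
    -- the index is at least the rank
    have hidx : ∀ α, α ∈ C → α ≤ β → ∀ ξ, lpair (lo ξ) (lo α) ∈ E → rk C α ≤ ξ := by
      intro α
      induction α using WellFoundedLT.induction with
      | ind α ih =>
        intro hα hαβ ξ hξ
        refine rk_le fun a ha haC => ?_
        obtain ⟨ξ', hξ', h1⟩ := hE.surj (lo a) ((hSm _).2 ⟨a, haC, ha.le.trans hαβ, rfl⟩)
        have h2 := ih a ha haC (ha.le.trans hαβ) ξ' h1
        refine h2.trans_lt ?_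
        rcases lt_trichotomy ξ' ξ with h3 | h3 | h3
        · exact h3
        · rw [h3] at h1
          have h4 := lo_inj.1 (hE.fn ξ _ _ h1 hξ)
          exact absurd ha (by rw [h4]; exact lt_irrefl _)
        · have h4 : lo α ∈ lo a := hE.mono ξ ξ' _ _ hξ h1 h3
          rw [lo_mem_lo] at h4
          exact absurd (h4.trans ha) (lt_irrefl _)
    obtain ⟨ξ, hξ, h1⟩ := hE.surj (lo β) ((hSm _).2 ⟨β, hβ, le_rfl, rfl⟩)
    have h2 := hidx β hβ le_rfl ξ h1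
    refine (h2.trans_lt hξ).trans_le ?_
    by_contra h3
    push Not at h3
    -- `θ` is countable in `L`
    obtain ⟨E', hE'⟩ := exists_graph S (lo θ) (R := fun y x => Rl E x y) (by
      apply_rules (maxDepth := 1000) [dl_rl, DT.var, DL.c])
    have h4 : CtL (lo θ) := by
      refine ctL_image (E := E') hSct (fun y hy => ?_) (fun x y y' hx h5 h6 hy hy' => ?_)
      · obtain ⟨ξ, hξ, rfl⟩ := mem_lo.1 hy
        obtain ⟨z, hz⟩ := hE.tot ξ hξ
        obtain ⟨ξ', _, z', hz', h5⟩ := hE.sub _ hz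
        obtain ⟨_, h6⟩ := lpair_inj.1 h5
        rw [← h6] at hz'
        exact ⟨z, hz', (hE' _ _).2 ⟨hz', hy, rl_iff.2 hz⟩⟩
      · obtain ⟨ξ, hξ, rfl⟩ := mem_lo.1 hy
        obtain ⟨ξ', hξ', rfl⟩ := mem_lo.1 hy'
        have h7 := rl_iff.1 ((hE' _ _).1 h5).2.2
        have h8 := rl_iff.1 ((hE' _ _).1 h6).2.2
        obtain ⟨α, _, _, rfl⟩ := (hSm x).1 hx
        rcases lt_trichotomy ξ ξ' with h9 | h9 | h9
        · have h10 : lo α ∈ lo α := hE.mono _ _ _ _ h7 h8 h9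
          exact absurd (lo_mem_lo.1 h10) (lt_irrefl _)
        · rw [h9]
        · have h10 : lo α ∈ lo α := hE.mono _ _ _ _ h8 h7 h9
          exact absurd (lo_mem_lo.1 h10) (lt_irrefl _)
    refine hcon (ctL_sub h4 fun x hx => ?_)
    obtain ⟨ξ, hξ, rfl⟩ := mem_lo.1 hx
    exact lo_mem_lo.2 (hξ.trans h3)
  -- so `C` is countable
  have := NN.countable_Iio hκ
  have hinj : Function.Injective (fun β : C => (⟨rk C β.1, hrk β.1 β.2⟩ : Set.Iio κ)) := by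
    intro a b hab
    have h1 : rk C a.1 = rk C b.1 := by simpa using hab
    rcases lt_trichotomy a.1 b.1 with h | h | h
    · exact absurd h1 (rk_lt a.2 h).ne
    · exact Subtype.ext h
    · exact absurd h1 (rk_lt b.2 h).ne'
  have hct : Countable C := hinj.countable
  obtain ⟨β, hβ, hb⟩ := NN.bd (fun a : C => a.1) (fun a => hC.lt a.1 a.2)
  obtain ⟨β', h1, h2⟩ := unb hC β hβ
  exact absurd (hb ⟨β', h1⟩) (not_le.2 h2)

end NO

open NO in
theorem omL_of {C : Set Ordinal.{u}} (hC : GenericC C) : OmL.{u} := by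
  intro x hx
  obtain ⟨W, hW, hwo⟩ := exists_WL.{u}
  obtain ⟨θ, E, hE⟩ := exists_enum hW x (by
    exact (Subrel.relEmbedding W (fun z => z ∈ x)).isWellOrder)
  have hθ : θ < om := by
    have hch : ∀ ξ : Set.Iio θ, ∃ y : LL.{u}, y ∈ x ∧ lpair (lo ξ.1) y ∈ E := by
      intro ξ
      obtain ⟨y, hy⟩ := hE.tot ξ.1 ξ.2
      obtain ⟨ξ', _, y', hy', h5⟩ := hE.sub _ hy
      obtain ⟨_, h6⟩ := lpair_inj.1 h5
      rw [← h6] at hy'
      exact ⟨y, hy', hy⟩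
    choose f hf1 hf2 using hch
    have hct : Countable (SetLike.coe x.1) := hx.to_subtype
    have hinj : Function.Injective (fun ξ : Set.Iio θ =>
        (⟨(f ξ).1, hf1 ξ⟩ : (SetLike.coe x.1 : Set ZFSet.{u}))) := by
      intro a b hab
      have h1 : (f a).1 = (f b).1 := by simpa using hab
      have h2 : f a = f b := LL.ext h1
      have ha := hf2 a
      have hb := hf2 b
      rw [← h2] at hb
      have hirr : ¬ W (f a) (f a) := irrefl_of W _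
      rcases lt_trichotomy a.1 b.1 with h | h | h
      · exact absurd (hE.mono _ _ _ _ ha hb h) hirr
      · exact Subtype.ext h
      · exact absurd (hE.mono _ _ _ _ hb ha h) hirr
    have h3 : Countable (Set.Iio θ) := hinj.countable
    rw [← mk_le_aleph0_iff, Cardinal.mk_Iio_ordinal, lift_le_aleph0] at h3
    exact lt_ord.2 (lt_aleph_one_iff.2 h3)
  refine ctL_image (E := E) (ord_ct hC hθ) (fun y hy => ?_) (fun z y y' hz h5 h6 hy hy' => ?_)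
  · obtain ⟨ξ, hξ, h1⟩ := hE.surj y hy
    exact ⟨lo ξ, lo_mem_lo.2 hξ, h1⟩
  · obtain ⟨ξ, hξ, rfl⟩ := mem_lo.1 hz
    exact hE.fn ξ y y' h5 h6

open NO in
theorem generic_of {C : Set Ordinal.{u}} (hC : GenericC C) : Generic C where
  lt := hC.lt
  cond β hβ := (hC.cond β hβ).1
  meets D hD h := by
    have hcc : ∀ c, Cond c → CondC c := by
      intro c hc
      have hom : CtL (⟨c, hc.constr⟩ : LL.{u}) → CtInL c := fun h => ctIn_iff.1 h
      refine ⟨hc, hom (omL_of hC _ ?_)⟩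
      obtain ⟨m, hm, hmx⟩ := hc.max
      have hm' : m < om := NN.max_lt_om hc hm
      have := NN.countable_Iio (om_succ hm')
      have h1 : (Set.range fun a : Set.Iio (Order.succ m) => a.1.toZFSet).Countable :=
        Set.countable_range _
      refine h1.mono ?_
      intro y hy
      obtain ⟨α, hα, rfl⟩ := hc.ord y hy
      exact ⟨⟨α, Order.lt_succ_iff.2 (hmx α hy)⟩, rfl⟩
    exact hC.meets D hD fun c hc => by
      obtain ⟨d, h1, h2, h3⟩ := h c hc.1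
      exact ⟨d, h1, hcc d h2, h3⟩
  names := hC.names

end Pool.Agent.DQ1
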