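import Pool.Agent.DQ1.SigDefs
import Pool.Agent.DQ1.Coll

/-! # From the axioms of the coding structure to its meaning -/

namespace Pool.Agent.DQ1

open Cardinal Ordinal

universe u v w

namespace Fwd

variable {D : Type u} {M : Str D}

/-- the semantic content of the axioms on the sorts `1`, `2` -/
structure Sem (M : Str D) (ρ : {a // a ∈ M.sort 1} → Ordinal.{u})
    (kk jj : {a // a ∈ M.sort 1} → {x // x ∈ M.sort 2}) (π : {x // x ∈ M.sort 2} → ZFSet.{u}) :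
    Prop where
  lt_iff : ∀ a b, sLt M a.1 b.1 ↔ ρ a < ρ b
  rinj : Function.Injective ρ
  lt_om : ∀ a, ρ a < om
  onto : ∀ α < om, ∃ a, ρ a = α
  kk_iff : ∀ ξ x, sK M ξ.1 x.1 ↔ x = kk ξ
  jj_iff : ∀ ξ x, sJ M ξ.1 x.1 ↔ x = jj ξ
  inj : Function.Injective π
  mem : ∀ x z, z ∈ π x ↔ ∃ y, sE M y.1 x.1 ∧ π y = z
  pk : ∀ ξ, π (kk ξ) = K (ρ ξ)
  pj : ∀ ξ, π (jj ξ) = (ρ ξ).toZFSet

theorem exists_sem {c g t : D} (h : Ax M c g t) : ∃ ρ kk jj π, Sem M ρ kk jj π := by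
  classical
  let r : {a // a ∈ M.sort 1} → {a // a ∈ M.sort 1} → Prop := fun a b => sLt M a.1 b.1
  have i1 : Std.Trichotomous r := ⟨fun a b hab hba => by
    rcases h.o_tri a.1 a.2 b.1 b.2 with h | h | h
    · exact absurd h hab
    · exact Subtype.ext h
    · exact absurd h hba⟩
  have i2 : IsTrans _ r := ⟨fun a b d => h.o_trans a.1 a.2 b.1 b.2 d.1 d.2⟩
  have i3 : IsWellFounded _ r := ⟨h.o_wf⟩
  have i4 : IsWellOrder _ r := {}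
  have hcard : ∀ a : {a // a ∈ M.sort 1}, (typein r a).card < ℵ₁ := by
    intro a
    have h1 := not_le.1 (h.o_small a.1 a.2)
    have h2 : (typein r a).card = #{b // r b a} := Ordinal.card_typein a
    rw [h2]
    refine lt_of_le_of_lt ?_ h1
    refine Cardinal.mk_le_of_injective (f := fun b : {b // r b a} =>
      (⟨b.1.1, b.1.2, b.2⟩ : {b // b ∈ M.sort 1 ∧ sLt M b a.1})) ?_
    intro x y hxy
    have h3 : x.1.1 = y.1.1 := by simpa using hxy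
    exact Subtype.ext (Subtype.ext h3)
  have hlt : ∀ a, typein r a < om := fun a => lt_om_iff.2 (hcard a)
  have htype : type r = om := by
    apply le_antisymm
    · by_contra hcon
      have h1 : om < type r := not_le.1 hcon
      have h2 := hlt (Ordinal.enum r ⟨om, h1⟩)
      rw [Ordinal.typein_enum] at h2
      exact lt_irrefl _ h2
    · unfold om
      rw [Cardinal.ord_le, Ordinal.card_type]
      refine h.o_big.trans ?_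
      refine Cardinal.mk_le_of_injective (f := fun b : {a // a ∈ M.sort 1 ∧ True} =>
        (⟨b.1, b.2.1⟩ : {a // a ∈ M.sort 1})) ?_
      intro x y hxy
      have h3 : x.1 = y.1 := by simpa using hxy
      exact Subtype.ext h3
  have honto : ∀ α < om, ∃ a, typein r a = α := by
    intro α hα
    rw [← htype] at hα
    exact ⟨Ordinal.enum r ⟨α, hα⟩, Ordinal.typein_enum r hα⟩
  have hltiff : ∀ a b, sLt M a.1 b.1 ↔ typein r a < typein r b := fun a b =>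
    (Ordinal.typein_lt_typein r).symm
  have hρ : Rk r (typein r) := ⟨hltiff, fun a α hα => honto α (hα.trans (hlt a))⟩
  choose kk0 hk1 hk2 hk3 using h.k_ex
  choose jj0 hj1 hj2 hj3 using h.j_ex
  have hwf : WellFounded (sEE M) := h.u_wf
  have hext : ∀ x y : {x // x ∈ M.sort 2}, (∀ z, sEE M z x ↔ sEE M z y) → x = y :=
    fun x y hxy => Subtype.ext (h.u_ext x.1 x.2 y.1 y.2 fun z hz => hxy ⟨z, hz⟩)
  have hkk : ∀ (ξ : {a // a ∈ M.sort 1}) (x : {x // x ∈ M.sort 2}), sK M ξ.1 x.1 ↔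
      x = ⟨kk0 ξ.1 ξ.2, hk1 ξ.1 ξ.2⟩ := fun ξ x =>
    ⟨fun hx => Subtype.ext (hk3 ξ.1 ξ.2 x.1 x.2 hx), fun hx => by rw [hx]; exact hk2 ξ.1 ξ.2⟩
  have hjj : ∀ (ξ : {a // a ∈ M.sort 1}) (x : {x // x ∈ M.sort 2}), sJ M ξ.1 x.1 ↔
      x = ⟨jj0 ξ.1 ξ.2, hj1 ξ.1 ξ.2⟩ := fun ξ x =>
    ⟨fun hx => Subtype.ext (hj3 ξ.1 ξ.2 x.1 x.2 hx), fun hx => by rw [hx]; exact hj2 ξ.1 ξ.2⟩
  obtain ⟨π, hinj, hmem, hK⟩ := collapse (U := {x // x ∈ M.sort 2}) hwf hext hρ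
    (fun ξ => ⟨kk0 ξ.1 ξ.2, hk1 ξ.1 ξ.2⟩)
    (fun x => by
      obtain ⟨ξ, hξ, k, hk, h1, h2⟩ := h.h1 x.1 x.2
      refine ⟨⟨ξ, hξ⟩, ?_⟩
      have h3 := (hkk ⟨ξ, hξ⟩ ⟨k, hk⟩).1 h1
      rw [← h3]
      exact h2)
    (fun x ξ => by
      have h4 := h.h2 x.1 x.2 ξ.1 ξ.2 _ (hk1 ξ.1 ξ.2) (hk2 ξ.1 ξ.2)
      refine h4.trans ?_
      constructor
      · rintro ⟨ζ, hζ, h5, l, hl, h6, h7⟩
        refine ⟨⟨ζ, hζ⟩, h5, ?_⟩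
        have h8 := (hkk ⟨ζ, hζ⟩ ⟨l, hl⟩).1 h6
        rw [← h8]
        exact (rStep_iff x ⟨l, hl⟩).1 h7
      · rintro ⟨ζ, h5, h7⟩
        exact ⟨ζ.1, ζ.2, h5, _, hk1 ζ.1 ζ.2, hk2 ζ.1 ζ.2, (rStep_iff x _).2 h7⟩)
    (fun i hi a b => by
      obtain ⟨c, hc, h5⟩ := h.h3 i hi a.1 a.2 b.1 b.2
      exact ⟨⟨c, hc⟩, (rG_iff i ⟨c, hc⟩ a b).1 h5⟩)
  refine ⟨typein r, fun ξ => ⟨kk0 ξ.1 ξ.2, hk1 ξ.1 ξ.2⟩, fun ξ => ⟨jj0 ξ.1 ξ.2, hj1 ξ.1 ξ.2⟩, π,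
    ⟨hltiff, Ordinal.typein_injective r, hlt, honto, hkk, hjj, hinj, hmem, hK, ?_⟩⟩
  intro ξ
  induction ξ using h.o_wf.induction with
  | _ ξ ih =>
    ext z
    rw [hmem, Ordinal.mem_toZFSet_iff]
    constructor
    · rintro ⟨y, hy, rfl⟩
      obtain ⟨ζ, hζ, h5, h6⟩ := (h.j_mem ξ.1 ξ.2 _ (hj1 ξ.1 ξ.2) (hj2 ξ.1 ξ.2) y.1 y.2).1 hy
      have h7 := (hjj ⟨ζ, hζ⟩ y).1 h6
      refine ⟨typein r ⟨ζ, hζ⟩, (hltiff ⟨ζ, hζ⟩ ξ).1 h5, ?_⟩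
      rw [h7]
      exact (ih ⟨ζ, hζ⟩ h5).symm
    · rintro ⟨α, hα, rfl⟩
      obtain ⟨ζ, rfl⟩ := honto α (lt_trans hα (hlt ξ))
      have h5 : sLt M ζ.1 ξ.1 := (hltiff ζ ξ).2 hα
      refine ⟨⟨jj0 ζ.1 ζ.2, hj1 ζ.1 ζ.2⟩, ?_, ih ζ h5⟩
      exact (h.j_mem ξ.1 ξ.2 _ (hj1 ξ.1 ξ.2) (hj2 ξ.1 ξ.2) _ (hj1 ζ.1 ζ.2)).2
        ⟨ζ.1, ζ.2, h5, hj2 ζ.1 ζ.2⟩

section

variable {ρ : {a // a ∈ M.sort 1} → Ordinal.{u}}
  {kk jj : {a // a ∈ M.sort 1} → {x // x ∈ M.sort 2}} {π : {x // x ∈ M.sort 2} → ZFSet.{u}}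
  (S : Sem M ρ kk jj π)

include S

theorem rPos_iff (ξ : {a // a ∈ M.sort 1}) : rPos M ξ.1 ↔ 0 < ρ ξ := by
  constructor
  · rintro ⟨z, hz, h⟩
    exact lt_of_le_of_lt (zero_le) ((S.lt_iff ⟨z, hz⟩ ξ).1 h)
  · intro h
    obtain ⟨z, hz⟩ := S.onto 0 (h.trans (S.lt_om ξ))
    exact ⟨z.1, z.2, (S.lt_iff z ξ).2 (by rw [hz]; exact h)⟩

theorem rIn_iff (ξ : {a // a ∈ M.sort 1}) (c : {x // x ∈ M.sort 2}) :
    rIn M ξ.1 c.1 ↔ ρ ξ ∈ ords (π c) := by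
  change _ ↔ (ρ ξ).toZFSet ∈ π c
  rw [← S.pj ξ, S.mem]
  constructor
  · rintro ⟨j, hj, h1, h2⟩
    refine ⟨⟨j, hj⟩, h2, ?_⟩
    rw [(S.jj_iff ξ ⟨j, hj⟩).1 h1]
  · rintro ⟨y, h1, h2⟩
    have h3 := S.inj h2
    exact ⟨y.1, y.2, (S.jj_iff ξ y).2 h3, h1⟩

theorem rClub_iff (c : {x // x ∈ M.sort 2}) (δ : {a // a ∈ M.sort 1}) :
    rClub M c.1 δ.1 ↔ ClubIn (ords (π c)) (ρ δ) := by
  constructor
  · rintro ⟨h1, h2⟩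
    constructor
    · intro α hα
      obtain ⟨a, rfl⟩ := S.onto α (hα.trans (S.lt_om δ))
      obtain ⟨β, hβ, h3, h4, h5⟩ := h1 a.1 a.2 ((S.lt_iff a δ).2 hα)
      exact ⟨ρ ⟨β, hβ⟩, (rIn_iff S ⟨β, hβ⟩ c).1 h3, (S.lt_iff a ⟨β, hβ⟩).1 h4,
        (S.lt_iff ⟨β, hβ⟩ δ).1 h5⟩
    · intro l hl h0 h3
      obtain ⟨a, rfl⟩ := S.onto l (hl.trans (S.lt_om δ))
      refine (rIn_iff S a c).1 (h2 a.1 a.2 ((S.lt_iff a δ).2 hl) ((rPos_iff S a).2 h0) ?_)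
      intro α hα h4
      obtain ⟨β, h5, h6, h7⟩ := h3 (ρ ⟨α, hα⟩) ((S.lt_iff ⟨α, hα⟩ a).1 h4)
      obtain ⟨b, rfl⟩ := S.onto β (h7.trans (S.lt_om a))
      exact ⟨b.1, b.2, (rIn_iff S b c).2 h5, (S.lt_iff ⟨α, hα⟩ b).2 h6, (S.lt_iff b a).2 h7⟩
  · rintro ⟨h1, h2⟩
    constructor
    · intro α hα h3
      obtain ⟨β, h4, h5, h6⟩ := h1 (ρ ⟨α, hα⟩) ((S.lt_iff ⟨α, hα⟩ δ).1 h3)
      obtain ⟨b, rfl⟩ := S.onto β (h6.trans (S.lt_om δ))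
      exact ⟨b.1, b.2, (rIn_iff S b c).2 h4, (S.lt_iff ⟨α, hα⟩ b).2 h5, (S.lt_iff b δ).2 h6⟩
    · intro l hl h3 h4 h5
      refine (rIn_iff S ⟨l, hl⟩ c).2 (h2 (ρ ⟨l, hl⟩) ((S.lt_iff ⟨l, hl⟩ δ).1 h3)
        ((rPos_iff S ⟨l, hl⟩).1 h4) ?_)
      intro α hα
      obtain ⟨a, rfl⟩ := S.onto α (hα.trans (S.lt_om _))
      obtain ⟨β, hβ, h6, h7, h8⟩ := h5 a.1 a.2 ((S.lt_iff a ⟨l, hl⟩).2 hα)
      exact ⟨ρ ⟨β, hβ⟩, (rIn_iff S ⟨β, hβ⟩ c).1 h6, (S.lt_iff a ⟨β, hβ⟩).1 h7,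
        (S.lt_iff ⟨β, hβ⟩ ⟨l, hl⟩).1 h8⟩

theorem rGd_iff (f : Ordinal.{u} → Ordinal.{u}) (δ : {a // a ∈ M.sort 1})
    (hf : ∀ ξ η : {a // a ∈ M.sort 1}, sLt M ξ.1 δ.1 → (sF M ξ.1 η.1 ↔ f (ρ ξ) = ρ η))
    (ζ η : {a // a ∈ M.sort 1}) : rGd M δ.1 ζ.1 η.1 ↔ Gd f (ρ δ) (ρ ζ) (ρ η) := by
  constructor
  · rintro ⟨h1, c, hc, ⟨k, hk, h2, h3⟩, h4, h5⟩
    refine ⟨(S.lt_iff η δ).1 h1, π ⟨c, hc⟩, ?_, (rClub_iff S ⟨c, hc⟩ δ).1 h4, ?_⟩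
    · rw [← S.pk ζ, ← (S.kk_iff ζ ⟨k, hk⟩).1 h2, S.mem]
      exact ⟨⟨c, hc⟩, h3, rfl⟩
    · intro ξ hξ h6
      obtain ⟨a, rfl⟩ := S.onto ξ (h6.trans (S.lt_om δ))
      have h7 : sLt M a.1 δ.1 := (S.lt_iff a δ).2 h6
      exact fun h8 => h5 a.1 a.2 ((rIn_iff S a ⟨c, hc⟩).2 hξ) h7 ((hf a η h7).2 h8)
  · rintro ⟨h1, c, hc, h4, h5⟩
    rw [← S.pk ζ, S.mem] at hc
    obtain ⟨y, hy, rfl⟩ := hc
    refine ⟨(S.lt_iff η δ).2 h1, y.1, y.2, ⟨(kk ζ).1, (kk ζ).2, (S.kk_iff ζ (kk ζ)).2 rfl, hy⟩,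
      (rClub_iff S y δ).2 h4, ?_⟩
    intro ξ hξ h6 h7 h8
    exact h5 (ρ ⟨ξ, hξ⟩) ((rIn_iff S ⟨ξ, hξ⟩ y).1 h6) ((S.lt_iff ⟨ξ, hξ⟩ δ).1 h7)
      ((hf ⟨ξ, hξ⟩ η h7).1 h8)

theorem rNxt_iff (f : Ordinal.{u} → Ordinal.{u}) (δ : {a // a ∈ M.sort 1})
    (hf : ∀ ξ η : {a // a ∈ M.sort 1}, sLt M ξ.1 δ.1 → (sF M ξ.1 η.1 ↔ f (ρ ξ) = ρ η))
    (η : {a // a ∈ M.sort 1}) : rNxt M δ.1 η.1 ↔ nxt f (ρ δ) = ρ η := by
  unfold nxt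
  by_cases hex : ∃ ζ < om, ∃ η, Gd f (ρ δ) ζ η
  · rw [if_pos hex]
    obtain ⟨ζ0, hζ0, η0, h0⟩ := hex
    have hne : {ζ | ∃ η, Gd f (ρ δ) ζ η}.Nonempty := ⟨ζ0, η0, h0⟩
    have hm := csInf_mem hne
    have hle : sInf {ζ | ∃ η, Gd f (ρ δ) ζ η} < om :=
      (csInf_le' (show ζ0 ∈ {ζ | ∃ η, Gd f (ρ δ) ζ η} from ⟨η0, h0⟩)).trans_lt hζ0
    obtain ⟨z, hz⟩ := S.onto _ hle
    rw [← hz] at hm ⊢
    have hm' : {η | Gd f (ρ δ) (ρ z) η}.Nonempty := hm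
    have hn := csInf_mem hm'
    obtain ⟨y, hy⟩ := S.onto _ ((hn.1 : sInf {η | Gd f (ρ δ) (ρ z) η} < ρ δ).trans (S.lt_om δ))
    rw [← hy] at hn ⊢
    have hminz : ∀ z', ρ z' < ρ z → ∀ η', ¬ Gd f (ρ δ) (ρ z') η' := by
      intro z' hz' η' h1
      rw [hz] at hz'
      exact absurd (csInf_le' (show ρ z' ∈ {ζ | ∃ η, Gd f (ρ δ) ζ η} from ⟨η', h1⟩)) (not_le.2 hz')
    have hminy : ∀ y', ρ y' < ρ y → ¬ Gd f (ρ δ) (ρ z) (ρ y') := by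
      intro y' hy' h1
      rw [hy] at hy'
      exact absurd (csInf_le' (show ρ y' ∈ {η | Gd f (ρ δ) (ρ z) η} from h1)) (not_le.2 hy')
    constructor
    · rintro (⟨ζ, hζ, h1, h2, h3⟩ | ⟨h1, -⟩)
      · have h1' := (rGd_iff S f δ hf ⟨ζ, hζ⟩ η).1 h1
        have e1 : ρ ⟨ζ, hζ⟩ = ρ z := by
          rcases lt_trichotomy (ρ ⟨ζ, hζ⟩) (ρ z) with h | h | h
          · exact absurd h1' (hminz _ h _)
          · exact h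
          · exact absurd ((rGd_iff S f δ hf z y).2 hn) (h2 z.1 z.2 ((S.lt_iff z ⟨ζ, hζ⟩).2 h) y.1 y.2)
        rw [e1] at h1'
        rcases lt_trichotomy (ρ η) (ρ y) with h | h | h
        · exact absurd h1' (hminy _ h)
        · exact h.symm
        · refine absurd ((rGd_iff S f δ hf ⟨ζ, hζ⟩ y).2 ?_) (h3 y.1 y.2 ((S.lt_iff y η).2 h))
          rw [e1]; exact hn
      · exact absurd ((rGd_iff S f δ hf z y).2 hn) (h1 z.1 z.2 y.1 y.2)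
    · intro h1
      refine Or.inl ⟨z.1, z.2, (rGd_iff S f δ hf z η).2 (by rw [← h1]; exact hn), ?_, ?_⟩
      · intro ζ' hζ' h2 η' hη' h3
        exact hminz ⟨ζ', hζ'⟩ ((S.lt_iff ⟨ζ', hζ'⟩ z).1 h2) _
          ((rGd_iff S f δ hf ⟨ζ', hζ'⟩ ⟨η', hη'⟩).1 h3)
      · intro η' hη' h2 h3
        refine hminy ⟨η', hη'⟩ ?_ ((rGd_iff S f δ hf z ⟨η', hη'⟩).1 h3)
        rw [h1]
        exact (S.lt_iff ⟨η', hη'⟩ η).1 h2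
  · rw [if_neg hex]
    have hno : ∀ ζ ∈ M.sort 1, ∀ η' ∈ M.sort 1, ¬ rGd M δ.1 ζ η' := by
      intro ζ hζ η' hη' h1
      exact hex ⟨ρ ⟨ζ, hζ⟩, S.lt_om _, _, (rGd_iff S f δ hf ⟨ζ, hζ⟩ ⟨η', hη'⟩).1 h1⟩
    constructor
    · rintro (⟨ζ, hζ, h1, -, -⟩ | ⟨-, h1⟩)
      · exact absurd h1 (hno ζ hζ η.1 η.2)
      · rw [rPos_iff S η] at h1
        exact (not_lt.1 h1).antisymm' (zero_le)
    · intro h1
      refine Or.inr ⟨hno, ?_⟩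
      rw [rPos_iff S η, ← h1]
      exact lt_irrefl _

theorem sF_iff {c g t : D} (h : Ax M c g t) (δ : {a // a ∈ M.sort 1}) :
    ∀ η : {a // a ∈ M.sort 1}, sF M δ.1 η.1 ↔ fn (ρ δ) = ρ η := by
  induction δ using h.o_wf.induction with
  | _ δ ih =>
    intro η
    rw [h.f_rec δ.1 δ.2 η.1 η.2, fn]
    refine rNxt_iff S _ δ ?_ η
    intro ξ η' h1
    have h2 : ρ ξ < ρ δ := (S.lt_iff ξ δ).1 h1
    rw [dif_pos h2]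
    exact ih ξ h1 η'

theorem rSucc_iff (g t : {a // a ∈ M.sort 1}) : rSucc M g.1 t.1 ↔ ρ t = Order.succ (ρ g) := by
  constructor
  · rintro ⟨h1, h2⟩
    have h3 := (S.lt_iff g t).1 h1
    refine le_antisymm ?_ (Order.succ_le_of_lt h3)
    by_contra hcon
    have h4 : Order.succ (ρ g) < ρ t := not_le.1 hcon
    obtain ⟨a, ha⟩ := S.onto _ (h4.trans (S.lt_om t))
    rcases h2 a.1 a.2 ((S.lt_iff a t).2 (by rw [ha]; exact h4)) with h5 | h5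
    · have h6 : a = g := Subtype.ext h5
      rw [h6] at ha
      exact absurd ha (Order.lt_succ _).ne
    · have h6 := (S.lt_iff a g).1 h5
      rw [ha] at h6
      exact absurd h6 (not_lt.2 (Order.le_succ _))
  · intro h1
    refine ⟨(S.lt_iff g t).2 (by rw [h1]; exact Order.lt_succ _), ?_⟩
    intro ζ hζ h2
    have h3 := (S.lt_iff ⟨ζ, hζ⟩ t).1 h2
    rw [h1, Order.lt_succ_iff] at h3
    rcases h3.lt_or_eq with h4 | h4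
    · exact Or.inr ((S.lt_iff ⟨ζ, hζ⟩ g).2 h4)
    · exact Or.inl (congrArg Subtype.val (S.rinj h4))

end

end Fwd

open Fwd in
/-- the meaning of the axioms, for a copy of `(A, E)` on the sort `0` -/
theorem Ax.fwd {A D : Type u} {M : Str D} {E : A → A → Prop} {i : A → D}
    (hi : Function.Injective i) (hs : M.sort 0 = Set.range i)
    (hE : ∀ a b, sA M (i a) (i b) ↔ E a b) {a0 : A} {g t : D} (h : Ax M (i a0) g t) :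
    ∃ γ τ : Ordinal.{u}, γ < om ∧ τ < om ∧ Lim γ ∧ PredType E a0 γ ∧ NonStat {δ | fn δ = τ} ∧
      (g = t → τ = γ) ∧ (rSucc M g t → τ = Order.succ γ) := by
  classical
  obtain ⟨ρ, kk, jj, π, S⟩ := exists_sem h
  have hi0 : ∀ a, i a ∈ M.sort 0 := fun a => by rw [hs]; exact ⟨a, rfl⟩
  obtain ⟨g', hg'⟩ : ∃ g' : {a // a ∈ M.sort 1}, g'.1 = g := ⟨⟨g, h.g_mem⟩, rfl⟩
  obtain ⟨t', ht'⟩ : ∃ t' : {a // a ∈ M.sort 1}, t'.1 = t := ⟨⟨t, h.t_mem⟩, rfl⟩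
  subst hg' ht'
  refine ⟨ρ g', ρ t', S.lt_om _, S.lt_om _, ⟨(rPos_iff S g').1 h.g_pos, ?_⟩, ?_, ?_, ?_, ?_⟩
  · intro α hα
    obtain ⟨a, rfl⟩ := S.onto α (hα.trans (S.lt_om g'))
    obtain ⟨β, hβ, h1, h2⟩ := h.g_lim a.1 a.2 ((S.lt_iff a g').2 hα)
    exact (Order.succ_le_of_lt ((S.lt_iff a ⟨β, hβ⟩).1 h1)).trans_lt ((S.lt_iff ⟨β, hβ⟩ g').1 h2)
  · have hA : ∀ a b, sA M (i a) (i b) ↔ E a b := hE
    have hex : ∀ a : {a // E a a0}, ∃ ξ : {a // a ∈ M.sort 1}, sLt M ξ.1 g'.1 ∧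
        sI M (i a.1) ξ.1 := by
      intro a
      obtain ⟨ξ, hξ, h1, h2⟩ := h.i_ex (i a.1) (hi0 _) ((hA _ _).2 a.2)
      exact ⟨⟨ξ, hξ⟩, h1, h2⟩
    choose f hf1 hf2 using hex
    have hiso : ∀ a b : {a // E a a0}, (i a.1 = i b.1 ↔ (f a).1 = (f b).1) ∧
        (sA M (i a.1) (i b.1) ↔ sLt M (f a).1 (f b).1) := fun a b =>
      h.i_iso _ (hi0 _) _ (hi0 _) _ (f a).2 _ (f b).2 ((hA _ _).2 a.2) ((hA _ _).2 b.2)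
        (hf1 a) (hf1 b) (hf2 a) (hf2 b)
    let F : {a // E a a0} → Set.Iio (ρ g') := fun a => ⟨ρ (f a), (S.lt_iff (f a) g').1 (hf1 a)⟩
    have hFb : Function.Bijective F := by
      constructor
      · intro a b hab
        have h1 : ρ (f a) = ρ (f b) := congrArg Subtype.val hab
        have h2 := (hiso a b).1.2 (congrArg Subtype.val (S.rinj h1))
        exact Subtype.ext (hi h2)
      · rintro ⟨α, hα⟩
        obtain ⟨x, rfl⟩ := S.onto α (lt_trans hα (S.lt_om g'))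
        obtain ⟨a, ha, h1, h2⟩ := h.i_onto x.1 x.2 ((S.lt_iff x g').2 hα)
        rw [hs] at ha
        obtain ⟨a', rfl⟩ := ha
        have hE : E a' a0 := (hA _ _).1 h1
        refine ⟨⟨a', hE⟩, Subtype.ext (congrArg ρ ?_)⟩
        have h3 := h.i_iso _ (hi0 a') _ (hi0 a') _ (f ⟨a', hE⟩).2 _ x.2 h1 h1
          (hf1 ⟨a', hE⟩) ((S.lt_iff x g').2 hα) (hf2 ⟨a', hE⟩) h2
        exact Subtype.ext (h3.1.1 rfl)
    refine ⟨⟨Equiv.ofBijective F hFb, ?_⟩⟩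
    intro a b
    change ρ (f a) < ρ (f b) ↔ E a.1 b.1
    rw [← S.lt_iff, ← (hiso a b).2]
    exact hA _ _
  · refine ⟨{α | ∃ ξ : {a // a ∈ M.sort 1}, sC M ξ.1 ∧ ρ ξ = α}, ⟨?_, ?_⟩, ?_⟩
    · intro α hα
      obtain ⟨a, rfl⟩ := S.onto α hα
      obtain ⟨β, hβ, h1, h2⟩ := h.c_unb a.1 a.2
      exact ⟨ρ ⟨β, hβ⟩, ⟨⟨β, hβ⟩, h1, rfl⟩, (S.lt_iff a ⟨β, hβ⟩).1 h2, S.lt_om _⟩
    · intro l hl h0 h1
      obtain ⟨a, rfl⟩ := S.onto l hl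
      refine ⟨a, h.c_closed a.1 a.2 ((rPos_iff S a).2 h0) ?_, rfl⟩
      intro α hα h2
      obtain ⟨β, ⟨b, hb, rfl⟩, h3, h4⟩ := h1 (ρ ⟨α, hα⟩) ((S.lt_iff ⟨α, hα⟩ a).1 h2)
      exact ⟨b.1, b.2, hb, (S.lt_iff ⟨α, hα⟩ b).2 h3, (S.lt_iff b a).2 h4⟩
    · rintro δ ⟨ξ, h1, rfl⟩ - h2
      exact h.c_omit ξ.1 ξ.2 h1 ((sF_iff S h ξ t').2 h2)
  · intro h1
    rw [Subtype.ext h1]
  · exact (rSucc_iff S g' t').1

end Pool.Agent.DQ1
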