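import Pool.Agent.DQ1.SigEx
import Pool.Agent.DQ1.SigFwd
import Pool.Agent.DQ1.Hull

/-! # The pair of formulas -/

namespace Pool.Agent.DQ1

open Cardinal Ordinal

universe u

theorem toZFSet_mem_K_omS {α : Ordinal.{u}} (hα : α < om) : α.toZFSet ∈ K om := by
  induction α using WellFoundedLT.induction with
  | ind α ih =>
    have h1 : ∀ β : Set.Iio α, ∃ ξ < om, β.1.toZFSet ∈ K ξ := fun β =>
      (K_lim lim_omS).1 (ih β.1 β.2 (lt_trans β.2 hα))
    choose g hg1 hg2 using h1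
    have := (countable_Iio_of_lt_om hα).to_subtype
    have h3 : ∃ ξ < om, ∀ i, g i ≤ ξ := by
      by_contra hc
      push Not at hc
      have h1 : Set.Iio (om : Ordinal.{u}) ⊆ ⋃ i, Set.Iio (g i) := by
        intro β hβ
        obtain ⟨i, hi⟩ := hc β hβ
        exact Set.mem_iUnion.2 ⟨i, hi⟩
      exact lt_irrefl _ (lt_om_of_countable
        ((Set.countable_iUnion fun i => countable_Iio_of_lt_om (hg1 i)).mono h1))
    obtain ⟨ξ, hξ, h2⟩ := h3
    refine countable_mem_K (isL_toZFSet α) hξ fun x hx => ?_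
    obtain ⟨β, hβ, rfl⟩ := mem_toZFSet_imp hx
    exact K_sub (h2 ⟨β, hβ⟩) (hg2 _)

theorem sigma_pair : ∃ φ ψ : QFm,
    (∀ (A : Type u) (E : A → A → Prop) (c : Fin 1 → A), Exp.{u} φ E c ↔
      ∃ γ : Ordinal.{u}, γ < om ∧ Lim γ ∧ PredType E (c 0) γ ∧ NonStat {δ | fn δ = γ}) ∧
    (∀ (A : Type u) (E : A → A → Prop) (c : Fin 1 → A), Exp.{u} ψ E c ↔
      (¬ ∃ γ : Ordinal.{u}, γ < om ∧ Lim γ ∧ PredType E (c 0) γ) ∨
      ∃ γ : Ordinal.{u}, γ < om ∧ Lim γ ∧ PredType E (c 0) γ ∧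
        NonStat {δ | fn δ = Order.succ γ}) := by
  refine sigma_pair_of (fun α hα => toZFSet_mem_K_omS hα) ?_
  intro A D M E i hi hs hr c g t h
  exact Ax.fwd hi hs hr h

end Pool.Agent.DQ1
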