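import Pool.Agent.DQ1.Lev3
import Pool.Agent.DQ1.NoNew
import Pool.Agent.DQ1.NoOm
import Pool.Agent.DQ1.Sig

/-! # The two inner models differ -/

namespace Pool.Agent.DQ1

open Cardinal Ordinal

universe u v w

theorem models_differ {C : Set Ordinal.{u}} (hC : Generic C) (hω : OmL.{u}) :
    M1.{u} ⊆ {x | IsL x} ∧ ¬ M2.{u} ⊆ {x | IsL x} := by
  have hN := noNewSeq hC hω
  exact ⟨M1_sub hC hN, M2_not_sub (C := C)
    (fun γ hγ hl => mem_C_iff hC hN hγ hl) (lim_C_not hC) sigma_pair⟩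

theorem models_differ' {C : Set Ordinal.{u}} (hC : GenericC C) :
    M1.{u} ⊆ {x | IsL x} ∧ ¬ M2.{u} ⊆ {x | IsL x} :=
  models_differ (generic_of hC) (omL_of hC)

end Pool.Agent.DQ1
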