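import Pool.Agent.DQ1.Rec

/-! # The coding function and the forcing inside `L` -/

namespace Pool.Agent.DQ1

open Cardinal Ordinal
open ZFM (Fm Sat Dfn DT IsZF)

universe u v w

/-! ### The hierarchy -/

/-- `x ∈ K ζ` for an ordinal `ζ` -/
def KR (ζ x : LL.{u}) : Prop := ∃ β, ζ = lo β ∧ x.1 ∈ K β

theorem KR_lo {β : Ordinal.{u}} {x : LL.{u}} : KR (lo β) x ↔ x.1 ∈ K β := by
  constructor
  · rintro ⟨γ, h, hx⟩
    rw [lo_inj] at h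
    rw [h]; exact hx
  · intro h; exact ⟨β, rfl, h⟩

theorem dl_KR0 : DL (fun v : ℕ → LL.{u} => KR (v 0) (v 1)) := by
  refine dl_rec (H := fun β x => x.1 ∈ K β) (Φ := fun s o x => ∃ o', o' ∈ o ∧ ∃ k,
    (∀ y, y ∈ k ↔ ∃ p, p ∈ s ∧ IsOp (· ∈ ·) p o' y) ∧ StepMem (· ∈ ·) x k) ?_ ?_ ?_
  · apply_rules (maxDepth := 1000) [DL.stepMem, DL.isOp, Dfn.ex, Dfn.and, Dfn.all, Dfn.iff,
      Dfn.mem, DT.var]
  · intro β
    exact ⟨⟨K β, isL_K β⟩, fun x hx => hx⟩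
  · intro β s hs x
    have hk : ∀ γ < β, ∀ k : LL.{u}, (∀ y, y ∈ k ↔ ∃ p, p ∈ s ∧ IsOp (· ∈ ·) p (lo γ) y) ↔
        k.1 = K γ := by
      intro γ hγ k
      have h1 : ∀ y : LL.{u}, (∃ p, p ∈ s ∧ IsOp (· ∈ ·) p (lo γ) y) ↔ y.1 ∈ K γ := by
        intro y
        constructor
        · rintro ⟨p, hp, h⟩
          obtain ⟨γ', _, y', hy', h'⟩ := (hs p).1 hp
          rw [LL.isOp_iff', h', lpair_inj, lo_inj] at h
          rw [← h.2, ← h.1]; exact hy'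
        · intro hy
          exact ⟨lpair (lo γ) y, (hs _).2 ⟨γ, hγ, y, hy, rfl⟩, LL.isOp_iff'.2 rfl⟩
      constructor
      · intro h
        ext z
        constructor
        · intro hz
          exact (h1 ⟨z, k.2.trans hz⟩).1 ((h ⟨z, k.2.trans hz⟩).1 hz)
        · intro hz
          exact (h ⟨z, γ, hz⟩).2 ((h1 ⟨z, γ, hz⟩).2 hz)
      · intro h y
        rw [h1, ← h]
        exact Iff.rfl
    rw [mem_K]
    constructor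
    · rintro ⟨γ, hγ, hx⟩
      refine ⟨lo γ, lo_mem_lo.2 hγ, ⟨K γ, isL_K γ⟩, (hk γ hγ _).2 rfl, LL.stepMem_iff.2 hx⟩
    · rintro ⟨o', ho', k, h1, h2⟩
      obtain ⟨γ, hγ, rfl⟩ := mem_lo.1 ho'
      rw [hk γ hγ] at h1
      rw [LL.stepMem_iff, h1] at h2
      exact ⟨γ, hγ, h2⟩

theorem DL.KR {x y : (ℕ → LL.{u}) → LL.{u}} (hx : DT Set.univ x) (hy : DT Set.univ y) :
    DL (fun v => KR (x v) (y v)) := DL.sub2 dl_KR0 hx hy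

/-! ### The coding function -/

theorem Gd_congr {f g : Ordinal.{u} → Ordinal.{u}} {δ ζ η : Ordinal.{u}}
    (h : ∀ ξ < δ, f ξ = g ξ) : Gd f δ ζ η ↔ Gd g δ ζ η := by
  unfold Gd
  refine and_congr_right fun _ => exists_congr fun c => and_congr_right fun _ =>
    and_congr_right fun _ => forall_congr' fun ξ => forall_congr' fun _ => ?_
  constructor
  · intro h1 h2; rw [← h ξ h2]; exact h1 h2
  · intro h1 h2; rw [h ξ h2]; exact h1 h2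

theorem nxt_congr {f g : Ordinal.{u} → Ordinal.{u}} {δ : Ordinal.{u}}
    (h : ∀ ξ < δ, f ξ = g ξ) : nxt f δ = nxt g δ := by
  have e : Gd f δ = Gd g δ := by
    funext ζ η
    exact propext (Gd_congr h)
  unfold nxt
  rw [e]

theorem fn_eq (δ : Ordinal.{u}) : fn δ = nxt fn δ := by
  rw [fn]
  apply nxt_congr
  intro ξ hξ
  rw [dif_pos hξ]

/-- `c` is closed and unbounded in `δ`, inside `L` -/
def ClubL (c d : LL.{u}) : Prop :=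
  (∀ a, a ∈ d → ∃ b, b ∈ c ∧ a ∈ b ∧ b ∈ d) ∧
    ∀ l, l ∈ d → (∃ a, a ∈ l) → (∀ a, a ∈ l → ∃ b, b ∈ c ∧ a ∈ b ∧ b ∈ l) → l ∈ c

theorem clubL_iff {c : LL.{u}} {δ : Ordinal.{u}} : ClubL c (lo δ) ↔ ClubIn (ords c.1) δ := by
  have key : ∀ l ≤ δ, (∀ a, a ∈ lo l → ∃ b, b ∈ c ∧ a ∈ b ∧ b ∈ lo l) ↔
      ∀ α < l, ∃ β ∈ ords c.1, α < β ∧ β < l := by
    intro l hl
    constructor
    · intro h α hα
      obtain ⟨b, hb, h1, h2⟩ := h (lo α) (lo_mem_lo.2 hα)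
      obtain ⟨β, hβ, rfl⟩ := mem_lo.1 h2
      exact ⟨β, hb, lo_mem_lo.1 h1, hβ⟩
    · intro h a ha
      obtain ⟨α, hα, rfl⟩ := mem_lo.1 ha
      obtain ⟨β, hβ, h1, h2⟩ := h α hα
      exact ⟨lo β, hβ, lo_mem_lo.2 h1, lo_mem_lo.2 h2⟩
  unfold ClubL ClubIn
  rw [key δ le_rfl]
  refine and_congr_right fun _ => ?_
  constructor
  · intro h l hl hl0 h1
    exact h (lo l) (lo_mem_lo.2 hl) ⟨lo 0, lo_mem_lo.2 hl0⟩ ((key l hl.le).2 h1)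
  · intro h l hl h0 h1
    obtain ⟨l', hl', rfl⟩ := mem_lo.1 hl
    obtain ⟨a, ha⟩ := h0
    obtain ⟨α, hα, _⟩ := mem_lo.1 ha
    exact h l' hl' (bot_le.trans_lt hα) ((key l' hl'.le).1 h1)

/-- `Gd` inside `L` -/
def GdL (s d z e : LL.{u}) : Prop :=
  e ∈ d ∧ ∃ c, KR z c ∧ ClubL c d ∧ ∀ x, x ∈ c → x ∈ d → ∀ p, IsOp (· ∈ ·) p x e → p ∉ s

theorem gdL_iff {s : LL.{u}} {δ : Ordinal.{u}} (hs : Stg (fun ξ x => x = lo (fn ξ)) s δ)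
    {ζ η : Ordinal.{u}} : GdL s (lo δ) (lo ζ) (lo η) ↔ Gd fn δ ζ η := by
  unfold GdL Gd
  rw [lo_mem_lo]
  refine and_congr_right fun _ => ?_
  have key : ∀ c : LL.{u}, (∀ x, x ∈ c → x ∈ lo δ → ∀ p, IsOp (· ∈ ·) p x (lo η) → p ∉ s) ↔
      ∀ ξ ∈ ords c.1, ξ < δ → fn ξ ≠ η := by
    intro c
    constructor
    · intro h ξ hξ hξδ he
      refine h (lo ξ) hξ (lo_mem_lo.2 hξδ) (lpair (lo ξ) (lo η)) (LL.isOp_iff'.2 rfl) ?_
      rw [hs]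
      exact ⟨ξ, hξδ, lo η, by show lo η = lo (fn ξ); rw [he], rfl⟩
    · intro h x hx hxδ p hp hps
      obtain ⟨ξ, hξ, rfl⟩ := mem_lo.1 hxδ
      obtain ⟨ξ', _, y, hy, h'⟩ := (hs p).1 hps
      rw [LL.isOp_iff', h', lpair_inj, lo_inj] at hp
      have hy' : y = lo (fn ξ') := hy
      rw [hy', lo_inj] at hp
      exact h ξ hx hξ (by rw [← hp.1]; exact hp.2)
  constructor
  · rintro ⟨c, h1, h2, h3⟩
    exact ⟨c.1, KR_lo.1 h1, clubL_iff.1 h2, (key c).1 h3⟩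
  · rintro ⟨c, h1, h2, h3⟩
    exact ⟨⟨c, ζ, h1⟩, KR_lo.2 h1, clubL_iff.2 h2, (key _).2 h3⟩

theorem DL.clubL {x y : (ℕ → LL.{u}) → LL.{u}} (hx : DT Set.univ x) (hy : DT Set.univ y) :
    DL (fun v => ClubL (x v) (y v)) := by
  refine DL.sub2 (R := fun x y => ClubL x y) ?_ hx hy
  unfold ClubL
  apply_rules (maxDepth := 1000) [Dfn.ex, Dfn.and, Dfn.all, Dfn.imp, Dfn.mem, DT.var]

theorem DL.gdL {x y z t : (ℕ → LL.{u}) → LL.{u}} (hx : DT Set.univ x) (hy : DT Set.univ y)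
    (hz : DT Set.univ z) (ht : DT Set.univ t) : DL (fun v => GdL (x v) (y v) (z v) (t v)) := by
  refine DL.sub4 (R := fun x y z t => GdL x y z t) ?_ hx hy hz ht
  unfold GdL
  apply_rules (maxDepth := 1000) [DL.clubL, DL.KR, DL.isOp, Dfn.ex, Dfn.and, Dfn.all, Dfn.imp,
    Dfn.not, Dfn.fls, Dfn.mem, DT.var]

theorem nxt_pos {f : Ordinal.{u} → Ordinal.{u}} {δ ζ η : Ordinal.{u}} (hζ : ζ < om)
    (h : Gd f δ ζ η) (h1 : ∀ ζ' < ζ, ∀ η', ¬ Gd f δ ζ' η') (h2 : ∀ η' < η, ¬ Gd f δ ζ η') :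
    nxt f δ = η := by
  unfold nxt
  rw [if_pos ⟨ζ, hζ, η, h⟩]
  have e : sInf {ζ | ∃ η, Gd f δ ζ η} = ζ := by
    apply le_antisymm
    · exact csInf_le' (show ζ ∈ {ζ | ∃ η, Gd f δ ζ η} from ⟨η, h⟩)
    · apply le_csInf (show {ζ | ∃ η, Gd f δ ζ η}.Nonempty from ⟨ζ, η, h⟩)
      rintro ζ' ⟨η', h'⟩
      by_contra hc
      push Not at hc
      exact h1 ζ' hc η' h'
  rw [e]
  apply le_antisymm
  · exact csInf_le' (show η ∈ {η | Gd f δ ζ η} from h)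
  · apply le_csInf (show {η | Gd f δ ζ η}.Nonempty from ⟨η, h⟩)
    intro η' h'
    by_contra hc
    push Not at hc
    exact h2 η' hc h'

theorem nxt_cases (f : Ordinal.{u} → Ordinal.{u}) (δ : Ordinal.{u}) :
    (∃ ζ < om, Gd f δ ζ (nxt f δ) ∧ (∀ ζ' < ζ, ∀ η', ¬ Gd f δ ζ' η') ∧
      ∀ η' < nxt f δ, ¬ Gd f δ ζ η') ∨ ((¬ ∃ ζ < om, ∃ η, Gd f δ ζ η) ∧ nxt f δ = 0) := by
  by_cases h : ∃ ζ < om, ∃ η, Gd f δ ζ η
  · left
    obtain ⟨ζ0, hζ0, η0, h0⟩ := h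
    have hz : sInf {ζ | ∃ η, Gd f δ ζ η} ∈ {ζ | ∃ η, Gd f δ ζ η} := csInf_mem ⟨ζ0, η0, h0⟩
    obtain ⟨η1, h1⟩ := hz
    have he : sInf {η | Gd f δ (sInf {ζ | ∃ η, Gd f δ ζ η}) η} ∈
      {η | Gd f δ (sInf {ζ | ∃ η, Gd f δ ζ η}) η} := csInf_mem ⟨η1, h1⟩
    have e : nxt f δ = sInf {η | Gd f δ (sInf {ζ | ∃ η, Gd f δ ζ η}) η} := by
      unfold nxt
      rw [if_pos ⟨ζ0, hζ0, η0, h0⟩]
    refine ⟨sInf {ζ | ∃ η, Gd f δ ζ η}, (csInf_le' (show ζ0 ∈ {ζ | ∃ η, Gd f δ ζ η} from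
      ⟨η0, h0⟩)).trans_lt hζ0, ?_, ?_, ?_⟩
    · rw [e]; exact he
    · intro ζ' hζ' η' h'
      exact absurd (csInf_le' (show ζ' ∈ {ζ | ∃ η, Gd f δ ζ η} from ⟨η', h'⟩)) (not_le.2 hζ')
    · intro η' hη' h'
      rw [e] at hη'
      exact absurd (csInf_le' (show η' ∈ {η | Gd f δ (sInf {ζ | ∃ η, Gd f δ ζ η}) η} from h'))
        (not_le.2 hη')
  · right
    refine ⟨h, ?_⟩
    unfold nxt
    rw [if_neg h]

/-- the recursion for the coding function inside `L` -/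
def FnPhi (s d x : LL.{u}) : Prop :=
  (∃ z, z ∈ lo om ∧ GdL s d z x ∧ (∀ z', z' ∈ z → ∀ e, IsOrd e → ¬ GdL s d z' e) ∧
    ∀ e, e ∈ x → ¬ GdL s d z e) ∨
  ((¬ ∃ z, z ∈ lo om ∧ ∃ e, IsOrd e ∧ GdL s d z e) ∧ ∀ y, y ∉ x)

theorem lo_zero {x : LL.{u}} : (∀ y, y ∉ x) ↔ x = lo 0 := by
  constructor
  · intro h
    apply LL.ext
    ext z
    constructor
    · intro hz; exact absurd hz (h ⟨z, x.2.trans hz⟩)
    · intro hz
      obtain ⟨β, hβ, _⟩ := mem_lo.1 (show (⟨z, (lo 0).2.trans hz⟩ : LL.{u}) ∈ lo 0 from hz)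
      exact absurd hβ (not_lt.2 bot_le)
  · rintro rfl y hy
    obtain ⟨β, hβ, _⟩ := mem_lo.1 hy
    exact absurd hβ (not_lt.2 bot_le)

theorem dl_fn0 : DL (fun v : ℕ → LL.{u} => ∃ δ, v 0 = lo δ ∧ v 1 = lo (fn δ)) := by
  refine dl_rec (H := fun δ x => x = lo (fn δ)) (Φ := FnPhi) ?_ ?_ ?_
  · unfold FnPhi
    apply_rules (maxDepth := 1000) [DL.gdL, DL.isOrd, Dfn.ex, Dfn.and, Dfn.or, Dfn.all, Dfn.imp,
      Dfn.not, Dfn.fls, Dfn.mem, DT.var, DL.c]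
  · intro δ
    refine ⟨lo (Order.succ (fn δ)), fun x hx => ?_⟩
    rw [hx]
    exact lo_mem_lo.2 (Order.lt_succ _)
  · intro δ s hs x
    have hg : ∀ ζ η, GdL s (lo δ) (lo ζ) (lo η) ↔ Gd fn δ ζ η := fun ζ η => gdL_iff hs
    constructor
    · rintro rfl
      rw [fn_eq]
      rcases nxt_cases fn δ with ⟨ζ, hζ, h1, h2, h3⟩ | ⟨h1, h2⟩
      · refine Or.inl ⟨lo ζ, lo_mem_lo.2 hζ, (hg _ _).2 h1, ?_, ?_⟩
        · intro z' hz' e he h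
          obtain ⟨ζ', hζ', rfl⟩ := mem_lo.1 hz'
          obtain ⟨η, rfl⟩ := isOrd_iff_lo.1 he
          exact h2 ζ' hζ' η ((hg _ _).1 h)
        · intro e he h
          obtain ⟨η, hη, rfl⟩ := mem_lo.1 he
          exact h3 η hη ((hg _ _).1 h)
      · refine Or.inr ⟨?_, lo_zero.2 (by rw [h2])⟩
        rintro ⟨z, hz, e, he, h⟩
        obtain ⟨ζ, hζ, rfl⟩ := mem_lo.1 hz
        obtain ⟨η, rfl⟩ := isOrd_iff_lo.1 he
        exact h1 ⟨ζ, hζ, η, (hg _ _).1 h⟩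
    · rintro (⟨z, hz, h1, h2, h3⟩ | ⟨h1, h2⟩)
      · obtain ⟨ζ, hζ, rfl⟩ := mem_lo.1 hz
        obtain ⟨η, _, rfl⟩ := mem_lo.1 h1.1
        rw [fn_eq, nxt_pos hζ ((hg _ _).1 h1)]
        · intro ζ' hζ' η' h
          exact h2 (lo ζ') (lo_mem_lo.2 hζ') (lo η') (isOrd_iff_lo.2 ⟨η', rfl⟩) ((hg _ _).2 h)
        · intro η' hη' h
          exact h3 (lo η') (lo_mem_lo.2 hη') ((hg _ _).2 h)
      · rw [lo_zero.1 h2]
        rcases nxt_cases fn δ with ⟨ζ, hζ, h3, _⟩ | ⟨_, h3⟩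
        · exact absurd ⟨lo ζ, lo_mem_lo.2 hζ, lo (nxt fn δ), isOrd_iff_lo.2 ⟨_, rfl⟩, (hg _ _).2 h3⟩ h1
        · rw [fn_eq, h3]

/-- the graph of the coding function -/
def FnR (d x : LL.{u}) : Prop := ∃ δ, d = lo δ ∧ x = lo (fn δ)

theorem FnR_lo {δ η : Ordinal.{u}} : FnR (lo δ) (lo η) ↔ fn δ = η := by
  constructor
  · rintro ⟨δ', h1, h2⟩
    rw [lo_inj] at h1 h2
    rw [h1]; exact h2.symm
  · rintro rfl
    exact ⟨δ, rfl, rfl⟩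

theorem DL.FnR {x y : (ℕ → LL.{u}) → LL.{u}} (hx : DT Set.univ x) (hy : DT Set.univ y) :
    DL (fun v => FnR (x v) (y v)) := DL.sub2 (R := fun x y => Pool.Agent.DQ1.FnR x y) dl_fn0 hx hy

/-! ### Conditions -/

/-- `y` is the successor of `x` -/
def SucL (x y : LL.{u}) : Prop := ∀ z, z ∈ y ↔ z ∈ x ∨ z = x

theorem sucL_iff {α : Ordinal.{u}} {y : LL.{u}} : SucL (lo α) y ↔ y = lo (Order.succ α) := by
  have h : SucL (lo α) (lo (Order.succ α)) := by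
    intro z
    rw [mem_lo]
    constructor
    · rintro ⟨β, hβ, rfl⟩
      rcases (Order.lt_succ_iff.1 hβ).lt_or_eq with h | h
      · exact Or.inl (lo_mem_lo.2 h)
      · exact Or.inr (by rw [h])
    · rintro (h | rfl)
      · obtain ⟨β, hβ, rfl⟩ := mem_lo.1 h
        exact ⟨β, hβ.trans (Order.lt_succ α), rfl⟩
      · exact ⟨α, Order.lt_succ α, rfl⟩
  constructor
  · intro h'
    exact isZF_LL.ext fun z => (h' z).trans (h z).symm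
  · rintro rfl; exact h

/-- `γ` is a limit ordinal, for `γ` an ordinal -/
def LimL (g : LL.{u}) : Prop := (∃ a, a ∈ g) ∧ ∀ a, a ∈ g → ∃ b, b ∈ g ∧ SucL a b

theorem limL_iff {γ : Ordinal.{u}} : LimL (lo γ) ↔ Lim γ := by
  constructor
  · rintro ⟨⟨a, ha⟩, h⟩
    obtain ⟨α, hα, rfl⟩ := mem_lo.1 ha
    refine ⟨bot_le.trans_lt hα, fun β hβ => ?_⟩
    obtain ⟨b, hb, h1⟩ := h (lo β) (lo_mem_lo.2 hβ)
    rw [sucL_iff] at h1
    rw [h1] at hb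
    exact lo_mem_lo.1 hb
  · rintro ⟨h0, h⟩
    refine ⟨⟨lo 0, lo_mem_lo.2 h0⟩, fun a ha => ?_⟩
    obtain ⟨α, hα, rfl⟩ := mem_lo.1 ha
    exact ⟨lo (Order.succ α), lo_mem_lo.2 (h α hα), sucL_iff.2 rfl⟩

/-- conditions, inside `L` -/
def CondL (c : LL.{u}) : Prop :=
  (∀ x, x ∈ c → x ∈ lo om) ∧ (∃ m, m ∈ c ∧ ∀ a, a ∈ c → a ∈ m ∨ a = m) ∧
  (∀ l, IsOrd l → (∃ a, a ∈ l) → (∃ m, m ∈ c ∧ l ∈ m) →
    (∀ a, a ∈ l → ∃ b, b ∈ c ∧ a ∈ b ∧ b ∈ l) → l ∈ c) ∧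
  ∀ d, d ∈ c → ∀ g, g ∈ d → LimL g → (FnR d g → g ∉ c) ∧
    (∀ g', SucL g g' → FnR d g' → g ∈ c)

theorem condL_iff {c : LL.{u}} : CondL c ↔ Cond c.1 := by
  constructor
  · rintro ⟨h1, ⟨m, hm, h2⟩, h3, h4⟩
    have hord : ∀ x, x ∈ c → ∃ α < om, x = lo α := fun x hx => mem_lo.1 (h1 x hx)
    obtain ⟨μ, hμ, rfl⟩ := hord m hm
    refine ⟨c.2, ?_, ⟨μ, hm, ?_⟩, ?_, ?_⟩
    · intro x hx
      obtain ⟨α, hα, h⟩ := hord ⟨x, c.2.trans hx⟩ hx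
      exact ⟨α, hα, congrArg LL.val h⟩
    · intro α hα
      rcases h2 (lo α) hα with h | h
      · exact (lo_mem_lo.1 h).le
      · rw [lo_inj] at h; exact h.le
    · rintro l hl ⟨m', hm', hlm⟩ h
      refine h3 (lo l) (isOrd_iff_lo.2 ⟨l, rfl⟩) ⟨lo 0, lo_mem_lo.2 hl⟩ ⟨lo m', hm', lo_mem_lo.2 hlm⟩ ?_
      intro a ha
      obtain ⟨α, hα, rfl⟩ := mem_lo.1 ha
      obtain ⟨β, hβ, h5, h6⟩ := h α hα
      exact ⟨lo β, hβ, lo_mem_lo.2 h5, lo_mem_lo.2 h6⟩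
    · intro δ hδ γ hγ hl
      obtain ⟨h5, h6⟩ := h4 (lo δ) hδ (lo γ) (lo_mem_lo.2 hγ) (limL_iff.2 hl)
      exact ⟨fun h => h5 (FnR_lo.2 h), fun h => h6 (lo (Order.succ γ)) (sucL_iff.2 rfl) (FnR_lo.2 h)⟩
  · intro h
    have hord : ∀ x, x ∈ c → ∃ α < om, x = lo α := fun x hx => by
      obtain ⟨α, hα, h'⟩ := h.ord x.1 hx
      exact ⟨α, hα, LL.ext h'⟩
    obtain ⟨μ, hμ, h2⟩ := h.max
    refine ⟨fun x hx => ?_, ⟨lo μ, hμ, fun a ha => ?_⟩, ?_, ?_⟩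
    · obtain ⟨α, hα, rfl⟩ := hord x hx
      exact lo_mem_lo.2 hα
    · obtain ⟨α, hα, rfl⟩ := hord a ha
      rcases (h2 α ha).lt_or_eq with h' | h'
      · exact Or.inl (lo_mem_lo.2 h')
      · exact Or.inr (by rw [h'])
    · rintro l hl ⟨a, ha⟩ ⟨m, hm, hlm⟩ h'
      obtain ⟨l', rfl⟩ := isOrd_iff_lo.1 hl
      obtain ⟨α, hα, rfl⟩ := mem_lo.1 ha
      obtain ⟨m', _, rfl⟩ := hord m hm
      refine h.closed l' (bot_le.trans_lt hα) ⟨m', hm, lo_mem_lo.1 hlm⟩ fun β hβ => ?_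
      obtain ⟨b, hb, h5, h6⟩ := h' (lo β) (lo_mem_lo.2 hβ)
      obtain ⟨γ, hγ, rfl⟩ := mem_lo.1 h6
      exact ⟨γ, hb, lo_mem_lo.1 h5, hγ⟩
    · intro d hd g hg hl
      obtain ⟨δ, _, rfl⟩ := hord d hd
      obtain ⟨γ, hγ, rfl⟩ := mem_lo.1 hg
      obtain ⟨h5, h6⟩ := h.code δ hd γ hγ (limL_iff.1 hl)
      refine ⟨fun h' => h5 (FnR_lo.1 h'), fun g' hg' h' => ?_⟩
      rw [sucL_iff] at hg'
      rw [hg'] at h'
      exact h6 (FnR_lo.1 h')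

theorem DL.sucL {x y : (ℕ → LL.{u}) → LL.{u}} (hx : DT Set.univ x) (hy : DT Set.univ y) :
    DL (fun v => SucL (x v) (y v)) := by
  refine DL.sub2 (R := fun x y => SucL x y) ?_ hx hy
  unfold SucL
  apply_rules (maxDepth := 1000) [Dfn.all, Dfn.iff, Dfn.or, Dfn.mem, Dfn.eq, DT.var]

theorem DL.limL {x : (ℕ → LL.{u}) → LL.{u}} (hx : DT Set.univ x) :
    DL (fun v => LimL (x v)) := by
  refine DL.sub1 (R := fun x => LimL x) ?_ hx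
  unfold LimL
  apply_rules (maxDepth := 1000) [DL.sucL, Dfn.all, Dfn.ex, Dfn.and, Dfn.imp, Dfn.mem, DT.var]

theorem DL.condL {x : (ℕ → LL.{u}) → LL.{u}} (hx : DT Set.univ x) :
    DL (fun v => CondL (x v)) := by
  refine DL.sub1 (R := fun x => CondL x) ?_ hx
  unfold CondL
  apply_rules (maxDepth := 1000) [DL.limL, DL.sucL, DL.FnR, DL.isOrd, Dfn.all, Dfn.ex, Dfn.and,
    Dfn.or, Dfn.not, Dfn.fls, Dfn.imp, Dfn.mem, Dfn.eq, DT.var, DL.c]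

/-- the set of all conditions -/
theorem exists_PP : ∃ P : LL.{u}, ∀ c : LL.{u}, c ∈ P ↔ Cond c.1 := by
  obtain ⟨p, hp⟩ := isZF_LL.powerset (lo om)
  obtain ⟨P, hP⟩ := LL_sep' (P := fun c => CondL c) (DL.condL (DT.var 0)) p
  refine ⟨P, fun c => ?_⟩
  rw [hP, hp, condL_iff]
  refine ⟨fun h => h.2, fun h => ⟨fun x hx => ?_, h⟩⟩
  obtain ⟨α, hα, h'⟩ := h.ord x.1 hx
  exact mem_lo.2 ⟨α, hα, LL.ext h'⟩

/-- the set of all conditions -/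
noncomputable def PP : LL.{u} := exists_PP.choose

theorem mem_PP {c : LL.{u}} : c ∈ PP ↔ Cond c.1 := exists_PP.choose_spec c

/-- end extension, inside `L` -/
def EE (c d : LL.{u}) : Prop :=
  (∀ x, x ∈ d → x ∈ c) ∧ ∀ a, a ∈ c → a ∉ d → ∀ b, b ∈ d → b ∈ a

theorem EE_iff {c d : LL.{u}} (hc : Cond c.1) (hd : Cond d.1) : EE c d ↔ EndExt c.1 d.1 := by
  have ho : ∀ {c : LL.{u}}, Cond c.1 → ∀ x, x ∈ c → ∃ α, x = lo α := fun hc x hx => by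
    obtain ⟨α, _, h⟩ := hc.ord x.1 hx
    exact ⟨α, LL.ext h⟩
  constructor
  · rintro ⟨h1, h2⟩
    refine ⟨fun x hx => h1 ⟨x, d.2.trans hx⟩ hx, fun α hα hα' β hβ => ?_⟩
    exact lo_mem_lo.1 (h2 (lo α) hα hα' (lo β) hβ)
  · rintro ⟨h1, h2⟩
    refine ⟨fun x hx => h1 hx, fun a ha ha' b hb => ?_⟩
    obtain ⟨α, rfl⟩ := ho hc a ha
    obtain ⟨β, rfl⟩ := ho hd b hb
    exact lo_mem_lo.2 (h2 α ha ha' β hb)

theorem DL.EE {x y : (ℕ → LL.{u}) → LL.{u}} (hx : DT Set.univ x) (hy : DT Set.univ y) :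
    DL (fun v => EE (x v) (y v)) := by
  refine DL.sub2 (R := fun x y => Pool.Agent.DQ1.EE x y) ?_ hx hy
  unfold Pool.Agent.DQ1.EE
  apply_rules (maxDepth := 1000) [Dfn.all, Dfn.and, Dfn.imp, Dfn.not, Dfn.fls, Dfn.mem, DT.var]

theorem EndExt.refl (c : ZFSet.{u}) : EndExt c c := ⟨fun _ h => h, fun _ h h' => absurd h h'⟩

theorem EndExt.trans {c d e : ZFSet.{u}} (h : EndExt c d) (h' : EndExt d e) : EndExt c e := by
  refine ⟨fun _ hx => h.1 (h'.1 hx), fun α hα hα' β hβ => ?_⟩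
  by_cases hd : α ∈ ords d
  · exact h'.2 α hd hα' β hβ
  · exact h.2 α hα hd β (show β ∈ ords d from h'.1 (show β.toZFSet ∈ e from hβ))

/-- the type of conditions -/
def Pc : Type (u+1) := {c : LL.{u} // Cond c.1}

instance : Preorder Pc.{u} where
  le c d := EndExt c.1.1 d.1.1
  le_refl c := EndExt.refl _
  le_trans _ _ _ h h' := EndExt.trans h h'

end Pool.Agent.DQ1
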