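import Pool.Agent.DQ1.KBase
import Pool.Agent.DQ1.Hull

/-! # The coding function takes every countable value on every constructible club -/

namespace Pool.Agent.DQ1

open Cardinal Ordinal

universe u

namespace StatAux

theorem gd_congr {f g : Ordinal.{u} → Ordinal.{u}} {δ : Ordinal.{u}} (h : ∀ ξ < δ, f ξ = g ξ)
    {ζ η : Ordinal.{u}} : Gd f δ ζ η ↔ Gd g δ ζ η := by
  constructor
  · rintro ⟨h1, c, h2, h3, h4⟩
    exact ⟨h1, c, h2, h3, fun ξ hξ hδ => by rw [← h ξ hδ]; exact h4 ξ hξ hδ⟩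
  · rintro ⟨h1, c, h2, h3, h4⟩
    exact ⟨h1, c, h2, h3, fun ξ hξ hδ => by rw [h ξ hδ]; exact h4 ξ hξ hδ⟩

theorem nxt_congr {f g : Ordinal.{u} → Ordinal.{u}} {δ : Ordinal.{u}} (h : ∀ ξ < δ, f ξ = g ξ) :
    nxt f δ = nxt g δ := by
  have h1 : Gd f δ = Gd g δ := by
    funext ζ η
    exact propext (gd_congr h)
  unfold nxt
  rw [h1]

theorem fn_eq (δ : Ordinal.{u}) : fn δ = nxt fn δ := by
  rw [fn]
  refine nxt_congr fun ξ hξ => ?_
  rw [dif_pos hξ]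

open Classical in
/-- a constructible ordinal below `om` with the property `P` -/
noncomputable def wit (P : Ordinal.{u} → Prop) : ZFSet.{u} :=
  if h : ∃ α, α < om ∧ P α ∧ IsL α.toZFSet then h.choose.toZFSet else K 0

theorem isL_wit (P : Ordinal.{u} → Prop) : IsL (wit P) := by
  unfold wit
  split_ifs with h
  · exact h.choose_spec.2.2
  · exact isL_K 0

theorem wit_mem {P : Ordinal.{u} → Prop} {X : Set ZFSet.{u}} {δ : Ordinal.{u}}
    (hX : ∀ α < om, α.toZFSet ∈ X ↔ α < δ) (hL : ∀ α : Ordinal.{u}, α < om → IsL α.toZFSet)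
    (hm : wit P ∈ X) (h : ∃ α, α < om ∧ P α) : ∃ α < δ, P α := by
  have h' : ∃ α, α < om ∧ P α ∧ IsL α.toZFSet := by
    obtain ⟨α, h1, h2⟩ := h
    exact ⟨α, h1, h2, hL α h1⟩
  have h1 : wit P = h'.choose.toZFSet := by unfold wit; rw [dif_pos h']
  obtain ⟨h2, h3, _⟩ := h'.choose_spec
  exact ⟨h'.choose, (hX _ h2).1 (h1 ▸ hm), h3⟩

/-- the properties for which witnesses are needed -/
def StP (c : ZFSet.{u}) (i : Fin 4) (l : List ZFSet.{u}) (α : Ordinal.{u}) : Prop :=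
  (i = 0 ∧ ∃ x : Ordinal.{u}, l = [x.toZFSet] ∧ α ∈ ords c ∧ x < α) ∨
  (i = 1 ∧ ∃ y, l = [y] ∧ ∀ β ∈ ords y, ¬ (α < β ∧ β < om)) ∨
  (i = 2 ∧ ∃ y, l = [y] ∧ 0 < α ∧ (∀ α' < α, ∃ β ∈ ords y, α' < β ∧ β < α) ∧ α ∉ ords y) ∨
  (i = 3 ∧ ∃ y, ∃ e : Ordinal.{u}, l = [y, e.toZFSet] ∧ α ∈ ords y ∧ fn α = e)

end StatAux

theorem fn_stat {c : ZFSet.{u}} (hc : IsL c) (hcl : ClubIn (ords c) om) {η : Ordinal.{u}}
    (hη : η < om) : ∃ δ ∈ ords c, δ < om ∧ fn δ = η := by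
  have hL : ∀ α : Ordinal.{u}, α < om → IsL α.toZFSet := by
    intro α hα
    obtain ⟨β, h1, h2, -⟩ := hcl.1 α hα
    exact (hc.trans h1).trans (toZFSet_mem_toZFSet_iff.2 h2)
  by_contra hcon
  push Not at hcon
  have hex : ∃ ζ η, Gd fn om ζ η := by
    obtain ⟨ζ, hζ⟩ := hc
    exact ⟨ζ, η, hη, c, hζ, hcl, hcon⟩
  clear hcon hη hcl hc
  -- the least counterexample
  set Z : Set Ordinal.{u} := {ζ | ∃ η, Gd fn om ζ η} with hZ
  have hZ0 : sInf Z ∈ Z := csInf_mem hex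
  set ζ := sInf Z with hζ
  set E : Set Ordinal.{u} := {η | Gd fn om ζ η} with hE
  have hE0 : sInf E ∈ E := csInf_mem hZ0
  set e := sInf E with he
  obtain ⟨heom, c, hcK, ⟨hun, hclo⟩, hcf⟩ := hE0
  obtain ⟨X, π, ρ, δ, H, hSX, hXF⟩ :=
    exists_hull (fun i l => StatAux.wit (StatAux.StP c i l)) (fun i l _ => StatAux.isL_wit _) {c, K ζ, e.toZFSet}
      (Set.toFinite _).countable (by
        rintro x (rfl | rfl | rfl)
        · exact ⟨ζ, hcK⟩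
        · exact isL_K _
        · exact hL _ heom)
  have hδ := H.del_lt
  have hXδ := H.del
  have hcX : c ∈ X := hSX (by simp)
  have hζX : K ζ ∈ X := hSX (by simp)
  have heX : e.toZFSet ∈ X := hSX (by simp)
  have heδ : e < δ := (hXδ e heom).1 heX
  have hδ0 : 0 < δ := lt_of_le_of_lt bot_le heδ
  have hX' : ∀ α < δ, α.toZFSet ∈ X := fun α hα => (hXδ α (hα.trans hδ)).2 hα
  have key : ∀ i l, (∀ x ∈ l, x ∈ X) → (∃ α, α < om ∧ StatAux.StP c i l α) → ∃ α < δ, StatAux.StP c i l α :=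
    fun i l hl h => StatAux.wit_mem hXδ hL (hXF i l hl) h
  have hords : ∀ y ∈ X, ∀ β < δ, (β ∈ ords (π y) ↔ β ∈ ords y) := H.ords_pi
  -- the club is unbounded in `δ`
  have hun' : ∀ α < δ, ∃ β ∈ ords c, α < β ∧ β < δ := by
    intro α hα
    obtain ⟨β, hβ, hP⟩ := key 0 [α.toZFSet] (by
      intro x hx
      rw [List.mem_singleton] at hx
      rw [hx]
      exact hX' α hα) (by
      obtain ⟨β, hβ, h1, h2⟩ := hun α (hα.trans hδ)
      exact ⟨β, h2, Or.inl ⟨rfl, α, rfl, hβ, h1⟩⟩)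
    rcases hP with ⟨_, x, hx, hβc, hxβ⟩ | ⟨h, _⟩ | ⟨h, _⟩ | ⟨h, _⟩
    · rw [List.cons.injEq] at hx
      rw [← toZFSet_injective hx.1] at hxβ
      exact ⟨β, hβc, hxβ, hβ⟩
    · exact absurd h (by decide)
    · exact absurd h (by decide)
    · exact absurd h (by decide)
  have hG : Gd fn δ (ρ ζ) e := by
    refine ⟨heδ, π c, ?_, ⟨?_, ?_⟩, ?_⟩
    · rw [← H.pi_K ζ hζX, H.mem _ hζX]
      exact ⟨c, hcX, hcK, rfl⟩
    · intro α hα
      obtain ⟨β, h1, h2, h3⟩ := hun' α hα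
      exact ⟨β, (hords c hcX β h3).2 h1, h2, h3⟩
    · intro l hl hl0 hl'
      refine (hords c hcX l hl).2 (hclo l (hl.trans hδ) hl0 fun α hα => ?_)
      obtain ⟨β, h1, h2, h3⟩ := hl' α hα
      exact ⟨β, (hords c hcX β (h3.trans hl)).1 h1, h2, h3⟩
    · intro ξ hξ hξδ
      exact hcf ξ ((hords c hcX ξ hξδ).1 hξ) (hξδ.trans hδ)
  -- counterexamples for `δ` come from counterexamples for `om`
  have hB : ∀ ζ' : Ordinal.{u}, K ζ' ∈ X → ∀ η' : Ordinal.{u}, Gd fn δ (ρ ζ') η' →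
      Gd fn om ζ' η' := by
    rintro ζ' hζ' η' ⟨hη', c', hc', ⟨hu, hcl⟩, hf⟩
    rw [← H.pi_K ζ' hζ', H.mem _ hζ'] at hc'
    obtain ⟨d, hdX, hdK, rfl⟩ := hc'
    have hl1 : ∀ x ∈ [d], x ∈ X := by
      intro x hx
      rw [List.mem_singleton] at hx
      rw [hx]
      exact hdX
    refine ⟨hη'.trans hδ, d, hdK, ⟨?_, ?_⟩, ?_⟩
    · by_contra hcon
      push Not at hcon
      obtain ⟨α, hα, h1⟩ := hcon
      obtain ⟨α, hα, hP⟩ := key 1 [d] hl1 ⟨α, hα, Or.inr (Or.inl ⟨rfl, d, rfl, fun β hβ h2 =>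
        absurd h2.2 (not_lt.2 (h1 β hβ h2.1))⟩)⟩
      rcases hP with ⟨h, _⟩ | ⟨_, y, hy, hP⟩ | ⟨h, _⟩ | ⟨h, _⟩
      · exact absurd h (by decide)
      · rw [List.cons.injEq] at hy
        rw [← hy.1] at hP
        obtain ⟨β, h2, h3, h4⟩ := hu α hα
        exact hP β ((hords d hdX β h4).1 h2) ⟨h3, h4.trans hδ⟩
      · exact absurd h (by decide)
      · exact absurd h (by decide)
    · intro l hl hl0 hl'
      by_contra hcon
      obtain ⟨α, hα, hP⟩ := key 2 [d] hl1 ⟨l, hl, Or.inr (Or.inr (Or.inl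
        ⟨rfl, d, rfl, hl0, hl', hcon⟩))⟩
      rcases hP with ⟨h, _⟩ | ⟨h, _⟩ | ⟨_, y, hy, hα0, hα1, hα2⟩ | ⟨h, _⟩
      · exact absurd h (by decide)
      · exact absurd h (by decide)
      · rw [List.cons.injEq] at hy
        rw [← hy.1] at hα1 hα2
        refine hα2 ((hords d hdX α hα).1 (hcl α hα hα0 fun α' hα' => ?_))
        obtain ⟨β, h1, h2, h3⟩ := hα1 α' hα'
        exact ⟨β, (hords d hdX β (h3.trans hα)).2 h1, h2, h3⟩
      · exact absurd h (by decide)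
    · intro ξ hξ hξom hfξ
      obtain ⟨α, hα, hP⟩ := key 3 [d, η'.toZFSet] (by
        intro x hx
        rw [List.mem_cons, List.mem_singleton] at hx
        rcases hx with rfl | rfl
        · exact hdX
        · exact hX' η' hη') ⟨ξ, hξom, Or.inr (Or.inr (Or.inr ⟨rfl, d, η', rfl, hξ, hfξ⟩))⟩
      rcases hP with ⟨h, _⟩ | ⟨h, _⟩ | ⟨h, _⟩ | ⟨_, y, e', hy, hα0, hα1⟩
      · exact absurd h (by decide)
      · exact absurd h (by decide)
      · exact absurd h (by decide)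
      · rw [List.cons.injEq, List.cons.injEq] at hy
        rw [← hy.1] at hα0
        rw [← toZFSet_injective hy.2.1] at hα1
        exact hf α ((hords d hdX α hα).2 hα0) hα hα1
  -- the value at `δ`
  have h1 : sInf {ζ' | ∃ η, Gd fn δ ζ' η} = ρ ζ := by
    apply le_antisymm
    · exact csInf_le (OrderBot.bddBelow _) ⟨e, hG⟩
    · have hm : sInf {ζ' | ∃ η, Gd fn δ ζ' η} ∈ {ζ' | ∃ η, Gd fn δ ζ' η} := csInf_mem ⟨_, e, hG⟩
      by_contra hlt
      rw [not_le] at hlt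
      obtain ⟨ζ', hlt', hζ', hζe⟩ := H.rho_init ζ hζX _ hlt
      rw [← hζe] at hm
      obtain ⟨η', hη'⟩ := hm
      have h2 : ζ' ∈ Z := ⟨η', hB ζ' hζ' η' hη'⟩
      exact absurd (csInf_le (OrderBot.bddBelow _) h2) (not_le.2 hlt')
  have h2 : sInf {η | Gd fn δ (ρ ζ) η} = e := by
    apply le_antisymm
    · exact csInf_le (OrderBot.bddBelow _) hG
    · have hm : sInf {η | Gd fn δ (ρ ζ) η} ∈ {η | Gd fn δ (ρ ζ) η} := csInf_mem ⟨e, hG⟩
      exact csInf_le (OrderBot.bddBelow _) (hB ζ hζX _ hm)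
  have h3 : fn δ = e := by
    rw [StatAux.fn_eq, nxt, if_pos ⟨ρ ζ, H.rho_lt ζ hζX, e, hG⟩, h1, h2]
  exact hcf δ (hclo δ hδ hδ0 hun') hδ h3

end Pool.Agent.DQ1
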