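import Pool.Agent.DQ1.Defs2
import Pool.Agent.DQ1.StatFn

/-! # Generic sets: decision, club, nonstationarity -/

namespace Pool.Agent.DQ1

open Cardinal Ordinal
open ZFM (Fm Sat Dfn DT IsZF)

universe u v w

theorem mem_seg {C : Set Ordinal.{u}} {β : Ordinal.{u}} {x : ZFSet.{u}} :
    x ∈ seg C β ↔ ∃ α ∈ C, α ≤ β ∧ x = α.toZFSet := by
  unfold seg
  rw [ZFSet.mem_sep]
  constructor
  · rintro ⟨h, α, hα, rfl⟩
    exact ⟨α, hα, Order.lt_succ_iff.1 (toZFSet_mem_toZFSet_iff.1 h), rfl⟩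
  · rintro ⟨α, hα, h, rfl⟩
    exact ⟨toZFSet_mem_toZFSet_iff.2 (Order.lt_succ_iff.2 h), α, hα, rfl⟩

theorem mem_ords_seg {C : Set Ordinal.{u}} {β α : Ordinal.{u}} :
    α ∈ ords (seg C β) ↔ α ∈ C ∧ α ≤ β := by
  show α.toZFSet ∈ seg C β ↔ _
  rw [mem_seg]
  constructor
  · rintro ⟨α', h1, h2, h3⟩
    rw [toZFSet_injective h3]
    exact ⟨h1, h2⟩
  · rintro ⟨h1, h2⟩
    exact ⟨α, h1, h2, rfl⟩

theorem sg_le {C : Set Ordinal.{u}} (hC : Generic C) {β β' : Ordinal.{u}} (hβ : β ∈ C) (hβ' : β' ∈ C)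
    (h : β ≤ β') : sg hC hβ' ≤ sg hC hβ := by
  show EndExt (seg C β') (seg C β)
  refine ⟨fun x hx => ?_, fun α hα hα' b hb => ?_⟩
  · obtain ⟨α, h1, h2, rfl⟩ := mem_seg.1 hx
    exact mem_seg.2 ⟨α, h1, h2.trans h, rfl⟩
  · rw [mem_ords_seg] at hα hα' hb
    refine hb.2.trans_lt ?_
    by_contra hc
    push Not at hc
    exact hα' ⟨hα.1, hc⟩

/-- genericity in the form needed everywhere -/
theorem gen_dec {C : Set Ordinal.{u}} (hC : Generic C) (E : LL.{u}) :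
    ∃ (β : Ordinal.{u}) (hβ : β ∈ C), (sg hC hβ).1 ∈ E ∨ ∀ q : Pc.{u}, q ≤ sg hC hβ → q.1 ∉ E := by
  obtain ⟨D, hD⟩ := LL_sep' (P := fun c => c ∈ E ∨ ∀ q, q ∈ PP → EE q c → q ∉ E) (by
    apply_rules (maxDepth := 1000) [DL.EE, Dfn.all, Dfn.and, Dfn.or, Dfn.imp, Dfn.not, Dfn.fls,
      Dfn.mem, DT.var, DL.c]) PP
  obtain ⟨β, hβ, h⟩ := hC.meets D.1 D.2 (fun c hc => by
    by_cases h : ∃ q, q ∈ PP ∧ EE q ⟨c, hc.constr⟩ ∧ q ∈ E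
    · obtain ⟨q, h1, h2, h3⟩ := h
      exact ⟨q.1, (hD q).2 ⟨h1, Or.inl h3⟩, mem_PP.1 h1, (EE_iff (mem_PP.1 h1) hc).1 h2⟩
    · refine ⟨c, (hD ⟨c, hc.constr⟩).2 ⟨mem_PP.2 hc, Or.inr fun q h1 h2 h3 => h ⟨q, h1, h2, h3⟩⟩,
        hc, EndExt.refl c⟩)
  refine ⟨β, hβ, ?_⟩
  have h' := (hD (sg hC hβ).1).1 h
  refine h'.2.imp id fun h2 q hq => ?_
  exact h2 q.1 (mem_PP.2 q.2) ((EE_iff q.2 (sg hC hβ).2).2 hq)

/-! ### Extending conditions -/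

theorem om_pos : 0 < om.{u} := by
  unfold om
  exact (isSuccLimit_ord (aleph0_le_aleph 1)).bot_lt

theorem om_succ {α : Ordinal.{u}} (h : α < om) : Order.succ α < om :=
  (isSuccLimit_ord (aleph0_le_aleph 1)).succ_lt h

theorem om_lim {α : Ordinal.{u}} (h : α < om) : ∃ γ, α < γ ∧ γ < om ∧ Lim γ := by
  refine ⟨α + ω, lt_add_of_pos_right α omega0_pos, ?_, ?_, ?_⟩
  · refine isPrincipal_add_ord (aleph0_le_aleph 1) h ?_
    rw [← ord_aleph0]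
    exact ord_lt_ord.2 (aleph0_lt_aleph_one)
  · exact lt_of_lt_of_le omega0_pos le_add_self
  · intro β hβ
    exact (isSuccLimit_add α isSuccLimit_omega0).succ_lt hβ

/-- there are limit ordinals with code `0` above every countable ordinal -/
theorem exists_above {α : Ordinal.{u}} (h : α < om) : ∃ δ, α < δ ∧ δ < om ∧ Lim δ ∧ fn δ = 0 := by
  obtain ⟨c, hc⟩ := LL_sep' (P := fun x => LimL x ∧ lo α ∈ x) (by
    apply_rules (maxDepth := 1000) [DL.limL, Dfn.and, Dfn.mem, DT.var, DL.c]) (lo om)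
  have hc' : ∀ β, β ∈ ords c.1 ↔ β < om ∧ Lim β ∧ α < β := by
    intro β
    refine (hc (lo β)).trans ?_
    rw [lo_mem_lo, limL_iff, lo_mem_lo]
  have hcl : ClubIn (ords c.1) om := by
    refine ⟨fun β hβ => ?_, fun l hl hl0 h1 => ?_⟩
    · obtain ⟨γ, h1, h2, h3⟩ := om_lim (max_lt hβ h)
      exact ⟨γ, (hc' γ).2 ⟨h2, h3, (le_max_right _ _).trans_lt h1⟩, (le_max_left _ _).trans_lt h1, h2⟩
    · rw [hc']
      refine ⟨hl, ⟨hl0, fun β hβ => ?_⟩, ?_⟩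
      · obtain ⟨γ, h2, h3, h4⟩ := h1 β hβ
        exact (Order.succ_le_iff.2 h3).trans_lt h4
      · obtain ⟨γ, h2, h3, h4⟩ := h1 0 hl0
        exact ((hc' γ).1 h2).2.2.trans h4
  obtain ⟨δ, h1, h2, h3⟩ := fn_stat c.2 hcl om_pos
  exact ⟨δ, ((hc' δ).1 h1).2.2, h2, ((hc' δ).1 h1).2.1, h3⟩

/-- adding an ordinal with code `0` on top of a condition -/
theorem cond_ins {c : LL.{u}} (hc : Cond c.1) {δ : Ordinal.{u}} (hlt : ∀ α ∈ ords c.1, α < δ)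
    (hδ : δ < om) (h0 : fn δ = 0) : ∃ d : LL.{u}, Cond d.1 ∧ EndExt d.1 c.1 ∧
      ∀ α, α ∈ ords d.1 ↔ α ∈ ords c.1 ∨ α = δ := by
  have hcm : ∀ x, x ∈ c → x ∈ lo om := fun x hx => by
    obtain ⟨α, hα, h⟩ := hc.ord x.1 hx
    exact mem_lo.2 ⟨α, hα, LL.ext h⟩
  obtain ⟨d, hd⟩ := LL_sep' (P := fun x => x ∈ c ∨ x = lo δ) (by
    apply_rules (maxDepth := 1000) [Dfn.or, Dfn.mem, Dfn.eq, DT.var, DL.c]) (lo om)
  have hd' : ∀ x, x ∈ d ↔ x ∈ c ∨ x = lo δ := fun x => by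
    rw [hd]
    refine ⟨fun h => h.2, fun h => ⟨?_, h⟩⟩
    rcases h with h | rfl
    · exact hcm x h
    · exact lo_mem_lo.2 hδ
  have ho : ∀ α, α ∈ ords d.1 ↔ α ∈ ords c.1 ∨ α = δ := fun α => by
    refine (hd' (lo α)).trans (or_congr Iff.rfl lo_inj)
  obtain ⟨m, hm, hmx⟩ := hc.max
  refine ⟨d, ⟨d.2, ?_, ?_, ?_, ?_⟩, ⟨?_, ?_⟩, ho⟩
  · intro x hx
    rcases (hd' ⟨x, d.2.trans hx⟩).1 hx with h | h
    · exact hc.ord x h
    · exact ⟨δ, hδ, congrArg LL.val h⟩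
  · refine ⟨δ, (ho δ).2 (Or.inr rfl), fun α hα => ?_⟩
    rcases (ho α).1 hα with h | rfl
    · exact (hlt α h).le
    · exact le_rfl
  · rintro l hl ⟨m', hm', hlm⟩ h
    have hlδ : l < δ := by
      rcases (ho m').1 hm' with h' | rfl
      · exact hlm.trans (hlt m' h')
      · exact hlm
    have h' : ∀ α < l, ∃ β ∈ ords c.1, α < β ∧ β < l := by
      intro α hα
      obtain ⟨β, hβ, h1, h2⟩ := h α hα
      rcases (ho β).1 hβ with h3 | rfl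
      · exact ⟨β, h3, h1, h2⟩
      · exact absurd (h2.trans hlδ) (lt_irrefl _)
    rw [ho]
    left
    rcases lt_trichotomy l m with h1 | h1 | h1
    · exact hc.closed l hl ⟨m, hm, h1⟩ h'
    · rw [h1]; exact hm
    · obtain ⟨β, h2, h3, h4⟩ := h' m h1
      exact absurd (hmx β h2) (not_le.2 h3)
  · intro δ' hδ' γ hγ hl
    rcases (ho δ').1 hδ' with h | rfl
    · obtain ⟨h1, h2⟩ := hc.code δ' h γ hγ hl
      refine ⟨fun h3 h4 => ?_, fun h3 => (ho γ).2 (Or.inl (h2 h3))⟩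
      rcases (ho γ).1 h4 with h5 | rfl
      · exact h1 h3 h5
      · exact absurd (hγ.trans (hlt δ' h)) (lt_irrefl _)
    · refine ⟨fun h3 => ?_, fun h3 => ?_⟩
      · rw [h0] at h3
        exact absurd hl.1 (by rw [← h3]; exact lt_irrefl _)
      · rw [h0] at h3
        exact absurd (bot_le.trans_lt (Order.lt_succ γ)) (by rw [← h3]; exact lt_irrefl _)
  · intro x hx
    exact (hd' ⟨x, c.2.trans hx⟩).2 (Or.inl hx)
  · intro α hα hα' β hβ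
    rcases (ho α).1 hα with h | rfl
    · exact absurd h hα'
    · exact hlt β hβ

theorem club_C {C : Set Ordinal.{u}} (hC : Generic C) : ClubIn C om := by
  have hub : ∀ α < om, ∃ β ∈ C, α < β ∧ β < om := by
    intro α hα
    obtain ⟨D, hD⟩ := LL_sep' (P := fun c => ∃ b, b ∈ c ∧ lo α ∈ b) (by
      apply_rules (maxDepth := 1000) [Dfn.ex, Dfn.and, Dfn.mem, DT.var, DL.c]) PP
    obtain ⟨β, hβ, h⟩ := hC.meets D.1 D.2 (fun c hc => by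
      obtain ⟨m, hm, hmx⟩ := hc.max
      obtain ⟨μ, hμ, h1⟩ := hc.ord m.toZFSet hm
      have hm' : m < om := by rw [toZFSet_injective h1]; exact hμ
      obtain ⟨δ, h2, h3, _, h4⟩ := exists_above (max_lt hα hm')
      obtain ⟨d, h5, h6, h7⟩ := cond_ins (c := ⟨c, hc.constr⟩) hc
        (fun α hα => (hmx α hα).trans_lt ((le_max_right _ _).trans_lt h2)) h3 h4
      exact ⟨d.1, (hD d).2 ⟨mem_PP.2 h5, lo δ, (h7 δ).2 (Or.inr rfl),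
        lo_mem_lo.2 ((le_max_left _ _).trans_lt h2)⟩, h5, h6⟩)
    have hs : (⟨seg C β, (hC.cond β hβ).constr⟩ : LL.{u}) ∈ D := h
    obtain ⟨_, b, hb, hb'⟩ := (hD _).1 hs
    obtain ⟨β', h1, h2, h3⟩ := mem_seg.1 hb
    have e : b = lo β' := LL.ext h3
    rw [e] at hb'
    exact ⟨β', h1, lo_mem_lo.1 hb', hC.lt β' h1⟩
  refine ⟨hub, fun l hl hl0 h => ?_⟩
  obtain ⟨β, hβ, h1, h2⟩ := hub l hl
  refine (mem_ords_seg.1 ((hC.cond β hβ).closed l hl0 ⟨β, mem_ords_seg.2 ⟨hβ, le_rfl⟩, h1⟩ ?_)).1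
  intro α hα
  obtain ⟨β', h3, h4, h5⟩ := h α hα
  exact ⟨β', mem_ords_seg.2 ⟨h3, (h5.trans h1).le⟩, h4, h5⟩

theorem club_above {C : Set Ordinal.{u}} (hC : Generic C) {γ : Ordinal.{u}} (hγ : γ < om) :
    ClubIn {δ | δ ∈ C ∧ γ < δ} om := by
  refine ⟨fun α hα => ?_, fun l hl hl0 h => ?_⟩
  · obtain ⟨β, h1, h2, h3⟩ := (club_C hC).1 _ (max_lt hα hγ)
    exact ⟨β, ⟨h1, (le_max_right _ _).trans_lt h2⟩, (le_max_left _ _).trans_lt h2, h3⟩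
  · refine ⟨(club_C hC).2 l hl hl0 fun α hα => ?_, ?_⟩
    · obtain ⟨β, h1, h2, h3⟩ := h α hα
      exact ⟨β, h1.1, h2, h3⟩
    · obtain ⟨β, h1, h2, h3⟩ := h 0 hl0
      exact h1.2.trans h3

theorem nonstat_mem {C : Set Ordinal.{u}} (hC : Generic C) {γ : Ordinal.{u}} (hγ : γ < om)
    (hl : Lim γ) (h : γ ∈ C) : NonStat {δ | fn δ = γ} := by
  refine ⟨_, club_above hC hγ, fun δ hδ _ h1 => ?_⟩
  exact ((hC.cond δ hδ.1).code δ (mem_ords_seg.2 ⟨hδ.1, le_rfl⟩) γ hδ.2 hl).1 h1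
    (mem_ords_seg.2 ⟨h, hδ.2.le⟩)

theorem nonstat_not_mem {C : Set Ordinal.{u}} (hC : Generic C) {γ : Ordinal.{u}} (hγ : γ < om)
    (hl : Lim γ) (h : γ ∉ C) : NonStat {δ | fn δ = Order.succ γ} := by
  refine ⟨_, club_above hC hγ, fun δ hδ _ h1 => ?_⟩
  exact h (mem_ords_seg.1 (((hC.cond δ hδ.1).code δ (mem_ords_seg.2 ⟨hδ.1, le_rfl⟩) γ hδ.2 hl).2 h1)).1

theorem lim_C_not {C : Set Ordinal.{u}} (hC : Generic C) :
    ¬ ∃ Y : ZFSet.{u}, IsL Y ∧ ∀ γ < om, Lim γ → (γ.toZFSet ∈ Y ↔ γ ∈ C) := by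
  rintro ⟨Y, hY, hYC⟩
  obtain ⟨D, hD⟩ := LL_sep' (P := fun c => ∃ g, (LimL g ∧ ∃ m, m ∈ c ∧ g ∈ m) ∧
      ¬ (g ∈ c ↔ g ∈ (⟨Y, hY⟩ : LL.{u}))) (by
    apply_rules (maxDepth := 1000) [DL.limL, Dfn.ex, Dfn.and, Dfn.not, Dfn.fls, Dfn.iff, Dfn.mem,
      DT.var, DL.c]) PP
  obtain ⟨β, hβ, h⟩ := hC.meets D.1 D.2 (fun c hc => by
    obtain ⟨m, hm, hmx⟩ := hc.max
    obtain ⟨μ, hμ, h1⟩ := hc.ord m.toZFSet hm
    have hm' : m < om := by rw [toZFSet_injective h1]; exact hμ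
    obtain ⟨γ, h2, h3, h4, h5⟩ := exists_above hm'
    obtain ⟨δ, h6, h7, _, h8⟩ := exists_above h3
    have hγc : γ ∉ ords c := fun h => absurd (hmx γ h) (not_le.2 h2)
    by_cases hγ : γ.toZFSet ∈ Y
    · obtain ⟨d, h9, h10, h11⟩ := cond_ins (c := ⟨c, hc.constr⟩) hc
        (fun α hα => ((hmx α hα).trans_lt h2).trans h6) h7 h8
      refine ⟨d.1, (hD d).2 ⟨mem_PP.2 h9, lo γ, ⟨limL_iff.2 h4, lo δ, (h11 δ).2 (Or.inr rfl),
        lo_mem_lo.2 h6⟩, fun h12 => ?_⟩, h9, h10⟩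
      rcases (h11 γ).1 (h12.2 hγ) with h13 | h13
      · exact hγc h13
      · rw [h13] at h6; exact lt_irrefl _ h6
    · obtain ⟨d, h9, h10, h11⟩ := cond_ins (c := ⟨c, hc.constr⟩) hc
        (fun α hα => (hmx α hα).trans_lt h2) h3 h5
      obtain ⟨e, h12, h13, h14⟩ := cond_ins h9 (δ := δ)
        (fun α hα => by
          rcases (h11 α).1 hα with h15 | rfl
          · exact ((hmx α h15).trans_lt h2).trans h6
          · exact h6) h7 h8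
      refine ⟨e.1, (hD e).2 ⟨mem_PP.2 h12, lo γ, ⟨limL_iff.2 h4, lo δ, (h14 δ).2 (Or.inr rfl),
        lo_mem_lo.2 h6⟩, fun h15 => hγ (h15.1 ?_)⟩, h12, h13.trans h10⟩
      exact (h14 γ).2 (Or.inl ((h11 γ).2 (Or.inr rfl))))
  have hs : (⟨seg C β, (hC.cond β hβ).constr⟩ : LL.{u}) ∈ D := h
  obtain ⟨_, g, ⟨hg, m, hm, hgm⟩, hne⟩ := (hD _).1 hs
  obtain ⟨μ, h1, h2, h3⟩ := mem_seg.1 hm
  have e : m = lo μ := LL.ext h3
  rw [e] at hgm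
  obtain ⟨γ, h4, rfl⟩ := mem_lo.1 hgm
  apply hne
  have h5 : (lo γ ∈ (⟨seg C β, (hC.cond β hβ).constr⟩ : LL.{u})) ↔ γ ∈ C := by
    refine (mem_ords_seg (C := C) (β := β) (α := γ)).trans ⟨fun h => h.1, fun h => ⟨h, ?_⟩⟩
    exact h4.le.trans h2
  rw [h5]
  exact (hYC γ (h4.trans (hC.lt μ h1)) (limL_iff.1 hg)).symm

end Pool.Agent.DQ1
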