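import Pool.Agent.DQ1.Rec

/-! # The hierarchy `K` is the least inner model of `ZF` -/

namespace Pool.Agent.DQ1

open Cardinal Ordinal
open ZFM (Fm Sat Dfn DT IsZF)

universe u v w

/-- transport of satisfaction -/
theorem fmsat_equiv {M : Type v} {N : Type w} [Membership M M] [Membership N N] (e : M ≃ N)
    (he : ∀ a b, a ∈ b ↔ e a ∈ e b) (φ : Fm) : ∀ v : ℕ → M, Sat φ v ↔ Sat φ fun i => e (v i) := by
  induction φ with
  | mem i j => intro v; exact he _ _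
  | eq i j => intro v; exact e.injective.eq_iff.symm
  | fls => intro v; exact Iff.rfl
  | imp φ ψ ih1 ih2 => intro v; exact imp_congr (ih1 v) (ih2 v)
  | all φ ih =>
    intro v
    have hp : ∀ x : M, (fun i => e (ZFM.push x v i)) = ZFM.push (e x) fun i => e (v i) := by
      intro x; funext i; cases i <;> rfl
    constructor
    · intro h y
      have h1 := (ih _).1 (h (e.symm y))
      rwa [hp, e.apply_symm_apply] at h1
    · intro h x
      rw [ih, hp]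
      exact h (e x)

/-- transport of `ZF` -/
theorem isZF_equiv {M : Type v} {N : Type w} [Membership M M] [Membership N N] (e : M ≃ N)
    (he : ∀ a b, a ∈ b ↔ e a ∈ e b) (h : IsZF M) : IsZF N := by
  have he' : ∀ a b : N, a ∈ b ↔ e.symm a ∈ e.symm b := fun a b => by
    rw [he, e.apply_symm_apply, e.apply_symm_apply]
  have hm : ∀ (a : N) (b : M), a ∈ e b ↔ e.symm a ∈ b := fun a b => by
    rw [he', e.symm_apply_apply]
  have hs : ∀ (φ : Fm) (v : ℕ → N), Sat φ v ↔ Sat φ fun i => e.symm (v i) := fun φ v => by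
    rw [fmsat_equiv e he φ fun i => e.symm (v i)]
    simp only [e.apply_symm_apply]
  have hp : ∀ (x : N) (v : ℕ → N), (fun i => e.symm (ZFM.push x v i)) =
      ZFM.push (e.symm x) fun i => e.symm (v i) := by
    intro x v; funext i; cases i <;> rfl
  refine ⟨?_, ?_, ?_, ?_, ?_, ?_, ?_, ?_⟩
  · intro x y hxy
    apply e.symm.injective
    refine h.extensionality _ _ fun z => ?_
    have h1 := hxy (e z)
    rwa [he', he', e.symm_apply_apply] at h1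
  · rintro x ⟨y, hy⟩
    obtain ⟨z, h1, h2⟩ := h.foundation (e.symm x) ⟨e.symm y, (he' _ _).1 hy⟩
    refine ⟨e z, ?_, fun w hw hx => ?_⟩
    · rw [he', e.symm_apply_apply]; exact h1
    · rw [hm] at hw
      exact h2 _ hw ((he' _ _).1 hx)
  · intro x y
    obtain ⟨p, hp⟩ := h.pairing (e.symm x) (e.symm y)
    refine ⟨e p, fun z => ?_⟩
    rw [hm, hp, e.symm.injective.eq_iff, e.symm.injective.eq_iff]
  · intro x
    obtain ⟨s, hs⟩ := h.union (e.symm x)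
    refine ⟨e s, fun z => ?_⟩
    rw [hm, hs]
    constructor
    · rintro ⟨y, h1, h2⟩
      exact ⟨e y, by rw [he', e.symm_apply_apply]; exact h1, by rw [hm]; exact h2⟩
    · rintro ⟨y, h1, h2⟩
      exact ⟨e.symm y, (he' _ _).1 h1, (he' _ _).1 h2⟩
  · intro x
    obtain ⟨p, hp⟩ := h.powerset (e.symm x)
    refine ⟨e p, fun y => ?_⟩
    rw [hm, hp]
    constructor
    · intro h1 z hz
      rw [he']; exact h1 _ ((he' _ _).1 hz)
    · intro h1 z hz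
      have := h1 (e z) (by rw [he', e.symm_apply_apply]; exact hz)
      rwa [he', e.symm_apply_apply] at this
  · obtain ⟨w, ⟨e0, h1, h2⟩, h3⟩ := h.infinity
    refine ⟨e w, ⟨e e0, (he _ _).1 h1, fun z hz => ?_⟩, fun x hx => ?_⟩
    · rw [hm] at hz; exact h2 _ hz
    · rw [hm] at hx
      obtain ⟨s, h4, h5⟩ := h3 _ hx
      refine ⟨e s, (he _ _).1 h4, fun z => ?_⟩
      rw [hm, h5, ← he', e.symm.injective.eq_iff]
  · intro φ v x
    obtain ⟨y, hy⟩ := h.separation φ (fun i => e.symm (v i)) (e.symm x)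
    refine ⟨e y, fun z => ?_⟩
    rw [hm, hy, ← he', hs, hp]
  · intro φ v x hx
    have key : ∀ z w : N, Sat φ (ZFM.push w (ZFM.push z v)) ↔
        Sat φ (ZFM.push (e.symm w) (ZFM.push (e.symm z) fun i => e.symm (v i))) := by
      intro z w
      rw [hs, hp, hp]
    obtain ⟨y, hy⟩ := h.replacement φ (fun i => e.symm (v i)) (e.symm x) (by
      intro z hz
      obtain ⟨w, hw, hu⟩ := hx (e z) (by rw [he', e.symm_apply_apply]; exact hz)
      refine ⟨e.symm w, ?_, fun w' hw' => ?_⟩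
      · have h1 := (key _ _).1 hw
        rwa [e.symm_apply_apply] at h1
      · have h1 := hu (e w') ((key _ _).2 (by rw [e.symm_apply_apply, e.symm_apply_apply]; exact hw'))
        rw [← h1, e.symm_apply_apply])
    refine ⟨e y, fun w => ?_⟩
    rw [hm, hy]
    constructor
    · rintro ⟨z, hz, hw⟩
      refine ⟨e z, by rw [he', e.symm_apply_apply]; exact hz, (key _ _).2 ?_⟩
      rw [e.symm_apply_apply]; exact hw
    · rintro ⟨z, hz, hw⟩
      exact ⟨e.symm z, (he' _ _).1 hz, (key _ _).1 hw⟩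

/-- the elements of the class `M` -/
@[ext] structure MT (M : Set ZFSet.{u}) : Type (u+1) where
  val : ZFSet.{u}
  property : val ∈ M

instance (M : Set ZFSet.{u}) : Membership (MT M) (MT M) := ⟨fun b a => a.1 ∈ b.1⟩

namespace MT

/-- transitive models of `ZF` with all ordinals -/
structure Inn (M : Set ZFSet.{u}) : Prop where
  tr : ∀ a ∈ M, ∀ b ∈ a, b ∈ M
  ord : ∀ α : Ordinal.{u}, α.toZFSet ∈ M
  zf : IsZF (MT M)

/-- definable relations on `MT M` -/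
abbrev DM {M : Set ZFSet.{u}} (P : (ℕ → MT M) → Prop) : Prop := Dfn Set.univ P

section dfn

variable {M : Set ZFSet.{u}}

theorem c {c : MT M} : DT Set.univ (fun _ : ℕ → MT M => c) := DT.const (Set.mem_univ _)

theorem sub2 {R : MT M → MT M → Prop} (hR : DM (fun v => R (v 0) (v 1)))
    {s t : (ℕ → MT M) → MT M} (hs : DT Set.univ s) (ht : DT Set.univ t) :
    DM (fun v => R (s v) (t v)) :=
  Dfn.subst (t := fun i v => match i with
    | 0 => s v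
    | _ => t v) hR (fun i => by
      match i with
      | 0 => exact hs
      | _+1 => exact ht)

theorem sub3 {R : MT M → MT M → MT M → Prop} (hR : DM (fun v => R (v 0) (v 1) (v 2)))
    {s t r : (ℕ → MT M) → MT M} (hs : DT Set.univ s) (ht : DT Set.univ t)
    (hr : DT Set.univ r) : DM (fun v => R (s v) (t v) (r v)) :=
  Dfn.subst (t := fun i v => match i with
    | 0 => s v
    | 1 => t v
    | _ => r v) hR (fun i => by
      match i with
      | 0 => exact hs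
      | 1 => exact ht
      | _+2 => exact hr)

theorem sub4 {R : MT M → MT M → MT M → MT M → Prop}
    (hR : DM (fun v => R (v 0) (v 1) (v 2) (v 3)))
    {s t r q : (ℕ → MT M) → MT M} (hs : DT Set.univ s) (ht : DT Set.univ t)
    (hr : DT Set.univ r) (hq : DT Set.univ q) : DM (fun v => R (s v) (t v) (r v) (q v)) :=
  Dfn.subst (t := fun i v => match i with
    | 0 => s v
    | 1 => t v
    | 2 => r v
    | _ => q v) hR (fun i => by
      match i with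
      | 0 => exact hs
      | 1 => exact ht
      | 2 => exact hr
      | _+3 => exact hq)

theorem dUp {p x y : (ℕ → MT M) → MT M} (hp : DT Set.univ p) (hx : DT Set.univ x)
    (hy : DT Set.univ y) : DM (fun v => IsUp (· ∈ ·) (p v) (x v) (y v)) := by
  refine sub3 (R := fun p x y => IsUp (· ∈ ·) p x y) ?_ hp hx hy
  unfold IsUp
  apply_rules (maxDepth := 1000) [Dfn.all, Dfn.iff, Dfn.or, Dfn.mem, Dfn.eq, DT.var]

theorem dOp {p x y : (ℕ → MT M) → MT M} (hp : DT Set.univ p) (hx : DT Set.univ x)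
    (hy : DT Set.univ y) : DM (fun v => IsOp (· ∈ ·) (p v) (x v) (y v)) := by
  refine sub3 (R := fun p x y => IsOp (· ∈ ·) p x y) ?_ hp hx hy
  unfold IsOp
  apply_rules (maxDepth := 1000) [dUp, Dfn.ex, Dfn.and, DT.var]

theorem dTr {p x y z : (ℕ → MT M) → MT M} (hp : DT Set.univ p) (hx : DT Set.univ x)
    (hy : DT Set.univ y) (hz : DT Set.univ z) :
    DM (fun v => IsTr (· ∈ ·) (p v) (x v) (y v) (z v)) := by
  refine sub4 (R := fun p x y z => IsTr (· ∈ ·) p x y z) ?_ hp hx hy hz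
  unfold IsTr
  apply_rules (maxDepth := 1000) [dOp, Dfn.ex, Dfn.and, DT.var]

theorem dTh (i : ℕ) {w x y : (ℕ → MT M) → MT M} (hw : DT Set.univ w) (hx : DT Set.univ x)
    (hy : DT Set.univ y) : DM (fun v => Th (· ∈ ·) i (w v) (x v) (y v)) := by
  refine sub3 (R := fun w x y => Th (· ∈ ·) i w x y) ?_ hw hx hy
  match i with
  | 0 => simp only [Th]; apply_rules (maxDepth := 1000) [Dfn.or, Dfn.eq, DT.var]
  | 1 => simp only [Th]; apply_rules (maxDepth := 1000) [dOp, Dfn.ex, Dfn.and, Dfn.mem, DT.var]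
  | 2 => simp only [Th]; apply_rules (maxDepth := 1000) [Dfn.and, Dfn.not, Dfn.mem, DT.var]
  | 3 => simp only [Th]; apply_rules (maxDepth := 1000) [dOp, Dfn.ex, Dfn.and, Dfn.mem, DT.var]
  | 4 => simp only [Th]; apply_rules (maxDepth := 1000) [dOp, Dfn.ex, Dfn.and, Dfn.mem, DT.var]
  | 5 => simp only [Th]; apply_rules (maxDepth := 1000) [dOp, Dfn.ex, Dfn.and, Dfn.mem, DT.var]
  | 6 => simp only [Th]; apply_rules (maxDepth := 1000) [dOp, Dfn.ex, Dfn.and, Dfn.mem, DT.var]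
  | 7 => simp only [Th]; apply_rules (maxDepth := 1000) [dOp, dTr, Dfn.ex, Dfn.and, Dfn.mem, DT.var]
  | 8 => simp only [Th]; apply_rules (maxDepth := 1000) [dOp, dTr, Dfn.ex, Dfn.and, Dfn.mem, DT.var]
  | 9 => simp only [Th]; apply_rules (maxDepth := 1000) [dOp, Dfn.ex, Dfn.and, Dfn.mem, DT.var]
  | n+10 => simp only [Th]; exact Dfn.fls

theorem dG (i : ℕ) {w x y : (ℕ → MT M) → MT M} (hw : DT Set.univ w) (hx : DT Set.univ x)
    (hy : DT Set.univ y) : DM (fun v => IsG (· ∈ ·) i (w v) (x v) (y v)) := by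
  refine sub3 (R := fun w x y => IsG (· ∈ ·) i w x y) ?_ hw hx hy
  unfold IsG
  apply_rules (maxDepth := 1000) [dTh, Dfn.all, Dfn.iff, Dfn.mem, DT.var]

theorem dexlt {P : ℕ → (ℕ → MT M) → Prop} (h : ∀ i, DM (P i)) (n : ℕ) :
    DM (fun v => ∃ i < n, P i v) := by
  induction n with
  | zero => exact Dfn.fls.congr fun v => by simp
  | succ n ih =>
    refine (ih.or (h n)).congr fun v => ?_
    constructor
    · rintro (⟨i, hi, h⟩ | h)
      · exact ⟨i, by omega, h⟩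
      · exact ⟨n, by omega, h⟩
    · rintro ⟨i, hi, h⟩
      by_cases hin : i = n
      · subst hin; exact Or.inr h
      · exact Or.inl ⟨i, by omega, h⟩

theorem dStep {x k : (ℕ → MT M) → MT M} (hx : DT Set.univ x) (hk : DT Set.univ k) :
    DM (fun v => StepMem (· ∈ ·) (x v) (k v)) := by
  refine sub2 (R := fun x k => StepMem (· ∈ ·) x k) ?_ hx hk
  unfold StepMem
  refine Dfn.or ?_ (Dfn.or ?_ (dexlt (fun i => ?_) 10))
  · apply_rules (maxDepth := 1000) [Dfn.mem, DT.var]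
  · apply_rules (maxDepth := 1000) [Dfn.eq, DT.var]
  · apply_rules (maxDepth := 1000) [dG, Dfn.ex, Dfn.and, Dfn.or, Dfn.mem, Dfn.eq, DT.var]

end dfn

section abs

variable {M : Set ZFSet.{u}} (hM : Inn M)
include hM

theorem upair_mem {a b : ZFSet.{u}} (ha : a ∈ M) (hb : b ∈ M) : ({a, b} : ZFSet.{u}) ∈ M := by
  obtain ⟨p, hp⟩ := hM.zf.pairing ⟨a, ha⟩ ⟨b, hb⟩
  have : p.1 = {a, b} := by
    ext z
    rw [ZFSet.mem_pair]
    constructor
    · intro hz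
      exact ((hp ⟨z, hM.tr _ p.2 _ hz⟩).1 hz).imp (congrArg MT.val) (congrArg MT.val)
    · rintro (rfl | rfl)
      · exact (hp ⟨z, ha⟩).2 (Or.inl rfl)
      · exact (hp ⟨z, hb⟩).2 (Or.inr rfl)
  rw [← this]; exact p.2

theorem pair_mem {a b : ZFSet.{u}} (ha : a ∈ M) (hb : b ∈ M) : ZFSet.pair a b ∈ M := by
  rw [ZFSet.pair, ← ZFSet.pair_eq_singleton]
  exact upair_mem hM (upair_mem hM ha ha) (upair_mem hM ha hb)

theorem of_pair {x y : ZFSet.{u}} (h : ZFSet.pair x y ∈ M) : x ∈ M ∧ y ∈ M := by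
  have h1 : ({x, y} : ZFSet.{u}) ∈ M := hM.tr _ h _ (by rw [ZFSet.pair, ZFSet.mem_pair]; exact Or.inr rfl)
  exact ⟨hM.tr _ h1 _ (ZFSet.mem_pair.2 (Or.inl rfl)), hM.tr _ h1 _ (ZFSet.mem_pair.2 (Or.inr rfl))⟩

theorem up_iff {c a b : MT M} : IsUp (· ∈ ·) c a b ↔ c.1 = {a.1, b.1} := by
  constructor
  · intro h
    ext w
    rw [ZFSet.mem_pair]
    constructor
    · intro hw
      exact ((h ⟨w, hM.tr _ c.2 _ hw⟩).1 hw).imp (congrArg MT.val) (congrArg MT.val)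
    · rintro (rfl | rfl)
      · exact (h a).2 (Or.inl rfl)
      · exact (h b).2 (Or.inr rfl)
  · intro h w
    show w.1 ∈ c.1 ↔ _
    rw [h, ZFSet.mem_pair]
    exact or_congr MT.ext_iff.symm MT.ext_iff.symm

theorem op_iff {p a b : MT M} : IsOp (· ∈ ·) p a b ↔ p.1 = ZFSet.pair a.1 b.1 := by
  unfold IsOp
  simp only [up_iff hM]
  constructor
  · rintro ⟨s, t, hs, ht, hp⟩
    rw [hp, hs, ht, ZFSet.pair, ZFSet.pair_eq_singleton]
  · intro h
    refine ⟨⟨{a.1, a.1}, upair_mem hM a.2 a.2⟩, ⟨{a.1, b.1}, upair_mem hM a.2 b.2⟩, rfl, rfl, ?_⟩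
    show p.1 = {{a.1, a.1}, {a.1, b.1}}
    rw [h, ZFSet.pair, ZFSet.pair_eq_singleton]

theorem th_iff {i : ℕ} {w a b : MT M} :
    Th (· ∈ ·) i w a b ↔ Th (· ∈ ·) i w.1 a.1 b.1 := by
  match i with
  | 0 => exact or_congr MT.ext_iff MT.ext_iff
  | 1 =>
    simp only [Th, op_iff hM, Pool.Agent.DQ1.isOp_iff]
    constructor
    · rintro ⟨x, y, hx, hy, h⟩; exact ⟨x.1, y.1, hx, hy, h⟩
    · rintro ⟨x, y, hx, hy, h⟩; exact ⟨⟨x, hM.tr _ a.2 _ hx⟩, ⟨y, hM.tr _ b.2 _ hy⟩, hx, hy, h⟩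
  | 2 => exact Iff.rfl
  | 3 =>
    simp only [Th, op_iff hM, Pool.Agent.DQ1.isOp_iff]
    constructor
    · rintro ⟨x, p, hp, h⟩; exact ⟨x.1, p.1, hp, h⟩
    · rintro ⟨x, p, hp, h⟩
      have h1 : p ∈ M := hM.tr _ a.2 _ hp
      exact ⟨⟨x, (of_pair hM (h ▸ h1)).1⟩, ⟨p, h1⟩, hp, h⟩
  | 4 =>
    simp only [Th, op_iff hM, Pool.Agent.DQ1.isOp_iff]
    constructor
    · rintro ⟨x, y, hx, hy, hxy, h⟩; exact ⟨x.1, y.1, hx, hy, hxy, h⟩
    · rintro ⟨x, y, hx, hy, hxy, h⟩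
      exact ⟨⟨x, hM.tr _ a.2 _ hx⟩, ⟨y, hM.tr _ a.2 _ hy⟩, hx, hy, hxy, h⟩
  | 5 =>
    simp only [Th, op_iff hM, Pool.Agent.DQ1.isOp_iff]
    constructor
    · rintro ⟨x, y, hx, hy, hxy, h⟩; exact ⟨x.1, y.1, hx, hy, hxy, h⟩
    · rintro ⟨x, y, hx, hy, hxy, h⟩
      exact ⟨⟨x, hM.tr _ a.2 _ hx⟩, ⟨y, hM.tr _ a.2 _ hy⟩, hx, hy, hxy, h⟩
  | 6 =>
    simp only [Th, op_iff hM, Pool.Agent.DQ1.isOp_iff]
    constructor
    · rintro ⟨x, hx, h⟩; exact ⟨x.1, hx, h⟩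
    · rintro ⟨x, hx, h⟩; exact ⟨⟨x, hM.tr _ a.2 _ hx⟩, hx, h⟩
  | 7 =>
    simp only [Th, IsTr, op_iff hM, Pool.Agent.DQ1.isOp_iff]
    constructor
    · rintro ⟨x, y, z, p, q, hp, h1, h2, r, h3, h4⟩
      exact ⟨x.1, y.1, z.1, p.1, q.1, hp, h1, h2, r.1, h3, h4⟩
    · rintro ⟨x, y, z, p, q, hp, h1, h2, r, h3, h4⟩
      have hp' : p ∈ M := hM.tr _ a.2 _ hp
      have hq := of_pair hM (h1 ▸ hp')
      have hxy := of_pair hM (h2 ▸ hq.1)
      exact ⟨⟨x, hxy.1⟩, ⟨y, hxy.2⟩, ⟨z, hq.2⟩, ⟨p, hp'⟩, ⟨q, hq.1⟩, hp, h1, h2,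
        ⟨r, h3 ▸ pair_mem hM hxy.2 hq.2⟩, h3, h4⟩
  | 8 =>
    simp only [Th, IsTr, op_iff hM, Pool.Agent.DQ1.isOp_iff]
    constructor
    · rintro ⟨x, y, z, p, hp, ⟨r, h1, h2⟩, s, h3, h4⟩
      exact ⟨x.1, y.1, z.1, p.1, hp, ⟨r.1, h1, h2⟩, s.1, h3, h4⟩
    · rintro ⟨x, y, z, p, hp, ⟨r, h1, h2⟩, s, h3, h4⟩
      have hp' : p ∈ M := hM.tr _ a.2 _ hp
      have hy := of_pair hM (h2 ▸ hp')
      have hxz := of_pair hM (h1 ▸ hy.2)
      exact ⟨⟨x, hxz.1⟩, ⟨y, hy.1⟩, ⟨z, hxz.2⟩, ⟨p, hp'⟩, hp, ⟨⟨r, hy.2⟩, h1, h2⟩,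
        ⟨s, h3 ▸ pair_mem hM hy.1 hxz.2⟩, h3, h4⟩
  | 9 =>
    simp only [Th, op_iff hM, Pool.Agent.DQ1.isOp_iff]
    constructor
    · rintro ⟨p, hp, h⟩; exact ⟨p.1, hp, h⟩
    · rintro ⟨p, hp, h⟩; exact ⟨⟨p, hM.tr _ a.2 _ hp⟩, hp, h⟩
  | n+10 => exact Iff.rfl

theorem sUnion_mem {a : ZFSet.{u}} (ha : a ∈ M) : ZFSet.sUnion a ∈ M := by
  obtain ⟨s, hs⟩ := hM.zf.union ⟨a, ha⟩
  have : s.1 = ZFSet.sUnion a := by
    ext z
    rw [ZFSet.mem_sUnion]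
    constructor
    · intro hz
      obtain ⟨y, h1, h2⟩ := (hs ⟨z, hM.tr _ s.2 _ hz⟩).1 hz
      exact ⟨y.1, h1, h2⟩
    · rintro ⟨y, h1, h2⟩
      have hy := hM.tr _ ha _ h1
      exact (hs ⟨z, hM.tr _ hy _ h2⟩).2 ⟨⟨y, hy⟩, h1, h2⟩
  rw [← this]; exact s.2

theorem union_mem {a b : ZFSet.{u}} (ha : a ∈ M) (hb : b ∈ M) : a ∪ b ∈ M := by
  have : a ∪ b = ZFSet.sUnion {a, b} := by
    ext z
    rw [ZFSet.mem_union, ZFSet.mem_sUnion]
    constructor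
    · rintro (h | h)
      · exact ⟨a, ZFSet.mem_pair.2 (Or.inl rfl), h⟩
      · exact ⟨b, ZFSet.mem_pair.2 (Or.inr rfl), h⟩
    · rintro ⟨y, h1, h2⟩
      rcases ZFSet.mem_pair.1 h1 with rfl | rfl
      · exact Or.inl h2
      · exact Or.inr h2
  rw [this]
  exact sUnion_mem hM (upair_mem hM ha hb)

/-- power set in `M` -/
theorem exists_pow {a : ZFSet.{u}} (ha : a ∈ M) : ∃ p ∈ M, ∀ y ∈ M, y ⊆ a → y ∈ p := by
  obtain ⟨p, hp⟩ := hM.zf.powerset ⟨a, ha⟩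
  refine ⟨p.1, p.2, fun y hy hya => ?_⟩
  exact (hp ⟨y, hy⟩).2 fun z hz => hya hz

theorem prod_mem {a b : ZFSet.{u}} (ha : a ∈ M) (hb : b ∈ M) : ZFSet.prod a b ∈ M := by
  obtain ⟨p, hp, h1⟩ := exists_pow hM (union_mem hM ha hb)
  obtain ⟨q, hq, h2⟩ := exists_pow hM hp
  let a' : MT M := ⟨a, ha⟩
  let b' : MT M := ⟨b, hb⟩
  obtain ⟨s, hs⟩ := hM.zf.sep (P := fun w => ∃ x, x ∈ a' ∧ ∃ y, y ∈ b' ∧ IsOp (· ∈ ·) w x y) (by
    apply_rules (maxDepth := 1000) [dOp, Dfn.ex, Dfn.and, Dfn.mem, DT.var, MT.c]) ⟨q, hq⟩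
  have : s.1 = ZFSet.prod a b := by
    ext w
    rw [ZFSet.mem_prod]
    constructor
    · intro hw
      obtain ⟨_, x, hx, y, hy, h⟩ := (hs ⟨w, hM.tr _ s.2 _ hw⟩).1 hw
      exact ⟨x.1, hx, y.1, hy, (op_iff hM).1 h⟩
    · rintro ⟨x, hx, y, hy, rfl⟩
      have hxM := hM.tr _ ha _ hx
      have hyM := hM.tr _ hb _ hy
      refine (hs ⟨_, pair_mem hM hxM hyM⟩).2 ⟨h2 _ (pair_mem hM hxM hyM) ?_, ⟨x, hxM⟩, hx, ⟨y, hyM⟩,
        hy, (op_iff hM).2 rfl⟩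
      intro t ht
      have ht' : t ∈ ({{x, x}, {x, y}} : ZFSet.{u}) := by
        have ht2 : t ∈ ZFSet.pair x y := ht
        rw [ZFSet.pair, ← ZFSet.pair_eq_singleton] at ht2
        exact ht2
      rw [ZFSet.mem_pair] at ht'
      rcases ht' with rfl | rfl
      · refine h1 _ (upair_mem hM hxM hxM) fun z hz => ?_
        rcases ZFSet.mem_pair.1 hz with rfl | rfl
        · exact ZFSet.mem_union.2 (Or.inl hx)
        · exact ZFSet.mem_union.2 (Or.inl hx)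
      · refine h1 _ (upair_mem hM hxM hyM) fun z hz => ?_
        rcases ZFSet.mem_pair.1 hz with rfl | rfl
        · exact ZFSet.mem_union.2 (Or.inl hx)
        · exact ZFSet.mem_union.2 (Or.inr hy)
  rw [← this]; exact s.2

theorem bnd_mem {a b : ZFSet.{u}} (ha : a ∈ M) (hb : b ∈ M) : bnd a b ∈ M := by
  unfold bnd
  dsimp only
  have hs : ({a, b} ∪ (a ∪ b) : ZFSet.{u}) ∈ M :=
    union_mem hM (upair_mem hM ha hb) (union_mem hM ha hb)
  have ht := sUnion_mem hM (sUnion_mem hM hs)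
  have hr := union_mem hM (union_mem hM hs ht) (sUnion_mem hM (sUnion_mem hM ht))
  exact union_mem hM (union_mem hM hr (prod_mem hM hr hr)) (prod_mem hM hr (prod_mem hM hr hr))

theorem G_mem {i : ℕ} {a b : ZFSet.{u}} (ha : a ∈ M) (hb : b ∈ M) : G i a b ∈ M := by
  let a' : MT M := ⟨a, ha⟩
  let b' : MT M := ⟨b, hb⟩
  obtain ⟨s, hs⟩ := hM.zf.sep (P := fun w => Th (· ∈ ·) i w a' b') (by
    apply_rules (maxDepth := 1000) [dTh, DT.var, MT.c]) ⟨bnd a b, bnd_mem hM ha hb⟩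
  have : s.1 = G i a b := by
    ext w
    rw [mem_G]
    constructor
    · intro hw
      exact (th_iff hM).1 ((hs ⟨w, hM.tr _ s.2 _ hw⟩).1 hw).2
    · intro hw
      have hb' := mem_bnd hw
      exact (hs ⟨w, hM.tr _ (bnd_mem hM ha hb) _ hb'⟩).2 ⟨hb', (th_iff hM).2 hw⟩
  rw [← this]; exact s.2

theorem g_iff {i : ℕ} {c a b : MT M} : IsG (· ∈ ·) i c a b ↔ c.1 = G i a.1 b.1 := by
  constructor
  · intro h
    ext w
    rw [mem_G]
    constructor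
    · intro hw
      exact (th_iff hM).1 ((h ⟨w, hM.tr _ c.2 _ hw⟩).1 hw)
    · intro hw
      have : w ∈ M := hM.tr _ (G_mem hM a.2 b.2) _ (mem_G.2 hw)
      exact (h ⟨w, this⟩).2 ((th_iff hM).2 hw)
  · intro h w
    show w.1 ∈ c.1 ↔ _
    rw [h, mem_G]
    exact (th_iff hM).symm

theorem step_iff {x k : MT M} : StepMem (· ∈ ·) x k ↔ x.1 ∈ stp k.1 := by
  rw [mem_stp]
  unfold StepMem
  simp only [g_iff hM, Pool.Agent.DQ1.isG_iff]
  refine or_congr Iff.rfl (or_congr MT.ext_iff (exists_congr fun i => and_congr_right fun hi => ?_))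
  constructor
  · rintro ⟨a, b, ha, hb, h⟩
    exact ⟨a.1, b.1, ha.imp id (congrArg MT.val), hb.imp id (congrArg MT.val), h⟩
  · rintro ⟨a, b, ha, hb, h⟩
    have ha' : a ∈ M := by
      rcases ha with ha | ha
      · exact hM.tr _ k.2 _ ha
      · rw [ha]; exact k.2
    have hb' : b ∈ M := by
      rcases hb with hb | hb
      · exact hM.tr _ k.2 _ hb
      · rw [hb]; exact k.2
    exact ⟨⟨a, ha'⟩, ⟨b, hb'⟩, ha.imp id MT.ext, hb.imp id MT.ext, h⟩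

theorem stp_sub {k : ZFSet.{u}} (hk : k ∈ M) : ∀ x ∈ stp k, x ∈ M := by
  intro x hx
  rw [mem_stp] at hx
  rcases hx with h | rfl | ⟨i, _, a, b, ha, hb, h⟩
  · exact hM.tr _ hk _ h
  · exact hk
  · rw [Pool.Agent.DQ1.isG_iff] at h
    have ha' : a ∈ M := by
      rcases ha with ha | ha
      · exact hM.tr _ hk _ ha
      · rw [ha]; exact hk
    have hb' : b ∈ M := by
      rcases hb with hb | hb
      · exact hM.tr _ hk _ hb
      · rw [hb]; exact hk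
    rw [h]
    exact G_mem hM ha' hb'

theorem stp_mem {k : ZFSet.{u}} (hk : k ∈ M) : stp k ∈ M := by
  let kM : MT M := ⟨k, hk⟩
  obtain ⟨k', hk'⟩ := hM.zf.exists_insert kM kM
  have hk'' : ∀ a : MT M, a ∈ k' ↔ (a ∈ kM ∨ a = kM) := fun a => by rw [hk']; exact or_comm
  let P : MT M := ⟨ZFSet.prod k'.1 k'.1, prod_mem hM k'.2 k'.2⟩
  have hP : ∀ w : MT M, w ∈ P ↔ ∃ a b, a ∈ k' ∧ b ∈ k' ∧ w.1 = ZFSet.pair a.1 b.1 := by
    intro w
    show w.1 ∈ ZFSet.prod k'.1 k'.1 ↔ _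
    rw [ZFSet.mem_prod]
    constructor
    · rintro ⟨a, ha, b, hb, h⟩
      exact ⟨⟨a, hM.tr _ k'.2 _ ha⟩, ⟨b, hM.tr _ k'.2 _ hb⟩, ha, hb, h⟩
    · rintro ⟨a, b, ha, hb, h⟩
      exact ⟨a.1, ha, b.1, hb, h⟩
  have hA : ∀ i, ∃ A : MT M, ∀ x, x ∈ A ↔ ∃ a b, (a ∈ kM ∨ a = kM) ∧ (b ∈ kM ∨ b = kM) ∧
      IsG (· ∈ ·) i x a b := by
    intro i
    obtain ⟨A, hA⟩ := hM.zf.repl (R := fun p x => ∃ a b, IsOp (· ∈ ·) p a b ∧ IsG (· ∈ ·) i x a b) (by
      apply_rules (maxDepth := 1000) [dOp, dG, Dfn.ex, Dfn.and, DT.var]) P (by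
      intro p hp
      obtain ⟨a, b, _, _, h⟩ := (hP p).1 hp
      refine ⟨⟨G i a.1 b.1, G_mem hM a.2 b.2⟩, ⟨a, b, (op_iff hM).2 h, (g_iff hM).2 rfl⟩, ?_⟩
      rintro y ⟨a', b', h1, h2⟩
      rw [op_iff hM, h] at h1
      rw [g_iff hM] at h2
      obtain ⟨h3, h4⟩ := ZFSet.pair_injective h1
      apply MT.ext
      show y.1 = G i a.1 b.1
      rw [h2, ← h3, ← h4])
    refine ⟨A, fun x => ?_⟩
    rw [hA]
    constructor
    · rintro ⟨p, hp, a, b, h1, h2⟩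
      obtain ⟨a', b', ha, hb, h⟩ := (hP p).1 hp
      rw [op_iff hM, h] at h1
      obtain ⟨h3, h4⟩ := ZFSet.pair_injective h1
      rw [MT.ext h3] at ha
      rw [MT.ext h4] at hb
      exact ⟨a, b, (hk'' _).1 ha, (hk'' _).1 hb, h2⟩
    · rintro ⟨a, b, ha, hb, h⟩
      refine ⟨⟨ZFSet.pair a.1 b.1, pair_mem hM a.2 b.2⟩, (hP _).2 ⟨a, b, (hk'' _).2 ha,
        (hk'' _).2 hb, rfl⟩, a, b, (op_iff hM).2 rfl, h⟩
  have hB : ∀ n, ∃ B : MT M, ∀ x, x ∈ B ↔ ∃ i < n, ∃ a b, (a ∈ kM ∨ a = kM) ∧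
      (b ∈ kM ∨ b = kM) ∧ IsG (· ∈ ·) i x a b := by
    intro n
    induction n with
    | zero =>
      obtain ⟨e, he⟩ := hM.zf.exists_empty
      exact ⟨e, fun x => ⟨fun h => absurd h (he x), fun ⟨i, hi, _⟩ => absurd hi (Nat.not_lt_zero i)⟩⟩
    | succ n ih =>
      obtain ⟨B, hB⟩ := ih
      obtain ⟨A, hA⟩ := hA n
      obtain ⟨U, hU⟩ := hM.zf.exists_union2 A B
      refine ⟨U, fun x => ?_⟩
      rw [hU, hA, hB]
      constructor
      · rintro (h | ⟨i, hi, h⟩)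
        · exact ⟨n, by omega, h⟩
        · exact ⟨i, by omega, h⟩
      · rintro ⟨i, hi, h⟩
        by_cases hin : i = n
        · subst hin; exact Or.inl h
        · exact Or.inr ⟨i, by omega, h⟩
  obtain ⟨B, hB⟩ := hB 10
  obtain ⟨U, hU⟩ := hM.zf.exists_union2 k' B
  have : U.1 = stp k := by
    ext x
    constructor
    · intro hx
      have h1 := (hU ⟨x, hM.tr _ U.2 _ hx⟩).1 hx
      refine (step_iff hM (x := ⟨x, hM.tr _ U.2 _ hx⟩) (k := kM)).1 ?_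
      rcases h1 with h1 | h1
      · rcases (hk'' _).1 h1 with h1 | h1
        · exact Or.inl h1
        · exact Or.inr (Or.inl h1)
      · exact Or.inr (Or.inr ((hB _).1 h1))
    · intro hx
      have hxM := stp_sub hM hk x hx
      refine (hU ⟨x, hxM⟩).2 ?_
      rcases (step_iff hM (x := ⟨x, hxM⟩) (k := kM)).2 hx with h1 | h1 | h1
      · exact Or.inl ((hk'' _).2 (Or.inl h1))
      · exact Or.inl ((hk'' _).2 (Or.inr h1))
      · exact Or.inr ((hB _).2 h1)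
  rw [← this]; exact U.2

/-! ### The recursion -/

/-- the ordinal in `M` -/
noncomputable def mo (α : Ordinal.{u}) : MT M := ⟨α.toZFSet, hM.ord α⟩

theorem mem_mo {x : MT M} {α : Ordinal.{u}} : x ∈ mo hM α ↔ ∃ β < α, x = mo hM β := by
  show x.1 ∈ α.toZFSet ↔ _
  rw [mem_toZFSet_iff]
  refine exists_congr fun β => and_congr_right fun _ => ?_
  rw [MT.ext_iff]
  exact eq_comm

theorem mo_inj {α β : Ordinal.{u}} : mo hM α = mo hM β ↔ α = β := by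
  rw [MT.ext_iff]
  exact toZFSet_injective.eq_iff

end abs

/-- `y` is the next value computed from the sequence `s` -/
def Kd {M : Set ZFSet.{u}} (s o y : MT M) : Prop := ∀ x, x ∈ y ↔ ∃ o', o' ∈ o ∧ ∃ k,
  (∃ p, p ∈ s ∧ IsOp (· ∈ ·) p o' k) ∧ StepMem (· ∈ ·) x k

/-- `s` is the sequence of the levels below `o` -/
def Sq {M : Set ZFSet.{u}} (s o : MT M) : Prop :=
  ∀ o', o' ∈ o → ∀ y, (∃ p, p ∈ s ∧ IsOp (· ∈ ·) p o' y) ↔ Kd s o' y

theorem dKd {M : Set ZFSet.{u}} {x y z : (ℕ → MT M) → MT M} (hx : DT Set.univ x)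
    (hy : DT Set.univ y) (hz : DT Set.univ z) : DM (fun v => Kd (x v) (y v) (z v)) := by
  refine sub3 (R := fun x y z => Kd x y z) ?_ hx hy hz
  unfold Kd
  apply_rules (maxDepth := 1000) [dOp, dStep, Dfn.ex, Dfn.and, Dfn.all, Dfn.iff, Dfn.mem, DT.var]

theorem dSq {M : Set ZFSet.{u}} {x y : (ℕ → MT M) → MT M} (hx : DT Set.univ x)
    (hy : DT Set.univ y) : DM (fun v => Sq (x v) (y v)) := by
  refine sub2 (R := fun x y => Sq x y) ?_ hx hy
  unfold Sq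
  apply_rules (maxDepth := 1000) [dKd, dOp, Dfn.ex, Dfn.and, Dfn.all, Dfn.imp, Dfn.iff, Dfn.mem,
    DT.var]

section rec

variable {M : Set ZFSet.{u}} (hM : Inn M)
include hM

theorem kd_iff {s : MT M} {β : Ordinal.{u}}
    (hs : ∀ γ < β, ∀ k : MT M, (∃ p, p ∈ s ∧ IsOp (· ∈ ·) p (mo hM γ) k) ↔ k.1 = K γ)
    (hK : ∀ γ < β, K γ ∈ M) {y : MT M} : Kd s (mo hM β) y ↔ y.1 = K β := by
  have h1 : ∀ x : MT M, (∃ o', o' ∈ mo hM β ∧ ∃ k, (∃ p, p ∈ s ∧ IsOp (· ∈ ·) p o' k) ∧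
      StepMem (· ∈ ·) x k) ↔ x.1 ∈ K β := by
    intro x
    rw [mem_K]
    constructor
    · rintro ⟨o', ho', k, h2, h3⟩
      obtain ⟨γ, hγ, rfl⟩ := (mem_mo hM).1 ho'
      rw [hs γ hγ] at h2
      rw [step_iff hM, h2] at h3
      exact ⟨γ, hγ, h3⟩
    · rintro ⟨γ, hγ, h⟩
      exact ⟨mo hM γ, (mem_mo hM).2 ⟨γ, hγ, rfl⟩, ⟨K γ, hK γ hγ⟩, (hs γ hγ _).2 rfl,
        (step_iff hM).2 h⟩
  constructor
  · intro h
    ext z
    constructor
    · intro hz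
      exact (h1 ⟨z, hM.tr _ y.2 _ hz⟩).1 ((h _).1 hz)
    · intro hz
      have hzM : z ∈ M := by
        obtain ⟨γ, hγ, h2⟩ := mem_K.1 hz
        exact stp_sub hM (hK γ hγ) z h2
      exact (h ⟨z, hzM⟩).2 ((h1 _).2 hz)
  · intro h x
    rw [h1, ← h]
    exact Iff.rfl

theorem sq_iff {s : MT M} {α : Ordinal.{u}} (hK : ∀ γ < α, K γ ∈ M) (h : Sq s (mo hM α)) :
    ∀ β < α, ∀ k : MT M, (∃ p, p ∈ s ∧ IsOp (· ∈ ·) p (mo hM β) k) ↔ k.1 = K β := by
  intro β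
  induction β using WellFoundedLT.induction with
  | ind β ih =>
  intro hβ k
  rw [h (mo hM β) ((mem_mo hM).2 ⟨β, hβ, rfl⟩) k]
  exact kd_iff hM (fun γ hγ => ih γ hγ (hγ.trans hβ)) (fun γ hγ => hK γ (hγ.trans hβ))

theorem stp_spec {k w : MT M} (h : w.1 = stp k.1) (x : MT M) :
    x ∈ w ↔ StepMem (· ∈ ·) x k := by
  rw [step_iff hM, ← h]
  exact Iff.rfl

theorem exists_lev {γ : Ordinal.{u}} (h : K γ ∈ M) : ∃ k w : MT M, k.1 = K γ ∧ w.1 = stp (K γ) ∧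
    ∀ x, x ∈ w ↔ StepMem (· ∈ ·) x k := by
  refine ⟨⟨K γ, h⟩, ⟨stp (K γ), stp_mem hM h⟩, rfl, rfl, ?_⟩
  exact stp_spec hM rfl

theorem main (α : Ordinal.{u}) : K α ∈ M ∧ ∃ s : MT M, Sq s (mo hM α) := by
  induction α using WellFoundedLT.induction with
  | ind α ih =>
  have hK : ∀ γ < α, K γ ∈ M := fun γ hγ => (ih γ hγ).1
  have hu : ∀ γ < α, ∀ s : MT M, Sq s (mo hM γ) → ∀ y, Kd s (mo hM γ) y ↔ y.1 = K γ := by
    intro γ hγ s hs y
    exact kd_iff hM (sq_iff hM (fun δ hδ => hK δ (hδ.trans hγ)) hs) fun δ hδ => hK δ (hδ.trans hγ)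
  constructor
  · obtain ⟨T, hT⟩ := hM.zf.repl (R := fun z w => ∃ s, Sq s z ∧ ∃ y, Kd s z y ∧
      ∀ x, x ∈ w ↔ StepMem (· ∈ ·) x y) (by
      apply_rules (maxDepth := 1000) [dSq, dKd, dStep, Dfn.ex, Dfn.and, Dfn.all, Dfn.iff, Dfn.mem,
        DT.var]) (mo hM α) (by
      intro z hz
      obtain ⟨γ, hγ, rfl⟩ := (mem_mo hM).1 hz
      obtain ⟨s, hs⟩ := (ih γ hγ).2
      obtain ⟨k1, w1, hk1, hw1, hkw⟩ := exists_lev hM (hK γ hγ)
      refine ⟨w1, ⟨s, hs, k1, (hu γ hγ s hs k1).2 hk1, hkw⟩, ?_⟩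
      rintro w ⟨s', hs', y, hy, h⟩
      rw [hu γ hγ s' hs'] at hy
      apply MT.ext
      rw [hw1]
      ext x
      constructor
      · intro hx
        have h1 := (h ⟨x, hM.tr _ w.2 _ hx⟩).1 hx
        rw [step_iff hM, hy] at h1
        exact h1
      · intro hx
        have hxM := stp_sub hM (hK γ hγ) x hx
        refine (h ⟨x, hxM⟩).2 ((step_iff hM).2 ?_)
        rw [hy]; exact hx)
    obtain ⟨U, hU⟩ := hM.zf.union T
    have hTU : ∀ x : MT M, x ∈ U ↔ x.1 ∈ K α := by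
      intro x
      rw [hU, mem_K]
      constructor
      · rintro ⟨w, hw, hx⟩
        obtain ⟨z, hz, s, hs, y, hy, h⟩ := (hT w).1 hw
        obtain ⟨γ, hγ, rfl⟩ := (mem_mo hM).1 hz
        rw [hu γ hγ s hs] at hy
        have h1 := (h x).1 hx
        rw [step_iff hM, hy] at h1
        exact ⟨γ, hγ, h1⟩
      · rintro ⟨γ, hγ, hx⟩
        obtain ⟨s, hs⟩ := (ih γ hγ).2
        obtain ⟨k1, w1, hk1, hw1, hkw⟩ := exists_lev hM (hK γ hγ)
        refine ⟨w1, (hT _).2 ⟨mo hM γ, (mem_mo hM).2 ⟨γ, hγ, rfl⟩, s,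
          hs, k1, (hu γ hγ s hs k1).2 hk1, hkw⟩, ?_⟩
        show x.1 ∈ w1.1
        rw [hw1]; exact hx
    have : U.1 = K α := by
      ext x
      constructor
      · intro hx
        exact (hTU ⟨x, hM.tr _ U.2 _ hx⟩).1 hx
      · intro hx
        have hxM : x ∈ M := by
          obtain ⟨γ, hγ, h2⟩ := mem_K.1 hx
          exact stp_sub hM (hK γ hγ) x h2
        exact (hTU ⟨x, hxM⟩).2 hx
    rw [← this]; exact U.2
  · obtain ⟨S, hS⟩ := hM.zf.repl (R := fun z w => ∃ s, Sq s z ∧ ∃ y, Kd s z y ∧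
      IsOp (· ∈ ·) w z y) (by
      apply_rules (maxDepth := 1000) [dSq, dKd, dOp, Dfn.ex, Dfn.and, DT.var]) (mo hM α) (by
      intro z hz
      obtain ⟨γ, hγ, rfl⟩ := (mem_mo hM).1 hz
      obtain ⟨s, hs⟩ := (ih γ hγ).2
      obtain ⟨k1, w1, hk1, hw1, hkw⟩ := exists_lev hM (hK γ hγ)
      refine ⟨⟨ZFSet.pair (mo hM γ).1 k1.1, pair_mem hM (mo hM γ).2 k1.2⟩, ⟨s, hs,
        k1, (hu γ hγ s hs k1).2 hk1, (op_iff hM).2 rfl⟩, ?_⟩
      rintro w ⟨s', hs', y, hy, h⟩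
      rw [hu γ hγ s' hs', ← hk1] at hy
      rw [op_iff hM, hy] at h
      exact MT.ext h)
    have hSγ : ∀ γ < α, ∀ k : MT M, (∃ p, p ∈ S ∧ IsOp (· ∈ ·) p (mo hM γ) k) ↔ k.1 = K γ := by
      intro γ hγ k
      constructor
      · rintro ⟨p, hp, h1⟩
        obtain ⟨z, hz, s, hs, y, hy, h⟩ := (hS p).1 hp
        obtain ⟨δ, hδ, rfl⟩ := (mem_mo hM).1 hz
        rw [hu δ hδ s hs] at hy
        rw [op_iff hM] at h h1
        rw [h] at h1
        obtain ⟨h3, h4⟩ := ZFSet.pair_injective h1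
        have h5 : δ = γ := toZFSet_injective h3
        rw [← h4, hy, h5]
      · intro hk
        obtain ⟨s, hs⟩ := (ih γ hγ).2
        refine ⟨⟨ZFSet.pair (mo hM γ).1 k.1, pair_mem hM (mo hM γ).2 k.2⟩, (hS _).2 ⟨mo hM γ,
          (mem_mo hM).2 ⟨γ, hγ, rfl⟩, s, hs, k, (hu γ hγ s hs _).2 hk, (op_iff hM).2 rfl⟩,
          (op_iff hM).2 rfl⟩
    refine ⟨S, fun o' ho' y => ?_⟩
    obtain ⟨γ, hγ, rfl⟩ := (mem_mo hM).1 ho'
    rw [hSγ γ hγ, kd_iff hM (fun δ hδ => hSγ δ (hδ.trans hγ)) fun δ hδ => hK δ (hδ.trans hγ)]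

end rec

end MT

/-- **`K` is Gödel's constructible universe**: its union is the least transitive class which contains
all ordinals and satisfies `ZF`. -/
theorem isL_iff_inner (x : ZFSet.{u}) : IsL x ↔ ∀ M : Set ZFSet.{u}, (∀ a ∈ M, ∀ b ∈ a, b ∈ M) →
    (∀ α : Ordinal.{u}, α.toZFSet ∈ M) → (@ZFM.IsZF M ⟨fun b a => a.1 ∈ b.1⟩) → x ∈ M := by
  constructor
  · rintro ⟨α, hα⟩ M h1 h2 h3
    let _ : Membership M M := ⟨fun b a => a.1 ∈ b.1⟩
    have hM : MT.Inn M := ⟨h1, h2, isZF_equiv (M := M) (N := MT M)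
      ⟨fun a => ⟨a.1, a.2⟩, fun a => ⟨a.1, a.2⟩, fun _ => rfl, fun _ => rfl⟩
      (fun _ _ => Iff.rfl) h3⟩
    exact h1 _ (MT.main hM α).1 _ hα
  · intro h
    refine h {x | IsL x} (fun a ha b hb => IsL.trans ha hb) isL_toZFSet ?_
    let _ : Membership {x : ZFSet.{u} | IsL x} {x : ZFSet.{u} | IsL x} := ⟨fun b a => a.1 ∈ b.1⟩
    exact isZF_equiv (M := LL.{u}) (N := {x : ZFSet.{u} | IsL x})
      ⟨fun a => ⟨a.1, a.2⟩, fun a => ⟨a.1, a.2⟩, fun _ => rfl, fun _ => rfl⟩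
      (fun _ _ => Iff.rfl) isZF_LL

end Pool.Agent.DQ1
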