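import Mathlib

/-! # One-sorted logic with the quantifier `Q₁` -/

namespace Pool.Agent.DQ1

open Function Cardinal

universe u v w

/-- put a new value in front of an assignment -/
def push {X : Type*} (a : X) (v : ℕ → X) : ℕ → X
  | 0 => a
  | n + 1 => v n

@[simp] theorem push_zero {X : Type*} (a : X) (v : ℕ → X) : push a v 0 = a := rfl
@[simp] theorem push_succ {X : Type*} (a : X) (v : ℕ → X) (n : ℕ) : push a v (n+1) = v n := rfl

/-- lift a renaming under a binder -/
def lift (f : ℕ → ℕ) : ℕ → ℕ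
  | 0 => 0
  | n + 1 => f n + 1

@[simp] theorem lift_zero (f : ℕ → ℕ) : lift f 0 = 0 := rfl
@[simp] theorem lift_succ (f : ℕ → ℕ) (n : ℕ) : lift f (n+1) = f n + 1 := rfl

theorem push_comp_lift {X : Type*} (x : X) (v : ℕ → X) (f : ℕ → ℕ) :
    push x v ∘ lift f = push x (v ∘ f) := by
  funext n; cases n <;> rfl

theorem comp_push {X Y : Type*} (g : X → Y) (x : X) (v : ℕ → X) :
    g ∘ push x v = push (g x) (g ∘ v) := by
  funext n; cases n <;> rfl

/-- one-sorted formulas with the quantifier there are uncountably many, de Bruijn indices -/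
inductive KF : Type
  | rel (i : ℕ) (xs : List ℕ) : KF
  | eq (x y : ℕ) : KF
  | neg (φ : KF) : KF
  | and (φ ψ : KF) : KF
  | all (φ : KF) : KF
  | q (φ : KF) : KF
  deriving Encodable

namespace KF

/-- satisfaction in a structure -/
def Sat {D : Type w} (R : ℕ → List D → Prop) : KF → (ℕ → D) → Prop
  | .rel i xs, v => R i (xs.map v)
  | .eq x y, v => v x = v y
  | .neg φ, v => ¬ φ.Sat R v
  | .and φ ψ, v => φ.Sat R v ∧ ψ.Sat R v
  | .all φ, v => ∀ a, φ.Sat R (push a v)
  | .q φ, v => ¬ {a | φ.Sat R (push a v)}.Countable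

/-- renaming of variables -/
def ren : KF → (ℕ → ℕ) → KF
  | .rel i xs, f => .rel i (xs.map f)
  | .eq x y, f => .eq (f x) (f y)
  | .neg φ, f => .neg (φ.ren f)
  | .and φ ψ, f => .and (φ.ren f) (ψ.ren f)
  | .all φ, f => .all (φ.ren (lift f))
  | .q φ, f => .q (φ.ren (lift f))

/-- renaming of relation symbols -/
def sym : KF → (ℕ → ℕ) → KF
  | .rel i xs, f => .rel (f i) xs
  | .eq x y, _ => .eq x y
  | .neg φ, f => .neg (φ.sym f)
  | .and φ ψ, f => .and (φ.sym f) (ψ.sym f)
  | .all φ, f => .all (φ.sym f)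
  | .q φ, f => .q (φ.sym f)

/-- a bound for the free variables -/
def bd : KF → ℕ
  | .rel _ xs => xs.foldr (fun x n => max (x+1) n) 0
  | .eq x y => max x y + 1
  | .neg φ => φ.bd
  | .and φ ψ => max φ.bd ψ.bd
  | .all φ => φ.bd - 1
  | .q φ => φ.bd - 1

theorem lt_bd_rel {i : ℕ} {xs : List ℕ} {x : ℕ} (h : x ∈ xs) : x < (KF.rel i xs).bd := by
  show x < xs.foldr (fun x n => max (x+1) n) 0
  induction xs with
  | nil => simp at h
  | cons y ys ih =>
    rw [List.foldr_cons]
    rcases List.mem_cons.1 h with h | h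
    · subst h; omega
    · have := ih h; omega

theorem sat_sym {D : Type w} (R : ℕ → List D → Prop) (g : ℕ → ℕ) (φ : KF) :
    ∀ v : ℕ → D, (φ.sym g).Sat R v ↔ φ.Sat (fun i => R (g i)) v := by
  induction φ with
  | rel i xs => intro v; exact Iff.rfl
  | eq x y => intro v; exact Iff.rfl
  | neg φ ih => intro v; exact not_congr (ih v)
  | and φ ψ ih1 ih2 => intro v; exact and_congr (ih1 v) (ih2 v)
  | all φ ih => intro v; exact forall_congr' fun a => ih _
  | q φ ih =>
    intro v
    show ¬ {a | (φ.sym g).Sat R (push a v)}.Countable ↔ ¬ {a | φ.Sat _ (push a v)}.Countable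
    have : {a | (φ.sym g).Sat R (push a v)} = {a | φ.Sat (fun i => R (g i)) (push a v)} := by
      ext a; exact ih _
    rw [this]

/-- the identity below the bound -/
theorem ren_id {φ : KF} : ∀ {f : ℕ → ℕ}, (∀ i < φ.bd, f i = i) → φ.ren f = φ := by
  induction φ with
  | rel i xs =>
    intro f h
    show KF.rel i (xs.map f) = _
    congr 1
    conv_rhs => rw [← List.map_id xs]
    exact List.map_congr_left fun x hx => h x (lt_bd_rel hx)
  | eq x y =>
    intro f h
    show KF.eq (f x) (f y) = _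
    rw [h x (by simp only [bd]; omega), h y (by simp only [bd]; omega)]
  | neg φ ih => intro f h; show KF.neg _ = _; rw [ih h]
  | and φ ψ ih1 ih2 =>
    intro f h
    show KF.and _ _ = _
    rw [ih1 (fun i hi => h i (by simp only [bd]; omega)),
      ih2 (fun i hi => h i (by simp only [bd]; omega))]
  | all φ ih =>
    intro f h
    show KF.all _ = _
    rw [ih]
    intro i hi
    cases i with
    | zero => rfl
    | succ i => rw [lift_succ, h i (by simp only [bd]; omega)]
  | q φ ih =>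
    intro f h
    show KF.q _ = _
    rw [ih]
    intro i hi
    cases i with
    | zero => rfl
    | succ i => rw [lift_succ, h i (by simp only [bd]; omega)]

/-- implication -/
abbrev imp (φ ψ : KF) : KF := .neg (.and φ (.neg ψ))
/-- disjunction -/
abbrev or (φ ψ : KF) : KF := .neg (.and (.neg φ) (.neg ψ))
/-- existential quantifier -/
abbrev ex (φ : KF) : KF := .neg (.all (.neg φ))

/-- exchange of the first two variables -/
def swp : ℕ → ℕ
  | 0 => 1
  | 1 => 0
  | n + 2 => n + 2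

/-- insert a new variable at position one -/
def ins : ℕ → ℕ
  | 0 => 0
  | n + 1 => n + 2

end KF

/-- A weak model: a domain with an assignment of truth values satisfying Tarski's clauses, Keisler's
axioms and the least element scheme for the relation symbol `0`. -/
structure WM (D : Type w) where
  T : KF → (ℕ → D) → Prop
  eq : ∀ x y v, T (.eq x y) v ↔ v x = v y
  neg : ∀ φ v, T (.neg φ) v ↔ ¬ T φ v
  and : ∀ φ ψ v, T (.and φ ψ) v ↔ T φ v ∧ T ψ v
  all : ∀ φ v, T (.all φ) v ↔ ∀ a, T φ (push a v)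
  ren : ∀ φ f v, T (φ.ren f) v ↔ T φ (v ∘ f)
  q1 : ∀ x v, ¬ T (.q (.eq 0 (x+1))) v
  q2 : ∀ φ ψ v, T (.all (.imp φ ψ)) v → T (.q φ) v → T (.q ψ) v
  q3 : ∀ φ ψ v, T (.q (.or φ ψ)) v → T (.q φ) v ∨ T (.q ψ) v
  q4 : ∀ φ v, T (.q (.ex φ)) v →
    T (.ex (.q (φ.ren KF.swp))) v ∨ T (.q (.ex (φ.ren KF.swp))) v
  le : ∀ φ v, T (.ex φ) v →
    T (.ex (.and φ (.all (.imp (.rel 0 [0, 1]) (.neg (φ.ren KF.ins)))))) v
  univ : ∀ v, T (.q (.eq 0 0)) v
  tri : ∀ x y v, T (.rel 0 [x, y]) v ∨ v x = v y ∨ T (.rel 0 [y, x]) v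

namespace WM

variable {D : Type w} (W : WM D)

theorem imp (φ ψ : KF) (v) : W.T (.imp φ ψ) v ↔ (W.T φ v → W.T ψ v) := by
  rw [KF.imp, W.neg, W.and, W.neg]; tauto

theorem or (φ ψ : KF) (v) : W.T (.or φ ψ) v ↔ (W.T φ v ∨ W.T ψ v) := by
  rw [KF.or, W.neg, W.and, W.neg, W.neg]; tauto

theorem ex (φ : KF) (v) : W.T (.ex φ) v ↔ ∃ a, W.T φ (push a v) := by
  rw [KF.ex, W.neg, W.all]
  push Not
  exact exists_congr fun a => by rw [W.neg, not_not]

theorem congr_bd {φ : KF} {v v' : ℕ → D} (h : ∀ i < φ.bd, v i = v' i) : W.T φ v ↔ W.T φ v' := by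
  classical
  let f : ℕ → ℕ := fun i => if i < φ.bd then i else 0
  have hf : φ.ren f = φ := KF.ren_id fun i hi => if_pos hi
  by_cases h0 : 0 < φ.bd
  · have h1 : v ∘ f = v' ∘ f := by
      funext i
      simp only [comp, f]
      split_ifs with hi
      · exact h i hi
      · exact h 0 h0
    have h2 := W.ren φ f v
    have h3 := W.ren φ f v'
    rw [hf] at h2 h3
    rw [h2, h3, h1]
  · -- no free variables: compare with a common assignment
    let g : ℕ → ℕ := fun i => 2 * i
    let g' : ℕ → ℕ := fun i => 2 * i + 1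
    have hg : φ.ren g = φ := KF.ren_id fun i hi => absurd hi (by omega)
    have hg' : φ.ren g' = φ := KF.ren_id fun i hi => absurd hi (by omega)
    let z : ℕ → D := fun i => if i % 2 = 0 then v (i / 2) else v' (i / 2)
    have h2 := W.ren φ g z
    have h3 := W.ren φ g' z
    rw [hg] at h2
    rw [hg'] at h3
    have e1 : z ∘ g = v := by
      funext i
      simp only [comp, z, g]
      rw [if_pos (by omega), show 2 * i / 2 = i by omega]
    have e2 : z ∘ g' = v' := by
      funext i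
      simp only [comp, z, g']
      rw [if_neg (by omega), show (2 * i + 1) / 2 = i by omega]
    rw [e1] at h2
    rw [e2] at h3
    rw [← h2, h3]

/-! ### definability -/

/-- evaluation of a variable coded in `ℕ ⊕ D` -/
def _root_.Pool.Agent.DQ1.slot {X : Type*} (v : ℕ → X) : ℕ ⊕ X → X
  | .inl j => v j
  | .inr c => c

/-- definable (with parameters) predicates of assignments -/
def TD (P : (ℕ → D) → Prop) : Prop :=
  ∃ (φ : KF) (σ : ℕ → ℕ ⊕ D), ∀ v, P v ↔ W.T φ (fun i => slot v (σ i))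

variable {W}

theorem TD.base (φ : KF) : W.TD (fun v => W.T φ v) := ⟨φ, fun i => .inl i, fun _ => Iff.rfl⟩

theorem TD.congr {P Q : (ℕ → D) → Prop} (hP : W.TD P) (h : ∀ v, P v ↔ Q v) : W.TD Q := by
  obtain ⟨φ, σ, h1⟩ := hP
  exact ⟨φ, σ, fun v => (h v).symm.trans (h1 v)⟩

theorem TD.not {P : (ℕ → D) → Prop} (hP : W.TD P) : W.TD (fun v => ¬ P v) := by
  obtain ⟨φ, σ, h⟩ := hP
  exact ⟨.neg φ, σ, fun v => by
    show ¬ P v ↔ _
    rw [W.neg, h]⟩

theorem TD.and {P Q : (ℕ → D) → Prop} (hP : W.TD P) (hQ : W.TD Q) :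
    W.TD (fun v => P v ∧ Q v) := by
  obtain ⟨φ, σ, h1⟩ := hP
  obtain ⟨ψ, τ, h2⟩ := hQ
  refine ⟨.and (φ.ren (fun i => 2*i)) (ψ.ren (fun i => 2*i+1)),
    fun i => if i % 2 = 0 then σ (i/2) else τ (i/2), fun v => ?_⟩
  show P v ∧ Q v ↔ _
  rw [W.and, W.ren, W.ren, h1, h2]
  have e1 : (fun i => slot v (σ i)) =
      (fun i => slot v (if i % 2 = 0 then σ (i/2) else τ (i/2))) ∘ (fun i => 2*i) := by
    funext i
    simp only [comp]
    rw [if_pos (by omega), show 2*i/2 = i by omega]
  have e2 : (fun i => slot v (τ i)) =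
      (fun i => slot v (if i % 2 = 0 then σ (i/2) else τ (i/2))) ∘ (fun i => 2*i+1) := by
    funext i
    simp only [comp]
    rw [if_neg (by omega), show (2*i+1)/2 = i by omega]
  rw [e1, e2]

theorem TD.imp {P Q : (ℕ → D) → Prop} (hP : W.TD P) (hQ : W.TD Q) :
    W.TD (fun v => P v → Q v) := (hP.and hQ.not).not.congr fun v => by tauto

theorem TD.or {P Q : (ℕ → D) → Prop} (hP : W.TD P) (hQ : W.TD Q) :
    W.TD (fun v => P v ∨ Q v) := (hP.not.imp hQ).congr fun v => by tauto

theorem TD.eqv (i j : ℕ) : W.TD (fun v => v i = v j) :=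
  (TD.base (.eq i j)).congr fun v => W.eq i j v

/-- substitution of variables or constants -/
theorem TD.subst {P : (ℕ → D) → Prop} (hP : W.TD P) (t : ℕ → ℕ ⊕ D) :
    W.TD (fun v => P (fun i => slot v (t i))) := by
  obtain ⟨φ, σ, h1⟩ := hP
  refine ⟨φ, fun i => match σ i with
    | .inl j => t j
    | .inr c => .inr c, fun v => ?_⟩
  refine (h1 _).trans ?_
  have e : (fun i => slot (fun i => slot v (t i)) (σ i)) = fun i => slot v (match σ i with
    | .inl j => t j
    | .inr c => .inr c) := by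
    funext i
    match σ i with
    | .inl j => rfl
    | .inr c => rfl
  rw [e]

/-- auxiliary slot transformation for quantifiers -/
def unslot : ℕ ⊕ D → ℕ ⊕ D
  | .inl 0 => .inl 0
  | .inl (j+1) => .inl j
  | .inr c => .inr c

/-- normal form under a binder -/
theorem TD.under {P : (ℕ → D) → Prop} (hP : W.TD P) : ∃ (φ : KF) (σ : ℕ → ℕ ⊕ D),
    ∀ v x, P (push x v) ↔ W.T φ (push x (fun i => slot v (σ i))) := by
  classical
  obtain ⟨φ, σ, h1⟩ := hP
  refine ⟨φ.ren (fun i => if σ i = .inl 0 then 0 else i+1), fun i => unslot (σ i), fun v x => ?_⟩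
  rw [W.ren, h1]
  have e : (fun i => slot (push x v) (σ i)) =
      (push x fun i => slot v (unslot (σ i))) ∘ (fun i => if σ i = .inl 0 then 0 else i+1) := by
    funext i
    simp only [comp]
    split_ifs with h
    · rw [h]; rfl
    · simp only [push_succ]
      match hh : σ i with
      | .inl 0 => exact absurd hh h
      | .inl (j+1) => rfl
      | .inr c => rfl
  rw [e]

theorem TD.all {P : (ℕ → D) → Prop} (hP : W.TD P) : W.TD (fun v => ∀ x, P (push x v)) := by
  obtain ⟨φ, σ, h⟩ := hP.under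
  exact ⟨.all φ, σ, fun v => by rw [W.all]; exact forall_congr' fun x => h v x⟩

theorem TD.ex {P : (ℕ → D) → Prop} (hP : W.TD P) : W.TD (fun v => ∃ x, P (push x v)) :=
  hP.not.all.not.congr fun v => by simp

variable (W)

/-- definable subsets -/
def DS (X : Set D) : Prop := W.TD (fun v => v 0 ∈ X)

/-- big definable subsets -/
def Big (X : Set D) : Prop := ∃ φ v, (∀ a, a ∈ X ↔ W.T φ (push a v)) ∧ W.T (.q φ) v

variable {W}

theorem DS.exists {X : Set D} (h : W.DS X) [Nonempty D] : ∃ φ v, ∀ a, a ∈ X ↔ W.T φ (push a v) := by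
  obtain ⟨φ, σ, h⟩ := TD.under h
  exact ⟨φ, fun i => slot (fun _ => Classical.arbitrary D) (σ i), fun a => h _ a⟩

theorem ds_of {φ : KF} {v : ℕ → D} {X : Set D} (h : ∀ a, a ∈ X ↔ W.T φ (push a v)) : W.DS X := by
  refine ⟨φ, fun i => match i with
    | 0 => .inl 0
    | i+1 => .inr (v i), fun v' => ?_⟩
  show v' 0 ∈ X ↔ _
  rw [h]
  have : push (v' 0) v = fun i => slot v' (match i with
    | 0 => .inl 0
    | i+1 => .inr (v i)) := by
    funext i; cases i <;> rfl
  rw [this]

/-- two representations of definable sets with a common assignment -/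
theorem two_rep {X Y : Set D} {φ ψ : KF} {v w : ℕ → D} (h1 : ∀ a, a ∈ X ↔ W.T φ (push a v))
    (h2 : ∀ a, a ∈ Y ↔ W.T ψ (push a w)) : ∃ z : ℕ → D,
    (∀ a, a ∈ X ↔ W.T (φ.ren (lift fun i => 2*i)) (push a z)) ∧
    (∀ a, a ∈ Y ↔ W.T (ψ.ren (lift fun i => 2*i+1)) (push a z)) ∧
    (W.T (.q (φ.ren (lift fun i => 2*i))) z ↔ W.T (.q φ) v) ∧
    (W.T (.q (ψ.ren (lift fun i => 2*i+1))) z ↔ W.T (.q ψ) w) := by
  let z : ℕ → D := fun i => if i % 2 = 0 then v (i / 2) else w (i / 2)
  have e1 : z ∘ (fun i => 2*i) = v := by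
    funext i
    simp only [comp, z]
    rw [if_pos (by omega), show 2 * i / 2 = i by omega]
  have e2 : z ∘ (fun i => 2*i+1) = w := by
    funext i
    simp only [comp, z]
    rw [if_neg (by omega), show (2 * i + 1) / 2 = i by omega]
  refine ⟨z, fun a => ?_, fun a => ?_, ?_, ?_⟩
  · rw [W.ren, push_comp_lift, e1, h1]
  · rw [W.ren, push_comp_lift, e2, h2]
  · have := W.ren (.q φ) (fun i => 2*i) z
    rw [e1] at this
    exact this
  · have := W.ren (.q ψ) (fun i => 2*i+1) z
    rw [e2] at this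
    exact this

theorem big_iff {X : Set D} {φ : KF} {v : ℕ → D} (h : ∀ a, a ∈ X ↔ W.T φ (push a v)) :
    W.Big X ↔ W.T (.q φ) v := by
  constructor
  · rintro ⟨ψ, w, h1, h2⟩
    obtain ⟨z, hz1, hz2, hz3, hz4⟩ := two_rep h h1
    rw [← hz3]
    refine W.q2 _ _ z ?_ (hz4.2 h2)
    rw [W.all]
    intro a
    rw [W.imp, ← hz1, ← hz2]
    exact id
  · intro h1
    exact ⟨φ, v, h, h1⟩

theorem Big.ds {X : Set D} (h : W.Big X) : W.DS X := by
  obtain ⟨φ, v, h, -⟩ := h
  exact ds_of h

theorem Big.mono [Nonempty D] {X Y : Set D} (h : W.Big X) (hY : W.DS Y) (hXY : X ⊆ Y) :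
    W.Big Y := by
  obtain ⟨φ, v, h1, h2⟩ := h
  obtain ⟨ψ, w, h3⟩ := hY.exists
  obtain ⟨z, hz1, hz2, hz3, hz4⟩ := two_rep h1 h3
  rw [big_iff h3, ← hz4]
  refine W.q2 _ _ z ?_ (hz3.2 h2)
  rw [W.all]
  intro a
  rw [W.imp, ← hz1, ← hz2]
  exact fun h => hXY h

theorem Big.union [Nonempty D] {X Y : Set D} (h : W.Big (X ∪ Y)) (hX : W.DS X) (hY : W.DS Y) :
    W.Big X ∨ W.Big Y := by
  obtain ⟨φ, v, h1⟩ := hX.exists
  obtain ⟨ψ, w, h3⟩ := hY.exists
  obtain ⟨z, hz1, hz2, hz3, hz4⟩ := two_rep h1 h3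
  have h5 : ∀ a, a ∈ X ∪ Y ↔ W.T (.or (φ.ren (lift fun i => 2*i)) (ψ.ren (lift fun i => 2*i+1)))
      (push a z) := by
    intro a
    rw [W.or, ← hz1, ← hz2]
    rfl
  rw [big_iff h5] at h
  rw [big_iff h1, big_iff h3, ← hz3, ← hz4]
  exact W.q3 _ _ _ h

theorem not_big_single (a : D) : ¬ W.Big {a} := by
  have h : ∀ b, b ∈ ({a} : Set D) ↔ W.T (.eq 0 1) (push b (fun _ => a)) := by
    intro b; rw [W.eq]; rfl
  rw [big_iff h]
  exact W.q1 0 _

theorem big_univ [Nonempty D] : W.Big Set.univ := by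
  have h : ∀ b, b ∈ (Set.univ : Set D) ↔ W.T (.eq 0 0) (push b (fun _ => Classical.arbitrary D)) := by
    intro b; rw [W.eq]; simp
  rw [big_iff h]
  exact W.univ _

theorem Big.nonempty [Nonempty D] {X : Set D} (h : W.Big X) : X.Nonempty := by
  by_contra hne
  rw [Set.not_nonempty_iff_eq_empty] at hne
  obtain ⟨a⟩ := ‹Nonempty D›
  refine not_big_single (W := W) a (h.mono ?_ (by rw [hne]; exact Set.empty_subset _))
  exact ds_of (φ := .eq 0 1) (v := fun _ => a) fun b => by rw [W.eq]; rfl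

/-- Keisler's axiom: if a big set `Y` is covered by sets indexed by a small set, one is big -/
theorem Big.fiber [Nonempty D] {R : D → D → Prop} (hR : W.TD (fun v => R (v 0) (v 1)))
    (h : W.Big {y | ∃ x, R x y}) : (∃ x, W.Big {y | R x y}) ∨ W.Big {x | ∃ y, R x y} := by
  obtain ⟨φ, σ, h1⟩ := TD.under hR
  -- bring to the form `T φ (push x (push y w))`
  obtain ⟨ψ, τ, h2⟩ : ∃ (ψ : KF) (w : ℕ → D), ∀ x y, R x y ↔ W.T ψ (push x (push y w)) := by
    classical
    refine ⟨φ.ren (lift fun i => if σ i = .inl 0 then 0 else i+1), fun i => match σ i with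
      | .inl _ => Classical.arbitrary D
      | .inr c => c, fun x y => ?_⟩
    have h3 := h1 (push y (fun _ => Classical.arbitrary D)) x
    simp only [push_zero, push_succ] at h3
    rw [h3, W.ren, push_comp_lift]
    have e : (fun i => slot (push y fun _ => Classical.arbitrary D) (σ i)) =
        (push y fun i => match σ i with
          | .inl _ => Classical.arbitrary D
          | .inr c => c) ∘ (fun i => if σ i = .inl 0 then 0 else i+1) := by
      funext i
      simp only [comp]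
      split_ifs with h
      · rw [h]; rfl
      · simp only [push_succ]
        match hh : σ i with
        | .inl 0 => exact absurd hh h
        | .inl (j+1) => rfl
        | .inr c => rfl
    rw [e]
  have h3 : ∀ y, y ∈ {y | ∃ x, R x y} ↔ W.T (.ex ψ) (push y τ) := by
    intro y
    rw [W.ex]
    exact exists_congr fun x => h2 x y
  rw [big_iff h3] at h
  have hsw : ∀ x y, R x y ↔ W.T (ψ.ren KF.swp) (push y (push x τ)) := by
    intro x y
    rw [W.ren, h2]
    have e : push y (push x τ) ∘ KF.swp = push x (push y τ) := by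
      funext i
      match i with
      | 0 => rfl
      | 1 => rfl
      | i+2 => rfl
    rw [e]
  rcases W.q4 _ _ h with h4 | h4
  · left
    rw [W.ex] at h4
    obtain ⟨x, hx⟩ := h4
    exact ⟨x, (big_iff (fun y => hsw x y)).2 hx⟩
  · right
    refine (big_iff (fun x => ?_)).2 h4
    rw [W.ex]
    exact exists_congr fun y => hsw x y

/-- the order of the weak model -/
def lt' (W : WM D) (a b : D) : Prop := W.T (.rel 0 [0, 1]) (push a (push b fun _ => a))

theorem lt_td : W.TD (fun v => W.lt' (v 0) (v 1)) := by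
  refine (TD.base (W := W) (.rel 0 [0, 1])).congr fun v => W.congr_bd fun i hi => ?_
  have hi' : i < 2 := by simpa [KF.bd] using hi
  match i with
  | 0 => rfl
  | 1 => rfl
  | i+2 => omega

theorem lt'_iff {x y : ℕ} {v : ℕ → D} : W.T (.rel 0 [x, y]) v ↔ W.lt' (v x) (v y) := by
  have h := W.ren (.rel 0 [0, 1]) (fun i => if i = 0 then x else y) v
  have h2 : W.T (.rel 0 [x, y]) v ↔
      W.T (.rel 0 [0, 1]) (v ∘ fun i => if i = 0 then x else y) := h
  rw [h2]
  refine W.congr_bd fun i hi => ?_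
  have hi' : i < 2 := by simpa [KF.bd] using hi
  match i with
  | 0 => rfl
  | 1 => rfl
  | i+2 => omega

theorem lt'_tri (a b : D) : W.lt' a b ∨ a = b ∨ W.lt' b a := by
  have := W.tri 0 1 (push a (push b fun _ => a))
  rwa [lt'_iff, lt'_iff] at this

/-- least elements of nonempty definable sets -/
theorem exists_least [Nonempty D] {X : Set D} (hX : W.DS X) (hne : X.Nonempty) :
    ∃ a ∈ X, ∀ b ∈ X, ¬ W.lt' b a := by
  obtain ⟨φ, v, h⟩ := hX.exists
  obtain ⟨x, hx⟩ := hne
  have h1 := W.le φ v ((W.ex _ _).2 ⟨x, (h x).1 hx⟩)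
  rw [W.ex] at h1
  obtain ⟨a, ha⟩ := h1
  rw [W.and, W.all] at ha
  refine ⟨a, (h a).2 ha.1, fun b hb hlt => ?_⟩
  have h2 := ha.2 b
  rw [W.imp, W.neg, W.ren] at h2
  refine h2 ?_ ?_
  · refine (W.congr_bd fun i hi => ?_).1 hlt
    have hi' : i < 2 := by simpa [KF.bd] using hi
    match i with
    | 0 => rfl
    | 1 => rfl
    | i+2 => omega
  · have e : push b (push a v) ∘ KF.ins = push b v := by
      funext i
      match i with
      | 0 => rfl
      | i+1 => rfl
    rw [e]
    exact (h b).1 hb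

end WM

end Pool.Agent.DQ1
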