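import Pool.Agent.DQ1.KBase
import Pool.Agent.ZFM.Lib

/-! # The constructible universe satisfies `ZF` -/

namespace Pool.Agent.DQ1

open Cardinal Ordinal
open ZFM (Fm Sat Dfn DT IsZF)

universe u v w

/-! ### Definable subsets of the levels -/

/-- the elements of `K γ` -/
@[ext] structure KK (γ : Ordinal.{u}) : Type (u+1) where
  val : ZFSet.{u}
  property : val ∈ K γ

instance (γ : Ordinal.{u}) : Membership (KK γ) (KK γ) := ⟨fun b a => a.1 ∈ b.1⟩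

instance (γ : Ordinal.{u}) : Small.{u} (KK γ) :=
  small_of_injective (β := {x : ZFSet.{u} // x ∈ K γ}) (f := fun x => ⟨x.1, x.2⟩)
    fun _ _ h => KK.ext (congrArg Subtype.val h)

theorem KK_mem {γ : Ordinal.{u}} {a b : KK γ} : a ∈ b ↔ a.1 ∈ b.1 := Iff.rfl

/-- the code of the first `n` values -/
noncomputable def cd : ℕ → (ℕ → ZFSet.{u}) → ZFSet.{u}
  | 0, _ => ∅
  | n+1, v => ZFSet.pair (v 0) (cd n fun i => v (i+1))

/-- the set of all codes of length `n` -/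
noncomputable def T (γ : Ordinal.{u}) : ℕ → ZFSet.{u}
  | 0 => {∅}
  | n+1 => G 1 (K γ) (T γ n)

theorem mem_G1 {a b x y : ZFSet.{u}} : ZFSet.pair x y ∈ G 1 a b ↔ x ∈ a ∧ y ∈ b := by
  rw [mem_G]
  constructor
  · rintro ⟨x', y', hx, hy, h⟩
    obtain ⟨rfl, rfl⟩ := ZFSet.pair_injective (isOp_iff.1 h)
    exact ⟨hx, hy⟩
  · rintro ⟨hx, hy⟩
    exact ⟨x, y, hx, hy, isOp_iff.2 rfl⟩

theorem mem_G2 {a b x : ZFSet.{u}} : x ∈ G 2 a b ↔ x ∈ a ∧ x ∉ b := mem_G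

theorem mem_G3 {a b w : ZFSet.{u}} : w ∈ G 3 a b ↔ ∃ x, ZFSet.pair x w ∈ a := by
  rw [mem_G]
  constructor
  · rintro ⟨x, p, hp, h⟩
    rw [isOp_iff.1 h] at hp
    exact ⟨x, hp⟩
  · rintro ⟨x, h⟩
    exact ⟨x, _, h, isOp_iff.2 rfl⟩

theorem mem_G4 {a b x y : ZFSet.{u}} : ZFSet.pair x y ∈ G 4 a b ↔ x ∈ a ∧ y ∈ a ∧ x ∈ y := by
  rw [mem_G]
  constructor
  · rintro ⟨x', y', hx, hy, hxy, h⟩
    obtain ⟨rfl, rfl⟩ := ZFSet.pair_injective (isOp_iff.1 h)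
    exact ⟨hx, hy, hxy⟩
  · rintro ⟨hx, hy, hxy⟩
    exact ⟨x, y, hx, hy, hxy, isOp_iff.2 rfl⟩

theorem mem_G5 {a b x y : ZFSet.{u}} : ZFSet.pair x y ∈ G 5 a b ↔ x ∈ a ∧ y ∈ a ∧ y ∈ x := by
  rw [mem_G]
  constructor
  · rintro ⟨x', y', hx, hy, hxy, h⟩
    obtain ⟨rfl, rfl⟩ := ZFSet.pair_injective (isOp_iff.1 h)
    exact ⟨hx, hy, hxy⟩
  · rintro ⟨hx, hy, hxy⟩
    exact ⟨x, y, hx, hy, hxy, isOp_iff.2 rfl⟩

theorem mem_G6 {a b x y : ZFSet.{u}} : ZFSet.pair x y ∈ G 6 a b ↔ x ∈ a ∧ x = y := by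
  rw [mem_G]
  constructor
  · rintro ⟨x', hx, h⟩
    obtain ⟨rfl, rfl⟩ := ZFSet.pair_injective (isOp_iff.1 h)
    exact ⟨hx, rfl⟩
  · rintro ⟨hx, rfl⟩
    exact ⟨x, hx, isOp_iff.2 rfl⟩

theorem mem_G7 {a b x y z : ZFSet.{u}} : ZFSet.pair x (ZFSet.pair y z) ∈ G 7 a b ↔
    ZFSet.pair (ZFSet.pair x y) z ∈ a := by
  rw [mem_G]
  constructor
  · rintro ⟨x', y', z', p, q, hp, hpq, hq, h⟩
    obtain ⟨rfl, h2⟩ := ZFSet.pair_injective (isTr_iff.1 h)
    obtain ⟨rfl, rfl⟩ := ZFSet.pair_injective h2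
    rw [isOp_iff.1 hpq, isOp_iff.1 hq] at hp
    exact hp
  · intro h
    exact ⟨x, y, z, _, _, h, isOp_iff.2 rfl, isOp_iff.2 rfl, isTr_iff.2 rfl⟩

theorem mem_G8 {a b x y z : ZFSet.{u}} : ZFSet.pair x (ZFSet.pair y z) ∈ G 8 a b ↔
    ZFSet.pair y (ZFSet.pair x z) ∈ a := by
  rw [mem_G]
  constructor
  · rintro ⟨x', y', z', p, hp, hpq, h⟩
    obtain ⟨rfl, h2⟩ := ZFSet.pair_injective (isTr_iff.1 h)
    obtain ⟨rfl, rfl⟩ := ZFSet.pair_injective h2
    rw [isTr_iff.1 hpq] at hp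
    exact hp
  · intro h
    exact ⟨x, y, z, _, h, isTr_iff.2 rfl, isTr_iff.2 rfl⟩

theorem mem_G9 {a b w : ZFSet.{u}} : w ∈ G 9 a b ↔ ZFSet.pair w b ∈ a := by
  rw [mem_G]
  constructor
  · rintro ⟨p, hp, h⟩
    rw [isOp_iff.1 h] at hp
    exact hp
  · intro h
    exact ⟨_, h, isOp_iff.2 rfl⟩

theorem isL_empty : IsL (∅ : ZFSet.{u}) := by
  have h := isL_G (i := 2) (by norm_num) (isL_K (0 : Ordinal.{u})) (isL_K 0)
  have e : G 2 (K 0) (K (0 : Ordinal.{u})) = ∅ := by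
    ext x
    rw [mem_G2]
    simp
  rwa [e] at h

theorem isL_T (γ : Ordinal.{u}) (n : ℕ) : IsL (T γ n) := by
  induction n with
  | zero =>
    have := isL_upair isL_empty.{u} isL_empty.{u}
    rwa [ZFSet.pair_eq_singleton] at this
  | succ n ih => exact isL_G (by norm_num) (isL_K γ) ih

/-- values of an assignment -/
def vl {γ : Ordinal.{u}} (v : ℕ → KK γ) : ℕ → ZFSet.{u} := fun i => (v i).1

theorem cd_mem_T {γ : Ordinal.{u}} (n : ℕ) : ∀ (v : ℕ → KK γ), cd n (vl v) ∈ T γ n := by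
  induction n with
  | zero => intro v; exact ZFSet.mem_singleton.2 rfl
  | succ n ih => intro v; exact mem_G1.2 ⟨(v 0).2, ih fun i => v (i+1)⟩

theorem cd_push {γ : Ordinal.{u}} (n : ℕ) (x : KK γ) (v : ℕ → KK γ) :
    cd (n+1) (vl (ZFM.push x v)) = ZFSet.pair x.1 (cd n (vl v)) := rfl

theorem isL_cd {v : ℕ → ZFSet.{u}} (hv : ∀ i, IsL (v i)) (n : ℕ) : IsL (cd n v) := by
  induction n generalizing v with
  | zero => exact isL_empty
  | succ n ih => exact isL_pair (hv 0) (ih fun i => hv (i+1))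

theorem atom0 {γ : Ordinal.{u}} {R : ZFSet.{u} → ZFSet.{u} → Prop} {E : ZFSet.{u}} (hE : IsL E)
    (hR : ∀ a b, ZFSet.pair a b ∈ E ↔ a ∈ K γ ∧ b ∈ K γ ∧ R a b) (j : ℕ) : ∀ n, j < n →
    ∃ S, IsL S ∧ ∀ (a : KK γ) (v : ℕ → KK γ), ZFSet.pair a.1 (cd n (vl v)) ∈ S ↔ R a.1 (v j).1 := by
  induction j with
  | zero =>
    intro n hn
    obtain ⟨m, rfl⟩ : ∃ m, n = m + 1 := ⟨n-1, by omega⟩
    refine ⟨G 7 (G 1 E (T γ m)) ∅, isL_G (by norm_num) (isL_G (by norm_num) hE (isL_T γ m))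
      isL_empty, fun a v => ?_⟩
    show ZFSet.pair a.1 (ZFSet.pair (v 0).1 (cd m (vl fun i => v (i+1)))) ∈ _ ↔ _
    rw [mem_G7, mem_G1, hR]
    exact ⟨fun h => h.1.2.2, fun h => ⟨⟨a.2, (v 0).2, h⟩, cd_mem_T m _⟩⟩
  | succ j ih =>
    intro n hn
    obtain ⟨m, rfl⟩ : ∃ m, n = m + 1 := ⟨n-1, by omega⟩
    obtain ⟨S, hS, h⟩ := ih m (by omega)
    refine ⟨G 8 (G 1 (K γ) S) ∅, isL_G (by norm_num) (isL_G (by norm_num) (isL_K γ) hS)
      isL_empty, fun a v => ?_⟩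
    show ZFSet.pair a.1 (ZFSet.pair (v 0).1 (cd m (vl fun i => v (i+1)))) ∈ _ ↔ _
    rw [mem_G8, mem_G1, h]
    exact ⟨fun h => h.2, fun h => ⟨(v 0).2, h⟩⟩

theorem atom1 {γ : Ordinal.{u}} {R R' : ZFSet.{u} → ZFSet.{u} → Prop} {E E' : ZFSet.{u}}
    (hE : IsL E) (hE' : IsL E') (hR : ∀ a b, ZFSet.pair a b ∈ E ↔ a ∈ K γ ∧ b ∈ K γ ∧ R a b)
    (hR' : ∀ a b, ZFSet.pair a b ∈ E' ↔ a ∈ K γ ∧ b ∈ K γ ∧ R' a b) (hRR : ∀ a b, R' a b ↔ R b a)
    (h0 : (∀ a, R a a) ∨ ∀ a, ¬ R a a) (i : ℕ) : ∀ j n, i < n → j < n →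
    ∃ S, IsL S ∧ ∀ (v : ℕ → KK γ), cd n (vl v) ∈ S ↔ R (v i).1 (v j).1 := by
  induction i with
  | zero =>
    intro j n hi hj
    cases j with
    | zero =>
      rcases h0 with h | h
      · exact ⟨T γ n, isL_T γ n, fun v => ⟨fun _ => h _, fun _ => cd_mem_T n v⟩⟩
      · exact ⟨∅, isL_empty, fun v => ⟨fun h' => absurd h' (ZFSet.notMem_empty _), fun h' => absurd h' (h _)⟩⟩
    | succ j =>
      obtain ⟨m, rfl⟩ : ∃ m, n = m + 1 := ⟨n-1, by omega⟩
      obtain ⟨S, hS, h⟩ := atom0 hE hR j m (by omega)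
      exact ⟨S, hS, fun v => h (v 0) fun i => v (i+1)⟩
  | succ i ih =>
    intro j n hi hj
    obtain ⟨m, rfl⟩ : ∃ m, n = m + 1 := ⟨n-1, by omega⟩
    cases j with
    | zero =>
      obtain ⟨S, hS, h⟩ := atom0 hE' hR' i m (by omega)
      refine ⟨S, hS, fun v => ?_⟩
      rw [← hRR]
      exact h (v 0) fun i => v (i+1)
    | succ j =>
      obtain ⟨S, hS, h⟩ := ih j m (by omega) (by omega)
      refine ⟨G 1 (K γ) S, isL_G (by norm_num) (isL_K γ) hS, fun v => ?_⟩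
      show ZFSet.pair (v 0).1 (cd m (vl fun i => v (i+1))) ∈ _ ↔ _
      rw [mem_G1, h]
      exact ⟨fun h => h.2, fun h => ⟨(v 0).2, h⟩⟩

/-- Gödel's normal form theorem -/
theorem normal_form {γ : Ordinal.{u}} (φ : Fm) : ∀ n, φ.bd ≤ n →
    ∃ S, IsL S ∧ ∀ (v : ℕ → KK γ), cd n (vl v) ∈ S ↔ Sat φ v := by
  induction φ with
  | mem i j =>
    intro n hn
    have h1 : max i j + 1 ≤ n := hn
    exact atom1 (R := fun a b => a ∈ b) (R' := fun a b => b ∈ a)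
      (E := G 4 (K γ) ∅) (E' := G 5 (K γ) ∅) (isL_G (by norm_num) (isL_K γ) isL_empty)
      (isL_G (by norm_num) (isL_K γ) isL_empty) (fun a b => mem_G4) (fun a b => mem_G5)
      (fun a b => Iff.rfl) (Or.inr fun a => ZFSet.mem_irrefl a) i j n (by omega) (by omega)
  | eq i j =>
    intro n hn
    have h1 : max i j + 1 ≤ n := hn
    have hE : ∀ a b : ZFSet.{u}, ZFSet.pair a b ∈ G 6 (K γ) ∅ ↔ a ∈ K γ ∧ b ∈ K γ ∧ a = b := by
      intro a b
      rw [mem_G6]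
      constructor
      · rintro ⟨h, rfl⟩; exact ⟨h, h, rfl⟩
      · rintro ⟨h, _, rfl⟩; exact ⟨h, rfl⟩
    obtain ⟨S, hS, h⟩ := atom1 (R := fun a b => a = b) (R' := fun a b => a = b)
      (E := G 6 (K γ) ∅) (E' := G 6 (K γ) ∅) (isL_G (by norm_num) (isL_K γ) isL_empty)
      (isL_G (by norm_num) (isL_K γ) isL_empty) hE hE
      (fun a b => eq_comm) (Or.inl fun a => rfl) i j n (by omega) (by omega)
    exact ⟨S, hS, fun v => (h v).trans KK.ext_iff.symm⟩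
  | fls =>
    intro n _
    exact ⟨∅, isL_empty, fun v => ⟨fun h => absurd h (ZFSet.notMem_empty _), fun h => h.elim⟩⟩
  | imp φ ψ ih1 ih2 =>
    intro n hn
    have h1 : max φ.bd ψ.bd ≤ n := hn
    obtain ⟨S1, hS1, h1'⟩ := ih1 n (by omega)
    obtain ⟨S2, hS2, h2'⟩ := ih2 n (by omega)
    refine ⟨G 2 (T γ n) (G 2 S1 S2), isL_G (by norm_num) (isL_T γ n) (isL_G (by norm_num) hS1 hS2),
      fun v => ?_⟩
    rw [mem_G2, mem_G2, h1', h2']
    have := cd_mem_T n v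
    show _ ↔ (Sat φ v → Sat ψ v)
    tauto
  | all φ ih =>
    intro n hn
    have h1 : φ.bd - 1 ≤ n := hn
    obtain ⟨S, hS, h⟩ := ih (n+1) (by omega)
    refine ⟨G 2 (T γ n) (G 3 (G 2 (T γ (n+1)) S) ∅), isL_G (by norm_num) (isL_T γ n)
      (isL_G (by norm_num) (isL_G (by norm_num) (isL_T γ (n+1)) hS) isL_empty), fun v => ?_⟩
    rw [mem_G2, mem_G3]
    show _ ↔ ∀ x, Sat φ (ZFM.push x v)
    constructor
    · rintro ⟨_, h2⟩ x
      rw [← h, cd_push]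
      by_contra hc
      exact h2 ⟨x.1, mem_G2.2 ⟨mem_G1.2 ⟨x.2, cd_mem_T n v⟩, hc⟩⟩
    · intro h2
      refine ⟨cd_mem_T n v, ?_⟩
      rintro ⟨x, hx⟩
      obtain ⟨h3, h4⟩ := mem_G2.1 hx
      have hx' : x ∈ K γ := (mem_G1.1 h3).1
      have := (h (ZFM.push ⟨x, hx'⟩ v)).2 (h2 ⟨x, hx'⟩)
      rw [cd_push] at this
      exact h4 this

/-- definable subsets of the limit levels are constructible -/
theorem def_subset {γ : Ordinal.{u}} (φ : Fm) (v : ℕ → KK γ) :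
    ∃ S : ZFSet.{u}, IsL S ∧ ∀ z, z ∈ S ↔ ∃ h : z ∈ K γ, Sat φ (ZFM.push ⟨z, h⟩ v) := by
  obtain ⟨S, hS, h⟩ := normal_form φ (φ.bd + 1) (by omega)
  refine ⟨G 2 (K γ) (G 2 (K γ) (G 9 S (cd φ.bd (vl v)))), ?_, fun z => ?_⟩
  · refine isL_G (by norm_num) (isL_K γ) (isL_G (by norm_num) (isL_K γ) (isL_G (by norm_num) hS ?_))
    exact isL_cd (fun i => ⟨γ, (v i).2⟩) _
  · rw [mem_G2, mem_G2, mem_G9]
    constructor
    · rintro ⟨hz, h2⟩
      refine ⟨hz, ?_⟩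
      rw [← h, cd_push]
      by_contra hc
      exact h2 ⟨hz, hc⟩
    · rintro ⟨hz, h2⟩
      refine ⟨hz, fun h3 => h3.2 ?_⟩
      have := (h _).2 h2
      rwa [cd_push] at this

/-! ### The class `L` as a structure -/

/-- the constructible sets -/
@[ext] structure LL : Type (u+1) where
  val : ZFSet.{u}
  property : IsL val

instance : Membership LL.{u} LL.{u} := ⟨fun b a => a.1 ∈ b.1⟩

theorem LL_mem {a b : LL.{u}} : a ∈ b ↔ a.1 ∈ b.1 := Iff.rfl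

/-- inclusion -/
def toLL {γ : Ordinal.{u}} (x : KK γ) : LL.{u} := ⟨x.1, γ, x.2⟩

open Classical in
/-- level of a constructible set -/
noncomputable def lv (x : LL.{u}) : Ordinal.{u} := sInf {α | x.1 ∈ K α}

theorem mem_lv (x : LL.{u}) : x.1 ∈ K (lv x) := csInf_mem (s := {α | x.1 ∈ K α}) x.2

theorem lv_le {x : LL.{u}} {α : Ordinal.{u}} (h : x.1 ∈ K α) : lv x ≤ α := csInf_le' h

/-- elementary levels -/
def El (γ : Ordinal.{u}) : Prop := Lim γ ∧ ∀ (φ : Fm) (v : ℕ → KK γ),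
  Sat φ v ↔ Sat φ fun i => toLL (v i)

open Classical in
/-- witness function -/
noncomputable def wit (φ : Fm) (l : List LL.{u}) : LL.{u} :=
  if h : ∃ x : LL.{u}, ¬ Sat φ (ZFM.push x fun i => l.getD i ⟨∅, isL_empty⟩) then h.choose
  else ⟨∅, isL_empty⟩

theorem exists_El (α : Ordinal.{u}) : ∃ γ, α < γ ∧ El γ := by
  classical
  have hstep : ∀ β : Ordinal.{u}, ∃ β', β < β' ∧ Lim β' ∧ ∀ (φ : Fm) (l : List (KK β)),
      (wit φ (l.map toLL)).1 ∈ K β' := by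
    intro β
    obtain ⟨β', h1, h2⟩ := exists_level (I := Fm × List (KK β))
      (fun t => (wit t.1 (t.2.map (toLL (γ := β)))).1) (fun t => (wit _ _).2)
    obtain ⟨β'', h3, h4⟩ := exists_lim (max β β')
    exact ⟨β'', (le_max_left _ _).trans_lt h3, h4, fun φ l =>
      K_sub ((le_max_right _ _).trans h3.le) (h2 (φ, l))⟩
  choose g hg1 hg2 hg3 using hstep
  let s : ℕ → Ordinal.{u} := fun n => g^[n+1] α
  have hs : ∀ n, s (n+1) = g (s n) := fun n => Function.iterate_succ_apply' g (n+1) α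
  have hmono : StrictMono s := strictMono_nat_of_lt_succ fun n => by rw [hs]; exact hg1 _
  let γ : Ordinal.{u} := ⨆ n, s n
  have hle : ∀ n, s n ≤ γ := fun n => Ordinal.le_iSup s n
  have hlt : ∀ n, s n < γ := fun n => (hmono (Nat.lt_succ_self n)).trans_le (hle _)
  have hex : ∀ β < γ, ∃ n, β < s n := fun β hβ => by
    obtain ⟨n, hn⟩ := (Ordinal.lt_iSup_iff).1 hβ
    exact ⟨n, hn⟩
  have hα : α < γ := (hg1 α).trans (hlt 0)
  have hlim : Lim γ := by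
    refine ⟨bot_le.trans_lt hα, fun β hβ => ?_⟩
    obtain ⟨n, hn⟩ := hex β hβ
    exact (Order.succ_le_iff.2 hn).trans_lt (hlt n)
  have hK : ∀ x : ZFSet.{u}, x ∈ K γ → ∃ n, x ∈ K (s n) := by
    intro x hx
    obtain ⟨β, hβ, hx⟩ := mem_K.1 hx
    obtain ⟨n, hn⟩ := hex β hβ
    exact ⟨n, mem_K.2 ⟨β, hn, hx⟩⟩
  refine ⟨γ, hα, hlim, fun φ => ?_⟩
  induction φ with
  | mem i j => intro v; exact Iff.rfl
  | eq i j =>
    intro v
    show v i = v j ↔ toLL (v i) = toLL (v j)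
    exact ⟨fun h => by rw [h], fun h => KK.ext (congrArg LL.val h)⟩
  | fls => intro v; exact Iff.rfl
  | imp φ ψ ih1 ih2 => intro v; exact imp_congr (ih1 v) (ih2 v)
  | all φ ih =>
    intro v
    have hp : ∀ x : KK γ, (fun i => toLL (ZFM.push x v i)) = ZFM.push (toLL x) fun i => toLL (v i) := by
      intro x; funext i; cases i <;> rfl
    constructor
    · intro h
      by_contra hc
      have hc' : ∃ x : LL.{u}, ¬ Sat φ (ZFM.push x fun i => toLL (v i)) := by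
        by_contra h'
        push Not at h'
        exact hc h'
      -- all relevant values are in one level
      have h1 : ∀ i, ∃ n, (v i).1 ∈ K (s n) := fun i => hK _ (v i).2
      choose m hm using h1
      let N := (Finset.range φ.bd).sup m
      have hN : ∀ i < φ.bd, (v i).1 ∈ K (s N) := fun i hi =>
        K_sub (hmono.monotone (Finset.le_sup (f := m) (Finset.mem_range.2 hi))) (hm i)
      have h0 : ∅ ∈ K (s N) := by
        have : ∅ ∈ K (s N) := by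
          have h2 : K (0 : Ordinal.{u}) ∈ K (s N) := K_mem
            ((hg2 _).1.trans_le (le_of_eq (Function.iterate_succ_apply' g N α).symm))
          have h3 : K (0 : Ordinal.{u}) = ∅ := by
            ext x
            rw [mem_K]
            constructor
            · rintro ⟨β, hβ, _⟩; exact absurd hβ (not_lt.2 bot_le)
            · intro h; exact absurd h (ZFSet.notMem_empty _)
          rwa [h3] at h2
        exact this
      let l : List (KK (s N)) := (List.range φ.bd).map fun i =>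
        if h : (v i).1 ∈ K (s N) then ⟨(v i).1, h⟩ else ⟨∅, h0⟩
      have hl : ∀ i < φ.bd, (l.map toLL).getD i ⟨∅, isL_empty⟩ = toLL (v i) := by
        intro i hi
        rw [List.getD_eq_getElem _ _ (by simpa [l] using hi)]
        apply LL.ext
        simp [l, toLL, hN i hi]
      have hcg : ∀ x : LL.{u}, Sat φ (ZFM.push x fun i => (l.map toLL).getD i ⟨∅, isL_empty⟩) ↔
          Sat φ (ZFM.push x fun i => toLL (v i)) := by
        intro x
        refine Fm.sat_congr φ fun i hi => ?_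
        cases i with
        | zero => rfl
        | succ i => exact hl i (by omega)
      have hex' : ∃ x : LL.{u}, ¬ Sat φ (ZFM.push x fun i => (l.map toLL).getD i ⟨∅, isL_empty⟩) := by
        obtain ⟨x, hx⟩ := hc'
        exact ⟨x, fun h => hx ((hcg x).1 h)⟩
      have hw : ¬ Sat φ (ZFM.push (wit φ (l.map toLL)) fun i =>
          (l.map toLL).getD i ⟨∅, isL_empty⟩) := by
        unfold wit
        rw [dif_pos hex']
        exact hex'.choose_spec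
      have hwK : (wit φ (l.map toLL)).1 ∈ K γ := by
        have h5 := hg3 (s N) φ l
        rw [← hs] at h5
        exact K_sub (hle _) h5
      have h6 := (ih (ZFM.push ⟨_, hwK⟩ v)).1 (h ⟨_, hwK⟩)
      rw [hp] at h6
      exact hw ((hcg _).2 h6)
    · intro h x
      rw [ih, hp]
      exact h (toLL x)

theorem exists_El_mem {I : Type v} [Small.{u} I] (f : I → LL.{u}) :
    ∃ γ, El γ ∧ ∀ i, (f i).1 ∈ K γ := by
  obtain ⟨α, _, h⟩ := exists_level (fun i => (f i).1) fun i => (f i).2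
  obtain ⟨γ, h1, h2⟩ := exists_El α
  exact ⟨γ, h2, fun i => K_sub h1.le (h i)⟩

theorem LL_sep (φ : Fm) (v : ℕ → LL.{u}) (x : LL.{u}) :
    ∃ y : LL.{u}, ∀ z : LL.{u}, z ∈ y ↔ z ∈ x ∧ Sat φ (ZFM.push z v) := by
  obtain ⟨γ, hγ, h⟩ := exists_El_mem (I := ℕ) (ZFM.push x v)
  let v' : ℕ → KK γ := fun i => ⟨(v i).1, h (i+1)⟩
  obtain ⟨S, hS, h1⟩ := def_subset φ v'
  obtain ⟨β, hβ⟩ := x.2
  have hx : IsL x.1 := x.2
  refine ⟨⟨G 2 x.1 (G 2 x.1 S), isL_G (by norm_num) hx (isL_G (by norm_num) hx hS)⟩, fun z => ?_⟩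
  show z.1 ∈ G 2 x.1 (G 2 x.1 S) ↔ _
  rw [mem_G2, mem_G2, h1]
  have hpv : ∀ hz : z.1 ∈ K γ, (Sat φ (ZFM.push (⟨z.1, hz⟩ : KK γ) v') ↔ Sat φ (ZFM.push z v)) := by
    intro hz
    rw [hγ.2]
    have e : (fun i => toLL (ZFM.push (⟨z.1, hz⟩ : KK γ) v' i)) = ZFM.push z v := by
      funext i; cases i <;> rfl
    rw [e]
  constructor
  · rintro ⟨hz, h2⟩
    refine ⟨hz, ?_⟩
    by_contra hc
    exact h2 ⟨hz, fun ⟨hz', h3⟩ => hc ((hpv hz').1 h3)⟩
  · rintro ⟨hz, h2⟩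
    have hz' : z.1 ∈ K γ := K_trans hγ.1 (h 0) hz
    exact ⟨hz, fun h3 => h3.2 ⟨hz', (hpv hz').2 h2⟩⟩

theorem LL_sep' {P : LL.{u} → Prop} (hP : Dfn Set.univ (fun v => P (v 0))) (x : LL.{u}) :
    ∃ y : LL.{u}, ∀ z : LL.{u}, z ∈ y ↔ z ∈ x ∧ P z := by
  obtain ⟨φ, w, -, hw⟩ := hP.normal x
  obtain ⟨y, hy⟩ := LL_sep φ w x
  exact ⟨y, fun z => by rw [hy, hw]⟩

/-- separation in a level -/
theorem LL_lev (α : Ordinal.{u}) : ∃ k : LL.{u}, k.1 = K α := ⟨⟨K α, isL_K α⟩, rfl⟩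

theorem LL_sat_dfn (φ : Fm) (v : ℕ → LL.{u}) :
    Dfn Set.univ (fun w : ℕ → LL.{u} => Sat φ (ZFM.push (w 0) (ZFM.push (w 1) v))) := by
  refine ⟨φ, fun i => match i with
    | 0 => .inl 0
    | 1 => .inl 1
    | i+2 => .inr (v i), fun _ _ _ => Set.mem_univ _, fun w => ?_⟩
  have e : (ZFM.push (w 0) (ZFM.push (w 1) v)) = fun i => ZFM.slot w (match i with
    | 0 => .inl 0
    | 1 => .inl 1
    | i+2 => .inr (v i) : ℕ ⊕ LL.{u}) := by
    funext i
    match i with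
    | 0 => rfl
    | 1 => rfl
    | i+2 => rfl
  show Sat φ (ZFM.push (w 0) (ZFM.push (w 1) v)) ↔ _
  rw [e]

/-- **The constructible universe satisfies `ZF`.** -/
theorem isZF_LL : IsZF LL.{u} where
  extensionality x y h := by
    apply LL.ext
    ext z
    constructor
    · intro hz; exact (h ⟨z, x.2.trans hz⟩).1 hz
    · intro hz; exact (h ⟨z, y.2.trans hz⟩).2 hz
  foundation x hx := by
    obtain ⟨y, hy⟩ := hx
    obtain ⟨z, hz, hz'⟩ := ZFSet.regularity x.1 (by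
      intro h
      have : y.1 ∈ x.1 := hy
      rw [h] at this
      exact ZFSet.notMem_empty _ this)
    refine ⟨⟨z, x.2.trans hz⟩, hz, fun w hw hwx => ?_⟩
    have : w.1 ∈ x.1 ∩ z := ZFSet.mem_inter.2 ⟨hwx, hw⟩
    rw [hz'] at this
    exact ZFSet.notMem_empty _ this
  pairing x y := ⟨⟨{x.1, y.1}, isL_upair x.2 y.2⟩, fun z => by
    show z.1 ∈ ({x.1, y.1} : ZFSet.{u}) ↔ _
    rw [ZFSet.mem_pair]
    exact or_congr LL.ext_iff.symm LL.ext_iff.symm⟩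
  union x := by
    obtain ⟨γ, hγ, h⟩ := exists_El_mem (I := Unit) (fun _ => x)
    obtain ⟨y, hy⟩ := LL_sep' (P := fun z => ∃ y, y ∈ x ∧ z ∈ y) (by
      apply_rules [Dfn.ex, Dfn.and, Dfn.mem, DT.var, DT.const, Set.mem_univ]) ⟨K γ, isL_K γ⟩
    refine ⟨y, fun z => ?_⟩
    rw [hy]
    refine ⟨fun h => h.2, fun h' => ⟨?_, h'⟩⟩
    obtain ⟨w, hw, hz⟩ := h'
    exact K_trans hγ.1 (K_trans hγ.1 (h ()) hw) hz
  powerset x := by
    have hsm : Small.{u} {y : ZFSet.{u} // y ∈ ZFSet.powerset x.1 ∧ IsL y} :=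
      small_of_injective (β := {y : ZFSet.{u} // y ∈ ZFSet.powerset x.1})
        (f := fun y => ⟨y.1, y.2.1⟩) fun a b h => Subtype.ext (show a.1 = b.1 from
          congrArg (fun t : {y : ZFSet.{u} // y ∈ ZFSet.powerset x.1} => t.1) h)
    obtain ⟨α, hl, h⟩ := exists_level (I := {y : ZFSet.{u} // y ∈ ZFSet.powerset x.1 ∧ IsL y})
      (fun y => y.1) (fun y => y.2.2)
    obtain ⟨y, hy⟩ := LL_sep' (P := fun z => ∀ w, w ∈ z → w ∈ x) (by
      apply_rules [Dfn.all, Dfn.imp, Dfn.mem, DT.var, DT.const, Set.mem_univ]) ⟨K α, isL_K α⟩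
    refine ⟨y, fun z => ?_⟩
    rw [hy]
    refine ⟨fun h => h.2, fun h' => ⟨?_, h'⟩⟩
    refine h ⟨z.1, ZFSet.mem_powerset.2 fun w hw => ?_, z.2⟩
    exact h' ⟨w, z.2.trans hw⟩ hw
  infinity := by
    obtain ⟨γ, _, hγ⟩ := exists_El 0
    obtain ⟨β, hβ, hβl⟩ := exists_lim (0 : Ordinal.{u})
    have h0 : (∅ : ZFSet.{u}) ∈ K γ := by
      have h2 : K (0 : Ordinal.{u}) ∈ K γ := K_mem hγ.1.1
      have h3 : K (0 : Ordinal.{u}) = ∅ := by
        ext x
        rw [mem_K]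
        constructor
        · rintro ⟨β, hβ, _⟩; exact absurd hβ (not_lt.2 bot_le)
        · intro h; exact absurd h (ZFSet.notMem_empty _)
      rwa [h3] at h2
    refine ⟨⟨K γ, isL_K γ⟩, ⟨⟨∅, isL_empty⟩, h0, fun z hz => ZFSet.notMem_empty _ hz⟩, fun x hx => ?_⟩
    -- `x ∪ {x}` exists in `L` and by elementarity in `K γ`
    have hs : ∃ s : LL.{u}, ∀ z : LL.{u}, z ∈ s ↔ z ∈ x ∨ z = x := by
      obtain ⟨y, hy⟩ := LL_sep' (P := fun z => z ∈ x ∨ z = x) (by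
        apply_rules [Dfn.or, Dfn.mem, Dfn.eq, DT.var, DT.const, Set.mem_univ]) ⟨K γ, isL_K γ⟩
      refine ⟨y, fun z => ?_⟩
      rw [hy]
      refine ⟨fun h => h.2, fun h => ⟨?_, h⟩⟩
      rcases h with h | h
      · exact K_trans hγ.1 hx h
      · rw [h]; exact hx
    -- direct argument
    have hel : ∀ s : LL.{u}, (∀ z : LL.{u}, z ∈ s ↔ z ∈ x ∨ z = x) → s.1 ∈ K γ := by
      intro s hs'
      let χ : Fm := .all (.imp (.all (.imp (.imp (.imp (.mem 0 1) (.imp (.imp (.mem 0 2) .fls) (.eq 0 2)))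
        (.imp (.imp (.imp (.imp (.mem 0 2) .fls) (.eq 0 2)) (.mem 0 1)) .fls)) .fls)) .fls)
      have hχ : ∀ {M : Type (u+1)} [Membership M M] (a : M), Sat χ (fun _ => a) ↔
          ¬ ∃ s : M, ∀ z : M, z ∈ s ↔ z ∈ a ∨ z = a := by
        intro M _ a
        show (∀ s, (∀ z, ((((z ∈ s) → ((z ∈ a) → False) → (z = a)) →
          ((((z ∈ a) → False) → (z = a)) → (z ∈ s)) → False) → False)) → False) ↔ _
        rw [not_exists]
        refine forall_congr' fun s => not_congr (forall_congr' fun z => ?_)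
        tauto
      have h1 : ¬ Sat χ (fun _ => x) := fun h => (hχ x).1 h ⟨s, hs'⟩
      have h2 : ¬ Sat χ (fun _ => (⟨x.1, hx⟩ : KK γ)) := fun h => h1 ((hγ.2 χ _).1 h)
      rw [hχ, not_not] at h2
      obtain ⟨t, ht⟩ := h2
      have : t.1 = s.1 := by
        ext z
        constructor
        · intro hz
          have := (ht ⟨z, K_trans hγ.1 t.2 hz⟩).1 hz
          refine (hs' ⟨z, γ, K_trans hγ.1 t.2 hz⟩).2 (this.imp id fun h => ?_)
          exact LL.ext (congrArg KK.val h)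
        · intro hz
          have h4 := (hs' ⟨z, s.2.trans hz⟩).1 hz
          have hzK : z ∈ K γ := by
            rcases h4 with h4 | h4
            · exact K_trans hγ.1 hx h4
            · rw [show z = x.1 from congrArg LL.val h4]; exact hx
          refine (ht ⟨z, hzK⟩).2 (h4.imp id fun h => ?_)
          exact KK.ext (congrArg LL.val h)
      rw [← this]; exact t.2
    obtain ⟨s, hs⟩ := hs
    exact ⟨s, hel s hs, hs⟩
  separation := LL_sep
  replacement φ v x h := by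
    choose f hf using fun z : {z : LL.{u} // z ∈ x} => (h z.1 z.2).exists
    have hsm : Small.{u} {z : LL.{u} // z ∈ x} := by
      refine small_of_injective (β := {z : ZFSet.{u} // z ∈ x.1})
        (f := fun z => ⟨z.1.1, z.2⟩) fun a b hab => ?_
      exact Subtype.ext (LL.ext (congrArg Subtype.val hab))
    obtain ⟨γ, hγ, h1⟩ := exists_El_mem f
    obtain ⟨y, hy⟩ := LL_sep' (P := fun w => ∃ z, z ∈ x ∧ Sat φ (ZFM.push w (ZFM.push z v))) (by
      apply Dfn.ex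
      apply Dfn.and
      · apply_rules [Dfn.mem, DT.var, DT.const, Set.mem_univ]
      · exact Dfn.subst (t := fun i w => match i with
          | 0 => w 1
          | _ => w 0) (LL_sat_dfn φ v) (fun i => by
            match i with
            | 0 => exact DT.var 1
            | i+1 => exact DT.var 0)) ⟨K γ, isL_K γ⟩
    refine ⟨y, fun w => ?_⟩
    rw [hy]
    refine ⟨fun h => h.2, fun h' => ⟨?_, h'⟩⟩
    obtain ⟨z, hz, hw⟩ := h'
    have : w = f ⟨z, hz⟩ := (h z hz).unique hw (hf ⟨z, hz⟩)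
    rw [this]
    exact h1 ⟨z, hz⟩

end Pool.Agent.DQ1
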