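import Pool.Agent.DQ1.Lev3
import Pool.Agent.DQ1.Inner

/-! # The constructible universe is contained in `C(Δ(𝓛))` -/

namespace Pool.Agent.DQ1

open Cardinal Ordinal
open ZFM (Fm Sat Dfn DT IsZF)

universe u v w

attribute [local instance] subMem

namespace LSub

variable {𝓛 : QFm → Prop}

/-- inclusion of a level in the class -/
def inj {γ : Ordinal.{u}} (x : {z : ZFSet.{u} // z ∈ level 𝓛 γ}) : MT (CD.{u} 𝓛) := ⟨x.1, γ, x.2⟩

/-- elementary levels -/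
def El (𝓛 : QFm → Prop) (γ : Ordinal.{u}) : Prop := Order.IsSuccLimit γ ∧
  ∀ (φ : Fm) (v : ℕ → {z : ZFSet.{u} // z ∈ level 𝓛 γ}), Sat φ v ↔ Sat φ fun i => inj (v i)

theorem empty_mem (h𝓛 : ∀ φ, φ.NoW → 𝓛 φ) {γ : Ordinal.{u}} (h : 0 < γ) :
    (∅ : ZFSet.{u}) ∈ level 𝓛 γ := by
  have h1 := ord_level h𝓛 (0 : Ordinal.{u})
  rw [Ordinal.toZFSet_zero] at h1
  exact (level_props h𝓛 γ).1 _ (Order.succ_le_of_lt h) h1

theorem empty_mem' (h𝓛 : ∀ φ, φ.NoW → 𝓛 φ) : (∅ : ZFSet.{u}) ∈ CD.{u} 𝓛 :=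
  ⟨1, empty_mem h𝓛 one_pos⟩

theorem exists_lv (h𝓛 : ∀ φ, φ.NoW → 𝓛 φ) {I : Type v} [Small.{u} I] (f : I → ZFSet.{u})
    (hf : ∀ i, f i ∈ CD.{u} 𝓛) : ∃ α, Order.IsSuccLimit α ∧ ∀ i, f i ∈ level 𝓛 α := by
  choose g hg using hf
  let s : Shrink.{u} I → Ordinal.{u} := fun i => g ((equivShrink I).symm i)
  refine ⟨(⨆ i, s i) + ω, isSuccLimit_add _ isSuccLimit_omega0, fun i => ?_⟩
  refine (level_props h𝓛 _).1 _ ?_ (hg i)
  have h1 : s (equivShrink I i) ≤ ⨆ i, s i := Ordinal.le_iSup s _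
  refine le_trans ?_ (h1.trans le_self_add)
  show g i ≤ g ((equivShrink I).symm (equivShrink I i))
  rw [Equiv.symm_apply_apply]

open Classical in
/-- witness function -/
noncomputable def wit (h𝓛 : ∀ φ, φ.NoW → 𝓛 φ) (φ : Fm) (l : List (MT (CD.{u} 𝓛))) :
    MT (CD.{u} 𝓛) :=
  if h : ∃ x : MT (CD.{u} 𝓛), ¬ Sat φ (ZFM.push x fun i => l.getD i ⟨∅, empty_mem' h𝓛⟩) then h.choose
  else ⟨∅, empty_mem' h𝓛⟩

theorem exists_El (h𝓛 : ∀ φ, φ.NoW → 𝓛 φ) (α : Ordinal.{u}) : ∃ γ, α < γ ∧ El 𝓛 γ := by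
  classical
  have hstep : ∀ β : Ordinal.{u}, ∃ β', β < β' ∧
      ∀ (φ : Fm) (l : List {z : ZFSet.{u} // z ∈ level 𝓛 β}),
        (wit h𝓛 φ (l.map inj)).1 ∈ level 𝓛 β' := by
    intro β
    obtain ⟨β', _, h2⟩ := exists_lv h𝓛 (I := Fm × List {z : ZFSet.{u} // z ∈ level 𝓛 β})
      (fun t => (wit h𝓛 t.1 (t.2.map inj)).1) (fun t => (wit h𝓛 _ _).2)
    exact ⟨max (Order.succ β) β', (Order.lt_succ β).trans_le (le_max_left _ _), fun φ l =>
      (level_props h𝓛 _).1 _ (le_max_right _ _) (h2 (φ, l))⟩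
  choose g hg1 hg3 using hstep
  let s : ℕ → Ordinal.{u} := fun n => g^[n+1] α
  have hs : ∀ n, s (n+1) = g (s n) := fun n => Function.iterate_succ_apply' g (n+1) α
  have hmono : StrictMono s := strictMono_nat_of_lt_succ fun n => by rw [hs]; exact hg1 _
  let γ : Ordinal.{u} := ⨆ n, s n
  have hle : ∀ n, s n ≤ γ := fun n => Ordinal.le_iSup s n
  have hlt : ∀ n, s n < γ := fun n => (hmono (Nat.lt_succ_self n)).trans_le (hle _)
  have hex : ∀ β < γ, ∃ n, β < s n := fun β hβ => by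
    obtain ⟨n, hn⟩ := (Ordinal.lt_iSup_iff).1 hβ
    exact ⟨n, hn⟩
  have hα : α < γ := (hg1 α).trans (hlt 0)
  have h0 : ∀ n, 0 < s n := fun n => by
    have h1 : α < s 0 := hg1 α
    exact (bot_le.trans_lt h1).trans_le (hmono.monotone (Nat.zero_le n))
  have hlim : Order.IsSuccLimit γ := by
    rw [Ordinal.isSuccLimit_iff, Order.isSuccPrelimit_iff_succ_lt]
    refine ⟨(bot_le.trans_lt hα).ne', fun β hβ => ?_⟩
    obtain ⟨n, hn⟩ := hex β hβ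
    exact (Order.succ_le_iff.2 hn).trans_lt (hlt n)
  have hK : ∀ x : ZFSet.{u}, x ∈ level 𝓛 γ → ∃ n, x ∈ level 𝓛 (s n) := by
    intro x hx
    obtain ⟨β, hβ, hx⟩ := (mem_level_limit hlim).1 hx
    obtain ⟨n, hn⟩ := hex β hβ
    exact ⟨n, (level_props h𝓛 _).1 _ hn.le hx⟩
  refine ⟨γ, hα, hlim, fun φ => ?_⟩
  induction φ with
  | mem i j => intro v; exact Iff.rfl
  | eq i j =>
    intro v
    show v i = v j ↔ inj (v i) = inj (v j)
    exact ⟨fun h => by rw [h], fun h => Subtype.ext (congrArg MT.val h)⟩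
  | fls => intro v; exact Iff.rfl
  | imp φ ψ ih1 ih2 => intro v; exact imp_congr (ih1 v) (ih2 v)
  | all φ ih =>
    intro v
    have hp : ∀ x : {z : ZFSet.{u} // z ∈ level 𝓛 γ}, (fun i => inj (ZFM.push x v i)) =
        ZFM.push (inj x) fun i => inj (v i) := by
      intro x; funext i; cases i <;> rfl
    constructor
    · intro h
      by_contra hc
      have hc' : ∃ x : MT (CD.{u} 𝓛), ¬ Sat φ (ZFM.push x fun i => inj (v i)) := by
        by_contra h'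
        push Not at h'
        exact hc h'
      -- all relevant values are in one level
      have h1 : ∀ i, ∃ n, (v i).1 ∈ level 𝓛 (s n) := fun i => hK _ (v i).2
      choose m hm using h1
      let N := (Finset.range φ.bd).sup m
      have hN : ∀ i < φ.bd, (v i).1 ∈ level 𝓛 (s N) := fun i hi =>
        (level_props h𝓛 _).1 _ (hmono.monotone (Finset.le_sup (f := m) (Finset.mem_range.2 hi))) (hm i)
      let l : List {z : ZFSet.{u} // z ∈ level 𝓛 (s N)} := (List.range φ.bd).map fun i =>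
        if h : (v i).1 ∈ level 𝓛 (s N) then ⟨(v i).1, h⟩ else ⟨∅, empty_mem h𝓛 (h0 N)⟩
      have hl : ∀ i < φ.bd, (l.map inj).getD i ⟨∅, empty_mem' h𝓛⟩ = inj (v i) := by
        intro i hi
        rw [List.getD_eq_getElem _ _ (by simpa [l] using hi)]
        apply MT.ext
        simp [l, inj, hN i hi]
      have hcg : ∀ x : MT (CD.{u} 𝓛), Sat φ (ZFM.push x fun i =>
          (l.map inj).getD i ⟨∅, empty_mem' h𝓛⟩) ↔ Sat φ (ZFM.push x fun i => inj (v i)) := by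
        intro x
        refine Fm.sat_congr φ fun i hi => ?_
        cases i with
        | zero => rfl
        | succ i => exact hl i (by omega)
      have hex' : ∃ x : MT (CD.{u} 𝓛), ¬ Sat φ (ZFM.push x fun i =>
          (l.map inj).getD i ⟨∅, empty_mem' h𝓛⟩) := by
        obtain ⟨x, hx⟩ := hc'
        exact ⟨x, fun h => hx ((hcg x).1 h)⟩
      have hw : ¬ Sat φ (ZFM.push (wit h𝓛 φ (l.map inj)) fun i =>
          (l.map inj).getD i ⟨∅, empty_mem' h𝓛⟩) := by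
        unfold wit
        rw [dif_pos hex']
        exact hex'.choose_spec
      have hwK : (wit h𝓛 φ (l.map inj)).1 ∈ level 𝓛 γ := by
        have h5 := hg3 (s N) φ l
        rw [← hs] at h5
        exact (level_props h𝓛 _).1 _ (hle _) h5
      have h6 := (ih (ZFM.push ⟨_, hwK⟩ v)).1 (h ⟨_, hwK⟩)
      rw [hp] at h6
      exact hw ((hcg _).2 h6)
    · intro h x
      rw [ih, hp]
      exact h (inj x)

theorem exists_El_mem (h𝓛 : ∀ φ, φ.NoW → 𝓛 φ) {I : Type v} [Small.{u} I] (f : I → ZFSet.{u})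
    (hf : ∀ i, f i ∈ CD.{u} 𝓛) : ∃ γ, El 𝓛 γ ∧ ∀ i, f i ∈ level 𝓛 γ := by
  obtain ⟨α, _, h⟩ := exists_lv h𝓛 f hf
  obtain ⟨γ, h1, h2⟩ := exists_El h𝓛 α
  exact ⟨γ, h2, fun i => (level_props h𝓛 _).1 _ h1.le (h i)⟩

theorem tr (h𝓛 : ∀ φ, φ.NoW → 𝓛 φ) {a b : ZFSet.{u}} (ha : a ∈ CD.{u} 𝓛) (hb : b ∈ a) :
    b ∈ CD.{u} 𝓛 := by
  obtain ⟨γ, hγ⟩ := ha
  exact ⟨γ, (level_props h𝓛 γ).2 a hγ b hb⟩

/-- definable subsets of levels -/
theorem def_mem (h𝓛 : ∀ φ, φ.NoW → 𝓛 φ) {γ : Ordinal.{u}}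
    {P : {z : ZFSet.{u} // z ∈ level 𝓛 γ} → Prop} (hP : Dfn Set.univ (fun v => P (v 0))) :
    ∃ y : MT (CD.{u} 𝓛), ∀ z : MT (CD.{u} 𝓛), z ∈ y ↔ ∃ h : z.1 ∈ level 𝓛 γ, P ⟨z.1, h⟩ := by
  classical
  let y : ZFSet.{u} := ZFSet.sep (fun z => ∃ h : z ∈ level 𝓛 γ, P ⟨z, h⟩) (level 𝓛 γ)
  have hy : y ∈ level 𝓛 (Order.succ γ) := fo_level h𝓛 hP ZFSet.sep_subset fun z => by
    rw [ZFSet.mem_sep]
    exact ⟨fun ⟨_, _, h⟩ => h, fun h => ⟨z.2, z.2, h⟩⟩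
  refine ⟨⟨y, _, hy⟩, fun z => ?_⟩
  show z.1 ∈ y ↔ _
  rw [ZFSet.mem_sep]
  exact ⟨fun h => h.2, fun ⟨h1, h2⟩ => ⟨h1, h1, h2⟩⟩

theorem sat_dfn {X : Type v} [Membership X X] (φ : Fm) (v : ℕ → X) :
    Dfn Set.univ (fun w : ℕ → X => Sat φ (ZFM.push (w 0) (ZFM.push (w 1) v))) := by
  refine ⟨φ, fun i => match i with
    | 0 => .inl 0
    | 1 => .inl 1
    | i+2 => .inr (v i), fun _ _ _ => Set.mem_univ _, fun w => ?_⟩
  have e : (ZFM.push (w 0) (ZFM.push (w 1) v)) = fun i => ZFM.slot w (match i with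
    | 0 => .inl 0
    | 1 => .inl 1
    | i+2 => .inr (v i) : ℕ ⊕ X) := by
    funext i
    match i with
    | 0 => rfl
    | 1 => rfl
    | i+2 => rfl
  show Sat φ (ZFM.push (w 0) (ZFM.push (w 1) v)) ↔ _
  rw [e]

theorem sat_dfn1 {X : Type v} [Membership X X] (φ : Fm) (v : ℕ → X) :
    Dfn Set.univ (fun w : ℕ → X => Sat φ (ZFM.push (w 0) v)) := by
  refine ⟨φ, fun i => match i with
    | 0 => .inl 0
    | i+1 => .inr (v i), fun _ _ _ => Set.mem_univ _, fun w => ?_⟩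
  have e : ZFM.push (w 0) v = fun i => ZFM.slot w (match i with
    | 0 => .inl 0
    | i+1 => .inr (v i) : ℕ ⊕ X) := by
    funext i
    match i with
    | 0 => rfl
    | i+1 => rfl
  show Sat φ (ZFM.push (w 0) v) ↔ _
  rw [e]

/-- **`C(Δ(𝓛))` satisfies `ZF`.** -/
theorem isZF (h𝓛 : ∀ φ, φ.NoW → 𝓛 φ) : IsZF (MT (CD.{u} 𝓛)) where
  extensionality x y h := by
    apply MT.ext
    ext z
    constructor
    · intro hz; exact (h ⟨z, tr h𝓛 x.2 hz⟩).1 hz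
    · intro hz; exact (h ⟨z, tr h𝓛 y.2 hz⟩).2 hz
  foundation x hx := by
    obtain ⟨y, hy⟩ := hx
    obtain ⟨z, hz, hz'⟩ := ZFSet.regularity x.1 (by
      intro h
      have : y.1 ∈ x.1 := hy
      rw [h] at this
      exact ZFSet.notMem_empty _ this)
    refine ⟨⟨z, tr h𝓛 x.2 hz⟩, hz, fun w hw hwx => ?_⟩
    have : w.1 ∈ x.1 ∩ z := ZFSet.mem_inter.2 ⟨hwx, hw⟩
    rw [hz'] at this
    exact ZFSet.notMem_empty _ this
  pairing x y := by
    obtain ⟨γ, _, h⟩ := exists_lv h𝓛 (I := Bool) (fun b => if b then x.1 else y.1) (fun b => by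
      cases b
      · exact y.2
      · exact x.2)
    have hx : x.1 ∈ level 𝓛 γ := h true
    have hy : y.1 ∈ level 𝓛 γ := h false
    obtain ⟨p, hp⟩ := def_mem h𝓛 (γ := γ) (P := fun z => z = ⟨x.1, hx⟩ ∨ z = ⟨y.1, hy⟩) (by
      apply_rules [Dfn.or, Dfn.eq, DT.var, DT.const, Set.mem_univ])
    refine ⟨p, fun z => ?_⟩
    rw [hp]
    constructor
    · rintro ⟨_, h | h⟩
      · exact Or.inl (MT.ext (congrArg (fun t : {z : ZFSet.{u} // z ∈ level 𝓛 γ} => t.1) h))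
      · exact Or.inr (MT.ext (congrArg (fun t : {z : ZFSet.{u} // z ∈ level 𝓛 γ} => t.1) h))
    · rintro (h | h)
      · subst h; exact ⟨hx, Or.inl rfl⟩
      · subst h; exact ⟨hy, Or.inr rfl⟩
  union x := by
    obtain ⟨γ, hx⟩ := x.2
    obtain ⟨p, hp⟩ := def_mem h𝓛 (γ := γ) (P := fun z => ∃ y, y ∈ (⟨x.1, hx⟩ :
      {z : ZFSet.{u} // z ∈ level 𝓛 γ}) ∧ z ∈ y) (by
      apply_rules [Dfn.ex, Dfn.and, Dfn.mem, DT.var, DT.const, Set.mem_univ])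
    refine ⟨p, fun z => ?_⟩
    rw [hp]
    constructor
    · rintro ⟨_, y, h1, h2⟩
      exact ⟨inj y, h1, h2⟩
    · rintro ⟨y, h1, h2⟩
      have hy := (level_props h𝓛 γ).2 _ hx _ h1
      exact ⟨(level_props h𝓛 γ).2 _ hy _ h2, ⟨y.1, hy⟩, h1, h2⟩
  powerset x := by
    have hsm : Small.{u} {y : ZFSet.{u} // y ∈ ZFSet.powerset x.1 ∧ y ∈ CD.{u} 𝓛} :=
      small_of_injective (β := {y : ZFSet.{u} // y ∈ ZFSet.powerset x.1})
        (f := fun y => ⟨y.1, y.2.1⟩) fun a b h => Subtype.ext (show a.1 = b.1 from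
          congrArg (fun t : {y : ZFSet.{u} // y ∈ ZFSet.powerset x.1} => t.1) h)
    obtain ⟨α, _, h⟩ := exists_lv h𝓛 (I := {y : ZFSet.{u} // y ∈ ZFSet.powerset x.1 ∧
      y ∈ CD.{u} 𝓛}) (fun y => y.1) (fun y => y.2.2)
    have hx : x.1 ∈ level 𝓛 α := h ⟨x.1, ZFSet.mem_powerset.2 fun _ h => h, x.2⟩
    obtain ⟨p, hp⟩ := def_mem h𝓛 (γ := α) (P := fun z => ∀ w, w ∈ z → w ∈ (⟨x.1, hx⟩ :
      {z : ZFSet.{u} // z ∈ level 𝓛 α})) (by
      apply_rules [Dfn.all, Dfn.imp, Dfn.mem, DT.var, DT.const, Set.mem_univ])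
    refine ⟨p, fun y => ?_⟩
    rw [hp]
    constructor
    · rintro ⟨hy, h1⟩ z hz
      exact h1 ⟨z.1, (level_props h𝓛 α).2 _ hy _ hz⟩ hz
    · intro h1
      have h2 : y.1 ∈ ZFSet.powerset x.1 := ZFSet.mem_powerset.2 fun z hz =>
        h1 ⟨z, tr h𝓛 y.2 hz⟩ hz
      exact ⟨h ⟨y.1, h2, y.2⟩, fun w hw => h1 (inj w) hw⟩
  infinity := by
    have hw : ∀ α : Ordinal.{u}, α.toZFSet ∈ CD.{u} 𝓛 := fun α => ⟨_, ord_level h𝓛 α⟩
    refine ⟨⟨(ω : Ordinal.{u}).toZFSet, hw ω⟩, ⟨⟨∅, empty_mem' h𝓛⟩, ?_, fun z hz =>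
      ZFSet.notMem_empty _ hz⟩, fun x hx => ?_⟩
    · show (∅ : ZFSet.{u}) ∈ (ω : Ordinal.{u}).toZFSet
      rw [← Ordinal.toZFSet_zero, toZFSet_mem_toZFSet_iff]
      exact omega0_pos
    · obtain ⟨n, hn, hnx⟩ := mem_toZFSet_iff.1 (show x.1 ∈ (ω : Ordinal.{u}).toZFSet from hx)
      refine ⟨⟨(Order.succ n).toZFSet, hw _⟩, ?_, fun z => ?_⟩
      · show (Order.succ n).toZFSet ∈ (ω : Ordinal.{u}).toZFSet
        rw [toZFSet_mem_toZFSet_iff]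
        exact isSuccLimit_omega0.succ_lt hn
      · show z.1 ∈ (Order.succ n).toZFSet ↔ z.1 ∈ x.1 ∨ z = x
        rw [← hnx, mem_toZFSet_iff, mem_toZFSet_iff]
        constructor
        · rintro ⟨m, hm, h1⟩
          rcases (Order.lt_succ_iff.1 hm).lt_or_eq with h | h
          · exact Or.inl ⟨m, h, h1⟩
          · refine Or.inr (MT.ext ?_)
            rw [← h1, h, hnx]
        · rintro (⟨m, hm, h1⟩ | h)
          · exact ⟨m, hm.trans (Order.lt_succ n), h1⟩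
          · exact ⟨n, Order.lt_succ n, by rw [h, hnx]⟩
  separation φ v x := by
    obtain ⟨γ, hγ, h⟩ := exists_El_mem h𝓛 (I := ℕ) (fun i => (ZFM.push x v i).1)
      (fun i => (ZFM.push x v i).2)
    have hx : x.1 ∈ level 𝓛 γ := h 0
    let v' : ℕ → {z : ZFSet.{u} // z ∈ level 𝓛 γ} := fun i => ⟨(v i).1, h (i+1)⟩
    obtain ⟨y, hy⟩ := def_mem h𝓛 (γ := γ) (P := fun z => z ∈ (⟨x.1, hx⟩ :
      {z : ZFSet.{u} // z ∈ level 𝓛 γ}) ∧ Sat φ (ZFM.push z v')) (by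
        refine Dfn.and ?_ (sat_dfn1 φ v')
        apply_rules [Dfn.mem, DT.var, DT.const, Set.mem_univ])
    refine ⟨y, fun z => ?_⟩
    rw [hy]
    have hpv : ∀ hz : z.1 ∈ level 𝓛 γ, (Sat φ (ZFM.push (⟨z.1, hz⟩ :
        {z : ZFSet.{u} // z ∈ level 𝓛 γ}) v') ↔ Sat φ (ZFM.push z v)) := by
      intro hz
      rw [hγ.2]
      have e : (fun i => inj (ZFM.push (⟨z.1, hz⟩ : {z : ZFSet.{u} // z ∈ level 𝓛 γ}) v' i)) =
          ZFM.push z v := by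
        funext i; cases i <;> rfl
      rw [e]
    constructor
    · rintro ⟨hz, h1, h2⟩
      exact ⟨h1, (hpv hz).1 h2⟩
    · rintro ⟨h1, h2⟩
      have hz := (level_props h𝓛 γ).2 _ hx _ h1
      exact ⟨hz, h1, (hpv hz).2 h2⟩
  replacement φ v x hx := by
    classical
    have hF : ∀ z : {z : MT (CD.{u} 𝓛) // z ∈ x}, ∃ w : MT (CD.{u} 𝓛),
        Sat φ (ZFM.push w (ZFM.push z.1 v)) := fun z => (hx z.1 z.2).exists
    choose F hF using hF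
    have hsm : Small.{u} {z : MT (CD.{u} 𝓛) // z ∈ x} :=
      small_of_injective (β := {y : ZFSet.{u} // y ∈ x.1}) (f := fun z => ⟨z.1.1, z.2⟩)
        fun a b h => Subtype.ext (MT.ext (congrArg (fun t : {y : ZFSet.{u} // y ∈ x.1} => t.1) h))
    obtain ⟨γ, hγ, h⟩ := exists_El_mem h𝓛 (I := ℕ ⊕ {z : MT (CD.{u} 𝓛) // z ∈ x})
      (Sum.elim (fun i => (ZFM.push x v i).1) fun z => (F z).1) (fun i => by
        cases i with
        | inl i => exact (ZFM.push x v i).2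
        | inr z => exact (F z).2)
    have hxγ : x.1 ∈ level 𝓛 γ := h (Sum.inl 0)
    let v' : ℕ → {z : ZFSet.{u} // z ∈ level 𝓛 γ} := fun i => ⟨(v i).1, h (Sum.inl (i+1))⟩
    obtain ⟨y, hy⟩ := def_mem h𝓛 (γ := γ) (P := fun w => ∃ z, z ∈ (⟨x.1, hxγ⟩ :
      {z : ZFSet.{u} // z ∈ level 𝓛 γ}) ∧ Sat φ (ZFM.push w (ZFM.push z v'))) (by
        refine Dfn.ex (Dfn.and ?_ ?_)
        · apply_rules [Dfn.mem, DT.var, DT.const, Set.mem_univ]
        · exact Dfn.subst (sat_dfn φ v') (t := fun i w => if i = 0 then w 1 else w 0) fun i => by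
            by_cases hi : i = 0
            · simp only [hi, if_true]; exact DT.var 1
            · simp only [hi, if_false]; exact DT.var 0)
    refine ⟨y, fun w => ?_⟩
    rw [hy]
    have hpv : ∀ (hw : w.1 ∈ level 𝓛 γ) (z : {z : ZFSet.{u} // z ∈ level 𝓛 γ}),
        (Sat φ (ZFM.push (⟨w.1, hw⟩ : {z : ZFSet.{u} // z ∈ level 𝓛 γ}) (ZFM.push z v')) ↔
          Sat φ (ZFM.push w (ZFM.push (inj z) v))) := by
      intro hw z
      rw [hγ.2]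
      have e : (fun i => inj (ZFM.push (⟨w.1, hw⟩ : {z : ZFSet.{u} // z ∈ level 𝓛 γ})
          (ZFM.push z v') i)) = ZFM.push w (ZFM.push (inj z) v) := by
        funext i
        match i with
        | 0 => rfl
        | 1 => rfl
        | i+2 => rfl
      rw [e]
    constructor
    · rintro ⟨hw, z, h1, h2⟩
      exact ⟨inj z, h1, (hpv hw z).1 h2⟩
    · rintro ⟨z, h1, h2⟩
      have hw : w = F ⟨z, h1⟩ := (hx z h1).unique h2 (hF ⟨z, h1⟩)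
      have hwγ : w.1 ∈ level 𝓛 γ := by
        rw [hw]; exact h (Sum.inr ⟨z, h1⟩)
      have hz := (level_props h𝓛 γ).2 _ hxγ _ h1
      exact ⟨hwγ, ⟨z.1, hz⟩, h1, (hpv hwγ _).2 h2⟩

end LSub

/-- **The constructible universe is contained in `C(Δ(𝓛))`.** -/
theorem L_sub_CD {𝓛 : QFm → Prop} (h𝓛 : ∀ φ, φ.NoW → 𝓛 φ) :
    ∀ x : ZFSet.{u}, IsL x → x ∈ CD.{u} 𝓛 := by
  intro x hx
  refine (isL_iff_inner x).1 hx (CD.{u} 𝓛) (fun a ha b hb => LSub.tr h𝓛 ha hb)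
    (fun α => ⟨_, ord_level h𝓛 α⟩) ?_
  let _ : Membership (CD.{u} 𝓛) (CD.{u} 𝓛) := ⟨fun b a => a.1 ∈ b.1⟩
  exact isZF_equiv (M := MT (CD.{u} 𝓛)) (N := CD.{u} 𝓛)
    ⟨fun a => ⟨a.1, a.2⟩, fun a => ⟨a.1, a.2⟩, fun _ => rfl, fun _ => rfl⟩
    (fun _ _ => Iff.rfl) (LSub.isZF h𝓛)

/-- the inclusion `M₁ ⊆ M₂` is strict if `M₁ ⊆ L` and `M₂` is not contained in `L` -/
theorem M1_eq_and_ssubset (h1 : ∀ x ∈ M1.{u}, IsL x) (h2 : ¬ ∀ x ∈ M2.{u}, IsL x) :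
    M1.{u} = {x | IsL x} ∧ M1.{u} ⊂ M2.{u} := by
  have h3 : M1.{u} = {x | IsL x} :=
    Set.Subset.antisymm (fun x hx => h1 x hx) fun x hx => L_sub_CD (fun _ h => h) x hx
  refine ⟨h3, fun x hx => L_sub_CD (fun _ _ => trivial) x (h1 x hx), fun h => h2 fun x hx => ?_⟩
  exact h1 x (h hx)

end Pool.Agent.DQ1
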