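import Pool.Agent.DQ1.Nam

/-! # The levels of `C(Δ(L(Q₁)))` are constructible -/

namespace Pool.Agent.DQ1

open Cardinal Ordinal
open ZFM (Fm Sat Dfn DT IsZF)

universe u v w

theorem exp_iff_ZL {C : Set Ordinal.{u}} (hC : Generic C) (hN : NoNewSeq.{u}) {m : ℕ} {φ ψ : QFm}
    (hφ : φ.NoW) (hψ : ψ.NoW) (hδ : IsDelta.{u} m φ ψ) {x : LL.{u}} {c : ℕ → LL.{u}}
    (hc : ∀ k < m, c k ∈ x) : Exp.{u} φ (fun a b : {z : LL.{u} // z ∈ x} => a.1 ∈ b.1)
      (fun k : Fin m => ⟨c k, hc k k.2⟩) ↔ ZL φ m x c := by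
  constructor
  · exact exp_ZL hC hN hφ hc
  · intro h
    by_contra hc'
    have h1 : Exp.{u} ψ (fun a b : {z : LL.{u} // z ∈ x} => a.1 ∈ b.1)
        (fun k : Fin m => ⟨c k, hc k k.2⟩) := by
      by_contra h2
      exact hc' ((delta_small hδ _ _).2 h2)
    exact ZL_not_both hC hN hφ hψ hδ hc h (exp_ZL hC hN hψ hc h1)

/-! ### Definability of `ZL` -/

theorem foL_cgr {r d : LL.{u}} (φ : KF) : ∀ {v v' : ℕ → LL.{u}} {p : LL.{u}},
    (∀ i < φ.bd, v i = v' i) → (FoL r d φ v p ↔ FoL r d φ v' p) := by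
  have hpush : ∀ {φ : KF} {v v' : ℕ → LL.{u}}, (∀ i < φ.bd - 1, v i = v' i) → ∀ a : LL.{u},
      ∀ i < φ.bd, push a v i = push a v' i := by
    intro φ v v' h a i hi
    cases i with
    | zero => rfl
    | succ i => exact h i (by omega)
  induction φ with
  | rel i xs =>
    intro v v' p h
    have : xs.map v = xs.map v' := List.map_congr_left fun x hx => h x (KF.lt_bd_rel hx)
    simp only [FoL, this]
  | eq x y =>
    intro v v' p h
    show v x = v y ↔ v' x = v' y
    rw [h x (by simp only [KF.bd]; omega), h y (by simp only [KF.bd]; omega)]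
  | neg φ ih =>
    intro v v' p h
    exact forall_congr' fun q => forall₂_congr fun _ _ => not_congr (ih h)
  | and φ ψ ih1 ih2 =>
    intro v v' p h
    exact and_congr (ih1 fun i hi => h i (by simp only [KF.bd]; omega))
      (ih2 fun i hi => h i (by simp only [KF.bd]; omega))
  | all φ ih =>
    intro v v' p h
    exact forall₂_congr fun a _ => ih (hpush h a)
  | q φ ih =>
    intro v v' p h
    have h1 : ∀ a r, FoL _ d φ (push a v) r ↔ FoL _ d φ (push a v') r := fun a r => ih (hpush h a)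
    simp only [FoL, h1]

theorem DL.ex' {P : (ℕ → LL.{u}) → Prop} (hP : DL P) : DL (fun v => ∃ x, P (ZFM.push x v)) := by
  refine (Dfn.all' hP.not).not.congr fun v => ?_
  push Not
  exact Iff.rfl

theorem DL.exn (N : ℕ) {Q : (ℕ → LL.{u}) → Prop} (hQ : DL Q) :
    DL (fun w => ∃ e : ℕ → LL.{u}, Q (fun i => if i < N then e i else w (i - N))) := by
  induction N with
  | zero =>
    refine hQ.congr fun w => ?_
    exact ⟨fun h => ⟨w, h⟩, fun ⟨_, h⟩ => h⟩
  | succ N ih =>
    refine (DL.ex' ih).congr fun w => ?_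
    constructor
    · rintro ⟨x, e, h⟩
      refine ⟨fun i => if i < N then e i else x, ?_⟩
      have : (fun i => if i < N then e i else ZFM.push x w (i - N)) =
          (fun i => if i < N + 1 then (if i < N then e i else x) else w (i - (N+1))) := by
        funext i
        by_cases h1 : i < N
        · rw [if_pos h1, if_pos (by omega), if_pos h1]
        · rw [if_neg h1]
          by_cases h2 : i < N + 1
          · rw [if_pos h2, if_neg h1, show i - N = 0 by omega]; rfl
          · rw [if_neg h2, show i - N = (i - (N+1)) + 1 by omega]; rfl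
      rw [this] at h
      exact h
    · rintro ⟨e, h⟩
      refine ⟨e N, e, ?_⟩
      have : (fun i => if i < N then e i else ZFM.push (e N) w (i - N)) =
          (fun i => if i < N + 1 then e i else w (i - (N+1))) := by
        funext i
        by_cases h1 : i < N
        · rw [if_pos h1, if_pos (by omega)]
        · rw [if_neg h1]
          by_cases h2 : i < N + 1
          · have : i = N := by omega
            rw [if_pos h2, show i - N = 0 by omega, this]; rfl
          · rw [if_neg h2, show i - N = (i - (N+1)) + 1 by omega]; rfl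
      rw [this]
      exact h

theorem DL.exu' (N : ℕ) {Q : (ℕ → LL.{u}) → Prop} (hQ : DL Q) :
    DL (fun w => ∃ u' : ℕ → LL.{u}, (∀ j, u' (N + j) = w j) ∧ Q u') := by
  refine (DL.exn N hQ).congr fun w => ?_
  constructor
  · rintro ⟨e, h⟩
    refine ⟨_, fun j => ?_, h⟩
    show (if N + j < N then _ else _) = _
    rw [if_neg (by omega)]
    congr 1
    omega
  · rintro ⟨u', h, h'⟩
    refine ⟨u', ?_⟩
    have : (fun i => if i < N then u' i else w (i - N)) = u' := by
      funext i
      by_cases hi : i < N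
      · rw [if_pos hi]
      · rw [if_neg hi, ← h]
        congr 1
        omega
    rw [this]; exact h'

theorem DL.alllt {P : ℕ → (ℕ → LL.{u}) → Prop} (h : ∀ i, DL (P i)) (n : ℕ) :
    DL (fun v => ∀ i < n, P i v) := by
  refine (DL.exlt (fun i => (h i).not) n).not.congr fun v => ?_
  push Not
  exact Iff.rfl

theorem good_iff {x d r : LL.{u}} : Good x d r ↔ (∀ a, a ∈ x → a ∈ d) ∧
  (∀ p, p ∈ PP → ∀ a, a ∈ d → ((∃ w1, IsOp (· ∈ ·) w1 a (lo 0) ∧ ∃ w2,
    IsOp (· ∈ ·) w2 (lo (0 : ℕ)) w1 ∧ ∃ w3, IsOp (· ∈ ·) w3 p w2 ∧ w3 ∈ r) ↔ a ∈ x)) ∧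
  ∀ p, p ∈ PP → ∀ a b, a ∈ x → b ∈ x → ((∃ w1, IsOp (· ∈ ·) w1 b (lo 0) ∧ ∃ w2,
    IsOp (· ∈ ·) w2 a w1 ∧ ∃ w3, IsOp (· ∈ ·) w3 (lo (1 : ℕ)) w2 ∧ ∃ w4,
      IsOp (· ∈ ·) w4 p w3 ∧ w4 ∈ r) ↔ a ∈ b) := by
  simp only [LL.isOp_iff', exists_eq_left]
  exact Iff.rfl

theorem DL.good {x y z : (ℕ → LL.{u}) → LL.{u}} (hx : DT Set.univ x) (hy : DT Set.univ y)
    (hz : DT Set.univ z) : DL (fun v => Good (x v) (y v) (z v)) := by
  refine DL.sub3 (R := fun x y z => Good x y z) ?_ hx hy hz
  simp only [good_iff]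
  apply_rules (maxDepth := 1000) [DL.isOp, Dfn.all, Dfn.ex, Dfn.and, Dfn.iff, Dfn.imp, Dfn.mem,
    DT.var, DL.c]

theorem dl_ZL (φ : QFm) (m : ℕ) : DL (fun w : ℕ → LL.{u} => ZL φ m (w 0) (fun k => w (k+1))) := by
  let N := max m φ.tr.bd + 1
  let Q : (ℕ → LL.{u}) → Prop := fun w => w N ∈ PP ∧ Good (w (N+3)) (w (N+1)) (w (N+2)) ∧
    (∀ i < N, w i ∈ w (N+1)) ∧ (∀ k < m, w k = w (N+4+k)) ∧
    FoL (w (N+2)) (w (N+1)) φ.tr w (w N)
  have hQ : DL Q := by
    refine Dfn.and ?_ (Dfn.and ?_ (Dfn.and ?_ (Dfn.and ?_ ?_)))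
    · exact Dfn.mem (DT.var _) DL.c
    · exact DL.good (DT.var _) (DT.var _) (DT.var _)
    · exact DL.alllt (fun i => Dfn.mem (DT.var _) (DT.var _)) N
    · exact DL.alllt (fun i => Dfn.eq (DT.var _) (DT.var _)) m
    · exact Dfn.subst (t := fun i w => match i with
        | 0 => w N
        | 1 => w (N+2)
        | 2 => w (N+1)
        | i+3 => w i) (dl_foL φ.tr) (fun i => by
          match i with
          | 0 => exact DT.var _
          | 1 => exact DT.var _
          | 2 => exact DT.var _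
          | i+3 => exact DT.var _)
  refine (DL.exu' (N+3) hQ).congr fun w => ?_
  constructor
  · rintro ⟨e, hw, hq, hg, h1, h2, h3⟩
    have hw0 : e (N+3) = w 0 := hw 0
    rw [hw0] at hg
    refine ⟨e N, hq, e (N+1), e (N+2), hg, fun i => if i < N then e i else e 0, fun i => ?_,
      fun k hk => ?_, ?_⟩
    · dsimp only
      split_ifs with hi
      · exact h1 i hi
      · exact h1 0 (by omega)
    · dsimp only
      rw [if_pos (show k < N by omega), h2 k hk, ← hw]
      congr 1
      omega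
    · refine (foL_cgr _ fun i hi => ?_).2 h3
      exact if_pos (show i < N by omega)
  · rintro ⟨q, hq, d, r, hg, v, h1, h2, h3⟩
    let e : ℕ → LL.{u} := fun i => if i < N then v i else if i = N then q else if i = N + 1 then d
      else if i = N + 2 then r else w (i - (N+3))
    have e0 : ∀ i, i < N → e i = v i := fun i hi => if_pos hi
    have eN : e N = q := by
      show (if N < N then _ else if N = N then q else _) = q
      rw [if_neg (by omega), if_pos rfl]
    have eN1 : e (N+1) = d := by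
      show (if N + 1 < N then _ else if N + 1 = N then _ else if N + 1 = N + 1 then d else _) = d
      rw [if_neg (by omega), if_neg (by omega), if_pos rfl]
    have eN2 : e (N+2) = r := by
      show (if N + 2 < N then _ else if N + 2 = N then _ else if N + 2 = N + 1 then _ else
        if N + 2 = N + 2 then r else _) = r
      rw [if_neg (by omega), if_neg (by omega), if_neg (by omega), if_pos rfl]
    have ew : ∀ j, e (N + 3 + j) = w j := by
      intro j
      show (if N + 3 + j < N then _ else if N + 3 + j = N then _ else if N + 3 + j = N + 1 then _ else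
        if N + 3 + j = N + 2 then _ else w (N + 3 + j - (N + 3))) = _
      rw [if_neg (by omega), if_neg (by omega), if_neg (by omega), if_neg (by omega)]
      congr 1
      omega
    refine ⟨e, ew, ?_⟩
    show e N ∈ PP ∧ Good (e (N+3)) (e (N+1)) (e (N+2)) ∧
      (∀ i < N, e i ∈ e (N+1)) ∧ (∀ k < m, e k = e (N+4+k)) ∧
      FoL (e (N+2)) (e (N+1)) φ.tr e (e N)
    rw [eN, eN1, eN2, show e (N+3) = w 0 from ew 0]
    refine ⟨hq, hg, fun i hi => ?_, fun k hk => ?_, ?_⟩
    · rw [e0 i hi]; exact h1 i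
    · rw [e0 k (by omega), h2 k hk]
      show w (k+1) = _
      rw [← ew]
      congr 1
      omega
    · exact (foL_cgr _ fun i hi => e0 i (by omega)).2 h3

/-! ### Lists -/

/-- the assignment given by a list -/
noncomputable def lst (l : List LL.{u}) : ℕ → LL.{u} := fun i => l.getD i (lo 0)

theorem dl_lcdf (xs : List ℕ) : ∀ (f : ℕ → ℕ) (j : ℕ),
    DL (fun w : ℕ → LL.{u} => w j = lcd (xs.map fun i => w (f i))) := by
  induction xs with
  | nil => intro f j; exact Dfn.eq (DT.var _) DL.c
  | cons x xs ih =>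
    intro f j
    have h1 : DL (fun w : ℕ → LL.{u} => ∃ l', IsOp (· ∈ ·) (w j) (w (f x)) l' ∧
        l' = lcd (xs.map fun i => w (f i))) := by
      apply Dfn.ex
      exact (DL.isOp (DT.var (j+1)) (DT.var (f x + 1)) (DT.var 0)).and (ih (fun i => f i + 1) 0)
    refine h1.congr fun w => ?_
    simp only [LL.isOp_iff']
    constructor
    · rintro ⟨l', h, rfl⟩; exact h
    · intro h; exact ⟨_, h, rfl⟩

/-- `l` codes a list of length `n` of elements of `x` -/
def IsLst (n : ℕ) (x l : LL.{u}) : Prop := ∃ L : List LL.{u}, L.length = n ∧ (∀ a ∈ L, a ∈ x) ∧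
  l = lcd L

/-- the relation to be put in a constructible set -/
def PZ (φ : QFm) (n : ℕ) (x z l : LL.{u}) : Prop := ∃ L : List LL.{u}, L.length = n ∧
  (∀ a ∈ L, a ∈ x) ∧ l = lcd L ∧ ZL φ (n+1) x (lst (z :: L))

theorem zl_cgr {φ : QFm} {m : ℕ} {x : LL.{u}} {c c' : ℕ → LL.{u}} (h : ∀ k < m, c k = c' k) :
    ZL φ m x c ↔ ZL φ m x c' := by
  unfold ZL
  have : ∀ v : ℕ → LL.{u}, (∀ k < m, v k = c k) ↔ ∀ k < m, v k = c' k := fun v =>
    forall₂_congr fun k hk => by rw [h k hk]
  simp only [this]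

theorem lst_eq {n : ℕ} (e : ℕ → LL.{u}) : ∀ i < n, ((List.range n).map e).getD i (lo 0) = e i := by
  intro i hi
  rw [List.getD_eq_getElem _ _ (by simpa using hi)]
  simp

theorem exists_lext (L : List LL.{u}) (w : ℕ → LL.{u}) : ∃ e : ℕ → LL.{u},
    (List.range L.length).map e = L ∧ ∀ j, e (L.length + j) = w j := by
  refine ⟨fun i => if i < L.length then L.getD i (lo 0) else w (i - L.length), ?_, fun j => ?_⟩
  · apply List.ext_getElem
    · simp
    · intro i hi hi'
      simp only [List.getElem_map, List.getElem_range]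
      rw [if_pos hi']
      exact List.getD_eq_getElem _ _ hi'
  · show (if L.length + j < L.length then _ else _) = _
    rw [if_neg (by omega)]
    congr 1
    omega

theorem dl_IsLst (n : ℕ) : DL (fun w : ℕ → LL.{u} => IsLst n (w 0) (w 1)) := by
  have h1 : DL (fun w : ℕ → LL.{u} => (∀ i < n, w i ∈ w n) ∧
      w (n+1) = lcd ((List.range n).map fun i => w i)) :=
    (DL.alllt (fun i => Dfn.mem (DT.var _) (DT.var _)) n).and (dl_lcdf _ (fun i => i) _)
  refine (DL.exu' n h1).congr fun w => ?_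
  constructor
  · rintro ⟨e, hw, h2, h3⟩
    have hw0 : e n = w 0 := hw 0
    have hw1 : e (n+1) = w 1 := hw 1
    refine ⟨(List.range n).map e, by simp, ?_, ?_⟩
    · intro a ha
      obtain ⟨i, hi, rfl⟩ := List.mem_map.1 ha
      have hi' : i < n := by simpa using hi
      rw [← hw0]
      exact h2 i hi'
    · rw [← hw1]; exact h3
  · rintro ⟨L, hL, h2, h3⟩
    obtain ⟨e, he, hw⟩ := exists_lext L w
    rw [hL] at hw
    refine ⟨e, hw, fun i hi => ?_, ?_⟩
    · rw [show e n = w 0 from hw 0]
      refine h2 _ ?_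
      rw [← he]
      exact List.mem_map.2 ⟨i, by simpa [hL] using hi, rfl⟩
    · rw [show e (n+1) = w 1 from hw 1, h3, ← hL]
      exact congrArg lcd he.symm

theorem dl_PZ (φ : QFm) (n : ℕ) : DL (fun w : ℕ → LL.{u} => PZ φ n (w 0) (w 1) (w 2)) := by
  have h0 : DL (fun w : ℕ → LL.{u} => ZL φ (n+1) (w n) (fun k => if k = 0 then w (n+1) else w (k-1))) := by
    refine (Dfn.subst (t := fun i w => match i with
      | 0 => w n
      | 1 => w (n+1)
      | i+2 => w i) (dl_ZL φ (n+1)) (fun i => by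
        match i with
        | 0 => exact DT.var _
        | 1 => exact DT.var _
        | i+2 => exact DT.var _)).congr fun w => ?_
    refine zl_cgr fun k _ => ?_
    cases k with
    | zero => rfl
    | succ k => rfl
  have h1 : DL (fun w : ℕ → LL.{u} => (∀ i < n, w i ∈ w n) ∧
      w (n+2) = lcd ((List.range n).map fun i => w i) ∧
      ZL φ (n+1) (w n) (fun k => if k = 0 then w (n+1) else w (k-1))) :=
    (DL.alllt (fun i => Dfn.mem (DT.var _) (DT.var _)) n).and ((dl_lcdf _ (fun i => i) _).and h0)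
  refine (DL.exu' n h1).congr fun w => ?_
  constructor
  · rintro ⟨e, hw, h2, h3, h4⟩
    have hw0 : e n = w 0 := hw 0
    have hw1 : e (n+1) = w 1 := hw 1
    have hw2 : e (n+2) = w 2 := hw 2
    refine ⟨(List.range n).map e, by simp, ?_, ?_, ?_⟩
    · intro a ha
      obtain ⟨i, hi, rfl⟩ := List.mem_map.1 ha
      have hi' : i < n := by simpa using hi
      rw [← hw0]
      exact h2 i hi'
    · rw [← hw2]; exact h3
    · rw [← hw0]
      refine (zl_cgr fun k hk => ?_).1 h4
      cases k with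
      | zero => exact hw1
      | succ k =>
        show (if k + 1 = 0 then _ else e (k + 1 - 1)) = ((List.range n).map e).getD k (lo 0)
        rw [if_neg (by omega), lst_eq e k (by omega)]
        rfl
  · rintro ⟨L, hL, h2, h3, h4⟩
    obtain ⟨e, he, hw⟩ := exists_lext L w
    rw [hL] at hw
    refine ⟨e, hw, fun i hi => ?_, ?_, ?_⟩
    · rw [show e n = w 0 from hw 0]
      refine h2 _ ?_
      rw [← he]
      exact List.mem_map.2 ⟨i, by simpa [hL] using hi, rfl⟩
    · rw [show e (n+2) = w 2 from hw 2, h3, ← hL]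
      exact congrArg lcd he.symm
    · rw [show e n = w 0 from hw 0]
      refine (zl_cgr fun k hk => ?_).1 h4
      cases k with
      | zero => exact (hw 1).symm
      | succ k =>
        show L.getD k (lo 0) = (if k + 1 = 0 then _ else e (k + 1 - 1))
        rw [if_neg (by omega), show k + 1 - 1 = k by omega, ← lst_eq e k (show k < n by omega), ← hL, he]

end Pool.Agent.DQ1
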