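import Pool.Agent.DQ1.Lev

/-! # `M₁` is contained in the constructible universe -/

namespace Pool.Agent.DQ1

open Cardinal Ordinal
open ZFM (Fm Sat Dfn DT IsZF)

universe u v w

deriving instance Encodable for QFm

/-! ### Definability over a level -/

/-- the two descriptions of the elements of `x` -/
def elEquiv (x : LL.{u}) : {z : ZFSet.{u} // z ∈ x.1} ≃ {z : LL.{u} // z ∈ x} where
  toFun z := ⟨⟨z.1, x.2.trans z.2⟩, z.2⟩
  invFun z := ⟨z.1.1, z.2⟩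
  left_inv _ := rfl
  right_inv _ := rfl

theorem deltaDef_iff {C : Set Ordinal.{u}} (hC : Generic C) (hN : NoNewSeq.{u}) {x : LL.{u}}
    {y : ZFSet.{u}} : DeltaDef QFm.NoW x.1 y ↔ y ⊆ x.1 ∧ ∃ (n : ℕ) (φ ψ : QFm), φ.NoW ∧ ψ.NoW ∧
      IsDelta.{u} (n+1) φ ψ ∧ ∃ L : List LL.{u}, L.length = n ∧ (∀ a ∈ L, a ∈ x) ∧
      ∀ z : LL.{u}, z ∈ x → (z.1 ∈ y ↔ ZL φ (n+1) x (lst (z :: L))) := by
  have key : ∀ (n : ℕ) (φ ψ : QFm), φ.NoW → ψ.NoW → IsDelta.{u} (n+1) φ ψ →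
      ∀ (L : List LL.{u}) (hL : L.length = n) (hLx : ∀ a ∈ L, a ∈ x)
      (p : Fin n → {z : ZFSet.{u} // z ∈ x.1}), (∀ k : Fin n, (p k).1 = (lst L k).1) →
      ∀ z : {z : ZFSet.{u} // z ∈ x.1},
        (Exp.{u} φ (fun a b : {z : ZFSet.{u} // z ∈ x.1} => a.1 ∈ b.1)
          (Fin.cons z p : Fin (n+1) → _) ↔ ZL φ (n+1) x (lst ((elEquiv x z).1 :: L))) := by
    intro n φ ψ hφ hψ hδ L hL hLx p hp z
    have hc : ∀ k < n + 1, lst ((elEquiv x z).1 :: L) k ∈ x := by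
      intro k hk
      cases k with
      | zero => exact (elEquiv x z).2
      | succ k =>
        show L.getD k (lo 0) ∈ x
        rw [List.getD_eq_getElem _ _ (by omega)]
        exact hLx _ (List.getElem_mem _)
    rw [← exp_iff_ZL hC hN hφ hψ hδ hc, exp_equiv (elEquiv x)]
    have e1 : (fun k => elEquiv x ((Fin.cons z p : Fin (n+1) → _) k)) =
        fun k : Fin (n+1) => ⟨lst ((elEquiv x z).1 :: L) k, hc k k.2⟩ := by
      funext k
      refine Fin.cases ?_ (fun k => ?_) k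
      · rfl
      · refine Subtype.ext (LL.ext ?_)
        exact hp k
    rw [e1]
    exact Iff.rfl
  unfold DeltaDef
  refine and_congr_right fun _ => exists_congr fun n => exists_congr fun φ => exists_congr fun ψ =>
    and_congr_right fun hφ => and_congr_right fun hψ => and_congr_right fun hδ => ?_
  constructor
  · rintro ⟨p, hp⟩
    have hlen : (List.ofFn fun k => (elEquiv x (p k)).1).length = n := List.length_ofFn
    have hmem : ∀ a ∈ List.ofFn fun k => (elEquiv x (p k)).1, a ∈ x := by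
      intro a ha
      obtain ⟨k, rfl⟩ := List.mem_ofFn.1 ha
      exact (elEquiv x (p k)).2
    refine ⟨List.ofFn fun k => (elEquiv x (p k)).1, hlen, hmem, fun z hz => ?_⟩
    have h1 := key n φ ψ hφ hψ hδ _ hlen hmem p (fun k => by
      show _ = ((List.ofFn fun k => (elEquiv x (p k)).1).getD k (lo 0)).1
      rw [List.getD_eq_getElem _ _ (by rw [hlen]; exact k.2)]
      simp [elEquiv]) ⟨z.1, hz⟩
    exact (hp ⟨z.1, hz⟩).trans h1
  · rintro ⟨L, hL, hLx, h⟩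
    refine ⟨fun k => ⟨(lst L k).1, ?_⟩, fun z => ?_⟩
    · show (L.getD k (lo 0)) ∈ x
      rw [List.getD_eq_getElem _ _ (by rw [hL]; exact k.2)]
      exact hLx _ (List.getElem_mem _)
    · rw [key n φ ψ hφ hψ hδ L hL hLx _ (fun k => rfl) z]
      exact h (elEquiv x z).1 (elEquiv x z).2

/-! ### The parameter -/

/-- `Δ` sentences -/
def Dl : Type := {t : QFm × QFm × ℕ // t.1.NoW ∧ t.2.1.NoW ∧ IsDelta.{u} (t.2.2+1) t.1 t.2.1}

instance : Countable Dl.{u} := by unfold Dl; infer_instance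

/-- the constructible definition of the next level -/
def DefL (σ x y : LL.{u}) : Prop := (∀ z, z ∈ y → z ∈ x) ∧ ∃ s, s ∈ σ ∧ ∃ Z U, IsOp (· ∈ ·) s Z U ∧
  ∃ l, (∃ t, IsOp (· ∈ ·) t x l ∧ t ∈ U) ∧ ∀ z, z ∈ x → (z ∈ y ↔ ∃ t, IsOp (· ∈ ·) t z l ∧
    ∃ t', IsOp (· ∈ ·) t' x t ∧ t' ∈ Z)

theorem DL.defL {x y z : (ℕ → LL.{u}) → LL.{u}} (hx : DT Set.univ x) (hy : DT Set.univ y)
    (hz : DT Set.univ z) : DL (fun v => DefL (x v) (y v) (z v)) := by
  refine DL.sub3 (R := fun x y z => DefL x y z) ?_ hx hy hz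
  unfold DefL
  apply_rules (maxDepth := 1000) [DL.isOp, Dfn.all, Dfn.ex, Dfn.and, Dfn.iff, Dfn.imp, Dfn.mem,
    DT.var, DL.c]

theorem lcd_mem {γ : Ordinal.{u}} (hγ : Lim γ) (h0 : (lo 0).1 ∈ K γ) (L : List LL.{u})
    (hL : ∀ a ∈ L, a.1 ∈ K γ) : (lcd L).1 ∈ K γ := by
  induction L with
  | nil => exact h0
  | cons a L ih =>
    exact pair_mem_lim hγ (hL a List.mem_cons_self) (ih fun b hb => hL b (List.mem_cons_of_mem _ hb))

theorem exists_sigma {C : Set Ordinal.{u}} (hC : Generic C) (hN : NoNewSeq.{u}) {γ : Ordinal.{u}}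
    (hγ : Lim γ) (h0 : (lo 0).1 ∈ K γ) : ∃ σ : LL.{u}, ∀ x y : LL.{u}, x.1 ∈ K γ →
      (DefL σ x y ↔ DeltaDef QFm.NoW x.1 y.1) := by
  have hZ : ∀ t : Dl.{u}, ∃ Z : LL.{u}, ∀ s, s ∈ Z ↔ s.1 ∈ K γ ∧ ∃ x t', IsOp (· ∈ ·) s x t' ∧
      ∃ z l, IsOp (· ∈ ·) t' z l ∧ PZ t.1.1 t.1.2.2 x z l := by
    intro t
    have hPZ : ∀ {x y z : (ℕ → LL.{u}) → LL.{u}}, DT Set.univ x → DT Set.univ y → DT Set.univ z →
        DL (fun v => PZ t.1.1 t.1.2.2 (x v) (y v) (z v)) :=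
      fun hx hy hz => DL.sub3 (dl_PZ t.1.1 t.1.2.2) hx hy hz
    obtain ⟨Z, h⟩ := LL_sep' (P := fun s => ∃ x t', IsOp (· ∈ ·) s x t' ∧
      ∃ z l, IsOp (· ∈ ·) t' z l ∧ PZ t.1.1 t.1.2.2 x z l) (by
      apply_rules (maxDepth := 1000) [hPZ, DL.isOp, Dfn.ex, Dfn.and, DT.var]) ⟨K γ, isL_K γ⟩
    exact ⟨Z, h⟩
  have hU : ∀ t : Dl.{u}, ∃ U : LL.{u}, ∀ s, s ∈ U ↔ s.1 ∈ K γ ∧ ∃ x l, IsOp (· ∈ ·) s x l ∧
      IsLst t.1.2.2 x l := by
    intro t
    have hI : ∀ {x y : (ℕ → LL.{u}) → LL.{u}}, DT Set.univ x → DT Set.univ y →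
        DL (fun v => IsLst t.1.2.2 (x v) (y v)) :=
      fun hx hy => DL.sub2 (dl_IsLst t.1.2.2) hx hy
    obtain ⟨U, h⟩ := LL_sep' (P := fun s => ∃ x l, IsOp (· ∈ ·) s x l ∧
      IsLst t.1.2.2 x l) (by
      apply_rules (maxDepth := 1000) [hI, DL.isOp, Dfn.ex, Dfn.and, DT.var]) ⟨K γ, isL_K γ⟩
    exact ⟨U, h⟩
  choose Z hZ using hZ
  choose U hU using hU
  let S : ZFSet.{u} := ZFSet.range fun t : Shrink.{u} Dl.{u} =>
    (lpair (Z ((equivShrink.{u} Dl.{u}).symm t)) (U ((equivShrink.{u} Dl.{u}).symm t))).1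
  have hS : ∀ s, s ∈ S ↔ ∃ t : Dl.{u}, s = (lpair (Z t) (U t)).1 := by
    intro s
    rw [ZFSet.mem_range]
    constructor
    · rintro ⟨t, rfl⟩; exact ⟨_, rfl⟩
    · rintro ⟨t, rfl⟩
      exact ⟨equivShrink.{u} _ t, by simp⟩
  have hSL : IsL S := by
    refine hN S (fun y hy => ?_) ?_
    · obtain ⟨t, rfl⟩ := (hS y).1 hy
      exact (lpair _ _).2
    · have : (SetLike.coe S : Set ZFSet.{u}) = Set.range fun t : Dl.{u} => (lpair (Z t) (U t)).1 := by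
        ext s
        show s ∈ S ↔ _
        rw [hS]
        exact exists_congr fun t => eq_comm
      rw [this]
      exact Set.countable_range _
  refine ⟨⟨S, hSL⟩, fun x y hx => ?_⟩
  have hmemS : ∀ s : LL.{u}, s ∈ (⟨S, hSL⟩ : LL.{u}) ↔ ∃ t : Dl.{u}, s = lpair (Z t) (U t) := by
    intro s
    show s.1 ∈ S ↔ _
    rw [hS]
    exact exists_congr fun t => LL.ext_iff.symm
  rw [deltaDef_iff hC hN]
  unfold DefL
  have hsub : (∀ z, z ∈ y → z ∈ x) ↔ y.1 ⊆ x.1 := by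
    constructor
    · intro h z hz; exact h ⟨z, y.2.trans hz⟩ hz
    · intro h z hz; exact h hz
  rw [hsub]
  refine and_congr_right fun _ => ?_
  have hxin : ∀ z : LL.{u}, z ∈ x → z.1 ∈ K γ := fun z hz => K_trans hγ hx hz
  have hUx : ∀ (t : Dl.{u}) (L : List LL.{u}), (lpair x (lcd L) ∈ U t ↔
      L.length = t.1.2.2 ∧ ∀ a ∈ L, a ∈ x) := by
    intro t L
    rw [hU]
    constructor
    · rintro ⟨_, x', l, h, L', hL', h2, h3⟩
      rw [LL.isOp_iff', lpair_inj] at h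
      obtain ⟨rfl, rfl⟩ := h
      rw [lcd_inj _ _ h3]
      exact ⟨hL', h2⟩
    · rintro ⟨h1, h2⟩
      exact ⟨pair_mem_lim hγ hx (lcd_mem hγ h0 L fun a ha => hxin a (h2 a ha)), x, lcd L,
        LL.isOp_iff'.2 rfl, L, h1, h2, rfl⟩
  have hUl : ∀ (t : Dl.{u}) (l : LL.{u}), lpair x l ∈ U t → ∃ L, l = lcd L := by
    intro t l h
    obtain ⟨_, x', l', h, L', _, _, h3⟩ := (hU t _).1 h
    rw [LL.isOp_iff', lpair_inj] at h
    exact ⟨L', by rw [h.2, h3]⟩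
  have hZx : ∀ (t : Dl.{u}) (z : LL.{u}) (L : List LL.{u}), z ∈ x → L.length = t.1.2.2 →
      (∀ a ∈ L, a ∈ x) → (lpair x (lpair z (lcd L)) ∈ Z t ↔
        ZL t.1.1 (t.1.2.2+1) x (lst (z :: L))) := by
    intro t z L hz hL hLx
    rw [hZ]
    constructor
    · rintro ⟨_, x', t', h, z', l, h', L', hL', h2, h3, h4⟩
      rw [LL.isOp_iff', lpair_inj] at h
      rw [LL.isOp_iff'] at h'
      rw [← h.2, lpair_inj] at h'
      rw [← h'.2] at h3
      rw [← lcd_inj _ _ h3, ← h.1, ← h'.1] at h4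
      exact h4
    · intro h
      refine ⟨pair_mem_lim hγ hx (pair_mem_lim hγ (hxin z hz)
        (lcd_mem hγ h0 L fun a ha => hxin a (hLx a ha))), x, _, LL.isOp_iff'.2 rfl, z, lcd L,
        LL.isOp_iff'.2 rfl, L, hL, hLx, rfl, h⟩
  simp only [LL.isOp_iff', exists_eq_left]
  constructor
  · rintro ⟨s, hs, Z', U', hs', l, hl, hy⟩
    obtain ⟨t, rfl⟩ := (hmemS s).1 hs
    rw [lpair_inj] at hs'
    rw [← hs'.2] at hl
    rw [← hs'.1] at hy
    obtain ⟨L, rfl⟩ := hUl t l hl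
    obtain ⟨hL, hLx⟩ := (hUx t L).1 hl
    refine ⟨t.1.2.2, t.1.1, t.1.2.1, t.2.1, t.2.2.1, t.2.2.2, L, hL, hLx, fun z hz => ?_⟩
    rw [← hZx t z L hz hL hLx]
    exact hy z hz
  · rintro ⟨n, φ, ψ, hφ, hψ, hδ, L, hL, hLx, hy⟩
    let t : Dl.{u} := ⟨(φ, ψ, n), hφ, hψ, hδ⟩
    refine ⟨lpair (Z t) (U t), (hmemS _).2 ⟨t, rfl⟩, Z t, U t, rfl, lcd L, (hUx t L).2 ⟨hL, hLx⟩,
      fun z hz => ?_⟩
    rw [hZx t z L hz hL hLx]
    exact hy z hz

/-! ### The levels -/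

theorem lo0_mem {γ : Ordinal.{u}} (hγ : Lim γ) : (lo 0).1 ∈ K γ := by
  have h2 : K (0 : Ordinal.{u}) ∈ K γ := K_mem hγ.1
  have h3 : K (0 : Ordinal.{u}) = (lo 0).1 := by
    have : (lo (0 : Ordinal.{u})).1 = ∅ := toZFSet_zero
    rw [this]
    ext x
    rw [mem_K]
    constructor
    · rintro ⟨β, hβ, _⟩; exact absurd hβ (not_lt.2 bot_le)
    · intro h; exact absurd h (ZFSet.notMem_empty _)
  rwa [h3] at h2

theorem level_zero (𝓛 : QFm → Prop) : level.{u} 𝓛 0 = ∅ := by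
  unfold level; exact Ordinal.limitRecOn_zero _ _ _

theorem level_succ (𝓛 : QFm → Prop) (α : Ordinal.{u}) : level 𝓛 (Order.succ α) =
    ZFSet.sep (DeltaDef 𝓛 (level 𝓛 α)) (ZFSet.powerset (level 𝓛 α)) := by
  unfold level; exact Ordinal.limitRecOn_succ _ _ _ _

theorem mem_level_succ {𝓛 : QFm → Prop} {α : Ordinal.{u}} {y : ZFSet.{u}} :
    y ∈ level 𝓛 (Order.succ α) ↔ DeltaDef 𝓛 (level 𝓛 α) y := by
  rw [level_succ, ZFSet.mem_sep, ZFSet.mem_powerset]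
  exact ⟨fun h => h.2, fun h => ⟨h.1, h⟩⟩

theorem mem_level_limit {𝓛 : QFm → Prop} {α : Ordinal.{u}} (hα : Order.IsSuccLimit α)
    {y : ZFSet.{u}} : y ∈ level 𝓛 α ↔ ∃ β < α, y ∈ level 𝓛 β := by
  unfold level
  rw [Ordinal.limitRecOn_limit _ _ _ _ hα, ZFSet.mem_sUnion]
  constructor
  · rintro ⟨z, hz, hy⟩
    obtain ⟨β, rfl⟩ := ZFSet.mem_range.1 hz
    exact ⟨β.1, β.2, hy⟩
  · rintro ⟨β, hβ, hy⟩
    exact ⟨_, ZFSet.mem_range.2 ⟨⟨β, hβ⟩, rfl⟩, hy⟩

theorem isL_level {C : Set Ordinal.{u}} (hC : Generic C) (hN : NoNewSeq.{u}) (α : Ordinal.{u}) :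
    IsL (level QFm.NoW α) := by
  induction α using WellFoundedLT.induction with
  | ind α ih =>
  -- a level containing all previous levels
  obtain ⟨γ, hγ, hK⟩ := exists_El_mem (I := Set.Iio α)
    (fun β => (⟨level QFm.NoW β.1, ih β.1 β.2⟩ : LL.{u}))
  have h0 : (lo 0).1 ∈ K γ := lo0_mem hγ.1
  have hlev : ∀ β < α, level QFm.NoW β ∈ K γ := fun β hβ => hK ⟨β, hβ⟩
  obtain ⟨σ, hσ⟩ := exists_sigma hC hN hγ.1 h0
  rcases Ordinal.zero_or_succ_or_isSuccLimit α with rfl | ⟨β, rfl⟩ | hlim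
  · rw [level_zero]; exact isL_empty
  · let x : LL.{u} := ⟨level QFm.NoW β, ih β (Order.lt_succ β)⟩
    have hx : x.1 ∈ K γ := hlev β (Order.lt_succ β)
    -- all definable sets are constructible
    have hyL : ∀ y : ZFSet.{u}, DeltaDef QFm.NoW x.1 y → IsL y := by
      intro y hy
      obtain ⟨hyx, n, φ, ψ, hφ, hψ, hδ, L, hL, hLx, h⟩ := (deltaDef_iff hC hN).1 hy
      have hd : DL (fun w : ℕ → LL.{u} => ZL φ (n+1) x (lst (w 0 :: L))) := by
        refine (Dfn.subst (t := fun i w => match i with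
          | 0 => x
          | 1 => w 0
          | i+2 => lst L i) (dl_ZL φ (n+1)) (fun i => by
            match i with
            | 0 => exact DL.c
            | 1 => exact DT.var 0
            | i+2 => exact DL.c)).congr fun w => ?_
        refine zl_cgr fun k _ => ?_
        cases k with
        | zero => rfl
        | succ k => rfl
      obtain ⟨y', hy'⟩ := LL_sep' (P := fun z => ZL φ (n+1) x (lst (z :: L))) hd x
      have : y = y'.1 := by
        ext z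
        constructor
        · intro hz
          have hzx : z ∈ x.1 := hyx hz
          refine (hy' ⟨z, x.2.trans hzx⟩).2 ⟨hzx, (h ⟨z, x.2.trans hzx⟩ hzx).1 hz⟩
        · intro hz
          have h1 := (hy' ⟨z, y'.2.trans hz⟩).1 hz
          exact (h _ h1.1).2 h1.2
      rw [this]; exact y'.2
    have hsm : Small.{u} {y : ZFSet.{u} // DeltaDef QFm.NoW x.1 y} :=
      small_of_injective (β := {y : ZFSet.{u} // y ∈ ZFSet.powerset x.1})
        (f := fun y => ⟨y.1, ZFSet.mem_powerset.2 y.2.1⟩) fun a b h => Subtype.ext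
          (show a.1 = b.1 from congrArg (fun t : {y : ZFSet.{u} // y ∈ ZFSet.powerset x.1} => t.1) h)
    obtain ⟨γ', _, hγ'⟩ := exists_level (fun y : {y : ZFSet.{u} // DeltaDef QFm.NoW x.1 y} => y.1)
      (fun y => hyL y.1 y.2)
    obtain ⟨S, hS⟩ := LL_sep' (P := fun y => DefL σ x y) (DL.defL DL.c DL.c (DT.var 0))
      ⟨K γ', isL_K γ'⟩
    have : level QFm.NoW (Order.succ β) = S.1 := by
      ext y
      rw [mem_level_succ]
      constructor
      · intro h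
        exact (hS ⟨y, hyL y h⟩).2 ⟨hγ' ⟨y, h⟩, (hσ x _ hx).2 h⟩
      · intro h
        exact (hσ x _ hx).1 ((hS ⟨y, S.2.trans h⟩).1 h).2
    rw [this]; exact S.2
  · -- the recursion
    let H : Ordinal.{u} → LL.{u} → Prop := fun β y => β < α ∧ y.1 ∈ level QFm.NoW β
    let Φ : LL.{u} → LL.{u} → LL.{u} → Prop := fun s o y => o ∈ lo α ∧
      ((∃ o', o' ∈ o ∧ SucL o' o ∧ ∃ x, (∀ z, z ∈ x ↔ ∃ p, IsOp (· ∈ ·) p o' z ∧ p ∈ s) ∧
        DefL σ x y) ∨ (LimL o ∧ ∃ o', o' ∈ o ∧ ∃ p, IsOp (· ∈ ·) p o' y ∧ p ∈ s))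
    have hΦ : DL (fun v => Φ (v 0) (v 1) (v 2)) := by
      show DL fun v : ℕ → LL.{u} => v 1 ∈ lo α ∧
        ((∃ o', o' ∈ v 1 ∧ SucL o' (v 1) ∧ ∃ x, (∀ z, z ∈ x ↔ ∃ p, IsOp (· ∈ ·) p o' z ∧ p ∈ v 0) ∧
        DefL σ x (v 2)) ∨ (LimL (v 1) ∧ ∃ o', o' ∈ v 1 ∧ ∃ p, IsOp (· ∈ ·) p o' (v 2) ∧ p ∈ v 0))
      apply_rules (maxDepth := 1000) [DL.defL, DL.sucL, DL.limL, DL.isOp, Dfn.all, Dfn.ex, Dfn.and,
        Dfn.or, Dfn.iff, Dfn.mem, DT.var, DL.c]
    have hbd : ∀ β, ∃ b : LL.{u}, ∀ x, H β x → x ∈ b := by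
      intro β
      by_cases hβ : β < α
      · exact ⟨⟨level QFm.NoW β, ih β hβ⟩, fun x hx => hx.2⟩
      · exact ⟨lo 0, fun x hx => absurd hx.1 hβ⟩
    have hstep : ∀ β s, Stg H s β → ∀ x, H β x ↔ Φ s (lo β) x := by
      intro β s hs y
      have hmem : ∀ β' < β, β' < α → ∀ z, (∃ p, IsOp (· ∈ ·) p (lo β') z ∧ p ∈ s) ↔
          z.1 ∈ level QFm.NoW β' := by
        intro β' hβ' hα' z
        constructor
        · rintro ⟨p, hp, hps⟩
          obtain ⟨β'', _, z', hz', h⟩ := (hs p).1 hps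
          rw [LL.isOp_iff', h, lpair_inj, lo_inj] at hp
          rw [← hp.1, ← hp.2]; exact hz'.2
        · intro hz
          exact ⟨_, LL.isOp_iff'.2 rfl, (hs _).2 ⟨β', hβ', z, ⟨hα', hz⟩, rfl⟩⟩
      show (β < α ∧ _) ↔ (lo β ∈ lo α ∧ _)
      rw [lo_mem_lo]
      refine and_congr_right fun hβ => ?_
      rcases Ordinal.zero_or_succ_or_isSuccLimit β with rfl | ⟨β', rfl⟩ | hl
      · rw [level_zero]
        constructor
        · intro h; exact absurd h (ZFSet.notMem_empty _)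
        · rintro (⟨o', ho', _⟩ | ⟨_, o', ho', _⟩)
          · obtain ⟨δ, hδ, _⟩ := mem_lo.1 ho'
            exact absurd hδ (not_lt.2 bot_le)
          · obtain ⟨δ, hδ, _⟩ := mem_lo.1 ho'
            exact absurd hδ (not_lt.2 bot_le)
      · have hβ'α : β' < α := (Order.lt_succ β').trans hβ
        rw [mem_level_succ]
        have hx : level QFm.NoW β' ∈ K γ := hlev β' hβ'α
        let x : LL.{u} := ⟨level QFm.NoW β', ih β' hβ'α⟩
        constructor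
        · intro h
          refine Or.inl ⟨lo β', lo_mem_lo.2 (Order.lt_succ _), sucL_iff.2 rfl, x, fun z => ?_, ?_⟩
          · rw [hmem β' (Order.lt_succ _) hβ'α]
            exact Iff.rfl
          · exact (hσ x y hx).2 h
        · rintro (⟨o', ho', h1, x', h2, h3⟩ | ⟨h1, _⟩)
          · obtain ⟨δ, hδ, rfl⟩ := mem_lo.1 ho'
            rw [sucL_iff, lo_inj] at h1
            have hδβ : δ = β' := Order.succ_injective h1.symm
            subst hδβ
            have : x' = x := by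
              apply isZF_LL.ext
              intro z
              rw [h2, hmem δ (Order.lt_succ _) hβ'α]
              exact Iff.rfl
            rw [this] at h3
            exact (hσ x y hx).1 h3
          · have := limL_iff.1 h1
            exact absurd (this.2 β' (Order.lt_succ _)) (lt_irrefl _)
      · rw [mem_level_limit hl]
        constructor
        · rintro ⟨β', hβ', hy⟩
          refine Or.inr ⟨limL_iff.2 ⟨bot_le.trans_lt hβ', fun a ha => hl.succ_lt ha⟩, lo β',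
            lo_mem_lo.2 hβ', (hmem β' hβ' (hβ'.trans hβ) y).2 hy⟩
        · rintro (⟨o', ho', h1, _⟩ | ⟨_, o', ho', h⟩)
          · obtain ⟨δ, hδ, rfl⟩ := mem_lo.1 ho'
            rw [sucL_iff, lo_inj] at h1
            exact absurd (hl.succ_lt hδ) (by rw [← h1]; exact lt_irrefl _)
          · obtain ⟨δ, hδ, rfl⟩ := mem_lo.1 ho'
            exact ⟨δ, hδ, (hmem δ hδ (hδ.trans hβ) y).1 h⟩
    obtain ⟨s, hs⟩ := exists_stg hΦ hbd hstep α
    obtain ⟨S, hS⟩ := LL_sep' (P := fun y => ∃ o, o ∈ lo α ∧ ∃ p, IsOp (· ∈ ·) p o y ∧ p ∈ s) (by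
      apply_rules (maxDepth := 1000) [DL.isOp, Dfn.ex, Dfn.and, Dfn.mem, DT.var, DL.c])
      ⟨K γ, isL_K γ⟩
    have : level QFm.NoW α = S.1 := by
      ext y
      rw [mem_level_limit hlim]
      constructor
      · rintro ⟨β, hβ, hy⟩
        have hyγ : y ∈ K γ := K_trans hγ.1 (hlev β hβ) hy
        refine (hS ⟨y, γ, hyγ⟩).2 ⟨hyγ, lo β, lo_mem_lo.2 hβ, _, LL.isOp_iff'.2 rfl, ?_⟩
        exact (hs _).2 ⟨β, hβ, _, ⟨hβ, hy⟩, rfl⟩
      · intro hy
        obtain ⟨_, o, _, p, hp, hps⟩ := (hS ⟨y, S.2.trans hy⟩).1 hy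
        obtain ⟨β, hβ, z, hz, h⟩ := (hs p).1 hps
        rw [LL.isOp_iff', h, lpair_inj] at hp
        refine ⟨β, hβ, ?_⟩
        have := hz.2
        rw [hp.2] at this
        exact this
    rw [this]; exact S.2

/-- **`M₁` is contained in the constructible universe.** -/
theorem M1_sub {C : Set Ordinal.{u}} (hC : Generic C) (hN : NoNewSeq.{u}) :
    M1.{u} ⊆ {x | IsL x} := by
  rintro x ⟨α, hα⟩
  exact (isL_level hC hN α).trans hα

end Pool.Agent.DQ1
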