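import Pool.Agent.DQ1.Lev2

/-! # The levels of `C(Δ(𝓛))` and the ordinals -/

namespace Pool.Agent.DQ1

open Cardinal Ordinal
open ZFM (Fm Sat Dfn DT IsZF)

universe u v w

/-- first-order formulas of set theory as formulas of our logics -/
def fq : Fm → QFm
  | .mem i j => .rel 0 [i, j]
  | .eq i j => .eq i j
  | .fls => .neg (.eq 0 0)
  | .imp φ ψ => .neg (.and (fq φ) (.neg (fq ψ)))
  | .all φ => .all 0 (fq φ)

theorem fq_noW (φ : Fm) : (fq φ).NoW := by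
  induction φ with
  | mem i j => trivial
  | eq i j => trivial
  | fls => trivial
  | imp φ ψ ih1 ih2 => exact ⟨ih1, ih2⟩
  | all φ ih => exact ih

theorem sat_fq {A : Type w} [Membership A A] {D : Type v} {M : Str D} {i : A → D}
    (hi : Function.Injective i) (h0 : M.sort 0 = Set.range i)
    (h1 : ∀ a b, M.rel 0 [i a, i b] ↔ a ∈ b) (φ : Fm) : ∀ (w : ℕ → A) (v : ℕ → D),
    (∀ j < φ.bd, v j = i (w j)) → ((fq φ).Sat M v ↔ Sat φ w) := by
  induction φ with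
  | mem a b =>
    intro w v h
    show M.rel 0 [v a, v b] ↔ w a ∈ w b
    rw [h a (by simp only [Fm.bd]; omega), h b (by simp only [Fm.bd]; omega), h1]
  | eq a b =>
    intro w v h
    show v a = v b ↔ w a = w b
    rw [h a (by simp only [Fm.bd]; omega), h b (by simp only [Fm.bd]; omega), hi.eq_iff]
  | fls =>
    intro w v _
    show ¬ (v 0 = v 0) ↔ False
    simp
  | imp φ ψ ih1 ih2 =>
    intro w v h
    show ¬ ((fq φ).Sat M v ∧ ¬ (fq ψ).Sat M v) ↔ (Sat φ w → Sat ψ w)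
    rw [ih1 w v (fun j hj => h j (by simp only [Fm.bd]; omega)),
      ih2 w v (fun j hj => h j (by simp only [Fm.bd]; omega))]
    tauto
  | all φ ih =>
    intro w v h
    show (∀ a ∈ M.sort 0, (fq φ).Sat M (push a v)) ↔ ∀ x, Sat φ (ZFM.push x w)
    have hp : ∀ x : A, ((fq φ).Sat M (push (i x) v) ↔ Sat φ (ZFM.push x w)) := by
      intro x
      refine ih _ _ fun j hj => ?_
      cases j with
      | zero => rfl
      | succ j => exact h j (by simp only [Fm.bd]; omega)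
    rw [h0]
    constructor
    · intro h2 x
      exact (hp x).1 (h2 _ ⟨x, rfl⟩)
    · rintro h2 _ ⟨x, rfl⟩
      exact (hp x).2 (h2 x)

theorem exp_fq {A : Type w} [Small.{u} A] [Membership A A] {n : ℕ} {φ : Fm} (hn : φ.bd ≤ n)
    (c : Fin n → A) (w' : ℕ → A) (hw : ∀ k : Fin n, w' k = c k) :
    Exp.{u} (fq φ) (fun a b : A => a ∈ b) c ↔ Sat φ w' := by
  constructor
  · rintro ⟨D, M, i, v, hi, h0, h1, h2, h3⟩
    refine (sat_fq hi h0 h1 φ w' v fun j hj => ?_).1 h3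
    have := h2 ⟨j, by omega⟩
    rw [show v j = i (c ⟨j, by omega⟩) from this, ← hw]
  · intro h
    let M : Str (Shrink.{u} A) :=
      ⟨fun _ => Set.univ, fun _ l => ∃ a b, l = [equivShrink A a, equivShrink A b] ∧ a ∈ b⟩
    have h0 : M.sort 0 = Set.range (equivShrink A) := (Set.range_eq_univ.2 (equivShrink A).surjective).symm
    have h1 : ∀ a b, M.rel 0 [equivShrink A a, equivShrink A b] ↔ a ∈ b := by
      intro a b
      constructor
      · rintro ⟨a', b', h, h'⟩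
        rw [List.cons.injEq, List.cons.injEq] at h
        rw [(equivShrink A).injective h.1, (equivShrink A).injective h.2.1]
        exact h'
      · intro h; exact ⟨a, b, rfl, h⟩
    refine ⟨Shrink.{u} A, M, equivShrink A, fun j => equivShrink A (w' j), (equivShrink A).injective,
      h0, h1, fun k => congrArg (equivShrink A) (hw k), ?_⟩
    exact (sat_fq (equivShrink A).injective h0 h1 φ w' _ fun j _ => rfl).2 h

theorem delta_fq {n : ℕ} (φ : Fm) (hn : φ.bd ≤ n + 1) :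
    IsDelta.{u} (n+1) (fq φ) (fq (.imp φ .fls)) := by
  intro A E c
  let _ : Membership A A := ⟨fun b a => E a b⟩
  have h1 := exp_fq hn c (fun i => if h : i < n + 1 then c ⟨i, h⟩ else c 0) (fun k => by
    rw [dif_pos k.2])
  have h2 := exp_fq (φ := .imp φ .fls) (n := n+1) (by
    show max φ.bd 0 ≤ n + 1
    omega) c (fun i => if h : i < n + 1 then c ⟨i, h⟩ else c 0) (fun k => by
    rw [dif_pos k.2])
  have h3 : Exp.{u} (fq φ) E c ↔ _ := h1
  have h4 : Exp.{u} (fq (.imp φ .fls)) E c ↔ _ := h2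
  rw [h3, h4]
  show _ ↔ ¬ (Sat φ _ → False)
  tauto

/-- membership in the set `x` as a structure -/
@[instance_reducible] def subMem (x : ZFSet.{u}) : Membership {z : ZFSet.{u} // z ∈ x} {z : ZFSet.{u} // z ∈ x} :=
  ⟨fun b a => a.1 ∈ b.1⟩

attribute [local instance] subMem

variable {𝓛 : QFm → Prop}

/-- first-order definable subsets of a level are in the next level -/
theorem fo_level (h𝓛 : ∀ φ, φ.NoW → 𝓛 φ) {α : Ordinal.{u}}
    {P : {z : ZFSet.{u} // z ∈ level 𝓛 α} → Prop} (hP : Dfn Set.univ (fun v => P (v 0)))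
    {y : ZFSet.{u}} (hy : y ⊆ level 𝓛 α) (hyP : ∀ z, z.1 ∈ y ↔ P z) :
    y ∈ level 𝓛 (Order.succ α) := by
  rw [mem_level_succ]
  by_cases hne : Nonempty {z : ZFSet.{u} // z ∈ level 𝓛 α}
  · obtain ⟨d⟩ := hne
    obtain ⟨φ, w', _, hw⟩ := hP.normal d
    refine ⟨hy, φ.bd, fq φ, fq (.imp φ .fls), h𝓛 _ (fq_noW _), h𝓛 _ (fq_noW _),
      delta_fq φ (by omega), fun k => w' k, fun z => ?_⟩
    rw [hyP, hw]
    refine (exp_fq (A := {z : ZFSet.{u} // z ∈ level 𝓛 α}) (n := φ.bd + 1) (φ := φ) (by omega)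
      (Fin.cons z fun k => w' k) (ZFM.push z w') fun k => ?_).symm
    refine Fin.cases ?_ (fun k => ?_) k
    · rfl
    · rfl
  · refine ⟨hy, 0, fq .fls, fq (.imp .fls .fls), h𝓛 _ (fq_noW _), h𝓛 _ (fq_noW _),
      delta_fq .fls (by show 0 ≤ _; omega), fun k => k.elim0, fun z => absurd ⟨z⟩ hne⟩

theorem level_props (h𝓛 : ∀ φ, φ.NoW → 𝓛 φ) (β : Ordinal.{u}) :
    (∀ α ≤ β, level 𝓛 α ⊆ level 𝓛 β) ∧ ∀ x ∈ level 𝓛 β, ∀ y ∈ x, y ∈ level 𝓛 β := by
  induction β using WellFoundedLT.induction with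
  | ind β ih =>
  rcases Ordinal.zero_or_succ_or_isSuccLimit β with rfl | ⟨β', rfl⟩ | hl
  · refine ⟨fun α hα => ?_, fun x hx => ?_⟩
    · rw [le_bot_iff.1 hα]
      exact fun _ h => h
    · rw [level_zero] at hx
      exact absurd hx (ZFSet.notMem_empty _)
  · obtain ⟨ih1, ih2⟩ := ih β' (Order.lt_succ β')
    have hsub : level 𝓛 β' ⊆ level 𝓛 (Order.succ β') := by
      intro a ha
      refine fo_level h𝓛 (P := fun z => z ∈ (⟨a, ha⟩ : {z : ZFSet.{u} // z ∈ level 𝓛 β'}))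
        (Dfn.mem (DT.var 0) (DT.const (Set.mem_univ _))) (fun y hy => ih2 a ha y hy) fun z => Iff.rfl
    refine ⟨fun α hα => ?_, fun x hx y hy => ?_⟩
    · rcases hα.lt_or_eq with h | h
      · exact fun z hz => hsub (ih1 α (Order.lt_succ_iff.1 h) hz)
      · rw [h]
    · exact hsub ((mem_level_succ.1 hx).1 hy)
  · refine ⟨fun α hα => ?_, fun x hx y hy => ?_⟩
    · rcases hα.lt_or_eq with h | h
      · intro z hz
        exact (mem_level_limit hl).2 ⟨α, h, hz⟩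
      · rw [h]
    · obtain ⟨α, hα, hx⟩ := (mem_level_limit hl).1 hx
      exact (mem_level_limit hl).2 ⟨α, hα, (ih α hα).2 x hx y hy⟩

theorem ord_level (h𝓛 : ∀ φ, φ.NoW → 𝓛 φ) (α : Ordinal.{u}) :
    α.toZFSet ∈ level 𝓛 (Order.succ α) := by
  induction α using WellFoundedLT.induction with
  | ind α ih =>
  have htr := (level_props h𝓛 α).2
  have hlt : ∀ β < α, β.toZFSet ∈ level 𝓛 α := fun β hβ =>
    (level_props h𝓛 α).1 _ (Order.succ_le_iff.2 hβ) (ih β hβ)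
  let S : ZFSet.{u} := ZFSet.sep (fun z => z.IsOrdinal) (level 𝓛 α)
  have hS : S ∈ level 𝓛 (Order.succ α) := by
    refine fo_level h𝓛 (P := fun x => (∀ y, y ∈ x → ∀ z, z ∈ y → z ∈ x) ∧
      ∀ a b c, a ∈ b → b ∈ c → c ∈ x → a ∈ c) ?_ ZFSet.sep_subset fun x => ?_
    · apply_rules (maxDepth := 1000) [Dfn.all, Dfn.imp, Dfn.and, Dfn.mem, DT.var]
    · rw [ZFSet.mem_sep]
      constructor
      · rintro ⟨_, h⟩
        exact ⟨fun y hy z hz => h.isTransitive _ hy hz, fun a b c hab hbc hcx =>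
          h.mem_trans' hab hbc hcx⟩
      · rintro ⟨h1, h2⟩
        refine ⟨x.2, fun y hy z hz => ?_, fun {a b c} hab hbc hcx => ?_⟩
        · have hy' := htr _ x.2 y hy
          exact h1 ⟨y, hy'⟩ hy ⟨z, htr _ hy' z hz⟩ hz
        · have hc := htr _ x.2 c hcx
          have hb := htr _ hc b hbc
          exact h2 ⟨a, htr _ hb a hab⟩ ⟨b, hb⟩ ⟨c, hc⟩ hab hbc hcx
  have hSo : S.IsOrdinal := by
    refine ⟨fun y hy z hz => ?_, fun {a b c} hab hbc hcx => ?_⟩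
    · obtain ⟨hy1, hy2⟩ := ZFSet.mem_sep.1 hy
      exact ZFSet.mem_sep.2 ⟨htr y hy1 z hz, hy2.mem hz⟩
    · exact (ZFSet.mem_sep.1 hcx).2.isTransitive _ hbc hab
  obtain ⟨δ, hδ⟩ := ZFSet.isOrdinal_iff_mem_range_toZFSet.1 hSo
  have h2 : α ≤ δ := by
    by_contra hc
    push Not at hc
    have h3 : δ.toZFSet ∈ S := ZFSet.mem_sep.2 ⟨hlt δ hc, ZFSet.isOrdinal_toZFSet δ⟩
    rw [← hδ] at h3
    exact ZFSet.mem_irrefl _ h3
  rcases h2.lt_or_eq with h2 | h2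
  · have h3 : α.toZFSet ∈ S := by rw [← hδ]; exact toZFSet_mem_toZFSet_iff.2 h2
    exact (level_props h𝓛 _).2 _ hS _ h3
  · have h3 : α.toZFSet = S := by rw [h2, hδ]
    rw [h3]; exact hS

/-! ### The predecessors -/

theorem predType_unique {A : Type w} {E : A → A → Prop} {c : A} {γ γ' : Ordinal.{u}}
    (h : PredType E c γ) (h' : PredType E c γ') : γ = γ' := by
  obtain ⟨e⟩ := h
  obtain ⟨e'⟩ := h'
  have e2 : (fun a b : Set.Iio γ => a.1 < b.1) ≃r (fun a b : Set.Iio γ' => a.1 < b.1) :=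
    e.symm.trans e'
  have key : ∀ {γ γ' : Ordinal.{u}},
      ((fun a b : Set.Iio γ => a.1 < b.1) ≃r (fun a b : Set.Iio γ' => a.1 < b.1)) → γ ≤ γ' := by
    intro γ γ' e
    by_contra hc
    push Not at hc
    -- strictly increasing map of `Iio γ` into `γ' < γ`
    have h1 : ∀ ξ, ∀ hξ : ξ < γ, ξ ≤ (e ⟨ξ, hξ⟩).1 := by
      intro ξ
      induction ξ using WellFoundedLT.induction with
      | ind ξ ih =>
      intro hξ
      by_contra h2
      push Not at h2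
      have h3 := ih _ h2 (h2.trans hξ)
      have h4 : (e ⟨(e ⟨ξ, hξ⟩).1, h2.trans hξ⟩).1 < (e ⟨ξ, hξ⟩).1 := e.map_rel_iff.2 h2
      exact absurd (h3.trans_lt h4) (lt_irrefl _)
    have h2 := h1 γ' hc
    exact absurd ((e ⟨γ', hc⟩).2 : _ < γ') (not_lt.2 h2)
  exact le_antisymm (key e2) (key e2.symm)

theorem predType_equiv {A : Type v} {B : Type w} (e : A ≃ B) {E : A → A → Prop} {c : A}
    {γ : Ordinal.{u}} : PredType E c γ ↔
      PredType (fun a b : B => E (e.symm a) (e.symm b)) (e c) γ := by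
  have h : Nonempty ((fun a b : {a // E a c} => E a.1 b.1) ≃r
      (fun a b : {a : B // E (e.symm a) (e.symm (e c))} => E (e.symm a.1) (e.symm b.1))) := by
    refine ⟨⟨e.subtypeEquiv fun a => by simp, ?_⟩⟩
    intro a b
    simp
  obtain ⟨f⟩ := h
  exact ⟨fun ⟨g⟩ => ⟨f.symm.trans g⟩, fun ⟨g⟩ => ⟨f.trans g⟩⟩

theorem predType_toZFSet {x : ZFSet.{u}} (hx : ∀ y ∈ x, ∀ z ∈ y, z ∈ x) {γ : Ordinal.{u}}
    (hγ : γ.toZFSet ∈ x) : PredType (fun a b : {z : ZFSet.{u} // z ∈ x} => a.1 ∈ b.1)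
      ⟨γ.toZFSet, hγ⟩ γ := by
  have hmem : ∀ β : Set.Iio γ, β.1.toZFSet ∈ γ.toZFSet := fun β => toZFSet_mem_toZFSet_iff.2 β.2
  let f : Set.Iio γ → {a : {z : ZFSet.{u} // z ∈ x} // a.1 ∈ γ.toZFSet} := fun β =>
    ⟨⟨β.1.toZFSet, hx _ hγ _ (hmem β)⟩, hmem β⟩
  have hf : Function.Bijective f := by
    constructor
    · intro β β' h
      have h1 : β.1.toZFSet = β'.1.toZFSet := congrArg (fun t : {a : {z : ZFSet.{u} // z ∈ x} //
        a.1 ∈ γ.toZFSet} => t.1.1) h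
      exact Subtype.ext (toZFSet_injective h1)
    · rintro ⟨⟨a, ha⟩, h⟩
      obtain ⟨β, hβ, rfl⟩ := mem_toZFSet_iff.1 h
      exact ⟨⟨β, hβ⟩, rfl⟩
  refine ⟨(⟨Equiv.ofBijective f hf, ?_⟩ : (fun a b : Set.Iio γ => a.1 < b.1) ≃r _).symm⟩
  intro a b
  exact toZFSet_mem_toZFSet_iff

/-- **`M₂` is not contained in the constructible universe**, from the coding pair. -/
theorem M2_not_sub {C : Set Ordinal.{u}}
    (hmem : ∀ γ : Ordinal.{u}, γ < om → Lim γ → (γ ∈ C ↔ NonStat {δ | fn δ = γ}) ∧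
      (γ ∉ C ↔ NonStat {δ | fn δ = Order.succ γ}))
    (hnot : ¬ ∃ Y : ZFSet.{u}, IsL Y ∧ ∀ γ < om, Lim γ → (γ.toZFSet ∈ Y ↔ γ ∈ C))
    (hpair : ∃ φ ψ : QFm,
    (∀ (A : Type u) (E : A → A → Prop) (c : Fin 1 → A), Exp.{u} φ E c ↔
      ∃ γ : Ordinal.{u}, γ < om ∧ Lim γ ∧ PredType E (c 0) γ ∧ NonStat {δ | fn δ = γ}) ∧
    (∀ (A : Type u) (E : A → A → Prop) (c : Fin 1 → A), Exp.{u} ψ E c ↔
      (¬ ∃ γ : Ordinal.{u}, γ < om ∧ Lim γ ∧ PredType E (c 0) γ) ∨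
      ∃ γ : Ordinal.{u}, γ < om ∧ Lim γ ∧ PredType E (c 0) γ ∧
        NonStat {δ | fn δ = Order.succ γ})) : ¬ M2.{u} ⊆ {x | IsL x} := by
  obtain ⟨φ, ψ, hφ, hψ⟩ := hpair
  have h𝓛 : ∀ χ : QFm, χ.NoW → (fun _ : QFm => True) χ := fun _ _ => trivial
  have hδ : IsDelta.{u} 1 φ ψ := by
    intro A E c
    rw [hφ, hψ]
    constructor
    · rintro ⟨γ, h1, h2, h3, h4⟩ (h5 | ⟨γ', h1', h2', h3', h4'⟩)
      · exact h5 ⟨γ, h1, h2, h3⟩
      · have := predType_unique h3 h3'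
        subst this
        exact (hmem γ h1 h2).2.2 h4' ((hmem γ h1 h2).1.2 h4)
    · intro h
      rw [not_or, not_not] at h
      obtain ⟨⟨γ, h1, h2, h3⟩, h4⟩ := h
      refine ⟨γ, h1, h2, h3, (hmem γ h1 h2).1.1 ?_⟩
      by_contra hc
      exact h4 ⟨γ, h1, h2, h3, (hmem γ h1 h2).2.1 hc⟩
  intro hsub
  let x : ZFSet.{u} := level (fun _ => True) om
  let y : ZFSet.{u} := ZFSet.sep (fun z => ∃ h : z ∈ x, Exp.{u} φ
    (fun a b : {z : ZFSet.{u} // z ∈ x} => a.1 ∈ b.1) (Fin.cons ⟨z, h⟩ (fun k : Fin 0 => k.elim0) :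
      Fin 1 → _)) x
  have hy : y ∈ level (fun _ => True) (Order.succ om) := by
    rw [mem_level_succ]
    refine ⟨ZFSet.sep_subset, 0, φ, ψ, trivial, trivial, hδ, fun k => k.elim0, fun z => ?_⟩
    rw [ZFSet.mem_sep]
    exact ⟨fun h => h.2.2, fun h => ⟨z.2, z.2, h⟩⟩
  refine hnot ⟨y, hsub ⟨_, hy⟩, fun γ hγ hl => ?_⟩
  have hγx : γ.toZFSet ∈ x := (level_props h𝓛 om).1 _ (Order.succ_le_iff.2 hγ) (ord_level h𝓛 γ)
  have htr := (level_props (𝓛 := fun _ => True) h𝓛 om).2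
  rw [ZFSet.mem_sep]
  have hE : Exp.{u} φ (fun a b : {z : ZFSet.{u} // z ∈ x} => a.1 ∈ b.1)
      (Fin.cons ⟨γ.toZFSet, hγx⟩ (fun k : Fin 0 => k.elim0) : Fin 1 → _) ↔
      NonStat {δ | fn δ = γ} := by
    rw [exp_equiv (equivShrink.{u} {z : ZFSet.{u} // z ∈ x}), hφ]
    have hp : PredType (fun a b : Shrink.{u} {z : ZFSet.{u} // z ∈ x} =>
        ((equivShrink {z : ZFSet.{u} // z ∈ x}).symm a).1 ∈
          ((equivShrink {z : ZFSet.{u} // z ∈ x}).symm b).1)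
        (equivShrink {z : ZFSet.{u} // z ∈ x} ⟨γ.toZFSet, hγx⟩) γ :=
      (predType_equiv _).1 (predType_toZFSet htr hγx)
    constructor
    · rintro ⟨γ', _, _, h3, h4⟩
      rw [predType_unique hp h3]
      exact h4
    · intro h
      exact ⟨γ, hγ, hl, hp, h⟩
  rw [(hmem γ hγ hl).1, ← hE]
  exact ⟨fun h => h.2.2, fun h => ⟨hγx, hγx, h⟩⟩

end Pool.Agent.DQ1
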