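import Pool.Agent.DQ1.LL

/-! # Recursion inside the constructible universe -/

namespace Pool.Agent.DQ1

open Cardinal Ordinal
open ZFM (Fm Sat Dfn DT IsZF)

universe u v w

/-- definable relations on `L` -/
abbrev DL (P : (ℕ → LL.{u}) → Prop) : Prop := Dfn Set.univ P

theorem DL.c {c : LL.{u}} : DT Set.univ (fun _ : ℕ → LL.{u} => c) := DT.const (Set.mem_univ _)

theorem DL.sub1 {R : LL.{u} → Prop} (hR : DL (fun v => R (v 0))) {s : (ℕ → LL.{u}) → LL.{u}}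
    (hs : DT Set.univ s) : DL (fun v => R (s v)) :=
  Dfn.subst (t := fun _ v => s v) hR (fun _ => hs)

theorem DL.sub2 {R : LL.{u} → LL.{u} → Prop} (hR : DL (fun v => R (v 0) (v 1)))
    {s t : (ℕ → LL.{u}) → LL.{u}} (hs : DT Set.univ s) (ht : DT Set.univ t) :
    DL (fun v => R (s v) (t v)) :=
  Dfn.subst (t := fun i v => match i with
    | 0 => s v
    | _ => t v) hR (fun i => by
      match i with
      | 0 => exact hs
      | _+1 => exact ht)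

theorem DL.sub3 {R : LL.{u} → LL.{u} → LL.{u} → Prop} (hR : DL (fun v => R (v 0) (v 1) (v 2)))
    {s t r : (ℕ → LL.{u}) → LL.{u}} (hs : DT Set.univ s) (ht : DT Set.univ t)
    (hr : DT Set.univ r) : DL (fun v => R (s v) (t v) (r v)) :=
  Dfn.subst (t := fun i v => match i with
    | 0 => s v
    | 1 => t v
    | _ => r v) hR (fun i => by
      match i with
      | 0 => exact hs
      | 1 => exact ht
      | _+2 => exact hr)

theorem DL.sub4 {R : LL.{u} → LL.{u} → LL.{u} → LL.{u} → Prop}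
    (hR : DL (fun v => R (v 0) (v 1) (v 2) (v 3)))
    {s t r q : (ℕ → LL.{u}) → LL.{u}} (hs : DT Set.univ s) (ht : DT Set.univ t)
    (hr : DT Set.univ r) (hq : DT Set.univ q) : DL (fun v => R (s v) (t v) (r v) (q v)) :=
  Dfn.subst (t := fun i v => match i with
    | 0 => s v
    | 1 => t v
    | 2 => r v
    | _ => q v) hR (fun i => by
      match i with
      | 0 => exact hs
      | 1 => exact ht
      | 2 => exact hr
      | _+3 => exact hq)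

/-! ### Gödel operations in `L` -/

theorem LL.isUp_iff {c a b : LL.{u}} : IsUp (· ∈ ·) c a b ↔ c.1 = {a.1, b.1} := by
  constructor
  · intro h
    ext w
    rw [ZFSet.mem_pair]
    constructor
    · intro hw
      exact ((h ⟨w, c.2.trans hw⟩).1 hw).imp (congrArg LL.val) (congrArg LL.val)
    · rintro (rfl | rfl)
      · exact (h a).2 (Or.inl rfl)
      · exact (h b).2 (Or.inr rfl)
  · intro h w
    show w.1 ∈ c.1 ↔ _
    rw [h, ZFSet.mem_pair]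
    exact or_congr LL.ext_iff.symm LL.ext_iff.symm

theorem LL.isOp_iff {p a b : LL.{u}} : IsOp (· ∈ ·) p a b ↔ p.1 = ZFSet.pair a.1 b.1 := by
  unfold IsOp
  simp only [LL.isUp_iff]
  constructor
  · rintro ⟨s, t, hs, ht, hp⟩
    rw [hp, hs, ht, ZFSet.pair, ZFSet.pair_eq_singleton]
  · intro h
    refine ⟨⟨{a.1, a.1}, isL_upair a.2 a.2⟩, ⟨{a.1, b.1}, isL_upair a.2 b.2⟩, rfl, rfl, ?_⟩
    show p.1 = {{a.1, a.1}, {a.1, b.1}}
    rw [h, ZFSet.pair, ZFSet.pair_eq_singleton]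

/-- the pair in `L` -/
noncomputable def lpair (a b : LL.{u}) : LL.{u} := ⟨ZFSet.pair a.1 b.1, isL_pair a.2 b.2⟩

theorem LL.isOp_iff' {p a b : LL.{u}} : IsOp (· ∈ ·) p a b ↔ p = lpair a b :=
  LL.isOp_iff.trans ⟨fun h => LL.ext h, fun h => congrArg LL.val h⟩

theorem isL_of_pair {x y : ZFSet.{u}} (h : IsL (ZFSet.pair x y)) : IsL x ∧ IsL y := by
  have h1 : IsL ({x, y} : ZFSet.{u}) := h.trans (by rw [ZFSet.pair, ZFSet.mem_pair]; exact Or.inr rfl)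
  exact ⟨h1.trans (ZFSet.mem_pair.2 (Or.inl rfl)), h1.trans (ZFSet.mem_pair.2 (Or.inr rfl))⟩

theorem LL.th_iff {i : ℕ} {w a b : LL.{u}} :
    Th (· ∈ ·) i w a b ↔ Th (· ∈ ·) i w.1 a.1 b.1 := by
  match i with
  | 0 => exact or_congr LL.ext_iff LL.ext_iff
  | 1 =>
    simp only [Th, LL.isOp_iff, Pool.Agent.DQ1.isOp_iff]
    constructor
    · rintro ⟨x, y, hx, hy, h⟩; exact ⟨x.1, y.1, hx, hy, h⟩
    · rintro ⟨x, y, hx, hy, h⟩; exact ⟨⟨x, a.2.trans hx⟩, ⟨y, b.2.trans hy⟩, hx, hy, h⟩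
  | 2 => exact Iff.rfl
  | 3 =>
    simp only [Th, LL.isOp_iff, Pool.Agent.DQ1.isOp_iff]
    constructor
    · rintro ⟨x, p, hp, h⟩; exact ⟨x.1, p.1, hp, h⟩
    · rintro ⟨x, p, hp, h⟩
      have h1 : IsL p := a.2.trans hp
      exact ⟨⟨x, (isL_of_pair (h ▸ h1)).1⟩, ⟨p, h1⟩, hp, h⟩
  | 4 =>
    simp only [Th, LL.isOp_iff, Pool.Agent.DQ1.isOp_iff]
    constructor
    · rintro ⟨x, y, hx, hy, hxy, h⟩; exact ⟨x.1, y.1, hx, hy, hxy, h⟩
    · rintro ⟨x, y, hx, hy, hxy, h⟩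
      exact ⟨⟨x, a.2.trans hx⟩, ⟨y, a.2.trans hy⟩, hx, hy, hxy, h⟩
  | 5 =>
    simp only [Th, LL.isOp_iff, Pool.Agent.DQ1.isOp_iff]
    constructor
    · rintro ⟨x, y, hx, hy, hxy, h⟩; exact ⟨x.1, y.1, hx, hy, hxy, h⟩
    · rintro ⟨x, y, hx, hy, hxy, h⟩
      exact ⟨⟨x, a.2.trans hx⟩, ⟨y, a.2.trans hy⟩, hx, hy, hxy, h⟩
  | 6 =>
    simp only [Th, LL.isOp_iff, Pool.Agent.DQ1.isOp_iff]
    constructor
    · rintro ⟨x, hx, h⟩; exact ⟨x.1, hx, h⟩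
    · rintro ⟨x, hx, h⟩; exact ⟨⟨x, a.2.trans hx⟩, hx, h⟩
  | 7 =>
    simp only [Th, IsTr, LL.isOp_iff, Pool.Agent.DQ1.isOp_iff]
    constructor
    · rintro ⟨x, y, z, p, q, hp, h1, h2, r, h3, h4⟩
      exact ⟨x.1, y.1, z.1, p.1, q.1, hp, h1, h2, r.1, h3, h4⟩
    · rintro ⟨x, y, z, p, q, hp, h1, h2, r, h3, h4⟩
      have hp' : IsL p := a.2.trans hp
      have hq := isL_of_pair (h1 ▸ hp')
      have hxy := isL_of_pair (h2 ▸ hq.1)
      exact ⟨⟨x, hxy.1⟩, ⟨y, hxy.2⟩, ⟨z, hq.2⟩, ⟨p, hp'⟩, ⟨q, hq.1⟩, hp, h1, h2,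
        ⟨r, h3 ▸ isL_pair hxy.2 hq.2⟩, h3, h4⟩
  | 8 =>
    simp only [Th, IsTr, LL.isOp_iff, Pool.Agent.DQ1.isOp_iff]
    constructor
    · rintro ⟨x, y, z, p, hp, ⟨r, h1, h2⟩, s, h3, h4⟩
      exact ⟨x.1, y.1, z.1, p.1, hp, ⟨r.1, h1, h2⟩, s.1, h3, h4⟩
    · rintro ⟨x, y, z, p, hp, ⟨r, h1, h2⟩, s, h3, h4⟩
      have hp' : IsL p := a.2.trans hp
      have hy := isL_of_pair (h2 ▸ hp')
      have hxz := isL_of_pair (h1 ▸ hy.2)
      exact ⟨⟨x, hxz.1⟩, ⟨y, hy.1⟩, ⟨z, hxz.2⟩, ⟨p, hp'⟩, hp, ⟨⟨r, hy.2⟩, h1, h2⟩,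
        ⟨s, h3 ▸ isL_pair hy.1 hxz.2⟩, h3, h4⟩
  | 9 =>
    simp only [Th, LL.isOp_iff, Pool.Agent.DQ1.isOp_iff]
    constructor
    · rintro ⟨p, hp, h⟩; exact ⟨p.1, hp, h⟩
    · rintro ⟨p, hp, h⟩; exact ⟨⟨p, a.2.trans hp⟩, hp, h⟩
  | n+10 => exact Iff.rfl

theorem LL.isG_iff {i : ℕ} {c a b : LL.{u}} : IsG (· ∈ ·) i c a b ↔ c.1 = G i a.1 b.1 := by
  by_cases hi : i < 10
  · constructor
    · intro h
      ext w
      rw [mem_G]
      constructor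
      · intro hw
        exact LL.th_iff.1 ((h ⟨w, c.2.trans hw⟩).1 hw)
      · intro hw
        have : IsL w := (isL_G hi a.2 b.2).trans (mem_G.2 hw)
        exact (h ⟨w, this⟩).2 (LL.th_iff.2 hw)
    · intro h w
      show w.1 ∈ c.1 ↔ _
      rw [h, mem_G]
      exact LL.th_iff.symm
  · obtain ⟨n, rfl⟩ : ∃ n, i = n + 10 := ⟨i - 10, by omega⟩
    constructor
    · intro h
      ext w
      rw [mem_G]
      constructor
      · intro hw
        exact ((h ⟨w, c.2.trans hw⟩).1 hw).elim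
      · intro hw; exact hw.elim
    · intro h w
      show w.1 ∈ c.1 ↔ _
      rw [h, mem_G]
      exact Iff.rfl

theorem LL.stepMem_iff {x k : LL.{u}} : StepMem (· ∈ ·) x k ↔ x.1 ∈ stp k.1 := by
  rw [mem_stp]
  unfold StepMem
  simp only [LL.isG_iff, Pool.Agent.DQ1.isG_iff]
  refine or_congr Iff.rfl (or_congr LL.ext_iff (exists_congr fun i => and_congr_right fun hi => ?_))
  constructor
  · rintro ⟨a, b, ha, hb, h⟩
    exact ⟨a.1, b.1, ha.imp id (congrArg LL.val), hb.imp id (congrArg LL.val), h⟩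
  · rintro ⟨a, b, ha, hb, h⟩
    have ha' : IsL a := by
      rcases ha with ha | ha
      · exact k.2.trans ha
      · rw [ha]; exact k.2
    have hb' : IsL b := by
      rcases hb with hb | hb
      · exact k.2.trans hb
      · rw [hb]; exact k.2
    exact ⟨⟨a, ha'⟩, ⟨b, hb'⟩, ha.imp id LL.ext, hb.imp id LL.ext, h⟩

/-! ### Definability -/

theorem DL.isUp {p x y : (ℕ → LL.{u}) → LL.{u}} (hp : DT Set.univ p) (hx : DT Set.univ x)
    (hy : DT Set.univ y) : DL (fun v => IsUp (· ∈ ·) (p v) (x v) (y v)) := by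
  refine DL.sub3 (R := fun p x y => IsUp (· ∈ ·) p x y) ?_ hp hx hy
  unfold IsUp
  apply_rules (maxDepth := 1000) [Dfn.all, Dfn.iff, Dfn.or, Dfn.mem, Dfn.eq, DT.var]

theorem DL.isOp {p x y : (ℕ → LL.{u}) → LL.{u}} (hp : DT Set.univ p) (hx : DT Set.univ x)
    (hy : DT Set.univ y) : DL (fun v => IsOp (· ∈ ·) (p v) (x v) (y v)) := by
  refine DL.sub3 (R := fun p x y => IsOp (· ∈ ·) p x y) ?_ hp hx hy
  unfold IsOp
  apply_rules (maxDepth := 1000) [DL.isUp, Dfn.ex, Dfn.and, DT.var]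

theorem DL.isTr {p x y z : (ℕ → LL.{u}) → LL.{u}} (hp : DT Set.univ p) (hx : DT Set.univ x)
    (hy : DT Set.univ y) (hz : DT Set.univ z) :
    DL (fun v => IsTr (· ∈ ·) (p v) (x v) (y v) (z v)) := by
  refine DL.sub4 (R := fun p x y z => IsTr (· ∈ ·) p x y z) ?_ hp hx hy hz
  unfold IsTr
  apply_rules (maxDepth := 1000) [DL.isOp, Dfn.ex, Dfn.and, DT.var]

theorem DL.th (i : ℕ) {w x y : (ℕ → LL.{u}) → LL.{u}} (hw : DT Set.univ w) (hx : DT Set.univ x)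
    (hy : DT Set.univ y) : DL (fun v => Th (· ∈ ·) i (w v) (x v) (y v)) := by
  refine DL.sub3 (R := fun w x y => Th (· ∈ ·) i w x y) ?_ hw hx hy
  match i with
  | 0 => simp only [Th]; apply_rules (maxDepth := 1000) [Dfn.or, Dfn.eq, DT.var]
  | 1 => simp only [Th]; apply_rules (maxDepth := 1000) [DL.isOp, Dfn.ex, Dfn.and, Dfn.mem, DT.var]
  | 2 => simp only [Th]; apply_rules (maxDepth := 1000) [Dfn.and, Dfn.not, Dfn.mem, DT.var]
  | 3 => simp only [Th]; apply_rules (maxDepth := 1000) [DL.isOp, Dfn.ex, Dfn.and, Dfn.mem, DT.var]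
  | 4 => simp only [Th]; apply_rules (maxDepth := 1000) [DL.isOp, Dfn.ex, Dfn.and, Dfn.mem, DT.var]
  | 5 => simp only [Th]; apply_rules (maxDepth := 1000) [DL.isOp, Dfn.ex, Dfn.and, Dfn.mem, DT.var]
  | 6 => simp only [Th]; apply_rules (maxDepth := 1000) [DL.isOp, Dfn.ex, Dfn.and, Dfn.mem, DT.var]
  | 7 => simp only [Th]; apply_rules (maxDepth := 1000) [DL.isOp, DL.isTr, Dfn.ex, Dfn.and, Dfn.mem, DT.var]
  | 8 => simp only [Th]; apply_rules (maxDepth := 1000) [DL.isOp, DL.isTr, Dfn.ex, Dfn.and, Dfn.mem, DT.var]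
  | 9 => simp only [Th]; apply_rules (maxDepth := 1000) [DL.isOp, Dfn.ex, Dfn.and, Dfn.mem, DT.var]
  | n+10 => simp only [Th]; exact Dfn.fls

theorem DL.isG (i : ℕ) {w x y : (ℕ → LL.{u}) → LL.{u}} (hw : DT Set.univ w) (hx : DT Set.univ x)
    (hy : DT Set.univ y) : DL (fun v => IsG (· ∈ ·) i (w v) (x v) (y v)) := by
  refine DL.sub3 (R := fun w x y => IsG (· ∈ ·) i w x y) ?_ hw hx hy
  unfold IsG
  apply_rules (maxDepth := 1000) [DL.th, Dfn.all, Dfn.iff, Dfn.mem, DT.var]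

/-- finite disjunctions -/
theorem DL.exlt {P : ℕ → (ℕ → LL.{u}) → Prop} (h : ∀ i, DL (P i)) (n : ℕ) :
    DL (fun v => ∃ i < n, P i v) := by
  induction n with
  | zero => exact Dfn.fls.congr fun v => by simp
  | succ n ih =>
    refine (ih.or (h n)).congr fun v => ?_
    constructor
    · rintro (⟨i, hi, h⟩ | h)
      · exact ⟨i, by omega, h⟩
      · exact ⟨n, by omega, h⟩
    · rintro ⟨i, hi, h⟩
      by_cases hin : i = n
      · subst hin; exact Or.inr h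
      · exact Or.inl ⟨i, by omega, h⟩

theorem DL.stepMem {x k : (ℕ → LL.{u}) → LL.{u}} (hx : DT Set.univ x) (hk : DT Set.univ k) :
    DL (fun v => StepMem (· ∈ ·) (x v) (k v)) := by
  refine DL.sub2 (R := fun x k => StepMem (· ∈ ·) x k) ?_ hx hk
  unfold StepMem
  refine Dfn.or ?_ (Dfn.or ?_ (DL.exlt (fun i => ?_) 10))
  · apply_rules (maxDepth := 1000) [Dfn.mem, DT.var]
  · apply_rules (maxDepth := 1000) [Dfn.eq, DT.var]
  · apply_rules (maxDepth := 1000) [DL.isG, Dfn.ex, Dfn.and, Dfn.or, Dfn.mem, Dfn.eq, DT.var]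

/-! ### Ordinals -/

/-- `x` is an ordinal -/
def IsOrd (x : LL.{u}) : Prop :=
  (∀ y, y ∈ x → ∀ z, z ∈ y → z ∈ x) ∧ ∀ a b c : LL.{u}, a ∈ b → b ∈ c → c ∈ x → a ∈ c

theorem isOrd_iff' {x : LL.{u}} : IsOrd x ↔ x.1.IsOrdinal := by
  constructor
  · rintro ⟨h1, h2⟩
    refine ⟨fun y hy z hz => ?_, fun {a b c} hab hbc hcx => ?_⟩
    · exact h1 ⟨y, x.2.trans hy⟩ hy ⟨z, (x.2.trans hy).trans hz⟩ hz
    · have hc := x.2.trans hcx
      exact h2 ⟨a, (hc.trans hbc).trans hab⟩ ⟨b, hc.trans hbc⟩ ⟨c, hc⟩ hab hbc hcx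
  · intro h
    exact ⟨fun y hy z hz => h.isTransitive _ hy hz, fun a b c hab hbc hcx => h.mem_trans' hab hbc hcx⟩

theorem isOrd_iff {x : LL.{u}} : IsOrd x ↔ ∃ α : Ordinal.{u}, x.1 = α.toZFSet := by
  rw [isOrd_iff', ZFSet.isOrdinal_iff_mem_range_toZFSet]
  exact exists_congr fun α => eq_comm

theorem DL.isOrd {x : (ℕ → LL.{u}) → LL.{u}} (hx : DT Set.univ x) : DL (fun v => IsOrd (x v)) := by
  refine DL.sub1 (R := fun x => IsOrd x) ?_ hx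
  unfold IsOrd
  apply_rules (maxDepth := 1000) [Dfn.all, Dfn.imp, Dfn.and, Dfn.mem, DT.var]

theorem isL_toZFSet (α : Ordinal.{u}) : IsL α.toZFSet := by
  induction α using WellFoundedLT.induction with
  | ind α ih =>
  obtain ⟨γ, hl, h⟩ := exists_level (fun β : Set.Iio α => β.1.toZFSet) (fun β => ih β.1 β.2)
  obtain ⟨S, hS⟩ := LL_sep' (P := fun x => IsOrd x) (DL.isOrd (DT.var 0)) ⟨K γ, isL_K γ⟩
  have h1 : S.1.IsOrdinal := by
    refine ⟨fun y hy z hz => ?_, fun {a b c} hab hbc hcx => ?_⟩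
    · have h2 := (hS ⟨y, S.2.trans hy⟩).1 hy
      refine (hS ⟨z, (S.2.trans hy).trans hz⟩).2 ⟨K_trans hl h2.1 hz, ?_⟩
      rw [isOrd_iff'] at h2 ⊢
      exact h2.2.mem hz
    · have h2 := (hS ⟨c, S.2.trans hcx⟩).1 hcx
      have h3 := isOrd_iff'.1 h2.2
      exact h3.isTransitive _ hbc hab
  obtain ⟨δ, hδ⟩ := ZFSet.isOrdinal_iff_mem_range_toZFSet.1 h1
  have h2 : α ≤ δ := by
    by_contra hc
    push Not at hc
    have h3 : δ.toZFSet ∈ S.1 := (hS ⟨_, ih δ hc⟩).2 ⟨h ⟨δ, hc⟩, isOrd_iff.2 ⟨δ, rfl⟩⟩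
    rw [← hδ] at h3
    exact ZFSet.mem_irrefl _ h3
  rcases h2.lt_or_eq with h2 | h2
  · have h3 : α.toZFSet ∈ S.1 := by rw [← hδ]; exact toZFSet_mem_toZFSet_iff.2 h2
    exact S.2.trans h3
  · rw [h2, hδ]; exact S.2

/-- the ordinal as an element of `L` -/
noncomputable def lo (α : Ordinal.{u}) : LL.{u} := ⟨α.toZFSet, isL_toZFSet α⟩

theorem isOrd_iff_lo {x : LL.{u}} : IsOrd x ↔ ∃ α : Ordinal.{u}, x = lo α := by
  rw [isOrd_iff]
  exact exists_congr fun α => (LL.ext_iff (y := lo α)).symm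

theorem lo_inj {α β : Ordinal.{u}} : lo α = lo β ↔ α = β := by
  rw [LL.ext_iff]
  exact toZFSet_injective.eq_iff

theorem mem_lo {x : LL.{u}} {α : Ordinal.{u}} : x ∈ lo α ↔ ∃ β < α, x = lo β := by
  show x.1 ∈ α.toZFSet ↔ _
  rw [mem_toZFSet_iff]
  refine exists_congr fun β => and_congr_right fun _ => ?_
  rw [LL.ext_iff]
  exact eq_comm

theorem lo_mem_lo {α β : Ordinal.{u}} : lo α ∈ lo β ↔ α < β := toZFSet_mem_toZFSet_iff

/-! ### Recursion -/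

/-- `s` is the sequence of the first `β` stages of a recursion -/
def App (Φ : LL.{u} → LL.{u} → LL.{u} → Prop) (s o : LL.{u}) : Prop :=
  IsOrd o ∧ (∀ p, p ∈ s → ∃ o', o' ∈ o ∧ ∃ y, IsOp (· ∈ ·) p o' y) ∧
    ∀ o', o' ∈ o → ∃ s', (∀ p, p ∈ s' ↔ p ∈ s ∧ ∃ o'', o'' ∈ o' ∧ ∃ y, IsOp (· ∈ ·) p o'' y) ∧
      ∀ p y, IsOp (· ∈ ·) p o' y → (p ∈ s ↔ Φ s' o' y)

theorem DL.app {Φ : LL.{u} → LL.{u} → LL.{u} → Prop} (hΦ : DL (fun v => Φ (v 0) (v 1) (v 2)))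
    {s o : (ℕ → LL.{u}) → LL.{u}} (hs : DT Set.univ s) (ho : DT Set.univ o) :
    DL (fun v => App Φ (s v) (o v)) := by
  refine DL.sub2 (R := fun s o => App Φ s o) ?_ hs ho
  have hΦ' : ∀ {s t r : (ℕ → LL.{u}) → LL.{u}}, DT Set.univ s → DT Set.univ t → DT Set.univ r →
      DL (fun v => Φ (s v) (t v) (r v)) := fun h1 h2 h3 => DL.sub3 hΦ h1 h2 h3
  unfold App
  apply_rules (maxDepth := 1000) [hΦ', DL.isOp, DL.isOrd, Dfn.all, Dfn.ex, Dfn.iff, Dfn.imp, Dfn.and, Dfn.mem, DT.var]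

/-- `s` is the set of all `(γ, y)` with `γ < β`, `y ∈ H γ` -/
def Stg (H : Ordinal.{u} → LL.{u} → Prop) (s : LL.{u}) (β : Ordinal.{u}) : Prop :=
  ∀ p, p ∈ s ↔ ∃ γ < β, ∃ y, H γ y ∧ p = lpair (lo γ) y

theorem lpair_inj {a b a' b' : LL.{u}} : lpair a b = lpair a' b' ↔ a = a' ∧ b = b' := by
  rw [LL.ext_iff, LL.ext_iff, LL.ext_iff]
  constructor
  · intro h
    exact ZFSet.pair_injective h
  · rintro ⟨h1, h2⟩
    show ZFSet.pair a.1 b.1 = ZFSet.pair a'.1 b'.1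
    rw [h1, h2]

theorem app_iff {H : Ordinal.{u} → LL.{u} → Prop} {Φ : LL.{u} → LL.{u} → LL.{u} → Prop}
    (hstep : ∀ β s, Stg H s β → ∀ x, H β x ↔ Φ s (lo β) x) {α : Ordinal.{u}}
    (hex : ∀ β < α, ∃ s, Stg H s β) {s : LL.{u}} : App Φ s (lo α) ↔ Stg H s α := by
  constructor
  · rintro ⟨_, h1, h2⟩
    -- by induction on `β < α`
    have key : ∀ β, β < α → ∀ y, lpair (lo β) y ∈ s ↔ H β y := by
      intro β
      induction β using WellFoundedLT.induction with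
      | ind β ih =>
      intro hβ y
      obtain ⟨s', hs', h3⟩ := h2 (lo β) (lo_mem_lo.2 hβ)
      have h4 : Stg H s' β := by
        intro p
        rw [hs']
        constructor
        · rintro ⟨hp, o'', ho'', y, hy⟩
          obtain ⟨γ, hγ, rfl⟩ := mem_lo.1 ho''
          rw [LL.isOp_iff'] at hy
          subst hy
          exact ⟨γ, hγ, y, (ih γ hγ (hγ.trans hβ) y).1 hp, rfl⟩
        · rintro ⟨γ, hγ, y, hy, rfl⟩
          exact ⟨(ih γ hγ (hγ.trans hβ) y).2 hy, lo γ, lo_mem_lo.2 hγ, y, LL.isOp_iff'.2 rfl⟩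
      rw [h3 (lpair (lo β) y) y (LL.isOp_iff'.2 rfl), ← hstep β s' h4]
    intro p
    constructor
    · intro hp
      obtain ⟨o', ho', y, hy⟩ := h1 p hp
      obtain ⟨γ, hγ, rfl⟩ := mem_lo.1 ho'
      rw [LL.isOp_iff'] at hy
      subst hy
      exact ⟨γ, hγ, y, (key γ hγ y).1 hp, rfl⟩
    · rintro ⟨γ, hγ, y, hy, rfl⟩
      exact (key γ hγ y).2 hy
  · intro h
    refine ⟨isOrd_iff_lo.2 ⟨α, rfl⟩, ?_, ?_⟩
    · intro p hp
      obtain ⟨γ, hγ, y, hy, rfl⟩ := (h p).1 hp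
      exact ⟨lo γ, lo_mem_lo.2 hγ, y, LL.isOp_iff'.2 rfl⟩
    · intro o' ho'
      obtain ⟨β, hβ, rfl⟩ := mem_lo.1 ho'
      obtain ⟨s', hs'⟩ := hex β hβ
      refine ⟨s', fun p => ?_, fun p y hp => ?_⟩
      · rw [hs', h]
        constructor
        · rintro ⟨γ, hγ, y, hy, rfl⟩
          exact ⟨⟨γ, hγ.trans hβ, y, hy, rfl⟩, lo γ, lo_mem_lo.2 hγ, y, LL.isOp_iff'.2 rfl⟩
        · rintro ⟨⟨γ, hγ, y, hy, rfl⟩, o'', ho'', y', hy'⟩
          obtain ⟨γ', hγ', rfl⟩ := mem_lo.1 ho''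
          rw [LL.isOp_iff', lpair_inj, lo_inj] at hy'
          rw [← hy'.1] at hγ'
          exact ⟨γ, hγ', y, hy, rfl⟩
      · rw [LL.isOp_iff'] at hp
        subst hp
        rw [h, ← hstep β s' hs']
        constructor
        · rintro ⟨γ, hγ, y', hy', h3⟩
          rw [lpair_inj, lo_inj] at h3
          rw [h3.1, h3.2]; exact hy'
        · intro hy
          exact ⟨β, hβ, y, hy, rfl⟩

/-- all stages of a recursion are in `L` -/
theorem exists_stg {H : Ordinal.{u} → LL.{u} → Prop} {Φ : LL.{u} → LL.{u} → LL.{u} → Prop}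
    (hΦ : DL (fun v => Φ (v 0) (v 1) (v 2))) (hbd : ∀ β, ∃ b : LL.{u}, ∀ x, H β x → x ∈ b)
    (hstep : ∀ β s, Stg H s β → ∀ x, H β x ↔ Φ s (lo β) x) (α : Ordinal.{u}) :
    ∃ s, Stg H s α := by
  induction α using WellFoundedLT.induction with
  | ind α ih =>
  choose b hb using hbd
  obtain ⟨γ, hl, h⟩ := exists_level (fun β : Set.Iio α => ZFSet.pair (lo β.1).1 (b β.1).1)
    (fun β => isL_pair (lo β.1).2 (b β.1).2)
  have hlo : ∀ β < α, (lo β).1 ∈ K γ ∧ (b β).1 ∈ K γ := by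
    intro β hβ
    have h1 := h ⟨β, hβ⟩
    have h2 : ({(lo β).1, (b β).1} : ZFSet.{u}) ∈ K γ := K_trans hl h1 (by
      rw [ZFSet.pair, ZFSet.mem_pair]; exact Or.inr rfl)
    exact ⟨K_trans hl h2 (ZFSet.mem_pair.2 (Or.inl rfl)),
      K_trans hl h2 (ZFSet.mem_pair.2 (Or.inr rfl))⟩
  have hΦ' : ∀ {s t r : (ℕ → LL.{u}) → LL.{u}}, DT Set.univ s → DT Set.univ t → DT Set.univ r →
      DL (fun v => Φ (s v) (t v) (r v)) := fun h1 h2 h3 => DL.sub3 hΦ h1 h2 h3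
  have hA : ∀ {s t : (ℕ → LL.{u}) → LL.{u}}, DT Set.univ s → DT Set.univ t →
      DL (fun v => App Φ (s v) (t v)) := fun h1 h2 => DL.app hΦ h1 h2
  obtain ⟨S, hS⟩ := LL_sep' (P := fun p => ∃ o, o ∈ lo α ∧ ∃ y, IsOp (· ∈ ·) p o y ∧
      ∃ s, App Φ s o ∧ Φ s o y) (by
    apply_rules (maxDepth := 1000) [hA, hΦ', DL.isOp, Dfn.ex, Dfn.and, Dfn.mem, DT.var, DL.c]) ⟨K γ, isL_K γ⟩
  refine ⟨S, fun p => ?_⟩
  rw [hS]
  constructor
  · rintro ⟨_, o, ho, y, hp, s, hs, hy⟩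
    obtain ⟨β, hβ, rfl⟩ := mem_lo.1 ho
    rw [app_iff hstep (fun δ hδ => ih δ (hδ.trans hβ))] at hs
    rw [← hstep β s hs] at hy
    exact ⟨β, hβ, y, hy, LL.isOp_iff'.1 hp⟩
  · rintro ⟨β, hβ, y, hy, rfl⟩
    refine ⟨?_, lo β, lo_mem_lo.2 hβ, y, LL.isOp_iff'.2 rfl, ?_⟩
    · exact pair_mem_lim hl (hlo β hβ).1 (K_trans hl (hlo β hβ).2 (hb β y hy))
    · obtain ⟨s, hs⟩ := ih β hβ
      exact ⟨s, (app_iff hstep (fun δ hδ => ih δ (hδ.trans hβ))).2 hs, (hstep β s hs y).1 hy⟩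

/-- the relation defined by a recursion is definable in `L` -/
theorem dl_rec {H : Ordinal.{u} → LL.{u} → Prop} {Φ : LL.{u} → LL.{u} → LL.{u} → Prop}
    (hΦ : DL (fun v => Φ (v 0) (v 1) (v 2))) (hbd : ∀ β, ∃ b : LL.{u}, ∀ x, H β x → x ∈ b)
    (hstep : ∀ β s, Stg H s β → ∀ x, H β x ↔ Φ s (lo β) x) :
    DL (fun v => ∃ β, v 0 = lo β ∧ H β (v 1)) := by
  have hΦ' : ∀ {s t r : (ℕ → LL.{u}) → LL.{u}}, DT Set.univ s → DT Set.univ t → DT Set.univ r →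
      DL (fun v => Φ (s v) (t v) (r v)) := fun h1 h2 h3 => DL.sub3 hΦ h1 h2 h3
  have hA : ∀ {s t : (ℕ → LL.{u}) → LL.{u}}, DT Set.univ s → DT Set.univ t →
      DL (fun v => App Φ (s v) (t v)) := fun h1 h2 => DL.app hΦ h1 h2
  have h1 : DL (fun v : ℕ → LL.{u} => ∃ s, App Φ s (v 0) ∧ Φ s (v 0) (v 1)) := by
    apply_rules (maxDepth := 1000) [hA, hΦ', Dfn.ex, Dfn.and, DT.var]
  refine h1.congr fun v => ?_
  constructor
  · rintro ⟨s, hs, hy⟩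
    obtain ⟨β, hβ⟩ := isOrd_iff_lo.1 hs.1
    rw [hβ] at hs hy
    rw [app_iff hstep (fun δ _ => exists_stg hΦ hbd hstep δ)] at hs
    exact ⟨β, hβ, (hstep β s hs _).2 hy⟩
  · rintro ⟨β, hβ, hy⟩
    obtain ⟨s, hs⟩ := exists_stg hΦ hbd hstep β
    rw [hβ]
    exact ⟨s, (app_iff hstep (fun δ _ => exists_stg hΦ hbd hstep δ)).2 hs, (hstep β s hs _).1 hy⟩

end Pool.Agent.DQ1
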