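import Pool.Agent.DQ1.KBase

/-! # Preparations for the existence of the coding structure -/

namespace Pool.Agent.DQ1

open Cardinal Ordinal

universe u v w

/-! ### Well-orders of countable limit type -/

/-- the predecessors of `c` are a wellorder of countable limit type, in first order terms and with
`Q₁` and `W` -/
structure WOC {A : Type u} (E : A → A → Prop) (c : A) : Prop where
  tri : ∀ a b, E a c → E b c → E a b ∨ a = b ∨ E b a
  trans : ∀ a b d, E a c → E b c → E d c → E a b → E b d → E a d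
  wf : WellFounded fun a b : {a // E a c} => E a.1 b.1
  ctb : ¬ ℵ₁ ≤ #{a // E a c}
  ne : ∃ a, E a c
  nolast : ∀ a, E a c → ∃ b, E b c ∧ E a b

theorem WOC.of_iso {A : Type u} {E : A → A → Prop} {c : A} {γ : Ordinal.{u}} (hγ : γ < om)
    (hl : Lim γ)
    (f : (fun a b : {a // E a c} => E a.1 b.1) ≃r (fun a b : Set.Iio γ => a.1 < b.1)) :
    WOC E c where
  tri a b ha hb := by
    rcases lt_trichotomy (f ⟨a, ha⟩) (f ⟨b, hb⟩) with h | h | h
    · exact Or.inl (f.map_rel_iff.1 h)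
    · exact Or.inr (Or.inl (congrArg Subtype.val (f.injective h)))
    · exact Or.inr (Or.inr (f.map_rel_iff.1 h))
  trans a b d ha hb hd h1 h2 := by
    have h1' := f.map_rel_iff.2 (show (fun a b : {a // E a c} => E a.1 b.1) ⟨a, ha⟩ ⟨b, hb⟩ from h1)
    have h2' := f.map_rel_iff.2 (show (fun a b : {a // E a c} => E a.1 b.1) ⟨b, hb⟩ ⟨d, hd⟩ from h2)
    exact (f.map_rel_iff (a := ⟨a, ha⟩) (b := ⟨d, hd⟩)).1 (lt_trans h1' h2')
  wf := by
    have h : WellFounded fun a b : Set.Iio γ => a.1 < b.1 := InvImage.wf Subtype.val Ordinal.lt_wf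
    refine Subrelation.wf (fun {a b} hab => ?_) (InvImage.wf f h)
    exact f.map_rel_iff.2 hab
  ctb := by
    intro h
    have h1 := Cardinal.lift_mk_eq'.2 ⟨f.toEquiv⟩
    rw [Cardinal.mk_Iio_ordinal, Cardinal.lift_lift] at h1
    have h2 : γ.card < ℵ₁ := by
      have := hγ
      unfold om at this
      exact Cardinal.lt_ord.1 this
    have h3 : #{a // E a c} = γ.card := by
      have h4 : Cardinal.lift.{u+1, u} #{a // E a c} = Cardinal.lift.{u+1, u} γ.card := h1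
      exact Cardinal.lift_injective h4
    rw [h3] at h
    exact absurd h2 (not_lt.2 h)
  ne := ⟨(f.symm ⟨0, hl.1⟩).1, (f.symm ⟨0, hl.1⟩).2⟩
  nolast a ha := by
    have h1 : Order.succ (f ⟨a, ha⟩).1 < γ := hl.2 _ (f ⟨a, ha⟩).2
    refine ⟨(f.symm ⟨_, h1⟩).1, (f.symm ⟨_, h1⟩).2, ?_⟩
    refine (f.map_rel_iff (a := ⟨a, ha⟩) (b := f.symm ⟨_, h1⟩)).1 ?_
    rw [RelIso.apply_symm_apply]
    exact Order.lt_succ _

theorem WOC.exists_iso {A : Type u} {E : A → A → Prop} {c : A} (h : WOC E c) :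
    ∃ γ : Ordinal.{u}, γ < om ∧ Lim γ ∧
      Nonempty ((fun a b : {a // E a c} => E a.1 b.1) ≃r (fun a b : Set.Iio γ => a.1 < b.1)) := by
  let r : {a // E a c} → {a // E a c} → Prop := fun a b => E a.1 b.1
  have h1 : Std.Trichotomous r := ⟨fun a b hab hba => by
    rcases h.tri a.1 b.1 a.2 b.2 with h | h | h
    · exact absurd h hab
    · exact Subtype.ext h
    · exact absurd h hba⟩
  have h2 : IsTrans _ r := ⟨fun a b d => h.trans a.1 b.1 d.1 a.2 b.2 d.2⟩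
  have h3 : IsWellFounded _ r := ⟨h.wf⟩
  have : IsWellOrder _ r := {}
  refine ⟨type r, ?_, ⟨?_, ?_⟩, ⟨(Ordinal.enum r).symm⟩⟩
  · unfold om
    rw [Cardinal.lt_ord, Ordinal.card_type]
    exact not_le.1 h.ctb
  · obtain ⟨a, ha⟩ := h.ne
    have : Nonempty {a // E a c} := ⟨⟨a, ha⟩⟩
    exact pos_iff_ne_zero.2 (Ordinal.type_ne_zero_of_nonempty r)
  · intro α hα
    obtain ⟨b, hb, hab⟩ := h.nolast (Ordinal.enum r ⟨α, hα⟩).1 (Ordinal.enum r ⟨α, hα⟩).2
    have h4 : Ordinal.typein r (Ordinal.enum r ⟨α, hα⟩) < Ordinal.typein r ⟨b, hb⟩ :=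
      (Ordinal.typein_lt_typein r).2 hab
    rw [Ordinal.typein_enum] at h4
    exact (Order.succ_le_of_lt h4).trans_lt (Ordinal.typein_lt_type r _)

/-! ### Absoluteness of the Gödel operations -/

section

variable {U : Type v} {U' : Type w} {e : U → U → Prop} {e' : U' → U' → Prop}

theorem isUp_equiv (f : U ≃ U') (hf : ∀ x y, e x y ↔ e' (f x) (f y)) (c a b : U) :
    IsUp e c a b ↔ IsUp e' (f c) (f a) (f b) := by
  unfold IsUp
  rw [← f.forall_congr_right]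
  refine forall_congr' fun w => ?_
  rw [hf, f.injective.eq_iff, f.injective.eq_iff]

theorem isOp_equiv (f : U ≃ U') (hf : ∀ x y, e x y ↔ e' (f x) (f y)) (p a b : U) :
    IsOp e p a b ↔ IsOp e' (f p) (f a) (f b) := by
  unfold IsOp
  rw [← f.exists_congr_right]
  refine exists_congr fun s => ?_
  rw [← f.exists_congr_right]
  refine exists_congr fun t => ?_
  rw [isUp_equiv f hf, isUp_equiv f hf, isUp_equiv f hf]

theorem isTr_equiv (f : U ≃ U') (hf : ∀ x y, e x y ↔ e' (f x) (f y)) (p a b c : U) :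
    IsTr e p a b c ↔ IsTr e' (f p) (f a) (f b) (f c) := by
  unfold IsTr
  rw [← f.exists_congr_right]
  refine exists_congr fun q => ?_
  rw [isOp_equiv f hf, isOp_equiv f hf]

theorem th_equiv (f : U ≃ U') (hf : ∀ x y, e x y ↔ e' (f x) (f y)) (i : ℕ) (w a b : U) :
    Th e i w a b ↔ Th e' i (f w) (f a) (f b) := by
  have hO := isOp_equiv f hf
  have hT := isTr_equiv f hf
  match i with
  | 0 => simp only [Th, f.injective.eq_iff]
  | 1 => simp only [Th, ← f.exists_congr_right, ← hf, ← hO]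
  | 2 => simp only [Th, ← hf]
  | 3 => simp only [Th, ← f.exists_congr_right, ← hf, ← hO]
  | 4 => simp only [Th, ← f.exists_congr_right, ← hf, ← hO]
  | 5 => simp only [Th, ← f.exists_congr_right, ← hf, ← hO]
  | 6 => simp only [Th, ← f.exists_congr_right, ← hf, ← hO]
  | 7 => simp only [Th, ← f.exists_congr_right, ← hf, ← hO, ← hT]
  | 8 => simp only [Th, ← f.exists_congr_right, ← hf, ← hT]
  | 9 => simp only [Th, ← f.exists_congr_right, ← hf, ← hO]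
  | n + 10 => simp only [Th]

theorem isG_equiv (f : U ≃ U') (hf : ∀ x y, e x y ↔ e' (f x) (f y)) (i : ℕ) (c a b : U) :
    IsG e i c a b ↔ IsG e' i (f c) (f a) (f b) := by
  unfold IsG
  rw [← f.forall_congr_right]
  refine forall_congr' fun w => ?_
  rw [hf, th_equiv f hf]

theorem stepMem_equiv (f : U ≃ U') (hf : ∀ x y, e x y ↔ e' (f x) (f y)) (x k : U) :
    StepMem e x k ↔ StepMem e' (f x) (f k) := by
  unfold StepMem
  simp only [← f.exists_congr_right, ← hf, ← isG_equiv f hf, f.injective.eq_iff]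

end

/-! ### The structure `K γ`, `γ` limit -/

section

variable {γ : Ordinal.{u}}

/-- the structure `(K γ, ∈)` -/
abbrev Ks (γ : Ordinal.{u}) : Type (u + 1) := {x : ZFSet.{u} // x ∈ K γ}

/-- membership -/
def ke (x y : Ks γ) : Prop := x.1 ∈ y.1

theorem ke_isUp (hγ : Lim γ) (c a b : Ks γ) : IsUp ke c a b ↔ c.1 = {a.1, b.1} := by
  constructor
  · intro h
    ext w
    rw [ZFSet.mem_pair]
    constructor
    · intro hw
      rcases (h ⟨w, K_trans hγ c.2 hw⟩).1 hw with h1 | h1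
      · exact Or.inl (congrArg Subtype.val h1)
      · exact Or.inr (congrArg Subtype.val h1)
    · rintro (rfl | rfl)
      · exact (h a).2 (Or.inl rfl)
      · exact (h b).2 (Or.inr rfl)
  · intro h w
    unfold ke
    rw [h, ZFSet.mem_pair, ← Subtype.ext_iff, ← Subtype.ext_iff]

theorem ke_isOp (hγ : Lim γ) (p a b : Ks γ) : IsOp ke p a b ↔ p.1 = ZFSet.pair a.1 b.1 := by
  unfold IsOp
  simp only [ke_isUp hγ]
  constructor
  · rintro ⟨s, t, h1, h2, h3⟩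
    rw [h3, h1, h2, ZFSet.pair, ZFSet.pair_eq_singleton]
  · intro h
    refine ⟨⟨{a.1, a.1}, upair_mem_lim hγ a.2 a.2⟩, ⟨{a.1, b.1}, upair_mem_lim hγ a.2 b.2⟩,
      rfl, rfl, ?_⟩
    show p.1 = {({a.1, a.1} : ZFSet.{u}), {a.1, b.1}}
    rw [h, ZFSet.pair, ZFSet.pair_eq_singleton]

theorem ke_isTr (hγ : Lim γ) (p a b c : Ks γ) :
    IsTr ke p a b c ↔ p.1 = ZFSet.pair a.1 (ZFSet.pair b.1 c.1) := by
  unfold IsTr
  simp only [ke_isOp hγ]
  constructor
  · rintro ⟨q, h1, h2⟩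
    rw [h2, h1]
  · intro h
    exact ⟨⟨_, pair_mem_lim hγ b.2 c.2⟩, rfl, h⟩

theorem ke_th (hγ : Lim γ) (i : ℕ) (w a b : Ks γ) :
    Th ke i w a b ↔ Th (· ∈ ·) i w.1 a.1 b.1 := by
  have tr : ∀ {x : Ks γ} {y : ZFSet.{u}}, y ∈ x.1 → y ∈ K γ := fun {x y} h => K_trans hγ x.2 h
  have pt : ∀ {x y : ZFSet.{u}}, ZFSet.pair x y ∈ K γ → x ∈ K γ ∧ y ∈ K γ := by
    intro x y hxy
    have h1 : ({x, y} : ZFSet.{u}) ∈ K γ :=
      K_trans hγ hxy (by rw [ZFSet.pair, ZFSet.mem_pair]; exact Or.inr rfl)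
    exact ⟨K_trans hγ h1 (ZFSet.mem_pair.2 (Or.inl rfl)),
      K_trans hγ h1 (ZFSet.mem_pair.2 (Or.inr rfl))⟩
  match i with
  | 0 => simp only [Th, Subtype.ext_iff]
  | 1 =>
    simp only [Th, ke_isOp hγ, isOp_iff, ke]
    constructor
    · rintro ⟨x, y, hx, hy, h⟩
      exact ⟨x.1, y.1, hx, hy, h⟩
    · rintro ⟨x, y, hx, hy, h⟩
      exact ⟨⟨x, tr hx⟩, ⟨y, tr hy⟩, hx, hy, h⟩
  | 2 => simp only [Th, ke]
  | 3 =>
    simp only [Th, ke_isOp hγ, isOp_iff, ke]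
    constructor
    · rintro ⟨x, p, hp, h⟩
      exact ⟨x.1, p.1, hp, h⟩
    · rintro ⟨x, p, hp, h⟩
      have h1 := tr hp
      rw [h] at h1
      exact ⟨⟨x, (pt h1).1⟩, ⟨p, tr hp⟩, hp, h⟩
  | 4 =>
    simp only [Th, ke_isOp hγ, isOp_iff, ke]
    constructor
    · rintro ⟨x, y, hx, hy, hxy, h⟩
      exact ⟨x.1, y.1, hx, hy, hxy, h⟩
    · rintro ⟨x, y, hx, hy, hxy, h⟩
      exact ⟨⟨x, tr hx⟩, ⟨y, tr hy⟩, hx, hy, hxy, h⟩
  | 5 =>
    simp only [Th, ke_isOp hγ, isOp_iff, ke]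
    constructor
    · rintro ⟨x, y, hx, hy, hxy, h⟩
      exact ⟨x.1, y.1, hx, hy, hxy, h⟩
    · rintro ⟨x, y, hx, hy, hxy, h⟩
      exact ⟨⟨x, tr hx⟩, ⟨y, tr hy⟩, hx, hy, hxy, h⟩
  | 6 =>
    simp only [Th, ke_isOp hγ, isOp_iff, ke]
    constructor
    · rintro ⟨x, hx, h⟩
      exact ⟨x.1, hx, h⟩
    · rintro ⟨x, hx, h⟩
      exact ⟨⟨x, tr hx⟩, hx, h⟩
  | 7 =>
    simp only [Th, ke_isOp hγ, ke_isTr hγ, isOp_iff, isTr_iff, ke]
    constructor
    · rintro ⟨x, y, z, p, q, hp, h1, h2, h3⟩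
      exact ⟨x.1, y.1, z.1, p.1, q.1, hp, h1, h2, h3⟩
    · rintro ⟨x, y, z, p, q, hp, h1, h2, h3⟩
      have h4 := tr hp
      rw [h1] at h4
      have h5 := (pt h4).1
      have h6 := h5
      rw [h2] at h6
      exact ⟨⟨x, (pt h6).1⟩, ⟨y, (pt h6).2⟩, ⟨z, (pt h4).2⟩, ⟨p, tr hp⟩, ⟨q, h5⟩, hp, h1, h2, h3⟩
  | 8 =>
    simp only [Th, ke_isTr hγ, isTr_iff, ke]
    constructor
    · rintro ⟨x, y, z, p, hp, h1, h3⟩
      exact ⟨x.1, y.1, z.1, p.1, hp, h1, h3⟩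
    · rintro ⟨x, y, z, p, hp, h1, h3⟩
      have h4 := tr hp
      rw [h1] at h4
      have h6 := (pt h4).2
      exact ⟨⟨x, (pt h6).1⟩, ⟨y, (pt h4).1⟩, ⟨z, (pt h6).2⟩, ⟨p, tr hp⟩, hp, h1, h3⟩
  | 9 =>
    simp only [Th, ke_isOp hγ, isOp_iff, ke]
    constructor
    · rintro ⟨p, hp, h⟩
      exact ⟨p.1, hp, h⟩
    · rintro ⟨p, hp, h⟩
      exact ⟨⟨p, tr hp⟩, hp, h⟩
  | n + 10 => simp only [Th]

theorem ke_isG (hγ : Lim γ) (i : ℕ) (c a b : Ks γ) :
    IsG ke i c a b ↔ c.1 = G i a.1 b.1 := by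
  rw [← isG_iff]
  constructor
  · intro h w
    constructor
    · intro hw
      exact (ke_th hγ i ⟨w, K_trans hγ c.2 hw⟩ a b).1 ((h ⟨w, K_trans hγ c.2 hw⟩).1 hw)
    · intro hw
      have hwK : w ∈ K γ := by
        refine Th_closed (H := {x | x ∈ K γ}) (fun x hx y hy => K_trans hγ hx hy)
          (fun x hx y hy => upair_mem_lim hγ hx hy) a.2 b.2 hw
      exact (h ⟨w, hwK⟩).2 ((ke_th hγ i ⟨w, hwK⟩ a b).2 hw)
  · intro h w
    rw [ke_th hγ]
    exact h w.1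

theorem ke_G (hγ : Lim γ) {i : ℕ} (hi : i < 10) (a b : Ks γ) : ∃ c : Ks γ, IsG ke i c a b :=
  ⟨⟨G i a.1 b.1, G_mem_lim hi hγ a.2 b.2⟩, (ke_isG hγ _ _ _ _).2 rfl⟩

theorem ke_step (hγ : Lim γ) (x k : Ks γ) : StepMem ke x k ↔ x.1 ∈ stp k.1 := by
  rw [mem_stp]
  unfold StepMem
  constructor
  · rintro (h | h | ⟨i, hi, a, b, ha, hb, h⟩)
    · exact Or.inl h
    · exact Or.inr (Or.inl (congrArg Subtype.val h))
    · refine Or.inr (Or.inr ⟨i, hi, a.1, b.1, ?_, ?_, ?_⟩)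
      · rcases ha with ha | ha
        · exact Or.inl ha
        · exact Or.inr (congrArg Subtype.val ha)
      · rcases hb with ha | ha
        · exact Or.inl ha
        · exact Or.inr (congrArg Subtype.val ha)
      · rw [isG_iff]; exact (ke_isG hγ _ _ _ _).1 h
  · rintro (h | h | ⟨i, hi, a, b, ha, hb, h⟩)
    · exact Or.inl h
    · exact Or.inr (Or.inl (Subtype.ext h))
    · have key : ∀ {a : ZFSet.{u}}, a ∈ k.1 ∨ a = k.1 → a ∈ K γ := by
        rintro a (h | h)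
        · exact K_trans hγ k.2 h
        · rw [h]; exact k.2
      refine Or.inr (Or.inr ⟨i, hi, ⟨a, key ha⟩, ⟨b, key hb⟩, ?_, ?_, ?_⟩)
      · rcases ha with ha | ha
        · exact Or.inl ha
        · exact Or.inr (Subtype.ext ha)
      · rcases hb with ha | ha
        · exact Or.inl ha
        · exact Or.inr (Subtype.ext ha)
      · rw [ke_isG hγ]; exact isG_iff.1 h

/-- the level `K ξ` as an element of `K γ` -/
noncomputable def kl {ξ : Ordinal.{u}} (h : ξ < γ) : Ks γ := ⟨K ξ, K_mem h⟩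

theorem ke_kl (hγ : Lim γ) (x : Ks γ) {ξ : Ordinal.{u}} (h : ξ < γ) :
    ke x (kl h) ↔ ∃ (ζ : Ordinal.{u}) (h' : ζ < ξ), StepMem ke x (kl (h'.trans h)) := by
  have h0 : ke x (kl h) ↔ x.1 ∈ K ξ := Iff.rfl
  rw [h0, mem_K]
  refine exists_congr fun ζ => ⟨?_, ?_⟩
  · rintro ⟨h', hx⟩
    exact ⟨h', (ke_step hγ x (kl (h'.trans h))).2 hx⟩
  · rintro ⟨h', hx⟩
    exact ⟨h', (ke_step hγ x (kl (h'.trans h))).1 hx⟩

theorem ke_exists_kl (hγ : Lim γ) (x : Ks γ) : ∃ (ξ : Ordinal.{u}) (h : ξ < γ), ke x (kl h) := by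
  obtain ⟨ξ, h, hx⟩ := (K_lim hγ).1 x.2
  exact ⟨ξ, h, hx⟩

theorem ke_wf : WellFounded (ke (γ := γ)) := InvImage.wf Subtype.val ZFSet.mem_wf

theorem ke_ext (hγ : Lim γ) (x y : Ks γ) (h : ∀ z, ke z x ↔ ke z y) : x = y := by
  refine Subtype.ext (ZFSet.ext fun z => ?_)
  constructor
  · intro hz
    exact (h ⟨z, K_trans hγ x.2 hz⟩).1 hz
  · intro hz
    exact (h ⟨z, K_trans hγ y.2 hz⟩).2 hz

end

/-! ### The first uncountable ordinal -/

theorem card_lt_of_lt_om {α : Ordinal.{u}} (h : α < om) : α.card < ℵ₁ := by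
  unfold om at h
  exact Cardinal.lt_ord.1 h

theorem lt_om_iff {α : Ordinal.{u}} : α < om ↔ α.card < ℵ₁ := by
  unfold om
  exact Cardinal.lt_ord

theorem lim_omS : Lim (om : Ordinal.{u}) := by
  refine ⟨lt_om_iff.2 ?_, fun α hα => lt_om_iff.2 ?_⟩
  · rw [Ordinal.card_zero]
    exact lt_of_lt_of_le Cardinal.aleph0_pos (Cardinal.aleph0_le_aleph 1)
  · rw [show Order.succ α = α + 1 from rfl, Ordinal.card_add_one]
    exact Cardinal.add_lt_of_lt (Cardinal.aleph0_le_aleph 1) (card_lt_of_lt_om hα)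
      (lt_of_lt_of_le Cardinal.one_lt_aleph0 (Cardinal.aleph0_le_aleph 1))

end Pool.Agent.DQ1
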