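import Pool.Agent.DQ1.Defs2
import Pool.Agent.DQ1.SigPre

/-! # The axioms of the coding structure and their definability -/

namespace Pool.Agent.DQ1

open Cardinal Ordinal

universe u v w

/-! ## Definability -/

/-- the predicate is expressed by a formula -/
def Df (P : ∀ (D : Type u), Str D → (ℕ → D) → Prop) : Prop :=
  ∃ φ : QFm, ∀ (D : Type u) (M : Str D) (v : ℕ → D), φ.Sat M v ↔ P D M v

namespace Df

variable {P Q : ∀ (D : Type u), Str D → (ℕ → D) → Prop}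

theorem congr (h : Df P) (hPQ : ∀ D M v, P D M v ↔ Q D M v) : Df Q := by
  obtain ⟨φ, hφ⟩ := h
  exact ⟨φ, fun D M v => (hφ D M v).trans (hPQ D M v)⟩

theorem not (h : Df P) : Df fun D M v => ¬ P D M v := by
  obtain ⟨φ, hφ⟩ := h
  exact ⟨.neg φ, fun D M v => not_congr (hφ D M v)⟩

theorem and (h : Df P) (h' : Df Q) : Df fun D M v => P D M v ∧ Q D M v := by
  obtain ⟨φ, hφ⟩ := h
  obtain ⟨ψ, hψ⟩ := h'
  exact ⟨.and φ ψ, fun D M v => and_congr (hφ D M v) (hψ D M v)⟩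

theorem or (h : Df P) (h' : Df Q) : Df fun D M v => P D M v ∨ Q D M v :=
  (h.not.and h'.not).not.congr fun D M v => by tauto

theorem imp (h : Df P) (h' : Df Q) : Df fun D M v => P D M v → Q D M v :=
  (h.and h'.not).not.congr fun D M v => by tauto

theorem iff (h : Df P) (h' : Df Q) : Df fun D M v => (P D M v ↔ Q D M v) :=
  ((h.imp h').and (h'.imp h)).congr fun D M v => by tauto

theorem all (k : ℕ) {R : ∀ (D : Type u), Str D → (ℕ → D) → D → Prop}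
    (h : Df fun D M v => R D M (fun n => v (n+1)) (v 0)) :
    Df fun D M v => ∀ a ∈ M.sort k, R D M v a := by
  obtain ⟨φ, hφ⟩ := h
  exact ⟨.all k φ, fun D M v => forall₂_congr fun a _ => hφ D M (push a v)⟩

theorem ex (k : ℕ) {R : ∀ (D : Type u), Str D → (ℕ → D) → D → Prop}
    (h : Df fun D M v => R D M (fun n => v (n+1)) (v 0)) :
    Df fun D M v => ∃ a ∈ M.sort k, R D M v a :=
  (all k (R := fun D M v a => ¬ R D M v a) h.not).not.congr fun D M v => by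
    push Not
    rfl

theorem q (k : ℕ) {R : ∀ (D : Type u), Str D → (ℕ → D) → D → Prop}
    (h : Df fun D M v => R D M (fun n => v (n+1)) (v 0)) :
    Df fun D M v => ℵ₁ ≤ #{a // a ∈ M.sort k ∧ R D M v a} := by
  obtain ⟨φ, hφ⟩ := h
  refine ⟨.q k φ, fun D M v => ?_⟩
  have h1 : ∀ a, φ.Sat M (push a v) ↔ R D M v a := fun a => hφ D M (push a v)
  simp only [QFm.Sat, h1]

theorem wf (k : ℕ) {R : ∀ (D : Type u), Str D → (ℕ → D) → D → D → Prop}
    (h : Df fun D M v => R D M (fun n => v (n+2)) (v 0) (v 1)) :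
    Df fun D M v => WellFounded fun a b : {a // a ∈ M.sort k} => R D M v a.1 b.1 := by
  obtain ⟨φ, hφ⟩ := h
  refine ⟨.wf k φ, fun D M v => ?_⟩
  have h1 : ∀ a b, φ.Sat M (push a (push b v)) ↔ R D M v a b :=
    fun a b => hφ D M (push a (push b v))
  simp only [QFm.Sat, h1]

theorem eq (i j : ℕ) : Df fun D _ v => v i = v j := ⟨.eq i j, fun _ _ _ => Iff.rfl⟩

theorem true : Df.{u} fun _ _ _ => True := (eq 0 0).congr fun _ _ _ => by simp

theorem rel1 (k i : ℕ) : Df fun D M v => M.rel k [v i] := ⟨.rel k [i], fun _ _ _ => Iff.rfl⟩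

theorem rel2 (k i j : ℕ) : Df fun D M v => M.rel k [v i, v j] :=
  ⟨.rel k [i, j], fun _ _ _ => Iff.rfl⟩

theorem mem (k i : ℕ) : Df fun D M v => v i ∈ M.sort k :=
  (ex k (R := fun D M v a => a = v i) (eq 0 (i+1))).congr fun D M v => by simp

theorem allNat {R : ℕ → ∀ (D : Type u), Str D → (ℕ → D) → Prop} (h : ∀ i, Df (R i)) (n : ℕ) :
    Df fun D M v => ∀ i < n, R i D M v := by
  induction n with
  | zero => exact true.congr fun D M v => by simp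
  | succ n ih =>
    refine (ih.and (h n)).congr fun D M v => ?_
    constructor
    · rintro ⟨h1, h2⟩ i hi
      rcases Nat.lt_succ_iff_lt_or_eq.1 hi with h3 | h3
      · exact h1 i h3
      · rw [h3]; exact h2
    · intro h1
      exact ⟨fun i hi => h1 i (by omega), h1 n (by omega)⟩

theorem exNat {R : ℕ → ∀ (D : Type u), Str D → (ℕ → D) → Prop} (h : ∀ i, Df (R i)) (n : ℕ) :
    Df fun D M v => ∃ i < n, R i D M v :=
  (allNat (R := fun i D M v => ¬ R i D M v) (fun i => (h i).not) n).not.congr fun D M v => by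
    push Not
    rfl

end Df

/-! ## The relations of the structure -/

section

variable {D : Type u} (M : Str D)

/-- the relation of sort `0` -/
def sA (x y : D) : Prop := M.rel 0 [x, y]
/-- the order of sort `1` -/
def sLt (x y : D) : Prop := M.rel 1 [x, y]
/-- membership on sort `2` -/
def sE (x y : D) : Prop := M.rel 2 [x, y]
/-- `x` is the level `K ξ` -/
def sK (ξ x : D) : Prop := M.rel 3 [ξ, x]
/-- `x` is the ordinal `ξ` -/
def sJ (ξ x : D) : Prop := M.rel 4 [ξ, x]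
/-- `η` is the value of the coding function at `ξ` -/
def sF (ξ η : D) : Prop := M.rel 5 [ξ, η]
/-- the isomorphism of the predecessors of `c` with the ordinal `g` -/
def sI (a ξ : D) : Prop := M.rel 6 [a, ξ]
/-- the club -/
def sC (ξ : D) : Prop := M.rel 7 [ξ]

/-- `c = {a, b}` -/
def rUp (c a b : D) : Prop := ∀ w ∈ M.sort 2, sE M w c ↔ w = a ∨ w = b

/-- `p = (a, b)` -/
def rOp (p a b : D) : Prop :=
  ∃ s ∈ M.sort 2, ∃ t ∈ M.sort 2, rUp M s a a ∧ rUp M t a b ∧ rUp M p s t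

/-- `p = (a, (b, c))` -/
def rTr (p a b c : D) : Prop := ∃ q ∈ M.sort 2, rOp M q b c ∧ rOp M p a q

/-- the Gödel operations -/
def rTh : ℕ → D → D → D → Prop
  | 0, w, a, b => w = a ∨ w = b
  | 1, w, a, b => ∃ x ∈ M.sort 2, ∃ y ∈ M.sort 2, sE M x a ∧ sE M y b ∧ rOp M w x y
  | 2, w, a, b => sE M w a ∧ ¬ sE M w b
  | 3, w, a, _ => ∃ x ∈ M.sort 2, ∃ p ∈ M.sort 2, sE M p a ∧ rOp M p x w
  | 4, w, a, _ => ∃ x ∈ M.sort 2, ∃ y ∈ M.sort 2, sE M x a ∧ sE M y a ∧ sE M x y ∧ rOp M w x y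
  | 5, w, a, _ => ∃ x ∈ M.sort 2, ∃ y ∈ M.sort 2, sE M x a ∧ sE M y a ∧ sE M y x ∧ rOp M w x y
  | 6, w, a, _ => ∃ x ∈ M.sort 2, sE M x a ∧ rOp M w x x
  | 7, w, a, _ => ∃ x ∈ M.sort 2, ∃ y ∈ M.sort 2, ∃ z ∈ M.sort 2, ∃ p ∈ M.sort 2,
      ∃ q ∈ M.sort 2, sE M p a ∧ rOp M p q z ∧ rOp M q x y ∧ rTr M w x y z
  | 8, w, a, _ => ∃ x ∈ M.sort 2, ∃ y ∈ M.sort 2, ∃ z ∈ M.sort 2, ∃ p ∈ M.sort 2,
      sE M p a ∧ rTr M p y x z ∧ rTr M w x y z
  | 9, w, a, b => ∃ p ∈ M.sort 2, sE M p a ∧ rOp M p w b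
  | _, _, _, _ => False

/-- `c = G_i(a, b)` -/
def rG (i : ℕ) (c a b : D) : Prop := ∀ w ∈ M.sort 2, sE M w c ↔ rTh M i w a b

/-- one step of the hierarchy -/
def rStep (x k : D) : Prop :=
  sE M x k ∨ x = k ∨ ∃ i < 10, ∃ a ∈ M.sort 2, ∃ b ∈ M.sort 2,
    (sE M a k ∨ a = k) ∧ (sE M b k ∨ b = k) ∧ rG M i x a b

/-- the ordinal `ξ` is an element of `c` -/
def rIn (ξ c : D) : Prop := ∃ j ∈ M.sort 2, sJ M ξ j ∧ sE M j c

/-- `ξ` is positive -/
def rPos (ξ : D) : Prop := ∃ z ∈ M.sort 1, sLt M z ξ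

/-- `c` is closed and unbounded in `δ` -/
def rClub (c δ : D) : Prop :=
  (∀ α ∈ M.sort 1, sLt M α δ → ∃ β ∈ M.sort 1, rIn M β c ∧ sLt M α β ∧ sLt M β δ) ∧
    ∀ l ∈ M.sort 1, sLt M l δ → rPos M l →
      (∀ α ∈ M.sort 1, sLt M α l → ∃ β ∈ M.sort 1, rIn M β c ∧ sLt M α β ∧ sLt M β l) → rIn M l c

/-- the condition `Gd` for the function `F` -/
def rGd (δ ζ η : D) : Prop :=
  sLt M η δ ∧ ∃ c ∈ M.sort 2, (∃ k ∈ M.sort 2, sK M ζ k ∧ sE M c k) ∧ rClub M c δ ∧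
    ∀ ξ ∈ M.sort 1, rIn M ξ c → sLt M ξ δ → ¬ sF M ξ η

/-- `η` is the value required by the recursion of the coding function -/
def rNxt (δ η : D) : Prop :=
  (∃ ζ ∈ M.sort 1, rGd M δ ζ η ∧
    (∀ ζ' ∈ M.sort 1, sLt M ζ' ζ → ∀ η' ∈ M.sort 1, ¬ rGd M δ ζ' η') ∧
    ∀ η' ∈ M.sort 1, sLt M η' η → ¬ rGd M δ ζ η') ∨
  ((∀ ζ ∈ M.sort 1, ∀ η' ∈ M.sort 1, ¬ rGd M δ ζ η') ∧ ¬ rPos M η)

/-- `t` is the successor of `g` -/
def rSucc (g t : D) : Prop := sLt M g t ∧ ∀ ζ ∈ M.sort 1, sLt M ζ t → ζ = g ∨ sLt M ζ g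

/-- The axioms: sort `1` is `ω₁`, sort `2` is `K ω₁`, `sK`, `sJ`, `sF` are the graphs of the levels,
the ordinals, the coding function; `sI` is an isomorphism of the predecessors of `c` with the limit
ordinal `g`, `sC` is a club on which the coding function omits the value `t`. -/
structure Ax (c g t : D) : Prop where
  o_tri : ∀ ξ ∈ M.sort 1, ∀ η ∈ M.sort 1, sLt M ξ η ∨ ξ = η ∨ sLt M η ξ
  o_trans : ∀ ξ ∈ M.sort 1, ∀ η ∈ M.sort 1, ∀ ζ ∈ M.sort 1, sLt M ξ η → sLt M η ζ → sLt M ξ ζ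
  o_wf : WellFounded fun a b : {a // a ∈ M.sort 1} => sLt M a.1 b.1
  o_big : ℵ₁ ≤ #{a // a ∈ M.sort 1 ∧ True}
  o_small : ∀ ξ ∈ M.sort 1, ¬ ℵ₁ ≤ #{a // a ∈ M.sort 1 ∧ sLt M a ξ}
  u_wf : WellFounded fun a b : {a // a ∈ M.sort 2} => sE M a.1 b.1
  u_ext : ∀ x ∈ M.sort 2, ∀ y ∈ M.sort 2, (∀ z ∈ M.sort 2, sE M z x ↔ sE M z y) → x = y
  k_ex : ∀ ξ ∈ M.sort 1, ∃ x ∈ M.sort 2, sK M ξ x ∧ ∀ y ∈ M.sort 2, sK M ξ y → y = x
  h1 : ∀ x ∈ M.sort 2, ∃ ξ ∈ M.sort 1, ∃ k ∈ M.sort 2, sK M ξ k ∧ sE M x k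
  h2 : ∀ x ∈ M.sort 2, ∀ ξ ∈ M.sort 1, ∀ k ∈ M.sort 2, sK M ξ k →
    (sE M x k ↔ ∃ ζ ∈ M.sort 1, sLt M ζ ξ ∧ ∃ l ∈ M.sort 2, sK M ζ l ∧ rStep M x l)
  h3 : ∀ i < 10, ∀ a ∈ M.sort 2, ∀ b ∈ M.sort 2, ∃ c ∈ M.sort 2, rG M i c a b
  j_ex : ∀ ξ ∈ M.sort 1, ∃ x ∈ M.sort 2, sJ M ξ x ∧ ∀ y ∈ M.sort 2, sJ M ξ y → y = x
  j_mem : ∀ ξ ∈ M.sort 1, ∀ j ∈ M.sort 2, sJ M ξ j →
    ∀ x ∈ M.sort 2, sE M x j ↔ ∃ ζ ∈ M.sort 1, sLt M ζ ξ ∧ sJ M ζ x
  f_rec : ∀ δ ∈ M.sort 1, ∀ η ∈ M.sort 1, sF M δ η ↔ rNxt M δ η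
  g_mem : g ∈ M.sort 1
  t_mem : t ∈ M.sort 1
  g_pos : rPos M g
  g_lim : ∀ α ∈ M.sort 1, sLt M α g → ∃ β ∈ M.sort 1, sLt M α β ∧ sLt M β g
  i_ex : ∀ a ∈ M.sort 0, sA M a c → ∃ ξ ∈ M.sort 1, sLt M ξ g ∧ sI M a ξ
  i_onto : ∀ ξ ∈ M.sort 1, sLt M ξ g → ∃ a ∈ M.sort 0, sA M a c ∧ sI M a ξ
  i_iso : ∀ a ∈ M.sort 0, ∀ b ∈ M.sort 0, ∀ ξ ∈ M.sort 1, ∀ η ∈ M.sort 1, sA M a c → sA M b c →
    sLt M ξ g → sLt M η g → sI M a ξ → sI M b η →
    (a = b ↔ ξ = η) ∧ (sA M a b ↔ sLt M ξ η)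
  c_unb : ∀ α ∈ M.sort 1, ∃ β ∈ M.sort 1, sC M β ∧ sLt M α β
  c_closed : ∀ l ∈ M.sort 1, rPos M l →
    (∀ α ∈ M.sort 1, sLt M α l → ∃ β ∈ M.sort 1, sC M β ∧ sLt M α β ∧ sLt M β l) → sC M l
  c_omit : ∀ δ ∈ M.sort 1, sC M δ → ¬ sF M δ t

end

/-! ### The relativised Gödel operations -/

section

variable {D : Type u} (M : Str D)

/-- sort `2` as a structure -/
def sEE (x y : {x // x ∈ M.sort 2}) : Prop := sE M x.1 y.1

variable {M}

theorem rUp_iff (c a b : {x // x ∈ M.sort 2}) : rUp M c.1 a.1 b.1 ↔ IsUp (sEE M) c a b := by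
  simp only [rUp, IsUp, sEE, Subtype.forall, Subtype.ext_iff]

theorem rOp_iff (c a b : {x // x ∈ M.sort 2}) : rOp M c.1 a.1 b.1 ↔ IsOp (sEE M) c a b := by
  simp only [rOp, IsOp, ← rUp_iff, Subtype.exists, exists_prop]

theorem rTr_iff (p a b c : {x // x ∈ M.sort 2}) :
    rTr M p.1 a.1 b.1 c.1 ↔ IsTr (sEE M) p a b c := by
  simp only [rTr, IsTr, ← rOp_iff, Subtype.exists, exists_prop]

theorem rTh_iff (i : ℕ) (w a b : {x // x ∈ M.sort 2}) :
    rTh M i w.1 a.1 b.1 ↔ Th (sEE M) i w a b := by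
  match i with
  | 0 => simp only [rTh, Th, Subtype.ext_iff]
  | 1 => simp only [rTh, Th, sEE, ← rOp_iff, Subtype.exists, exists_prop]
  | 2 => simp only [rTh, Th, sEE]
  | 3 => simp only [rTh, Th, sEE, ← rOp_iff, Subtype.exists, exists_prop]
  | 4 => simp only [rTh, Th, sEE, ← rOp_iff, Subtype.exists, exists_prop]
  | 5 => simp only [rTh, Th, sEE, ← rOp_iff, Subtype.exists, exists_prop]
  | 6 => simp only [rTh, Th, sEE, ← rOp_iff, Subtype.exists, exists_prop]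
  | 7 => simp only [rTh, Th, sEE, ← rOp_iff, ← rTr_iff, Subtype.exists, exists_prop]
  | 8 => simp only [rTh, Th, sEE, ← rTr_iff, Subtype.exists, exists_prop]
  | 9 => simp only [rTh, Th, sEE, ← rOp_iff, Subtype.exists, exists_prop]
  | n + 10 => simp only [rTh, Th]

theorem rG_iff (i : ℕ) (c a b : {x // x ∈ M.sort 2}) :
    rG M i c.1 a.1 b.1 ↔ IsG (sEE M) i c a b := by
  simp only [rG, IsG, ← rTh_iff, Subtype.forall, sEE]

theorem rStep_iff (x k : {x // x ∈ M.sort 2}) :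
    rStep M x.1 k.1 ↔ StepMem (sEE M) x k := by
  simp only [rStep, StepMem, ← rG_iff, Subtype.exists, exists_prop, sEE, Subtype.ext_iff]

end

/-! ### Definability of the axioms -/

theorem Df.sA (x y : ℕ) : Df fun _ M v => sA M (v x) (v y) := Df.rel2 0 x y

theorem Df.sLt (x y : ℕ) : Df fun _ M v => sLt M (v x) (v y) := Df.rel2 1 x y

theorem Df.sE (x y : ℕ) : Df fun _ M v => sE M (v x) (v y) := Df.rel2 2 x y

theorem Df.sK (x y : ℕ) : Df fun _ M v => sK M (v x) (v y) := Df.rel2 3 x y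

theorem Df.sJ (x y : ℕ) : Df fun _ M v => sJ M (v x) (v y) := Df.rel2 4 x y

theorem Df.sF (x y : ℕ) : Df fun _ M v => sF M (v x) (v y) := Df.rel2 5 x y

theorem Df.sI (x y : ℕ) : Df fun _ M v => sI M (v x) (v y) := Df.rel2 6 x y

theorem Df.sC (x : ℕ) : Df fun _ M v => sC M (v x) := Df.rel1 7 x

theorem Df.rUp (c a b : ℕ) : Df fun _ M v => rUp M (v c) (v a) (v b) := by
  unfold DQ1.rUp
  repeat' first
    | exact Df.sA _ _ | exact Df.sLt _ _ | exact Df.sE _ _ | exact Df.sK _ _ | exact Df.sJ _ _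
    | exact Df.sF _ _ | exact Df.sI _ _ | exact Df.sC _ | exact Df.eq _ _ | exact Df.true
    | refine Df.ex _ ?_ | refine Df.all _ ?_ | refine Df.iff ?_ ?_ | refine Df.and ?_ ?_
    | refine Df.or ?_ ?_ | refine Df.not ?_ | refine Df.imp ?_ ?_

theorem Df.rOp (p a b : ℕ) : Df fun _ M v => rOp M (v p) (v a) (v b) := by
  unfold DQ1.rOp
  repeat' first
    | exact Df.rUp _ _ _ | exact Df.sA _ _ | exact Df.sLt _ _ | exact Df.sE _ _ | exact Df.sK _ _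
    | exact Df.sJ _ _ | exact Df.sF _ _ | exact Df.sI _ _ | exact Df.sC _ | exact Df.eq _ _
    | exact Df.true | refine Df.ex _ ?_ | refine Df.all _ ?_ | refine Df.iff ?_ ?_
    | refine Df.and ?_ ?_ | refine Df.or ?_ ?_ | refine Df.not ?_ | refine Df.imp ?_ ?_

theorem Df.rTr (p a b c : ℕ) : Df fun _ M v => rTr M (v p) (v a) (v b) (v c) := by
  unfold DQ1.rTr
  repeat' first
    | exact Df.rOp _ _ _ | exact Df.sA _ _ | exact Df.sLt _ _ | exact Df.sE _ _ | exact Df.sK _ _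
    | exact Df.sJ _ _ | exact Df.sF _ _ | exact Df.sI _ _ | exact Df.sC _ | exact Df.eq _ _
    | exact Df.true | refine Df.ex _ ?_ | refine Df.all _ ?_ | refine Df.iff ?_ ?_
    | refine Df.and ?_ ?_ | refine Df.or ?_ ?_ | refine Df.not ?_ | refine Df.imp ?_ ?_

theorem Df.rTh (i w a b : ℕ) : Df fun _ M v => rTh M i (v w) (v a) (v b) := by
  match i with
  | 0 => unfold DQ1.rTh; repeat' first
      | exact Df.sA _ _ | exact Df.sLt _ _ | exact Df.sE _ _ | exact Df.sK _ _ | exact Df.sJ _ _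
      | exact Df.sF _ _ | exact Df.sI _ _ | exact Df.sC _ | exact Df.eq _ _ | exact Df.true
      | refine Df.ex _ ?_ | refine Df.all _ ?_ | refine Df.iff ?_ ?_ | refine Df.and ?_ ?_
      | refine Df.or ?_ ?_ | refine Df.not ?_ | refine Df.imp ?_ ?_
  | 1 => unfold DQ1.rTh; repeat' first
      | exact Df.rOp _ _ _ | exact Df.sA _ _ | exact Df.sLt _ _ | exact Df.sE _ _
      | exact Df.sK _ _ | exact Df.sJ _ _ | exact Df.sF _ _ | exact Df.sI _ _ | exact Df.sC _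
      | exact Df.eq _ _ | exact Df.true | refine Df.ex _ ?_ | refine Df.all _ ?_
      | refine Df.iff ?_ ?_ | refine Df.and ?_ ?_ | refine Df.or ?_ ?_ | refine Df.not ?_
      | refine Df.imp ?_ ?_
  | 2 => unfold DQ1.rTh; repeat' first
      | exact Df.sA _ _ | exact Df.sLt _ _ | exact Df.sE _ _ | exact Df.sK _ _ | exact Df.sJ _ _
      | exact Df.sF _ _ | exact Df.sI _ _ | exact Df.sC _ | exact Df.eq _ _ | exact Df.true
      | refine Df.ex _ ?_ | refine Df.all _ ?_ | refine Df.iff ?_ ?_ | refine Df.and ?_ ?_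
      | refine Df.or ?_ ?_ | refine Df.not ?_ | refine Df.imp ?_ ?_
  | 3 => unfold DQ1.rTh; repeat' first
      | exact Df.rOp _ _ _ | exact Df.sA _ _ | exact Df.sLt _ _ | exact Df.sE _ _
      | exact Df.sK _ _ | exact Df.sJ _ _ | exact Df.sF _ _ | exact Df.sI _ _ | exact Df.sC _
      | exact Df.eq _ _ | exact Df.true | refine Df.ex _ ?_ | refine Df.all _ ?_
      | refine Df.iff ?_ ?_ | refine Df.and ?_ ?_ | refine Df.or ?_ ?_ | refine Df.not ?_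
      | refine Df.imp ?_ ?_
  | 4 => unfold DQ1.rTh; repeat' first
      | exact Df.rOp _ _ _ | exact Df.sA _ _ | exact Df.sLt _ _ | exact Df.sE _ _
      | exact Df.sK _ _ | exact Df.sJ _ _ | exact Df.sF _ _ | exact Df.sI _ _ | exact Df.sC _
      | exact Df.eq _ _ | exact Df.true | refine Df.ex _ ?_ | refine Df.all _ ?_
      | refine Df.iff ?_ ?_ | refine Df.and ?_ ?_ | refine Df.or ?_ ?_ | refine Df.not ?_
      | refine Df.imp ?_ ?_
  | 5 => unfold DQ1.rTh; repeat' first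
      | exact Df.rOp _ _ _ | exact Df.sA _ _ | exact Df.sLt _ _ | exact Df.sE _ _
      | exact Df.sK _ _ | exact Df.sJ _ _ | exact Df.sF _ _ | exact Df.sI _ _ | exact Df.sC _
      | exact Df.eq _ _ | exact Df.true | refine Df.ex _ ?_ | refine Df.all _ ?_
      | refine Df.iff ?_ ?_ | refine Df.and ?_ ?_ | refine Df.or ?_ ?_ | refine Df.not ?_
      | refine Df.imp ?_ ?_
  | 6 => unfold DQ1.rTh; repeat' first
      | exact Df.rOp _ _ _ | exact Df.sA _ _ | exact Df.sLt _ _ | exact Df.sE _ _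
      | exact Df.sK _ _ | exact Df.sJ _ _ | exact Df.sF _ _ | exact Df.sI _ _ | exact Df.sC _
      | exact Df.eq _ _ | exact Df.true | refine Df.ex _ ?_ | refine Df.all _ ?_
      | refine Df.iff ?_ ?_ | refine Df.and ?_ ?_ | refine Df.or ?_ ?_ | refine Df.not ?_
      | refine Df.imp ?_ ?_
  | 7 => unfold DQ1.rTh; repeat' first
      | exact Df.rOp _ _ _ | exact Df.rTr _ _ _ _ | exact Df.sA _ _ | exact Df.sLt _ _
      | exact Df.sE _ _ | exact Df.sK _ _ | exact Df.sJ _ _ | exact Df.sF _ _ | exact Df.sI _ _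
      | exact Df.sC _ | exact Df.eq _ _ | exact Df.true | refine Df.ex _ ?_ | refine Df.all _ ?_
      | refine Df.iff ?_ ?_ | refine Df.and ?_ ?_ | refine Df.or ?_ ?_ | refine Df.not ?_
      | refine Df.imp ?_ ?_
  | 8 => unfold DQ1.rTh; repeat' first
      | exact Df.rOp _ _ _ | exact Df.rTr _ _ _ _ | exact Df.sA _ _ | exact Df.sLt _ _
      | exact Df.sE _ _ | exact Df.sK _ _ | exact Df.sJ _ _ | exact Df.sF _ _ | exact Df.sI _ _
      | exact Df.sC _ | exact Df.eq _ _ | exact Df.true | refine Df.ex _ ?_ | refine Df.all _ ?_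
      | refine Df.iff ?_ ?_ | refine Df.and ?_ ?_ | refine Df.or ?_ ?_ | refine Df.not ?_
      | refine Df.imp ?_ ?_
  | 9 => unfold DQ1.rTh; repeat' first
      | exact Df.rOp _ _ _ | exact Df.sA _ _ | exact Df.sLt _ _ | exact Df.sE _ _
      | exact Df.sK _ _ | exact Df.sJ _ _ | exact Df.sF _ _ | exact Df.sI _ _ | exact Df.sC _
      | exact Df.eq _ _ | exact Df.true | refine Df.ex _ ?_ | refine Df.all _ ?_
      | refine Df.iff ?_ ?_ | refine Df.and ?_ ?_ | refine Df.or ?_ ?_ | refine Df.not ?_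
      | refine Df.imp ?_ ?_
  | n + 10 => exact Df.true.not.congr fun D M v => by simp [DQ1.rTh]

theorem Df.rG (i c a b : ℕ) : Df fun _ M v => rG M i (v c) (v a) (v b) := by
  unfold DQ1.rG
  repeat' first
    | exact Df.rTh _ _ _ _ | exact Df.sA _ _ | exact Df.sLt _ _ | exact Df.sE _ _
    | exact Df.sK _ _ | exact Df.sJ _ _ | exact Df.sF _ _ | exact Df.sI _ _ | exact Df.sC _
    | exact Df.eq _ _ | exact Df.true | refine Df.ex _ ?_ | refine Df.all _ ?_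
    | refine Df.iff ?_ ?_ | refine Df.and ?_ ?_ | refine Df.or ?_ ?_ | refine Df.not ?_
    | refine Df.imp ?_ ?_

theorem Df.rStep (x k : ℕ) : Df fun _ M v => rStep M (v x) (v k) := by
  unfold DQ1.rStep
  refine Df.or ?_ (Df.or ?_ (Df.exNat (fun i => ?_) 10))
  · first
      | exact Df.sA _ _ | exact Df.sLt _ _ | exact Df.sE _ _ | exact Df.sK _ _ | exact Df.sJ _ _
      | exact Df.sF _ _ | exact Df.sI _ _ | exact Df.sC _ | exact Df.eq _ _ | exact Df.true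
      | refine Df.ex _ ?_ | refine Df.all _ ?_ | refine Df.iff ?_ ?_ | refine Df.and ?_ ?_
      | refine Df.or ?_ ?_ | refine Df.not ?_ | refine Df.imp ?_ ?_
  · first
      | exact Df.sA _ _ | exact Df.sLt _ _ | exact Df.sE _ _ | exact Df.sK _ _ | exact Df.sJ _ _
      | exact Df.sF _ _ | exact Df.sI _ _ | exact Df.sC _ | exact Df.eq _ _ | exact Df.true
      | refine Df.ex _ ?_ | refine Df.all _ ?_ | refine Df.iff ?_ ?_ | refine Df.and ?_ ?_
      | refine Df.or ?_ ?_ | refine Df.not ?_ | refine Df.imp ?_ ?_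
  · repeat' first
      | exact Df.rG _ _ _ _ | exact Df.sA _ _ | exact Df.sLt _ _ | exact Df.sE _ _
      | exact Df.sK _ _ | exact Df.sJ _ _ | exact Df.sF _ _ | exact Df.sI _ _ | exact Df.sC _
      | exact Df.eq _ _ | exact Df.true | refine Df.ex _ ?_ | refine Df.all _ ?_
      | refine Df.iff ?_ ?_ | refine Df.and ?_ ?_ | refine Df.or ?_ ?_ | refine Df.not ?_
      | refine Df.imp ?_ ?_

theorem Df.rIn (x c : ℕ) : Df fun _ M v => rIn M (v x) (v c) := by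
  unfold DQ1.rIn
  repeat' first
    | exact Df.sA _ _ | exact Df.sLt _ _ | exact Df.sE _ _ | exact Df.sK _ _ | exact Df.sJ _ _
    | exact Df.sF _ _ | exact Df.sI _ _ | exact Df.sC _ | exact Df.eq _ _ | exact Df.true
    | refine Df.ex _ ?_ | refine Df.all _ ?_ | refine Df.iff ?_ ?_ | refine Df.and ?_ ?_
    | refine Df.or ?_ ?_ | refine Df.not ?_ | refine Df.imp ?_ ?_

theorem Df.rPos (x : ℕ) : Df fun _ M v => rPos M (v x) := by
  unfold DQ1.rPos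
  repeat' first
    | exact Df.sA _ _ | exact Df.sLt _ _ | exact Df.sE _ _ | exact Df.sK _ _ | exact Df.sJ _ _
    | exact Df.sF _ _ | exact Df.sI _ _ | exact Df.sC _ | exact Df.eq _ _ | exact Df.true
    | refine Df.ex _ ?_ | refine Df.all _ ?_ | refine Df.iff ?_ ?_ | refine Df.and ?_ ?_
    | refine Df.or ?_ ?_ | refine Df.not ?_ | refine Df.imp ?_ ?_

theorem Df.rClub (c δ : ℕ) : Df fun _ M v => rClub M (v c) (v δ) := by
  unfold DQ1.rClub
  repeat' first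
    | exact Df.rIn _ _ | exact Df.rPos _ | exact Df.sA _ _ | exact Df.sLt _ _ | exact Df.sE _ _
    | exact Df.sK _ _ | exact Df.sJ _ _ | exact Df.sF _ _ | exact Df.sI _ _ | exact Df.sC _
    | exact Df.eq _ _ | exact Df.true | refine Df.ex _ ?_ | refine Df.all _ ?_
    | refine Df.iff ?_ ?_ | refine Df.and ?_ ?_ | refine Df.or ?_ ?_ | refine Df.not ?_
    | refine Df.imp ?_ ?_

theorem Df.rGd (δ ζ η : ℕ) : Df fun _ M v => rGd M (v δ) (v ζ) (v η) := by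
  unfold DQ1.rGd
  repeat' first
    | exact Df.rIn _ _ | exact Df.rClub _ _ | exact Df.sA _ _ | exact Df.sLt _ _
    | exact Df.sE _ _ | exact Df.sK _ _ | exact Df.sJ _ _ | exact Df.sF _ _ | exact Df.sI _ _
    | exact Df.sC _ | exact Df.eq _ _ | exact Df.true | refine Df.ex _ ?_ | refine Df.all _ ?_
    | refine Df.iff ?_ ?_ | refine Df.and ?_ ?_ | refine Df.or ?_ ?_ | refine Df.not ?_
    | refine Df.imp ?_ ?_

theorem Df.rNxt (δ η : ℕ) : Df fun _ M v => rNxt M (v δ) (v η) := by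
  unfold DQ1.rNxt
  repeat' first
    | exact Df.rGd _ _ _ | exact Df.rPos _ | exact Df.sA _ _ | exact Df.sLt _ _ | exact Df.sE _ _
    | exact Df.sK _ _ | exact Df.sJ _ _ | exact Df.sF _ _ | exact Df.sI _ _ | exact Df.sC _
    | exact Df.eq _ _ | exact Df.true | refine Df.ex _ ?_ | refine Df.all _ ?_
    | refine Df.iff ?_ ?_ | refine Df.and ?_ ?_ | refine Df.or ?_ ?_ | refine Df.not ?_
    | refine Df.imp ?_ ?_

theorem Df.rSucc (g t : ℕ) : Df fun _ M v => rSucc M (v g) (v t) := by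
  unfold DQ1.rSucc
  repeat' first
    | exact Df.sA _ _ | exact Df.sLt _ _ | exact Df.sE _ _ | exact Df.sK _ _ | exact Df.sJ _ _
    | exact Df.sF _ _ | exact Df.sI _ _ | exact Df.sC _ | exact Df.eq _ _ | exact Df.true
    | refine Df.ex _ ?_ | refine Df.all _ ?_ | refine Df.iff ?_ ?_ | refine Df.and ?_ ?_
    | refine Df.or ?_ ?_ | refine Df.not ?_ | refine Df.imp ?_ ?_

theorem Df.ax (c g t : ℕ) : Df.{u} fun _ M v => Ax M (v c) (v g) (v t) := by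
  have h1 : Df.{u} fun _ M _ => ∀ ξ ∈ M.sort 1, ∀ η ∈ M.sort 1, DQ1.sLt M ξ η ∨ ξ = η ∨ DQ1.sLt M η ξ := by
    repeat' first
      | exact Df.sA _ _ | exact Df.sLt _ _ | exact Df.sE _ _ | exact Df.sK _ _ | exact Df.sJ _ _
      | exact Df.sF _ _ | exact Df.sI _ _ | exact Df.sC _ | exact Df.eq _ _ | exact Df.true
      | refine Df.ex _ ?_ | refine Df.all _ ?_ | refine Df.iff ?_ ?_ | refine Df.and ?_ ?_
      | refine Df.or ?_ ?_ | refine Df.not ?_ | refine Df.imp ?_ ?_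
  have h2 : Df.{u} fun _ M _ => ∀ ξ ∈ M.sort 1, ∀ η ∈ M.sort 1, ∀ ζ ∈ M.sort 1,
      DQ1.sLt M ξ η → DQ1.sLt M η ζ → DQ1.sLt M ξ ζ := by
    repeat' first
      | exact Df.sA _ _ | exact Df.sLt _ _ | exact Df.sE _ _ | exact Df.sK _ _ | exact Df.sJ _ _
      | exact Df.sF _ _ | exact Df.sI _ _ | exact Df.sC _ | exact Df.eq _ _ | exact Df.true
      | refine Df.ex _ ?_ | refine Df.all _ ?_ | refine Df.iff ?_ ?_ | refine Df.and ?_ ?_
      | refine Df.or ?_ ?_ | refine Df.not ?_ | refine Df.imp ?_ ?_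
  have h3 : Df.{u} fun _ M _ => WellFounded fun a b : {a // a ∈ M.sort 1} => DQ1.sLt M a.1 b.1 :=
    Df.wf 1 (Df.sLt 0 1)
  have h4 : Df.{u} fun _ M _ => ℵ₁ ≤ #{a // a ∈ M.sort 1 ∧ True} := Df.q 1 Df.true
  have h5 : Df.{u} fun _ M _ => ∀ ξ ∈ M.sort 1, ¬ ℵ₁ ≤ #{a // a ∈ M.sort 1 ∧ DQ1.sLt M a ξ} :=
    Df.all 1 (Df.not (Df.q 1 (Df.sLt 0 1)))
  have h6 : Df.{u} fun _ M _ => WellFounded fun a b : {a // a ∈ M.sort 2} => DQ1.sE M a.1 b.1 :=
    Df.wf 2 (Df.sE 0 1)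
  have h7 : Df.{u} fun _ M _ => ∀ x ∈ M.sort 2, ∀ y ∈ M.sort 2,
      (∀ z ∈ M.sort 2, DQ1.sE M z x ↔ DQ1.sE M z y) → x = y := by
    repeat' first
      | exact Df.sA _ _ | exact Df.sLt _ _ | exact Df.sE _ _ | exact Df.sK _ _ | exact Df.sJ _ _
      | exact Df.sF _ _ | exact Df.sI _ _ | exact Df.sC _ | exact Df.eq _ _ | exact Df.true
      | refine Df.ex _ ?_ | refine Df.all _ ?_ | refine Df.iff ?_ ?_ | refine Df.and ?_ ?_
      | refine Df.or ?_ ?_ | refine Df.not ?_ | refine Df.imp ?_ ?_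
  have h8 : Df.{u} fun _ M _ => ∀ ξ ∈ M.sort 1, ∃ x ∈ M.sort 2, DQ1.sK M ξ x ∧
      ∀ y ∈ M.sort 2, DQ1.sK M ξ y → y = x := by
    repeat' first
      | exact Df.sA _ _ | exact Df.sLt _ _ | exact Df.sE _ _ | exact Df.sK _ _ | exact Df.sJ _ _
      | exact Df.sF _ _ | exact Df.sI _ _ | exact Df.sC _ | exact Df.eq _ _ | exact Df.true
      | refine Df.ex _ ?_ | refine Df.all _ ?_ | refine Df.iff ?_ ?_ | refine Df.and ?_ ?_
      | refine Df.or ?_ ?_ | refine Df.not ?_ | refine Df.imp ?_ ?_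
  have h9 : Df.{u} fun _ M _ => ∀ x ∈ M.sort 2, ∃ ξ ∈ M.sort 1, ∃ k ∈ M.sort 2,
      DQ1.sK M ξ k ∧ DQ1.sE M x k := by
    repeat' first
      | exact Df.sA _ _ | exact Df.sLt _ _ | exact Df.sE _ _ | exact Df.sK _ _ | exact Df.sJ _ _
      | exact Df.sF _ _ | exact Df.sI _ _ | exact Df.sC _ | exact Df.eq _ _ | exact Df.true
      | refine Df.ex _ ?_ | refine Df.all _ ?_ | refine Df.iff ?_ ?_ | refine Df.and ?_ ?_
      | refine Df.or ?_ ?_ | refine Df.not ?_ | refine Df.imp ?_ ?_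
  have h10 : Df.{u} fun _ M _ => ∀ x ∈ M.sort 2, ∀ ξ ∈ M.sort 1, ∀ k ∈ M.sort 2, DQ1.sK M ξ k →
      (DQ1.sE M x k ↔ ∃ ζ ∈ M.sort 1, DQ1.sLt M ζ ξ ∧ ∃ l ∈ M.sort 2, DQ1.sK M ζ l ∧
        DQ1.rStep M x l) := by
    repeat' first
      | exact Df.rStep _ _ | exact Df.sA _ _ | exact Df.sLt _ _ | exact Df.sE _ _
      | exact Df.sK _ _ | exact Df.sJ _ _ | exact Df.sF _ _ | exact Df.sI _ _ | exact Df.sC _
      | exact Df.eq _ _ | exact Df.true | refine Df.ex _ ?_ | refine Df.all _ ?_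
      | refine Df.iff ?_ ?_ | refine Df.and ?_ ?_ | refine Df.or ?_ ?_ | refine Df.not ?_
      | refine Df.imp ?_ ?_
  have h11 : Df.{u} fun _ M _ => ∀ i < 10, ∀ a ∈ M.sort 2, ∀ b ∈ M.sort 2, ∃ c ∈ M.sort 2,
      DQ1.rG M i c a b := by
    refine Df.allNat (fun i => ?_) 10
    repeat' first
      | exact Df.rG _ _ _ _ | exact Df.sA _ _ | exact Df.sLt _ _ | exact Df.sE _ _
      | exact Df.sK _ _ | exact Df.sJ _ _ | exact Df.sF _ _ | exact Df.sI _ _ | exact Df.sC _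
      | exact Df.eq _ _ | exact Df.true | refine Df.ex _ ?_ | refine Df.all _ ?_
      | refine Df.iff ?_ ?_ | refine Df.and ?_ ?_ | refine Df.or ?_ ?_ | refine Df.not ?_
      | refine Df.imp ?_ ?_
  have h12 : Df.{u} fun _ M _ => ∀ ξ ∈ M.sort 1, ∃ x ∈ M.sort 2, DQ1.sJ M ξ x ∧
      ∀ y ∈ M.sort 2, DQ1.sJ M ξ y → y = x := by
    repeat' first
      | exact Df.sA _ _ | exact Df.sLt _ _ | exact Df.sE _ _ | exact Df.sK _ _ | exact Df.sJ _ _
      | exact Df.sF _ _ | exact Df.sI _ _ | exact Df.sC _ | exact Df.eq _ _ | exact Df.true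
      | refine Df.ex _ ?_ | refine Df.all _ ?_ | refine Df.iff ?_ ?_ | refine Df.and ?_ ?_
      | refine Df.or ?_ ?_ | refine Df.not ?_ | refine Df.imp ?_ ?_
  have h13 : Df.{u} fun _ M _ => ∀ ξ ∈ M.sort 1, ∀ j ∈ M.sort 2, DQ1.sJ M ξ j →
      ∀ x ∈ M.sort 2, DQ1.sE M x j ↔ ∃ ζ ∈ M.sort 1, DQ1.sLt M ζ ξ ∧ DQ1.sJ M ζ x := by
    repeat' first
      | exact Df.sA _ _ | exact Df.sLt _ _ | exact Df.sE _ _ | exact Df.sK _ _ | exact Df.sJ _ _
      | exact Df.sF _ _ | exact Df.sI _ _ | exact Df.sC _ | exact Df.eq _ _ | exact Df.true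
      | refine Df.ex _ ?_ | refine Df.all _ ?_ | refine Df.iff ?_ ?_ | refine Df.and ?_ ?_
      | refine Df.or ?_ ?_ | refine Df.not ?_ | refine Df.imp ?_ ?_
  have h14 : Df.{u} fun _ M _ => ∀ δ ∈ M.sort 1, ∀ η ∈ M.sort 1,
      DQ1.sF M δ η ↔ DQ1.rNxt M δ η := by
    repeat' first
      | exact Df.rNxt _ _ | exact Df.sA _ _ | exact Df.sLt _ _ | exact Df.sE _ _
      | exact Df.sK _ _ | exact Df.sJ _ _ | exact Df.sF _ _ | exact Df.sI _ _ | exact Df.sC _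
      | exact Df.eq _ _ | exact Df.true | refine Df.ex _ ?_ | refine Df.all _ ?_
      | refine Df.iff ?_ ?_ | refine Df.and ?_ ?_ | refine Df.or ?_ ?_ | refine Df.not ?_
      | refine Df.imp ?_ ?_
  have h17 : Df.{u} fun _ M v => DQ1.rPos M (v g) := Df.rPos g
  have h18 : Df.{u} fun _ M v => ∀ α ∈ M.sort 1, DQ1.sLt M α (v g) → ∃ β ∈ M.sort 1,
      DQ1.sLt M α β ∧ DQ1.sLt M β (v g) := by
    repeat' first
      | exact Df.sA _ _ | exact Df.sLt _ _ | exact Df.sE _ _ | exact Df.sK _ _ | exact Df.sJ _ _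
      | exact Df.sF _ _ | exact Df.sI _ _ | exact Df.sC _ | exact Df.eq _ _ | exact Df.true
      | refine Df.ex _ ?_ | refine Df.all _ ?_ | refine Df.iff ?_ ?_ | refine Df.and ?_ ?_
      | refine Df.or ?_ ?_ | refine Df.not ?_ | refine Df.imp ?_ ?_
  have h19 : Df.{u} fun _ M v => ∀ a ∈ M.sort 0, DQ1.sA M a (v c) →
      ∃ ξ ∈ M.sort 1, DQ1.sLt M ξ (v g) ∧ DQ1.sI M a ξ := by
    repeat' first
      | exact Df.sA _ _ | exact Df.sLt _ _ | exact Df.sE _ _ | exact Df.sK _ _ | exact Df.sJ _ _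
      | exact Df.sF _ _ | exact Df.sI _ _ | exact Df.sC _ | exact Df.eq _ _ | exact Df.true
      | refine Df.ex _ ?_ | refine Df.all _ ?_ | refine Df.iff ?_ ?_ | refine Df.and ?_ ?_
      | refine Df.or ?_ ?_ | refine Df.not ?_ | refine Df.imp ?_ ?_
  have h20 : Df.{u} fun _ M v => ∀ ξ ∈ M.sort 1, DQ1.sLt M ξ (v g) →
      ∃ a ∈ M.sort 0, DQ1.sA M a (v c) ∧ DQ1.sI M a ξ := by
    repeat' first
      | exact Df.sA _ _ | exact Df.sLt _ _ | exact Df.sE _ _ | exact Df.sK _ _ | exact Df.sJ _ _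
      | exact Df.sF _ _ | exact Df.sI _ _ | exact Df.sC _ | exact Df.eq _ _ | exact Df.true
      | refine Df.ex _ ?_ | refine Df.all _ ?_ | refine Df.iff ?_ ?_ | refine Df.and ?_ ?_
      | refine Df.or ?_ ?_ | refine Df.not ?_ | refine Df.imp ?_ ?_
  have h21 : Df.{u} fun _ M v => ∀ a ∈ M.sort 0, ∀ b ∈ M.sort 0, ∀ ξ ∈ M.sort 1, ∀ η ∈ M.sort 1,
      DQ1.sA M a (v c) → DQ1.sA M b (v c) → DQ1.sLt M ξ (v g) → DQ1.sLt M η (v g) →
      DQ1.sI M a ξ → DQ1.sI M b η → (a = b ↔ ξ = η) ∧ (DQ1.sA M a b ↔ DQ1.sLt M ξ η) := by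
    repeat' first
      | exact Df.sA _ _ | exact Df.sLt _ _ | exact Df.sE _ _ | exact Df.sK _ _ | exact Df.sJ _ _
      | exact Df.sF _ _ | exact Df.sI _ _ | exact Df.sC _ | exact Df.eq _ _ | exact Df.true
      | refine Df.ex _ ?_ | refine Df.all _ ?_ | refine Df.iff ?_ ?_ | refine Df.and ?_ ?_
      | refine Df.or ?_ ?_ | refine Df.not ?_ | refine Df.imp ?_ ?_
  have h22 : Df.{u} fun _ M _ => ∀ α ∈ M.sort 1, ∃ β ∈ M.sort 1, DQ1.sC M β ∧ DQ1.sLt M α β := by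
    repeat' first
      | exact Df.sA _ _ | exact Df.sLt _ _ | exact Df.sE _ _ | exact Df.sK _ _ | exact Df.sJ _ _
      | exact Df.sF _ _ | exact Df.sI _ _ | exact Df.sC _ | exact Df.eq _ _ | exact Df.true
      | refine Df.ex _ ?_ | refine Df.all _ ?_ | refine Df.iff ?_ ?_ | refine Df.and ?_ ?_
      | refine Df.or ?_ ?_ | refine Df.not ?_ | refine Df.imp ?_ ?_
  have h23 : Df.{u} fun _ M _ => ∀ l ∈ M.sort 1, DQ1.rPos M l →
      (∀ α ∈ M.sort 1, DQ1.sLt M α l → ∃ β ∈ M.sort 1, DQ1.sC M β ∧ DQ1.sLt M α β ∧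
        DQ1.sLt M β l) → DQ1.sC M l := by
    repeat' first
      | exact Df.rPos _ | exact Df.sA _ _ | exact Df.sLt _ _ | exact Df.sE _ _ | exact Df.sK _ _
      | exact Df.sJ _ _ | exact Df.sF _ _ | exact Df.sI _ _ | exact Df.sC _ | exact Df.eq _ _
      | exact Df.true | refine Df.ex _ ?_ | refine Df.all _ ?_ | refine Df.iff ?_ ?_
      | refine Df.and ?_ ?_ | refine Df.or ?_ ?_ | refine Df.not ?_ | refine Df.imp ?_ ?_
  have h24 : Df.{u} fun _ M v => ∀ δ ∈ M.sort 1, DQ1.sC M δ → ¬ DQ1.sF M δ (v t) := by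
    repeat' first
      | exact Df.sA _ _ | exact Df.sLt _ _ | exact Df.sE _ _ | exact Df.sK _ _ | exact Df.sJ _ _
      | exact Df.sF _ _ | exact Df.sI _ _ | exact Df.sC _ | exact Df.eq _ _ | exact Df.true
      | refine Df.ex _ ?_ | refine Df.all _ ?_ | refine Df.iff ?_ ?_ | refine Df.and ?_ ?_
      | refine Df.or ?_ ?_ | refine Df.not ?_ | refine Df.imp ?_ ?_
  refine (h1.and (h2.and (h3.and (h4.and (h5.and (h6.and (h7.and (h8.and (h9.and (h10.and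
    (h11.and (h12.and (h13.and (h14.and ((Df.mem 1 g).and ((Df.mem 1 t).and (h17.and (h18.and
    (h19.and (h20.and (h21.and (h22.and (h23.and h24))))))))))))))))))))))).congr fun D M v =>
    ?_
  constructor
  · rintro ⟨a1, a2, a3, a4, a5, a6, a7, a8, a9, a10, a11, a12, a13, a14, a15, a16, a17, a18, a19,
      a20, a21, a22, a23, a24⟩
    exact ⟨a1, a2, a3, a4, a5, a6, a7, a8, a9, a10, a11, a12, a13, a14, a15, a16, a17, a18, a19,
      a20, a21, a22, a23, a24⟩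
  · rintro ⟨a1, a2, a3, a4, a5, a6, a7, a8, a9, a10, a11, a12, a13, a14, a15, a16, a17, a18, a19,
      a20, a21, a22, a23, a24⟩
    exact ⟨a1, a2, a3, a4, a5, a6, a7, a8, a9, a10, a11, a12, a13, a14, a15, a16, a17, a18, a19,
      a20, a21, a22, a23, a24⟩

end Pool.Agent.DQ1
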