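import Pool.Agent.DQ1.SigDefs
import Pool.Agent.DQ1.Rec

/-! # Existence of the coding structure -/

namespace Pool.Agent.DQ1

open Cardinal Ordinal

universe u v w

/-! ### The recursion of the coding function -/

theorem gd_congrS {f g : Ordinal.{u} → Ordinal.{u}} {δ : Ordinal.{u}} (h : ∀ ξ < δ, f ξ = g ξ)
    {ζ η : Ordinal.{u}} : Gd f δ ζ η ↔ Gd g δ ζ η := by
  constructor
  · rintro ⟨h1, c, h2, h3, h4⟩
    exact ⟨h1, c, h2, h3, fun ξ hξ hδ => by rw [← h ξ hδ]; exact h4 ξ hξ hδ⟩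
  · rintro ⟨h1, c, h2, h3, h4⟩
    exact ⟨h1, c, h2, h3, fun ξ hξ hδ => by rw [h ξ hδ]; exact h4 ξ hξ hδ⟩

theorem fn_eqS (δ : Ordinal.{u}) : fn δ = nxt fn δ := by
  rw [fn]
  have h1 : Gd (fun ξ => if _h : ξ < δ then fn ξ else 0) δ = Gd fn δ := by
    funext ζ η
    exact propext (gd_congrS (g := fn) fun ξ hξ => by simp [hξ])
  unfold nxt
  rw [h1]

/-- the value of the coding function in terms of `Gd` -/
theorem fn_iffS {δ η : Ordinal.{u}} : fn δ = η ↔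
    (∃ ζ < om, Gd fn δ ζ η ∧ (∀ ζ' < ζ, ∀ η', ¬ Gd fn δ ζ' η') ∧ ∀ η' < η, ¬ Gd fn δ ζ η') ∨
    ((∀ ζ < om, ∀ η', ¬ Gd fn δ ζ η') ∧ η = 0) := by
  rw [fn_eqS]
  unfold nxt
  split_ifs with h
  · set Z : Set Ordinal.{u} := {ζ | ∃ η, Gd fn δ ζ η} with hZ
    obtain ⟨ζ0, hζ0, η0, h0⟩ := h
    have hZ0 : sInf Z ∈ Z := csInf_mem ⟨ζ0, η0, h0⟩
    have hZom : sInf Z < om := lt_of_le_of_lt (csInf_le' ⟨η0, h0⟩) hζ0
    have hE : sInf {η | Gd fn δ (sInf Z) η} ∈ {η | Gd fn δ (sInf Z) η} := csInf_mem hZ0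
    constructor
    · rintro rfl
      refine Or.inl ⟨sInf Z, hZom, hE, fun ζ' hζ' η' hG => ?_, fun η' hη' hG => ?_⟩
      · exact absurd (csInf_le' (show ζ' ∈ Z from ⟨η', hG⟩)) (not_le.2 hζ')
      · exact absurd (csInf_le' (show η' ∈ {η | Gd fn δ (sInf Z) η} from hG)) (not_le.2 hη')
    · rintro (⟨ζ, hζ, hG, h1, h2⟩ | ⟨h1, _⟩)
      · have h3 : sInf Z = ζ := by
          refine le_antisymm (csInf_le' ⟨η, hG⟩) ?_
          by_contra hc
          obtain ⟨η', hη'⟩ := hZ0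
          exact h1 _ (not_le.1 hc) η' hη'
        rw [h3]
        refine le_antisymm (csInf_le' hG) ?_
        by_contra hc
        have h4 : Gd fn δ ζ (sInf {η | Gd fn δ ζ η}) := csInf_mem (s := {η | Gd fn δ ζ η}) ⟨η, hG⟩
        exact h2 _ (not_le.1 hc) h4
      · exact absurd h0 (h1 ζ0 hζ0 η0)
  · push Not at h
    constructor
    · rintro rfl
      exact Or.inr ⟨h, rfl⟩
    · rintro (⟨ζ, hζ, hG, _⟩ | ⟨_, h2⟩)
      · exact absurd hG (h ζ hζ η)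
      · exact h2.symm

theorem fn_lt_omS {δ : Ordinal.{u}} (hδ : δ < om) : fn δ < om := by
  rcases (fn_iffS (δ := δ)).1 rfl with ⟨ζ, _, h, _⟩ | ⟨_, h⟩
  · exact h.1.trans hδ
  · rw [h]; exact lim_omS.1

/-! ### Structures of the required form -/

/-- `M` is the coding structure over `(A, E)` with the isomorphism `I` and the club `Cl` -/
structure Cd {A : Type v} {D : Type w} (M : Str D) (E : A → A → Prop) (i : A → D)
    (o : Set.Iio (om : Ordinal.{u}) → D) (k : Ks (om : Ordinal.{u}) → D)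
    (I : A → Ordinal.{u} → Prop) (Cl : Set Ordinal.{u}) : Prop where
  i_inj : Function.Injective i
  o_inj : Function.Injective o
  k_inj : Function.Injective k
  s0 : M.sort 0 = Set.range i
  s1 : M.sort 1 = Set.range o
  s2 : M.sort 2 = Set.range k
  rA : ∀ a b, sA M (i a) (i b) ↔ E a b
  rLt : ∀ ξ η, sLt M (o ξ) (o η) ↔ ξ.1 < η.1
  rE : ∀ x y, sE M (k x) (k y) ↔ x.1 ∈ y.1
  rK : ∀ ξ x, sK M (o ξ) (k x) ↔ x.1 = K ξ.1
  rJ : ∀ ξ x, sJ M (o ξ) (k x) ↔ x.1 = ξ.1.toZFSet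
  rF : ∀ ξ η, sF M (o ξ) (o η) ↔ fn ξ.1 = η.1
  rI : ∀ a ξ, sI M (i a) (o ξ) ↔ I a ξ.1
  rC : ∀ ξ, sC M (o ξ) ↔ ξ.1 ∈ Cl

namespace Cd

variable {A : Type v} {D : Type w} {M : Str D} {E : A → A → Prop} {i : A → D}
    {o : Set.Iio (om : Ordinal.{u}) → D} {k : Ks (om : Ordinal.{u}) → D}
    {I : A → Ordinal.{u} → Prop} {Cl : Set Ordinal.{u}} (h : Cd M E i o k I Cl)

include h

theorem all0 {P : D → Prop} : (∀ x ∈ M.sort 0, P x) ↔ ∀ a, P (i a) := by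
  rw [h.s0, Set.forall_mem_range]

theorem all1 {P : D → Prop} : (∀ x ∈ M.sort 1, P x) ↔ ∀ a, P (o a) := by
  rw [h.s1, Set.forall_mem_range]

theorem all2 {P : D → Prop} : (∀ x ∈ M.sort 2, P x) ↔ ∀ a, P (k a) := by
  rw [h.s2, Set.forall_mem_range]

theorem ex0 {P : D → Prop} : (∃ x ∈ M.sort 0, P x) ↔ ∃ a, P (i a) := by
  rw [h.s0, Set.exists_range_iff]

theorem ex1 {P : D → Prop} : (∃ x ∈ M.sort 1, P x) ↔ ∃ a, P (o a) := by
  rw [h.s1, Set.exists_range_iff]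

theorem ex2 {P : D → Prop} : (∃ x ∈ M.sort 2, P x) ↔ ∃ a, P (k a) := by
  rw [h.s2, Set.exists_range_iff]

/-- sort `2` is `K om` -/
noncomputable def equiv2 : Ks (om : Ordinal.{u}) ≃ {x // x ∈ M.sort 2} :=
  (Equiv.ofInjective k h.k_inj).trans (Equiv.setCongr h.s2.symm)

theorem equiv2_val (x : Ks (om : Ordinal.{u})) : (h.equiv2 x).1 = k x := rfl

theorem equiv2_e (x y : Ks (om : Ordinal.{u})) : ke x y ↔ sEE M (h.equiv2 x) (h.equiv2 y) :=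
  (h.rE x y).symm

theorem rG' {j : ℕ} (c a b : Ks (om : Ordinal.{u})) : rG M j (k c) (k a) (k b) ↔ IsG ke j c a b := by
  rw [isG_equiv h.equiv2 h.equiv2_e, ← rG_iff]
  rfl

theorem rStep' (x y : Ks (om : Ordinal.{u})) : rStep M (k x) (k y) ↔ x.1 ∈ stp y.1 := by
  rw [← ke_step lim_omS, stepMem_equiv h.equiv2 h.equiv2_e, ← rStep_iff]
  rfl

theorem rIn' (ξ : Set.Iio (om : Ordinal.{u})) (c : Ks (om : Ordinal.{u})) :
    rIn M (o ξ) (k c) ↔ ξ.1 ∈ ords c.1 := by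
  unfold rIn
  rw [h.ex2]
  constructor
  · rintro ⟨j, h1, h2⟩
    rw [h.rJ] at h1
    rw [h.rE, h1] at h2
    exact h2
  · intro h1
    refine ⟨⟨ξ.1.toZFSet, K_trans lim_omS c.2 h1⟩, ?_, ?_⟩
    · rw [h.rJ]
    · rw [h.rE]; exact h1

theorem rPos' (ξ : Set.Iio (om : Ordinal.{u})) : rPos M (o ξ) ↔ 0 < ξ.1 := by
  unfold rPos
  rw [h.ex1]
  constructor
  · rintro ⟨z, hz⟩
    rw [h.rLt] at hz
    exact lt_of_le_of_lt bot_le hz
  · intro h1
    exact ⟨⟨0, lim_omS.1⟩, (h.rLt _ _).2 h1⟩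

theorem rClub' (c : Ks (om : Ordinal.{u})) (δ : Set.Iio (om : Ordinal.{u})) :
    rClub M (k c) (o δ) ↔ ClubIn (ords c.1) δ.1 := by
  unfold rClub ClubIn
  rw [h.all1, h.all1]
  refine and_congr ?_ ?_
  · constructor
    · intro h1 α hα
      have h2 := h1 ⟨α, hα.trans δ.2⟩ ((h.rLt _ _).2 hα)
      rw [h.ex1] at h2
      obtain ⟨β, h3, h4, h5⟩ := h2
      exact ⟨β.1, (h.rIn' _ _).1 h3, (h.rLt _ _).1 h4, (h.rLt _ _).1 h5⟩
    · intro h1 α hα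
      obtain ⟨β, h3, h4, h5⟩ := h1 α.1 ((h.rLt _ _).1 hα)
      rw [h.ex1]
      exact ⟨⟨β, h5.trans δ.2⟩, (h.rIn' _ _).2 h3, (h.rLt _ _).2 h4, (h.rLt _ _).2 h5⟩
  · constructor
    · intro h1 l hl hl0 h2
      have h3 := h1 ⟨l, hl.trans δ.2⟩ ((h.rLt _ _).2 hl) ((h.rPos' _).2 hl0)
      rw [h.all1, h.rIn'] at h3
      refine h3 fun α hα => ?_
      obtain ⟨β, h4, h5, h6⟩ := h2 α.1 ((h.rLt _ _).1 hα)
      rw [h.ex1]
      exact ⟨⟨β, h6.trans (hl.trans δ.2)⟩, (h.rIn' _ _).2 h4, (h.rLt _ _).2 h5,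
        (h.rLt _ _).2 h6⟩
    · intro h1 l hl hl0 h2
      rw [h.all1] at h2
      rw [h.rIn']
      refine h1 l.1 ((h.rLt _ _).1 hl) ((h.rPos' _).1 hl0) fun α hα => ?_
      have h3 := h2 ⟨α, hα.trans l.2⟩ ((h.rLt _ _).2 hα)
      rw [h.ex1] at h3
      obtain ⟨β, h4, h5, h6⟩ := h3
      exact ⟨β.1, (h.rIn' _ _).1 h4, (h.rLt _ _).1 h5, (h.rLt _ _).1 h6⟩

theorem rGd' (δ ζ η : Set.Iio (om : Ordinal.{u})) :
    rGd M (o δ) (o ζ) (o η) ↔ Gd fn δ.1 ζ.1 η.1 := by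
  unfold rGd Gd
  rw [h.rLt, h.ex2]
  refine and_congr Iff.rfl ?_
  constructor
  · rintro ⟨c, h1, h2, h3⟩
    rw [h.ex2] at h1
    obtain ⟨x, h4, h5⟩ := h1
    rw [h.rK] at h4
    rw [h.rE, h4] at h5
    rw [h.rClub'] at h2
    refine ⟨c.1, h5, h2, fun ξ hξ hδ hf => ?_⟩
    rw [h.all1] at h3
    exact h3 ⟨ξ, hδ.trans δ.2⟩ ((h.rIn' _ _).2 hξ) ((h.rLt _ _).2 hδ) ((h.rF _ _).2 hf)
  · rintro ⟨c, h1, h2, h3⟩
    have h4 : c ∈ K om := K_sub (le_of_lt ζ.2) h1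
    refine ⟨⟨c, h4⟩, ?_, (h.rClub' _ _).2 h2, ?_⟩
    · rw [h.ex2]
      exact ⟨⟨K ζ.1, K_mem ζ.2⟩, (h.rK _ _).2 rfl, (h.rE _ _).2 h1⟩
    · rw [h.all1]
      intro ξ hξ hδ hf
      exact h3 ξ.1 ((h.rIn' _ _).1 hξ) ((h.rLt _ _).1 hδ) ((h.rF _ _).1 hf)

theorem rNxt' (δ η : Set.Iio (om : Ordinal.{u})) : rNxt M (o δ) (o η) ↔ fn δ.1 = η.1 := by
  rw [fn_iffS]
  unfold rNxt
  rw [h.ex1, h.all1, h.rPos']
  refine or_congr ?_ (and_congr ?_ ?_)
  · constructor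
    · rintro ⟨ζ, h1, h2, h3⟩
      rw [h.all1] at h2 h3
      refine ⟨ζ.1, ζ.2, (h.rGd' _ _ _).1 h1, fun ζ' hζ' η' hG => ?_, fun η' hη' hG => ?_⟩
      · have h4 := h2 ⟨ζ', hζ'.trans ζ.2⟩ ((h.rLt _ _).2 hζ')
        rw [h.all1] at h4
        exact h4 ⟨η', hG.1.trans δ.2⟩ ((h.rGd' _ _ _).2 hG)
      · exact h3 ⟨η', hη'.trans η.2⟩ ((h.rLt _ _).2 hη') ((h.rGd' _ _ _).2 hG)
    · rintro ⟨ζ, hζ, h1, h2, h3⟩
      refine ⟨⟨ζ, hζ⟩, (h.rGd' _ _ _).2 h1, ?_, ?_⟩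
      · rw [h.all1]
        intro ζ' hζ'
        rw [h.all1]
        intro η' hG
        exact h2 ζ'.1 ((h.rLt _ _).1 hζ') η'.1 ((h.rGd' _ _ _).1 hG)
      · rw [h.all1]
        intro η' hη' hG
        exact h3 η'.1 ((h.rLt _ _).1 hη') ((h.rGd' _ _ _).1 hG)
  · constructor
    · intro h1 ζ hζ η' hG
      have h4 := h1 ⟨ζ, hζ⟩
      rw [h.all1] at h4
      exact h4 ⟨η', hG.1.trans δ.2⟩ ((h.rGd' _ _ _).2 hG)
    · intro h1 ζ
      rw [h.all1]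
      intro η' hG
      exact h1 ζ.1 ζ.2 η'.1 ((h.rGd' _ _ _).1 hG)
  · exact not_lt.trans ⟨fun h1 => le_antisymm h1 bot_le, fun h1 => le_of_eq h1⟩

/-- sort `1` is `om` -/
noncomputable def equiv1 : Set.Iio (om : Ordinal.{u}) ≃ {x // x ∈ M.sort 1} :=
  (Equiv.ofInjective o h.o_inj).trans (Equiv.setCongr h.s1.symm)

theorem equiv1_val (x : Set.Iio (om : Ordinal.{u})) : (h.equiv1 x).1 = o x := rfl

theorem card1 (P : D → Prop) : Cardinal.lift.{u+1} #{a // a ∈ M.sort 1 ∧ P a} =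
    Cardinal.lift.{w} #{x : Set.Iio (om : Ordinal.{u}) // P (o x)} := by
  refine (Cardinal.lift_mk_eq'.2 ⟨Equiv.ofBijective
    (fun x : {x : Set.Iio (om : Ordinal.{u}) // P (o x)} =>
      (⟨o x.1, by rw [h.s1]; exact ⟨x.1, rfl⟩, x.2⟩ : {a // a ∈ M.sort 1 ∧ P a})) ⟨?_, ?_⟩⟩).symm
  · intro x y hxy
    exact Subtype.ext (h.o_inj (congrArg Subtype.val hxy))
  · rintro ⟨a, ha, hP⟩
    rw [h.s1] at ha
    obtain ⟨x, rfl⟩ := ha
    exact ⟨⟨x, hP⟩, rfl⟩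

theorem ax (hK : ∀ α : Ordinal.{u}, α < om → α.toZFSet ∈ K om) {c : A}
    {γ t : Set.Iio (om : Ordinal.{u})} (hγ : Lim γ.1) (hI1 : ∀ a, E a c → ∃ ξ < γ.1, I a ξ)
    (hI2 : ∀ ξ < γ.1, ∃ a, E a c ∧ I a ξ)
    (hI3 : ∀ a b ξ η, E a c → E b c → ξ < γ.1 → η < γ.1 → I a ξ → I b η →
      (a = b ↔ ξ = η) ∧ (E a b ↔ ξ < η))
    (hCl : ClubIn Cl om) (hom : ∀ δ ∈ Cl, δ < om → fn δ ≠ t.1) : Ax M (i c) (o γ) (o t) where
  o_tri := by
    rw [h.all1]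
    intro ξ
    rw [h.all1]
    intro η
    rw [h.rLt, h.rLt, h.o_inj.eq_iff, Subtype.ext_iff]
    exact lt_trichotomy _ _
  o_trans := by
    rw [h.all1]
    intro ξ
    rw [h.all1]
    intro η
    rw [h.all1]
    intro ζ
    rw [h.rLt, h.rLt, h.rLt]
    exact lt_trans
  o_wf := by
    have h1 : WellFounded fun a b : Set.Iio (om : Ordinal.{u}) => a.1 < b.1 :=
      InvImage.wf Subtype.val Ordinal.lt_wf
    refine Subrelation.wf (fun {a b} hab => ?_) (InvImage.wf h.equiv1.symm h1)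
    have h2 := hab
    rw [← h.equiv1.apply_symm_apply a, ← h.equiv1.apply_symm_apply b] at h2
    exact (h.rLt _ _).1 h2
  o_big := by
    rw [← Cardinal.lift_le.{u+1}, h.card1 fun _ => True]
    have h1 : #{x : Set.Iio (om : Ordinal.{u}) // True} = #(Set.Iio (om : Ordinal.{u})) :=
      Cardinal.mk_congr (Equiv.subtypeUnivEquiv fun _ => trivial)
    rw [h1, Cardinal.mk_Iio_ordinal]
    unfold om
    rw [Cardinal.card_ord]
    simp
  o_small := by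
    rw [h.all1]
    intro ξ hle
    rw [← Cardinal.lift_le.{u+1}, h.card1 fun x => sLt M x (o ξ)] at hle
    have h1 : #{x : Set.Iio (om : Ordinal.{u}) // sLt M (o x) (o ξ)} = #(Set.Iio ξ.1) := by
      refine Cardinal.mk_congr ⟨fun x => ⟨x.1.1, (h.rLt _ _).1 x.2⟩,
        fun y => ⟨⟨y.1, (show y.1 < ξ.1 from y.2).trans ξ.2⟩, (h.rLt _ _).2 y.2⟩, fun _ => rfl, fun _ => rfl⟩
    rw [h1, Cardinal.mk_Iio_ordinal] at hle
    have h2 : Cardinal.lift.{max (u+1) w} ξ.1.card < ℵ₁ := by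
      have h3 := Cardinal.lift_lt.{u, max (u+1) w}.2 (card_lt_of_lt_om ξ.2)
      simpa using h3
    refine absurd hle (not_le.2 ?_)
    simpa using h2
  u_wf := by
    refine Subrelation.wf (fun {a b} hab => ?_) (InvImage.wf h.equiv2.symm (ke_wf (γ := om)))
    have h2 := hab
    rw [← h.equiv2.apply_symm_apply a, ← h.equiv2.apply_symm_apply b] at h2
    exact (h.rE _ _).1 h2
  u_ext := by
    rw [h.all2]
    intro x
    rw [h.all2]
    intro y hxy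
    rw [h.all2] at hxy
    refine congrArg k (ke_ext lim_omS x y fun z => ?_)
    have h1 := hxy z
    rw [h.rE, h.rE] at h1
    exact h1
  k_ex := by
    rw [h.all1]
    intro ξ
    rw [h.ex2]
    refine ⟨⟨K ξ.1, K_mem ξ.2⟩, (h.rK _ _).2 rfl, ?_⟩
    rw [h.all2]
    intro y hy
    rw [h.rK] at hy
    exact congrArg k (Subtype.ext hy)
  h1 := by
    rw [h.all2]
    intro x
    rw [h.ex1]
    obtain ⟨ξ, hξ, hx⟩ := (K_lim lim_omS).1 x.2
    refine ⟨⟨ξ, hξ⟩, ?_⟩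
    rw [h.ex2]
    exact ⟨⟨K ξ, K_mem hξ⟩, (h.rK _ _).2 rfl, (h.rE _ _).2 hx⟩
  h2 := by
    rw [h.all2]
    intro x
    rw [h.all1]
    intro ξ
    rw [h.all2]
    intro y hy
    rw [h.rK] at hy
    rw [h.rE, h.ex1, hy, mem_K]
    constructor
    · rintro ⟨ζ, hζ, hx⟩
      refine ⟨⟨ζ, hζ.trans ξ.2⟩, (h.rLt _ _).2 hζ, ?_⟩
      rw [h.ex2]
      exact ⟨⟨K ζ, K_mem (hζ.trans ξ.2)⟩, (h.rK _ _).2 rfl, (h.rStep' _ _).2 hx⟩
    · rintro ⟨ζ, hζ, hx⟩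
      rw [h.ex2] at hx
      obtain ⟨l, hl, hx⟩ := hx
      rw [h.rK] at hl
      rw [h.rStep', hl] at hx
      exact ⟨ζ.1, (h.rLt _ _).1 hζ, hx⟩
  h3 := by
    intro j hj
    rw [h.all2]
    intro a
    rw [h.all2]
    intro b
    rw [h.ex2]
    obtain ⟨c, hc⟩ := ke_G lim_omS hj a b
    exact ⟨c, (h.rG' _ _ _).2 hc⟩
  j_ex := by
    rw [h.all1]
    intro ξ
    rw [h.ex2]
    refine ⟨⟨ξ.1.toZFSet, hK _ ξ.2⟩, (h.rJ _ _).2 rfl, ?_⟩
    rw [h.all2]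
    intro y hy
    rw [h.rJ] at hy
    exact congrArg k (Subtype.ext hy)
  j_mem := by
    rw [h.all1]
    intro ξ
    rw [h.all2]
    intro j hj
    rw [h.rJ] at hj
    rw [h.all2]
    intro x
    rw [h.rE, hj, h.ex1, mem_toZFSet_iff]
    constructor
    · rintro ⟨ζ, hζ, hx⟩
      exact ⟨⟨ζ, hζ.trans ξ.2⟩, (h.rLt _ _).2 hζ, (h.rJ _ _).2 hx.symm⟩
    · rintro ⟨ζ, hζ, hx⟩
      exact ⟨ζ.1, (h.rLt _ _).1 hζ, ((h.rJ _ _).1 hx).symm⟩
  f_rec := by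
    rw [h.all1]
    intro δ
    rw [h.all1]
    intro η
    rw [h.rF, h.rNxt']
  g_mem := by rw [h.s1]; exact ⟨γ, rfl⟩
  t_mem := by rw [h.s1]; exact ⟨t, rfl⟩
  g_pos := (h.rPos' _).2 hγ.1
  g_lim := by
    rw [h.all1]
    intro α hα
    rw [h.rLt] at hα
    rw [h.ex1]
    have h1 := hγ.2 _ hα
    exact ⟨⟨Order.succ α.1, h1.trans γ.2⟩, (h.rLt _ _).2 (Order.lt_succ _), (h.rLt _ _).2 h1⟩
  i_ex := by
    rw [h.all0]
    intro a ha
    rw [h.rA] at ha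
    rw [h.ex1]
    obtain ⟨ξ, hξ, hI⟩ := hI1 a ha
    exact ⟨⟨ξ, hξ.trans γ.2⟩, (h.rLt _ _).2 hξ, (h.rI _ _).2 hI⟩
  i_onto := by
    rw [h.all1]
    intro ξ hξ
    rw [h.rLt] at hξ
    rw [h.ex0]
    obtain ⟨a, ha, hI⟩ := hI2 ξ.1 hξ
    exact ⟨a, (h.rA _ _).2 ha, (h.rI _ _).2 hI⟩
  i_iso := by
    rw [h.all0]
    intro a
    rw [h.all0]
    intro b
    rw [h.all1]
    intro ξ
    rw [h.all1]
    intro η ha hb hξ hη hIa hIb
    rw [h.rA] at ha hb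
    rw [h.rLt] at hξ hη
    rw [h.rI] at hIa hIb
    have h1 := hI3 a b ξ.1 η.1 ha hb hξ hη hIa hIb
    rw [h.i_inj.eq_iff, h.o_inj.eq_iff, h.rA, h.rLt, Subtype.ext_iff]
    exact h1
  c_unb := by
    rw [h.all1]
    intro α
    rw [h.ex1]
    obtain ⟨β, h1, h2, h3⟩ := hCl.1 α.1 α.2
    exact ⟨⟨β, h3⟩, (h.rC _).2 h1, (h.rLt _ _).2 h2⟩
  c_closed := by
    rw [h.all1]
    intro l hl hc
    rw [h.all1] at hc
    rw [h.rPos'] at hl
    rw [h.rC]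
    refine hCl.2 l.1 l.2 hl fun α hα => ?_
    have h1 := hc ⟨α, hα.trans l.2⟩ ((h.rLt _ _).2 hα)
    rw [h.ex1] at h1
    obtain ⟨β, h2, h3, h4⟩ := h1
    exact ⟨β.1, (h.rC _).1 h2, (h.rLt _ _).1 h3, (h.rLt _ _).1 h4⟩
  c_omit := by
    rw [h.all1]
    intro δ hδ
    rw [h.rC] at hδ
    rw [h.rF]
    exact hom δ.1 hδ δ.2

end Cd

/-! ### The structure -/

section Build

variable (A : Type u)

/-- the domain -/
abbrev DD : Type u :=
  A ⊕ (Shrink.{u} (Set.Iio (om : Ordinal.{u})) ⊕ Shrink.{u} (Ks (om : Ordinal.{u})))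

/-- the ordinals in the domain -/
noncomputable def oD (ξ : Set.Iio (om : Ordinal.{u})) : DD A := Sum.inr (Sum.inl (equivShrink _ ξ))

/-- the elements of `K om` in the domain -/
noncomputable def kD (x : Ks (om : Ordinal.{u})) : DD A := Sum.inr (Sum.inr (equivShrink _ x))

variable {A}

theorem oD_inj : Function.Injective (oD A) := fun _ _ h =>
  (equivShrink _).injective (Sum.inl_injective (Sum.inr_injective h))

theorem kD_inj : Function.Injective (kD A) := fun _ _ h =>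
  (equivShrink _).injective (Sum.inr_injective (Sum.inr_injective h))

/-- the structure -/
def MM (E : A → A → Prop) (I : A → Ordinal.{u} → Prop) (Cl : Set Ordinal.{u}) : Str (DD A) where
  sort n := {x | (n = 0 ∧ x ∈ Set.range (Sum.inl : A → DD A)) ∨ (n = 1 ∧ x ∈ Set.range (oD A)) ∨
    (n = 2 ∧ x ∈ Set.range (kD A))}
  rel n l := (n = 0 ∧ ∃ a b, l = [Sum.inl a, Sum.inl b] ∧ E a b) ∨
    (n = 1 ∧ ∃ ξ η, l = [oD A ξ, oD A η] ∧ ξ.1 < η.1) ∨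
    (n = 2 ∧ ∃ x y, l = [kD A x, kD A y] ∧ x.1 ∈ y.1) ∨
    (n = 3 ∧ ∃ ξ x, l = [oD A ξ, kD A x] ∧ x.1 = K ξ.1) ∨
    (n = 4 ∧ ∃ ξ x, l = [oD A ξ, kD A x] ∧ x.1 = ξ.1.toZFSet) ∨
    (n = 5 ∧ ∃ ξ η, l = [oD A ξ, oD A η] ∧ fn ξ.1 = η.1) ∨
    (n = 6 ∧ ∃ a ξ, l = [Sum.inl a, oD A ξ] ∧ I a ξ.1) ∨
    (n = 7 ∧ ∃ ξ, l = [oD A ξ] ∧ ξ.1 ∈ Cl)

theorem cd_MM (E : A → A → Prop) (I : A → Ordinal.{u} → Prop) (Cl : Set Ordinal.{u}) :
    Cd (MM E I Cl) E Sum.inl (oD A) (kD A) I Cl where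
  i_inj := Sum.inl_injective
  o_inj := oD_inj
  k_inj := kD_inj
  s0 := by ext x; simp [MM]
  s1 := by ext x; simp [MM]
  s2 := by ext x; simp [MM]
  rA a b := by simp [MM, sA, Sum.inl_injective.eq_iff]
  rLt a b := by
    unfold sLt MM
    simp only [OfNat.one_ne_ofNat, one_ne_zero, false_and, true_and, false_or, or_false]
    constructor
    · rintro ⟨ξ, η, h1, h2⟩
      simp only [List.cons.injEq, and_true, oD_inj.eq_iff] at h1
      rw [h1.1, h1.2]; exact h2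
    · intro h
      exact ⟨a, b, rfl, h⟩
  rE a b := by
    unfold sE MM
    simp only [OfNat.ofNat_ne_one, OfNat.ofNat_ne_zero, false_and, true_and, false_or, or_false,
      Nat.reduceEqDiff]
    constructor
    · rintro ⟨ξ, η, h1, h2⟩
      simp only [List.cons.injEq, and_true, kD_inj.eq_iff] at h1
      rw [h1.1, h1.2]; exact h2
    · intro h
      exact ⟨a, b, rfl, h⟩
  rK a b := by
    unfold sK MM
    simp only [OfNat.ofNat_ne_one, OfNat.ofNat_ne_zero, false_and, true_and, false_or, or_false,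
      Nat.reduceEqDiff]
    constructor
    · rintro ⟨ξ, η, h1, h2⟩
      simp only [List.cons.injEq, and_true, kD_inj.eq_iff, oD_inj.eq_iff] at h1
      rw [h1.1, h1.2]; exact h2
    · intro h
      exact ⟨a, b, rfl, h⟩
  rJ a b := by
    unfold sJ MM
    simp only [OfNat.ofNat_ne_one, OfNat.ofNat_ne_zero, false_and, true_and, false_or, or_false,
      Nat.reduceEqDiff]
    constructor
    · rintro ⟨ξ, η, h1, h2⟩
      simp only [List.cons.injEq, and_true, kD_inj.eq_iff, oD_inj.eq_iff] at h1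
      rw [h1.1, h1.2]; exact h2
    · intro h
      exact ⟨a, b, rfl, h⟩
  rF a b := by
    unfold sF MM
    simp only [OfNat.ofNat_ne_one, OfNat.ofNat_ne_zero, false_and, true_and, false_or, or_false,
      Nat.reduceEqDiff]
    constructor
    · rintro ⟨ξ, η, h1, h2⟩
      simp only [List.cons.injEq, and_true, oD_inj.eq_iff] at h1
      rw [h1.1, h1.2]; exact h2
    · intro h
      exact ⟨a, b, rfl, h⟩
  rI a b := by
    unfold sI MM
    simp only [OfNat.ofNat_ne_one, OfNat.ofNat_ne_zero, false_and, true_and, false_or, or_false,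
      Nat.reduceEqDiff]
    constructor
    · rintro ⟨ξ, η, h1, h2⟩
      simp only [List.cons.injEq, and_true, oD_inj.eq_iff, Sum.inl_injective.eq_iff] at h1
      rw [h1.1, h1.2]; exact h2
    · intro h
      exact ⟨a, b, rfl, h⟩
  rC a := by
    unfold sC MM
    simp only [OfNat.ofNat_ne_one, OfNat.ofNat_ne_zero, false_and, true_and, false_or, or_false,
      Nat.reduceEqDiff]
    constructor
    · rintro ⟨ξ, h1, h2⟩
      simp only [List.cons.injEq, and_true, oD_inj.eq_iff] at h1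
      rw [h1]; exact h2
    · intro h
      exact ⟨a, rfl, h⟩

end Build

theorem ax_exists (hK : ∀ α : Ordinal.{u}, α < om → α.toZFSet ∈ K om) {A : Type u}
    {E : A → A → Prop} {c : A} {γ : Ordinal.{u}} (hγ : γ < om) (hl : Lim γ) (hp : PredType E c γ)
    {t : Ordinal.{u}} (ht : t < om) (hn : NonStat {δ | fn δ = t}) :
    ∃ (D : Type u) (M : Str D) (i : A → D) (g s : D), Function.Injective i ∧
      M.sort 0 = Set.range i ∧ (∀ a b, M.rel 0 [i a, i b] ↔ E a b) ∧ Ax M (i c) g s ∧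
      (γ = t → g = s) ∧ (t = Order.succ γ → rSucc M g s) := by
  obtain ⟨f⟩ := hp
  obtain ⟨Cl, hCl, hom⟩ := hn
  have h := cd_MM E (fun a ξ => ∃ h : E a c, (f ⟨a, h⟩).1 = ξ) Cl
  refine ⟨DD A, _, Sum.inl, oD A ⟨γ, hγ⟩, oD A ⟨t, ht⟩, h.i_inj, h.s0, h.rA,
    h.ax hK (c := c) hl ?_ ?_ ?_ hCl hom, ?_, ?_⟩
  · intro a ha
    exact ⟨(f ⟨a, ha⟩).1, (f ⟨a, ha⟩).2, ha, rfl⟩
  · intro ξ hξ
    refine ⟨(f.symm ⟨ξ, hξ⟩).1, (f.symm ⟨ξ, hξ⟩).2, (f.symm ⟨ξ, hξ⟩).2, ?_⟩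
    show (f (f.symm ⟨ξ, hξ⟩)).1 = ξ
    rw [RelIso.apply_symm_apply]
  · rintro a b ξ η ha hb hξ hη ⟨_, rfl⟩ ⟨_, rfl⟩
    constructor
    · rw [← Subtype.ext_iff, f.injective.eq_iff, Subtype.mk.injEq]
    · exact (f.map_rel_iff (a := ⟨a, ha⟩) (b := ⟨b, hb⟩)).symm
  · rintro rfl
    rfl
  · rintro rfl
    refine ⟨(h.rLt _ _).2 (Order.lt_succ _), ?_⟩
    rw [h.all1]
    intro ζ hζ
    rw [h.rLt] at hζ ⊢
    rcases (Order.lt_succ_iff.1 hζ).lt_or_eq with h1 | h1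
    · exact Or.inr h1
    · exact Or.inl (congrArg (oD A) (Subtype.ext h1))

/-! ### The statement that the predecessors of `c` are a wellorder of countable limit type -/

/-- the statement, in the structure `M` -/
structure RW {D : Type u} (M : Str D) (c : D) : Prop where
  tri : ∀ a ∈ M.sort 0, ∀ b ∈ M.sort 0, sA M a c → sA M b c → sA M a b ∨ a = b ∨ sA M b a
  trans : ∀ a ∈ M.sort 0, ∀ b ∈ M.sort 0, ∀ d ∈ M.sort 0, sA M a c → sA M b c → sA M d c →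
    sA M a b → sA M b d → sA M a d
  wf : WellFounded fun a b : {a // a ∈ M.sort 0} => sA M a.1 c ∧ sA M b.1 c ∧ sA M a.1 b.1
  ctb : ¬ ℵ₁ ≤ #{a // a ∈ M.sort 0 ∧ sA M a c}
  ne : ∃ a ∈ M.sort 0, sA M a c
  nolast : ∀ a ∈ M.sort 0, sA M a c → ∃ b ∈ M.sort 0, sA M b c ∧ sA M a b

theorem rw_iff {A D : Type u} {M : Str D} {E : A → A → Prop} {i : A → D}
    (hi : Function.Injective i) (h0 : M.sort 0 = Set.range i)
    (hE : ∀ a b, sA M (i a) (i b) ↔ E a b) (c : A) : RW M (i c) ↔ WOC E c := by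
  have all0 : ∀ {P : D → Prop}, (∀ x ∈ M.sort 0, P x) ↔ ∀ a, P (i a) := by
    intro P
    rw [h0, Set.forall_mem_range]
  have ex0 : ∀ {P : D → Prop}, (∃ x ∈ M.sort 0, P x) ↔ ∃ a, P (i a) := by
    intro P
    rw [h0, Set.exists_range_iff]
  have e0 : A ≃ {x // x ∈ M.sort 0} := (Equiv.ofInjective i hi).trans (Equiv.setCongr h0.symm)
  constructor
  · rintro ⟨h1, h2, h3, h4, h5, h6⟩
    rw [all0] at h1 h2 h6
    rw [ex0] at h5
    refine ⟨fun a b ha hb => ?_, fun a b d ha hb hd => ?_, ?_, ?_, ?_, fun a ha => ?_⟩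
    · have h7 := h1 a
      rw [all0] at h7
      have h8 := h7 b
      rw [hE, hE, hE, hE, hi.eq_iff] at h8
      exact h8 ha hb
    · have h7 := h2 a
      rw [all0] at h7
      have h8 := h7 b
      rw [all0] at h8
      have h9 := h8 d
      rw [hE, hE, hE, hE, hE, hE] at h9
      exact h9 ha hb hd
    · refine Subrelation.wf (fun {a b} hab => ?_)
        (InvImage.wf (fun x : {a // E a c} => (⟨i x.1, by rw [h0]; exact ⟨x.1, rfl⟩⟩ :
          {x // x ∈ M.sort 0})) h3)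
      exact ⟨(hE _ _).2 a.2, (hE _ _).2 b.2, (hE _ _).2 hab⟩
    · intro h7
      refine h4 (h7.trans (Cardinal.mk_le_of_injective (f := fun x : {a // E a c} =>
        (⟨i x.1, by rw [h0]; exact ⟨x.1, rfl⟩, (hE _ _).2 x.2⟩ :
          {a // a ∈ M.sort 0 ∧ sA M a (i c)})) ?_))
      intro x y hxy
      exact Subtype.ext (hi (congrArg Subtype.val hxy))
    · obtain ⟨a, ha⟩ := h5
      exact ⟨a, (hE _ _).1 ha⟩
    · have h7 := h6 a ((hE _ _).2 ha)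
      rw [ex0] at h7
      obtain ⟨b, h8, h9⟩ := h7
      exact ⟨b, (hE _ _).1 h8, (hE _ _).1 h9⟩
  · rintro ⟨h1, h2, h3, h4, h5, h6⟩
    refine ⟨?_, ?_, ?_, ?_, ?_, ?_⟩
    · rw [all0]
      intro a
      rw [all0]
      intro b
      rw [hE, hE, hE, hE, hi.eq_iff]
      exact h1 a b
    · rw [all0]
      intro a
      rw [all0]
      intro b
      rw [all0]
      intro d
      rw [hE, hE, hE, hE, hE, hE]
      exact h2 a b d
    · -- well-foundedness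
      refine ⟨fun x => ?_⟩
      have key : ∀ y : {a // E a c}, Acc (fun a b : {a // a ∈ M.sort 0} =>
          sA M a.1 (i c) ∧ sA M b.1 (i c) ∧ sA M a.1 b.1)
          ⟨i y.1, by rw [h0]; exact ⟨y.1, rfl⟩⟩ := by
        intro y
        refine h3.induction (C := fun y : {a // E a c} => Acc (fun a b : {a // a ∈ M.sort 0} =>
          sA M a.1 (i c) ∧ sA M b.1 (i c) ∧ sA M a.1 b.1)
          ⟨i y.1, by rw [h0]; exact ⟨y.1, rfl⟩⟩) y ?_
        intro y ih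
        refine ⟨_, ?_⟩
        rintro ⟨z, hz⟩ ⟨h7, h8, h9⟩
        have hz' := hz
        rw [h0] at hz'
        obtain ⟨w, rfl⟩ := hz'
        exact ih ⟨w, (hE _ _).1 h7⟩ ((hE _ _).1 h9)
      refine ⟨_, ?_⟩
      rintro ⟨z, hz⟩ ⟨h7, h8, h9⟩
      have hz' := hz
      rw [h0] at hz'
      obtain ⟨w, rfl⟩ := hz'
      exact key ⟨w, (hE _ _).1 h7⟩
    · intro h7
      refine h4 (h7.trans (Cardinal.mk_le_of_surjective (f := fun x : {a // E a c} =>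
        (⟨i x.1, by rw [h0]; exact ⟨x.1, rfl⟩, (hE _ _).2 x.2⟩ :
          {a // a ∈ M.sort 0 ∧ sA M a (i c)})) ?_))
      rintro ⟨x, hx, hx'⟩
      have hx2 := hx
      rw [h0] at hx2
      obtain ⟨w, rfl⟩ := hx2
      exact ⟨⟨w, (hE _ _).1 hx'⟩, rfl⟩
    · rw [ex0]
      obtain ⟨a, ha⟩ := h5
      exact ⟨a, (hE _ _).2 ha⟩
    · rw [all0]
      intro a ha
      rw [ex0]
      obtain ⟨b, h8, h9⟩ := h6 a ((hE _ _).1 ha)
      exact ⟨b, (hE _ _).2 h8, (hE _ _).2 h9⟩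

theorem woc_iff {A : Type u} {E : A → A → Prop} {c : A} : WOC E c ↔
    ∃ γ : Ordinal.{u}, γ < om ∧ Lim γ ∧ PredType E c γ :=
  ⟨fun h => h.exists_iso, fun ⟨_, h1, h2, ⟨f⟩⟩ => WOC.of_iso h1 h2 f⟩

theorem Df.rw (c : ℕ) : Df.{u} fun _ M v => RW M (v c) := by
  have h1 : Df.{u} fun _ M v => ∀ a ∈ M.sort 0, ∀ b ∈ M.sort 0, DQ1.sA M a (v c) →
      DQ1.sA M b (v c) → DQ1.sA M a b ∨ a = b ∨ DQ1.sA M b a := by
    repeat' first
      | exact Df.sA _ _ | exact Df.eq _ _ | refine Df.all _ ?_ | refine Df.or ?_ ?_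
      | refine Df.imp ?_ ?_
  have h2 : Df.{u} fun _ M v => ∀ a ∈ M.sort 0, ∀ b ∈ M.sort 0, ∀ d ∈ M.sort 0,
      DQ1.sA M a (v c) → DQ1.sA M b (v c) → DQ1.sA M d (v c) → DQ1.sA M a b → DQ1.sA M b d →
      DQ1.sA M a d := by
    repeat' first
      | exact Df.sA _ _ | refine Df.all _ ?_ | refine Df.imp ?_ ?_
  have h3 : Df.{u} fun _ M v => WellFounded fun a b : {a // a ∈ M.sort 0} =>
      DQ1.sA M a.1 (v c) ∧ DQ1.sA M b.1 (v c) ∧ DQ1.sA M a.1 b.1 :=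
    Df.wf 0 (R := fun _ M v a b => DQ1.sA M a (v c) ∧ DQ1.sA M b (v c) ∧ DQ1.sA M a b)
      ((Df.sA 0 (c+2)).and ((Df.sA 1 (c+2)).and (Df.sA 0 1)))
  have h4 : Df.{u} fun _ M v => ¬ ℵ₁ ≤ #{a // a ∈ M.sort 0 ∧ DQ1.sA M a (v c)} :=
    Df.not (Df.q 0 (Df.sA 0 (c+1)))
  have h5 : Df.{u} fun _ M v => ∃ a ∈ M.sort 0, DQ1.sA M a (v c) := Df.ex 0 (Df.sA 0 (c+1))
  have h6 : Df.{u} fun _ M v => ∀ a ∈ M.sort 0, DQ1.sA M a (v c) →
      ∃ b ∈ M.sort 0, DQ1.sA M b (v c) ∧ DQ1.sA M a b := by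
    repeat' first
      | exact Df.sA _ _ | refine Df.ex _ ?_ | refine Df.all _ ?_ | refine Df.and ?_ ?_
      | refine Df.imp ?_ ?_
  refine (h1.and (h2.and (h3.and (h4.and (h5.and h6))))).congr fun D M v => ?_
  constructor
  · rintro ⟨a1, a2, a3, a4, a5, a6⟩
    exact ⟨a1, a2, a3, a4, a5, a6⟩
  · rintro ⟨a1, a2, a3, a4, a5, a6⟩
    exact ⟨a1, a2, a3, a4, a5, a6⟩

/-! ### The pair of formulas -/

/-- the conclusion of the other half -/
def FwdS : Prop := ∀ (A D : Type u) (M : Str D) (E : A → A → Prop) (i : A → D)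
    (_ : Function.Injective i) (_ : M.sort 0 = Set.range i)
    (_ : ∀ a b, sA M (i a) (i b) ↔ E a b) (c : A) (g t : D) (_ : Ax M (i c) g t),
    ∃ γ τ : Ordinal.{u}, γ < om ∧ τ < om ∧ Lim γ ∧ PredType E c γ ∧ NonStat {δ | fn δ = τ} ∧
      (g = t → τ = γ) ∧ (rSucc M g t → τ = Order.succ γ)

theorem sigma_pair_of (hK : ∀ α : Ordinal.{u}, α < om → α.toZFSet ∈ K om) (hF : FwdS.{u}) :
    ∃ φ ψ : QFm,
    (∀ (A : Type u) (E : A → A → Prop) (c : Fin 1 → A), Exp.{u} φ E c ↔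
      ∃ γ : Ordinal.{u}, γ < om ∧ Lim γ ∧ PredType E (c 0) γ ∧ NonStat {δ | fn δ = γ}) ∧
    (∀ (A : Type u) (E : A → A → Prop) (c : Fin 1 → A), Exp.{u} ψ E c ↔
      (¬ ∃ γ : Ordinal.{u}, γ < om ∧ Lim γ ∧ PredType E (c 0) γ) ∨
      ∃ γ : Ordinal.{u}, γ < om ∧ Lim γ ∧ PredType E (c 0) γ ∧
        NonStat {δ | fn δ = Order.succ γ}) := by
  obtain ⟨φ, hφ⟩ := (Df.ax.{u} 0 1 2).and (Df.eq 1 2)
  obtain ⟨ψ, hψ⟩ := (Df.rw.{u} 0).not.or ((Df.ax.{u} 0 1 2).and (Df.rSucc 1 2))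
  refine ⟨φ, ψ, fun A E c => ?_, fun A E c => ?_⟩
  · constructor
    · rintro ⟨D, M, i, v, hi, h0, hE, hv, hs⟩
      obtain ⟨h1, h2⟩ := (hφ D M v).1 hs
      rw [show v 0 = i (c 0) from hv 0] at h1
      obtain ⟨γ, τ, h3, h4, h5, h6, h7, h8, -⟩ := hF A D M E i hi h0 hE (c 0) _ _ h1
      rw [h8 h2] at h7
      exact ⟨γ, h3, h5, h6, h7⟩
    · rintro ⟨γ, h3, h5, h6, h7⟩
      obtain ⟨D, M, i, g, s, hi, h0, hE, h8, h9, -⟩ := ax_exists hK h3 h5 h6 h3 h7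
      refine ⟨D, M, i, fun n => if n = 0 then i (c 0) else if n = 1 then g else s, hi, h0, hE,
        fun k => ?_, (hφ _ _ _).2 ⟨h8, h9 rfl⟩⟩
      rw [Subsingleton.elim k 0]
      rfl
  · constructor
    · rintro ⟨D, M, i, v, hi, h0, hE, hv, hs⟩
      rcases (hψ D M v).1 hs with h1 | ⟨h1, h2⟩
      · left
        rw [show v 0 = i (c 0) from hv 0, rw_iff hi h0 hE, woc_iff] at h1
        exact h1
      · right
        rw [show v 0 = i (c 0) from hv 0] at h1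
        obtain ⟨γ, τ, h3, h4, h5, h6, h7, -, h8⟩ := hF A D M E i hi h0 hE (c 0) _ _ h1
        rw [h8 h2] at h7
        exact ⟨γ, h3, h5, h6, h7⟩
    · rintro (h | ⟨γ, h3, h5, h6, h7⟩)
      · have hE : ∀ a b : A, sA (⟨fun _ => Set.univ, fun _ l => ∃ a b, l = [a, b] ∧ E a b⟩ : Str A)
            (id a) (id b) ↔ E a b := by
          intro a b
          unfold sA
          constructor
          · rintro ⟨a', b', h1, h2⟩
            simp only [List.cons.injEq, and_true, id] at h1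
            rw [h1.1, h1.2]; exact h2
          · intro h1
            exact ⟨a, b, rfl, h1⟩
        refine ⟨A, ⟨fun _ => Set.univ, fun _ l => ∃ a b, l = [a, b] ∧ E a b⟩, id, fun _ => c 0,
          Function.injective_id, Set.range_id.symm, hE, fun k => ?_, (hψ _ _ _).2 (Or.inl ?_)⟩
        · rw [Subsingleton.elim k 0]
          rfl
        · rw [← woc_iff, ← rw_iff (i := id) Function.injective_id Set.range_id.symm hE] at h
          exact h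
      · obtain ⟨D, M, i, g, s, hi, h0, hE, h8, -, h9⟩ :=
          ax_exists hK h3 h5 h6 (lim_omS.2 _ h3) h7
        refine ⟨D, M, i, fun n => if n = 0 then i (c 0) else if n = 1 then g else s, hi, h0, hE,
          fun k => ?_, (hψ _ _ _).2 (Or.inr ⟨h8, h9 rfl⟩)⟩
        rw [Subsingleton.elim k 0]
        rfl

end Pool.Agent.DQ1
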