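import Pool.Agent.DQ1.Ult

/-! # The definable ultrapower is a weak model -/

namespace Pool.Agent.DQ1

open Function Cardinal Set

universe u v w

namespace WM

namespace UF

variable {D : Type w} {W : WM D} {X0 : Set D} (U : UF W X0)

/-- the domain of the ultrapower -/
def Q : Type w := Quotient U.setoid

/-- representatives -/
noncomputable def out (a : U.Q) : W.Fn := @Quotient.out _ U.setoid a

/-- classes -/
def cls (F : W.Fn) : U.Q := Quotient.mk U.setoid F

theorem cls_out (a : U.Q) : U.cls (U.out a) = a := @Quotient.out_eq _ U.setoid a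

theorem cls_eq {F G : W.Fn} : U.cls F = U.cls G ↔ U.M {i | F.1 i = G.1 i} :=
  @Quotient.eq _ U.setoid F G

theorem out_cls (F : W.Fn) : U.M {i | (U.out (U.cls F)).1 i = F.1 i} := by
  rw [← U.cls_eq, U.cls_out]

theorem eq_iff (a b : U.Q) : a = b ↔ U.M {i | (U.out a).1 i = (U.out b).1 i} := by
  rw [← U.cls_eq, U.cls_out, U.cls_out]

theorem tt_iff {φ : KF} {F G : ℕ → W.Fn} (h : ∀ n < φ.bd, U.M {i | (F n).1 i = (G n).1 i}) :
    U.TT φ F ↔ U.TT φ G :=
  ⟨U.tt_congr h, U.tt_congr fun n hn => U.mono (h n hn) fun _ hi => hi.symm⟩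

/-- truth for classes -/
def T' (φ : KF) (v : ℕ → U.Q) : Prop := U.TT φ (fun n => U.out (v n))

theorem push_fn (F : W.Fn) (G : ℕ → W.Fn) (i : D) :
    (fun n => (push F G n).1 i) = push (F.1 i) (fun n => (G n).1 i) := by
  funext n; cases n <;> rfl

theorem out_push (a : U.Q) (v : ℕ → U.Q) :
    (fun n => U.out (push a v n)) = push (U.out a) (fun n => U.out (v n)) := by
  funext n; cases n <;> rfl

theorem tt_push_cls (φ : KF) (F : W.Fn) (G : ℕ → W.Fn) :
    U.TT φ (push (U.out (U.cls F)) G) ↔ U.TT φ (push F G) := by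
  refine U.tt_iff fun n _ => ?_
  cases n with
  | zero => exact U.out_cls F
  | succ n => simpa using U.univ

variable [Nonempty D]

/-- definable choice -/
theorem exists_choice (φ : KF) (G : ℕ → W.Fn) : ∃ F : W.Fn, ∀ i,
    (∃ a, W.T φ (push a (fun n => (G n).1 i))) → W.T φ (push (F.1 i) (fun n => (G n).1 i)) := by
  classical
  let R : D → D → Prop := fun i b => W.T φ (push b (fun n => (G n).1 i))
  have hR : W.TD (fun v => R (v 0) (v 1)) := Fn.td φ G
  have hds : ∀ i, W.DS {b | R i b} := by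
    intro i
    have := hR.subst (fun n => if n = 0 then .inr i else .inl 0)
    exact this.congr fun v => by simp [slot]
  have hex : ∀ i, ∃ b, (R i b ∧ ∀ c, R i c → ¬ W.lt' c b) ∨ ((∀ c, ¬ R i c) ∧ i = b) := by
    intro i
    by_cases h : ∃ c, R i c
    · obtain ⟨b, hb, hb'⟩ := exists_least (hds i) h
      exact ⟨b, Or.inl ⟨hb, hb'⟩⟩
    · push Not at h
      exact ⟨i, Or.inr ⟨h, rfl⟩⟩
  have huniq : ∀ i b b', ((R i b ∧ ∀ c, R i c → ¬ W.lt' c b) ∨ ((∀ c, ¬ R i c) ∧ i = b)) →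
      ((R i b' ∧ ∀ c, R i c → ¬ W.lt' c b') ∨ ((∀ c, ¬ R i c) ∧ i = b')) → b = b' := by
    rintro i b b' (⟨h1, h2⟩ | ⟨h1, h2⟩) (⟨h3, h4⟩ | ⟨h3, h4⟩)
    · rcases lt'_tri (W := W) b b' with h | h | h
      · exact absurd h (h4 b h1)
      · exact h
      · exact absurd h (h2 b' h3)
    · exact absurd h1 (h3 _)
    · exact absurd h3 (h1 _)
    · rw [← h2, ← h4]
  choose f hf using hex
  have hfd : W.TD (fun v => f (v 0) = v 1) := by
    have h2 : W.TD (fun v => ∀ c, R (v 0) c → ¬ W.lt' c (v 1)) := by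
      have h3 : W.TD (fun v => ∀ c, R (push c v 1) (push c v 0) → ¬ W.lt' (push c v 0) (push c v 2)) := by
        refine TD.all (P := fun v => R (v 1) (v 0) → ¬ W.lt' (v 0) (v 2)) (TD.imp ?_ (TD.not ?_))
        · have := hR.subst (fun n => if n = 0 then .inl 1 else .inl 0)
          exact this.congr fun v => by simp [slot]
        · have := (lt_td (W := W)).subst (fun n => if n = 0 then .inl 0 else .inl 2)
          exact this.congr fun v => by simp [slot]
      exact h3
    have h4 : W.TD (fun v => ∀ c, ¬ R (v 0) c) := by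
      have h5 : W.TD (fun v => ∀ c, ¬ R (push c v 1) (push c v 0)) := by
        refine TD.all (P := fun v => ¬ R (v 1) (v 0)) (TD.not ?_)
        have := hR.subst (fun n => if n = 0 then .inl 1 else .inl 0)
        exact this.congr fun v => by simp [slot]
      exact h5
    refine ((hR.and h2).or (h4.and (TD.eqv 0 1))).congr fun v => ?_
    constructor
    · intro h
      exact huniq _ _ _ (hf _) h
    · intro h
      rw [← h]
      exact hf _
  refine ⟨⟨f, hfd⟩, fun i ⟨a, ha⟩ => ?_⟩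
  rcases hf i with h | h
  · exact h.1
  · exact absurd ha (h.1 a)

omit [Nonempty D] in
theorem t_eq (x y : ℕ) (v : ℕ → U.Q) : U.T' (.eq x y) v ↔ v x = v y := by
  rw [U.eq_iff]
  unfold T' TT
  simp only [W.eq]

theorem t_neg (φ : KF) (v : ℕ → U.Q) : U.T' (.neg φ) v ↔ ¬ U.T' φ v := by
  unfold T' TT
  simp only [W.neg]
  exact U.compl_iff (Fn.ds φ _)

omit [Nonempty D] in
theorem t_and (φ ψ : KF) (v : ℕ → U.Q) : U.T' (.and φ ψ) v ↔ U.T' φ v ∧ U.T' ψ v := by
  unfold T' TT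
  simp only [W.and]
  exact ⟨fun h => ⟨U.mono h fun i hi => hi.1, U.mono h fun i hi => hi.2⟩,
    fun h => U.inter h.1 h.2⟩

theorem t_all (φ : KF) (v : ℕ → U.Q) : U.T' (.all φ) v ↔ ∀ a, U.T' φ (push a v) := by
  constructor
  · intro h a
    unfold T'
    rw [U.out_push]
    refine U.mono h fun i hi => ?_
    have h1 : ∀ b, W.T φ (push b fun n => (U.out (v n)).1 i) := (W.all _ _).1 hi
    show W.T φ _
    rw [push_fn]
    exact h1 _
  · intro h
    by_contra hc
    have h1 : U.M {i | W.T (.all φ) (fun n => (U.out (v n)).1 i)}ᶜ :=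
      (U.compl_iff (Fn.ds _ _)).2 hc
    obtain ⟨F, hF⟩ := exists_choice (.neg φ) (fun n => U.out (v n))
    have h2 : U.TT φ (push F (fun n => U.out (v n))) := by
      have := h (U.cls F)
      unfold T' at this
      rw [U.out_push] at this
      exact (U.tt_push_cls φ F _).1 this
    obtain ⟨i, hi1, hi2⟩ := U.nonempty (U.inter h1 h2)
    have h3 : ¬ W.T (.all φ) (fun n => (U.out (v n)).1 i) := hi1
    rw [W.all] at h3
    push Not at h3
    obtain ⟨a, ha⟩ := h3
    have h4 := hF i ⟨a, (W.neg _ _).2 ha⟩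
    rw [W.neg] at h4
    apply h4
    have h5 : W.T φ (fun n => (push F (fun n => U.out (v n)) n).1 i) := hi2
    rwa [push_fn] at h5

omit [Nonempty D] in
theorem mono_of {φ ψ : KF} {v : ℕ → U.Q} (h : ∀ w, W.T φ w → W.T ψ w) : U.T' φ v → U.T' ψ v :=
  fun h' => U.mono h' fun _ hi => h _ hi

/-- the ultrapower -/
noncomputable def model : WM U.Q where
  T := U.T'
  eq := U.t_eq
  neg := U.t_neg
  and := U.t_and
  all := U.t_all
  ren φ f v := by
    unfold T' TT
    simp only [W.ren]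
    exact Iff.rfl
  q1 x v h := by
    obtain ⟨i, hi⟩ := U.nonempty h
    exact W.q1 _ _ hi
  q2 φ ψ v h h' := U.mono (U.inter h h') fun i hi => W.q2 _ _ _ hi.1 hi.2
  q3 φ ψ v h := by
    have h1 : U.M ({i | W.T (.q φ) (fun n => (U.out (v n)).1 i)} ∪
        {i | W.T (.q ψ) (fun n => (U.out (v n)).1 i)}) := U.mono h fun i hi => W.q3 _ _ _ hi
    exact (U.union_iff (Fn.ds _ _) (Fn.ds _ _)).1 h1
  q4 φ v h := by
    have h1 : U.M ({i | W.T (.ex (.q (φ.ren KF.swp))) (fun n => (U.out (v n)).1 i)} ∪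
        {i | W.T (.q (.ex (φ.ren KF.swp))) (fun n => (U.out (v n)).1 i)}) :=
      U.mono h fun i hi => W.q4 _ _ hi
    exact (U.union_iff (Fn.ds _ _) (Fn.ds _ _)).1 h1
  le φ v h := U.mono h fun i hi => W.le _ _ hi
  univ v := U.mono U.univ fun i _ => W.univ _
  tri x y v := by
    have h1 : U.M ({i | W.T (.rel 0 [x, y]) (fun n => (U.out (v n)).1 i)} ∪
        ({i | W.T (.eq x y) (fun n => (U.out (v n)).1 i)} ∪
        {i | W.T (.rel 0 [y, x]) (fun n => (U.out (v n)).1 i)})) := by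
      refine U.mono U.univ fun i _ => ?_
      rcases W.tri x y (fun n => (U.out (v n)).1 i) with h | h | h
      · exact Or.inl h
      · exact Or.inr (Or.inl ((W.eq _ _ _).2 h))
      · exact Or.inr (Or.inr h)
    rw [U.union_iff (Fn.ds _ _) ((Fn.ds _ _).union (Fn.ds _ _)),
      U.union_iff (Fn.ds _ _) (Fn.ds _ _)] at h1
    rcases h1 with h | h | h
    · exact Or.inl h
    · exact Or.inr (Or.inl ((U.t_eq x y v).1 h))
    · exact Or.inr (Or.inr h)

/-- constant functions -/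
def cst (a : D) : W.Fn := ⟨fun _ => a, TD.const_eq a 1⟩

/-- the diagonal embedding -/
def emb (a : D) : U.Q := U.cls (cst a)

theorem emb_inj : Injective U.emb := by
  intro a b h
  obtain ⟨i, hi⟩ := U.nonempty ((U.cls_eq).1 h)
  exact hi

theorem emb_iff (φ : KF) (v : ℕ → D) : W.T φ v ↔ U.model.T φ (U.emb ∘ v) := by
  have h1 : U.model.T φ (U.emb ∘ v) ↔ U.TT φ (fun n => cst (v n)) :=
    U.tt_iff fun n _ => U.out_cls _
  rw [h1]
  constructor
  · intro h
    exact U.mono U.univ fun i _ => h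
  · intro h
    obtain ⟨i, hi⟩ := U.nonempty h
    exact hi

theorem t_push_emb (φ : KF) (F : W.Fn) (v : ℕ → D) :
    U.model.T φ (push (U.cls F) (U.emb ∘ v)) ↔ U.M {i | W.T φ (push (F.1 i) v)} := by
  have h1 : U.model.T φ (push (U.cls F) (U.emb ∘ v)) ↔ U.TT φ (push F (fun n => cst (v n))) := by
    refine U.tt_iff fun n _ => ?_
    cases n with
    | zero => exact U.out_cls F
    | succ n => exact U.out_cls _
  rw [h1]
  have : {i | W.T φ (push (F.1 i) v)} = {i | W.T φ (fun n => (push F (fun n => cst (v n)) n).1 i)} := by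
    ext i
    simp only [Set.mem_ofPred_eq]
    rw [push_fn]
    rfl
  rw [this]
  exact Iff.rfl

theorem small (φ : KF) (v : ℕ → D) (h : ¬ W.T (.q φ) v) (a : U.Q)
    (ha : U.model.T φ (push a (U.emb ∘ v))) : a ∈ Set.range U.emb := by
  rw [← U.cls_out a, U.t_push_emb] at ha
  let Y : Set D := {b | W.T φ (push b v)}
  have hY : W.DS Y := ds_of (φ := φ) (v := v) fun b => Iff.rfl
  have hYs : ¬ W.Big Y := by
    intro hb
    exact h ((big_iff (X := Y) (φ := φ) (v := v) fun b => Iff.rfl).1 hb)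
  obtain ⟨n, hn⟩ := U.rq (.inr (U.out a, ⟨Y, hY, hYs⟩))
  rcases hn with h1 | ⟨y, h1⟩
  · exfalso
    have h2 : U.M (U.A n ∩ (U.out a).1 ⁻¹' Y) := U.inter ⟨n, subset_rfl⟩ ha
    rw [h1] at h2
    exact U.not_empty h2
  · refine ⟨y, ?_⟩
    rw [← U.cls_out a]
    exact (U.cls_eq).2 ⟨n, fun i hi => (h1 hi).symm⟩

theorem grow (φ : KF) (v : ℕ → D) (h : X0 ⊆ {a | W.T φ (push a v)}) :
    ∃ a, U.model.T φ (push a (U.emb ∘ v)) ∧ a ∉ Set.range U.emb := by
  let I : W.Fn := ⟨id, TD.eqv 0 1⟩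
  refine ⟨U.cls I, ?_, ?_⟩
  · rw [U.t_push_emb]
    exact ⟨0, by rw [U.zero]; exact h⟩
  · rintro ⟨a, ha⟩
    obtain ⟨n, hn⟩ := (U.cls_eq).1 ha
    refine not_big_single (W := W) a ((U.big n).mono (DS.single a) fun i hi => ?_)
    exact (hn hi).symm

end UF

/-- **One step of Keisler's construction.** -/
theorem step {D : Type w} [Countable D] [Nonempty D] (W : WM D) (φ0 : KF) (v0 : ℕ → D)
    (h : W.T (.q φ0) v0) : ∃ (D' : Type w) (W' : WM D') (j : D → D'), Countable D' ∧ Injective j ∧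
      (∀ φ v, W.T φ v ↔ W'.T φ (j ∘ v)) ∧
      (∀ φ v, ¬ W.T (.q φ) v → ∀ a, W'.T φ (push a (j ∘ v)) → a ∈ Set.range j) ∧
      ∃ a, W'.T φ0 (push a (j ∘ v0)) ∧ a ∉ Set.range j := by
  have hb : W.Big {a | W.T φ0 (push a v0)} := ⟨φ0, v0, fun a => Iff.rfl, h⟩
  obtain ⟨U⟩ := exists_uf hb
  have hc : Countable W.Fn := countable_fn
  have hs : Surjective U.cls := fun a => ⟨U.out a, U.cls_out a⟩
  exact ⟨U.Q, U.model, U.emb, hs.countable, U.emb_inj, U.emb_iff, U.small, U.grow φ0 v0 subset_rfl⟩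

end WM

end Pool.Agent.DQ1
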