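import Pool.Agent.DQ1.Defs2

/-! # The translation of many-sorted into one-sorted formulas -/

namespace Pool.Agent.DQ1

open Cardinal Ordinal

universe u v w

theorem aleph_one_le_iff_not_countable {X : Type v} {S : Set X} :
    ℵ₁ ≤ #S ↔ ¬ S.Countable := by
  rw [← Cardinal.succ_aleph0, Order.succ_le_iff, ← not_le, Cardinal.le_aleph0_iff_set_countable]

theorem sat_tr {D : Type v} (R : ℕ → List D → Prop) {φ : QFm} (h : φ.NoW) (v : ℕ → D) :
    φ.tr.Sat R v ↔ φ.Sat (strOf R) v := by
  induction φ generalizing v with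
  | rel i xs => exact Iff.rfl
  | eq x y => exact Iff.rfl
  | neg φ ih => exact not_congr (ih h v)
  | and φ ψ ih1 ih2 => exact and_congr (ih1 h.1 v) (ih2 h.2 v)
  | all k φ ih =>
    show (∀ a, ¬ (R (2*k) [a] ∧ ¬ φ.tr.Sat R (push a v))) ↔
      ∀ a, R (2*k) [a] → φ.Sat (strOf R) (push a v)
    refine forall_congr' fun a => ?_
    rw [ih h]
    tauto
  | q k φ ih =>
    show (¬ {a | R (2*k) [a] ∧ φ.tr.Sat R (push a v)}.Countable) ↔
      ℵ₁ ≤ #{a // R (2*k) [a] ∧ φ.Sat (strOf R) (push a v)}
    rw [← aleph_one_le_iff_not_countable]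
    have : {a | R (2*k) [a] ∧ φ.tr.Sat R (push a v)} =
        {a | R (2*k) [a] ∧ φ.Sat (strOf R) (push a v)} := by
      ext a
      show _ ∧ _ ↔ _ ∧ _
      rw [ih h]
    rw [this]
    exact Iff.rfl
  | wf k φ ih => exact h.elim

/-- one-sorted satisfaction is invariant under isomorphism -/
theorem sat_equiv {D : Type v} {D' : Type w} (e : D ≃ D') (R : ℕ → List D' → Prop) (φ : KF) :
    ∀ v : ℕ → D, φ.Sat (fun n l => R n (l.map e)) v ↔ φ.Sat R (e ∘ v) := by
  induction φ with
  | rel i xs =>
    intro v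
    show R i ((xs.map v).map e) ↔ R i (xs.map (e ∘ v))
    rw [List.map_map]
  | eq x y =>
    intro v
    exact e.injective.eq_iff.symm
  | neg φ ih => intro v; exact not_congr (ih v)
  | and φ ψ ih1 ih2 => intro v; exact and_congr (ih1 v) (ih2 v)
  | all φ ih =>
    intro v
    show (∀ a, φ.Sat _ (push a v)) ↔ ∀ b, φ.Sat R (push b (e ∘ v))
    rw [← e.forall_congr_right]
    refine forall_congr' fun a => ?_
    rw [ih, comp_push]
  | q φ ih =>
    intro v
    show ¬ {a | φ.Sat _ (push a v)}.Countable ↔ ¬ {b | φ.Sat R (push b (e ∘ v))}.Countable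
    have : {a | φ.Sat (fun n l => R n (l.map e)) (push a v)} =
        e ⁻¹' {b | φ.Sat R (push b (e ∘ v))} := by
      ext a
      show _ ↔ φ.Sat R (push (e a) (e ∘ v))
      rw [← comp_push]
      exact ih _
    rw [this, not_iff_not]
    constructor
    · intro h
      have := h.image e
      rwa [Set.image_preimage_eq _ e.surjective] at this
    · intro h
      exact h.preimage e.injective

end Pool.Agent.DQ1
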