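import Pool.Agent.DQ1.Defs2

/-! # The forcing relation inside `L` -/

namespace Pool.Agent.DQ1

open Cardinal Ordinal
open ZFM (Fm Sat Dfn DT IsZF)

universe u v w

/-! ### Countable sets -/

theorem exists_LL_of_countable (hN : NoNewSeq.{u}) {S : Set LL.{u}} (hS : S.Countable) :
    ∃ x : LL.{u}, ∀ z, z ∈ x ↔ z ∈ S := by
  have : Countable S := hS.to_subtype
  have hm : ∀ w : ZFSet.{u}, w ∈ ZFSet.range (fun z : S => z.1.1) ↔ ∃ z ∈ S, z.val = w := by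
    intro w
    rw [ZFSet.mem_range]
    constructor
    · rintro ⟨z, rfl⟩; exact ⟨z.1, z.2, rfl⟩
    · rintro ⟨z, hz, rfl⟩; exact ⟨⟨z, hz⟩, rfl⟩
  have hL : IsL (ZFSet.range (fun z : S => z.1.1)) := by
    refine hN _ (fun y hy => ?_) ?_
    · obtain ⟨z, _, rfl⟩ := (hm y).1 hy
      exact z.2
    · refine (Set.countable_range (fun z : S => z.1.1)).mono ?_
      intro w hw
      obtain ⟨z, hz, rfl⟩ := (hm w).1 hw
      exact ⟨⟨z, hz⟩, rfl⟩
  refine ⟨⟨_, hL⟩, fun z => ?_⟩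
  show z.1 ∈ ZFSet.range (fun z : S => z.1.1) ↔ _
  rw [hm]
  constructor
  · rintro ⟨z', hz', h⟩
    rw [← LL.ext h]; exact hz'
  · intro h; exact ⟨z, h, rfl⟩

theorem ctL_iff (hN : NoNewSeq.{u}) {c : LL.{u}} : CtL c ↔ {z : LL.{u} | z ∈ c}.Countable := by
  classical
  constructor
  · rintro ⟨g, hg⟩
    choose! n hn h1 h2 using hg
    have h3 : {z : LL.{u} | z ∈ lo.{u} ω}.Countable := by
      refine (Set.countable_range (fun k : ℕ => lo.{u} (k : Ordinal.{u}))).mono ?_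
      intro z hz
      obtain ⟨β, hβ, rfl⟩ := mem_lo.1 hz
      obtain ⟨k, rfl⟩ := Ordinal.lt_omega0.1 hβ
      exact ⟨k, rfl⟩
    refine Set.MapsTo.countable_of_injOn (f := n) (t := {z : LL.{u} | z ∈ lo.{u} ω})
      (fun z hz => hn z hz) ?_ h3
    intro x hx y hy hxy
    refine (h2 x hx y hy ?_).symm
    rw [hxy]
    exact h1 y hy
  · intro hc
    have : Countable {z : LL.{u} | z ∈ c} := hc.to_subtype
    obtain ⟨f, hf⟩ := exists_injective_nat {z : LL.{u} | z ∈ c}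
    obtain ⟨g, hg⟩ := exists_LL_of_countable hN
      (Set.countable_range (fun z : {z : LL.{u} | z ∈ c} => lpair (lo (f z : Ordinal.{u})) z.1))
    refine ⟨g, fun x hx => ⟨lo (f ⟨x, hx⟩ : Ordinal.{u}), lo_mem_lo.2 (Ordinal.natCast_lt_omega0 _),
      (hg _).2 ⟨⟨x, hx⟩, rfl⟩, fun y hy h => ?_⟩⟩
    obtain ⟨z, hz⟩ := (hg _).1 h
    have hz' : lpair (lo (f z : Ordinal.{u})) z.1 = lpair (lo (f ⟨x, hx⟩ : Ordinal.{u})) y := hz
    rw [lpair_inj, lo_inj, Nat.cast_inj] at hz'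
    rw [← hz'.2, hf hz'.1]

/-! ### The forcing relation -/

theorem forall_Pc {Q : LL.{u} → Prop} (p : Pc.{u}) :
    (∀ q, q ∈ PP → EE q p.1 → Q q) ↔ ∀ q : Pc.{u}, q ≤ p → Q q.1 := by
  constructor
  · intro h q hq
    exact h q.1 (mem_PP.2 q.2) ((EE_iff q.2 p.2).2 hq)
  · intro h q hq hqp
    exact h ⟨q, mem_PP.1 hq⟩ ((EE_iff (mem_PP.1 hq) p.2).1 hqp)

theorem exists_Pc {Q : LL.{u} → Prop} (p : Pc.{u}) :
    (∃ q, q ∈ PP ∧ EE q p.1 ∧ Q q) ↔ ∃ q : Pc.{u}, q ≤ p ∧ Q q.1 := by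
  constructor
  · rintro ⟨q, hq, hqp, h⟩
    exact ⟨⟨q, mem_PP.1 hq⟩, (EE_iff (mem_PP.1 hq) p.2).1 hqp, h⟩
  · rintro ⟨q, hq, h⟩
    exact ⟨q.1, mem_PP.2 q.2, (EE_iff q.2 p.2).2 hq, h⟩

theorem fo_iff (hN : NoNewSeq.{u}) (r d : LL.{u}) (φ : KF) (v : ℕ → {z : LL.{u} // z ∈ d})
    (p : Pc.{u}) : Fo (Nm r d) φ v p ↔ FoL r d φ (fun i => (v i).1) p.1 := by
  have hpv : ∀ (a : {z : LL.{u} // z ∈ d}) (v : ℕ → {z : LL.{u} // z ∈ d}),
      (fun i => (push a v i).1) = push a.1 (fun i => (v i).1) := by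
    intro a v; funext i; cases i <;> rfl
  induction φ generalizing v p with
  | rel i xs =>
    have e : (xs.map v).map Subtype.val = xs.map (fun i => (v i).1) := by
      rw [List.map_map]; rfl
    show (∀ q ≤ p, ∃ q' ≤ q, ∃ s ∈ Nm r d i (xs.map v), q' ≤ s) ↔ _
    show _ ↔ ∀ q, q ∈ PP → EE q p.1 → ∃ q', q' ∈ PP ∧ EE q' q ∧ ∃ s, s ∈ PP ∧
      lpair s (lpair (lo i) (lcd (xs.map (fun i => (v i).1)))) ∈ r ∧ EE q' s
    rw [forall_Pc]
    refine forall₂_congr fun q _ => ?_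
    rw [exists_Pc]
    refine exists_congr fun q' => and_congr_right fun _ => ?_
    constructor
    · rintro ⟨s, hs, h⟩
      refine ⟨s.1, mem_PP.2 s.2, ?_, (EE_iff q'.2 s.2).2 h⟩
      have hs' : lpair s.1 (lpair (lo i) (lcd ((xs.map v).map Subtype.val))) ∈ r := hs
      rw [e] at hs'
      exact hs'
    · rintro ⟨s, hs, h1, h⟩
      refine ⟨⟨s, mem_PP.1 hs⟩, ?_, (EE_iff q'.2 (mem_PP.1 hs)).1 h⟩
      show lpair s (lpair (lo i) (lcd ((xs.map v).map Subtype.val))) ∈ r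
      rw [e]
      exact h1
  | eq x y => exact Subtype.ext_iff
  | neg φ ih =>
    show (∀ q ≤ p, ¬ Fo (Nm r d) φ v q) ↔ ∀ q, q ∈ PP → EE q p.1 → ¬ FoL r d φ (fun i => (v i).1) q
    rw [forall_Pc]
    exact forall₂_congr fun q _ => not_congr (ih v q)
  | and φ ψ ih1 ih2 => exact and_congr (ih1 v p) (ih2 v p)
  | all φ ih =>
    show (∀ a, Fo (Nm r d) φ (push a v) p) ↔ ∀ a, a ∈ d → FoL r d φ (push a (fun i => (v i).1)) p.1
    constructor
    · intro h a ha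
      have := (ih _ _).1 (h ⟨a, ha⟩)
      rw [hpv] at this
      exact this
    · intro h a
      refine (ih _ _).2 ?_
      rw [hpv]
      exact h a.1 a.2
  | q φ ih =>
    show (∀ q ≤ p, ∀ c : Set {z : LL.{u} // z ∈ d}, c.Countable → ∃ r' ≤ q, ∃ a, a ∉ c ∧
        Fo (Nm r d) φ (push a v) r') ↔
      ∀ q, q ∈ PP → EE q p.1 → ∀ c, CtL c → ∃ q', q' ∈ PP ∧ EE q' q ∧
      ∃ a, a ∈ d ∧ a ∉ c ∧ FoL r d φ (push a (fun i => (v i).1)) q'
    rw [forall_Pc]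
    refine forall₂_congr fun q _ => ?_
    constructor
    · intro h c hc
      rw [exists_Pc]
      rw [ctL_iff hN] at hc
      obtain ⟨q', hq', a, ha, h1⟩ := h {z | z.1 ∈ c} (hc.preimage Subtype.val_injective)
      have h1 := (ih _ _).1 h1
      rw [hpv] at h1
      exact ⟨q', hq', a.1, a.2, ha, h1⟩
    · intro h c hc
      obtain ⟨c', hc'⟩ := exists_LL_of_countable hN (hc.image Subtype.val)
      have h1 := h c' ((ctL_iff hN).2 (by
        refine (hc.image Subtype.val).mono fun z hz => (hc' z).1 hz))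
      rw [exists_Pc] at h1
      obtain ⟨q', hq', a, ha, hac, h2⟩ := h1
      refine ⟨q', hq', ⟨a, ha⟩, fun hc1 => hac ((hc' a).2 ⟨⟨a, ha⟩, hc1, rfl⟩), (ih _ _).2 ?_⟩
      rw [hpv]
      exact h2

/-! ### Definability -/

theorem DL.lpairMem {a b g : (ℕ → LL.{u}) → LL.{u}} (ha : DT Set.univ a) (hb : DT Set.univ b)
    (hg : DT Set.univ g) : DL (fun v => lpair (a v) (b v) ∈ g v) := by
  refine DL.sub3 (R := fun a b g => lpair a b ∈ g) ?_ ha hb hg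
  have h : DL (fun v : ℕ → LL.{u} => ∃ m, IsOp (· ∈ ·) m (v 0) (v 1) ∧ m ∈ v 2) := by
    apply_rules (maxDepth := 1000) [DL.isOp, Dfn.ex, Dfn.and, Dfn.mem, DT.var]
  refine h.congr fun v => ?_
  constructor
  · rintro ⟨m, hm, h⟩
    rw [LL.isOp_iff'] at hm
    rw [← hm]; exact h
  · intro h
    exact ⟨_, LL.isOp_iff'.2 rfl, h⟩

theorem DL.ctL {c : (ℕ → LL.{u}) → LL.{u}} (hc : DT Set.univ c) : DL (fun v => CtL (c v)) := by
  refine DL.sub1 (R := fun c => CtL c) ?_ hc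
  unfold CtL
  apply_rules (maxDepth := 1000) [DL.lpairMem, Dfn.ex, Dfn.all, Dfn.and, Dfn.imp, Dfn.mem, Dfn.eq,
    DT.var, DL.c]

theorem dl_lcd (xs : List ℕ) : ∀ k : ℕ,
    DL (fun v : ℕ → LL.{u} => v 0 = lcd (xs.map (fun i => v (i+k)))) := by
  induction xs with
  | nil => intro k; exact Dfn.eq (DT.var 0) DL.c
  | cons a xs ih =>
    intro k
    have h : DL (fun v : ℕ → LL.{u} => ∃ y, y = lcd (xs.map (fun i => v (i+k))) ∧
        IsOp (· ∈ ·) (v 0) (v (a+k)) y) := by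
      refine Dfn.ex (Dfn.and (ih (k+1)) ?_)
      exact DL.isOp (DT.var 1) (DT.var (a+k+1)) (DT.var 0)
    refine h.congr fun v => ?_
    constructor
    · rintro ⟨y, rfl, hy⟩
      rw [LL.isOp_iff'] at hy
      rw [hy]; rfl
    · intro h
      exact ⟨_, rfl, LL.isOp_iff'.2 h⟩

theorem dl_foL (φ : KF) :
    DL (fun w : ℕ → LL.{u} => FoL (w 1) (w 2) φ (fun i => w (i+3)) (w 0)) := by
  induction φ with
  | rel i xs =>
    have h0 : DL (fun v : ℕ → LL.{u} => ∀ q, q ∈ PP → EE q (v 2) → ∃ q', q' ∈ PP ∧ EE q' q ∧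
        ∃ s, s ∈ PP ∧ (∃ m, IsOp (· ∈ ·) m (lo i) (v 0) ∧ lpair s m ∈ v 1) ∧ EE q' s) := by
      apply_rules (maxDepth := 1000) [DL.lpairMem, DL.isOp, DL.EE, Dfn.ex, Dfn.all, Dfn.and,
        Dfn.imp, Dfn.mem, Dfn.eq, DT.var, DL.c]
    have h1 : ∀ {s t r : (ℕ → LL.{u}) → LL.{u}}, DT Set.univ s → DT Set.univ t → DT Set.univ r →
        DL (fun v => ∀ q, q ∈ PP → EE q (r v) → ∃ q', q' ∈ PP ∧ EE q' q ∧
        ∃ s', s' ∈ PP ∧ (∃ m, IsOp (· ∈ ·) m (lo i) (s v) ∧ lpair s' m ∈ t v) ∧ EE q' s') :=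
      fun h1 h2 h3 => DL.sub3 (R := fun a b c => ∀ q, q ∈ PP → EE q c → ∃ q', q' ∈ PP ∧ EE q' q ∧
        ∃ s', s' ∈ PP ∧ (∃ m, IsOp (· ∈ ·) m (lo i) a ∧ lpair s' m ∈ b) ∧ EE q' s') h0 h1 h2 h3
    have h2 : DL (fun w : ℕ → LL.{u} => ∃ l, l = lcd (xs.map (fun i => w (i+3))) ∧
        ∀ q, q ∈ PP → EE q (w 0) → ∃ q', q' ∈ PP ∧ EE q' q ∧
        ∃ s', s' ∈ PP ∧ (∃ m, IsOp (· ∈ ·) m (lo i) l ∧ lpair s' m ∈ w 1) ∧ EE q' s') := by
      refine Dfn.ex (Dfn.and (dl_lcd xs 4) ?_)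
      exact h1 (DT.var 0) (DT.var 2) (DT.var 1)
    refine h2.congr fun w => ?_
    show _ ↔ ∀ q, q ∈ PP → EE q (w 0) → ∃ q', q' ∈ PP ∧ EE q' q ∧ ∃ s, s ∈ PP ∧
      lpair s (lpair (lo i) (lcd (xs.map (fun i => w (i+3))))) ∈ w 1 ∧ EE q' s
    constructor
    · rintro ⟨l, rfl, h⟩ q hq hqp
      obtain ⟨q', h3, h4, s, h5, ⟨m, h6, h7⟩, h8⟩ := h q hq hqp
      rw [LL.isOp_iff'] at h6
      rw [h6] at h7
      exact ⟨q', h3, h4, s, h5, h7, h8⟩
    · intro h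
      refine ⟨_, rfl, fun q hq hqp => ?_⟩
      obtain ⟨q', h3, h4, s, h5, h7, h8⟩ := h q hq hqp
      exact ⟨q', h3, h4, s, h5, ⟨_, LL.isOp_iff'.2 rfl, h7⟩, h8⟩
  | eq x y => exact Dfn.eq (DT.var (x+3)) (DT.var (y+3))
  | neg φ ih =>
    refine Dfn.all (Q := fun w q => q ∈ PP → EE q (w 0) →
      ¬ FoL (w 1) (w 2) φ (fun i => w (i+3)) q) ?_
    refine Dfn.imp (Dfn.mem (DT.var 0) DL.c) (Dfn.imp (DL.EE (DT.var 0) (DT.var 1)) (Dfn.not ?_))
    exact Dfn.subst (t := fun i v => match i with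
      | 0 => v 0
      | i+1 => v (i+2)) ih (fun i => by
        cases i with
        | zero => exact DT.var 0
        | succ i => exact DT.var (i+2))
  | and φ ψ ih1 ih2 => exact Dfn.and ih1 ih2
  | all φ ih =>
    refine Dfn.all (Q := fun w a => a ∈ w 2 → FoL (w 1) (w 2) φ (push a (fun i => w (i+3))) (w 0)) ?_
    refine Dfn.imp (Dfn.mem (DT.var 0) (DT.var 3)) ?_
    refine Dfn.congr (Dfn.subst (t := fun i v => match i with
      | 0 => v 1
      | 1 => v 2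
      | 2 => v 3
      | 3 => v 0
      | i+4 => v (i+4)) ih (fun i => by
        match i with
        | 0 => exact DT.var 1
        | 1 => exact DT.var 2
        | 2 => exact DT.var 3
        | 3 => exact DT.var 0
        | i+4 => exact DT.var (i+4))) fun v => ?_
    have e : (fun i => (match i+3 with
      | 0 => v 1
      | 1 => v 2
      | 2 => v 3
      | 3 => v 0
      | i+4 => v (i+4) : LL.{u})) = push (v 0) (fun i => v (i+3+1)) := by
      funext i; cases i <;> rfl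
    show FoL (v 2) (v 3) φ (fun i => (match i+3 with
      | 0 => v 1
      | 1 => v 2
      | 2 => v 3
      | 3 => v 0
      | i+4 => v (i+4) : LL.{u})) (v 1) ↔ _
    rw [e]
  | q φ ih =>
    refine Dfn.all (Q := fun w q => q ∈ PP → EE q (w 0) → ∀ c, CtL c → ∃ q', q' ∈ PP ∧ EE q' q ∧
      ∃ a, a ∈ w 2 ∧ a ∉ c ∧ FoL (w 1) (w 2) φ (push a (fun i => w (i+3))) q') ?_
    refine Dfn.imp (Dfn.mem (DT.var 0) DL.c) (Dfn.imp (DL.EE (DT.var 0) (DT.var 1)) ?_)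
    refine Dfn.all (Q := fun w c => CtL c → ∃ q', q' ∈ PP ∧ EE q' (w 0) ∧
      ∃ a, a ∈ w 3 ∧ a ∉ c ∧ FoL (w 2) (w 3) φ (push a (fun i => w (i+4))) q') ?_
    refine Dfn.imp (DL.ctL (DT.var 0)) ?_
    refine Dfn.ex (Q := fun w q' => q' ∈ PP ∧ EE q' (w 1) ∧
      ∃ a, a ∈ w 4 ∧ a ∉ w 0 ∧ FoL (w 3) (w 4) φ (push a (fun i => w (i+5))) q') ?_
    refine Dfn.and (Dfn.mem (DT.var 0) DL.c) (Dfn.and (DL.EE (DT.var 0) (DT.var 2)) ?_)
    refine Dfn.ex (Q := fun w a => a ∈ w 5 ∧ a ∉ w 1 ∧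
      FoL (w 4) (w 5) φ (push a (fun i => w (i+6))) (w 0)) ?_
    refine Dfn.and (Dfn.mem (DT.var 0) (DT.var 6)) (Dfn.and (Dfn.not (Dfn.mem (DT.var 0) (DT.var 2))) ?_)
    refine Dfn.congr (Dfn.subst (t := fun i v => match i with
      | 0 => v 1
      | 1 => v 5
      | 2 => v 6
      | 3 => v 0
      | i+4 => v (i+7)) ih (fun i => by
        match i with
        | 0 => exact DT.var 1
        | 1 => exact DT.var 5
        | 2 => exact DT.var 6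
        | 3 => exact DT.var 0
        | i+4 => exact DT.var (i+7))) fun v => ?_
    have e : (fun i => (match i+3 with
      | 0 => v 1
      | 1 => v 5
      | 2 => v 6
      | 3 => v 0
      | i+4 => v (i+7) : LL.{u})) = push (v 0) (fun i => v (i+6+1)) := by
      funext i; cases i <;> rfl
    show FoL (v 5) (v 6) φ (fun i => (match i+3 with
      | 0 => v 1
      | 1 => v 5
      | 2 => v 6
      | 3 => v 0
      | i+4 => v (i+7) : LL.{u})) (v 1) ↔ _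
    rw [e]

end Pool.Agent.DQ1
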