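import Pool.Agent.DQ1.Truth
import Pool.Agent.DQ1.Gen1

/-! # The truth lemma -/

namespace Pool.Agent.DQ1

open Cardinal Ordinal
open ZFM (Fm Sat Dfn DT IsZF)

universe u v w


theorem dl_foL_push (r d : LL.{u}) (φ : KF) (v : ℕ → LL.{u}) {s t : (ℕ → LL.{u}) → LL.{u}}
    (hs : DT Set.univ s) (ht : DT Set.univ t) :
    DL (fun w => FoL r d φ (push (s w) v) (t w)) := by
  refine Dfn.congr (Dfn.subst (t := fun i w => match i with
      | 0 => t w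
      | 1 => r
      | 2 => d
      | 3 => s w
      | i+4 => v i) (dl_foL φ) (fun i => by
        match i with
        | 0 => exact ht
        | 1 => exact DL.c
        | 2 => exact DL.c
        | 3 => exact hs
        | i+4 => exact DL.c)) fun w => ?_
  have e : (fun i => (match i+3 with
      | 0 => t w
      | 1 => r
      | 2 => d
      | 3 => s w
      | i+4 => v i : LL.{u})) = push (s w) v := by
    funext i; cases i <;> rfl
  show FoL r d φ (fun i => (match i+3 with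
      | 0 => t w
      | 1 => r
      | 2 => d
      | 3 => s w
      | i+4 => v i : LL.{u})) (t w) ↔ _
  rw [e]

theorem dl_foL_const (r d : LL.{u}) (φ : KF) (v : ℕ → LL.{u}) {t : (ℕ → LL.{u}) → LL.{u}}
    (ht : DT Set.univ t) : DL (fun w => FoL r d φ v (t w)) := by
  exact Dfn.subst (t := fun i w => match i with
      | 0 => t w
      | 1 => r
      | 2 => d
      | i+3 => v i) (dl_foL φ) (fun i => by
        match i with
        | 0 => exact ht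
        | 1 => exact DL.c
        | 2 => exact DL.c
        | i+3 => exact DL.c)

/-- genericity for definable sets of conditions -/
theorem gen_dl {C : Set Ordinal.{u}} (hC : Generic C) {P : LL.{u} → Prop}
    (hP : DL (fun w => P (w 0))) : ∃ (β : Ordinal.{u}) (hβ : β ∈ C), P (sg hC hβ).1 ∨
      ∀ q : Pc.{u}, q ≤ sg hC hβ → ¬ P q.1 := by
  obtain ⟨E, hE⟩ := LL_sep' hP PP
  obtain ⟨β, hβ, h⟩ := gen_dec hC E
  refine ⟨β, hβ, h.imp (fun h => ((hE _).1 h).2) (fun h q hq h1 => ?_)⟩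
  exact h q hq ((hE _).2 ⟨mem_PP.2 q.2, h1⟩)

theorem sg_common {C : Set Ordinal.{u}} (hC : Generic C) {β β' : Ordinal.{u}} (hβ : β ∈ C)
    (hβ' : β' ∈ C) : ∃ (γ : Ordinal.{u}) (hγ : γ ∈ C), sg hC hγ ≤ sg hC hβ ∧
      sg hC hγ ≤ sg hC hβ' := by
  rcases le_total β β' with h | h
  · exact ⟨β', hβ', sg_le hC hβ hβ' h, le_rfl⟩
  · exact ⟨β, hβ, le_rfl, sg_le hC hβ' hβ h⟩

/-- a condition which is an initial segment of a generic condition is generic -/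
theorem eq_sg {C : Set Ordinal.{u}} (hC : Generic C) {β : Ordinal.{u}} (hβ : β ∈ C) {s : Pc.{u}}
    (h : sg hC hβ ≤ s) : ∃ (γ : Ordinal.{u}) (hγ : γ ∈ C), s = sg hC hγ := by
  have h1 : EndExt (seg C β) s.1.1 := h
  obtain ⟨γ, hγ, hmax⟩ := s.2.max
  have h2 : ∀ α, α ∈ ords s.1.1 → α ∈ ords (seg C β) := fun α hα =>
    (h1.1 (show α.toZFSet ∈ s.1.1 from hα) : α.toZFSet ∈ seg C β)
  have hγ' : γ ∈ C ∧ γ ≤ β := mem_ords_seg.1 (h2 γ hγ)
  refine ⟨γ, hγ'.1, ?_⟩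
  apply Subtype.ext
  apply LL.ext
  show s.1.1 = seg C γ
  ext z
  rw [mem_seg]
  constructor
  · intro hz
    obtain ⟨α, _, rfl⟩ := s.2.ord z hz
    exact ⟨α, (mem_ords_seg.1 (h2 α hz)).1, hmax α hz, rfl⟩
  · rintro ⟨α, hα, hαγ, rfl⟩
    by_contra hc
    have h3 := h1.2 α (mem_ords_seg.2 ⟨hα, hαγ.trans hγ'.2⟩) hc γ hγ
    exact absurd h3 (not_lt.2 hαγ)

theorem truth {C : Set Ordinal.{u}} (hC : Generic C) (hN : NoNewSeq.{u}) (r d : LL.{u}) (φ : KF)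
    (v : ℕ → {z : LL.{u} // z ∈ d}) : φ.Sat (Gm hC r d) v ↔
      ∃ (β : Ordinal.{u}) (hβ : β ∈ C), Fo (Nm r d) φ v (sg hC hβ) := by
  have hpv : ∀ (a : {z : LL.{u} // z ∈ d}) (v : ℕ → {z : LL.{u} // z ∈ d}),
      (fun i => (push a v i).1) = push a.1 (fun i => (v i).1) := by
    intro a v; funext i; cases i <;> rfl
  have hfo : ∀ (φ : KF) (a : {z : LL.{u} // z ∈ d}) (v : ℕ → {z : LL.{u} // z ∈ d}) (p : Pc.{u}),
      Fo (Nm r d) φ (push a v) p ↔ FoL r d φ (push a.1 (fun i => (v i).1)) p.1 := by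
    intro φ a v p
    have := fo_iff hN r d φ (push a v) p
    rw [hpv] at this
    exact this
  have hdec : ∀ (φ : KF) (v : ℕ → {z : LL.{u} // z ∈ d}), ∃ (β : Ordinal.{u}) (hβ : β ∈ C),
      Fo (Nm r d) φ v (sg hC hβ) ∨ ∀ q : Pc.{u}, q ≤ sg hC hβ → ¬ Fo (Nm r d) φ v q := by
    intro φ v
    obtain ⟨β, hβ, h⟩ := gen_dl hC (P := fun x => FoL r d φ (fun i => (v i).1) x)
      (dl_foL_const r d φ _ (DT.var 0))
    exact ⟨β, hβ, h.imp (fun h => (fo_iff hN r d φ v _).2 h)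
      (fun h q hq h1 => h q hq ((fo_iff hN r d φ v _).1 h1))⟩
  induction φ generalizing v with
  | rel i xs =>
    show (∃ (β : Ordinal.{u}) (hβ : β ∈ C), sg hC hβ ∈ Nm r d i (xs.map v)) ↔
      ∃ (β : Ordinal.{u}) (hβ : β ∈ C), dens (Nm r d i (xs.map v)) (sg hC hβ)
    constructor
    · rintro ⟨β, hβ, h⟩
      exact ⟨β, hβ, fun q hq => ⟨q, le_rfl, _, h, hq⟩⟩
    · rintro ⟨β, hβ, h⟩
      obtain ⟨β', hβ', h1⟩ := gen_dl hC (P := fun x => ∃ s, s ∈ PP ∧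
        lpair s (lpair (lo i) (lcd ((xs.map v).map Subtype.val))) ∈ r ∧ EE x s) (by
          apply_rules (maxDepth := 1000) [DL.lpairMem, DL.EE, Dfn.ex, Dfn.and, Dfn.mem, DT.var, DL.c])
      rcases h1 with ⟨s, hs, h2, h3⟩ | h1
      · have hs' := mem_PP.1 hs
        have h4 : sg hC hβ' ≤ ⟨s, hs'⟩ := (EE_iff (sg hC hβ').2 hs').1 h3
        obtain ⟨γ, hγ, h5⟩ := eq_sg hC hβ' h4
        refine ⟨γ, hγ, ?_⟩
        rw [← h5]
        exact h2
      · obtain ⟨γ, hγ, h2, h3⟩ := sg_common hC hβ hβ'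
        obtain ⟨q, hq, s, hs, h4⟩ := h _ h2
        exact absurd ⟨s.1, mem_PP.2 s.2, hs, (EE_iff q.2 s.2).2 h4⟩ (h1 q (hq.trans h3))
  | eq x y =>
    constructor
    · intro h
      obtain ⟨β, hβ, _⟩ := gen_dl hC (P := fun _ => True) (Dfn.prop True)
      exact ⟨β, hβ, h⟩
    · rintro ⟨_, _, h⟩; exact h
  | neg φ ih =>
    refine (not_congr (ih v)).trans ?_
    constructor
    · intro h
      obtain ⟨β, hβ, h1⟩ := hdec φ v
      rcases h1 with h1 | h1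
      · exact absurd ⟨β, hβ, h1⟩ h
      · exact ⟨β, hβ, h1⟩
    · rintro ⟨β, hβ, h⟩ ⟨β', hβ', h'⟩
      obtain ⟨γ, hγ, h2, h3⟩ := sg_common hC hβ hβ'
      exact h _ h2 (fo_mono φ h3 h')
  | and φ ψ ih1 ih2 =>
    refine (and_congr (ih1 v) (ih2 v)).trans ?_
    constructor
    · rintro ⟨⟨β, hβ, h⟩, ⟨β', hβ', h'⟩⟩
      obtain ⟨γ, hγ, h2, h3⟩ := sg_common hC hβ hβ'
      exact ⟨γ, hγ, fo_mono φ h2 h, fo_mono ψ h3 h'⟩
    · rintro ⟨β, hβ, h, h'⟩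
      exact ⟨⟨β, hβ, h⟩, ⟨β, hβ, h'⟩⟩
  | all φ ih =>
    show (∀ a, φ.Sat (Gm hC r d) (push a v)) ↔
      ∃ (β : Ordinal.{u}) (hβ : β ∈ C), ∀ a, Fo (Nm r d) φ (push a v) (sg hC hβ)
    constructor
    · intro h
      obtain ⟨β, hβ, h1⟩ := gen_dl hC (P := fun x => ∃ a, a ∈ d ∧
        FoL r d (.neg φ) (push a (fun i => (v i).1)) x) (by
          refine Dfn.ex (Dfn.and (Dfn.mem (DT.var 0) DL.c) ?_)
          exact dl_foL_push r d (.neg φ) _ (DT.var 0) (DT.var 1))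
      rcases h1 with ⟨a, ha, h1⟩ | h1
      · exfalso
        have h2 := (hfo (.neg φ) ⟨a, ha⟩ v (sg hC hβ)).2 h1
        obtain ⟨β', hβ', h3⟩ := (ih _).1 (h ⟨a, ha⟩)
        obtain ⟨γ, hγ, h4, h5⟩ := sg_common hC hβ hβ'
        exact h2 _ h4 (fo_mono φ h5 h3)
      · refine ⟨β, hβ, fun a => fo_dense φ fun q hq => ?_⟩
        by_contra hc
        push Not at hc
        exact h1 q hq ⟨a.1, a.2, (hfo (.neg φ) a v q).1 hc⟩
    · rintro ⟨β, hβ, h⟩ a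
      exact (ih _).2 ⟨β, hβ, h a⟩
  | q φ ih =>
    show ¬ {a | φ.Sat (Gm hC r d) (push a v)}.Countable ↔
      ∃ (β : Ordinal.{u}) (hβ : β ∈ C), Fo (Nm r d) (.q φ) v (sg hC hβ)
    constructor
    · intro h
      obtain ⟨β, hβ, h0⟩ := hdec (.q φ) v
      rcases h0 with h0 | h0
      · exact ⟨β, hβ, h0⟩
      exfalso
      have hD : DL (fun w : ℕ → LL.{u} => ∃ c, CtL c ∧ ∀ x, x ∈ PP → EE x (w 0) → ∀ a, a ∈ d →
          a ∉ c → ¬ FoL r d φ (push a (fun i => (v i).1)) x) := by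
        refine Dfn.ex (Dfn.and (DL.ctL (DT.var 0)) ?_)
        refine Dfn.all (Q := fun w x => x ∈ PP → EE x (w 1) → ∀ a, a ∈ d →
          a ∉ w 0 → ¬ FoL r d φ (push a (fun i => (v i).1)) x) ?_
        refine Dfn.imp (Dfn.mem (DT.var 0) DL.c) (Dfn.imp (DL.EE (DT.var 0) (DT.var 2)) ?_)
        refine Dfn.all (Q := fun w a => a ∈ d →
          a ∉ w 1 → ¬ FoL r d φ (push a (fun i => (v i).1)) (w 0)) ?_
        refine Dfn.imp (Dfn.mem (DT.var 0) DL.c)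
          (Dfn.imp (Dfn.not (Dfn.mem (DT.var 0) (DT.var 2))) (Dfn.not ?_))
        exact dl_foL_push r d φ _ (DT.var 0) (DT.var 1)
      obtain ⟨β', hβ', h1⟩ := gen_dl hC (P := fun x => ∃ c, CtL c ∧ ∀ y, y ∈ PP → EE y x → ∀ a,
        a ∈ d → a ∉ c → ¬ FoL r d φ (push a (fun i => (v i).1)) y) hD
      rcases h1 with ⟨c, hc, h1⟩ | h1
      · apply h
        refine (((ctL_iff hN).1 hc).preimage Subtype.val_injective).mono ?_
        intro a ha
        by_contra hac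
        obtain ⟨β'', hβ'', h2⟩ := (ih _).1 ha
        obtain ⟨γ, hγ, h3, h4⟩ := sg_common hC hβ' hβ''
        refine h1 (sg hC hγ).1 (mem_PP.2 (sg hC hγ).2) ((EE_iff (sg hC hγ).2 (sg hC hβ').2).2 h3)
          a.1 a.2 hac ((hfo φ a v _).1 (fo_mono φ h4 h2))
      · obtain ⟨γ, hγ, h3, h4⟩ := sg_common hC hβ hβ'
        obtain ⟨q1, hq1, c, hc, h5⟩ := not_q (N := Nm r d) (φ := φ) (v := v) (p := sg hC hγ)
          (fun q hq => h0 q (hq.trans h3))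
        obtain ⟨c', hc'⟩ := exists_LL_of_countable hN (hc.image Subtype.val)
        refine h1 q1 (hq1.trans h4) ⟨c', (ctL_iff hN).2 ((hc.image Subtype.val).mono
          fun z hz => (hc' z).1 hz), fun y hy hyq a ha hac h6 => ?_⟩
        have hy' := mem_PP.1 hy
        refine h5 ⟨y, hy'⟩ ((EE_iff hy' q1.2).1 hyq) ⟨a, ha⟩ (fun h7 => hac ((hc' a).2
          ⟨⟨a, ha⟩, h7, rfl⟩)) ((hfo φ ⟨a, ha⟩ v ⟨y, hy'⟩).2 h6)
    · rintro ⟨β, hβ, h⟩ hS
      obtain ⟨c', hc'⟩ := exists_LL_of_countable hN (hS.image Subtype.val)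
      obtain ⟨β', hβ', h1⟩ := gen_dl hC (P := fun x => ∃ a, a ∈ d ∧ a ∉ c' ∧
        FoL r d φ (push a (fun i => (v i).1)) x) (by
          refine Dfn.ex (Dfn.and (Dfn.mem (DT.var 0) DL.c)
            (Dfn.and (Dfn.not (Dfn.mem (DT.var 0) DL.c)) ?_))
          exact dl_foL_push r d φ _ (DT.var 0) (DT.var 1))
      rcases h1 with ⟨a, ha, hac, h1⟩ | h1
      · refine hac ((hc' a).2 ⟨⟨a, ha⟩, ?_, rfl⟩)
        exact (ih _).2 ⟨β', hβ', (hfo φ ⟨a, ha⟩ v _).2 h1⟩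
      · obtain ⟨γ, hγ, h3, h4⟩ := sg_common hC hβ hβ'
        obtain ⟨q, hq, a, ha, h5⟩ := h (sg hC hγ) h3 _ hS
        refine h1 q (hq.trans h4) ⟨a.1, a.2, fun h6 => ?_, (hfo φ a v q).1 h5⟩
        obtain ⟨a', ha', h7⟩ := (hc' _).1 h6
        rw [Subtype.ext h7] at ha'
        exact ha ha'

end Pool.Agent.DQ1
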