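import Pool.Agent.DQ1.KF

/-! # Definable ultrapowers of countable weak models -/

namespace Pool.Agent.DQ1

open Function Cardinal Set

universe u v w

namespace WM

variable {D : Type w} {W : WM D}

theorem TD.rep2 [Nonempty D] {R : D → D → Prop} (hR : W.TD (fun v => R (v 0) (v 1))) :
    ∃ (ψ : KF) (w : ℕ → D), ∀ x y, R x y ↔ W.T ψ (push x (push y w)) := by
  classical
  obtain ⟨φ, σ, h1⟩ := TD.under hR
  refine ⟨φ.ren (lift fun i => if σ i = .inl 0 then 0 else i+1), fun i => match σ i with
    | .inl _ => Classical.arbitrary D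
    | .inr c => c, fun x y => ?_⟩
  have h3 := h1 (push y (fun _ => Classical.arbitrary D)) x
  simp only [push_zero, push_succ] at h3
  rw [h3, W.ren, push_comp_lift]
  have e : (fun i => slot (push y fun _ => Classical.arbitrary D) (σ i)) =
      (push y fun i => match σ i with
        | .inl _ => Classical.arbitrary D
        | .inr c => c) ∘ (fun i => if σ i = .inl 0 then 0 else i+1) := by
    funext i
    simp only [comp]
    split_ifs with h
    · rw [h]; rfl
    · simp only [push_succ]
      match hh : σ i with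
      | .inl 0 => exact absurd hh h
      | .inl (j+1) => rfl
      | .inr c => rfl
  rw [e]

/-- parameters from a list -/
noncomputable def lst [Nonempty D] (l : List D) : ℕ → D := fun i => l.getD i (Classical.arbitrary D)

theorem exists_lst [Nonempty D] (w : ℕ → D) (n : ℕ) : ∃ l : List D, ∀ i < n, lst l i = w i := by
  refine ⟨(List.range n).map w, fun i hi => ?_⟩
  unfold lst
  rw [List.getD_eq_getElem _ _ (by simpa using hi)]
  simp

theorem DS.exists_lst [Nonempty D] {X : Set D} (h : W.DS X) :
    ∃ (φ : KF) (l : List D), X = {a | W.T φ (push a (lst l))} := by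
  obtain ⟨φ, v, h1⟩ := h.exists
  obtain ⟨l, hl⟩ := WM.exists_lst v φ.bd
  refine ⟨φ, l, Set.ext fun a => ?_⟩
  rw [h1]
  refine W.congr_bd fun i hi => ?_
  cases i with
  | zero => rfl
  | succ i => exact (hl i (by omega)).symm

theorem countable_ds [Nonempty D] [Countable D] : {X | W.DS X}.Countable := by
  have : {X | W.DS X} ⊆ Set.range fun p : KF × List D => {a | W.T p.1 (push a (lst p.2))} := by
    intro X hX
    obtain ⟨φ, l, h⟩ := DS.exists_lst hX
    exact ⟨(φ, l), h.symm⟩
  exact (Set.countable_range _).mono this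

variable (W)

/-- definable functions -/
def Fn : Type w := {F : D → D // W.TD (fun v => F (v 0) = v 1)}

variable {W}

theorem countable_fn [Nonempty D] [Countable D] : Countable W.Fn := by
  have h : ∀ F : W.Fn, ∃ p : KF × List D, ∀ a b, F.1 a = b ↔ W.T p.1 (push a (push b (lst p.2))) := by
    intro F
    obtain ⟨ψ, w, h⟩ := TD.rep2 (R := fun a b => F.1 a = b) F.2
    obtain ⟨l, hl⟩ := WM.exists_lst w ψ.bd
    refine ⟨(ψ, l), fun a b => ?_⟩
    rw [h]
    refine W.congr_bd fun i hi => ?_
    match i with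
    | 0 => rfl
    | 1 => rfl
    | i+2 => exact (hl i (by omega)).symm
  choose g hg using h
  have : Injective g := by
    intro F G hFG
    apply Subtype.ext
    funext a
    have h1 := (hg F a (F.1 a)).1 rfl
    rw [hFG] at h1
    exact ((hg G a (F.1 a)).2 h1).symm
  exact this.countable

theorem TD.const_eq (a : D) (j : ℕ) : W.TD (fun v => a = v j) := by
  have := (TD.eqv (W := W) 0 1).subst (fun i => if i = 0 then .inr a else .inl j)
  exact this.congr fun v => by simp [slot]

/-- composition with definable functions of two variables -/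
theorem TD.comp2 (φ : KF) (f : ℕ → D → D → D) (hf : ∀ n, W.TD (fun v => f n (v 0) (v 1) = v 2)) :
    W.TD (fun v => W.T φ (fun n => f n (v 0) (v 1))) := by
  have key : ∀ k, W.TD (fun v => W.T φ (fun n => if n < k then f n (v 0) (v 1) else v (n+2))) := by
    intro k
    induction k with
    | zero =>
      have := (TD.base (W := W) φ).subst (fun n => .inl (n+2))
      exact this.congr fun v => by simp [slot]
    | succ k ih =>
      have h1 : W.TD (fun v => ∃ y, f k (push y v 1) (push y v 2) = push y v 0 ∧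
          W.T φ (fun n => if n < k then f n (push y v 1) (push y v 2) else
            if n + 2 = k + 2 then push y v 0 else push y v (n+3))) := by
        refine TD.ex (P := fun v => f k (v 1) (v 2) = v 0 ∧
          W.T φ (fun n => if n < k then f n (v 1) (v 2) else
            if n + 2 = k + 2 then v 0 else v (n+3))) (TD.and ?_ ?_)
        · have := (hf k).subst (fun i => if i = 0 then .inl 1 else if i = 1 then .inl 2 else .inl 0)
          exact this.congr fun v => by simp [slot]
        · have := ih.subst (fun i => if i = 0 then .inl 1 else if i = 1 then .inl 2 else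
            if i = k + 2 then .inl 0 else .inl (i+1))
          refine this.congr fun v => ?_
          have e : (fun n => if n < k then f n
              (slot v (if (0:ℕ) = 0 then .inl 1 else if (0:ℕ) = 1 then .inl 2 else
                if (0:ℕ) = k + 2 then .inl 0 else .inl (0+1)))
              (slot v (if (1:ℕ) = 0 then .inl 1 else if (1:ℕ) = 1 then .inl 2 else
                if (1:ℕ) = k + 2 then .inl 0 else .inl (1+1)))
              else slot v (if n+2 = 0 then .inl 1 else if n+2 = 1 then .inl 2 else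
                if n+2 = k + 2 then .inl 0 else .inl (n+2+1))) =
              fun n => if n < k then f n (v 1) (v 2) else
                if n + 2 = k + 2 then v 0 else v (n+3) := by
            funext n
            by_cases h1 : n < k
            · simp [h1, slot]
            · by_cases h2 : n = k
              · subst h2; simp [slot]
              · simp [h1, h2, slot]
          exact Iff.of_eq (congrArg (W.T φ) e)
      refine h1.congr fun v => ?_
      simp only [push_zero, push_succ]
      constructor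
      · rintro ⟨y, hy, h⟩
        subst hy
        refine (W.congr_bd fun i _ => ?_).1 h
        by_cases h1 : i < k
        · rw [if_pos h1, if_pos (by omega)]
        · by_cases h2 : i = k
          · subst h2
            rw [if_neg h1, if_pos rfl, if_pos (by omega)]
          · rw [if_neg h1, if_neg (by omega), if_neg (by omega)]
      · intro h
        refine ⟨_, rfl, (W.congr_bd fun i _ => ?_).1 h⟩
        by_cases h1 : i < k
        · rw [if_pos h1, if_pos (by omega)]
        · by_cases h2 : i = k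
          · subst h2
            rw [if_neg h1, if_pos rfl, if_pos (by omega)]
          · rw [if_neg h1, if_neg (by omega), if_neg (by omega)]
  refine (key φ.bd).congr fun v => W.congr_bd fun i hi => ?_
  rw [if_pos hi]

theorem Fn.td3 (F : W.Fn) : W.TD (fun v => F.1 (v 0) = v 2) := by
  have := F.2.subst (fun i => if i = 0 then .inl 0 else .inl 2)
  exact this.congr fun v => by simp [slot]

theorem Fn.ds (φ : KF) (F : ℕ → W.Fn) : W.DS {i | W.T φ (fun n => (F n).1 i)} := by
  have := TD.comp2 (W := W) φ (fun n a _ => (F n).1 a) (fun n => (F n).td3)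
  exact this

theorem Fn.td (φ : KF) (F : ℕ → W.Fn) :
    W.TD (fun v => W.T φ (push (v 1) (fun n => (F n).1 (v 0)))) := by
  have h : ∀ n, W.TD (fun v => (match n with
      | 0 => v 1
      | n+1 => (F n).1 (v 0)) = v 2) := by
    intro n
    cases n with
    | zero => exact TD.eqv 1 2
    | succ n => exact (F n).td3
  have := TD.comp2 (W := W) φ (fun n a b => match n with
    | 0 => b
    | n+1 => (F n).1 a) h
  refine this.congr fun v => ?_
  have e : (fun n => (match n with
      | 0 => v 1
      | n+1 => (F n).1 (v 0) : D)) = push (v 1) (fun n => (F n).1 (v 0)) := by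
    funext n; cases n <;> rfl
  exact Iff.of_eq (congrArg (W.T φ) e)

/-! ### the ultrafilter -/

/-- the requirements for the ultrafilter -/
def Rq (W : WM D) : {X : Set D // W.DS X} ⊕ (W.Fn × {Y : Set D // W.DS Y ∧ ¬ W.Big Y}) → Set D → Prop
  | .inl X, A => A ⊆ X.1 ∨ A ⊆ X.1ᶜ
  | .inr p, A => (A ∩ p.1.1 ⁻¹' p.2.1 = ∅) ∨ ∃ y, A ⊆ p.1.1 ⁻¹' {y}

theorem DS.compl {X : Set D} (h : W.DS X) : W.DS Xᶜ := TD.not h
theorem DS.inter {X Y : Set D} (h : W.DS X) (h' : W.DS Y) : W.DS (X ∩ Y) := TD.and h h'
theorem DS.union {X Y : Set D} (h : W.DS X) (h' : W.DS Y) : W.DS (X ∪ Y) := TD.or h h'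
theorem DS.single (a : D) : W.DS {a} := (TD.const_eq a 0).congr fun v => by
  rw [Set.mem_singleton_iff]; exact eq_comm

theorem DS.preimage {Y : Set D} (h : W.DS Y) (F : W.Fn) : W.DS (F.1 ⁻¹' Y) := by
  have : W.TD (fun v => ∃ y, F.1 (push y v 1) = push y v 0 ∧ push y v 0 ∈ Y) := by
    refine TD.ex (P := fun v => F.1 (v 1) = v 0 ∧ v 0 ∈ Y) (TD.and ?_ h)
    have := F.2.subst (fun i => if i = 0 then .inl 1 else .inl 0)
    exact this.congr fun v => by simp [slot]
  exact this.congr fun v => by simp

theorem rq_dense [Nonempty D] (r) (A : Set D) (hA : W.Big A) :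
    ∃ A', A' ⊆ A ∧ W.Big A' ∧ Rq W r A' := by
  rcases r with X | ⟨F, Y⟩
  · have h1 : W.Big ((A ∩ X.1) ∪ (A ∩ X.1ᶜ)) := by
      rwa [← Set.inter_union_distrib_left, Set.union_compl_self, Set.inter_univ]
    rcases h1.union (hA.ds.inter X.2) (hA.ds.inter X.2.compl) with h | h
    · exact ⟨_, Set.inter_subset_left, h, Or.inl Set.inter_subset_right⟩
    · exact ⟨_, Set.inter_subset_left, h, Or.inr Set.inter_subset_right⟩
  · have hY := Y.2.1.preimage F
    have h1 : W.Big ((A ∩ F.1 ⁻¹' Y.1) ∪ (A ∩ (F.1 ⁻¹' Y.1)ᶜ)) := by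
      rwa [← Set.inter_union_distrib_left, Set.union_compl_self, Set.inter_univ]
    rcases h1.union (hA.ds.inter hY) (hA.ds.inter hY.compl) with h | h
    · -- use Keisler's axiom
      have h2 : W.TD (fun v => (v 1 ∈ A ∧ F.1 (v 1) = v 0) ∧ v 0 ∈ Y.1) := by
        refine TD.and (TD.and ?_ ?_) Y.2.1
        · exact (TD.subst hA.ds (fun _ => .inl 1)).congr fun v => Iff.rfl
        · have := F.2.subst (fun i => if i = 0 then .inl 1 else .inl 0)
          exact this.congr fun v => by simp [slot]
      have h3 : W.Big {y | ∃ x, (y ∈ A ∧ F.1 y = x) ∧ x ∈ Y.1} := by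
        have e : {y | ∃ x, (y ∈ A ∧ F.1 y = x) ∧ x ∈ Y.1} = A ∩ F.1 ⁻¹' Y.1 := by
          ext y; simp
        rwa [e]
      rcases Big.fiber (R := fun x y => (y ∈ A ∧ F.1 y = x) ∧ x ∈ Y.1) h2 h3 with ⟨x, hx⟩ | hx
      · exact ⟨_, fun y hy => hy.1.1, hx, Or.inr ⟨x, fun y hy => hy.1.2⟩⟩
      · exact absurd (hx.mono Y.2.1 fun x ⟨_, hy⟩ => hy.2) Y.2.2
    · refine ⟨_, Set.inter_subset_left, h, Or.inl ?_⟩
      rw [Set.inter_assoc, Set.compl_inter_self, Set.inter_empty]

theorem exists_seq {ι : Type*} [Countable ι] (Q : Set D → Prop) (r : ι → Set D → Prop)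
    (h : ∀ i A, Q A → ∃ A', A' ⊆ A ∧ Q A' ∧ r i A') (X0 : Set D) (h0 : Q X0) :
    ∃ A : ℕ → Set D, A 0 = X0 ∧ (∀ n, Q (A n)) ∧ (∀ n, A (n+1) ⊆ A n) ∧ ∀ i, ∃ n, r i (A n) := by
  classical
  by_cases hι : Nonempty ι
  · obtain ⟨e, he⟩ := exists_surjective_nat ι
    choose g hg1 hg2 hg3 using h
    let s : ℕ → {A : Set D // Q A} := fun n => Nat.rec ⟨X0, h0⟩
      (fun n A => ⟨g (e n) A.1 A.2, hg2 _ _ _⟩) n
    have hs : ∀ n, s (n+1) = ⟨g (e n) (s n).1 (s n).2, hg2 _ _ _⟩ := fun n => rfl
    refine ⟨fun n => (s n).1, rfl, fun n => (s n).2, fun n => ?_, fun i => ?_⟩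
    · show (s (n+1)).1 ⊆ _
      rw [hs]
      exact hg1 _ _ _
    · obtain ⟨n, rfl⟩ := he i
      refine ⟨n+1, ?_⟩
      show r (e n) (s (n+1)).1
      rw [hs]
      exact hg3 _ _ _
  · exact ⟨fun _ => X0, rfl, fun _ => h0, fun _ => subset_rfl, fun i => absurd ⟨i⟩ hι⟩

/-- the ultrafilters used -/
structure UF (W : WM D) (X0 : Set D) where
  A : ℕ → Set D
  zero : A 0 = X0
  big : ∀ n, W.Big (A n)
  dec : ∀ n, A (n+1) ⊆ A n
  rq : ∀ r, ∃ n, Rq W r (A n)

theorem exists_uf [Nonempty D] [Countable D] {X0 : Set D} (h : W.Big X0) : Nonempty (UF W X0) := by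
  have : Countable W.Fn := countable_fn
  have h1 : Countable {X : Set D // W.DS X} := countable_ds.to_subtype
  have h2 : Countable {Y : Set D // W.DS Y ∧ ¬ W.Big Y} := by
    refine (Set.Countable.to_subtype (s := {Y | W.DS Y ∧ ¬ W.Big Y}) ?_)
    exact (countable_ds (W := W)).mono fun Y hY => hY.1
  obtain ⟨A, h3, h4, h5, h6⟩ := exists_seq W.Big (Rq W) (fun r A hA => rq_dense r A hA) X0 h
  exact ⟨⟨A, h3, h4, h5, h6⟩⟩

namespace UF

variable {X0 : Set D} (U : UF W X0)

/-- membership in the ultrafilter -/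
def M (X : Set D) : Prop := ∃ n, U.A n ⊆ X

theorem anti {m n : ℕ} (h : m ≤ n) : U.A n ⊆ U.A m := by
  induction n, h using Nat.le_induction with
  | base => exact subset_rfl
  | succ n _ ih => exact (U.dec n).trans ih

theorem mono {X Y : Set D} (h : U.M X) (hXY : X ⊆ Y) : U.M Y := by
  obtain ⟨n, hn⟩ := h
  exact ⟨n, hn.trans hXY⟩

theorem inter {X Y : Set D} (h : U.M X) (h' : U.M Y) : U.M (X ∩ Y) := by
  obtain ⟨n, hn⟩ := h
  obtain ⟨m, hm⟩ := h'
  exact ⟨max m n, fun a ha => ⟨hn (U.anti (le_max_right m n) ha), hm (U.anti (le_max_left m n) ha)⟩⟩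

theorem univ : U.M Set.univ := ⟨0, Set.subset_univ _⟩

variable [Nonempty D]

theorem nonempty {X : Set D} (h : U.M X) : X.Nonempty := by
  obtain ⟨n, hn⟩ := h
  exact (U.big n).nonempty.mono hn

theorem not_empty : ¬ U.M ∅ := fun h => by simpa using U.nonempty h

omit [Nonempty D] in
theorem ultra {X : Set D} (hX : W.DS X) : U.M X ∨ U.M Xᶜ := by
  obtain ⟨n, hn⟩ := U.rq (.inl ⟨X, hX⟩)
  rcases hn with h | h
  · exact Or.inl ⟨n, h⟩
  · exact Or.inr ⟨n, h⟩

theorem compl_iff {X : Set D} (hX : W.DS X) : U.M Xᶜ ↔ ¬ U.M X := by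
  constructor
  · intro h h'
    have := U.inter h' h
    rw [Set.inter_compl_self] at this
    exact U.not_empty this
  · intro h
    exact (U.ultra hX).resolve_left h

omit [Nonempty D] in
theorem union_iff {X Y : Set D} (hX : W.DS X) (_hY : W.DS Y) : U.M (X ∪ Y) ↔ U.M X ∨ U.M Y := by
  constructor
  · intro h
    rcases U.ultra hX with h1 | h1
    · exact Or.inl h1
    · refine Or.inr (U.mono (U.inter h h1) ?_)
      rintro a ⟨h2 | h2, h3⟩
      · exact absurd h2 h3
      · exact h2
  · rintro (h | h)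
    · exact U.mono h Set.subset_union_left
    · exact U.mono h Set.subset_union_right

omit [Nonempty D] in
theorem inter_iff {X Y : Set D} : U.M (X ∩ Y) ↔ U.M X ∧ U.M Y :=
  ⟨fun h => ⟨U.mono h Set.inter_subset_left, U.mono h Set.inter_subset_right⟩,
    fun h => U.inter h.1 h.2⟩

/-- truth in the ultrapower -/
def TT (φ : KF) (F : ℕ → W.Fn) : Prop := U.M {i | W.T φ (fun n => (F n).1 i)}

/-- equality in the ultrapower -/
@[reducible] def setoid : Setoid W.Fn where
  r F G := U.M {i | F.1 i = G.1 i}
  iseqv := ⟨fun F => by simpa using U.univ, fun {F G} h => U.mono h fun i hi => hi.symm,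
    fun {F G H} h h' => U.mono (U.inter h h') fun i hi => hi.1.trans hi.2⟩

omit [Nonempty D] in
theorem tt_congr {φ : KF} {F G : ℕ → W.Fn} (h : ∀ n < φ.bd, U.M {i | (F n).1 i = (G n).1 i}) :
    U.TT φ F → U.TT φ G := by
  intro hT
  have h1 : ∀ k, k ≤ φ.bd → U.M {i | ∀ n < k, (F n).1 i = (G n).1 i} := by
    intro k hk
    induction k with
    | zero => simpa using U.univ
    | succ k ih =>
      refine U.mono (U.inter (ih (by omega)) (h k (by omega))) fun i hi n hn => ?_
      rcases Nat.lt_succ_iff_lt_or_eq.1 hn with h2 | h2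
      · exact hi.1 n h2
      · subst h2; exact hi.2
  refine U.mono (U.inter hT (h1 _ le_rfl)) fun i hi => ?_
  exact (W.congr_bd fun n hn => hi.2 n hn).1 hi.1

end UF

end WM

end Pool.Agent.DQ1
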